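import Pool.Agent.Lib.MP_1ad228_ntF.Defs

namespace Pool.Agent.Lib.MP_1ad228_ntF

open Classical

section ring
variable {n d : ℕ} {R : Type*} [CommRing R]

theorem ev_tp (u : Fin d → Vc n R) (x : Vc n R) : ev (tp u) x = ∏ k, lin (u k) x := by
  unfold ev tp Pool.Agent.Lib.MP_219881_nt.lin
  rw [Finset.prod_univ_sum, Fintype.piFinset_univ]
  exact Finset.sum_congr rfl fun s _ => Finset.prod_mul_distrib.symm

theorem ev_add (a b : Ten n d R) (x : Vc n R) : ev (a + b) x = ev a x + ev b x := by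
  simp only [ev, Pi.add_apply, add_mul, Finset.sum_add_distrib]

theorem ev_sub (a b : Ten n d R) (x : Vc n R) : ev (a - b) x = ev a x - ev b x := by
  simp only [ev, Pi.sub_apply, sub_mul, Finset.sum_sub_distrib]

theorem ev_neg (a : Ten n d R) (x : Vc n R) : ev (-a) x = -ev a x := by
  simp only [ev, Pi.neg_apply, neg_mul, Finset.sum_neg_distrib]

theorem ev_zero (x : Vc n R) : ev (0 : Ten n d R) x = 0 := by
  simp [ev]

theorem ev_smul (c : R) (a : Ten n d R) (x : Vc n R) : ev (fun s => c * a s) x = c * ev a x := by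
  simp only [ev, Finset.mul_sum, mul_assoc]

theorem ev_smul' (c : R) (a : Ten n d R) (x : Vc n R) : ev (c • a) x = c * ev a x := by
  rw [← ev_smul]; rfl

theorem ev_sum {ι : Type*} (s : Finset ι) (a : ι → Ten n d R) (x : Vc n R) :
    ev (∑ t ∈ s, a t) x = ∑ t ∈ s, ev (a t) x := by
  induction s using Finset.induction_on with
  | empty => simp [ev_zero]
  | insert t s ht ih => rw [Finset.sum_insert ht, Finset.sum_insert ht, ev_add, ih]

theorem ev_scale (c : R) (a : Ten n d R) (x : Vc n R) :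
    ev a (fun i => c * x i) = c ^ d * ev a x := by
  simp only [ev, Finset.mul_sum]
  refine Finset.sum_congr rfl fun s _ => ?_
  rw [Finset.prod_mul_distrib, Finset.prod_const, Finset.card_univ, Fintype.card_fin]
  ring

theorem ev_map {S : Type*} [CommRing S] (f : R →+* S) (a : Ten n d R) (x : Vc n R) :
    ev (fun s => f (a s)) (fun i => f (x i)) = f (ev a x) := by
  simp only [ev, map_sum, map_mul, map_prod]

theorem dev_map {S : Type*} [CommRing S] (f : R →+* S) (a : Ten n d R) (x : Vc n R)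
    (j : Fin (n + 1)) :
    dev (fun s => f (a s)) (fun i => f (x i)) j = f (dev a x j) := by
  simp only [dev, map_sum]
  refine Finset.sum_congr rfl fun k _ => Finset.sum_congr rfl fun s _ => ?_
  split_ifs
  · rw [map_mul, map_prod]
  · rw [map_zero]

theorem dev_add (a b : Ten n d R) (x : Vc n R) (j : Fin (n + 1)) :
    dev (a + b) x j = dev a x j + dev b x j := by
  simp only [dev, Pi.add_apply, ← Finset.sum_add_distrib]
  refine Finset.sum_congr rfl fun k _ => Finset.sum_congr rfl fun s _ => ?_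
  split_ifs
  · ring
  · ring

theorem dev_smul' (c : R) (a : Ten n d R) (x : Vc n R) (j : Fin (n + 1)) :
    dev (c • a) x j = c * dev a x j := by
  simp only [dev, Pi.smul_apply, smul_eq_mul, Finset.mul_sum]
  refine Finset.sum_congr rfl fun k _ => Finset.sum_congr rfl fun s _ => ?_
  split_ifs
  · ring
  · ring

theorem dev_neg (a : Ten n d R) (x : Vc n R) (j : Fin (n + 1)) :
    dev (-a) x j = -dev a x j := by
  have h := dev_smul' (-1 : R) a x j
  simpa using h

theorem dev_sub (a b : Ten n d R) (x : Vc n R) (j : Fin (n + 1)) :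
    dev (a - b) x j = dev a x j - dev b x j := by
  rw [sub_eq_add_neg, dev_add, dev_neg, sub_eq_add_neg]

/-- Euler's identity. -/
theorem euler (a : Ten n d R) (x : Vc n R) : ∑ j, dev a x j * x j = (d : R) * ev a x := by
  have h : ∀ k : Fin d, ∑ j, (∑ s : Fin d → Fin (n + 1),
      if s k = j then a s * ∏ l ∈ Finset.univ.erase k, x (s l) else 0) * x j = ev a x := by
    intro k
    simp only [Finset.sum_mul]
    rw [Finset.sum_comm]
    unfold ev
    refine Finset.sum_congr rfl fun s _ => ?_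
    rw [Finset.sum_eq_single (s k)]
    · rw [if_pos rfl, mul_assoc, Finset.prod_erase_mul _ _ (Finset.mem_univ k)]
    · intro j _ hj
      rw [if_neg (Ne.symm hj), zero_mul]
    · intro h
      exact absurd (Finset.mem_univ _) h
  have h2 : ∑ j, dev a x j * x j = ∑ k : Fin d, ∑ j, (∑ s : Fin d → Fin (n + 1),
      if s k = j then a s * ∏ l ∈ Finset.univ.erase k, x (s l) else 0) * x j := by
    rw [Finset.sum_comm]
    refine Finset.sum_congr rfl fun j _ => ?_
    rw [← Finset.sum_mul]
    rfl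
  rw [h2, Finset.sum_congr rfl fun k _ => h k, Finset.sum_const, Finset.card_univ,
    Fintype.card_fin, nsmul_eq_mul]

end ring

section int
variable {n d : ℕ}

theorem ev_ct (R : Type*) [CommRing R] (a : Ten n d ℤ) (x : Vc n ℤ) :
    ev (ct R a) (cv R x) = ((ev a x : ℤ) : R) := by
  have h := ev_map (Int.castRingHom R) a x
  exact h

theorem dev_ct (R : Type*) [CommRing R] (a : Ten n d ℤ) (x : Vc n ℤ) (j : Fin (n + 1)) :
    dev (ct R a) (cv R x) j = ((dev a x j : ℤ) : R) := by
  have h := dev_map (Int.castRingHom R) a x j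
  exact h

theorem ct_add (R : Type*) [CommRing R] (a b : Ten n d ℤ) : ct R (a + b) = ct R a + ct R b := by
  funext s; simp [ct]

theorem ct_sub (R : Type*) [CommRing R] (a b : Ten n d ℤ) : ct R (a - b) = ct R a - ct R b := by
  funext s; simp [ct]

theorem mem_Box {X : ℕ} {a : Ten n d ℤ} : a ∈ Box n d X ↔ ∀ s, |a s| ≤ (X : ℤ) := by
  simp [Box, Fintype.mem_piFinset, Finset.mem_Icc, abs_le]

theorem card_Box (n d X : ℕ) : (Box n d X).card = (2 * X + 1) ^ (n + 1) ^ d := by
  have h : ((X : ℤ) + 1 - -(X : ℤ)).toNat = 2 * X + 1 := by omega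
  simp only [Box, Fintype.card_piFinset, Int.card_Icc, h, Finset.prod_const, Finset.card_univ,
    Fintype.card_fun, Fintype.card_fin]

theorem tn_le {X : ℕ} {a : Ten n d ℤ} : tn a ≤ X ↔ ∀ s, |a s| ≤ (X : ℤ) := by
  simp only [tn, Finset.sup_le_iff, Finset.mem_univ, true_implies]
  constructor
  · intro h s
    have := h s
    rw [← Int.natCast_natAbs]
    exact_mod_cast this
  · intro h s
    have := h s
    rw [← Int.natCast_natAbs] at this
    exact_mod_cast this

theorem mem_Box_iff_tn {X : ℕ} {a : Ten n d ℤ} : a ∈ Box n d X ↔ tn a ≤ X := by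
  rw [mem_Box, tn_le]

/-- Trivial bound for the value. -/
theorem ev_bound {X Y : ℕ} {a : Ten n d ℤ} {x : Vc n ℤ} (ha : ∀ s, |a s| ≤ (X : ℤ))
    (hx : ∀ i, |x i| ≤ (Y : ℤ)) : |ev a x| ≤ (n + 1) ^ d * X * Y ^ d := by
  have h1 : ∀ s : Fin d → Fin (n + 1), |a s * ∏ k, x (s k)| ≤ (X : ℤ) * Y ^ d := by
    intro s
    rw [abs_mul, Finset.abs_prod]
    have h2 : ∏ k, |x (s k)| ≤ (Y : ℤ) ^ d := by
      calc ∏ k, |x (s k)| ≤ ∏ _k : Fin d, (Y : ℤ) :=
            Finset.prod_le_prod (fun k _ => abs_nonneg _) fun k _ => hx (s k)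
        _ = (Y : ℤ) ^ d := by rw [Finset.prod_const, Finset.card_univ, Fintype.card_fin]
    exact mul_le_mul (ha s) h2 (Finset.prod_nonneg fun k _ => abs_nonneg _) (by positivity)
  unfold ev
  calc |∑ s, a s * ∏ k, x (s k)|
      ≤ ∑ s, |a s * ∏ k, x (s k)| := Finset.abs_sum_le_sum_abs _ _
    _ ≤ ∑ s : Fin d → Fin (n + 1), (X : ℤ) * Y ^ d := Finset.sum_le_sum fun s _ => h1 s
    _ = (n + 1) ^ d * X * Y ^ d := by
        rw [Finset.sum_const, Finset.card_univ, Fintype.card_fun, Fintype.card_fin,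
          Fintype.card_fin]
        simp only [nsmul_eq_mul, Nat.cast_pow, Nat.cast_add, Nat.cast_one]
        ring

theorem mem_TBox {r : ℕ} {d : Fin r → ℕ} {X : ℕ} {F : Tup n d ℤ} :
    F ∈ TBox n d X ↔ ∀ i, F i ∈ Box n (d i) X := by
  simp [TBox, Fintype.mem_piFinset]

theorem card_TBox (n : ℕ) {r : ℕ} (d : Fin r → ℕ) (X : ℕ) :
    (TBox n d X).card = (2 * X + 1) ^ VV n d := by
  simp only [TBox, Fintype.card_piFinset, card_Box, VV]
  exact Finset.prod_pow_eq_pow_sum _ _ _

end int

end Pool.Agent.Lib.MP_1ad228_ntF
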