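import Pool.Agent.Lib.MP_1ad228_ntF.Basic
import Pool.Agent.Lib.MP_219881_nt.HG_Bad

/-!
JOB B_Bad.  Proportion of the points which are not `H`-good, `H = constant * B^(1/n)`.

`allGood`: every `x ∈ VBox n B` is `B`-good (`B ≥ 1`): if `x = 0` take `f s = Pi.single s.succ 1`; otherwise `x p ≠ 0` for some `p` and `f s = x p • e_(p.succAbove s) - x (p.succAbove s) • e_p`
(entries `x p`, `- x (..)`, `0`); linearly independent over `ℤ` because the coordinate `p.succAbove s` of `∑ c_t f_t` is `c_s * x p`.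

`badB`: `badX` (`Pool.Agent.Lib.MP_219881_nt.badX`, constant `C0`) with `L = g / s + 1` (natural division). `g ≤ s L`, `L ≤ 2 g / s` in the reals for `g ≥ s`; `1 ≤ L ≤ H` (`L ≤ g + 1 ≤ 2 g ≤ 3^n (n+1) g ≤ H`);
`2^(n+1) L ≤ 2^(n+1) 2 g ≤ g^n = B` for `g ≥ 2^(n+2)` (`n ≥ 2`); `3^n (n+1) B = 3^n (n+1) g * g^(n-1) ≤ 3^n (n+1) g * (s L)^(n-1) ≤ H L^(n-1)`. So the number is at most
`C0 B^n L^n ≤ C0 B^n (2g/s)^n = C0 2^n B^(n+1)/s^n`. `C = 2^n C0`, `g0 = s + 2^(n+2)`.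
-/

namespace Pool.Agent.Lib.MP_1ad228_ntF

open Classical

private theorem bBad_li {n : ℕ} (p : Fin (n + 1)) (c : ℤ) (hc : c ≠ 0) (d : Fin n → ℤ) :
    LinearIndependent ℤ (fun s : Fin n =>
      (Pi.single (p.succAbove s) c - Pi.single p (d s) : Vc n ℤ)) := by
  rw [Fintype.linearIndependent_iff]
  intro g hg s
  have h1 := congrFun hg (p.succAbove s)
  rw [Finset.sum_apply, Finset.sum_eq_single s] at h1
  · simp only [Pi.smul_apply, Pi.sub_apply, Pi.single_eq_same, smul_eq_mul, Pi.zero_apply] at h1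
    rw [Pi.single_eq_of_ne (Fin.succAbove_ne p s), sub_zero, mul_eq_zero] at h1
    exact h1.resolve_right hc
  · intro t _ hts
    simp only [Pi.smul_apply, Pi.sub_apply, smul_eq_mul]
    rw [Pi.single_eq_of_ne (Fin.succAbove_ne p s),
      Pi.single_eq_of_ne (fun h => hts (Fin.succAbove_right_injective h).symm), sub_zero, mul_zero]
  · intro h
    exact absurd (Finset.mem_univ s) h

private theorem bBad_abs {n B : ℕ} (p : Fin (n + 1)) (c : ℤ) (hc : |c| ≤ (B : ℤ)) (d : Fin n → ℤ)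
    (hd : ∀ s, |d s| ≤ (B : ℤ)) (s : Fin n) (i : Fin (n + 1)) :
    |(Pi.single (p.succAbove s) c - Pi.single p (d s) : Vc n ℤ) i| ≤ (B : ℤ) := by
  rw [Pi.sub_apply]
  by_cases h1 : i = p
  · subst h1
    rw [Pi.single_eq_same, Pi.single_eq_of_ne (Fin.succAbove_ne i s).symm, zero_sub, abs_neg]
    exact hd s
  · rw [Pi.single_eq_of_ne h1, sub_zero]
    by_cases h2 : i = p.succAbove s
    · subst h2
      rw [Pi.single_eq_same]
      exact hc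
    · rw [Pi.single_eq_of_ne h2, abs_zero]
      exact Int.natCast_nonneg B

private theorem bBad_lin {n : ℕ} (p : Fin (n + 1)) (c : ℤ) (d : Fin n → ℤ) (s : Fin n) (x : Vc n ℤ) :
    lin (Pi.single (p.succAbove s) c - Pi.single p (d s) : Vc n ℤ) x =
      c * x (p.succAbove s) - d s * x p := by
  have e1 : lin (Pi.single (p.succAbove s) c - Pi.single p (d s) : Vc n ℤ) x =
      (∑ i, (Pi.single (p.succAbove s) c : Vc n ℤ) i * x i) -
        ∑ i, (Pi.single p (d s) : Vc n ℤ) i * x i := by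
    rw [← Finset.sum_sub_distrib]
    refine Finset.sum_congr rfl ?_
    intro i _
    rw [Pi.sub_apply, sub_mul]
  have e2 : ∀ (q : Fin (n + 1)) (e : ℤ), (∑ i, (Pi.single q e : Vc n ℤ) i * x i) = e * x q := by
    intro q e
    rw [Finset.sum_eq_single q]
    · rw [Pi.single_eq_same]
    · intro b _ hb
      rw [Pi.single_eq_of_ne hb, zero_mul]
    · intro h
      exact absurd (Finset.mem_univ _) h
  rw [e1, e2, e2]

private theorem bBad_ex {n B : ℕ} (hB : 1 ≤ B) (x : Vc n ℤ) (hx : x ∈ VBox n B) : ∃ (p : Fin (n + 1)) (c : ℤ) (d : Fin n → ℤ), c ≠ 0 ∧ |c| ≤ (B : ℤ) ∧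
      (∀ s, |d s| ≤ (B : ℤ)) ∧ ∀ s, c * x (p.succAbove s) - d s * x p = 0 := by
  rw [mem_VBox] at hx
  by_cases h0 : x = 0
  · refine ⟨0, 1, fun _ => 0, one_ne_zero, ?_, ?_, ?_⟩
    · rw [abs_one]
      exact_mod_cast hB
    · intro s
      rw [abs_zero]
      exact Int.natCast_nonneg B
    · intro s
      rw [h0, Pi.zero_apply, mul_zero, zero_mul, sub_zero]
  · obtain ⟨p, hp⟩ := Function.ne_iff.1 h0
    refine ⟨p, x p, fun s => x (p.succAbove s), hp, hx p, fun s => hx _, ?_⟩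
    intro s
    exact sub_eq_zero.2 (mul_comm _ _)

private theorem bBad_good {n B : ℕ} (x : Vc n ℤ) (p : Fin (n + 1)) (c : ℤ) (d : Fin n → ℤ) (hc : c ≠ 0) (hcB : |c| ≤ (B : ℤ))
   (hdB : ∀ s, |d s| ≤ (B : ℤ)) (hz : ∀ s, c * x (p.succAbove s) - d s * x p = 0) : HGood B x := by
  unfold Pool.Agent.Lib.MP_219881_nt.HGood
  obtain ⟨f, hf⟩ : ∃ f : Fin n → Vc n ℤ, f = fun s => (Pi.single (p.succAbove s) c - Pi.single p (d s) : Vc n ℤ) := ⟨_, rfl⟩
  have h1 : LinearIndependent ℤ f := by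
    rw [hf]
    exact bBad_li p c hc d
  have h2 : ∀ s, lin (f s) x = 0 := by
    intro s
    rw [hf]
    exact (bBad_lin p c d s x).trans (hz s)
  have h3 : ∀ s i, |f s i| ≤ (B : ℤ) := by
    intro s i
    rw [hf]
    exact bBad_abs p c hcB d hdB s i
  exact ⟨f, h1, h2, h3⟩

theorem allGood {n B : ℕ} (hB : 1 ≤ B) (x : Vc n ℤ) (hx : x ∈ VBox n B) : HGood B x := by
  obtain ⟨p, c, d, hc, hcB, hdB, hz⟩ := bBad_ex hB x hx
  exact bBad_good x p c d hc hcB hdB hz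

theorem badB (n : ℕ) (hn : 2 ≤ n) : ∃ C : ℝ, 0 < C ∧ ∀ s : ℕ, 1 ≤ s → ∃ g0 : ℕ, ∀ g ≥ g0,
    ∀ B H : ℕ, B = g ^ n → 3 ^ n * (n + 1) * s ^ (n - 1) * g ≤ H →
    (((VBox n B).filter fun x => ¬ HGood H x).card : ℝ) ≤ C * (B : ℝ) ^ (n + 1) / (s : ℝ) ^ n := by
  obtain ⟨C0, hC0, hc⟩ := Pool.Agent.Lib.MP_219881_nt.badX n (by omega)
  refine ⟨2 ^ n * C0, by positivity, ?_⟩
  intro s hs
  refine ⟨s + 2 ^ (n + 2), ?_⟩
  intro g hg B H hB hH
  have hgs : s ≤ g := le_trans (Nat.le_add_right _ _) hg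
  have hg2 : 2 ^ (n + 2) ≤ g := le_trans (Nat.le_add_left _ _) hg
  have hg1 : 1 ≤ g := le_trans hs hgs
  have hL1 : 1 ≤ g / s + 1 := Nat.le_add_left 1 _
  have hL2 : g / s + 1 ≤ 2 * g := by
    have h1 : g / s ≤ g := Nat.div_le_self g s
    rw [two_mul]
    exact Nat.add_le_add h1 hg1
  have hgL : g ≤ s * (g / s + 1) := by
    have h1 := Nat.div_add_mod g s
    have h2 := Nat.mod_lt g (by omega : 0 < s)
    rw [Nat.mul_add, mul_one]
    omega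
  have h3n : 2 ≤ 3 ^ n * (n + 1) * s ^ (n - 1) := by
    have h1 : 1 ≤ s ^ (n - 1) := Nat.one_le_pow _ _ hs
    have h2 : 1 ≤ 3 ^ n := Nat.one_le_pow _ _ (by norm_num)
    calc 2 ≤ 1 * (n + 1) * 1 := by omega
      _ ≤ 3 ^ n * (n + 1) * s ^ (n - 1) := Nat.mul_le_mul (Nat.mul_le_mul_right _ h2) h1
  have hLH : g / s + 1 ≤ H := by
    calc g / s + 1 ≤ 2 * g := hL2
      _ ≤ 3 ^ n * (n + 1) * s ^ (n - 1) * g := Nat.mul_le_mul_right _ h3n
      _ ≤ H := hH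
  have hgn : g * g ≤ g ^ n := by
    rw [← pow_two]
    exact Nat.pow_le_pow_right hg1 hn
  have hLB : 2 ^ (n + 1) * (g / s + 1) ≤ B := by
    calc 2 ^ (n + 1) * (g / s + 1) ≤ 2 ^ (n + 1) * (2 * g) := Nat.mul_le_mul_left _ hL2
      _ = 2 ^ (n + 2) * g := by ring
      _ ≤ g * g := Nat.mul_le_mul_right _ hg2
      _ ≤ g ^ n := hgn
      _ = B := hB.symm
  have hHL : 3 ^ n * (n + 1) * B ≤ H * (g / s + 1) ^ (n - 1) := by
    have e : g ^ n = g * g ^ (n - 1) := by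
      rw [← pow_succ']
      congr 1
      omega
    calc 3 ^ n * (n + 1) * B = 3 ^ n * (n + 1) * g * g ^ (n - 1) := by rw [hB, e]; ring
      _ ≤ 3 ^ n * (n + 1) * g * (s * (g / s + 1)) ^ (n - 1) :=
        Nat.mul_le_mul_left _ (Nat.pow_le_pow_left hgL _)
      _ = 3 ^ n * (n + 1) * s ^ (n - 1) * g * (g / s + 1) ^ (n - 1) := by rw [mul_pow]; ring
      _ ≤ H * (g / s + 1) ^ (n - 1) := Nat.mul_le_mul_right _ hH
  refine (hc B H (g / s + 1) hL1 hLH hLB hHL).trans ?_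
  have hsR : (0 : ℝ) < (s : ℝ) := by exact_mod_cast hs
  have hLR : ((g / s + 1 : ℕ) : ℝ) ≤ 2 * (g : ℝ) / (s : ℝ) := by
    have h1 : ((g / s : ℕ) : ℝ) ≤ (g : ℝ) / (s : ℝ) := Nat.cast_div_le
    have h2 : (1 : ℝ) ≤ (g : ℝ) / (s : ℝ) := by
      rw [one_le_div hsR]
      exact_mod_cast hgs
    push_cast
    calc ((g / s : ℕ) : ℝ) + 1 ≤ (g : ℝ) / (s : ℝ) + (g : ℝ) / (s : ℝ) := add_le_add h1 h2
      _ = 2 * (g : ℝ) / (s : ℝ) := by ring
  have hB0 : (0 : ℝ) ≤ (B : ℝ) ^ n := by positivity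
  calc C0 * (B : ℝ) ^ n * ((g / s + 1 : ℕ) : ℝ) ^ n ≤
        C0 * (B : ℝ) ^ n * (2 * (g : ℝ) / (s : ℝ)) ^ n :=
        mul_le_mul_of_nonneg_left (pow_le_pow_left₀ (Nat.cast_nonneg _) hLR n)
          (mul_nonneg hC0.le hB0)
    _ = 2 ^ n * C0 * (B : ℝ) ^ n * (g : ℝ) ^ n / (s : ℝ) ^ n := by
        rw [div_pow, mul_pow]
        ring
    _ = 2 ^ n * C0 * (B : ℝ) ^ (n + 1) / (s : ℝ) ^ n := by
        have h1 : (B : ℝ) = (g : ℝ) ^ n := by rw [hB]; push_cast; ring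
        rw [pow_succ, ← mul_assoc, ← h1]

end Pool.Agent.Lib.MP_1ad228_ntF
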