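import Pool.Agent.Lib.MP_1ad228_ntF.Basic

/-! Exceptional pairs of bases (borderline case, paper B, section 3), and the polynomials detecting them. -/

namespace Pool.Agent.Lib.MP_1ad228_ntF

open Classical

/-- The pair of bases `(f, g)` is exceptional: some symmetric integer matrix `E` has all `f s^T E g t` bounded by `T`,
not all zero. -/
def ExcP {n : ℕ} (T : ℕ) (f g : Fin n → Vc n ℤ) : Prop :=
  ∃ E : Fin (n + 1) → Fin (n + 1) → ℤ, (∀ i j, E i j = E j i) ∧
    (∀ s t, |∑ i, ∑ j, f s i * E i j * g t j| ≤ (T : ℤ)) ∧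
    ∃ s t, ∑ i, ∑ j, f s i * E i j * g t j ≠ 0

/-- Determinant with rows `z, g 0, ..., g (n-1)`. -/
noncomputable def bDet {n : ℕ} {R : Type*} [CommRing R] (z : Vc n R) (g : Fin n → Vc n R) : R :=
  Matrix.det (Matrix.of (Fin.cons z g : Fin (n + 1) → Vc n R))

/-- Cross product of `n` vectors. -/
noncomputable def bCr {n : ℕ} {R : Type*} [CommRing R] (g : Fin n → Vc n R) : Vc n R := fun k =>
  bDet (Pi.single k 1) g

/-- Cramer coefficient. -/
noncomputable def bDt {n : ℕ} {R : Type*} [CommRing R] (g : Fin n → Vc n R) (j : Fin n)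
    (z : Vc n R) : R := bDet (bCr g) (Function.update g j z)

/-- Coefficients of the combination of `f i` and `f m` orthogonal to `y`. -/
def bA {n : ℕ} {R : Type*} [CommRing R] (y : Vc n R) (f : Fin n → Vc n R) (i m : Fin n) :
    Fin n → R := fun k => (if k = i then lin y (f m) else 0) - (if k = m then lin y (f i) else 0)

/-- The combination of `f i` and `f m` orthogonal to `y`. -/
def bU {n : ℕ} {R : Type*} [CommRing R] (y : Vc n R) (f : Fin n → Vc n R) (i m : Fin n) :
    Vc n R := lin y (f m) • f i - lin y (f i) • f m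

/-- The polynomial which vanishes at exceptional pairs with `f k^T E g j = e k j`. -/
noncomputable def bP {n : ℕ} {R : Type*} [CommRing R] (e : Fin n → Fin n → R) (i l m : Fin n)
    (f g : Fin n → Vc n R) : R :=
  ∑ k, ∑ j, e k j * (bA (bCr g) f i m k * bDt g j (bU (bCr g) f l m)
    - bA (bCr g) f l m k * bDt g j (bU (bCr g) f i m))

end Pool.Agent.Lib.MP_1ad228_ntF
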