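import Pool.Agent.Lib.MP_1ad228_ntF.Tp

/-!
JOB B_Str.  Symmetric matrices orthogonal to all products `f_s ⊗ g_t`.

PROOF.  Work over `ℚ`. By `perp_mem` (for `x` and for `y`) the hypothesis `h` gives `u^T E v = 0` for all rational `u` with `lin u x = 0` and all rational `v` with
`lin v y = 0`. Take `j` with `D := x_o y_j - x_j y_o ≠ 0`, `p = D⁻¹ (y_j e_o - y_o e_j)`, `r = D⁻¹ (x_o e_j - x_j e_o)`: `p(x) = 1, p(y) = 0, r(x) = 0, r(y) = 1`.
For every `i`: `e_i = x_i p + y_i r + h_i` with `h_i` killing `x` and `y`. For all `a, b`: `E_ab = e_a^T E e_b`; expand `e_a = x_a p + (y_a r + h_a)`, where `y_a r + h_a` kills `x`, and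
`e_b = y_b r + (x_b p + h_b)`, where `x_b p + h_b` kills `y`:
`E_ab = x_a y_b p^T E r + x_a p^T E (x_b p + h_b) + y_b (y_a r + h_a)^T E r + 0`.
Also `p` kills `y` and `r` kills `x`: `p^T E h_b = h_b^T E p = 0` by symmetry (`h_b` kills `x`, `p` kills `y`), `h_a^T E r = r^T E h_a = 0` (`r` kills `x`, `h_a` kills `y`),
`p^T E r = r^T E p = 0` (`r` kills `x`, `p` kills `y`). So `E_ab = x_a x_b p^T E p + y_a y_b r^T E r`.
-/

namespace Pool.Agent.Lib.MP_1ad228_ntF

open Classical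

/-- the bilinear form of a matrix -/
private noncomputable def BS {n : ℕ} (e : Fin (n + 1) → Fin (n + 1) → ℚ) :
    Vc n ℚ →ₗ[ℚ] Vc n ℚ →ₗ[ℚ] ℚ :=
  LinearMap.mk₂ ℚ (fun u v => ∑ i, ∑ j, u i * e i j * v j)
    (fun u u' v => by
      simp only [Pi.add_apply, add_mul, Finset.sum_add_distrib])
    (fun c u v => by
      simp only [Pi.smul_apply, smul_eq_mul, Finset.mul_sum, mul_assoc])
    (fun u v v' => by
      simp only [Pi.add_apply, mul_add, Finset.sum_add_distrib])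
    (fun c u v => by
      simp only [Pi.smul_apply, smul_eq_mul, Finset.mul_sum]
      refine Finset.sum_congr rfl fun i _ => Finset.sum_congr rfl fun j _ => ?_
      ring)

private theorem BS_apply {n : ℕ} (e : Fin (n + 1) → Fin (n + 1) → ℚ) (u v : Vc n ℚ) :
    BS e u v = ∑ i, ∑ j, u i * e i j * v j := rfl

private theorem BS_symm {n : ℕ} (e : Fin (n + 1) → Fin (n + 1) → ℚ) (he : ∀ i j, e i j = e j i)
    (u v : Vc n ℚ) : BS e u v = BS e v u := by
  rw [BS_apply, BS_apply, Finset.sum_comm]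
  refine Finset.sum_congr rfl fun i _ => Finset.sum_congr rfl fun j _ => ?_
  rw [he j i]
  ring

private theorem BS_single {n : ℕ} (e : Fin (n + 1) → Fin (n + 1) → ℚ) (a b : Fin (n + 1)) :
    BS e (Pi.single a 1) (Pi.single b 1) = e a b := by
  rw [BS_apply, Finset.sum_eq_single a]
  · rw [Finset.sum_eq_single b]
    · rw [Pi.single_eq_same, Pi.single_eq_same, one_mul, mul_one]
    · intro j _ hj
      rw [Pi.single_eq_of_ne hj, mul_zero]
    · intro h
      exact absurd (Finset.mem_univ _) h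
  · intro i _ hi
    refine Finset.sum_eq_zero fun j _ => ?_
    rw [Pi.single_eq_of_ne hi, zero_mul, zero_mul]
  · intro h
    exact absurd (Finset.mem_univ _) h

theorem structE {n : ℕ} (x y : Vc n ℤ) (o : Fin (n + 1)) (hxy : ∃ j, mn x y o j ≠ 0)
    (f g : Fin n → Vc n ℤ) (hf : LinearIndependent ℤ f) (hg : LinearIndependent ℤ g)
    (f0 : ∀ s, lin (f s) x = 0) (g0 : ∀ s, lin (g s) y = 0)
    (E : Fin (n + 1) → Fin (n + 1) → ℤ) (hE : ∀ i j, E i j = E j i)
    (h : ∀ s t, ∑ i, ∑ j, f s i * E i j * g t j = 0) :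
    ∃ α β : ℚ, ∀ i j, (E i j : ℚ) = α * ((x i : ℚ) * x j) + β * ((y i : ℚ) * y j) := by
  obtain ⟨j, hj⟩ := hxy
  have hx0 : x ≠ 0 := by
    rintro rfl
    apply hj
    simp [Pool.Agent.Lib.MP_219881_nt.mn]
  have hy0 : y ≠ 0 := by
    rintro rfl
    apply hj
    simp [Pool.Agent.Lib.MP_219881_nt.mn]
  set e : Fin (n + 1) → Fin (n + 1) → ℚ := fun i j => (E i j : ℚ) with he
  have hes : ∀ i j, e i j = e j i := by
    intro i j
    show ((E i j : ℤ) : ℚ) = ((E j i : ℤ) : ℚ)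
    rw [hE i j]
  have h0 : ∀ s t, BS e (cv ℚ (f s)) (cv ℚ (g t)) = 0 := by
    intro s t
    rw [BS_apply]
    have h1 : ∑ i, ∑ j, cv ℚ (f s) i * e i j * cv ℚ (g t) j =
        ((∑ i, ∑ j, f s i * E i j * g t j : ℤ) : ℚ) := by
      push_cast
      rfl
    rw [h1, h s t, Int.cast_zero]
  have h1 : ∀ u v : Vc n ℚ, lin u (cv ℚ x) = 0 → lin v (cv ℚ y) = 0 → BS e u v = 0 := by
    intro u v hu hv
    have hu' := perp_mem x hx0 f hf f0 hu
    have hv' := perp_mem y hy0 g hg g0 hv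
    have h2 : ∀ s, BS e (cv ℚ (f s)) v = 0 := by
      intro s
      have h3 : Submodule.span ℚ (Set.range fun t : Fin n => cv ℚ (g t)) ≤
          LinearMap.ker (BS e (cv ℚ (f s))) := by
        rw [Submodule.span_le]
        rintro _ ⟨t, rfl⟩
        exact h0 s t
      exact h3 hv'
    have h4 : Submodule.span ℚ (Set.range fun s : Fin n => cv ℚ (f s)) ≤
        LinearMap.ker ((BS e).flip v) := by
      rw [Submodule.span_le]
      rintro _ ⟨s, rfl⟩
      exact h2 s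
    exact h4 hu'
  set D : ℚ := (x o : ℚ) * y j - x j * y o with hD
  have hD0 : D ≠ 0 := by
    have h2 : D = ((mn x y o j : ℤ) : ℚ) := by
      rw [hD]
      unfold Pool.Agent.Lib.MP_219881_nt.mn
      push_cast
      ring
    rw [h2]
    exact_mod_cast hj
  set p : Vc n ℚ := D⁻¹ • ((y j : ℚ) • Pi.single o 1 - (y o : ℚ) • Pi.single j 1) with hp
  set r : Vc n ℚ := D⁻¹ • ((x o : ℚ) • Pi.single j 1 - (x j : ℚ) • Pi.single o 1) with hr
  have lsm : ∀ (c : ℚ) (u z : Vc n ℚ), lin (c • u) z = c * lin u z := by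
    intro c u z
    simp only [lin, Pi.smul_apply, smul_eq_mul, Finset.mul_sum, mul_assoc]
  have px : lin p (cv ℚ x) = 1 := by
    rw [hp, lsm, lin_sub, lsm, lsm, lin_single, lin_single]
    show D⁻¹ * ((y j : ℚ) * (x o : ℚ) - (y o : ℚ) * (x j : ℚ)) = 1
    rw [show (y j : ℚ) * (x o : ℚ) - (y o : ℚ) * (x j : ℚ) = D by rw [hD]; ring]
    exact inv_mul_cancel₀ hD0
  have py : lin p (cv ℚ y) = 0 := by
    rw [hp, lsm, lin_sub, lsm, lsm, lin_single, lin_single]
    show D⁻¹ * ((y j : ℚ) * (y o : ℚ) - (y o : ℚ) * (y j : ℚ)) = 0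
    ring
  have rx : lin r (cv ℚ x) = 0 := by
    rw [hr, lsm, lin_sub, lsm, lsm, lin_single, lin_single]
    show D⁻¹ * ((x o : ℚ) * (x j : ℚ) - (x j : ℚ) * (x o : ℚ)) = 0
    ring
  have ry : lin r (cv ℚ y) = 1 := by
    rw [hr, lsm, lin_sub, lsm, lsm, lin_single, lin_single]
    show D⁻¹ * ((x o : ℚ) * (y j : ℚ) - (x j : ℚ) * (y o : ℚ)) = 1
    exact inv_mul_cancel₀ hD0
  clear_value p r
  refine ⟨BS e p p, BS e r r, fun a b => ?_⟩
  have hh : ∀ i : Fin (n + 1), ∃ w : Vc n ℚ, lin w (cv ℚ x) = 0 ∧ lin w (cv ℚ y) = 0 ∧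
      (Pi.single i 1 : Vc n ℚ) = (x i : ℚ) • p + (y i : ℚ) • r + w := by
    intro i
    refine ⟨Pi.single i 1 - ((x i : ℚ) • p + (y i : ℚ) • r), ?_, ?_, ?_⟩
    · rw [lin_sub, lin_add, lsm, lsm, lin_single, px, rx]
      show (x i : ℚ) - ((x i : ℚ) * 1 + (y i : ℚ) * 0) = 0
      ring
    · rw [lin_sub, lin_add, lsm, lsm, lin_single, py, ry]
      show (y i : ℚ) - ((x i : ℚ) * 0 + (y i : ℚ) * 1) = 0
      ring
    · rw [add_sub_cancel]
  obtain ⟨wa, wax, way, ha⟩ := hh a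
  obtain ⟨wb, wbx, wby, hb⟩ := hh b
  have q1 : BS e p r = 0 := by
    rw [BS_symm e hes]
    exact h1 _ _ rx py
  have q2 : BS e r p = 0 := h1 _ _ rx py
  have q3 : BS e p wb = 0 := by
    rw [BS_symm e hes]
    exact h1 _ _ wbx py
  have q4 : BS e wa p = 0 := h1 _ _ wax py
  have q5 : BS e r wb = 0 := h1 _ _ rx wby
  have q6 : BS e wa r = 0 := by
    rw [BS_symm e hes]
    exact h1 _ _ rx way
  have q7 : BS e wa wb = 0 := h1 _ _ wax wby
  have h5 : (E a b : ℚ) = BS e (Pi.single a 1) (Pi.single b 1) := (BS_single e a b).symm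
  rw [h5, ha, hb]
  simp only [map_add, map_smul, LinearMap.add_apply, LinearMap.smul_apply, smul_eq_mul, q1, q2,
    q3, q4, q5, q6, q7]
  ring

end Pool.Agent.Lib.MP_1ad228_ntF
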