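import Pool.Agent.Lib.MP_1ad228_ntF.B_Mass
import Pool.Agent.Lib.MP_1ad228_ntF.B_Str
import Pool.Agent.Lib.MP_1ad228_ntF.B_ExcDef

/-!
JOB B_Close.  The slices of a non exceptional pair are close (degree 2).

PROOF.  `m = ev a0 x`, `m' = ev a0 y`, `V = (n+1)^2`, `e' = 1/2^(J+2)`. Take `Mx` larger than `|m|, |m'|, 2^J |x_i x_j|, 2^J |y_i y_j|` and `Q, ν` from `fourS`. Then
`slB 0 0 - slB m m' = ∑ ν i j (1 - cos (2 π φ))`, `φ = (i m + j m')/Q`, in particular it is `≥ 0`. The minor `(i,j)` (those of `massB`) contribute at most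
`2 * V * (2^J/A) * (6^V n2)` (`1 - cos ≤ 2`). Let `(i, j)` be major: `θ_s = (i X_s + j Y_s)/Q` is within `e'` of `round θ_s` for all `s : Fin 2 → Fin (n+1)`
(`X_s = ∏ k, x (s k)`). Put `E a b = round θ_(![a, b])`; it is symmetric because `θ_(![a,b]) = (i x_a x_b + j y_a y_b)/Q` is. For all `s t`:
`∑ f_s(a) θ_(ab) g_t(b) = (i (f_s·x)(x·g_t) + j (f_s·y)(y·g_t))/Q = 0` (`f0`, `g0`), so
`|∑ f_s(a) E a b g_t(b)| = |∑ f_s(a) (E a b - θ_ab) g_t(b)| ≤ (n+1)^2 H^2 e' ≤ T'` (`hT`). As `¬ ExcP T' f g`, all these integers are 0, and `structE` gives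
`E a b = α x_a x_b + β y_a y_b`. Then `φ = ∑_s θ_s a0_s = ∑_s E_s a0_s + ∑_s (θ_s - E_s) a0_s`; the first sum is an integer, and since `θ - E = (i/Q - α) X + (j/Q - β) Y`, the second
sum is `(i/Q - α) m + (j/Q - β) m' = ∑_s (θ_s - E_s) b_s`, at most `V e' β0` in absolute value. So `1 - cos (2 π φ) = 1 - cos (2 π ψ) ≤ 2 π^2 ψ^2 ≤ 20 ψ^2`
(`Real.one_sub_sq_div_two_le_cos`, `π^2 < 10`), `|ψ| ≤ V e' β0`. Sum over the major `(i,j)`: at most `20 (V e' β0)^2 * ∑ ν i j = 20 (V e' β0)^2 * slB 0 0`.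
-/

namespace Pool.Agent.Lib.MP_1ad228_ntF

open Classical

private theorem BC_major {n : ℕ} (x y : Vc n ℤ) (o : Fin (n + 1))
    (hxy : ∃ j, mn x y o j ≠ 0) (f g : Fin n → Vc n ℤ) (hf : LinearIndependent ℤ f)
    (hg : LinearIndependent ℤ g) (f0 : ∀ s, lin (f s) x = 0) (g0 : ∀ s, lin (g s) y = 0)
    (H T' J : ℕ) (hfH : ∀ s i, |f s i| ≤ (H : ℤ)) (hgH : ∀ s i, |g s i| ≤ (H : ℤ))
    (hT : (n + 1) ^ 2 * H ^ 2 ≤ T' * 2 ^ (J + 2)) (hE : ¬ ExcP T' f g)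
    (a0 : Ten n 2 ℤ) (b : Ten n 2 ℝ) (hb : ev b (cv ℝ x) = ((ev a0 x : ℤ) : ℝ))
    (hb' : ev b (cv ℝ y) = ((ev a0 y : ℤ) : ℝ)) (β0 : ℝ) (hβ : ∀ s, |b s| ≤ β0)
    (X Y : (Fin 2 → Fin (n + 1)) → ℝ) (hX : ∀ s, X s = ((∏ k, x (s k) : ℤ) : ℝ))
    (hY : ∀ s, Y s = ((∏ k, y (s k) : ℤ) : ℝ)) (p q : ℝ)
    (hM : ∀ s : Fin 2 → Fin (n + 1), |p * X s + q * Y s - round (p * X s + q * Y s)| ≤
      1 / 2 ^ (J + 2)) :
    1 - Real.cos (2 * Real.pi * (p * ((ev a0 x : ℤ) : ℝ) + q * ((ev a0 y : ℤ) : ℝ))) ≤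
      20 * ((n + 1) ^ 2 * β0 / 2 ^ (J + 2)) ^ 2 := by
  have hX2 : ∀ a c, X ![a, c] = (x a : ℝ) * x c := by
    intro a c
    rw [hX, Fin.prod_univ_two]
    push_cast
    rfl
  have hY2 : ∀ a c, Y ![a, c] = (y a : ℝ) * y c := by
    intro a c
    rw [hY, Fin.prod_univ_two]
    push_cast
    rfl
  set th : (Fin 2 → Fin (n + 1)) → ℝ := fun s => p * X s + q * Y s with hth
  have hM' : ∀ s, |th s - round (th s)| ≤ 1 / 2 ^ (J + 2) := hM
  set Em : Fin (n + 1) → Fin (n + 1) → ℤ := fun a c => round (th ![a, c]) with hEm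
  have hth2 : ∀ a c, th ![a, c] = p * ((x a : ℝ) * x c) + q * ((y a : ℝ) * y c) := by
    intro a c
    show p * X ![a, c] + q * Y ![a, c] = _
    rw [hX2, hY2]
  have hsym : ∀ a c, Em a c = Em c a := by
    intro a c
    show round (th ![a, c]) = round (th ![c, a])
    rw [hth2, hth2]
    congr 1
    ring
  have hfx : ∀ s, ∑ a, (f s a : ℝ) * x a = 0 := by
    intro s
    have h1 := f0 s
    unfold Pool.Agent.Lib.MP_219881_nt.lin at h1
    exact_mod_cast h1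
  have hgy : ∀ t, ∑ a, (g t a : ℝ) * y a = 0 := by
    intro t
    have h1 := g0 t
    unfold Pool.Agent.Lib.MP_219881_nt.lin at h1
    exact_mod_cast h1
  have hzero : ∀ s t, ∑ a, ∑ c, (f s a : ℝ) * th ![a, c] * g t c = 0 := by
    intro s t
    have h1 : ∀ a, ∑ c, (f s a : ℝ) * th ![a, c] * g t c =
        p * ((f s a : ℝ) * x a) * ∑ c, (x c : ℝ) * g t c := by
      intro a
      have h2 : ∀ c, (f s a : ℝ) * th ![a, c] * g t c =
          p * ((f s a : ℝ) * x a) * ((x c : ℝ) * g t c) +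
            q * ((f s a : ℝ) * y a) * ((g t c : ℝ) * y c) := by
        intro c
        rw [hth2]
        ring
      rw [Finset.sum_congr rfl fun c _ => h2 c, Finset.sum_add_distrib, ← Finset.mul_sum,
        ← Finset.mul_sum, hgy, mul_zero, add_zero]
    rw [Finset.sum_congr rfl fun a _ => h1 a, ← Finset.sum_mul, ← Finset.mul_sum, hfx, mul_zero,
      zero_mul]
  have hH0 : (0 : ℝ) ≤ H := Nat.cast_nonneg _
  have hfH' : ∀ s i, |(f s i : ℝ)| ≤ H := by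
    intro s i
    have h1 := hfH s i
    rw [← Int.cast_abs]
    exact_mod_cast h1
  have hgH' : ∀ s i, |(g s i : ℝ)| ≤ H := by
    intro s i
    have h1 := hgH s i
    rw [← Int.cast_abs]
    exact_mod_cast h1
  have hP : (0 : ℝ) < 2 ^ (J + 2) := by positivity
  have hbd : ∀ s t, |∑ a, ∑ c, f s a * Em a c * g t c| ≤ (T' : ℤ) := by
    intro s t
    have h1 : ((∑ a, ∑ c, f s a * Em a c * g t c : ℤ) : ℝ) =
        ∑ a, ∑ c, (f s a : ℝ) * ((Em a c : ℝ) - th ![a, c]) * g t c := by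
      have h2 : ∀ a, ∑ c, (f s a : ℝ) * ((Em a c : ℝ) - th ![a, c]) * g t c =
          ∑ c, (f s a : ℝ) * (Em a c : ℝ) * g t c - ∑ c, (f s a : ℝ) * th ![a, c] * g t c := by
        intro a
        rw [← Finset.sum_sub_distrib]
        refine Finset.sum_congr rfl fun c _ => ?_
        ring
      rw [Finset.sum_congr rfl fun a _ => h2 a, Finset.sum_sub_distrib, hzero, sub_zero]
      push_cast
      rfl
    have h3 : |((∑ a, ∑ c, f s a * Em a c * g t c : ℤ) : ℝ)| ≤ T' := by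
      rw [h1]
      have h4 : ∀ a c, |(f s a : ℝ) * ((Em a c : ℝ) - th ![a, c]) * g t c| ≤
          (H : ℝ) * (1 / 2 ^ (J + 2)) * H := by
        intro a c
        rw [abs_mul, abs_mul]
        have h5 : |(Em a c : ℝ) - th ![a, c]| ≤ 1 / 2 ^ (J + 2) := by
          rw [abs_sub_comm]
          exact hM' _
        exact mul_le_mul (mul_le_mul (hfH' s a) h5 (abs_nonneg _) hH0) (hgH' t c) (abs_nonneg _)
          (by positivity)
      have h6 : |∑ a, ∑ c, (f s a : ℝ) * ((Em a c : ℝ) - th ![a, c]) * g t c| ≤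
          ∑ _a : Fin (n + 1), ∑ _c : Fin (n + 1), (H : ℝ) * (1 / 2 ^ (J + 2)) * H := by
        refine (Finset.abs_sum_le_sum_abs _ _).trans (Finset.sum_le_sum fun a _ => ?_)
        refine (Finset.abs_sum_le_sum_abs _ _).trans (Finset.sum_le_sum fun c _ => h4 a c)
      refine h6.trans ?_
      rw [Finset.sum_const, Finset.sum_const, Finset.card_univ, Fintype.card_fin, nsmul_eq_mul,
        nsmul_eq_mul]
      have h7 : ((n : ℝ) + 1) ^ 2 * (H : ℝ) ^ 2 ≤ T' * 2 ^ (J + 2) := by exact_mod_cast hT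
      have h8 : (((n + 1 : ℕ) : ℝ) * (((n + 1 : ℕ) : ℝ) * ((H : ℝ) * (1 / 2 ^ (J + 2)) * H))) =
          (((n : ℝ) + 1) ^ 2 * (H : ℝ) ^ 2) / 2 ^ (J + 2) := by
        push_cast
        ring
      rw [h8, div_le_iff₀ hP]
      exact h7
    have h9 : ((|∑ a, ∑ c, f s a * Em a c * g t c| : ℤ) : ℝ) ≤ ((T' : ℤ) : ℝ) := by
      rw [Int.cast_abs]
      exact_mod_cast h3
    exact_mod_cast h9
  have hall : ∀ s t, ∑ a, ∑ c, f s a * Em a c * g t c = 0 := by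
    intro s t
    by_contra hne
    exact hE ⟨Em, hsym, hbd, s, t, hne⟩
  obtain ⟨α, β, hαβ⟩ := structE x y o hxy f g hf hg f0 g0 Em hsym hall
  have hr : ∀ s, ((round (th s) : ℤ) : ℝ) = (α : ℝ) * X s + (β : ℝ) * Y s := by
    intro s
    have e1 : s = ![s 0, s 1] := by
      funext k
      fin_cases k <;> rfl
    have h1 : (((Em (s 0) (s 1) : ℤ) : ℚ) : ℝ) =
        ((α * ((x (s 0) : ℚ) * x (s 1)) + β * ((y (s 0) : ℚ) * y (s 1)) : ℚ) : ℝ) :=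
      congrArg (fun t : ℚ => (t : ℝ)) (hαβ (s 0) (s 1))
    push_cast at h1
    have h2 : Em (s 0) (s 1) = round (th s) := by
      show round (th ![s 0, s 1]) = round (th s)
      rw [← e1]
    rw [← h2, h1]
    have e3 : X s = (x (s 0) : ℝ) * x (s 1) := by
      rw [← hX2, ← e1]
    have e4 : Y s = (y (s 0) : ℝ) * y (s 1) := by
      rw [← hY2, ← e1]
    rw [e3, e4]
  -- values
  have hm : ((ev a0 x : ℤ) : ℝ) = ∑ s, (a0 s : ℝ) * X s := by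
    unfold ev
    rw [Int.cast_sum]
    refine Finset.sum_congr rfl fun s _ => ?_
    rw [hX, Int.cast_mul]
  have hm' : ((ev a0 y : ℤ) : ℝ) = ∑ s, (a0 s : ℝ) * Y s := by
    unfold ev
    rw [Int.cast_sum]
    refine Finset.sum_congr rfl fun s _ => ?_
    rw [hY, Int.cast_mul]
  have hbx : ∑ s, b s * X s = ((ev a0 x : ℤ) : ℝ) := by
    rw [← hb]
    unfold ev
    refine Finset.sum_congr rfl fun s _ => ?_
    rw [hX, Int.cast_prod]
    rfl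
  have hby : ∑ s, b s * Y s = ((ev a0 y : ℤ) : ℝ) := by
    rw [← hb']
    unfold ev
    refine Finset.sum_congr rfl fun s _ => ?_
    rw [hY, Int.cast_prod]
    rfl
  set N : ℤ := ∑ s, round (th s) * a0 s with hN
  set ψ : ℝ := ∑ s, (th s - round (th s)) * b s with hψ
  have hNr : (N : ℝ) = α * ((ev a0 x : ℤ) : ℝ) + β * ((ev a0 y : ℤ) : ℝ) := by
    rw [hN, hm, hm', Int.cast_sum, Finset.mul_sum, Finset.mul_sum, ← Finset.sum_add_distrib]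
    refine Finset.sum_congr rfl fun s _ => ?_
    rw [Int.cast_mul, hr]
    ring
  have hψr : ψ = (p - α) * ((ev a0 x : ℤ) : ℝ) + (q - β) * ((ev a0 y : ℤ) : ℝ) := by
    rw [hψ, ← hbx, ← hby, Finset.mul_sum, Finset.mul_sum, ← Finset.sum_add_distrib]
    refine Finset.sum_congr rfl fun s _ => ?_
    rw [hr]
    show (p * X s + q * Y s - _) * b s = _
    ring
  have hφ : 2 * Real.pi * (p * ((ev a0 x : ℤ) : ℝ) + q * ((ev a0 y : ℤ) : ℝ)) =
      2 * Real.pi * ψ + (N : ℝ) * (2 * Real.pi) := by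
    rw [hNr, hψr]
    ring
  have hβ0 : 0 ≤ β0 := (abs_nonneg _).trans (hβ fun _ => 0)
  have hψb : |ψ| ≤ (n + 1) ^ 2 * β0 / 2 ^ (J + 2) := by
    have h1 : |ψ| ≤ ∑ _s : Fin 2 → Fin (n + 1), (1 / 2 ^ (J + 2)) * β0 := by
      refine (Finset.abs_sum_le_sum_abs _ _).trans (Finset.sum_le_sum fun s _ => ?_)
      rw [abs_mul]
      exact mul_le_mul (hM' s) (hβ s) (abs_nonneg _) (by positivity)
    rw [Finset.sum_const, Finset.card_univ, Fintype.card_fun, Fintype.card_fin, Fintype.card_fin,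
      nsmul_eq_mul] at h1
    refine h1.trans (le_of_eq ?_)
    push_cast
    ring
  have hcos : Real.cos (2 * Real.pi * (p * ((ev a0 x : ℤ) : ℝ) + q * ((ev a0 y : ℤ) : ℝ))) =
      Real.cos (2 * Real.pi * ψ) := by
    rw [hφ, Real.cos_add_int_mul_two_pi]
  rw [hcos]
  have h1 := Real.one_sub_sq_div_two_le_cos (x := 2 * Real.pi * ψ)
  have h2 : Real.pi ^ 2 ≤ 10 := by
    have h3 := Real.pi_lt_d2
    have h4 := Real.pi_pos
    nlinarith
  have h5 : ψ ^ 2 ≤ ((n + 1) ^ 2 * β0 / 2 ^ (J + 2)) ^ 2 := by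
    rw [← sq_abs ψ]
    exact pow_le_pow_left₀ (abs_nonneg _) hψb 2
  have h6 : 0 ≤ ψ ^ 2 := sq_nonneg _
  have h7 : Real.pi ^ 2 * ψ ^ 2 ≤ 10 * ψ ^ 2 := mul_le_mul_of_nonneg_right h2 h6
  have h8 : (2 * Real.pi * ψ) ^ 2 / 2 = 2 * (Real.pi ^ 2 * ψ ^ 2) := by ring
  rw [h8] at h1
  linarith

theorem slB_close {n : ℕ} (A : ℕ) (hA : 1 ≤ A) (x y : Vc n ℤ) (o : Fin (n + 1))
    (hxy : ∃ j, mn x y o j ≠ 0) (f g : Fin n → Vc n ℤ) (hf : LinearIndependent ℤ f)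
    (hg : LinearIndependent ℤ g) (f0 : ∀ s, lin (f s) x = 0) (g0 : ∀ s, lin (g s) y = 0)
    (H T' J : ℕ) (hfH : ∀ s i, |f s i| ≤ (H : ℤ)) (hgH : ∀ s i, |g s i| ≤ (H : ℤ))
    (hT : (n + 1) ^ 2 * H ^ 2 ≤ T' * 2 ^ (J + 2)) (hE : ¬ ExcP T' f g) (hJ : 2 ^ J ≤ A)
    (a0 : Ten n 2 ℤ) (b : Ten n 2 ℝ) (hb : ev b (cv ℝ x) = ((ev a0 x : ℤ) : ℝ))
    (hb' : ev b (cv ℝ y) = ((ev a0 y : ℤ) : ℝ)) (β0 : ℝ) (hβ : ∀ s, |b s| ≤ β0) :
    |slB 2 A x y (ev a0 x) (ev a0 y) - slB 2 A x y 0 0| ≤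
      2 * (n + 1) ^ 2 * ((2 : ℝ) ^ J / A) * (6 ^ (n + 1) ^ 2 * (n2 2 x y A : ℝ)) +
        20 * ((n + 1) ^ 2 * β0 / 2 ^ (J + 2)) ^ 2 * slB 2 A x y 0 0 := by
  set Mx : ℕ := (ev a0 x).natAbs + (ev a0 y).natAbs +
    ∑ s : Fin 2 → Fin (n + 1), (2 ^ J * (∏ k, x (s k)).natAbs + 2 ^ J * (∏ k, y (s k)).natAbs)
    with hMx
  have hm1 : |ev a0 x| ≤ (Mx : ℤ) := by
    rw [Int.abs_eq_natAbs, hMx]
    exact_mod_cast (by omega)
  have hm2 : |ev a0 y| ≤ (Mx : ℤ) := by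
    rw [Int.abs_eq_natAbs, hMx]
    exact_mod_cast (by omega)
  have hM : ∀ s : Fin 2 → Fin (n + 1), 2 ^ J * |∏ k, x (s k)| ≤ (Mx : ℤ) ∧
      2 ^ J * |∏ k, y (s k)| ≤ (Mx : ℤ) := by
    intro s
    have h1 : 2 ^ J * (∏ k, x (s k)).natAbs + 2 ^ J * (∏ k, y (s k)).natAbs ≤
        ∑ s : Fin 2 → Fin (n + 1),
          (2 ^ J * (∏ k, x (s k)).natAbs + 2 ^ J * (∏ k, y (s k)).natAbs) :=
      Finset.single_le_sum (f := fun s : Fin 2 → Fin (n + 1) =>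
        2 ^ J * (∏ k, x (s k)).natAbs + 2 ^ J * (∏ k, y (s k)).natAbs)
        (fun _ _ => Nat.zero_le _) (Finset.mem_univ s)
    have h2 : 2 ^ J * (∏ k, x (s k)).natAbs ≤ Mx := by omega
    have h3 : 2 ^ J * (∏ k, y (s k)).natAbs ≤ Mx := by omega
    rw [Int.abs_eq_natAbs, Int.abs_eq_natAbs]
    exact ⟨by exact_mod_cast h2, by exact_mod_cast h3⟩
  obtain ⟨Q, ν, hQ, hν0, hν⟩ := fourS 2 A hA x y Mx
  have hmass := massB 2 A hA x y Mx Q J ν hQ hν0 hν hJ hM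
  have h00 : slB 2 A x y 0 0 = ∑ i : Fin Q, ∑ j : Fin Q, ν i j := by
    rw [hν 0 0 (by rw [abs_zero]; exact Int.natCast_nonneg _)
      (by rw [abs_zero]; exact Int.natCast_nonneg _)]
    refine Finset.sum_congr rfl fun i _ => Finset.sum_congr rfl fun j _ => ?_
    rw [Int.cast_zero, mul_zero, mul_zero, add_zero, zero_div, mul_zero, Real.cos_zero, mul_one]
  have hmm := hν (ev a0 x) (ev a0 y) hm1 hm2
  have hdiff : slB 2 A x y 0 0 - slB 2 A x y (ev a0 x) (ev a0 y) =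
      ∑ i : Fin Q, ∑ j : Fin Q, ν i j * (1 - Real.cos (2 * Real.pi *
        ((((i : ℕ) : ℝ) * (ev a0 x : ℤ) + ((j : ℕ) : ℝ) * (ev a0 y : ℤ)) / Q))) := by
    rw [h00, hmm, ← Finset.sum_sub_distrib]
    refine Finset.sum_congr rfl fun i _ => ?_
    rw [← Finset.sum_sub_distrib]
    refine Finset.sum_congr rfl fun j _ => ?_
    ring
  have hnn : 0 ≤ slB 2 A x y 0 0 - slB 2 A x y (ev a0 x) (ev a0 y) := by
    rw [hdiff]
    refine Finset.sum_nonneg fun i _ => Finset.sum_nonneg fun j _ => ?_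
    exact mul_nonneg (hν0 i j) (sub_nonneg.2 (Real.cos_le_one _))
  rw [abs_sub_comm, abs_of_nonneg hnn, hdiff]
  set K0 : ℝ := 20 * ((n + 1) ^ 2 * β0 / 2 ^ (J + 2)) ^ 2 with hK0
  have hK0n : 0 ≤ K0 := by positivity
  have hpt : ∀ i j : Fin Q, ν i j * (1 - Real.cos (2 * Real.pi *
        ((((i : ℕ) : ℝ) * (ev a0 x : ℤ) + ((j : ℕ) : ℝ) * (ev a0 y : ℤ)) / Q))) ≤
      2 * (if ∀ s : Fin 2 → Fin (n + 1),
        |(((i : ℕ) : ℝ) * ((∏ k, x (s k) : ℤ) : ℝ) + ((j : ℕ) : ℝ) * ((∏ k, y (s k) : ℤ) : ℝ)) / Q -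
          round ((((i : ℕ) : ℝ) * ((∏ k, x (s k) : ℤ) : ℝ) +
            ((j : ℕ) : ℝ) * ((∏ k, y (s k) : ℤ) : ℝ)) / Q)| ≤ 1 / 2 ^ (J + 2)
      then 0 else ν i j) + K0 * ν i j := by
    intro i j
    have hν1 := hν0 i j
    by_cases hmaj : ∀ s : Fin 2 → Fin (n + 1),
        |(((i : ℕ) : ℝ) * ((∏ k, x (s k) : ℤ) : ℝ) + ((j : ℕ) : ℝ) * ((∏ k, y (s k) : ℤ) : ℝ)) / Q -
          round ((((i : ℕ) : ℝ) * ((∏ k, x (s k) : ℤ) : ℝ) +
            ((j : ℕ) : ℝ) * ((∏ k, y (s k) : ℤ) : ℝ)) / Q)| ≤ 1 / 2 ^ (J + 2)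
    · rw [if_pos hmaj, mul_zero, zero_add, mul_comm K0]
      refine mul_le_mul_of_nonneg_left ?_ hν1
      have e : ∀ u v : ℝ, (((i : ℕ) : ℝ) * u + ((j : ℕ) : ℝ) * v) / Q =
          ((i : ℕ) : ℝ) / Q * u + ((j : ℕ) : ℝ) / Q * v := by
        intro u v
        ring
      rw [e]
      exact BC_major x y o hxy f g hf hg f0 g0 H T' J hfH hgH hT hE a0 b hb hb' β0 hβ
        (fun s => ((∏ k, x (s k) : ℤ) : ℝ)) (fun s => ((∏ k, y (s k) : ℤ) : ℝ))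
        (fun s => rfl) (fun s => rfl) (((i : ℕ) : ℝ) / Q) (((j : ℕ) : ℝ) / Q)
        (fun s => by
          have h1 := hmaj s
          rw [e] at h1
          exact h1)
    · rw [if_neg hmaj]
      have h1 : 1 - Real.cos (2 * Real.pi *
        ((((i : ℕ) : ℝ) * (ev a0 x : ℤ) + ((j : ℕ) : ℝ) * (ev a0 y : ℤ)) / Q)) ≤ 2 := by
        have := Real.neg_one_le_cos (2 * Real.pi *
          ((((i : ℕ) : ℝ) * (ev a0 x : ℤ) + ((j : ℕ) : ℝ) * (ev a0 y : ℤ)) / Q))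
        linarith
      have h2 := mul_le_mul_of_nonneg_left h1 hν1
      have h3 : 0 ≤ K0 * ν i j := mul_nonneg hK0n hν1
      linarith
  refine (Finset.sum_le_sum fun i _ => Finset.sum_le_sum fun j _ => hpt i j).trans ?_
  simp only [Finset.sum_add_distrib, ← Finset.mul_sum]
  rw [← h00]
  refine add_le_add ?_ le_rfl
  calc 2 * _ ≤ 2 * ((n + 1) ^ 2 * ((2 : ℝ) ^ J / A) * (6 ^ (n + 1) ^ 2 * (n2 2 x y A : ℝ))) :=
        mul_le_mul_of_nonneg_left hmass (by norm_num)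
    _ = _ := by ring

end Pool.Agent.Lib.MP_1ad228_ntF
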