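import Pool.Agent.Lib.MP_1ad228_ntF.B_Wt

/-!
JOB B_EE.  The variance with the product weight: definitions and trivial bound (copy of EEle.lean with `slB` for `sl`).
-/

namespace Pool.Agent.Lib.MP_1ad228_ntF

open Classical

/-- Average over the allowed values at `x` of the slices through `(m, 0)`. -/
noncomputable def TTB {n : ℕ} (d : ℕ) (o : Fin (n + 1)) (W K A : ℕ) (x y : Vc n ℤ) : ℝ :=
  (1 / ((MS d W K A o x).card : ℝ)) * ∑ m ∈ MS d W K A o x, slB d A x y m 0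

/-- Average over the allowed values at `y` of the slices through `(0, m')`. -/
noncomputable def TSB {n : ℕ} (d : ℕ) (o : Fin (n + 1)) (W K A : ℕ) (x y : Vc n ℤ) : ℝ :=
  (1 / ((MS d W K A o y).card : ℝ)) * ∑ m' ∈ MS d W K A o y, slB d A x y 0 m'

/-- Average over the allowed values at `x` and at `y` of the slices. -/
noncomputable def UUB {n : ℕ} (d : ℕ) (o : Fin (n + 1)) (W K A : ℕ) (x y : Vc n ℤ) : ℝ :=
  (1 / ((MS d W K A o x).card : ℝ)) * (1 / ((MS d W K A o y).card : ℝ)) *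
    ∑ m ∈ MS d W K A o x, ∑ m' ∈ MS d W K A o y, slB d A x y m m'

/-- Contribution of a pair of points to the variance. -/
noncomputable def EEB {n r : ℕ} (d : Fin r → ℕ) (o : Fin (n + 1)) (W K A : ℕ)
    (x y : Vc n ℤ) : ℝ :=
  ∏ i, slB (d i) A x y 0 0 - ∏ i, TTB (d i) o W K A x y - ∏ i, TSB (d i) o W K A x y
    + ∏ i, UUB (d i) o W K A x y

/-- The variance with the product weight. -/
noncomputable def QvB {n r : ℕ} (d : Fin r → ℕ) (B H q : ℕ) (o : Fin (n + 1)) (W K A : ℕ) : ℝ :=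
  ∑ F ∈ TBox n d (2 * A), (∏ i, fw A (F i)) *
    ((Nn B H q o F : ℝ) - Ll B H q o W K A F) ^ 2

private theorem EEleB_avg (s : Finset ℤ) (f : ℤ → ℝ) {C : ℝ} (hC : 0 ≤ C)
    (h0 : ∀ m, 0 ≤ f m) (h1 : ∀ m, f m ≤ C) :
    0 ≤ (1 / (s.card : ℝ)) * ∑ m ∈ s, f m ∧ (1 / (s.card : ℝ)) * ∑ m ∈ s, f m ≤ C := by
  have hs : 0 ≤ ∑ m ∈ s, f m := Finset.sum_nonneg fun m _ => h0 m
  refine ⟨mul_nonneg (by positivity) hs, ?_⟩
  rcases Nat.eq_zero_or_pos s.card with hc | hc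
  · rw [hc, Nat.cast_zero, div_zero, zero_mul]
    exact hC
  · have hc' : (0 : ℝ) < (s.card : ℝ) := by exact_mod_cast hc
    rw [one_div, inv_mul_le_iff₀ hc']
    calc ∑ m ∈ s, f m ≤ ∑ _m ∈ s, C := Finset.sum_le_sum fun m _ => h1 m
      _ = (s.card : ℝ) * C := by rw [Finset.sum_const, nsmul_eq_mul]

theorem TTB_mem {n : ℕ} (d : ℕ) (o : Fin (n + 1)) (W K A : ℕ) (x y : Vc n ℤ) (C : ℝ)
    (hC : ∀ m m', slB d A x y m m' ≤ C) :
    0 ≤ TTB d o W K A x y ∧ TTB d o W K A x y ≤ C := by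
  have h0 : ∀ m m', 0 ≤ slB d A x y m m' := fun m m' => slB_nonneg d A x y m m'
  exact EEleB_avg _ (fun m => slB d A x y m 0) ((h0 0 0).trans (hC 0 0)) (fun m => h0 m 0)
    (fun m => hC m 0)

theorem TSB_mem {n : ℕ} (d : ℕ) (o : Fin (n + 1)) (W K A : ℕ) (x y : Vc n ℤ) (C : ℝ)
    (hC : ∀ m m', slB d A x y m m' ≤ C) :
    0 ≤ TSB d o W K A x y ∧ TSB d o W K A x y ≤ C := by
  have h0 : ∀ m m', 0 ≤ slB d A x y m m' := fun m m' => slB_nonneg d A x y m m'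
  exact EEleB_avg _ (fun m' => slB d A x y 0 m') ((h0 0 0).trans (hC 0 0)) (fun m' => h0 0 m')
    (fun m' => hC 0 m')

theorem UUB_mem {n : ℕ} (d : ℕ) (o : Fin (n + 1)) (W K A : ℕ) (x y : Vc n ℤ) (C : ℝ)
    (hC : ∀ m m', slB d A x y m m' ≤ C) :
    0 ≤ UUB d o W K A x y ∧ UUB d o W K A x y ≤ C := by
  have h0 : ∀ m m', 0 ≤ slB d A x y m m' := fun m m' => slB_nonneg d A x y m m'
  have hC0 : 0 ≤ C := (h0 0 0).trans (hC 0 0)
  have e2 : UUB d o W K A x y =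
      (1 / ((MS d W K A o x).card : ℝ)) * ∑ m ∈ MS d W K A o x,
        ((1 / ((MS d W K A o y).card : ℝ)) * ∑ m' ∈ MS d W K A o y, slB d A x y m m') := by
    unfold UUB
    rw [← Finset.mul_sum]
    ring
  rw [e2]
  refine EEleB_avg _ (fun m => (1 / ((MS d W K A o y).card : ℝ)) *
      ∑ m' ∈ MS d W K A o y, slB d A x y m m') hC0 (fun m => ?_) (fun m => ?_)
  · exact (EEleB_avg _ (fun m' => slB d A x y m m') hC0 (fun m' => h0 m m') (fun m' => hC m m')).1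
  · exact (EEleB_avg _ (fun m' => slB d A x y m m') hC0 (fun m' => h0 m m') (fun m' => hC m m')).2

private theorem EEleB_prod {r : ℕ} (a C : Fin r → ℝ) (h : ∀ i, 0 ≤ a i ∧ a i ≤ C i) :
    0 ≤ ∏ i, a i ∧ ∏ i, a i ≤ ∏ i, C i :=
  ⟨Finset.prod_nonneg fun i _ => (h i).1, Finset.prod_le_prod (fun i _ => (h i).1) fun i _ => (h i).2⟩

theorem EEleB {n r : ℕ} (d : Fin r → ℕ) (o : Fin (n + 1)) (W K A : ℕ) (x y : Vc n ℤ) :
    |EEB d o W K A x y| ≤ 2 * 4 ^ VV n d * ∏ i, (n2 (d i) x y A : ℝ) := by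
  obtain ⟨C, hC⟩ : ∃ C : Fin r → ℝ, ∀ i, C i = 4 ^ (n + 1) ^ (d i) * (n2 (d i) x y A : ℝ) :=
    ⟨fun i => 4 ^ (n + 1) ^ (d i) * (n2 (d i) x y A : ℝ), fun i => rfl⟩
  have h1 : ∀ i m m', slB (d i) A x y m m' ≤ C i := fun i m m' => by
    rw [hC]
    exact slB_le (d i) A x y m m'
  have eP : ∏ i, C i = 4 ^ VV n d * ∏ i, (n2 (d i) x y A : ℝ) := by
    have e : ∏ i, C i = ∏ i, ((4 : ℝ) ^ (n + 1) ^ (d i) * (n2 (d i) x y A : ℝ)) :=
      Finset.prod_congr rfl fun i _ => hC i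
    rw [e, Finset.prod_mul_distrib, Finset.prod_pow_eq_pow_sum]
    rfl
  have e1 : 2 * 4 ^ VV n d * ∏ i, (n2 (d i) x y A : ℝ) = 2 * ∏ i, C i := by
    rw [eP, mul_assoc]
  rw [e1]
  unfold EEB
  obtain ⟨a0, a1⟩ := EEleB_prod (fun i => slB (d i) A x y 0 0) C
    fun i => ⟨slB_nonneg (d i) A x y 0 0, h1 i 0 0⟩
  obtain ⟨b0, b1⟩ := EEleB_prod (fun i => TTB (d i) o W K A x y) C
    fun i => TTB_mem (d i) o W K A x y (C i) (h1 i)
  obtain ⟨c0, c1⟩ := EEleB_prod (fun i => TSB (d i) o W K A x y) C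
    fun i => TSB_mem (d i) o W K A x y (C i) (h1 i)
  obtain ⟨d0, d1⟩ := EEleB_prod (fun i => UUB (d i) o W K A x y) C
    fun i => UUB_mem (d i) o W K A x y (C i) (h1 i)
  rw [abs_le]
  constructor <;> linarith

end Pool.Agent.Lib.MP_1ad228_ntF
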