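import Pool.Agent.Lib.MP_1ad228_ntF.B_PP

/-!
JOB B_PPn.  The polynomial is not identically zero (`n ≥ 3`).

PROOF.  Let `e i j ≠ 0`. Choose `l ≠ i`, `m ≠ i, l` and `j2 ≠ j` (`n ≥ 3`). Let `f k = Pi.single k.succ 1`. There is a bijection `w : Fin n ≃ {c : Fin (n+1) // c ≠ m.succ}` with
`w j = l.succ`, `w j2 = i.succ`: start with `finSuccAboveEquiv m.succ` (or any equivalence) and apply `Equiv.setValue` twice (`Equiv.setValue f a b` sends `a` to `b` and agrees with `f` outside of
`a` and `f.symm b`). For `σ ∈ {1, -1}` let `g t = (if t = j2 then σ else 1) • Pi.single (w t) 1`. Put `y = bCr g`, `c = y m.succ`.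
`lin y (g t) = 0` (`bCr_perp`) gives `y (w t) = 0` for all `t` (`σ^2 = 1`), so `y = c • Pi.single m.succ 1`, `lin y y = c^2`. `c^2 = 1`: `lin y y = bDet y g` (`bDet_lin`) `= c * bDet (Pi.single m.succ 1) g` and
`bDet (Pi.single m.succ 1) g = c` by definition; the matrix `M = of (Fin.cons (Pi.single m.succ 1) g)` has orthonormal rows, `M * Mᵀ = 1`, so `c^2 = det M * det Mᵀ = 1`. (Or: the rows are up to sign the standard basis in
another order, the determinant is `±1`.)
`lin y (f m) = c`, `lin y (f i) = lin y (f l) = 0` (`i, l ≠ m`). So `bU y f i m = c • f i = (c σ) • g j2` (`f i = Pi.single i.succ 1 = σ • g j2`), `bU y f l m = c • f l = c • g j`,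
`bA y f i m k = if k = i then c else 0`, `bA y f l m k = if k = l then c else 0`. `bDt_smul`, `bDt_self`: `bDt g t (bU y f l m) = if j = t then c * c^2 else 0`,
`bDt g t (bU y f i m) = if j2 = t then c σ * c^2 else 0`. Hence `bP e i l m f g = e i j * c * c * c^2 - e l j2 * c * c σ c^2 = e i j - σ * e l j2` (`c^2 = 1`).
If this were 0 for `σ = 1` and `σ = -1` then `2 e i j = 0`, contradiction.
-/

namespace Pool.Agent.Lib.MP_1ad228_ntF

open Classical

/-- An equivalence with two prescribed values. -/
private theorem bPPn_equiv {n : ℕ} (m l i j j2 : Fin n) (hlm : l ≠ m) (him : i ≠ m) (hli : l ≠ i)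
    (hj : j2 ≠ j) : ∃ w : Fin n ≃ {c : Fin (n + 1) // c ≠ m.succ},
      (w j : Fin (n + 1)) = l.succ ∧ (w j2 : Fin (n + 1)) = i.succ := by
  let a : {c : Fin (n + 1) // c ≠ m.succ} := ⟨l.succ, fun h => hlm (Fin.succ_injective _ h)⟩
  let b : {c : Fin (n + 1) // c ≠ m.succ} := ⟨i.succ, fun h => him (Fin.succ_injective _ h)⟩
  have hab : a ≠ b := by
    intro h
    exact hli (Fin.succ_injective _ (congrArg Subtype.val h))
  let w0 : Fin n ≃ {c : Fin (n + 1) // c ≠ m.succ} := finSuccAboveEquiv m.succ
  let w1 := w0.setValue j a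
  have h1 : w1 j = a := Equiv.setValue_eq w0 j a
  let w2 := w1.setValue j2 b
  have h2 : w2 j2 = b := Equiv.setValue_eq w1 j2 b
  have h3 : w2 j = a := by
    change w1 (Equiv.swap j2 (w1.symm b) j) = a
    rw [Equiv.swap_apply_of_ne_of_ne hj.symm ?_, h1]
    intro h4
    apply hab
    rw [← h1, h4, Equiv.apply_symm_apply]
  exact ⟨w2, congrArg Subtype.val h3, congrArg Subtype.val h2⟩

private theorem bPPn_val {n : ℕ} (e : Fin n → Fin n → ℤ) (i l m j j2 : Fin n) (hli : l ≠ i)
    (him : i ≠ m) (hlm : l ≠ m) (hj : j2 ≠ j) (σ : ℤ) (hσ : σ * σ = 1) :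
    ∃ f g : Fin n → Vc n ℤ, bP e i l m f g = e i j - σ * e l j2 := by
  obtain ⟨w, hw1, hw2⟩ := bPPn_equiv m l i j j2 hlm him hli hj
  let s : Fin n → ℤ := fun t => if t = j2 then σ else 1
  have hs : ∀ t, s t * s t = 1 := by
    intro t
    by_cases ht : t = j2
    · simp only [s, if_pos ht, hσ]
    · simp only [s, if_neg ht, mul_one]
  let f : Fin n → Vc n ℤ := fun k => Pi.single k.succ 1
  let g : Fin n → Vc n ℤ := fun t => s t • Pi.single (w t : Fin (n + 1)) 1
  let y : Vc n ℤ := bCr g
  let c : ℤ := y m.succ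
  have hsingle : ∀ (a : Fin (n + 1)) (x : Vc n ℤ), lin x (Pi.single a 1) = x a := by
    intro a x
    rw [lin_comm, lin_single]
  have hyw : ∀ t, y (w t : Fin (n + 1)) = 0 := by
    intro t
    have h1 : lin y (g t) = 0 := bCr_perp g t
    have h2 : lin y (g t) = s t * y (w t : Fin (n + 1)) := by
      change lin y (s t • Pi.single (w t : Fin (n + 1)) 1) = _
      rw [lin_smul_right, hsingle]
    rw [h2] at h1
    calc y (w t : Fin (n + 1)) = (s t * s t) * y (w t : Fin (n + 1)) := by rw [hs, one_mul]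
      _ = s t * (s t * y (w t : Fin (n + 1))) := by ring
      _ = 0 := by rw [h1, mul_zero]
  have hy0 : ∀ a : Fin (n + 1), a ≠ m.succ → y a = 0 := by
    intro a ha
    have h1 := hyw (w.symm ⟨a, ha⟩)
    rwa [Equiv.apply_symm_apply] at h1
  have hyy : lin y y = c * c := by
    unfold Pool.Agent.Lib.MP_219881_nt.lin
    rw [Finset.sum_eq_single m.succ]
    · intro a _ ha
      rw [hy0 a ha, zero_mul]
    · intro h
      exact absurd (Finset.mem_univ _) h
  have hcc : c * c = 1 := by
    let M : Matrix (Fin (n + 1)) (Fin (n + 1)) ℤ :=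
      Matrix.of (Fin.cons (Pi.single m.succ 1) g : Fin (n + 1) → Vc n ℤ)
    have hM : c = M.det := rfl
    have hMM : M * M.transpose = 1 := by
      have hrow : ∀ a b : Fin (n + 1), (M * M.transpose) a b =
          lin ((Fin.cons (Pi.single m.succ 1) g : Fin (n + 1) → Vc n ℤ) a)
            ((Fin.cons (Pi.single m.succ 1) g : Fin (n + 1) → Vc n ℤ) b) := by
        intro a b
        rw [Matrix.mul_apply]
        rfl
      ext a b
      rw [hrow]
      refine Fin.cases ?_ (fun t => ?_) a
      · refine Fin.cases ?_ (fun t' => ?_) b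
        · rw [Fin.cons_zero, lin_single, Pi.single_eq_same, Matrix.one_apply_eq]
        · rw [Fin.cons_zero, Fin.cons_succ, lin_single, Matrix.one_apply_ne (Fin.succ_ne_zero t').symm]
          change s t' * (Pi.single (w t' : Fin (n + 1)) 1 : Vc n ℤ) m.succ = 0
          rw [Pi.single_eq_of_ne (w t').2.symm, mul_zero]
      · refine Fin.cases ?_ (fun t' => ?_) b
        · rw [Fin.cons_zero, Fin.cons_succ, hsingle, Matrix.one_apply_ne (Fin.succ_ne_zero t)]
          change s t * (Pi.single (w t : Fin (n + 1)) 1 : Vc n ℤ) m.succ = 0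
          rw [Pi.single_eq_of_ne (w t).2.symm, mul_zero]
        · rw [Fin.cons_succ, Fin.cons_succ]
          change lin (s t • Pi.single (w t : Fin (n + 1)) 1) (s t' • Pi.single (w t' : Fin (n + 1)) 1) = _
          rw [lin_smul, lin_smul_right, lin_single]
          by_cases htt : t = t'
          · subst htt
            rw [Pi.single_eq_same, mul_one, hs, Matrix.one_apply_eq]
          · rw [Matrix.one_apply_ne (fun h => htt (Fin.succ_injective _ h)), Pi.single_eq_of_ne,
              mul_zero, mul_zero]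
            intro h
            exact htt (w.injective (Subtype.ext h))
    have h1 := congrArg Matrix.det hMM
    rw [Matrix.det_mul, Matrix.det_transpose, Matrix.det_one] at h1
    rw [hM]
    exact h1
  have hyf : ∀ k : Fin n, lin y (f k) = if k = m then c else 0 := by
    intro k
    change lin y (Pi.single k.succ 1) = _
    rw [hsingle]
    by_cases hk : k = m
    · rw [if_pos hk, hk]
    · rw [if_neg hk]
      exact hy0 _ fun h => hk (Fin.succ_injective _ h)
  have hfi : f i = σ • g j2 := by
    change Pi.single i.succ 1 = σ • (s j2 • Pi.single (w j2 : Fin (n + 1)) 1)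
    rw [hw2, smul_smul]
    simp only [s, if_true]
    rw [hσ, one_smul]
  have hfl : f l = g j := by
    change Pi.single l.succ 1 = s j • Pi.single (w j : Fin (n + 1)) 1
    rw [hw1]
    simp only [s, if_neg hj.symm]
    rw [one_smul]
  have hUi : bU y f i m = (c * σ) • g j2 := by
    unfold bU
    rw [hyf, hyf, if_pos rfl, if_neg him, zero_smul, sub_zero, hfi, smul_smul]
  have hUl : bU y f l m = c • g j := by
    unfold bU
    rw [hyf, hyf, if_pos rfl, if_neg hlm, zero_smul, sub_zero, hfl]
  have hAi : ∀ k, bA y f i m k = if k = i then c else 0 := by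
    intro k
    unfold bA
    rw [hyf, hyf, if_pos rfl, if_neg him]
    simp only [ite_self, sub_zero]
  have hAl : ∀ k, bA y f l m k = if k = l then c else 0 := by
    intro k
    unfold bA
    rw [hyf, hyf, if_pos rfl, if_neg hlm]
    simp only [ite_self, sub_zero]
  have hDl : ∀ t, bDt g t (bU y f l m) = if j = t then c else 0 := by
    intro t
    rw [hUl, bDt_smul, bDt_self]
    change c * (if j = t then lin y y else 0) = _
    rw [hyy, hcc]
    by_cases ht : j = t
    · rw [if_pos ht, if_pos ht, mul_one]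
    · rw [if_neg ht, if_neg ht, mul_zero]
  have hDi : ∀ t, bDt g t (bU y f i m) = if j2 = t then c * σ else 0 := by
    intro t
    rw [hUi, bDt_smul, bDt_self]
    change c * σ * (if j2 = t then lin y y else 0) = _
    rw [hyy, hcc]
    by_cases ht : j2 = t
    · rw [if_pos ht, if_pos ht, mul_one]
    · rw [if_neg ht, if_neg ht, mul_zero]
  refine ⟨f, g, ?_⟩
  have h1 : bP e i l m f g = ∑ k, ∑ t, (e k t * ((if k = i then c else 0) * (if j = t then c else 0))
      - e k t * ((if k = l then c else 0) * (if j2 = t then c * σ else 0))) := by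
    unfold bP
    refine Finset.sum_congr rfl fun k _ => Finset.sum_congr rfl fun t _ => ?_
    change e k t * (bA y f i m k * bDt g t (bU y f l m) - bA y f l m k * bDt g t (bU y f i m)) = _
    rw [hAi, hAl, hDl, hDi, mul_sub]
  have h2 : ∑ k, ∑ t, e k t * ((if k = i then c else 0) * (if j = t then c else 0)) =
      e i j * (c * c) := by
    rw [Finset.sum_eq_single i, Finset.sum_eq_single j]
    · rw [if_pos rfl, if_pos rfl]
    · intro t _ ht
      rw [if_neg (Ne.symm ht), mul_zero, mul_zero]
    · intro h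
      exact absurd (Finset.mem_univ _) h
    · intro k _ hk
      refine Finset.sum_eq_zero fun t _ => ?_
      rw [if_neg hk, zero_mul, mul_zero]
    · intro h
      exact absurd (Finset.mem_univ _) h
  have h3 : ∑ k, ∑ t, e k t * ((if k = l then c else 0) * (if j2 = t then c * σ else 0)) =
      e l j2 * (c * (c * σ)) := by
    rw [Finset.sum_eq_single l, Finset.sum_eq_single j2]
    · rw [if_pos rfl, if_pos rfl]
    · intro t _ ht
      rw [if_neg (Ne.symm ht), mul_zero, mul_zero]
    · intro h
      exact absurd (Finset.mem_univ _) h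
    · intro k _ hk
      refine Finset.sum_eq_zero fun t _ => ?_
      rw [if_neg hk, zero_mul, mul_zero]
    · intro h
      exact absurd (Finset.mem_univ _) h
  rw [h1]
  simp only [Finset.sum_sub_distrib]
  rw [h2, h3]
  linear_combination (e i j - σ * e l j2) * hcc

theorem bP_ne {n : ℕ} (hn : 3 ≤ n) (e : Fin n → Fin n → ℤ) (i j : Fin n) (hij : e i j ≠ 0) :
    ∃ (l m : Fin n) (f g : Fin n → Vc n ℤ), bP e i l m f g ≠ 0 := by
  have hc3 : 2 < (Finset.univ : Finset (Fin n)).card := by
    rw [Finset.card_univ, Fintype.card_fin]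
    omega
  obtain ⟨l, hl⟩ : ∃ l : Fin n, l ≠ i := by
    obtain ⟨l, _, hl⟩ := Finset.exists_mem_ne (by omega : 1 < (Finset.univ : Finset (Fin n)).card) i
    exact ⟨l, hl⟩
  obtain ⟨j2, hj2⟩ : ∃ j2 : Fin n, j2 ≠ j := by
    obtain ⟨l, _, hl⟩ := Finset.exists_mem_ne (by omega : 1 < (Finset.univ : Finset (Fin n)).card) j
    exact ⟨l, hl⟩
  obtain ⟨m, hm⟩ : ∃ m : Fin n, m ∉ ({i, l} : Finset (Fin n)) := by
    by_contra hcon
    push Not at hcon
    have h1 : (Finset.univ : Finset (Fin n)) ⊆ {i, l} := fun m _ => hcon m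
    have h2 := Finset.card_le_card h1
    have h3 : ({i, l} : Finset (Fin n)).card ≤ 2 := Finset.card_le_two
    omega
  rw [Finset.mem_insert, Finset.mem_singleton, not_or] at hm
  by_cases h0 : e i j - 1 * e l j2 = 0
  · obtain ⟨f, g, hfg⟩ := bPPn_val e i l m j j2 hl (Ne.symm hm.1) (Ne.symm hm.2) hj2 (-1) (by norm_num)
    refine ⟨l, m, f, g, ?_⟩
    rw [hfg]
    intro h1
    apply hij
    omega
  · obtain ⟨f, g, hfg⟩ := bPPn_val e i l m j j2 hl (Ne.symm hm.1) (Ne.symm hm.2) hj2 1 (by norm_num)
    refine ⟨l, m, f, g, ?_⟩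
    rw [hfg]
    exact h0

end Pool.Agent.Lib.MP_1ad228_ntF
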