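import Mathlib

/-!
JOB B_Sz.  Schwartz-Zippel in a box, for an arbitrary finite set of variables.

`szCount`.  Let `K = Fintype.card κ`, `w : κ ≃ Fin K` (`Fintype.equivFin`), `Q = MvPolynomial.rename w P ≠ 0` (`MvPolynomial.rename_injective`), `Q.totalDegree ≤ P.totalDegree` (`MvPolynomial.totalDegree_rename_le`).
`S = Icc (-H) H` has `2H+1 > 0` elements. `MvPolynomial.schwartz_zippel_totalDegree` (in `ℚ≥0`): `# * / (2H+1)^K ≤ totalDegree / (2H+1)`, so `# ≤ totalDegree * (2H+1)^(K-1)` if `K ≥ 1`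
(cast to `ℝ`/`ℚ`). The filtered sets correspond under `z ↦ z ∘ w.symm` (`MvPolynomial.eval_rename`). If `K = 0`, `P` is a nonzero constant and the set is empty.
`szUnion`.  Union over a finite set `I` of nonzero polynomials: `Finset.card_biUnion_le`, with `C = ∑ totalDegree`, and `(2H+1)^(K-1) ≤ (3H)^(K-1)` for `H ≥ 1`.
-/

namespace Pool.Agent.Lib.MP_1ad228_ntF

open Classical

theorem szCount {κ : Type} [Fintype κ] (P : MvPolynomial κ ℤ) (hP : P ≠ 0) (H : ℕ) :
    (((Fintype.piFinset fun _ : κ => Finset.Icc (-(H : ℤ)) (H : ℤ)).filter fun z =>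
      MvPolynomial.eval z P = 0).card : ℝ) ≤
      (P.totalDegree : ℝ) * (2 * H + 1 : ℝ) ^ (Fintype.card κ - 1) := by
  obtain ⟨w, -⟩ : ∃ w : κ ≃ Fin (Fintype.card κ), w = w := ⟨Fintype.equivFin κ, rfl⟩
  have hQ : MvPolynomial.rename w P ≠ 0 := by
    intro h
    apply hP
    apply MvPolynomial.rename_injective w w.injective
    rw [h, map_zero]
  have hdeg : (MvPolynomial.rename w P).totalDegree ≤ P.totalDegree :=
    MvPolynomial.totalDegree_rename_le _ _
  have h := MvPolynomial.schwartz_zippel_totalDegree hQ (Finset.Icc (-(H : ℤ)) (H : ℤ))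
  have hS : (Finset.Icc (-(H : ℤ)) (H : ℤ)).card = 2 * H + 1 := by
    rw [Int.card_Icc]
    omega
  rw [hS] at h
  have hcard : ((Fintype.piFinset fun _ : κ => Finset.Icc (-(H : ℤ)) (H : ℤ)).filter fun z =>
      MvPolynomial.eval z P = 0).card =
      ((Fintype.piFinset fun _ : Fin (Fintype.card κ) => Finset.Icc (-(H : ℤ)) (H : ℤ)).filter
        fun z => MvPolynomial.eval z (MvPolynomial.rename w P) = 0).card := by
    refine Finset.card_bij (fun z _ => z ∘ w.symm) ?_ ?_ ?_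
    · intro z hz
      have hz' := Finset.mem_filter.mp hz
      refine Finset.mem_filter.mpr ⟨?_, ?_⟩
      · rw [Fintype.mem_piFinset] at hz' ⊢
        intro j
        exact hz'.1 (w.symm j)
      · rw [MvPolynomial.eval_rename]
        have e : (z ∘ w.symm) ∘ w = z := by
          funext j
          simp
        rw [e]
        exact hz'.2
    · intro z _ z' _ hzz
      funext j
      have := congrFun hzz (w j)
      simpa using this
    · intro y hy
      have hy' := Finset.mem_filter.mp hy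
      refine ⟨y ∘ w, Finset.mem_filter.mpr ⟨?_, ?_⟩, ?_⟩
      · have h1 := hy'.1
        rw [Fintype.mem_piFinset] at h1 ⊢
        intro j
        exact h1 (w j)
      · have h2 := hy'.2
        rw [MvPolynomial.eval_rename] at h2
        exact h2
      · funext j
        simp
  rw [hcard]
  set N : ℕ := ((Fintype.piFinset fun _ : Fin (Fintype.card κ) => Finset.Icc (-(H : ℤ)) (H : ℤ)).filter
        fun z => MvPolynomial.eval z (MvPolynomial.rename w P) = 0).card with hN
  set D : ℕ := (MvPolynomial.rename w P).totalDegree with hD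
  have h' : (N : ℝ) / ((2 * H + 1 : ℕ) : ℝ) ^ (Fintype.card κ) ≤ (D : ℝ) / ((2 * H + 1 : ℕ) : ℝ) := by
    have h2 : (((N : ℚ≥0) / ((2 * H + 1 : ℕ) : ℚ≥0) ^ (Fintype.card κ) : ℚ≥0) : ℝ) ≤
        (((D : ℚ≥0) / ((2 * H + 1 : ℕ) : ℚ≥0) : ℚ≥0) : ℝ) := by
      refine NNRat.cast_le.mpr ?_
      refine le_trans (le_of_eq ?_) h
      rfl
    push_cast at h2 ⊢
    exact h2
  have hb : (0 : ℝ) < ((2 * H + 1 : ℕ) : ℝ) := by positivity
  rw [div_le_div_iff₀ (pow_pos hb _) hb] at h'
  have hb1 : (1 : ℝ) ≤ ((2 * H + 1 : ℕ) : ℝ) := by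
    exact_mod_cast (by omega : 1 ≤ 2 * H + 1)
  have hDP : (D : ℝ) ≤ P.totalDegree := by exact_mod_cast hdeg
  have e2 : (2 * H + 1 : ℝ) = ((2 * H + 1 : ℕ) : ℝ) := by push_cast; ring
  rw [e2]
  have hN0 : (0 : ℝ) ≤ N := Nat.cast_nonneg _
  have hD0 : (0 : ℝ) ≤ D := Nat.cast_nonneg _
  rcases Nat.eq_zero_or_pos (Fintype.card κ) with h0 | h0
  · rw [h0, pow_zero, mul_one] at h'
    rw [h0]
    simp only [Nat.zero_sub, pow_zero, mul_one]
    nlinarith
  · obtain ⟨K, hK⟩ : ∃ K, Fintype.card κ = K + 1 := ⟨Fintype.card κ - 1, by omega⟩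
    rw [hK] at h' ⊢
    rw [Nat.add_sub_cancel]
    rw [pow_succ, ← mul_assoc] at h'
    have h3 := le_of_mul_le_mul_right h' hb
    refine h3.trans ?_
    exact mul_le_mul_of_nonneg_right hDP (pow_nonneg hb.le _)

theorem szUnion {κ : Type} [Fintype κ] {ι : Type} (I : Finset ι) (P : ι → MvPolynomial κ ℤ)
    (hP : ∀ i ∈ I, P i ≠ 0) : ∃ C : ℝ, 0 < C ∧ ∀ H : ℕ, 1 ≤ H →
    (((Fintype.piFinset fun _ : κ => Finset.Icc (-(H : ℤ)) (H : ℤ)).filter fun z =>
      ∃ i ∈ I, MvPolynomial.eval z (P i) = 0).card : ℝ) ≤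
      C * (H : ℝ) ^ (Fintype.card κ - 1) := by
  refine ⟨(∑ i ∈ I, ((P i).totalDegree : ℝ)) * 3 ^ (Fintype.card κ - 1) + 1, ?_, ?_⟩
  · have : 0 ≤ ∑ i ∈ I, ((P i).totalDegree : ℝ) := Finset.sum_nonneg fun _ _ => Nat.cast_nonneg _
    positivity
  · intro H hH
    have hH' : (1 : ℝ) ≤ H := by exact_mod_cast hH
    have hsub : ((Fintype.piFinset fun _ : κ => Finset.Icc (-(H : ℤ)) (H : ℤ)).filter fun z =>
        ∃ i ∈ I, MvPolynomial.eval z (P i) = 0) ⊆
        I.biUnion fun i => (Fintype.piFinset fun _ : κ => Finset.Icc (-(H : ℤ)) (H : ℤ)).filter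
          fun z => MvPolynomial.eval z (P i) = 0 := by
      intro z hz
      obtain ⟨h1, i, hi, h2⟩ := Finset.mem_filter.mp hz
      exact Finset.mem_biUnion.mpr ⟨i, hi, Finset.mem_filter.mpr ⟨h1, h2⟩⟩
    have h1 := (Finset.card_le_card hsub).trans Finset.card_biUnion_le
    have h2 : (((Fintype.piFinset fun _ : κ => Finset.Icc (-(H : ℤ)) (H : ℤ)).filter fun z =>
        ∃ i ∈ I, MvPolynomial.eval z (P i) = 0).card : ℝ) ≤
        ∑ i ∈ I, (((Fintype.piFinset fun _ : κ => Finset.Icc (-(H : ℤ)) (H : ℤ)).filter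
          fun z => MvPolynomial.eval z (P i) = 0).card : ℝ) := by
      exact_mod_cast h1
    refine h2.trans ?_
    have h3 : ∀ i ∈ I, (((Fintype.piFinset fun _ : κ => Finset.Icc (-(H : ℤ)) (H : ℤ)).filter
          fun z => MvPolynomial.eval z (P i) = 0).card : ℝ) ≤
        ((P i).totalDegree : ℝ) * (3 ^ (Fintype.card κ - 1) * (H : ℝ) ^ (Fintype.card κ - 1)) := by
      intro i hi
      refine (szCount (P i) (hP i hi) H).trans ?_
      apply mul_le_mul_of_nonneg_left _ (Nat.cast_nonneg _)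
      rw [← mul_pow]
      apply pow_le_pow_left₀ (by positivity)
      linarith
    refine (Finset.sum_le_sum h3).trans ?_
    rw [← Finset.sum_mul]
    have h4 : 0 ≤ (H : ℝ) ^ (Fintype.card κ - 1) := by positivity
    nlinarith

end Pool.Agent.Lib.MP_1ad228_ntF
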