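import Pool.Agent.Lib.MP_1ad228_ntF.B_PPv
import Pool.Agent.Lib.MP_1ad228_ntF.B_PPn
import Pool.Agent.Lib.MP_1ad228_ntF.B_Sz

/-!
JOB B_Exc.  The number of exceptional pairs.

`excInj`.  If `x, x' ∈ GG B H q o` are both orthogonal to the independent vectors `f s` then `x = x'`. Otherwise `Del_pos` (namespace `Pool.Agent.Lib.MP_219881_nt`) and `exists_Del` give `j` with
`mn x x' o j ≠ 0`. The rational vector `u = x j • e_o - x o • e_j` satisfies `lin u x = 0` (over `ℚ`, with `cv ℚ x`), so by `Pool.Agent.Lib.MP_219881_nt.perpSpan` it is a rational combination of the `f s`, hence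
`lin u x' = ∑ s, t s * lin (f s) x' = 0`; but `lin u x' = x j * x' o - x o * x' j = -mn x x' o j ≠ 0`. (`x ≠ 0` because `x o > 0`, `GG_pos`.)
`excPoly`.  `κ = Bool × Fin n × Fin (n+1)`. For `e : Fin n → Fin n → ℤ`, `e i j ≠ 0`, take `l, m` from `bP_ne` and
`P = bP (fun k j => C (e k j)) i l m (fun k a => X (true, k, a)) (fun k a => X (false, k, a))`. By `bP_map` for `MvPolynomial.eval z` its value at `z` is `bP e i l m (fun k a => z (true, k, a)) (fun k a => z (false, k, a))`;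
at the point of `bP_ne` it is nonzero, so `P ≠ 0`; and it vanishes at `z` if `(f, g) = (z (true, ..), z (false, ..))` and `e k j = ∑ a, ∑ b, f k a * E a b * g j b` with `E` symmetric (`bP_zero`).
`excCount`.  Let `I` = the finite set of the nonzero `e : Fin n → Fin n → ℤ` with `|e k j| ≤ T` (`Fintype.piFinset` twice), `P e` as in `excPoly` (choose `i j` with `e i j ≠ 0`), `C` from `szUnion` (`card κ = 2 * (n * (n+1)) = 2*n*(n+1)`).
The map `(x, y) ↦ z`, `z (true, k, a) = fb x k a`, `z (false, k, a) = fb y k a` is injective on `GG × GG` (`excInj`) and maps exceptional pairs to `{z in the box of size H | ∃ e ∈ I, eval z (P e) = 0}`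
(`e k j := ∑ a, ∑ b, fb x k a * E a b * fb y j b`). `Finset.card_le_card_of_injOn`.
-/

namespace Pool.Agent.Lib.MP_1ad228_ntF

open Classical

private theorem B_Exc_lin {n : ℕ} (o j : Fin (n + 1)) (a b : ℚ) (z : Vc n ℤ) :
    lin (fun i => (if i = o then a else 0) - (if i = j then b else 0)) (cv ℚ z) =
      a * (z o : ℚ) - b * (z j : ℚ) := by
  simp only [lin, cv, sub_mul, Finset.sum_sub_distrib, ite_mul, zero_mul, Finset.sum_ite_eq',
    Finset.mem_univ, if_true]

theorem excInj {n : ℕ} (B H q : ℕ) (o : Fin (n + 1)) (hB : 1 ≤ B) (x x' : Vc n ℤ)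
    (hx : x ∈ GG B H q o) (hx' : x' ∈ GG B H q o) (f : Fin n → Vc n ℤ)
    (hf : LinearIndependent ℤ f) (h0 : ∀ s, lin (f s) x = 0) (h1 : ∀ s, lin (f s) x' = 0) :
    x = x' := by
  by_contra hne
  have hD := Pool.Agent.Lib.MP_219881_nt.Del_pos hB hx hx' hne
  obtain ⟨j, hj, hne', -⟩ := Pool.Agent.Lib.MP_219881_nt.exists_Del o x x' hD
  have hxo := Pool.Agent.Lib.MP_219881_nt.GG_pos hB hx
  have hx0 : x ≠ 0 := by
    intro h
    rw [h] at hxo
    exact lt_irrefl _ hxo
  obtain ⟨u, hu⟩ : ∃ u : Vc n ℚ, u = fun i => (if i = o then (x j : ℚ) else 0) -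
      (if i = j then (x o : ℚ) else 0) := ⟨_, rfl⟩
  have hux : lin u (cv ℚ x) = 0 := by
    rw [hu, B_Exc_lin]
    ring
  obtain ⟨t, ht⟩ := Pool.Agent.Lib.MP_219881_nt.perpSpan x hx0 f hf h0 u hux
  have h2 : lin u (cv ℚ x') = 0 := by
    have e1 : lin u (cv ℚ x') = ∑ s, t s * lin (cv ℚ (f s)) (cv ℚ x') := by
      simp only [lin, cv, Finset.mul_sum]
      rw [Finset.sum_comm]
      refine Finset.sum_congr rfl fun i _ => ?_
      rw [ht i, Finset.sum_mul]
      refine Finset.sum_congr rfl fun s _ => ?_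
      ring
    rw [e1]
    refine Finset.sum_eq_zero fun s _ => ?_
    rw [lin_cv, h1 s, Int.cast_zero, mul_zero]
  rw [hu, B_Exc_lin] at h2
  apply hne'
  have h3 : ((x j * x' o - x o * x' j : ℤ) : ℚ) = 0 := by
    push_cast
    exact h2
  have h4 : x j * x' o - x o * x' j = 0 := by exact_mod_cast h3
  simp only [mn]
  linarith

theorem excPoly {n : ℕ} (hn : 3 ≤ n) (e : Fin n → Fin n → ℤ) (he : ∃ i j, e i j ≠ 0) :
    ∃ P : MvPolynomial (Bool × Fin n × Fin (n + 1)) ℤ, P ≠ 0 ∧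
      ∀ (z : Bool × Fin n × Fin (n + 1) → ℤ) (E : Fin (n + 1) → Fin (n + 1) → ℤ),
        (∀ i j, E i j = E j i) →
        (∀ k j, e k j = ∑ a, ∑ b, z (true, k, a) * E a b * z (false, j, b)) →
        MvPolynomial.eval z P = 0 := by
  obtain ⟨i, j, hij⟩ := he
  obtain ⟨l, m, f, g, hfg⟩ := bP_ne hn e i j hij
  obtain ⟨P, hP⟩ : ∃ P : MvPolynomial (Bool × Fin n × Fin (n + 1)) ℤ,
      P = bP (fun k j => MvPolynomial.C (e k j)) i l m
        (fun k a => MvPolynomial.X (true, k, a)) (fun k a => MvPolynomial.X (false, k, a)) := ⟨_, rfl⟩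
  have heval : ∀ z : Bool × Fin n × Fin (n + 1) → ℤ, MvPolynomial.eval z P =
      bP e i l m (fun k a => z (true, k, a)) (fun k a => z (false, k, a)) := by
    intro z
    have h := bP_map (MvPolynomial.eval z) (fun k j => MvPolynomial.C (e k j)) i l m
      (fun k a => MvPolynomial.X (true, k, a)) (fun k a => MvPolynomial.X (false, k, a))
    simp only [MvPolynomial.eval_C, MvPolynomial.eval_X] at h
    rw [hP, h]
  refine ⟨P, ?_, ?_⟩
  · intro h0
    have h1 := heval fun c => if c.1 then f c.2.1 c.2.2 else g c.2.1 c.2.2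
    rw [h0, map_zero] at h1
    apply hfg
    simp only [if_true, Bool.false_eq_true, if_false] at h1
    exact h1.symm
  · intro z E hE he
    rw [heval z]
    exact bP_zero E hE _ _ e he i l m

theorem excCount (n : ℕ) (hn : 3 ≤ n) (T q : ℕ) (hq : 1 ≤ q) : ∃ C : ℝ, 0 < C ∧
    ∀ (B H : ℕ) (o : Fin (n + 1)), 1 ≤ B → 1 ≤ H → ∀ fb : Vc n ℤ → Fin n → Vc n ℤ,
    (∀ x ∈ GG B H q o, LinearIndependent ℤ (fb x) ∧ (∀ s, lin (fb x s) x = 0) ∧
      ∀ s i, |fb x s i| ≤ (H : ℤ)) →
    ((((GG B H q o) ×ˢ (GG B H q o)).filter fun p => ExcP T (fb p.1) (fb p.2)).card : ℝ) ≤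
      C * (H : ℝ) ^ (2 * n * (n + 1) - 1) := by
  choose! P hP0 hPz using fun (e : Fin n → Fin n → ℤ) (he : ∃ i j, e i j ≠ 0) => excPoly hn e he
  obtain ⟨I, hI⟩ : ∃ I : Finset (Fin n → Fin n → ℤ), ∀ e, e ∈ I ↔
      ((∀ i j, |e i j| ≤ (T : ℤ)) ∧ ∃ i j, e i j ≠ 0) := by
    refine ⟨((Fintype.piFinset fun _ : Fin n => Fintype.piFinset fun _ : Fin n =>
      Finset.Icc (-(T : ℤ)) (T : ℤ)).filter fun e => ∃ i j, e i j ≠ 0), fun e => ?_⟩
    simp only [Finset.mem_filter, Fintype.mem_piFinset, Finset.mem_Icc, abs_le]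
  obtain ⟨C, hC, hcount⟩ := szUnion I P fun e he => hP0 e ((hI e).mp he).2
  refine ⟨C, hC, ?_⟩
  intro B H o hB hH fb hfb
  have h1 := hcount H hH
  have hcard : Fintype.card (Bool × Fin n × Fin (n + 1)) = 2 * n * (n + 1) := by
    rw [Fintype.card_prod, Fintype.card_prod, Fintype.card_bool, Fintype.card_fin, Fintype.card_fin,
      mul_assoc]
  rw [hcard] at h1
  refine le_trans ?_ h1
  refine Nat.cast_le.mpr ?_
  apply Finset.card_le_card_of_injOn
    (fun p c => if c.1 then fb p.1 c.2.1 c.2.2 else fb p.2 c.2.1 c.2.2)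
  · intro p hp
    obtain ⟨hp1, hp2⟩ := Finset.mem_filter.mp hp
    obtain ⟨hpx, hpy⟩ := Finset.mem_product.mp hp1
    refine Finset.mem_filter.mpr ⟨?_, ?_⟩
    · refine (@Fintype.mem_piFinset _ (fun _ _ => Classical.propDecidable _) _ _ _ _).mpr ?_
      intro c
      rw [Finset.mem_Icc, ← abs_le]
      by_cases hc : c.1 = true
      · simp only [hc, if_true]
        exact (hfb p.1 hpx).2.2 _ _
      · simp only [hc]
        exact (hfb p.2 hpy).2.2 _ _
    · obtain ⟨E, hE, hEb, s, t, hst⟩ := hp2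
      refine ⟨fun k j => ∑ a, ∑ b, fb p.1 k a * E a b * fb p.2 j b, ?_, ?_⟩
      · rw [hI]
        exact ⟨fun k j => hEb k j, s, t, hst⟩
      · exact hPz _ ⟨s, t, hst⟩ _ E hE fun k j => by
          simp only [if_true, Bool.false_eq_true, if_false]
  · intro p hp p' hp' hpp
    obtain ⟨hpx, hpy⟩ := Finset.mem_product.mp (Finset.mem_filter.mp hp).1
    obtain ⟨hpx', hpy'⟩ := Finset.mem_product.mp (Finset.mem_filter.mp hp').1
    have e1 : fb p.1 = fb p'.1 := by
      funext s i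
      have := congrFun hpp (true, s, i)
      simpa only [if_true] using this
    have e2 : fb p.2 = fb p'.2 := by
      funext s i
      have := congrFun hpp (false, s, i)
      simpa only [Bool.false_eq_true, if_false] using this
    refine Prod.ext ?_ ?_
    · refine excInj B H q o hB p.1 p'.1 hpx hpx' (fb p.1) (hfb p.1 hpx).1 (hfb p.1 hpx).2.1 ?_
      rw [e1]
      exact (hfb p'.1 hpx').2.1
    · refine excInj B H q o hB p.2 p'.2 hpy hpy' (fb p.2) (hfb p.2 hpy).1 (hfb p.2 hpy).2.1 ?_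
      rw [e2]
      exact (hfb p'.2 hpy').2.1

end Pool.Agent.Lib.MP_1ad228_ntF
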