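import Pool.Agent.Lib.MP_1ad228_ntF.B_EE

/-!
JOB B_Exp.  The variance with the product weight is the sum over pairs of test points (copy of Expand.lean with `fw`, `slB`, `TTB`, `TSB`, `UUB`, `EEB`, `QvB`
for `psi`, `sl`, `TT`, `TS`, `UU`, `EE`, `Qv`).
-/

namespace Pool.Agent.Lib.MP_1ad228_ntF

open Classical

/-- Indicator of `ev a x = m`. -/
private noncomputable def expBD {n d : ℕ} (x : Vc n ℤ) (m : ℤ) (a : Ten n d ℤ) : ℝ :=
  if ev a x = m then 1 else 0

/-- The local function. -/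
private noncomputable def expBL {n d : ℕ} (o : Fin (n + 1)) (W K A : ℕ) (x : Vc n ℤ) (a : Ten n d ℤ) : ℝ :=
  (1 / ((MS d W K A o x).card : ℝ)) * ∑ m ∈ MS d W K A o x, expBD x m a

private theorem expB_mem {n d : ℕ} (o : Fin (n + 1)) (W K A : ℕ) (hK : 1 ≤ K) (x : Vc n ℤ) (a : Ten n d ℤ) :
    ev a x ∈ MS d W K A o x ↔ Loc W K A o a x := by
  unfold MS Loc
  rw [Finset.mem_filter, Finset.mem_Icc]
  constructor
  · exact fun h => h.2
  · intro h
    refine ⟨?_, h⟩
    have h1 : |ev a x| ≤ (A : ℤ) * (x o) ^ d := by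
      have h2 : (1 : ℤ) ≤ (K : ℤ) := by exact_mod_cast hK
      have h3 : 1 * |ev a x| ≤ (K : ℤ) * |ev a x| :=
        mul_le_mul_of_nonneg_right h2 (abs_nonneg _)
      have h4 := h.2
      linarith
    exact abs_le.mp h1

private theorem expB_L {n d : ℕ} (o : Fin (n + 1)) (W K A : ℕ) (hK : 1 ≤ K) (x : Vc n ℤ) (a : Ten n d ℤ) :
    expBL o W K A x a = if Loc W K A o a x then 1 / ((MS d W K A o x).card : ℝ) else 0 := by
  unfold expBL expBD
  rw [Finset.sum_ite_eq]
  by_cases h : Loc W K A o a x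
  · rw [if_pos ((expB_mem o W K A hK x a).mpr h), if_pos h, mul_one]
  · rw [if_neg (fun h' => h ((expB_mem o W K A hK x a).mp h')), if_neg h, mul_zero]

private theorem expB_sl {n : ℕ} (d A : ℕ) (x y : Vc n ℤ) (m m' : ℤ) :
    slB d A x y m m' = ∑ a ∈ Box n d (2 * A), fw A a * (expBD x m a * expBD y m' a) := by
  unfold slB expBD
  rw [Finset.sum_filter]
  refine Finset.sum_congr rfl fun a _ => ?_
  by_cases h1 : ev a x = m
  · by_cases h2 : ev a y = m'
    · rw [if_pos ⟨h1, h2⟩, if_pos h1, if_pos h2]; ring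
    · rw [if_neg (fun h => h2 h.2), if_neg h2]; ring
  · rw [if_neg (fun h => h1 h.1), if_neg h1]; ring

private theorem expB_TT {n : ℕ} (d : ℕ) (o : Fin (n + 1)) (W K A : ℕ) (x y : Vc n ℤ) :
    TTB d o W K A x y = ∑ a ∈ Box n d (2 * A), fw A a * (expBL o W K A x a * expBD y 0 a) := by
  unfold TTB
  simp only [expB_sl, expBL]
  rw [Finset.sum_comm, Finset.mul_sum]
  refine Finset.sum_congr rfl fun a _ => ?_
  rw [← Finset.mul_sum, ← Finset.sum_mul]
  ring

private theorem expB_TS {n : ℕ} (d : ℕ) (o : Fin (n + 1)) (W K A : ℕ) (x y : Vc n ℤ) :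
    TSB d o W K A x y = ∑ a ∈ Box n d (2 * A), fw A a * (expBD x 0 a * expBL o W K A y a) := by
  unfold TSB
  simp only [expB_sl, expBL]
  rw [Finset.sum_comm, Finset.mul_sum]
  refine Finset.sum_congr rfl fun a _ => ?_
  rw [← Finset.mul_sum, ← Finset.mul_sum]
  ring

private theorem expB_UU {n : ℕ} (d : ℕ) (o : Fin (n + 1)) (W K A : ℕ) (x y : Vc n ℤ) :
    UUB d o W K A x y = ∑ a ∈ Box n d (2 * A), fw A a * (expBL o W K A x a * expBL o W K A y a) := by
  unfold UUB
  simp only [expB_sl, expBL]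
  have h1 : ∑ m ∈ MS d W K A o x, ∑ m' ∈ MS d W K A o y, ∑ a ∈ Box n d (2 * A),
        fw A a * (expBD x m a * expBD y m' a)
      = ∑ a ∈ Box n d (2 * A), fw A a *
        ((∑ m ∈ MS d W K A o x, expBD x m a) * ∑ m' ∈ MS d W K A o y, expBD y m' a) := by
    calc ∑ m ∈ MS d W K A o x, ∑ m' ∈ MS d W K A o y, ∑ a ∈ Box n d (2 * A),
          fw A a * (expBD x m a * expBD y m' a)
        = ∑ m ∈ MS d W K A o x, ∑ a ∈ Box n d (2 * A), ∑ m' ∈ MS d W K A o y,
          fw A a * (expBD x m a * expBD y m' a) :=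
          Finset.sum_congr rfl fun m _ => Finset.sum_comm
      _ = ∑ a ∈ Box n d (2 * A), ∑ m ∈ MS d W K A o x, ∑ m' ∈ MS d W K A o y,
          fw A a * (expBD x m a * expBD y m' a) := Finset.sum_comm
      _ = _ := by
          refine Finset.sum_congr rfl fun a _ => ?_
          rw [Finset.sum_mul_sum, Finset.mul_sum]
          refine Finset.sum_congr rfl fun m _ => ?_
          rw [Finset.mul_sum]
  rw [h1, Finset.mul_sum]
  refine Finset.sum_congr rfl fun a _ => ?_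
  ring

private theorem expB_prod {n r : ℕ} (d : Fin r → ℕ) (X : ℕ)
    (p f g u v : (i : Fin r) → Ten n (d i) ℤ → ℝ) :
    ∑ F ∈ TBox n d X, (∏ i, p i (F i)) * ((∏ i, f i (F i) - ∏ i, u i (F i)) *
      (∏ i, g i (F i) - ∏ i, v i (F i))) =
    ∏ i, (∑ a ∈ Box n (d i) X, p i a * (f i a * g i a)) - ∏ i, (∑ a ∈ Box n (d i) X, p i a * (u i a * g i a))
      - ∏ i, (∑ a ∈ Box n (d i) X, p i a * (f i a * v i a))
      + ∏ i, (∑ a ∈ Box n (d i) X, p i a * (u i a * v i a)) := by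
  unfold TBox
  rw [Finset.prod_univ_sum, Finset.prod_univ_sum, Finset.prod_univ_sum, Finset.prod_univ_sum,
    ← Finset.sum_sub_distrib, ← Finset.sum_sub_distrib, ← Finset.sum_add_distrib]
  refine Finset.sum_congr rfl fun F _ => ?_
  simp only [Finset.prod_mul_distrib]
  ring

private theorem expB_EE {n r : ℕ} (d : Fin r → ℕ) (o : Fin (n + 1)) (W K A : ℕ) (x y : Vc n ℤ) :
    EEB d o W K A x y = ∑ F ∈ TBox n d (2 * A), (∏ i, fw A (F i)) *
      ((∏ i, expBD x 0 (F i) - ∏ i, expBL o W K A x (F i)) *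
        (∏ i, expBD y 0 (F i) - ∏ i, expBL o W K A y (F i))) := by
  rw [expB_prod d (2 * A) (fun _ a => fw A a) (fun _ a => expBD x 0 a) (fun _ a => expBD y 0 a)
    (fun _ a => expBL o W K A x a) (fun _ a => expBL o W K A y a)]
  unfold EEB
  simp only [expB_TT, expB_TS, expB_UU, expB_sl]

private theorem expB_ind {r : ℕ} (P : Fin r → Prop) [DecidablePred P] [Decidable (∀ i, P i)]
    (c : Fin r → ℝ) :
    (if ∀ i, P i then ∏ i, c i else 0) = ∏ i, (if P i then c i else 0) := by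
  by_cases h : ∀ i, P i
  · rw [if_pos h]
    exact Finset.prod_congr rfl fun i _ => (if_pos (h i)).symm
  · rw [if_neg h]
    obtain ⟨i, hi⟩ := not_forall.1 h
    exact (Finset.prod_eq_zero (Finset.mem_univ i) (if_neg hi)).symm

theorem expandB {n r : ℕ} (d : Fin r → ℕ) (B H q : ℕ) (o : Fin (n + 1)) (W K A : ℕ)
    (hK : 1 ≤ K) :
    QvB d B H q o W K A = ∑ x ∈ GG B H q o, ∑ y ∈ GG B H q o, EEB d o W K A x y := by
  have hN : ∀ F : Tup n d ℤ, (Nn B H q o F : ℝ) = ∑ x ∈ GG B H q o, ∏ i, expBD x 0 (F i) := by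
    intro F
    unfold Nn expBD
    rw [Finset.card_filter, Nat.cast_sum]
    refine Finset.sum_congr rfl fun x _ => ?_
    rw [← expB_ind (fun i => ev (F i) x = 0) (fun _ => 1), Finset.prod_const_one]
    by_cases h : ∀ i, ev (F i) x = 0
    · rw [if_pos h, if_pos h, Nat.cast_one]
    · rw [if_neg h, if_neg h, Nat.cast_zero]
  have hL : ∀ F : Tup n d ℤ, Ll B H q o W K A F = ∑ x ∈ GG B H q o, ∏ i, expBL o W K A x (F i) := by
    intro F
    unfold Ll
    rw [Finset.sum_filter]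
    refine Finset.sum_congr rfl fun x _ => ?_
    simp only [expB_L o W K A hK x]
    rw [← expB_ind (fun i => Loc W K A o (F i) x) (fun i => 1 / ((MS (d i) W K A o x).card : ℝ))]
  have hQ : ∀ F : Tup n d ℤ, (∏ i, fw A (F i)) * ((Nn B H q o F : ℝ) - Ll B H q o W K A F) ^ 2
      = ∑ x ∈ GG B H q o, ∑ y ∈ GG B H q o, (∏ i, fw A (F i)) *
      ((∏ i, expBD x 0 (F i) - ∏ i, expBL o W K A x (F i)) *
        (∏ i, expBD y 0 (F i) - ∏ i, expBL o W K A y (F i))) := by
    intro F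
    rw [hN, hL, ← Finset.sum_sub_distrib, sq, Finset.sum_mul_sum, Finset.mul_sum]
    refine Finset.sum_congr rfl fun x _ => ?_
    rw [Finset.mul_sum]
  unfold QvB
  rw [Finset.sum_congr rfl fun F _ => hQ F, Finset.sum_comm]
  refine Finset.sum_congr rfl fun x _ => ?_
  rw [Finset.sum_comm]
  refine Finset.sum_congr rfl fun y _ => ?_
  exact (expB_EE d o W K A x y).symm

end Pool.Agent.Lib.MP_1ad228_ntF
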