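import Pool.Agent.Lib.MP_1ad228_ntF.B_Wt

/-!
JOB B_Fej.  Nonnegativity of the Fourier transform of the triangle (Fejer kernel).

PROOF.  `c = (1/(2A)) * ‖∑_{u < 2A} exp(2 π i θ u)‖^2`. Expand: `‖S‖^2 = S * conj S = ∑_{u,v < 2A} exp(2 π i θ (u - v))`
(`Complex.mul_conj`, `Complex.normSq_eq_norm_sq`, `map_sum`, conj of the exponential of a purely imaginary number).
Group by `z = u - v` (`Finset.sum_fiberwise_of_maps_to` over `Icc (-2A) (2A)`): the number of pairs `(u, v)` of `range (2A) ×ˢ range (2A)` with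
`u - v = z` is `2A - |z|` for `|z| ≤ 2A` (the pairs are `(v + z, v)`, `v` in the interval `[max 0 (-z), 2A - max 0 z)`), and `w1 A z = (2A - |z|)/(2A)`.
`dyad`: cos(2 π φ) > 0 means that `φ` is at distance `< 1/4` of an integer. Induction on `J`: claim `|θ - round θ| < 1/2^(J+2)`. If `|θ - E| < 1/2^(j+2)` (`j ≥ 0`)
then `2^(j+1) θ` has distance exactly `2^(j+1) |θ - E| < 1/2` to the integer `2^(j+1) E`; since `cos (2 π 2^(j+1) θ) = cos (2 π 2^(j+1) (θ - E)) > 0` and the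
argument is at most `π` in absolute value, it is less than `π/2` : `|θ - E| < 1/2^(j+3)`. Start: `E = round θ`, `|θ - E| ≤ 1/2`, `cos (2 π (θ - E)) > 0` gives `|θ - E| < 1/4`.
(`Real.cos_nonpos_of_pi_div_two_le_of_le`, `Real.cos_sub_int_mul_two_pi`, `Real.cos_abs`.)
-/

namespace Pool.Agent.Lib.MP_1ad228_ntF

open Classical

private theorem fej_icc (h : ℤ → ℂ) (N : ℕ) :
    ∑ z ∈ Finset.Icc (-(N : ℤ)) (N : ℤ), h z =
      h 0 + ∑ k ∈ Finset.range N, (h ((k : ℤ) + 1) + h (-((k : ℤ) + 1))) := by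
  induction N with
  | zero => simp
  | succ N ih =>
    have h1 : Finset.Icc (-((N + 1 : ℕ) : ℤ)) ((N + 1 : ℕ) : ℤ) =
        insert ((N : ℤ) + 1) (insert (-((N : ℤ) + 1)) (Finset.Icc (-(N : ℤ)) (N : ℤ))) := by
      ext z
      simp only [Finset.mem_Icc, Finset.mem_insert]
      push_cast
      omega
    have h2 : (-((N : ℤ) + 1)) ∉ Finset.Icc (-(N : ℤ)) (N : ℤ) := by
      rw [Finset.mem_Icc]
      omega
    have h3 : ((N : ℤ) + 1) ∉ insert (-((N : ℤ) + 1)) (Finset.Icc (-(N : ℤ)) (N : ℤ)) := by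
      rw [Finset.mem_insert, Finset.mem_Icc]
      omega
    rw [h1, Finset.sum_insert h3, Finset.sum_insert h2, ih, Finset.sum_range_succ]
    ring

private theorem fej_pairs (g : ℤ → ℂ) (N : ℕ) :
    (N : ℂ) * g 0 + ∑ k ∈ Finset.range N, ((N : ℂ) - ((k : ℂ) + 1)) *
      (g ((k : ℤ) + 1) + g (-((k : ℤ) + 1))) =
      ∑ u ∈ Finset.range N, ∑ v ∈ Finset.range N, g ((u : ℤ) - (v : ℤ)) := by
  induction N with
  | zero => simp
  | succ N ih =>
    have h1 : ∑ u ∈ Finset.range (N + 1), ∑ v ∈ Finset.range (N + 1), g ((u : ℤ) - (v : ℤ)) =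
        ∑ u ∈ Finset.range N, ∑ v ∈ Finset.range N, g ((u : ℤ) - (v : ℤ)) +
        ∑ u ∈ Finset.range N, g ((u : ℤ) - (N : ℤ)) +
        (∑ v ∈ Finset.range N, g ((N : ℤ) - (v : ℤ)) + g 0) := by
      rw [Finset.sum_range_succ]
      simp only [Finset.sum_range_succ _ N, Finset.sum_add_distrib, sub_self]
    have h2 : ∑ u ∈ Finset.range N, g ((u : ℤ) - (N : ℤ)) =
        ∑ k ∈ Finset.range N, g (-((k : ℤ) + 1)) := by
      rw [← Finset.sum_range_reflect]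
      refine Finset.sum_congr rfl fun k hk => ?_
      rw [Finset.mem_range] at hk
      congr 1
      omega
    have h3 : ∑ v ∈ Finset.range N, g ((N : ℤ) - (v : ℤ)) =
        ∑ k ∈ Finset.range N, g ((k : ℤ) + 1) := by
      rw [← Finset.sum_range_reflect]
      refine Finset.sum_congr rfl fun k hk => ?_
      rw [Finset.mem_range] at hk
      congr 1
      omega
    rw [h1, ← ih, h2, h3, Finset.sum_range_succ]
    have h4 : ∑ k ∈ Finset.range N, (((N + 1 : ℕ) : ℂ) - ((k : ℂ) + 1)) *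
        (g ((k : ℤ) + 1) + g (-((k : ℤ) + 1))) =
        ∑ k ∈ Finset.range N, ((N : ℂ) - ((k : ℂ) + 1)) * (g ((k : ℤ) + 1) + g (-((k : ℤ) + 1))) +
        (∑ k ∈ Finset.range N, g ((k : ℤ) + 1) + ∑ k ∈ Finset.range N, g (-((k : ℤ) + 1))) := by
      rw [← Finset.sum_add_distrib, ← Finset.sum_add_distrib]
      refine Finset.sum_congr rfl fun k _ => ?_
      push_cast
      ring
    rw [h4]
    push_cast
    ring

private theorem fej_exp (θ : ℝ) (u v : ℤ) :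
    Complex.exp (2 * Real.pi * Complex.I * θ * ((u - v : ℤ) : ℂ)) =
      Complex.exp (2 * Real.pi * Complex.I * θ * (u : ℂ)) *
        (starRingEnd ℂ) (Complex.exp (2 * Real.pi * Complex.I * θ * (v : ℂ))) := by
  rw [← Complex.exp_conj, ← Complex.exp_add]
  congr 1
  simp only [map_mul, Complex.conj_I, Complex.conj_ofReal, map_ofNat, map_intCast]
  push_cast
  ring

private theorem fej_w1 {A : ℕ} (hA : 1 ≤ A) {z : ℤ}
    (hz : z ∈ Finset.Icc (-((2 * A : ℕ) : ℤ)) ((2 * A : ℕ) : ℤ)) :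
    w1 A z = (1 / ((2 * A : ℕ) : ℝ)) * (((2 * A : ℕ) : ℝ) - |(z : ℝ)|) := by
  rw [Finset.mem_Icc] at hz
  have h1 : |(z : ℝ)| ≤ ((2 * A : ℕ) : ℝ) := by
    rw [abs_le]
    exact ⟨by exact_mod_cast hz.1, by exact_mod_cast hz.2⟩
  have hA0 : (0 : ℝ) < A := by exact_mod_cast hA
  push_cast at h1 ⊢
  unfold w1
  rw [max_eq_right]
  · field_simp
  · rw [sub_nonneg, div_le_one (by positivity)]
    exact h1

private theorem dyad_step {M δ : ℝ} (hM : 0 < M) (h1 : |δ| ≤ 1 / (2 * M))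
    (h2 : 0 < Real.cos (2 * Real.pi * (M * δ))) : |δ| ≤ 1 / (4 * M) := by
  by_contra h
  rw [not_le] at h
  have hpi := Real.pi_pos
  have h3 : |2 * Real.pi * (M * δ)| = 2 * Real.pi * M * |δ| := by
    rw [abs_mul, abs_mul, abs_mul M δ, abs_of_pos hM, abs_of_pos hpi, abs_of_pos (by norm_num : (0 : ℝ) < 2)]
    ring
  rw [← Real.cos_abs, h3] at h2
  have h4 : 2 * Real.pi * M * |δ| ≤ Real.pi := by
    have h5 := mul_le_mul_of_nonneg_left h1 (by positivity : 0 ≤ 2 * Real.pi * M)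
    refine h5.trans (le_of_eq ?_)
    field_simp
  have h6 : Real.pi / 2 ≤ 2 * Real.pi * M * |δ| := by
    have h7 := mul_le_mul_of_nonneg_left h.le (by positivity : 0 ≤ 2 * Real.pi * M)
    refine le_trans (le_of_eq ?_) h7
    field_simp
    norm_num
  have h8 := Real.cos_nonpos_of_pi_div_two_le_of_le h6 (by linarith)
  linarith

private theorem dyad_cos (θ : ℝ) (j : ℕ) (h : 0 < Real.cos (2 * Real.pi * (2 ^ j * θ))) :
    0 < Real.cos (2 * Real.pi * (2 ^ j * (θ - round θ))) := by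
  have h1 : 2 * Real.pi * (2 ^ j * θ) = 2 * Real.pi * (2 ^ j * (θ - round θ)) +
      ((2 ^ j * round θ : ℤ) : ℝ) * (2 * Real.pi) := by
    push_cast
    ring
  rw [h1, Real.cos_add_int_mul_two_pi] at h
  exact h

theorem fej (A : ℕ) (hA : 1 ≤ A) (θ : ℝ) : ∃ c : ℝ, 0 ≤ c ∧
    ∑ z ∈ Finset.Icc (-((2 * A : ℕ) : ℤ)) ((2 * A : ℕ) : ℤ),
      ((w1 A z : ℝ) : ℂ) * Complex.exp (2 * Real.pi * Complex.I * θ * z) = (c : ℂ) := by
  obtain ⟨N, hN⟩ : ∃ N : ℕ, N = 2 * A := ⟨_, rfl⟩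
  obtain ⟨g, hg⟩ : ∃ g : ℤ → ℂ, ∀ z, g z = Complex.exp (2 * Real.pi * Complex.I * θ * (z : ℂ)) :=
    ⟨_, fun _ => rfl⟩
  obtain ⟨S, hS⟩ : ∃ S : ℂ, S = ∑ u ∈ Finset.range N, g (u : ℤ) := ⟨_, rfl⟩
  refine ⟨1 / (N : ℝ) * Complex.normSq S, mul_nonneg (by positivity) (Complex.normSq_nonneg S), ?_⟩
  have h1 : ∑ z ∈ Finset.Icc (-((2 * A : ℕ) : ℤ)) ((2 * A : ℕ) : ℤ),
      ((w1 A z : ℝ) : ℂ) * Complex.exp (2 * Real.pi * Complex.I * θ * z) =
      ∑ z ∈ Finset.Icc (-(N : ℤ)) (N : ℤ), (1 / (N : ℂ)) * (((N : ℂ) - ((|(z : ℝ)| : ℝ) : ℂ)) * g z) := by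
    rw [← hN]
    refine Finset.sum_congr rfl fun z hz => ?_
    rw [hN] at hz
    rw [fej_w1 hA hz, ← hN, hg]
    push_cast
    ring
  rw [h1, ← Finset.mul_sum, fej_icc]
  have h2 : ∑ k ∈ Finset.range N, (((N : ℂ) - ((|(((k : ℤ) + 1 : ℤ) : ℝ)| : ℝ) : ℂ)) * g ((k : ℤ) + 1) +
      ((N : ℂ) - ((|((-((k : ℤ) + 1) : ℤ) : ℝ)| : ℝ) : ℂ)) * g (-((k : ℤ) + 1))) =
      ∑ k ∈ Finset.range N, ((N : ℂ) - ((k : ℂ) + 1)) * (g ((k : ℤ) + 1) + g (-((k : ℤ) + 1))) := by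
    refine Finset.sum_congr rfl fun k _ => ?_
    have h3 : |(((k : ℤ) + 1 : ℤ) : ℝ)| = (k : ℝ) + 1 := by
      push_cast
      exact abs_of_nonneg (by positivity)
    have h4 : |((-((k : ℤ) + 1) : ℤ) : ℝ)| = (k : ℝ) + 1 := by
      push_cast
      rw [abs_neg]
      exact abs_of_nonneg (by positivity)
    rw [h3, h4]
    push_cast
    ring
  rw [h2, Int.cast_zero, abs_zero, Complex.ofReal_zero, sub_zero, fej_pairs]
  have h5 : ∑ u ∈ Finset.range N, ∑ v ∈ Finset.range N, g ((u : ℤ) - (v : ℤ)) =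
      S * (starRingEnd ℂ) S := by
    rw [hS, map_sum, Finset.sum_mul_sum]
    refine Finset.sum_congr rfl fun u _ => Finset.sum_congr rfl fun v _ => ?_
    rw [hg, hg, hg, fej_exp]
  rw [h5, Complex.mul_conj]
  push_cast
  ring

theorem dyad (θ : ℝ) (J : ℕ) (h : ∀ j ≤ J, 0 < Real.cos (2 * Real.pi * (2 ^ j * θ))) :
    |θ - round θ| ≤ 1 / 2 ^ (J + 2) := by
  induction J with
  | zero =>
    have h1 := dyad_cos θ 0 (h 0 le_rfl)
    rw [pow_zero] at h1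
    have h2 := dyad_step (M := 1) one_pos (by
      rw [mul_one]
      exact abs_sub_round θ) h1
    norm_num at h2 ⊢
    exact h2
  | succ J ih =>
    have h1 := ih fun j hj => h j (by omega)
    have h2 := dyad_cos θ (J + 1) (h (J + 1) le_rfl)
    have e1 : (1 : ℝ) / 2 ^ (J + 2) = 1 / (2 * 2 ^ (J + 1)) := by
      congr 1
      ring
    have e2 : (1 : ℝ) / 2 ^ (J + 1 + 2) = 1 / (4 * 2 ^ (J + 1)) := by
      congr 1
      ring
    rw [e1] at h1
    rw [e2]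
    exact dyad_step (by positivity) h1 h2

end Pool.Agent.Lib.MP_1ad228_ntF
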