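import Pool.Agent.Lib.MP_1ad228_ntF.B_Fej

/-!
JOB B_Four.  Finite Fourier expansion of the slices with nonnegative coefficients.

PROOF.  Let `N0` be a natural number with `|ev a x| ≤ N0`, `|ev a y| ≤ N0` for all `a ∈ Box n d (2A)` (a finite set: e.g. the sum of the
natAbs of all values, or `ev_bound`). `Q = 2 (Mx + N0) + 1`. Write `e(t) = exp(2 π i t / Q)`. For an integer `u` with `|u| < Q`:
`∑_{i : Fin Q} e(i u) = Q` if `u = 0`, and `0` otherwise (geometric sum: `e(u)` is a `Q`-th root of unity, `≠ 1` since `Q ∤ u`; `Complex.isPrimitiveRoot_exp`,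
`IsPrimitiveRoot.geom_sum_eq_zero`-style, or `mul_neg_geom_sum`).
`ev a x = ∑ s, a s * X s` with `X s = ∏ k, x (s k)`. For `(i, j)`: `∑_{a ∈ Box n d (2A)} fw A a * e(i ev a x + j ev a y)
= ∏ s, ∑_{z ∈ Icc (-2A) (2A)} w1 A z * exp(2 π i θ_s z)`, `θ_s = (i X_s + j Y_s)/Q` (`Finset.prod_univ_sum`, `Box` is a `piFinset`; `Complex.exp_sum`), and by `fej` this is
a nonnegative real number `c i j`. `ν i j = c i j / Q^2`.
`slB d A x y m m' = ∑_{a ∈ Box} fw A a * [ev a x = m] * [ev a y = m'] = ∑_a fw A a * Q^(-2) * ∑_i ∑_j e(i (ev a x - m)) e(j (ev a y - m'))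
= ∑_i ∑_j ν i j * e(-(i m + j m'))` (`|ev a x - m| < Q`). Take real parts: `Re e(-t) = cos (2 π t/Q)`.
-/

namespace Pool.Agent.Lib.MP_1ad228_ntF

open Classical

/-- The character. -/
private noncomputable def B_Four_ex (Q : ℕ) (u : ℤ) : ℂ :=
  Complex.exp (2 * Real.pi * Complex.I * ((u : ℂ) / (Q : ℂ)))

private theorem B_Four_ex_add (Q : ℕ) (u v : ℤ) :
    B_Four_ex Q (u + v) = B_Four_ex Q u * B_Four_ex Q v := by
  unfold B_Four_ex
  rw [← Complex.exp_add]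
  congr 1
  push_cast
  ring

private theorem B_Four_ex_nat (Q i : ℕ) (u : ℤ) :
    B_Four_ex Q ((i : ℤ) * u) = B_Four_ex Q u ^ i := by
  unfold B_Four_ex
  rw [← Complex.exp_nat_mul]
  congr 1
  push_cast
  ring

private theorem B_Four_ex_zero (Q : ℕ) : B_Four_ex Q 0 = 1 := by
  simp [B_Four_ex]

private theorem B_Four_ex_re (Q : ℕ) (u : ℤ) :
    (B_Four_ex Q u).re = Real.cos (2 * Real.pi * ((u : ℝ) / Q)) := by
  unfold B_Four_ex
  have h1 : (2 * Real.pi * Complex.I * ((u : ℂ) / (Q : ℂ)) : ℂ) =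
      ((2 * Real.pi * ((u : ℝ) / Q) : ℝ) : ℂ) * Complex.I := by
    push_cast
    ring
  rw [h1, Complex.exp_ofReal_mul_I_re]

private theorem B_Four_orth {Q : ℕ} (u : ℤ) (hu : |u| < (Q : ℤ)) :
    ∑ i : Fin Q, B_Four_ex Q (((i : ℕ) : ℤ) * u) = if u = 0 then (Q : ℂ) else 0 := by
  have hQ0 : 0 < (Q : ℤ) := lt_of_le_of_lt (abs_nonneg u) hu
  have hQ1 : Q ≠ 0 := by
    intro h
    rw [h] at hQ0
    exact absurd hQ0 (by norm_num)
  have hQ : (Q : ℂ) ≠ 0 := Nat.cast_ne_zero.2 hQ1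
  rw [Fin.sum_univ_eq_sum_range (fun i => B_Four_ex Q ((i : ℤ) * u)) Q]
  simp only [B_Four_ex_nat]
  split_ifs with h
  · rw [h, B_Four_ex_zero]
    simp
  · have hne : B_Four_ex Q u ≠ 1 := by
      intro h1
      rw [B_Four_ex, Complex.exp_eq_one_iff] at h1
      obtain ⟨n, hn⟩ := h1
      have h2 : (u : ℂ) = n * Q := by
        have hpi : (2 * Real.pi * Complex.I : ℂ) ≠ 0 := Complex.two_pi_I_ne_zero
        have h3 : (2 * Real.pi * Complex.I : ℂ) * ((u : ℂ) / (Q : ℂ)) =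
            (2 * Real.pi * Complex.I : ℂ) * n := by
          rw [hn]
          ring
        have h4 := mul_left_cancel₀ hpi h3
        rw [div_eq_iff hQ] at h4
        exact h4
      have h5 : u = n * (Q : ℤ) := by exact_mod_cast h2
      have h6 : n ≠ 0 := by
        rintro rfl
        rw [zero_mul] at h5
        exact h h5
      rw [h5, abs_mul, abs_of_pos hQ0] at hu
      have h7 : 1 ≤ |n| := Int.one_le_abs h6
      nlinarith
    have hpow : B_Four_ex Q u ^ Q = 1 := by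
      rw [← B_Four_ex_nat, B_Four_ex, Complex.exp_eq_one_iff]
      refine ⟨u, ?_⟩
      push_cast
      field_simp
    rw [geom_sum_eq hne, hpow, sub_self, zero_div]

/-- The transform of the weight is nonnegative. -/
private theorem B_Four_c {n : ℕ} (d A : ℕ) (hA : 1 ≤ A) (x y : Vc n ℤ) (Q : ℕ) (i j : ℕ) :
    ∃ c : ℝ, 0 ≤ c ∧ ∑ a ∈ Box n d (2 * A), ((fw A a : ℝ) : ℂ) *
      B_Four_ex Q ((i : ℤ) * ev a x + (j : ℤ) * ev a y) = (c : ℂ) := by
  have h1 : ∀ s : Fin d → Fin (n + 1), ∃ c : ℝ, 0 ≤ c ∧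
      ∑ z ∈ Finset.Icc (-((2 * A : ℕ) : ℤ)) ((2 * A : ℕ) : ℤ),
      ((w1 A z : ℝ) : ℂ) * Complex.exp (2 * Real.pi * Complex.I *
        (((((i : ℝ) * ((∏ k, x (s k) : ℤ) : ℝ) + (j : ℝ) * ((∏ k, y (s k) : ℤ) : ℝ)) / Q) : ℝ)) *
          z) = (c : ℂ) := fun s => fej A hA _
  choose c hc0 hc using h1
  refine ⟨∏ s, c s, Finset.prod_nonneg fun s _ => hc0 s, ?_⟩
  rw [Complex.ofReal_prod, ← Finset.prod_congr rfl fun s _ => hc s, Finset.prod_univ_sum]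
  refine Finset.sum_congr rfl fun a _ => ?_
  rw [Finset.prod_mul_distrib, ← Complex.exp_sum]
  unfold fw B_Four_ex
  rw [Complex.ofReal_prod]
  congr 2
  have h2 : ((((i : ℤ) * ev a x + (j : ℤ) * ev a y : ℤ) : ℂ)) =
      ∑ s, ((i : ℂ) * ((∏ k, x (s k) : ℤ) : ℂ) + (j : ℂ) * ((∏ k, y (s k) : ℤ) : ℂ)) *
        ((a s : ℤ) : ℂ) := by
    unfold ev
    push_cast
    rw [Finset.mul_sum, Finset.mul_sum, ← Finset.sum_add_distrib]
    refine Finset.sum_congr rfl fun s _ => ?_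
    ring
  rw [h2, Finset.sum_div, Finset.mul_sum]
  refine Finset.sum_congr rfl fun s _ => ?_
  push_cast
  ring

theorem fourS {n : ℕ} (d A : ℕ) (hA : 1 ≤ A) (x y : Vc n ℤ) (Mx : ℕ) :
    ∃ (Q : ℕ) (ν : Fin Q → Fin Q → ℝ), 1 ≤ Q ∧ (∀ i j, 0 ≤ ν i j) ∧
      ∀ m m' : ℤ, |m| ≤ (Mx : ℤ) → |m'| ≤ (Mx : ℤ) →
        slB d A x y m m' = ∑ i : Fin Q, ∑ j : Fin Q, ν i j *
          Real.cos (2 * Real.pi * ((((i : ℕ) : ℝ) * m + ((j : ℕ) : ℝ) * m') / Q)) := by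
  obtain ⟨N0, hN0⟩ : ∃ N0 : ℕ, ∀ a ∈ Box n d (2 * A), |ev a x| ≤ (N0 : ℤ) ∧ |ev a y| ≤ (N0 : ℤ) := by
    refine ⟨∑ a ∈ Box n d (2 * A), ((ev a x).natAbs + (ev a y).natAbs), fun a ha => ?_⟩
    have h1 := Finset.single_le_sum
      (f := fun a : Ten n d ℤ => ((ev a x).natAbs + (ev a y).natAbs)) (fun _ _ => Nat.zero_le _) ha
    constructor
    · rw [Int.abs_eq_natAbs]
      exact_mod_cast (Nat.le_add_right _ _).trans h1
    · rw [Int.abs_eq_natAbs]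
      exact_mod_cast (Nat.le_add_left _ _).trans h1
  obtain ⟨Q, hQ⟩ : ∃ Q : ℕ, Q = Mx + N0 + 1 := ⟨_, rfl⟩
  have hQ1 : 1 ≤ Q := by omega
  have hQ0 : (Q : ℂ) ≠ 0 := Nat.cast_ne_zero.2 (by omega)
  choose c hc0 hc using fun (p : Fin Q × Fin Q) => B_Four_c d A hA x y Q (p.1 : ℕ) (p.2 : ℕ)
  refine ⟨Q, fun i j => c (i, j) / Q ^ 2, hQ1, fun i j => by
    have := hc0 (i, j)
    positivity, ?_⟩
  intro m m' hm hm'
  have hind : ∀ a ∈ Box n d (2 * A), ∀ (v u : ℤ), |v| ≤ (N0 : ℤ) → |u| ≤ (Mx : ℤ) →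
      (∑ i : Fin Q, B_Four_ex Q (((i : ℕ) : ℤ) * (v - u))) = if v = u then (Q : ℂ) else 0 := by
    intro a _ v u hv hu
    have h1 : |v - u| < (Q : ℤ) := by
      have h2 : |v - u| ≤ |v| + |u| := abs_sub _ _
      rw [hQ]
      push_cast
      linarith
    rw [B_Four_orth _ h1]
    by_cases h : v = u
    · rw [if_pos h, if_pos (sub_eq_zero.2 h)]
    · rw [if_neg h, if_neg (sub_ne_zero.2 h)]
  have hC : ((slB d A x y m m' : ℝ) : ℂ) = ∑ i : Fin Q, ∑ j : Fin Q,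
      ((c (i, j) / Q ^ 2 : ℝ) : ℂ) *
        B_Four_ex Q (-(((i : ℕ) : ℤ) * m + ((j : ℕ) : ℤ) * m')) := by
    have h1 : ((slB d A x y m m' : ℝ) : ℂ) = ∑ a ∈ Box n d (2 * A), ((fw A a : ℝ) : ℂ) *
        ((∑ i : Fin Q, B_Four_ex Q (((i : ℕ) : ℤ) * (ev a x - m))) *
          ∑ j : Fin Q, B_Four_ex Q (((j : ℕ) : ℤ) * (ev a y - m'))) / Q ^ 2 := by
      unfold slB
      rw [Complex.ofReal_sum, Finset.sum_filter]
      refine Finset.sum_congr rfl fun a ha => ?_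
      rw [hind a ha _ _ (hN0 a ha).1 hm, hind a ha _ _ (hN0 a ha).2 hm']
      by_cases h2 : ev a x = m
      · by_cases h3 : ev a y = m'
        · rw [if_pos ⟨h2, h3⟩, if_pos h2, if_pos h3]
          field_simp
        · rw [if_neg fun h => h3 h.2, if_neg h3, mul_zero, mul_zero, zero_div]
      · rw [if_neg fun h => h2 h.1, if_neg h2, zero_mul, mul_zero, zero_div]
    have h4 : ∀ i j : Fin Q, ((c (i, j) / Q ^ 2 : ℝ) : ℂ) *
        B_Four_ex Q (-(((i : ℕ) : ℤ) * m + ((j : ℕ) : ℤ) * m')) =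
        ∑ a ∈ Box n d (2 * A), ((fw A a : ℝ) : ℂ) *
          (B_Four_ex Q (((i : ℕ) : ℤ) * (ev a x - m)) *
            B_Four_ex Q (((j : ℕ) : ℤ) * (ev a y - m'))) / Q ^ 2 := by
      intro i j
      rw [Complex.ofReal_div, ← hc (i, j), Finset.sum_div, Finset.sum_mul]
      refine Finset.sum_congr rfl fun a _ => ?_
      rw [← B_Four_ex_add]
      have h5 : (((i : ℕ) : ℤ) * (ev a x - m) + ((j : ℕ) : ℤ) * (ev a y - m')) =
          (((i : ℕ) : ℤ) * ev a x + ((j : ℕ) : ℤ) * ev a y) +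
            (-(((i : ℕ) : ℤ) * m + ((j : ℕ) : ℤ) * m')) := by ring
      rw [h5, B_Four_ex_add Q (((i : ℕ) : ℤ) * ev a x + ((j : ℕ) : ℤ) * ev a y)]
      push_cast
      ring
    rw [h1]
    simp only [h4]
    have h6 : ∀ a : Ten n d ℤ, ((fw A a : ℝ) : ℂ) *
        ((∑ i : Fin Q, B_Four_ex Q (((i : ℕ) : ℤ) * (ev a x - m))) *
          ∑ j : Fin Q, B_Four_ex Q (((j : ℕ) : ℤ) * (ev a y - m'))) / Q ^ 2 =
        ∑ i : Fin Q, ∑ j : Fin Q, ((fw A a : ℝ) : ℂ) *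
          (B_Four_ex Q (((i : ℕ) : ℤ) * (ev a x - m)) *
            B_Four_ex Q (((j : ℕ) : ℤ) * (ev a y - m'))) / Q ^ 2 := by
      intro a
      rw [Finset.sum_mul_sum, Finset.mul_sum, Finset.sum_div]
      refine Finset.sum_congr rfl fun i _ => ?_
      rw [Finset.mul_sum, Finset.sum_div]
    rw [Finset.sum_congr rfl fun a _ => h6 a, Finset.sum_comm]
    refine Finset.sum_congr rfl fun i _ => ?_
    rw [Finset.sum_comm]
  have hR := congrArg Complex.re hC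
  rw [Complex.ofReal_re, Complex.re_sum] at hR
  rw [hR]
  refine Finset.sum_congr rfl fun i _ => ?_
  rw [Complex.re_sum]
  refine Finset.sum_congr rfl fun j _ => ?_
  rw [Complex.re_ofReal_mul, B_Four_ex_re]
  congr 1
  rw [← Real.cos_neg]
  congr 1
  push_cast
  ring

end Pool.Agent.Lib.MP_1ad228_ntF
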