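import Pool.Agent.Lib.MP_1ad228_ntF.Vals
import Pool.Agent.Lib.MP_219881_nt.GGfacts

/-!
JOB B_Near.  Integer tensors and short real tensors with the same prescribed values (first half of the proof of `near` in Near.lean, without rounding).

PROOF.  `D = Dd x y` divides `W`, hence `m` and `m'`. Integer tensor: with `lin v y = 1` the tensor `m' • tp (fun _ => v)` plus a multiple of the tensor of `valD`.
Real tensor: `j` as in `exists_Del` (`Del_pos`), `Δ = mn x y o j`, `|Δ| = Del o x y`, linear forms `p = (y_j e_o - y_o e_j)/Δ`, `r = (-x_j e_o + x_o e_j)/Δ`;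
`b = (m/x_o^(d-1)) • tp (p, e_o, ..., e_o) + (m'/y_o^(d-1)) • tp (r, e_o, ..., e_o)` (over `ℝ`, or over `ℚ` and cast). Entries: `k^2 |m| ≤ A x_o^d`, `|m|/x_o^(d-1) ≤ A x_o/k^2 ≤ A B/k^2`,
entries of `p`, `r` at most `B/Del`; the sum is at most `2 A B^2/(k^2 Del) ≤ 2A/k` (`B^2 ≤ k Del`).
-/

namespace Pool.Agent.Lib.MP_1ad228_ntF

open Classical

open Pool.Agent.Lib.MP_219881_nt (GG_pos GG_uni GG_le GG_good Del_pos exists_Del)

private theorem NearR_int {n e : ℕ} (x y : Vc n ℤ) (hx : Uni x) (hy : Uni y) (m m' : ℤ)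
    (h : (Dd x y : ℤ) ∣ m) (h' : (Dd x y : ℤ) ∣ m') :
    ∃ a : Ten n (e + 1) ℤ, ev a x = m ∧ ev a y = m' := by
  obtain ⟨v, hv⟩ := hy
  obtain ⟨aD, h0, h1⟩ := valD (e + 1) (by omega) x y hx
  obtain ⟨t, ht⟩ := dvd_sub h (h'.mul_right ((lin v x) ^ (e + 1)))
  refine ⟨m' • tp (fun _ => v) + t • aD, ?_, ?_⟩
  · rw [ev_add, ev_smul', ev_smul', ev_tp, h1, Finset.prod_const, Finset.card_univ,
      Fintype.card_fin]
    linear_combination -ht
  · rw [ev_add, ev_smul', ev_smul', ev_tp, h0, hv, Finset.prod_const_one]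
    ring

private theorem NearR_lin2 {n : ℕ} (o j : Fin (n + 1)) (c d Δ : ℝ) (z : Vc n ℝ) :
    lin (fun i : Fin (n + 1) => ((if i = o then c else 0) + (if i = j then d else 0)) / Δ) z
      = (c * z o + d * z j) / Δ := by
  unfold Pool.Agent.Lib.MP_219881_nt.lin
  have e1 : ∀ i : Fin (n + 1), ((if i = o then c else 0) + (if i = j then d else 0)) / Δ * z i
      = (if i = o then c * z i / Δ else 0) + (if i = j then d * z i / Δ else 0) := by
    intro i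
    split_ifs <;> ring
  rw [Finset.sum_congr rfl (fun i _ => e1 i), Finset.sum_add_distrib, Finset.sum_ite_eq',
    Finset.sum_ite_eq']
  simp only [Finset.mem_univ, if_true]
  ring

private theorem NearR_bd2 {n : ℕ} (o j : Fin (n + 1)) (hj : j ≠ o) (c d Δ G : ℝ) (hΔ : 0 < |Δ|)
    (hG : 0 ≤ G) (hc : |c| ≤ G) (hd : |d| ≤ G) (i : Fin (n + 1)) :
    |((if i = o then c else 0) + (if i = j then d else 0)) / Δ| ≤ G / |Δ| := by
  rw [abs_div]
  apply div_le_div_of_nonneg_right _ hΔ.le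
  by_cases h1 : i = o
  · have h2 : i ≠ j := by
      rw [h1]
      exact hj.symm
    rw [if_pos h1, if_neg h2, add_zero]
    exact hc
  · rw [if_neg h1, zero_add]
    by_cases h2 : i = j
    · rw [if_pos h2]
      exact hd
    · rw [if_neg h2, abs_zero]
      exact hG

private theorem NearR_single {n : ℕ} (o i : Fin (n + 1)) :
    |(Pi.single o 1 : Vc n ℝ) i| ≤ 1 := by
  rw [Pi.single_apply]
  split_ifs <;> simp

private theorem NearR_term {B k A e : ℕ} (hk : 1 ≤ k) {D : ℝ} (hD : 0 < D)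
    (hgD : (B : ℝ) ^ 2 ≤ k * D) {m x1 : ℤ} (hx1 : 0 < x1) (hxg : x1 ≤ (B : ℤ))
    (hm : (k : ℤ) ^ 2 * |m| ≤ A * x1 ^ (e + 1)) {P : ℝ} (hP0 : 0 ≤ P)
    (hP : P ≤ (B : ℝ) / D) : |(m : ℝ) / (x1 : ℝ) ^ e| * P ≤ A / k := by
  have hk0 : (0 : ℝ) < k := by exact_mod_cast hk
  have hx0 : (0 : ℝ) < x1 := by exact_mod_cast hx1
  have hxg' : (x1 : ℝ) ≤ (B : ℝ) := by exact_mod_cast hxg
  have hm' : (k : ℝ) ^ 2 * |(m : ℝ)| ≤ A * (x1 : ℝ) ^ (e + 1) := by exact_mod_cast hm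
  have hA0 : (0 : ℝ) ≤ A := Nat.cast_nonneg _
  have hg0 : (0 : ℝ) ≤ (B : ℝ) := by positivity
  have hxe : (0 : ℝ) < (x1 : ℝ) ^ e := pow_pos hx0 e
  have h1 : |(m : ℝ) / (x1 : ℝ) ^ e| ≤ A * (B : ℝ) / (k : ℝ) ^ 2 := by
    rw [abs_div, abs_of_pos hxe, div_le_div_iff₀ hxe (pow_pos hk0 2)]
    calc |(m : ℝ)| * (k : ℝ) ^ 2 = (k : ℝ) ^ 2 * |(m : ℝ)| := by ring
      _ ≤ A * (x1 : ℝ) ^ (e + 1) := hm'
      _ = A * x1 * (x1 : ℝ) ^ e := by ring
      _ ≤ A * (B : ℝ) * (x1 : ℝ) ^ e := by gcongr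
  have h2 : |(m : ℝ) / (x1 : ℝ) ^ e| * P ≤ A * (B : ℝ) / (k : ℝ) ^ 2 * ((B : ℝ) / D) :=
    mul_le_mul h1 hP hP0 (by positivity)
  refine h2.trans ?_
  rw [div_mul_div_comm, div_le_div_iff₀ (by positivity) hk0]
  calc (A : ℝ) * (B : ℝ) * (B : ℝ) * k = A * k * (B : ℝ) ^ 2 := by ring
    _ ≤ A * k * (k * D) := by gcongr
    _ = A * ((k : ℝ) ^ 2 * D) := by ring

/-- value of the tensor `(P, E, ..., E)` -/
private theorem NearR_val {n e : ℕ} (P E : Vc n ℝ) (z : Vc n ℝ) :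
    ev (tp (Fin.cons P (fun _ => E) : Fin (e + 1) → Vc n ℝ)) z = lin P z * lin E z ^ e := by
  rw [ev_tp, Fin.prod_univ_succ, Fin.cons_zero]
  simp only [Fin.cons_succ, Finset.prod_const, Finset.card_univ, Fintype.card_fin]

/-- entries of the tensor `(P, E, ..., E)` -/
private theorem NearR_ent {n e : ℕ} (P E : Vc n ℝ) (G : ℝ) (hP : ∀ i, |P i| ≤ G)
    (hE : ∀ i, |E i| ≤ 1) (s : Fin (e + 1) → Fin (n + 1)) :
    |tp (Fin.cons P (fun _ => E) : Fin (e + 1) → Vc n ℝ) s| ≤ G := by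
  have e1 : tp (Fin.cons P (fun _ => E) : Fin (e + 1) → Vc n ℝ) s
      = P (s 0) * ∏ k : Fin e, E (s k.succ) := by
    unfold tp
    rw [Fin.prod_univ_succ, Fin.cons_zero]
    simp only [Fin.cons_succ]
  have h2 : |∏ k : Fin e, E (s k.succ)| ≤ 1 := by
    rw [Finset.abs_prod]
    exact Finset.prod_le_one (fun k _ => abs_nonneg _) fun k _ => hE _
  rw [e1, abs_mul]
  calc |P (s 0)| * |∏ k : Fin e, E (s k.succ)| ≤ |P (s 0)| * 1 :=
        mul_le_mul_of_nonneg_left h2 (abs_nonneg _)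
    _ ≤ G := by rw [mul_one]; exact hP _

theorem nearR {n : ℕ} (d : ℕ) (hd : 1 ≤ d) (B H q : ℕ) (o : Fin (n + 1)) (k A W : ℕ) (hB : 1 ≤ B)
    (hk : 1 ≤ k) (x y : Vc n ℤ) (hx : x ∈ GG B H q o)
    (hy : y ∈ GG B H q o) (hxy : x ≠ y) (hD : Dd x y ∣ W) (hΔ : B ^ 2 ≤ k * Del o x y)
    (m m' : ℤ) (hm : m ∈ MS d W (k ^ 2) A o x) (hm' : m' ∈ MS d W (k ^ 2) A o y) :
    ∃ (a0 : Ten n d ℤ) (b : Ten n d ℝ), ev a0 x = m ∧ ev a0 y = m' ∧
      ev b (cv ℝ x) = (m : ℝ) ∧ ev b (cv ℝ y) = (m' : ℝ) ∧ ∀ s, |b s| ≤ 2 * A / k := by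
  obtain ⟨e, rfl⟩ : ∃ e, d = e + 1 := ⟨d - 1, by omega⟩
  have hDel := Del_pos hB hx hy hxy
  obtain ⟨j, hj1, hj0, hjD⟩ := exists_Del o x y hDel
  have hxU := GG_uni hx
  have hyU := GG_uni hy
  have hx1 := GG_pos hB hx
  have hy1 := GG_pos hB hy
  unfold MS at hm hm'
  rw [Finset.mem_filter] at hm hm'
  obtain ⟨-, hmW, hmK⟩ := hm
  obtain ⟨-, hmW', hmK'⟩ := hm'
  have hDW : (Dd x y : ℤ) ∣ (W : ℤ) := by exact_mod_cast hD
  obtain ⟨a, hax, hay⟩ := NearR_int (e := e) x y hxU hyU m m' (hDW.trans hmW) (hDW.trans hmW')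
  have hk0 : (0 : ℝ) < k := by exact_mod_cast hk
  have hDel0 : (0 : ℝ) < (Del o x y : ℝ) := by exact_mod_cast hDel
  set Δ : ℝ := ((mn x y o j : ℤ) : ℝ) with hΔdef
  have hΔabs : |Δ| = (Del o x y : ℝ) := by
    rw [hΔdef, ← Int.cast_abs, hjD, Int.cast_natCast]
  have hΔ0 : Δ ≠ 0 := by
    intro h
    rw [h, abs_zero] at hΔabs
    linarith
  have hΔe : Δ = (x o : ℝ) * y j - x j * y o := by
    rw [hΔdef]
    unfold Pool.Agent.Lib.MP_219881_nt.mn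
    push_cast
    ring
  have hgD : (B : ℝ) ^ 2 ≤ k * (Del o x y : ℝ) := by exact_mod_cast hΔ
  have hxb : ∀ i, |(x i : ℝ)| ≤ (B : ℝ) := by
    intro i
    have h1 := GG_le hx i
    rw [← Int.cast_abs]
    exact_mod_cast h1
  have hyb : ∀ i, |(y i : ℝ)| ≤ (B : ℝ) := by
    intro i
    have h1 := GG_le hy i
    rw [← Int.cast_abs]
    exact_mod_cast h1
  set P : Vc n ℝ := fun i : Fin (n + 1) =>
    ((if i = o then (y j : ℝ) else 0) + (if i = j then -(y o : ℝ) else 0)) / Δ with hP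
  set R : Vc n ℝ := fun i : Fin (n + 1) =>
    ((if i = o then -(x j : ℝ) else 0) + (if i = j then (x o : ℝ) else 0)) / Δ with hR
  have hPx : lin P (cv ℝ x) = 1 := by
    rw [hP, NearR_lin2 o j, div_eq_one_iff_eq hΔ0, hΔe]
    simp only [cv]
    ring
  have hPy : lin P (cv ℝ y) = 0 := by
    rw [hP, NearR_lin2 o j]
    simp only [cv]
    rw [div_eq_zero_iff]
    left
    ring
  have hRx : lin R (cv ℝ x) = 0 := by
    rw [hR, NearR_lin2 o j]
    simp only [cv]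
    rw [div_eq_zero_iff]
    left
    ring
  have hRy : lin R (cv ℝ y) = 1 := by
    rw [hR, NearR_lin2 o j, div_eq_one_iff_eq hΔ0, hΔe]
    simp only [cv]
    ring
  have hG0 : (0 : ℝ) ≤ (B : ℝ) := by positivity
  have hPb : ∀ i, |P i| ≤ (B : ℝ) / (Del o x y : ℝ) := by
    intro i
    rw [← hΔabs]
    exact NearR_bd2 o j hj1 _ _ Δ _ (abs_pos.mpr hΔ0) hG0 (hyb j) (by rw [abs_neg]; exact hyb o) i
  have hRb : ∀ i, |R i| ≤ (B : ℝ) / (Del o x y : ℝ) := by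
    intro i
    rw [← hΔabs]
    exact NearR_bd2 o j hj1 _ _ Δ _ (abs_pos.mpr hΔ0) hG0 (by rw [abs_neg]; exact hxb j) (hxb o) i
  set E : Vc n ℝ := Pi.single o 1 with hE
  have hEl : ∀ z : Vc n ℤ, lin E (cv ℝ z) = (z o : ℝ) := by
    intro z
    rw [hE, lin_single]
    rfl
  have hEE : ∀ i, |E i| ≤ 1 := fun i => NearR_single o i
  set b : Ten n (e + 1) ℝ := ((m : ℝ) / (x o : ℝ) ^ e) •
      tp (Fin.cons P (fun _ => E) : Fin (e + 1) → Vc n ℝ) + ((m' : ℝ) / (y o : ℝ) ^ e) •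
      tp (Fin.cons R (fun _ => E) : Fin (e + 1) → Vc n ℝ) with hb
  have hx1q : (x o : ℝ) ^ e ≠ 0 := pow_ne_zero _ (by exact_mod_cast hx1.ne')
  have hy1q : (y o : ℝ) ^ e ≠ 0 := pow_ne_zero _ (by exact_mod_cast hy1.ne')
  have hbx : ev b (cv ℝ x) = (m : ℝ) := by
    rw [hb, ev_add, ev_smul', ev_smul', NearR_val, NearR_val, hPx, hRx, hEl, one_mul, zero_mul,
      mul_zero, add_zero, div_mul_cancel₀ _ hx1q]
  have hby : ev b (cv ℝ y) = (m' : ℝ) := by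
    rw [hb, ev_add, ev_smul', ev_smul', NearR_val, NearR_val, hPy, hRy, hEl, one_mul, zero_mul,
      mul_zero, zero_add, div_mul_cancel₀ _ hy1q]
  have hxg : x o ≤ (B : ℤ) := (le_abs_self _).trans (GG_le hx o)
  have hyg : y o ≤ (B : ℤ) := (le_abs_self _).trans (GG_le hy o)
  have hmK1 : (k : ℤ) ^ 2 * |m| ≤ A * (x o) ^ (e + 1) := by
    have h1 := hmK
    push_cast at h1
    exact h1
  have hmK2 : (k : ℤ) ^ 2 * |m'| ≤ A * (y o) ^ (e + 1) := by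
    have h1 := hmK'
    push_cast at h1
    exact h1
  have hbb : ∀ s, |b s| ≤ 2 * (A : ℝ) / k := by
    intro s
    have e1 : b s = ((m : ℝ) / (x o : ℝ) ^ e) *
          tp (Fin.cons P (fun _ => E) : Fin (e + 1) → Vc n ℝ) s
        + ((m' : ℝ) / (y o : ℝ) ^ e) *
          tp (Fin.cons R (fun _ => E) : Fin (e + 1) → Vc n ℝ) s := rfl
    have t1 := NearR_ent (e := e) P E _ hPb hEE s
    have t2 := NearR_ent (e := e) R E _ hRb hEE s
    have u1 := NearR_term (A := A) hk hDel0 hgD hx1 hxg hmK1 (abs_nonneg _) t1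
    have u2 := NearR_term (A := A) hk hDel0 hgD hy1 hyg hmK2 (abs_nonneg _) t2
    rw [e1]
    refine (abs_add_le _ _).trans ?_
    rw [abs_mul, abs_mul ((m' : ℝ) / (y o : ℝ) ^ e)]
    have e2 : 2 * (A : ℝ) / k = A / k + A / k := by ring
    rw [e2]
    exact add_le_add u1 u2
  exact ⟨a, b, hax, hay, hbx, hby, fun s => by
    have h := hbb s
    exact h⟩

end Pool.Agent.Lib.MP_1ad228_ntF
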