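import Pool.Agent.Lib.MP_1ad228_ntF.Basic

/-!
JOB Vals.  Which values are taken.  (Model: Lib/MP_219881_nt/Vals.lean, val1 and valD)
`val1`: with `lin u x = 1` the tensor `m • tp (fun _ => u)`.
`valD` (`d ≥ 1`): with the `c` of `Pool.Agent.Lib.MP_219881_nt.Dd_bezout` let
`l k = ∑ j, c k j * y j - ∑ i, c i k * y i`; then `lin l z = ∑ i, ∑ j, c i j * (z i * y j - z j * y i)`, so
`lin l y = 0`, `lin l x = Dd x y`; with `lin u x = 1` the tensor `tp (fun k => if k = 0 then l else u)`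
(slot 0 = `⟨0, _⟩`) works (`ev_tp`).
-/

namespace Pool.Agent.Lib.MP_1ad228_ntF

open Classical

theorem val1 {n : ℕ} (d : ℕ) (x : Vc n ℤ) (hx : Uni x) (m : ℤ) :
    ∃ a : Ten n d ℤ, ev a x = m := by
  obtain ⟨u, hu⟩ := hx
  refine ⟨m • tp (fun _ => u), ?_⟩
  rw [ev_smul', ev_tp]
  simp only [hu, Finset.prod_const_one, mul_one]

private theorem Vals_key {n : ℕ} (c : Fin (n + 1) → Fin (n + 1) → ℤ) (y z : Vc n ℤ) :
    lin (fun k => ∑ j, c k j * y j - ∑ i, c i k * y i) z =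
      ∑ i, ∑ j, c i j * (z i * y j - z j * y i) := by
  unfold Pool.Agent.Lib.MP_219881_nt.lin
  have e1 : ∑ i, (∑ j, c i j * y j - ∑ j, c j i * y j) * z i =
      ∑ i, ∑ j, c i j * (z i * y j) - ∑ i, ∑ j, c j i * (z i * y j) := by
    rw [← Finset.sum_sub_distrib]
    refine Finset.sum_congr rfl fun i _ => ?_
    simp only [sub_mul, Finset.sum_mul]
    congr 1
    · exact Finset.sum_congr rfl fun j _ => by ring
    · exact Finset.sum_congr rfl fun j _ => by ring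
  rw [e1]
  have e2 : ∑ i, ∑ j, c j i * (z i * y j) = ∑ i, ∑ j, c i j * (z j * y i) := by
    rw [Finset.sum_comm]
  rw [e2, ← Finset.sum_sub_distrib]
  refine Finset.sum_congr rfl fun i _ => ?_
  rw [← Finset.sum_sub_distrib]
  exact Finset.sum_congr rfl fun j _ => by ring

theorem valD {n : ℕ} (d : ℕ) (hd : 1 ≤ d) (x y : Vc n ℤ) (hx : Uni x) :
    ∃ a : Ten n d ℤ, ev a y = 0 ∧ ev a x = (Dd x y : ℤ) := by
  obtain ⟨u, hu⟩ := hx
  obtain ⟨c, hc⟩ := Pool.Agent.Lib.MP_219881_nt.Dd_bezout x y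
  obtain ⟨e, rfl⟩ : ∃ e, d = e + 1 := ⟨d - 1, by omega⟩
  refine ⟨tp (Fin.cons (fun k => ∑ j, c k j * y j - ∑ i, c i k * y i) (fun _ => u)), ?_, ?_⟩
  · rw [ev_tp, Fin.prod_univ_succ, Fin.cons_zero, Vals_key]
    have : ∑ i, ∑ j, c i j * (y i * y j - y j * y i) = 0 := by
      refine Finset.sum_eq_zero fun i _ => Finset.sum_eq_zero fun j _ => ?_
      ring
    rw [this, zero_mul]
  · rw [ev_tp, Fin.prod_univ_succ, Fin.cons_zero, Vals_key]
    simp only [Fin.cons_succ, hu, Finset.prod_const_one, mul_one]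
    rw [← hc]
    rfl

end Pool.Agent.Lib.MP_1ad228_ntF
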