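import Pool.Agent.Lib.MP_1ad228_ntF.Basic

/-!
JOB Trans.  Disjoint translates (pigeonhole).  (Model: Lib/MP_219881_nt/Trans.lean)
-/

namespace Pool.Agent.Lib.MP_1ad228_ntF

open Classical

theorem cc_le_CC (n : ℕ) {r : ℕ} (d : Fin r → ℕ) (i : Fin r) : cc n (d i) ≤ CC n d := by
  unfold CC
  exact Finset.single_le_sum (f := fun i => cc n (d i)) (fun _ _ => Nat.zero_le _)
    (Finset.mem_univ i)

/-- The sum of two tensors of the box. -/
theorem trans_add_mem {n d A : ℕ} {a c : Ten n d ℤ} (ha : a ∈ Box n d A)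
    (hc : c ∈ Box n d A) : a + c ∈ Box n d (2 * A) := by
  rw [mem_Box] at ha hc ⊢
  intro s
  have h1 := ha s
  have h2 := hc s
  have h3 : (a + c) s = a s + c s := rfl
  rw [h3]
  push_cast
  exact (abs_add_le _ _).trans (by linarith)

theorem trans_card (n d A : ℕ) : (Box n d (2 * A)).card = (4 * A + 1) ^ (n + 1) ^ d := by
  rw [card_Box]
  congr 1
  ring

theorem trans1 {n : ℕ} (d : ℕ) (S : Finset ℤ) (x : Vc n ℤ) (A : ℕ)
    (h : ∀ v ∈ S, ∃ a ∈ Box n d A, ev a x = v) :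
    S.card * n1 d x A ≤ (4 * A + 1) ^ (n + 1) ^ d := by
  choose! t ht using h
  rw [← trans_card n d A, n1, ← Finset.card_product]
  apply Finset.card_le_card_of_injOn (fun p : ℤ × Ten n d ℤ => t p.1 + p.2)
  · rintro ⟨v, c⟩ hp
    rw [Finset.mem_coe, Finset.mem_product, Finset.mem_filter] at hp
    exact Finset.mem_coe.mpr (trans_add_mem (ht v hp.1).1 hp.2.1)
  · rintro ⟨v, c⟩ hp ⟨v', c'⟩ hp' heq
    rw [Finset.mem_coe, Finset.mem_product, Finset.mem_filter] at hp hp'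
    have h1 : t v + c = t v' + c' := heq
    have h2 : ev (t v + c) x = v := by
      rw [ev_add, (ht v hp.1).2, hp.2.2, add_zero]
    have h3 : ev (t v' + c') x = v' := by
      rw [ev_add, (ht v' hp'.1).2, hp'.2.2, add_zero]
    have h4 : v = v' := by rw [← h2, ← h3, h1]
    subst h4
    have h5 : c = c' := add_left_cancel h1
    rw [h5]

theorem trans2 {n : ℕ} (d : ℕ) (S : Finset (ℤ × ℤ)) (x y : Vc n ℤ) (A : ℕ)
    (h : ∀ v ∈ S, ∃ a ∈ Box n d A, ev a x = v.1 ∧ ev a y = v.2) :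
    S.card * n2 d x y A ≤ (4 * A + 1) ^ (n + 1) ^ d := by
  choose! t ht using h
  rw [← trans_card n d A, n2, ← Finset.card_product]
  apply Finset.card_le_card_of_injOn (fun p : (ℤ × ℤ) × Ten n d ℤ => t p.1 + p.2)
  · rintro ⟨v, c⟩ hp
    rw [Finset.mem_coe, Finset.mem_product, Finset.mem_filter] at hp
    exact Finset.mem_coe.mpr (trans_add_mem (ht v hp.1).1 hp.2.1)
  · rintro ⟨v, c⟩ hp ⟨v', c'⟩ hp' heq
    rw [Finset.mem_coe, Finset.mem_product, Finset.mem_filter] at hp hp'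
    have h1 : t v + c = t v' + c' := heq
    have h2 : ev (t v + c) x = v.1 := by
      rw [ev_add, (ht v hp.1).2.1, hp.2.2.1, add_zero]
    have h3 : ev (t v' + c') x = v'.1 := by
      rw [ev_add, (ht v' hp'.1).2.1, hp'.2.2.1, add_zero]
    have h6 : ev (t v + c) y = v.2 := by
      rw [ev_add, (ht v hp.1).2.2, hp.2.2.2, add_zero]
    have h7 : ev (t v' + c') y = v'.2 := by
      rw [ev_add, (ht v' hp'.1).2.2, hp'.2.2.2, add_zero]
    have h4 : v = v' := by
      apply Prod.ext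
      · rw [← h2, ← h3, h1]
      · rw [← h6, ← h7, h1]
    subst h4
    have h5 : c = c' := add_left_cancel h1
    rw [h5]

end Pool.Agent.Lib.MP_1ad228_ntF
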