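import Pool.Agent.Lib.MP_1ad228_ntF.EEle
import Pool.Agent.Lib.MP_1ad228_ntF.Near
import Pool.Agent.Lib.MP_1ad228_ntF.Trans

/-!
JOB EEgood.  Good pairs contribute little.
(Model: Lib/MP_219881_nt/EEgood.lean)

`prod_close`: if `0 ≤ a i ≤ M i`, `0 ≤ b i ≤ M i` and `|a i - b i| ≤ ε * M i` for all `i ∈ s` then
`|∏ a - ∏ b| ≤ card s * ε * ∏ M` (induction on the finset; `a c - b c' = (a - b) c + b (c - c')`).

PROOF of EEgood.  For every `i`: `V = (n+1)^(d i)`, `ν = n2 (d i) x y A`, `S = sl (d i) A x y 0 0`, `M i = 6^V ν`. If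
`k ≤ 2`: `EEle` gives `|EE| ≤ 2 * 4^VV * ∏ n2 ≤ (5r/k) * 6^VV * ∏ n2` (`r ≥ 1`, `5r/k ≥ 5/2`).
If `k ≥ 3`: for all `m ∈ MS (d i) W (k^2) A o x`, `m' ∈ MS (d i) W (k^2) A o y`, `near` (with
`cc_le_CC`) gives `a0` with these values and `k * tn a0 ≤ 3A`, so `tn a0 ≤ A` and `tn a0/(2A) ≤ 3/(2k)`; by
`sl_close` `|sl (d i) A x y m m' - S| ≤ (3/(2k)) * M i`. Since `x_o, y_o > 0`, `0 ∈ MS (d i) W (k^2) A o x` and
`0 ∈ MS (d i) W (k^2) A o y`: so the same holds for `sl (d i) A x y m 0`, `sl (d i) A x y 0 m'`, and the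
cardinalities are positive, the averages `TT, TS, UU` are true averages: `|TT - S|, |TS - S|, |UU - S| ≤ (3/(2k)) M i`,
and all of `S, TT, TS, UU` are in `[0, M i]` (`sl_nonneg`, `sl_le`, `TT_mem` etc., `4^V ≤ 6^V`). By `prod_close` with
`ε = 3/(2k)`: `|∏ S - ∏ TT| ≤ r ε ∏ M`, `|∏ UU - ∏ TS| ≤ |∏ UU - ∏ S| + |∏ S - ∏ TS| ≤ 2 r ε ∏ M`; so
`|EE| ≤ 3 r ε ∏ M = (9 r/(2k)) ∏ M ≤ (5 r/k) ∏ M`, `∏ M = 6^VV ∏ n2`.
-/

namespace Pool.Agent.Lib.MP_1ad228_ntF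

open Classical

private theorem EEgood_avg {ι : Type*} (s : Finset ι) (f : ι → ℝ) (S δ : ℝ) (hs : s.Nonempty)
    (h : ∀ m ∈ s, |f m - S| ≤ δ) : |(1 / (s.card : ℝ)) * ∑ m ∈ s, f m - S| ≤ δ := by
  have hc : (0 : ℝ) < (s.card : ℝ) := by exact_mod_cast hs.card_pos
  have h1 : (1 / (s.card : ℝ)) * ∑ m ∈ s, f m - S
      = (1 / (s.card : ℝ)) * ∑ m ∈ s, (f m - S) := by
    rw [Finset.sum_sub_distrib, Finset.sum_const, nsmul_eq_mul]
    field_simp
  rw [h1, abs_mul, abs_of_pos (one_div_pos.mpr hc)]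
  have h2 : |∑ m ∈ s, (f m - S)| ≤ (s.card : ℝ) * δ := by
    refine (Finset.abs_sum_le_sum_abs _ _).trans ?_
    calc ∑ m ∈ s, |f m - S| ≤ ∑ _m ∈ s, δ := Finset.sum_le_sum h
      _ = (s.card : ℝ) * δ := by rw [Finset.sum_const, nsmul_eq_mul]
  calc 1 / (s.card : ℝ) * |∑ m ∈ s, (f m - S)| ≤ 1 / (s.card : ℝ) * ((s.card : ℝ) * δ) := by
        gcongr
    _ = δ := by field_simp

private theorem EEgood_zero_mem {n d W K A : ℕ} {o : Fin (n + 1)} {x : Vc n ℤ} (h : 0 < x o) :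
    (0 : ℤ) ∈ MS d W K A o x := by
  have h0 : (0 : ℤ) ≤ (A : ℤ) * (x o) ^ d := by positivity
  simp only [MS, Finset.mem_filter, Finset.mem_Icc, dvd_zero, abs_zero, mul_zero, true_and]
  exact ⟨⟨by linarith, h0⟩, h0⟩

theorem prod_close {ι : Type*} (s : Finset ι) (a b M : ι → ℝ) (ε : ℝ) (hε : 0 ≤ ε)
    (ha : ∀ i ∈ s, 0 ≤ a i ∧ a i ≤ M i) (hb : ∀ i ∈ s, 0 ≤ b i ∧ b i ≤ M i)
    (h : ∀ i ∈ s, |a i - b i| ≤ ε * M i) :
    |∏ i ∈ s, a i - ∏ i ∈ s, b i| ≤ s.card * ε * ∏ i ∈ s, M i := by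
  induction s using Finset.induction_on with
  | empty => simp
  | insert i s hi ih =>
    have ih' := ih (fun j hj => ha j (Finset.mem_insert_of_mem hj))
      (fun j hj => hb j (Finset.mem_insert_of_mem hj)) (fun j hj => h j (Finset.mem_insert_of_mem hj))
    rw [Finset.prod_insert hi, Finset.prod_insert hi, Finset.prod_insert hi,
      Finset.card_insert_of_notMem hi]
    have hai := ha i (Finset.mem_insert_self i s)
    have hbi := hb i (Finset.mem_insert_self i s)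
    have hi' := h i (Finset.mem_insert_self i s)
    have hM : 0 ≤ M i := hai.1.trans hai.2
    have hP0 : 0 ≤ ∏ j ∈ s, a j := Finset.prod_nonneg fun j hj => (ha j (Finset.mem_insert_of_mem hj)).1
    have hP1 : ∏ j ∈ s, a j ≤ ∏ j ∈ s, M j :=
      Finset.prod_le_prod (fun j hj => (ha j (Finset.mem_insert_of_mem hj)).1)
        fun j hj => (ha j (Finset.mem_insert_of_mem hj)).2
    have e : a i * ∏ j ∈ s, a j - b i * ∏ j ∈ s, b j =
        (a i - b i) * ∏ j ∈ s, a j + b i * (∏ j ∈ s, a j - ∏ j ∈ s, b j) := by ring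
    rw [e]
    refine (abs_add_le _ _).trans ?_
    rw [abs_mul, abs_mul, abs_of_nonneg hP0, abs_of_nonneg hbi.1]
    have h1 : |a i - b i| * ∏ j ∈ s, a j ≤ (ε * M i) * ∏ j ∈ s, M j :=
      mul_le_mul hi' hP1 hP0 (mul_nonneg hε hM)
    have h2 : b i * |∏ j ∈ s, a j - ∏ j ∈ s, b j| ≤ M i * (s.card * ε * ∏ j ∈ s, M j) :=
      mul_le_mul hbi.2 ih' (abs_nonneg _) hM
    refine (add_le_add h1 h2).trans (le_of_eq ?_)
    push_cast
    ring

theorem EEgood {n r : ℕ} (hr : 1 ≤ r) (d : Fin r → ℕ) (hd : ∀ i, 2 ≤ d i) (B H q : ℕ)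
    (o : Fin (n + 1)) (k A W : ℕ) (hB : 1 ≤ B) (hk : 1 ≤ k) (hA1 : 1 ≤ A)
    (hA : 8 * CC n d * H ^ 2 * k ≤ A) (x y : Vc n ℤ) (hx : x ∈ GG B H q o)
    (hy : y ∈ GG B H q o) (hxy : x ≠ y) (hD : Dd x y ∣ W) (hΔ : B ^ 2 ≤ k * Del o x y) :
    |EE d o W (k ^ 2) A x y| ≤ 5 * r / (k : ℝ) * 6 ^ VV n d * ∏ i, (n2 (d i) x y A : ℝ) := by
  have hk0 : (0 : ℝ) < (k : ℝ) := by exact_mod_cast hk
  have hr1 : (1 : ℝ) ≤ r := by exact_mod_cast hr
  have hN : (0 : ℝ) ≤ ∏ i, (n2 (d i) x y A : ℝ) := Finset.prod_nonneg fun i _ => Nat.cast_nonneg _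
  by_cases hk2 : k ≤ 2
  · refine (EEle d o W (k ^ 2) A x y).trans ?_
    have hk2' : (k : ℝ) ≤ 2 := by exact_mod_cast hk2
    have h5 : (2 : ℝ) ≤ 5 * r / (k : ℝ) := by
      rw [le_div_iff₀ hk0]
      linarith
    have h6 : (4 : ℝ) ^ VV n d ≤ 6 ^ VV n d :=
      pow_le_pow_left₀ (by norm_num) (by norm_num) _
    apply mul_le_mul_of_nonneg_right _ hN
    exact mul_le_mul h5 h6 (by positivity) (by positivity)
  · have hk3 : 3 ≤ k := by omega
    obtain ⟨M, hM⟩ : ∃ M : Fin r → ℝ, ∀ i, M i = 6 ^ (n + 1) ^ (d i) * (n2 (d i) x y A : ℝ) :=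
      ⟨fun i => 6 ^ (n + 1) ^ (d i) * (n2 (d i) x y A : ℝ), fun i => rfl⟩
    obtain ⟨ε, hε⟩ : ∃ ε : ℝ, ε = 3 / (2 * (k : ℝ)) := ⟨_, rfl⟩
    have hε0 : 0 ≤ ε := by rw [hε]; positivity
    have hx1 := Pool.Agent.Lib.MP_219881_nt.GG_pos hB hx
    have hy1 := Pool.Agent.Lib.MP_219881_nt.GG_pos hB hy
    have hn : ∀ i, (0 : ℝ) ≤ (n2 (d i) x y A : ℝ) := fun i => Nat.cast_nonneg _
    have key : ∀ i, ∀ m ∈ MS (d i) W (k ^ 2) A o x, ∀ m' ∈ MS (d i) W (k ^ 2) A o y,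
        |sl (d i) A x y m m' - sl (d i) A x y 0 0| ≤ ε * M i := by
      intro i m hm m' hm'
      have hAi : 8 * cc n (d i) * H ^ 2 * k ≤ A := by
        refine le_trans ?_ hA
        apply Nat.mul_le_mul_right
        apply Nat.mul_le_mul_right
        exact Nat.mul_le_mul_left _ (cc_le_CC n d i)
      obtain ⟨a0, h1, h2, h3⟩ := near (d i) (hd i) B H q o k A W hB hk hAi x y hx hy hxy hD hΔ m m' hm hm'
      have h4 : tn a0 ≤ A := by
        have : 3 * tn a0 ≤ k * tn a0 := Nat.mul_le_mul_right _ hk3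
        omega
      have h5 := sl_close (d i) A hA1 x y a0 h4
      rw [h1, h2] at h5
      refine h5.trans ?_
      rw [hε, hM]
      have hAr : (0 : ℝ) < (A : ℝ) := by exact_mod_cast hA1
      have h6 : (tn a0 : ℝ) / (2 * (A : ℝ)) ≤ 3 / (2 * (k : ℝ)) := by
        rw [div_le_div_iff₀ (by positivity) (by positivity)]
        have h7 : (k : ℝ) * (tn a0 : ℝ) ≤ 3 * (A : ℝ) := by exact_mod_cast h3
        nlinarith
      exact mul_le_mul_of_nonneg_right h6 (mul_nonneg (by positivity) (hn i))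
    have hC : ∀ i m m', sl (d i) A x y m m' ≤ M i := by
      intro i m m'
      refine (sl_le (d i) A x y m m').trans ?_
      rw [hM]
      exact mul_le_mul_of_nonneg_right (pow_le_pow_left₀ (by norm_num) (by norm_num) _) (hn i)
    have z1 : ∀ i, (0 : ℤ) ∈ MS (d i) W (k ^ 2) A o x := fun i => EEgood_zero_mem hx1
    have z2 : ∀ i, (0 : ℤ) ∈ MS (d i) W (k ^ 2) A o y := fun i => EEgood_zero_mem hy1
    have hS : ∀ i ∈ Finset.univ, 0 ≤ sl (d i) A x y 0 0 ∧ sl (d i) A x y 0 0 ≤ M i :=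
      fun i _ => ⟨sl_nonneg (d i) A x y 0 0, hC i 0 0⟩
    have hT := fun (i : Fin r) (_ : i ∈ Finset.univ) => TT_mem (d i) o W (k ^ 2) A x y (M i) (hC i)
    have hT' := fun (i : Fin r) (_ : i ∈ Finset.univ) => TS_mem (d i) o W (k ^ 2) A x y (M i) (hC i)
    have hU := fun (i : Fin r) (_ : i ∈ Finset.univ) => UU_mem (d i) o W (k ^ 2) A x y (M i) (hC i)
    have g1 := prod_close Finset.univ (fun i => sl (d i) A x y 0 0)
      (fun i => TT (d i) o W (k ^ 2) A x y) M ε hε0 hS hT (fun i _ => by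
        rw [abs_sub_comm]
        exact EEgood_avg _ _ _ _ ⟨0, z1 i⟩ fun m hm => key i m hm 0 (z2 i))
    have g2 := prod_close Finset.univ (fun i => sl (d i) A x y 0 0)
      (fun i => TS (d i) o W (k ^ 2) A x y) M ε hε0 hS hT' (fun i _ => by
        rw [abs_sub_comm]
        exact EEgood_avg _ _ _ _ ⟨0, z2 i⟩ fun m' hm' => key i 0 (z1 i) m' hm')
    have g3 := prod_close Finset.univ (fun i => UU (d i) o W (k ^ 2) A x y)
      (fun i => sl (d i) A x y 0 0) M ε hε0 hU hS (fun i _ => by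
        have hU0 : UU (d i) o W (k ^ 2) A x y
            = (1 / ((MS (d i) W (k ^ 2) A o x).card : ℝ)) * ∑ m ∈ MS (d i) W (k ^ 2) A o x,
              ((1 / ((MS (d i) W (k ^ 2) A o y).card : ℝ)) *
                ∑ m' ∈ MS (d i) W (k ^ 2) A o y, sl (d i) A x y m m') := by
          unfold UU
          rw [← Finset.mul_sum, mul_assoc]
        rw [hU0]
        exact EEgood_avg _ _ _ _ ⟨0, z1 i⟩ fun m hm =>
          EEgood_avg _ _ _ _ ⟨0, z2 i⟩ fun m' hm' => key i m hm m' hm')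
    have hcard : ((Finset.univ : Finset (Fin r)).card : ℝ) = r := by
      rw [Finset.card_univ, Fintype.card_fin]
    rw [hcard] at g1 g2 g3
    have hP : ∏ i, M i = 6 ^ VV n d * ∏ i, (n2 (d i) x y A : ℝ) := by
      have e : ∏ i, M i = ∏ i, ((6 : ℝ) ^ (n + 1) ^ (d i) * (n2 (d i) x y A : ℝ)) :=
        Finset.prod_congr rfl fun i _ => hM i
      rw [e, Finset.prod_mul_distrib, Finset.prod_pow_eq_pow_sum]
      rfl
    have hP0 : 0 ≤ ∏ i, M i := by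
      rw [hP]
      positivity
    have hEE : |EE d o W (k ^ 2) A x y| ≤ 3 * (r * ε * ∏ i, M i) := by
      unfold EE
      have e : ∏ i, sl (d i) A x y 0 0 - ∏ i, TT (d i) o W (k ^ 2) A x y
          - ∏ i, TS (d i) o W (k ^ 2) A x y + ∏ i, UU (d i) o W (k ^ 2) A x y =
          (∏ i, sl (d i) A x y 0 0 - ∏ i, TT (d i) o W (k ^ 2) A x y) +
          (∏ i, sl (d i) A x y 0 0 - ∏ i, TS (d i) o W (k ^ 2) A x y) +
          (∏ i, UU (d i) o W (k ^ 2) A x y - ∏ i, sl (d i) A x y 0 0) := by ring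
      rw [e]
      refine (abs_add_le _ _).trans ?_
      have := abs_add_le (∏ i, sl (d i) A x y 0 0 - ∏ i, TT (d i) o W (k ^ 2) A x y)
        (∏ i, sl (d i) A x y 0 0 - ∏ i, TS (d i) o W (k ^ 2) A x y)
      linarith
    refine hEE.trans ?_
    have e3 : 3 * (r * ε * ∏ i, M i) = (9 / 2) * r / k * ∏ i, M i := by
      rw [hε]
      field_simp
      ring
    rw [e3, mul_assoc (5 * (r : ℝ) / (k : ℝ)), ← hP]
    apply mul_le_mul_of_nonneg_right _ hP0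
    apply div_le_div_of_nonneg_right _ hk0.le
    linarith

end Pool.Agent.Lib.MP_1ad228_ntF
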