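import Pool.Agent.Lib.MP_1ad228_ntF.B_EE
import Pool.Agent.Lib.MP_1ad228_ntF.B_Near
import Pool.Agent.Lib.MP_1ad228_ntF.B_Close
import Pool.Agent.Lib.MP_1ad228_ntF.EEgood

/-!
JOB B_Good.  Non exceptional good pairs contribute little (degree 2, borderline case). (Model: EEgood.lean.)

PROOF.  `V = (n+1)^2`, `k = T^2`. Let `J = Nat.log 2 (A / T)` (natural division, `A/T ≥ 1`): `2^J ≤ A/T ≤ A`, `A/T < 2^(J+1)`, so `2^J T ≤ A` and `A < T 2^(J+1)` (as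
`A < T (A/T + 1) ≤ T 2^(J+1)`). `hTT` gives `(n+1)^2 H^2 T ≤ 2 A T' ≤ 2 T 2^(J+1) T'`, so `(n+1)^2 H^2 ≤ T' 2^(J+2)`.
For `m ∈ MS`, `m' ∈ MS` take `a0, b` from `nearR` (`β0 = 2A/k`). `slB_close`: `|slB m m' - slB 0 0| ≤ 2 V (2^J/A) (6^V n2) + 20 (V β0/2^(J+2))^2 slB 0 0`;
`2^J/A ≤ 1/T`; `β0/2^(J+2) = 2A/(T^2 2^(J+2)) ≤ 2 T 2^(J+1)/(T^2 2^(J+2)) = 1/T`; `slB 0 0 ≤ 4^V n2 ≤ 6^V n2`. So the difference is at most
`(2V/T + 20 V^2/T^2) 6^V n2 ≤ ε M`, `ε = 22 V^2/T`, `M = 6^V n2` (`V, T ≥ 1`).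
The values `slB 0 0`, `TTB`, `TSB`, `UUB` are in `[0, M]` (`slB_le`, `TTB_mem` ...), and `TTB, TSB, UUB` are averages over nonempty sets (`0 ∈ MS`, `x_o, y_o > 0`) of slices
within `ε M` of `slB 0 0`. `prod_close` with `ε` (r equal factors): `|∏ slB - ∏ TTB| ≤ r ε M^r`, `|∏ UUB - ∏ TSB| ≤ 2 r ε M^r`. So `|EEB| ≤ 3 r ε M^r = 66 r V^2/T * (6^V n2)^r`.
-/

namespace Pool.Agent.Lib.MP_1ad228_ntF

open Classical

private theorem BG_avg {ι : Type*} (s : Finset ι) (f : ι → ℝ) (S δ : ℝ) (hs : s.Nonempty)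
    (h : ∀ m ∈ s, |f m - S| ≤ δ) : |(1 / (s.card : ℝ)) * ∑ m ∈ s, f m - S| ≤ δ := by
  have hc : (0 : ℝ) < (s.card : ℝ) := by exact_mod_cast hs.card_pos
  have h1 : (1 / (s.card : ℝ)) * ∑ m ∈ s, f m - S
      = (1 / (s.card : ℝ)) * ∑ m ∈ s, (f m - S) := by
    rw [Finset.sum_sub_distrib, Finset.sum_const, nsmul_eq_mul]
    field_simp
  rw [h1, abs_mul, abs_of_pos (one_div_pos.mpr hc)]
  have h2 : |∑ m ∈ s, (f m - S)| ≤ (s.card : ℝ) * δ := by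
    refine (Finset.abs_sum_le_sum_abs _ _).trans ?_
    calc ∑ m ∈ s, |f m - S| ≤ ∑ _m ∈ s, δ := Finset.sum_le_sum h
      _ = (s.card : ℝ) * δ := by rw [Finset.sum_const, nsmul_eq_mul]
  calc 1 / (s.card : ℝ) * |∑ m ∈ s, (f m - S)| ≤ 1 / (s.card : ℝ) * ((s.card : ℝ) * δ) := by
        gcongr
    _ = δ := by field_simp

private theorem BG_zero_mem {n d W K A : ℕ} {o : Fin (n + 1)} {x : Vc n ℤ} (h : 0 < x o) :
    (0 : ℤ) ∈ MS d W K A o x := by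
  have h0 : (0 : ℤ) ≤ (A : ℤ) * (x o) ^ d := by positivity
  simp only [MS, Finset.mem_filter, Finset.mem_Icc, dvd_zero, abs_zero, mul_zero, true_and]
  exact ⟨⟨by linarith, h0⟩, h0⟩

/-- The arithmetic of the scale `J`. -/
private theorem BG_scale (V H T T' A : ℕ) (hT : 1 ≤ T) (hTA : T ≤ A)
    (hTT : V * H ^ 2 * T ≤ 2 * A * T') :
    ∃ J : ℕ, 2 ^ J ≤ A ∧ 2 ^ J * T ≤ A ∧ A ≤ T * 2 ^ (J + 1) ∧ V * H ^ 2 ≤ T' * 2 ^ (J + 2) := by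
  have h1 : 1 ≤ A / T := (Nat.one_le_div_iff hT).mpr hTA
  refine ⟨Nat.log 2 (A / T), ?_⟩
  have h2 : 2 ^ Nat.log 2 (A / T) ≤ A / T := Nat.pow_log_le_self 2 (by omega)
  have h3 : A / T < 2 ^ (Nat.log 2 (A / T) + 1) := Nat.lt_pow_succ_log_self (by norm_num) _
  generalize Nat.log 2 (A / T) = J at h2 h3
  have h4 : 2 ^ J * T ≤ A := (Nat.le_div_iff_mul_le hT).mp h2
  have h5 : A < 2 ^ (J + 1) * T := (Nat.div_lt_iff_lt_mul hT).mp h3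
  refine ⟨h2.trans (Nat.div_le_self _ _), h4, by rw [mul_comm]; exact h5.le, ?_⟩
  have h6 : V * H ^ 2 * T ≤ T' * 2 ^ (J + 2) * T := by
    calc V * H ^ 2 * T ≤ 2 * A * T' := hTT
      _ ≤ 2 * (2 ^ (J + 1) * T) * T' :=
          Nat.mul_le_mul_right _ (Nat.mul_le_mul_left _ h5.le)
      _ = T' * 2 ^ (J + 2) * T := by ring
  exact Nat.le_of_mul_le_mul_right h6 hT

/-- Real arithmetic of the bound. -/
private theorem BG_num (V T A P M s : ℝ) (hV : 1 ≤ V) (hT : 1 ≤ T) (hA : 0 < A) (hP : 0 < P)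
    (h1 : P * T ≤ A) (h2 : A ≤ T * (P * 2)) (hM : 0 ≤ M) (hs0 : 0 ≤ s) (hs : s ≤ M) :
    2 * V * (P / A) * M + 20 * (V * (2 * A / T ^ 2) / (P * 4)) ^ 2 * s ≤
      22 * V ^ 2 / T * M := by
  have hT0 : 0 < T := by linarith
  have e1 : P / A ≤ 1 / T := by
    rw [div_le_div_iff₀ hA hT0]
    linarith
  have e2 : 2 * A / T ^ 2 / (P * 4) ≤ 1 / T := by
    rw [div_div, div_le_div_iff₀ (by positivity) hT0]
    nlinarith [mul_le_mul_of_nonneg_left h2 hT0.le]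
  have e3 : V * (2 * A / T ^ 2) / (P * 4) ≤ V / T := by
    have := mul_le_mul_of_nonneg_left e2 (by linarith : (0 : ℝ) ≤ V)
    calc V * (2 * A / T ^ 2) / (P * 4) = V * (2 * A / T ^ 2 / (P * 4)) := by ring
      _ ≤ V * (1 / T) := this
      _ = V / T := by ring
  have e4 : (V * (2 * A / T ^ 2) / (P * 4)) ^ 2 ≤ (V / T) ^ 2 :=
    pow_le_pow_left₀ (by positivity) e3 2
  have e5 : (V / T) ^ 2 ≤ V ^ 2 / T := by
    rw [div_pow]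
    apply div_le_div_of_nonneg_left (by positivity) hT0
    nlinarith
  have e6 : 2 * V * (P / A) ≤ 2 * (V ^ 2 / T) := by
    have : V * (P / A) ≤ V * (1 / T) := mul_le_mul_of_nonneg_left e1 (by linarith)
    have h7 : V * (1 / T) ≤ V ^ 2 / T := by
      rw [mul_one_div]
      apply div_le_div_of_nonneg_right _ hT0.le
      nlinarith
    linarith
  have e7 : 20 * (V * (2 * A / T ^ 2) / (P * 4)) ^ 2 * s ≤ 20 * (V ^ 2 / T) * M := by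
    apply mul_le_mul _ hs hs0 (by positivity)
    linarith
  have e8 : 2 * V * (P / A) * M ≤ 2 * (V ^ 2 / T) * M := mul_le_mul_of_nonneg_right e6 hM
  calc 2 * V * (P / A) * M + 20 * (V * (2 * A / T ^ 2) / (P * 4)) ^ 2 * s
      ≤ 2 * (V ^ 2 / T) * M + 20 * (V ^ 2 / T) * M := add_le_add e8 e7
    _ = 22 * V ^ 2 / T * M := by ring

theorem EEgoodB {n r : ℕ} (B H q : ℕ) (o : Fin (n + 1)) (T T' A W : ℕ)
    (hB : 1 ≤ B) (hT : 1 ≤ T) (hTA : T ≤ A) (hTT : (n + 1) ^ 2 * H ^ 2 * T ≤ 2 * A * T')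
    (x y : Vc n ℤ) (hx : x ∈ GG B H q o) (hy : y ∈ GG B H q o) (hxy : x ≠ y)
    (hD : Dd x y ∣ W) (hΔ : B ^ 2 ≤ T ^ 2 * Del o x y)
    (f g : Fin n → Vc n ℤ) (hf : LinearIndependent ℤ f)
    (hg : LinearIndependent ℤ g) (f0 : ∀ s, lin (f s) x = 0) (g0 : ∀ s, lin (g s) y = 0)
    (hfH : ∀ s i, |f s i| ≤ (H : ℤ)) (hgH : ∀ s i, |g s i| ≤ (H : ℤ)) (hE : ¬ ExcP T' f g) :
    |EEB (fun _ : Fin r => 2) o W ((T ^ 2) ^ 2) A x y| ≤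
      66 * r * ((n + 1) ^ 2) ^ 2 / (T : ℝ) * (6 ^ (n + 1) ^ 2 * (n2 2 x y A : ℝ)) ^ r := by
  have hT0 : (0 : ℝ) < (T : ℝ) := by exact_mod_cast hT
  have hT1 : (1 : ℝ) ≤ (T : ℝ) := by exact_mod_cast hT
  have hA1 : 1 ≤ A := hT.trans hTA
  have hAr : (0 : ℝ) < (A : ℝ) := by exact_mod_cast hA1
  have hk : 1 ≤ T ^ 2 := Nat.one_le_pow _ _ hT
  have hn : (0 : ℝ) ≤ (n2 2 x y A : ℝ) := Nat.cast_nonneg _
  obtain ⟨M, hM⟩ : ∃ M : ℝ, M = 6 ^ (n + 1) ^ 2 * (n2 2 x y A : ℝ) := ⟨_, rfl⟩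
  have hM0 : 0 ≤ M := by rw [hM]; positivity
  obtain ⟨V, hV⟩ : ∃ V : ℝ, V = ((n : ℝ) + 1) ^ 2 := ⟨_, rfl⟩
  have hV1 : 1 ≤ V := by
    rw [hV]
    have : (0 : ℝ) ≤ (n : ℝ) := Nat.cast_nonneg _
    nlinarith
  obtain ⟨ε, hε⟩ : ∃ ε : ℝ, ε = 22 * V ^ 2 / (T : ℝ) := ⟨_, rfl⟩
  have hε0 : 0 ≤ ε := by rw [hε]; positivity
  have hx1 := Pool.Agent.Lib.MP_219881_nt.GG_pos hB hx
  have hy1 := Pool.Agent.Lib.MP_219881_nt.GG_pos hB hy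
  have hmn : ∃ j, mn x y o j ≠ 0 := by
    obtain ⟨j, -, hj, -⟩ := Pool.Agent.Lib.MP_219881_nt.exists_Del o x y
      (Pool.Agent.Lib.MP_219881_nt.Del_pos hB hx hy hxy)
    exact ⟨j, hj⟩
  obtain ⟨J, hJ1, hJ2, hJ3, hJ4⟩ := BG_scale ((n + 1) ^ 2) H T T' A hT hTA hTT
  have hC : ∀ m m', slB 2 A x y m m' ≤ M := by
    intro m m'
    refine (slB_le 2 A x y m m').trans ?_
    rw [hM]
    exact mul_le_mul_of_nonneg_right (pow_le_pow_left₀ (by norm_num) (by norm_num) _) hn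
  have key : ∀ m ∈ MS 2 W ((T ^ 2) ^ 2) A o x, ∀ m' ∈ MS 2 W ((T ^ 2) ^ 2) A o y,
      |slB 2 A x y m m' - slB 2 A x y 0 0| ≤ ε * M := by
    intro m hm m' hm'
    obtain ⟨a0, b, h1, h2, h3, h4, h5⟩ := nearR 2 (by norm_num) B H q o (T ^ 2) A W hB hk x y hx hy
      hxy hD hΔ m m' hm hm'
    have h6 := slB_close A hA1 x y o hmn f g hf hg f0 g0 H T' J hfH hgH hJ4 hE hJ1 a0 b
      (by rw [h1, h3]) (by rw [h2, h4]) _ h5
    rw [h1, h2] at h6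
    refine h6.trans ?_
    have h7 := BG_num V T A (2 ^ J) M (slB 2 A x y 0 0) hV1 hT1 hAr (by positivity)
      (by exact_mod_cast hJ2) (by
        have : (A : ℝ) ≤ (T : ℝ) * 2 ^ (J + 1) := by exact_mod_cast hJ3
        rwa [pow_succ] at this) hM0 (slB_nonneg 2 A x y 0 0) (hC 0 0)
    rw [hε]
    refine le_trans (le_of_eq ?_) h7
    rw [hM, hV]
    push_cast
    ring
  have z1 : (0 : ℤ) ∈ MS 2 W ((T ^ 2) ^ 2) A o x := BG_zero_mem hx1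
  have z2 : (0 : ℤ) ∈ MS 2 W ((T ^ 2) ^ 2) A o y := BG_zero_mem hy1
  have hS : ∀ i ∈ (Finset.univ : Finset (Fin r)), 0 ≤ slB 2 A x y 0 0 ∧ slB 2 A x y 0 0 ≤ M :=
    fun i _ => ⟨slB_nonneg 2 A x y 0 0, hC 0 0⟩
  have hTm := fun (i : Fin r) (_ : i ∈ Finset.univ) => TTB_mem 2 o W ((T ^ 2) ^ 2) A x y M hC
  have hTm' := fun (i : Fin r) (_ : i ∈ Finset.univ) => TSB_mem 2 o W ((T ^ 2) ^ 2) A x y M hC
  have hU := fun (i : Fin r) (_ : i ∈ Finset.univ) => UUB_mem 2 o W ((T ^ 2) ^ 2) A x y M hC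
  have g1 := prod_close (Finset.univ : Finset (Fin r)) (fun _ => slB 2 A x y 0 0)
    (fun _ => TTB 2 o W ((T ^ 2) ^ 2) A x y) (fun _ => M) ε hε0 hS hTm (fun i _ => by
      rw [abs_sub_comm]
      exact BG_avg _ _ _ _ ⟨0, z1⟩ fun m hm => key m hm 0 z2)
  have g2 := prod_close (Finset.univ : Finset (Fin r)) (fun _ => slB 2 A x y 0 0)
    (fun _ => TSB 2 o W ((T ^ 2) ^ 2) A x y) (fun _ => M) ε hε0 hS hTm' (fun i _ => by
      rw [abs_sub_comm]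
      exact BG_avg _ _ _ _ ⟨0, z2⟩ fun m' hm' => key 0 z1 m' hm')
  have g3 := prod_close (Finset.univ : Finset (Fin r)) (fun _ => UUB 2 o W ((T ^ 2) ^ 2) A x y)
    (fun _ => slB 2 A x y 0 0) (fun _ => M) ε hε0 hU hS (fun i _ => by
      have hU0 : UUB 2 o W ((T ^ 2) ^ 2) A x y
          = (1 / ((MS 2 W ((T ^ 2) ^ 2) A o x).card : ℝ)) * ∑ m ∈ MS 2 W ((T ^ 2) ^ 2) A o x,
            ((1 / ((MS 2 W ((T ^ 2) ^ 2) A o y).card : ℝ)) *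
              ∑ m' ∈ MS 2 W ((T ^ 2) ^ 2) A o y, slB 2 A x y m m') := by
        unfold UUB
        rw [← Finset.mul_sum, mul_assoc]
      rw [hU0]
      exact BG_avg _ _ _ _ ⟨0, z1⟩ fun m hm =>
        BG_avg _ _ _ _ ⟨0, z2⟩ fun m' hm' => key m hm m' hm')
  have hcard : ((Finset.univ : Finset (Fin r)).card : ℝ) = r := by
    rw [Finset.card_univ, Fintype.card_fin]
  rw [hcard] at g1 g2 g3
  have hP : ∏ _i : Fin r, M = M ^ r := by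
    rw [Finset.prod_const, Finset.card_univ, Fintype.card_fin]
  rw [hP] at g1 g2 g3
  have hEE : |EEB (fun _ : Fin r => 2) o W ((T ^ 2) ^ 2) A x y| ≤ 3 * (r * ε * M ^ r) := by
    unfold EEB
    have e : ∏ _i : Fin r, slB 2 A x y 0 0 - ∏ _i : Fin r, TTB 2 o W ((T ^ 2) ^ 2) A x y
        - ∏ _i : Fin r, TSB 2 o W ((T ^ 2) ^ 2) A x y + ∏ _i : Fin r, UUB 2 o W ((T ^ 2) ^ 2) A x y =
        (∏ _i : Fin r, slB 2 A x y 0 0 - ∏ _i : Fin r, TTB 2 o W ((T ^ 2) ^ 2) A x y) +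
        (∏ _i : Fin r, slB 2 A x y 0 0 - ∏ _i : Fin r, TSB 2 o W ((T ^ 2) ^ 2) A x y) +
        (∏ _i : Fin r, UUB 2 o W ((T ^ 2) ^ 2) A x y - ∏ _i : Fin r, slB 2 A x y 0 0) := by ring
    rw [e]
    refine (abs_add_le _ _).trans ?_
    have := abs_add_le (∏ _i : Fin r, slB 2 A x y 0 0 - ∏ _i : Fin r, TTB 2 o W ((T ^ 2) ^ 2) A x y)
      (∏ _i : Fin r, slB 2 A x y 0 0 - ∏ _i : Fin r, TSB 2 o W ((T ^ 2) ^ 2) A x y)
    linarith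
  refine hEE.trans (le_of_eq ?_)
  rw [hε, hM, hV]
  ring

end Pool.Agent.Lib.MP_1ad228_ntF
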