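import Pool.Agent.Lib.MP_1ad228_ntF.CN_Low
import Pool.Agent.Lib.MP_1ad228_ntF.B_Bad

/-!
JOB B_Low.  Lower bound for the local prediction, general form with the local points which are not `H`-good subtracted.

PROOF.  As `low` in CN_Low.lean. `W = WW w`, `D = ∑ d`, `c1 = ρ^(n+1-r) dl^r`, `dl` as in `cnt`, `c = c1/(2 * 3^r)`. Given `K`, `w0 ≥ 1` with `4^(n+1)/w ≤ c1/(4K^r)` for `w ≥ w0`. Given `w`, `B0` such that for `B ≥ B0`:
`B ≥ 1`, `K W ≤ dl B`, `K W ≤ B`, `2^(n+1) B ≤ c1/(4K^r) B^(n+1)/W^(n+1)` (`n ≥ 1`). `CN_Low_count` with `H := B`: the last set is empty (`allGood`), so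
`sm * c1 B^(n+1)/(2 K^r W^(n+1)) ≤ #{x ∈ GG B B q o | ∀ i, Loc ..}` (the bracket: `c1 B^(n+1)/(K^r W^(n+1)) - (4B/W)^(n+1)/w - 2^(n+1) B ≥ c1 B^(n+1)/(2 K^r W^(n+1))`).
A point of the last set is either `H`-good, and then in `GG B H q o`, or counted in `R = #{x ∈ GG B B q o | ¬ HGood H x ∧ ∀ i, Loc ..}`. So
`#{x ∈ GG B H q o | ∀ i, Loc ..} ≥ sm * c1 B^(n+1)/(2 K^r W^(n+1)) - R`. Each term of `Ll` is at least `∏ K W/(3 A B^(d i)) = (K W)^r/(3^r A^r B^D)` (`muUp`; `K W ≤ B ≤ A B^(d i)`), so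
`Ll ≥ B^(n+1)/(A^r B^D) * (c1 sm W^r/(2*3^r W^(n+1)) - (K W)^r R/(3^r B^(n+1)))`.
-/

namespace Pool.Agent.Lib.MP_1ad228_ntF

open Classical

theorem lowB {r : ℕ} (hr : 1 ≤ r) (n : ℕ) (hn : r + 2 ≤ n) (d : Fin r → ℕ) (hd : ∀ i, 1 ≤ d i)
    (ρ : ℝ) (hρ : 0 < ρ) (hρ1 : ρ ≤ 1) (q : ℕ) (hq : 1 ≤ ρ * q) :
    ∃ c : ℝ, 0 < c ∧ ∀ K : ℕ, 1 ≤ K → ∃ w0 : ℕ, ∀ w ≥ w0, ∃ B0 : ℕ, ∀ B ≥ B0,
      ∀ H A : ℕ, 1 ≤ A →
      ∀ F ∈ TBox n d A, ∀ (o : Fin (n + 1)) (S : Fin r → Fin (n + 1)), Function.Injective S →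
        Rob o S ρ (fun i s => (F i s : ℝ) / A) →
        ((B : ℝ) ^ (n + 1) / ((A : ℝ) ^ r * (B : ℝ) ^ (∑ i, d i))) *
          (c * ((sm (WW w) (ctT (ZMod (WW w)) F) : ℝ) * (WW w : ℝ) ^ r /
            (WW w : ℝ) ^ (n + 1)) -
            ((K : ℝ) * WW w) ^ r * (((GG B B q o).filter fun x => ¬ HGood H x ∧
              ∀ i, Loc (WW w) K A o (F i) x).card : ℝ) / (3 ^ r * (B : ℝ) ^ (n + 1))) ≤
          Ll B H q o (WW w) K A F := by
  have hD1 : 1 ≤ ∑ i, d i := by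
    have h1 := Finset.sum_le_sum (s := (Finset.univ : Finset (Fin r))) (fun i _ => hd i)
    rw [Finset.sum_const, Finset.card_univ, Fintype.card_fin, smul_eq_mul, mul_one] at h1
    exact hr.trans h1
  have hDp : (1 : ℝ) ≤ ((∑ i, d i : ℕ) : ℝ) := by exact_mod_cast hD1
  have hn1 : (1 : ℝ) ≤ ((n : ℝ) + 1) ^ (∑ i, d i) :=
    one_le_pow₀ (by
      have h2 : (0 : ℝ) ≤ n := Nat.cast_nonneg _
      linarith)
  have hdl : (0 : ℝ) < ρ ^ (∑ i, d i) / (2 * ((∑ i, d i : ℕ) : ℝ) * ((n : ℝ) + 1) ^ (∑ i, d i)) := by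
    have h1 : (0 : ℝ) < 2 * ((∑ i, d i : ℕ) : ℝ) * ((n : ℝ) + 1) ^ (∑ i, d i) := by nlinarith
    exact div_pos (pow_pos hρ _) h1
  have hdl1 : ρ ^ (∑ i, d i) / (2 * ((∑ i, d i : ℕ) : ℝ) * ((n : ℝ) + 1) ^ (∑ i, d i)) ≤ 1 := by
    have h1 : (1 : ℝ) ≤ 2 * ((∑ i, d i : ℕ) : ℝ) * ((n : ℝ) + 1) ^ (∑ i, d i) := by nlinarith
    rw [div_le_one (by linarith)]
    exact (pow_le_one₀ hρ.le hρ1).trans h1
  have hc1 : (0 : ℝ) < ρ ^ (n + 1 - r) *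
      (ρ ^ (∑ i, d i) / (2 * ((∑ i, d i : ℕ) : ℝ) * ((n : ℝ) + 1) ^ (∑ i, d i))) ^ r :=
    mul_pos (pow_pos hρ _) (pow_pos hdl _)
  refine ⟨ρ ^ (n + 1 - r) *
      (ρ ^ (∑ i, d i) / (2 * ((∑ i, d i : ℕ) : ℝ) * ((n : ℝ) + 1) ^ (∑ i, d i))) ^ r / (2 * 3 ^ r),
    div_pos hc1 (by positivity), ?_⟩
  generalize hc1e : ρ ^ (n + 1 - r) *
      (ρ ^ (∑ i, d i) / (2 * ((∑ i, d i : ℕ) : ℝ) * ((n : ℝ) + 1) ^ (∑ i, d i))) ^ r = c1 at hc1
  generalize hdle : ρ ^ (∑ i, d i) / (2 * ((∑ i, d i : ℕ) : ℝ) * ((n : ℝ) + 1) ^ (∑ i, d i)) = dl at hdl hdl1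
  intro K hK
  have hKp : (0 : ℝ) < K := by exact_mod_cast hK
  refine ⟨max 1 ⌈4 ^ (n + 1) * (4 * (K : ℝ) ^ r) / c1⌉₊, ?_⟩
  intro w hw
  have hw1 : 1 ≤ w := (le_max_left _ _).trans hw
  have hw2 : 4 ^ (n + 1) * (4 * (K : ℝ) ^ r) / c1 ≤ (w : ℝ) :=
    (Nat.le_ceil _).trans (by exact_mod_cast (le_max_right _ _).trans hw)
  have hwp : (0 : ℝ) < w := by exact_mod_cast hw1
  have hWn : 1 ≤ WW w := by
    unfold WW
    refine Finset.one_le_prod' ?_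
    intro p hp
    exact Nat.one_le_iff_ne_zero.mpr (pow_ne_zero _ (Finset.mem_filter.mp hp).2.ne_zero)
  have hWp : (0 : ℝ) < (WW w : ℝ) := by exact_mod_cast hWn
  refine ⟨max 1 (max ⌈(K : ℝ) * (WW w : ℝ) / dl⌉₊
    ⌈2 ^ (n + 1) * (WW w : ℝ) ^ (n + 1) * (4 * (K : ℝ) ^ r) / c1⌉₊), ?_⟩
  intro B hg H A hA F hF o S hS hR
  have hB1 : 1 ≤ B := (le_max_left _ _).trans hg
  have hg4 : (K : ℝ) * (WW w : ℝ) / dl ≤ (B : ℝ) :=
    (Nat.le_ceil _).trans (by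
      exact_mod_cast le_trans (le_trans (le_max_left _ _) (le_max_right _ _)) hg)
  have hg5 : 2 ^ (n + 1) * (WW w : ℝ) ^ (n + 1) * (4 * (K : ℝ) ^ r) / c1 ≤ (B : ℝ) :=
    (Nat.le_ceil _).trans (by
      exact_mod_cast le_trans (le_trans (le_max_right _ _) (le_max_right _ _)) hg)
  have hB1' : (1 : ℝ) ≤ B := by exact_mod_cast hB1
  have hBp : (0 : ℝ) < B := by exact_mod_cast hB1
  have hAp : (0 : ℝ) < A := by exact_mod_cast hA
  have hKW : (K : ℝ) * (WW w : ℝ) ≤ dl * B := by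
    rw [div_le_iff₀ hdl] at hg4
    linarith
  have hKWA : ∀ i, K * WW w ≤ A * B ^ d i := by
    intro i
    have h1 : (K : ℝ) * (WW w : ℝ) ≤ A * (B : ℝ) ^ d i := by
      have h2 : dl * B ≤ 1 * B := mul_le_mul_of_nonneg_right hdl1 hBp.le
      have h4 : (1 : ℝ) ≤ A := by exact_mod_cast hA
      have h5 : (B : ℝ) ≤ (B : ℝ) ^ d i := by
        calc (B : ℝ) = (B : ℝ) ^ 1 := (pow_one _).symm
          _ ≤ (B : ℝ) ^ d i := pow_le_pow_right₀ hB1' (hd i)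
      have h6 : (B : ℝ) ^ d i ≤ A * (B : ℝ) ^ d i := le_mul_of_one_le_left (by positivity) h4
      linarith
    exact_mod_cast h1
  have hcount := CN_Low_count d hr (by omega) (by omega) hd ρ hρ hρ1 q hq K hK w hw1 B B hB1
    (by rw [hdle]; exact hKW) A hA F hF o S hS hR
  rw [hc1e] at hcount
  have hempty : ((VBox n B).filter fun x => ¬ HGood B x) = ∅ :=
    Finset.filter_eq_empty_iff.2 fun x hx h => h (allGood hB1 x hx)
  rw [hempty, Finset.card_empty, Nat.cast_zero, add_zero] at hcount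
  -- the points which are not good
  have hsplit : (((GG B B q o).filter (fun x => ∀ i, Loc (WW w) K A o (F i) x)).card : ℝ) ≤
      (((GG B H q o).filter (fun x => ∀ i, Loc (WW w) K A o (F i) x)).card : ℝ) +
      (((GG B B q o).filter fun x => ¬ HGood H x ∧ ∀ i, Loc (WW w) K A o (F i) x).card : ℝ) := by
    have h1 : (GG B B q o).filter (fun x => ∀ i, Loc (WW w) K A o (F i) x) ⊆
        ((GG B H q o).filter (fun x => ∀ i, Loc (WW w) K A o (F i) x)) ∪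
        ((GG B B q o).filter fun x => ¬ HGood H x ∧ ∀ i, Loc (WW w) K A o (F i) x) := by
      intro x hx
      obtain ⟨hx1, hx2⟩ := Finset.mem_filter.mp hx
      rw [Finset.mem_union]
      by_cases hg : HGood H x
      · left
        refine Finset.mem_filter.mpr ⟨?_, hx2⟩
        obtain ⟨hV, hpo, hU, _⟩ := Finset.mem_filter.mp hx1
        exact Finset.mem_filter.mpr ⟨hV, hpo, hU, hg⟩
      · right
        exact Finset.mem_filter.mpr ⟨hx1, hg, hx2⟩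
    have h2 := (Finset.card_le_card h1).trans (Finset.card_union_le _ _)
    exact_mod_cast h2
  generalize (sm (WW w) (ctT (ZMod (WW w)) F) : ℕ) = s at hcount
  -- the number of good points
  have hL0 : (((GG B H q o).filter
      (fun x => ∀ i, Loc (WW w) K A o (F i) x)).card : ℝ) *
      (((K : ℝ) ^ r * (WW w : ℝ) ^ r) / (3 ^ r * (A : ℝ) ^ r * (B : ℝ) ^ (∑ i, d i))) ≤
        Ll B H q o (WW w) K A F := by
    unfold Ll
    rw [← nsmul_eq_mul]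
    refine Finset.card_nsmul_le_sum _ _ _ ?_
    intro x hx
    obtain ⟨hxV, hxo, _, _⟩ := Finset.mem_filter.mp (Finset.mem_filter.mp hx).1
    have hx0 : 0 ≤ x o := by
      by_contra hneg
      have h1 : (q : ℤ) * x o ≤ 0 := mul_nonpos_of_nonneg_of_nonpos (Nat.cast_nonneg _) (by omega)
      have h2 : (1 : ℤ) ≤ B := by exact_mod_cast hB1
      linarith
    have e1 : ((K : ℝ) ^ r * (WW w : ℝ) ^ r) / (3 ^ r * (A : ℝ) ^ r * (B : ℝ) ^ (∑ i, d i)) =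
        ∏ i : Fin r, ((K * (WW w : ℝ)) / (3 * A * (B : ℝ) ^ d i)) := by
      rw [Finset.prod_div_distrib, Finset.prod_mul_distrib, Finset.prod_mul_distrib, Finset.prod_mul_distrib,
        Finset.prod_const, Finset.prod_const, Finset.prod_const, Finset.prod_const, Finset.card_univ,
        Fintype.card_fin, Finset.prod_pow_eq_pow_sum]
    rw [e1]
    refine Finset.prod_le_prod (fun i _ => by positivity) fun i _ => ?_
    obtain ⟨h1, h2⟩ := muUp (d i) (WW w) K A B o hWn hK (hKWA i) x hxV hx0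
    rw [le_div_iff₀ h1]
    calc (K * (WW w : ℝ)) / (3 * A * (B : ℝ) ^ d i) * ((MS (d i) (WW w) K A o x).card : ℝ) ≤
          (K * (WW w : ℝ)) / (3 * A * (B : ℝ) ^ d i) * (3 * A * (B : ℝ) ^ d i / (K * (WW w : ℝ))) :=
          mul_le_mul_of_nonneg_left h2 (by positivity)
      _ = 1 := by field_simp
  refine le_trans ?_ hL0
  have hcount2 := hcount.trans hsplit
  clear hcount hsplit hL0
  generalize (((GG B H q o).filter
      (fun x => ∀ i, Loc (WW w) K A o (F i) x)).card : ℝ) = P at hcount2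
  generalize (((GG B B q o).filter fun x => ¬ HGood H x ∧
      ∀ i, Loc (WW w) K A o (F i) x).card : ℝ) = R at hcount2
  clear hempty hR hKWA
  generalize hWe : (WW w : ℝ) = W at *
  have hE : (0 : ℝ) < (B : ℝ) ^ (n + 1) := by positivity
  -- per class
  have hcls : c1 * (B : ℝ) ^ (n + 1) / (2 * ((K : ℝ) ^ r * W ^ (n + 1))) ≤
      c1 * (B : ℝ) ^ (n + 1) / ((K : ℝ) ^ r * W ^ (n + 1)) -
        ((4 * B / W) ^ (n + 1) / w + 2 ^ (n + 1) * B) := by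
    have h1 : (4 * (B : ℝ) / W) ^ (n + 1) / w ≤
        c1 * (B : ℝ) ^ (n + 1) / (4 * ((K : ℝ) ^ r * W ^ (n + 1))) := by
      rw [div_le_iff₀ hwp]
      have h2 : 4 ^ (n + 1) * (4 * (K : ℝ) ^ r) ≤ c1 * w := by
        rw [div_le_iff₀ hc1] at hw2
        linarith
      rw [div_pow, mul_pow]
      rw [div_mul_eq_mul_div, div_le_div_iff₀ (by positivity) (by positivity)]
      calc 4 ^ (n + 1) * (B : ℝ) ^ (n + 1) * (4 * ((K : ℝ) ^ r * W ^ (n + 1))) =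
            (4 ^ (n + 1) * (4 * (K : ℝ) ^ r)) * ((B : ℝ) ^ (n + 1) * W ^ (n + 1)) := by ring
        _ ≤ (c1 * w) * ((B : ℝ) ^ (n + 1) * W ^ (n + 1)) := by gcongr
        _ = c1 * (B : ℝ) ^ (n + 1) * w * W ^ (n + 1) := by ring
    have h3 : 2 ^ (n + 1) * (B : ℝ) ≤
        c1 * (B : ℝ) ^ (n + 1) / (4 * ((K : ℝ) ^ r * W ^ (n + 1))) := by
      rw [le_div_iff₀ (by positivity)]
      rw [div_le_iff₀ hc1] at hg5
      have h4 : (B : ℝ) ≤ (B : ℝ) ^ n := by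
        calc (B : ℝ) = (B : ℝ) ^ 1 := (pow_one _).symm
          _ ≤ (B : ℝ) ^ n := pow_le_pow_right₀ hB1' (by omega)
      calc 2 ^ (n + 1) * (B : ℝ) * (4 * ((K : ℝ) ^ r * W ^ (n + 1))) =
            (2 ^ (n + 1) * W ^ (n + 1) * (4 * (K : ℝ) ^ r)) * B := by ring
        _ ≤ (B * c1) * B := by gcongr
        _ ≤ ((B : ℝ) ^ n * c1) * B := by gcongr
        _ = c1 * (B : ℝ) ^ (n + 1) := by ring
    have h5 : c1 * (B : ℝ) ^ (n + 1) / ((K : ℝ) ^ r * W ^ (n + 1)) =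
        c1 * (B : ℝ) ^ (n + 1) / (2 * ((K : ℝ) ^ r * W ^ (n + 1))) +
        (c1 * (B : ℝ) ^ (n + 1) / (4 * ((K : ℝ) ^ r * W ^ (n + 1))) +
        c1 * (B : ℝ) ^ (n + 1) / (4 * ((K : ℝ) ^ r * W ^ (n + 1)))) := by
      field_simp
      ring
    rw [h5]
    linarith
  have hs0 : (0 : ℝ) ≤ s := Nat.cast_nonneg _
  have hP : (s : ℝ) * (c1 * (B : ℝ) ^ (n + 1) / (2 * ((K : ℝ) ^ r * W ^ (n + 1)))) - R ≤ P := by
    have h1 := mul_le_mul_of_nonneg_left hcls hs0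
    linarith
  generalize hDD : ∑ i, d i = DD
  have hf2 : (0 : ℝ) ≤ ((K : ℝ) ^ r * W ^ r) / (3 ^ r * (A : ℝ) ^ r * (B : ℝ) ^ DD) := by positivity
  calc (B : ℝ) ^ (n + 1) / ((A : ℝ) ^ r * (B : ℝ) ^ DD) *
        (c1 / (2 * 3 ^ r) * ((s : ℝ) * W ^ r / W ^ (n + 1)) -
          ((K : ℝ) * W) ^ r * R / (3 ^ r * (B : ℝ) ^ (n + 1)))
      = ((s : ℝ) * (c1 * (B : ℝ) ^ (n + 1) / (2 * ((K : ℝ) ^ r * W ^ (n + 1)))) - R) *
        (((K : ℝ) ^ r * W ^ r) / (3 ^ r * (A : ℝ) ^ r * (B : ℝ) ^ DD)) := by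
        rw [mul_pow]
        field_simp
    _ ≤ P * (((K : ℝ) ^ r * W ^ r) / (3 ^ r * (A : ℝ) ^ r * (B : ℝ) ^ DD)) :=
        mul_le_mul_of_nonneg_right hP hf2

end Pool.Agent.Lib.MP_1ad228_ntF
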