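import Pool.Agent.Lib.MP_1ad228_ntF.Pre
import Pool.Agent.Lib.MP_1ad228_ntF.Trans
import Pool.Agent.Lib.MP_1ad228_ntF.Vals
import Pool.Agent.Lib.MP_219881_nt.CntPairs

/-!
JOB N1.  Upper bound for the number of tensors vanishing at one test point.
(Model: Lib/MP_219881_nt/N1.lean)

PROOF.  `P = A B^d/(2 q^d)`. For every integer `v` with `|v| ≤ P` there is an integer tensor with value
`v` at `x` (`val1`, `GG_uni`), so by `pre1` one with entries at most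
`P q^d/B^d + d n (n+1)^d H ≤ A/2 + A/2 = A` (`2 d n (n+1)^d H ≤ 8 cc H ≤ A`, `cc n d = d^2 n^2 (n+1)^d`, `n, d ≥ 1`).
`cntInt` gives `S` with at least `P` elements, `trans1` gives
`P * n1 d x A ≤ (4A+1)^((n+1)^d) ≤ (5A)^((n+1)^d)` (`A ≥ 1`). Divide by `P > 0`.
-/

namespace Pool.Agent.Lib.MP_1ad228_ntF

open Classical

private theorem N1_aux (c n A K : ℕ) (P : ℝ) (hA1 : (1 : ℝ) ≤ A) (hS2 : P ≤ (c : ℝ))
    (h2 : c * n ≤ (4 * A + 1) ^ K) : P * (n : ℝ) ≤ (5 * (A : ℝ)) ^ K := by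
  have h3 : (c : ℝ) * (n : ℝ) ≤ (4 * (A : ℝ) + 1) ^ K := by exact_mod_cast h2
  calc P * (n : ℝ) ≤ (c : ℝ) * (n : ℝ) := mul_le_mul_of_nonneg_right hS2 (Nat.cast_nonneg _)
    _ ≤ (4 * (A : ℝ) + 1) ^ K := h3
    _ ≤ (5 * (A : ℝ)) ^ K := pow_le_pow_left₀ (by positivity) (by linarith) K

theorem N1 {n : ℕ} (hn : 1 ≤ n) (d : ℕ) (hd : 1 ≤ d) (B H q A : ℕ) (o : Fin (n + 1)) (hB : 1 ≤ B)
    (hq : 1 ≤ q) (hA1 : 1 ≤ A) (hA : 8 * cc n d * H ≤ A) (x : Vc n ℤ) (hx : x ∈ GG B H q o) :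
    (n1 d x A : ℝ) ≤ (5 * (A : ℝ)) ^ (n + 1) ^ d *
      (2 * (q : ℝ) ^ d / ((A : ℝ) * (B : ℝ) ^ d)) := by
  have hB0 : (0 : ℝ) < B := by exact_mod_cast hB
  have hq0 : (0 : ℝ) < q := by exact_mod_cast hq
  have hA1' : (1 : ℝ) ≤ A := by exact_mod_cast hA1
  have hH : (d : ℝ) * n * (n + 1) ^ d * (H : ℝ) ≤ (A : ℝ) / 2 := by
    have h0 : 1 ≤ d * n := Nat.mul_pos hd hn
    have h1 : d * n * (n + 1) ^ d * H ≤ cc n d * H := by
      apply Nat.mul_le_mul_right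
      unfold cc
      apply Nat.mul_le_mul_right
      calc d * n = (d * n) * 1 := (mul_one _).symm
        _ ≤ (d * n) * (d * n) := Nat.mul_le_mul_left _ h0
        _ = d ^ 2 * n ^ 2 := by ring
    have h2 : 2 * (d * n * (n + 1) ^ d * H) ≤ A := by
      calc 2 * (d * n * (n + 1) ^ d * H) ≤ 2 * (cc n d * H) := Nat.mul_le_mul_left _ h1
        _ ≤ 8 * (cc n d * H) := Nat.mul_le_mul_right _ (by norm_num)
        _ = 8 * cc n d * H := by ring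
        _ ≤ A := hA
    have h3 : (2 : ℝ) * (d * n * (n + 1) ^ d * H) ≤ A := by exact_mod_cast h2
    linarith
  obtain ⟨P, hP⟩ : ∃ P : ℝ, P = (A : ℝ) * (B : ℝ) ^ d / (2 * (q : ℝ) ^ d) := ⟨_, rfl⟩
  have hP0 : 0 < P := by
    rw [hP]
    positivity
  obtain ⟨S, hS1, hS2⟩ := Pool.Agent.Lib.MP_219881_nt.cntInt P hP0.le
  have h1 : ∀ v ∈ S, ∃ a ∈ Box n d A, ev a x = v := by
    intro v hv
    obtain ⟨a, ha⟩ := val1 d x (Pool.Agent.Lib.MP_219881_nt.GG_uni hx) v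
    obtain ⟨a', ha1, ha2⟩ := pre1 B H q o hB hq x hx a
    refine ⟨a', mem_Box.2 fun s => ?_, ha1.trans ha⟩
    have h2 := ha2 s
    rw [ha] at h2
    have h3 : |(v : ℝ)| * ((q : ℝ) ^ d / (B : ℝ) ^ d) ≤ (A : ℝ) / 2 := by
      calc |(v : ℝ)| * ((q : ℝ) ^ d / (B : ℝ) ^ d) ≤ P * ((q : ℝ) ^ d / (B : ℝ) ^ d) := by
            gcongr
            exact hS1 v hv
        _ = (A : ℝ) / 2 := by
            rw [hP]
            field_simp
    have h4 : |(a' s : ℝ)| ≤ (A : ℝ) := by linarith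
    exact_mod_cast h4
  have h4 := N1_aux S.card (n1 d x A) A ((n + 1) ^ d) P hA1' hS2 (trans1 d S x A h1)
  have h5 : 2 * (q : ℝ) ^ d / ((A : ℝ) * (B : ℝ) ^ d) = 1 / P := by
    rw [hP, one_div_div]
  rw [h5, mul_one_div, le_div_iff₀ hP0, mul_comm]
  exact h4

end Pool.Agent.Lib.MP_1ad228_ntF
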