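import Pool.Agent.Lib.MP_1ad228_ntF.CN_Low
import Pool.Agent.Lib.MP_1ad228_ntF.CoverC
import Pool.Agent.Lib.MP_1ad228_ntF.N1
import Pool.Agent.Lib.MP_1ad228_ntF.B_Bad

/-!
JOB B_Mk.  Average over the tuples of the number of local points which are not `H`-good.

Write `R(F) = #{x ∈ GG B B q o | ¬ HGood H x ∧ ∀ i, Loc W K A o (F i) x}`. Exchanging sums
`∑_{F ∈ TBox n d A} R(F) = ∑_{x ∈ GG B B q o, ¬ HGood H x} ∏ i, #{a ∈ Box n (d i) A | Loc W K A o a x}`
(`TBox` is a `piFinset`: the filter of a `piFinset` by `∀ i, P i (F i)` is the `piFinset` of the filters; `Fintype.card_piFinset`).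
`locCnt`: for `x ∈ GG B H' q o` and `8 cc H' ≤ A`: `#{a ∈ Box n d A | Loc W K A o a x} ≤ ∑_{m ∈ MS d W K A o x} #{a ∈ Box n d A | ev a x = m}`
(`Loc` implies `ev a x ∈ MS`: `|ev a x| ≤ K |ev a x| ≤ A x_o^d`) `≤ #MS * 2^V * n1 d x A` (`cover1` with `M = 1`) `≤ (3 A B^d/(K W)) 2^V (5A)^V 2 q^d/(A B^d)`
(`muUp`, `N1`) `= (10 A)^V * 6 q^d/(K W)`, `V = (n+1)^d`.
`markB`: a point `x ∈ GG B B q o` with `¬ HGood H x` is either `H'`-good (then it is in `GG B H' q o`, and the product over `i` is at most `(10A)^VV 6^r q^D/(K W)^r`), or not `H'`-good (then the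
product is at most `∏ (2A+1)^((n+1)^(d i)) = (2A+1)^VV ≤ (10 A)^VV`). `8 cc n (d i) H' ≤ 8 CC n d H' ≤ A` (`cc_le_CC` in Trans.lean), `K W ≤ A B ≤ A B^(d i)`.
-/

namespace Pool.Agent.Lib.MP_1ad228_ntF

open Classical

theorem locCnt {n : ℕ} (hn : 1 ≤ n) (d : ℕ) (hd : 1 ≤ d) (B H' q A K W : ℕ) (o : Fin (n + 1))
    (hB : 1 ≤ B) (hq : 1 ≤ q) (hA1 : 1 ≤ A) (hK : 1 ≤ K) (hW : 1 ≤ W) (hKW : K * W ≤ A * B)
    (hA : 8 * cc n d * H' ≤ A) (x : Vc n ℤ) (hx : x ∈ GG B H' q o) :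
    (((Box n d A).filter fun a => Loc W K A o a x).card : ℝ) ≤
      (10 * (A : ℝ)) ^ (n + 1) ^ d * (6 * (q : ℝ) ^ d / (K * W)) := by
  have hB0 : (0 : ℝ) < B := by exact_mod_cast hB
  have hA0 : (0 : ℝ) < A := by exact_mod_cast hA1
  have hK0 : (0 : ℝ) < K := by exact_mod_cast hK
  have hW0 : (0 : ℝ) < W := by exact_mod_cast hW
  have hxo : 0 < x o := Pool.Agent.Lib.MP_219881_nt.GG_pos hB hx
  have hxV : x ∈ VBox n B := (Finset.mem_filter.1 hx).1
  have hsub : ((Box n d A).filter fun a => Loc W K A o a x) ⊆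
      (MS d W K A o x).biUnion fun m => (Box n d A).filter fun a => ev a x = m := by
    intro a ha
    rw [Finset.mem_filter] at ha
    obtain ⟨ha1, ha2, ha3⟩ := ha
    rw [Finset.mem_biUnion]
    refine ⟨ev a x, ?_, Finset.mem_filter.2 ⟨ha1, rfl⟩⟩
    have hK1 : (1 : ℤ) ≤ K := by exact_mod_cast hK
    have h1 : |ev a x| ≤ A * (x o) ^ d := by
      refine le_trans ?_ ha3
      exact le_mul_of_one_le_left (abs_nonneg _) hK1
    unfold MS
    rw [Finset.mem_filter, Finset.mem_Icc]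
    exact ⟨abs_le.1 h1, ha2, ha3⟩
  have h1 : ((Box n d A).filter fun a => Loc W K A o a x).card ≤
      (MS d W K A o x).card * (2 ^ (n + 1) ^ d * n1 d x A) := by
    refine (Finset.card_le_card hsub).trans (Finset.card_biUnion_le.trans ?_)
    refine (Finset.sum_le_card_nsmul _ _ (2 ^ (n + 1) ^ d * n1 d x A) ?_).trans (le_of_eq ?_)
    · intro m _
      have h2 := cover1 d x m 1 A (le_refl 1)
      rw [one_mul, mul_one] at h2
      exact h2
    · rw [smul_eq_mul]
  have hKW' : K * W ≤ A * B ^ d := by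
    refine hKW.trans (Nat.mul_le_mul_left _ ?_)
    exact Nat.le_self_pow (by omega) B
  have h2 := (muUp d W K A B o hW hK hKW' x hxV hxo.le).2
  have h3 := N1 hn d hd B H' q A o hB hq hA1 hA x hx
  have h4 : (((Box n d A).filter fun a => Loc W K A o a x).card : ℝ) ≤
      ((MS d W K A o x).card : ℝ) * (2 ^ (n + 1) ^ d * (n1 d x A : ℝ)) := by
    exact_mod_cast h1
  have h5 : ((MS d W K A o x).card : ℝ) * (2 ^ (n + 1) ^ d * (n1 d x A : ℝ)) ≤
      (3 * A * B ^ d / (K * W)) * (2 ^ (n + 1) ^ d * ((5 * (A : ℝ)) ^ (n + 1) ^ d *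
      (2 * (q : ℝ) ^ d / ((A : ℝ) * (B : ℝ) ^ d)))) := by
    refine mul_le_mul h2 (mul_le_mul_of_nonneg_left h3 (by positivity)) (by positivity)
      (by positivity)
  refine h4.trans (h5.trans (le_of_eq ?_))
  have e1 : (10 * (A : ℝ)) ^ (n + 1) ^ d = 2 ^ (n + 1) ^ d * (5 * (A : ℝ)) ^ (n + 1) ^ d := by
    rw [← mul_pow]
    congr 1
    ring
  rw [e1]
  have hBd : (B : ℝ) ^ d ≠ 0 := pow_ne_zero _ hB0.ne'
  field_simp
  ring

private theorem BMk_prod {n r : ℕ} (d : Fin r → ℕ) (A W K : ℕ) (o : Fin (n + 1)) (x : Vc n ℤ) :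
    ((TBox n d A).filter fun F => ∀ i, Loc W K A o (F i) x).card =
      ∏ i, ((Box n (d i) A).filter fun a => Loc W K A o a x).card := by
  have h1 : ((TBox n d A).filter fun F => ∀ i, Loc W K A o (F i) x) =
      Fintype.piFinset fun i => (Box n (d i) A).filter fun a => Loc W K A o a x := by
    apply Finset.ext
    intro F
    rw [Finset.mem_filter, mem_TBox, Fintype.mem_piFinset]
    constructor
    · intro h i
      exact Finset.mem_filter.2 ⟨h.1 i, h.2 i⟩
    · intro h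
      exact ⟨fun i => (Finset.mem_filter.1 (h i)).1, fun i => (Finset.mem_filter.1 (h i)).2⟩
  rw [h1, Fintype.card_piFinset]

private theorem BMk_VV {n r : ℕ} (d : Fin r → ℕ) (a : ℝ) :
    ∏ i, a ^ (n + 1) ^ d i = a ^ VV n d := by
  unfold VV
  exact Finset.prod_pow_eq_pow_sum _ _ _

theorem markB {n r : ℕ} (hn : 1 ≤ n) (d : Fin r → ℕ) (hd : ∀ i, 1 ≤ d i) (B H H' q A K W : ℕ)
    (o : Fin (n + 1)) (hB : 1 ≤ B) (hq : 1 ≤ q) (hA1 : 1 ≤ A) (hK : 1 ≤ K) (hW : 1 ≤ W)
    (hKW : K * W ≤ A * B) (hA : 8 * CC n d * H' ≤ A) :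
    ∑ F ∈ TBox n d A, (((GG B B q o).filter fun x => ¬ HGood H x ∧
        ∀ i, Loc W K A o (F i) x).card : ℝ) ≤
      (10 * (A : ℝ)) ^ VV n d *
        (6 ^ r * (q : ℝ) ^ (∑ i, d i) / ((K : ℝ) * W) ^ r *
          (((VBox n B).filter fun x => ¬ HGood H x).card : ℝ) +
          (((VBox n B).filter fun x => ¬ HGood H' x).card : ℝ)) := by
  have hA0 : (0 : ℝ) < A := by exact_mod_cast hA1
  have hA1' : (1 : ℝ) ≤ A := by exact_mod_cast hA1
  have hK0 : (0 : ℝ) < K := by exact_mod_cast hK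
  have hW0 : (0 : ℝ) < W := by exact_mod_cast hW
  set X : Finset (Vc n ℤ) := (GG B B q o).filter fun x => ¬ HGood H x with hX
  set C1 : ℝ := 6 ^ r * (q : ℝ) ^ (∑ i, d i) / ((K : ℝ) * W) ^ r with hC1
  have hC10 : 0 ≤ C1 := by positivity
  have hE0 : (0 : ℝ) ≤ (10 * (A : ℝ)) ^ VV n d := by positivity
  have key : ∀ x ∈ X, (((TBox n d A).filter fun F => ∀ i, Loc W K A o (F i) x).card : ℝ) ≤
      (10 * (A : ℝ)) ^ VV n d * (C1 + if ¬ HGood H' x then 1 else 0) := by
    intro x hx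
    have hx1 : x ∈ GG B B q o := (Finset.mem_filter.1 hx).1
    rw [BMk_prod, Nat.cast_prod]
    by_cases hg : HGood H' x
    · have hx2 : x ∈ GG B H' q o := by
        unfold GG at hx1 ⊢
        rw [Finset.mem_filter] at hx1 ⊢
        exact ⟨hx1.1, hx1.2.1, hx1.2.2.1, hg⟩
      rw [if_neg (not_not.2 hg), add_zero]
      have h1 : ∏ i, (((Box n (d i) A).filter fun a => Loc W K A o a x).card : ℝ) ≤
          ∏ i, ((10 * (A : ℝ)) ^ (n + 1) ^ d i * (6 * (q : ℝ) ^ d i / (K * W))) := by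
        refine Finset.prod_le_prod (fun i _ => Nat.cast_nonneg _) fun i _ => ?_
        refine locCnt hn (d i) (hd i) B H' q A K W o hB hq hA1 hK hW hKW ?_ x hx2
        refine le_trans ?_ hA
        exact Nat.mul_le_mul_right _ (Nat.mul_le_mul_left _ (cc_le_CC n d i))
      refine h1.trans (le_of_eq ?_)
      rw [Finset.prod_mul_distrib, BMk_VV, hC1, Finset.prod_div_distrib, Finset.prod_mul_distrib,
        Finset.prod_const, Finset.prod_const, Finset.card_univ, Fintype.card_fin,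
        Finset.prod_pow_eq_pow_sum]
    · rw [if_pos hg]
      have h1 : ∏ i, (((Box n (d i) A).filter fun a => Loc W K A o a x).card : ℝ) ≤
          ∏ i, (10 * (A : ℝ)) ^ (n + 1) ^ d i := by
        refine Finset.prod_le_prod (fun i _ => Nat.cast_nonneg _) fun i _ => ?_
        have h2 : ((Box n (d i) A).filter fun a => Loc W K A o a x).card ≤
            (2 * A + 1) ^ (n + 1) ^ d i := by
          rw [← card_Box]
          exact Finset.card_le_card (Finset.filter_subset _ _)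
        have h3 : (((Box n (d i) A).filter fun a => Loc W K A o a x).card : ℝ) ≤
            (2 * (A : ℝ) + 1) ^ (n + 1) ^ d i := by exact_mod_cast h2
        refine h3.trans ?_
        exact pow_le_pow_left₀ (by positivity) (by linarith) _
      rw [BMk_VV] at h1
      refine h1.trans ?_
      exact le_mul_of_one_le_right hE0 (by linarith)
  have e1 : ∀ F ∈ TBox n d A, (((GG B B q o).filter fun x => ¬ HGood H x ∧
      ∀ i, Loc W K A o (F i) x).card : ℝ) =
      ∑ x ∈ X, (if ∀ i, Loc W K A o (F i) x then (1 : ℝ) else 0) := by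
    intro F _
    rw [hX, Finset.sum_boole, Finset.filter_filter]
  have e2 : ∀ x ∈ X, ∑ F ∈ TBox n d A, (if ∀ i, Loc W K A o (F i) x then (1 : ℝ) else 0) =
      (((TBox n d A).filter fun F => ∀ i, Loc W K A o (F i) x).card : ℝ) := by
    intro x _
    rw [Finset.sum_boole]
  rw [Finset.sum_congr rfl e1, Finset.sum_comm, Finset.sum_congr rfl e2]
  refine (Finset.sum_le_sum key).trans ?_
  rw [← Finset.mul_sum, Finset.sum_add_distrib, Finset.sum_const, nsmul_eq_mul, Finset.sum_boole]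
  refine mul_le_mul_of_nonneg_left ?_ hE0
  have hXV : X ⊆ (VBox n B).filter fun x => ¬ HGood H x := by
    intro x hx
    rw [hX, Finset.mem_filter] at hx
    exact Finset.mem_filter.2 ⟨(Finset.mem_filter.1 hx.1).1, hx.2⟩
  have hXV' : (X.filter fun x => ¬ HGood H' x) ⊆ (VBox n B).filter fun x => ¬ HGood H' x := by
    intro x hx
    rw [Finset.mem_filter] at hx
    exact Finset.mem_filter.2 ⟨(Finset.mem_filter.1 (hXV hx.1)).1, hx.2⟩
  have h1 : (X.card : ℝ) ≤ (((VBox n B).filter fun x => ¬ HGood H x).card : ℝ) := by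
    exact_mod_cast Finset.card_le_card hXV
  have h2 : ((X.filter fun x => ¬ HGood H' x).card : ℝ) ≤
      (((VBox n B).filter fun x => ¬ HGood H' x).card : ℝ) := by
    exact_mod_cast Finset.card_le_card hXV'
  have h3 := mul_le_mul_of_nonneg_left h1 hC10
  rw [mul_comm (X.card : ℝ) C1]
  exact add_le_add h3 h2

end Pool.Agent.Lib.MP_1ad228_ntF
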