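import Pool.Agent.Lib.MP_1ad228_ntF.N2

/-!
JOB B_N2.  Upper bound for two points when `H^2` is only at most a constant times `A` (`lam` = the constant).

PROOF.  `n2 2 x y A ≤ n2 2 x y (lam A)` (the box grows: `mem_Box`, `lam ≥ 1`). `N2` with `lam * A` in place of `A` (`8 cc H^2 ≤ lam A`, `4 q^2 ≤ A ≤ lam A`):
`≤ (5 lam A)^V * (64 (q^2/B^2)^2 (B^2/(q (lam A)^2)) (Dd/Del))` with `V = (n+1)^2`, and `(5 lam A)^V = lam^V (5A)^V`, `1/(lam A)^2 ≤ 1/A^2`.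
-/

namespace Pool.Agent.Lib.MP_1ad228_ntF

open Classical

private theorem B_N2_mono {n : ℕ} (x y : Vc n ℤ) {A A' : ℕ} (h : A ≤ A') : n2 2 x y A ≤ n2 2 x y A' := by
  unfold n2
  refine Finset.card_le_card fun a ha => ?_
  rw [Finset.mem_filter] at ha ⊢
  refine ⟨mem_Box.2 fun s => (mem_Box.1 ha.1 s).trans ?_, ha.2⟩
  exact_mod_cast h

theorem N2B {n : ℕ} (B H q A lam : ℕ) (o : Fin (n + 1)) (hB : 1 ≤ B) (hq : 1 ≤ q)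
    (hl : 1 ≤ lam) (hA : 8 * cc n 2 * H ^ 2 ≤ lam * A) (hA' : 4 * q ^ 2 ≤ A) (x y : Vc n ℤ)
    (hx : x ∈ GG B H q o) (hy : y ∈ GG B H q o) (hxy : x ≠ y) :
    (n2 2 x y A : ℝ) ≤ (lam : ℝ) ^ (n + 1) ^ 2 * ((5 * (A : ℝ)) ^ (n + 1) ^ 2 *
      (64 * ((q : ℝ) ^ 2 / (B : ℝ) ^ 2) ^ 2 * ((B : ℝ) ^ 2 / ((q : ℝ) * (A : ℝ) ^ 2)) *
        ((Dd x y : ℝ) / (Del o x y : ℝ)))) := by
  have hAl : A ≤ lam * A := Nat.le_mul_of_pos_left A hl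
  have h1 : (n2 2 x y A : ℝ) ≤ (n2 2 x y (lam * A) : ℝ) := by exact_mod_cast B_N2_mono x y hAl
  have h2 := N2 2 le_rfl B H q (lam * A) o hB hq hA (hA'.trans hAl) x y hx hy hxy
  refine (h1.trans h2).trans ?_
  have hq2 : 1 ≤ q ^ 2 := Nat.one_le_pow _ _ hq
  have hA1 : 1 ≤ A := by omega
  have qR : (0 : ℝ) < (q : ℝ) := by exact_mod_cast hq
  have AR : (0 : ℝ) < (A : ℝ) := by exact_mod_cast hA1
  have lR : (1 : ℝ) ≤ (lam : ℝ) := by exact_mod_cast hl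
  have e1 : (5 * ((lam * A : ℕ) : ℝ)) ^ (n + 1) ^ 2 = (lam : ℝ) ^ (n + 1) ^ 2 * (5 * (A : ℝ)) ^ (n + 1) ^ 2 := by
    rw [← mul_pow]
    congr 1
    push_cast
    ring
  rw [e1, mul_assoc]
  have h3 : (B : ℝ) ^ 2 / ((q : ℝ) * ((lam * A : ℕ) : ℝ) ^ 2) ≤ (B : ℝ) ^ 2 / ((q : ℝ) * (A : ℝ) ^ 2) := by
    refine div_le_div_of_nonneg_left (by positivity) (by positivity) ?_
    refine mul_le_mul_of_nonneg_left (pow_le_pow_left₀ AR.le ?_ 2) qR.le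
    exact_mod_cast hAl
  have h4 : (0 : ℝ) ≤ 64 * ((q : ℝ) ^ 2 / (B : ℝ) ^ 2) ^ 2 := by positivity
  have h5 : (0 : ℝ) ≤ (Dd x y : ℝ) / (Del o x y : ℝ) := by positivity
  refine mul_le_mul_of_nonneg_left (mul_le_mul_of_nonneg_left (mul_le_mul_of_nonneg_right
    (mul_le_mul_of_nonneg_left h3 h4) h5) (by positivity)) (by positivity)

end Pool.Agent.Lib.MP_1ad228_ntF
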