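import Pool.Agent.Lib.MP_1ad228_ntF.Slice

/-!
JOB EEle.  Trivial bound for the contribution of a pair.
(Model: Lib/MP_219881_nt/EEle.lean)

PROOF.  For every `i`, with `C i = 4^((n+1)^(d i)) * n2 (d i) x y A` every slice is in `[0, C i]` (`sl_nonneg`,
`sl_le`), so the averages `TT`, `TS` are in `[0, C i]` (also when the set `MS` is empty: then it is 0), and the
double average `UU` too: these are `sl_mem`, `TT_mem`, `TS_mem`, `UU_mem` (with an arbitrary constant `C` bounding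
all slices).
`EE = ∏ S_i - ∏ T_i - ∏ T'_i + ∏ U_i` with all four products in `[0, ∏ C i]` (`Finset.prod_nonneg`,
`Finset.prod_le_prod`), so `|EE| ≤ 2 ∏ C i`, and `∏ i, 4^((n+1)^(d i)) = 4^(VV n d)`
(`Finset.prod_pow_eq_pow_sum`, `Finset.prod_mul_distrib`). `n2_self`: `n2 d x x A = n1 d x A`.
-/

namespace Pool.Agent.Lib.MP_1ad228_ntF

open Classical

private theorem EEle_avg (s : Finset ℤ) (f : ℤ → ℝ) {C : ℝ} (hC : 0 ≤ C)
    (h0 : ∀ m, 0 ≤ f m) (h1 : ∀ m, f m ≤ C) :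
    0 ≤ (1 / (s.card : ℝ)) * ∑ m ∈ s, f m ∧ (1 / (s.card : ℝ)) * ∑ m ∈ s, f m ≤ C := by
  have hs : 0 ≤ ∑ m ∈ s, f m := Finset.sum_nonneg fun m _ => h0 m
  refine ⟨mul_nonneg (by positivity) hs, ?_⟩
  rcases Nat.eq_zero_or_pos s.card with hc | hc
  · rw [hc, Nat.cast_zero, div_zero, zero_mul]
    exact hC
  · have hc' : (0 : ℝ) < (s.card : ℝ) := by exact_mod_cast hc
    rw [one_div, inv_mul_le_iff₀ hc']
    calc ∑ m ∈ s, f m ≤ ∑ _m ∈ s, C := Finset.sum_le_sum fun m _ => h1 m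
      _ = (s.card : ℝ) * C := by rw [Finset.sum_const, nsmul_eq_mul]

theorem TT_mem {n : ℕ} (d : ℕ) (o : Fin (n + 1)) (W K A : ℕ) (x y : Vc n ℤ) (C : ℝ)
    (hC : ∀ m m', sl d A x y m m' ≤ C) :
    0 ≤ TT d o W K A x y ∧ TT d o W K A x y ≤ C := by
  have h0 : ∀ m m', 0 ≤ sl d A x y m m' := fun m m' => sl_nonneg d A x y m m'
  exact EEle_avg _ (fun m => sl d A x y m 0) ((h0 0 0).trans (hC 0 0)) (fun m => h0 m 0)
    (fun m => hC m 0)

theorem TS_mem {n : ℕ} (d : ℕ) (o : Fin (n + 1)) (W K A : ℕ) (x y : Vc n ℤ) (C : ℝ)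
    (hC : ∀ m m', sl d A x y m m' ≤ C) :
    0 ≤ TS d o W K A x y ∧ TS d o W K A x y ≤ C := by
  have h0 : ∀ m m', 0 ≤ sl d A x y m m' := fun m m' => sl_nonneg d A x y m m'
  exact EEle_avg _ (fun m' => sl d A x y 0 m') ((h0 0 0).trans (hC 0 0)) (fun m' => h0 0 m')
    (fun m' => hC 0 m')

theorem UU_mem {n : ℕ} (d : ℕ) (o : Fin (n + 1)) (W K A : ℕ) (x y : Vc n ℤ) (C : ℝ)
    (hC : ∀ m m', sl d A x y m m' ≤ C) :
    0 ≤ UU d o W K A x y ∧ UU d o W K A x y ≤ C := by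
  have h0 : ∀ m m', 0 ≤ sl d A x y m m' := fun m m' => sl_nonneg d A x y m m'
  have hC0 : 0 ≤ C := (h0 0 0).trans (hC 0 0)
  have e2 : UU d o W K A x y =
      (1 / ((MS d W K A o x).card : ℝ)) * ∑ m ∈ MS d W K A o x,
        ((1 / ((MS d W K A o y).card : ℝ)) * ∑ m' ∈ MS d W K A o y, sl d A x y m m') := by
    unfold UU
    rw [← Finset.mul_sum]
    ring
  rw [e2]
  refine EEle_avg _ (fun m => (1 / ((MS d W K A o y).card : ℝ)) *
      ∑ m' ∈ MS d W K A o y, sl d A x y m m') hC0 (fun m => ?_) (fun m => ?_)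
  · exact (EEle_avg _ (fun m' => sl d A x y m m') hC0 (fun m' => h0 m m') (fun m' => hC m m')).1
  · exact (EEle_avg _ (fun m' => sl d A x y m m') hC0 (fun m' => h0 m m') (fun m' => hC m m')).2

private theorem EEle_prod {r : ℕ} (a C : Fin r → ℝ) (h : ∀ i, 0 ≤ a i ∧ a i ≤ C i) :
    0 ≤ ∏ i, a i ∧ ∏ i, a i ≤ ∏ i, C i :=
  ⟨Finset.prod_nonneg fun i _ => (h i).1, Finset.prod_le_prod (fun i _ => (h i).1) fun i _ => (h i).2⟩

theorem EEle {n r : ℕ} (d : Fin r → ℕ) (o : Fin (n + 1)) (W K A : ℕ) (x y : Vc n ℤ) :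
    |EE d o W K A x y| ≤ 2 * 4 ^ VV n d * ∏ i, (n2 (d i) x y A : ℝ) := by
  obtain ⟨C, hC⟩ : ∃ C : Fin r → ℝ, ∀ i, C i = 4 ^ (n + 1) ^ (d i) * (n2 (d i) x y A : ℝ) :=
    ⟨fun i => 4 ^ (n + 1) ^ (d i) * (n2 (d i) x y A : ℝ), fun i => rfl⟩
  have h1 : ∀ i m m', sl (d i) A x y m m' ≤ C i := fun i m m' => by
    rw [hC]
    exact sl_le (d i) A x y m m'
  have eP : ∏ i, C i = 4 ^ VV n d * ∏ i, (n2 (d i) x y A : ℝ) := by
    have e : ∏ i, C i = ∏ i, ((4 : ℝ) ^ (n + 1) ^ (d i) * (n2 (d i) x y A : ℝ)) :=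
      Finset.prod_congr rfl fun i _ => hC i
    rw [e, Finset.prod_mul_distrib, Finset.prod_pow_eq_pow_sum]
    rfl
  have e1 : 2 * 4 ^ VV n d * ∏ i, (n2 (d i) x y A : ℝ) = 2 * ∏ i, C i := by
    rw [eP, mul_assoc]
  rw [e1]
  unfold EE
  obtain ⟨a0, a1⟩ := EEle_prod (fun i => sl (d i) A x y 0 0) C
    fun i => ⟨sl_nonneg (d i) A x y 0 0, h1 i 0 0⟩
  obtain ⟨b0, b1⟩ := EEle_prod (fun i => TT (d i) o W K A x y) C
    fun i => TT_mem (d i) o W K A x y (C i) (h1 i)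
  obtain ⟨c0, c1⟩ := EEle_prod (fun i => TS (d i) o W K A x y) C
    fun i => TS_mem (d i) o W K A x y (C i) (h1 i)
  obtain ⟨d0, d1⟩ := EEle_prod (fun i => UU (d i) o W K A x y) C
    fun i => UU_mem (d i) o W K A x y (C i) (h1 i)
  rw [abs_le]
  constructor <;> linarith

theorem n2_self {n : ℕ} (d : ℕ) (x : Vc n ℤ) (A : ℕ) : n2 d x x A = n1 d x A := by
  unfold n2 n1
  congr 1
  ext a
  simp only [Finset.mem_filter, and_self]

end Pool.Agent.Lib.MP_1ad228_ntF
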