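import Pool.Agent.Lib.MP_1ad228_ntF.Pre
import Pool.Agent.Lib.MP_1ad228_ntF.Trans
import Pool.Agent.Lib.MP_1ad228_ntF.Vals
import Pool.Agent.Lib.MP_219881_nt.CntPairs

/-!
JOB N2.  Upper bound for the number of tensors vanishing at two test points.
(Model: Lib/MP_219881_nt/N2.lean)

PROOF.  `D = Dd x y ≥ 1`, `Δ = Del o x y ≥ 1` (`Del_pos`, `Dd_pos`), `D ≤ Δ` (`Dd_le_Del`).
`P = A B^d/(8 q^d)`, `R = (A/8) (B^d/q^d) (q Δ/B^2)`. For every integer `m'` there is an integer tensor `v(m')`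
with value `m'` at `y` (`val1`, `GG_uni hy`); let `m1 m'` be its value at `x`, `c m' = m' x_o^d/y_o^d`.
Adding `t` times the tensor of `valD` (value 0 at `y`, `D` at `x`) all pairs of values
`(m1 m' + t D, m')` are attained by integer tensors. If `|m'| ≤ P` and `|m - c m'| ≤ R` then by `pre2`
there is one with entries at most `A/8 + A/8 + cc H^2 ≤ A/4 + A/4 ≤ A` (`8 cc H^2 ≤ A`).
`D ≤ 2R`: `2 R = (A Δ/4) B^(d-2) q/q^d ≥ Δ ≥ D` because `B ≥ 1`, `q ≥ 1` and `4 q^d ≤ A`. `cntPairs` gives `S` with at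
least `P R/D` elements, `trans2` gives `(P R/D) * n2 d x y A ≤ (4A+1)^((n+1)^d) ≤ (5A)^((n+1)^d)`;
`P R / D = (A^2/64) (B^d/q^d)^2 (q/B^2) (Δ/D)`.
-/

namespace Pool.Agent.Lib.MP_1ad228_ntF

open Classical

theorem N2 {n : ℕ} (d : ℕ) (hd : 2 ≤ d) (B H q A : ℕ) (o : Fin (n + 1)) (hB : 1 ≤ B) (hq : 1 ≤ q)
    (hA : 8 * cc n d * H ^ 2 ≤ A) (hA' : 4 * q ^ d ≤ A) (x y : Vc n ℤ) (hx : x ∈ GG B H q o)
    (hy : y ∈ GG B H q o) (hxy : x ≠ y) :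
    (n2 d x y A : ℝ) ≤ (5 * (A : ℝ)) ^ (n + 1) ^ d *
      (64 * ((q : ℝ) ^ d / (B : ℝ) ^ d) ^ 2 * ((B : ℝ) ^ 2 / ((q : ℝ) * (A : ℝ) ^ 2)) *
        ((Dd x y : ℝ) / (Del o x y : ℝ))) := by
  have hΔ : 1 ≤ Del o x y := Pool.Agent.Lib.MP_219881_nt.Del_pos hB hx hy hxy
  have hD : 1 ≤ Dd x y := Pool.Agent.Lib.MP_219881_nt.Dd_pos o x y hΔ
  have hDΔ : Dd x y ≤ Del o x y := Pool.Agent.Lib.MP_219881_nt.Dd_le_Del o x y hΔ
  have hqd : 1 ≤ q ^ d := Nat.one_le_pow _ _ hq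
  have hA1 : 1 ≤ A := by omega
  choose tv htv using fun m' : ℤ => val1 d y (Pool.Agent.Lib.MP_219881_nt.GG_uni hy) m'
  obtain ⟨w, hwy, hwx⟩ := valD d (by omega) x y (Pool.Agent.Lib.MP_219881_nt.GG_uni hx)
  have bR : (0 : ℝ) < (B : ℝ) := by exact_mod_cast hB
  have qR : (0 : ℝ) < (q : ℝ) := by exact_mod_cast hq
  have AR : (0 : ℝ) < (A : ℝ) := by exact_mod_cast hA1
  have DR : (0 : ℝ) < (Dd x y : ℝ) := by exact_mod_cast hD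
  have ΔR : (0 : ℝ) < (Del o x y : ℝ) := by exact_mod_cast hΔ
  have DΔR : (Dd x y : ℝ) ≤ (Del o x y : ℝ) := by exact_mod_cast hDΔ
  have qdR : (0 : ℝ) < (q : ℝ) ^ d := pow_pos qR d
  have bdR : (0 : ℝ) < (B : ℝ) ^ d := pow_pos bR d
  obtain ⟨P, hPdef⟩ : ∃ P : ℝ, P = (A : ℝ) * (B : ℝ) ^ d / (8 * (q : ℝ) ^ d) := ⟨_, rfl⟩
  obtain ⟨R, hRdef⟩ : ∃ R : ℝ, R = (A : ℝ) * (B : ℝ) ^ d / (8 * (q : ℝ) ^ d) *
    ((q : ℝ) * (Del o x y : ℝ) / (B : ℝ) ^ 2) := ⟨_, rfl⟩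
  have hP : 0 ≤ P := by
    rw [hPdef]
    positivity
  have hRp : 0 < R := by
    rw [hRdef]
    positivity
  have hPp : 0 < P := by
    rw [hPdef]
    positivity
  have hR : (Dd x y : ℝ) ≤ 2 * R := by
    have h1 : (4 : ℝ) * (q : ℝ) ^ d ≤ (A : ℝ) := by exact_mod_cast hA'
    have hB2 : (B : ℝ) ^ 2 ≤ (B : ℝ) ^ d := pow_le_pow_right₀ (by exact_mod_cast hB) hd
    have hq1 : (1 : ℝ) ≤ (q : ℝ) := by exact_mod_cast hq
    have h2 : (Del o x y : ℝ) ≤ 2 * R := by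
      rw [hRdef, div_mul_div_comm, ← mul_div_assoc, le_div_iff₀ (by positivity)]
      have h3 : (4 * (q : ℝ) ^ d) * (B : ℝ) ^ 2 ≤ (A : ℝ) * (B : ℝ) ^ d :=
        mul_le_mul h1 hB2 (by positivity) AR.le
      have h4 : (4 * (q : ℝ) ^ d) * (B : ℝ) ^ 2 * 1 ≤ (A : ℝ) * (B : ℝ) ^ d * (q : ℝ) :=
        mul_le_mul h3 hq1 zero_le_one (by positivity)
      have h5 := mul_le_mul_of_nonneg_left h4 (mul_nonneg zero_le_two ΔR.le)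
      calc (Del o x y : ℝ) * (8 * (q : ℝ) ^ d * (B : ℝ) ^ 2)
          = 2 * (Del o x y : ℝ) * ((4 * (q : ℝ) ^ d) * (B : ℝ) ^ 2 * 1) := by ring
        _ ≤ 2 * (Del o x y : ℝ) * ((A : ℝ) * (B : ℝ) ^ d * (q : ℝ)) := h5
        _ = 2 * ((A : ℝ) * (B : ℝ) ^ d * ((q : ℝ) * (Del o x y : ℝ))) := by ring
    linarith
  obtain ⟨S, hS, hcard⟩ := Pool.Agent.Lib.MP_219881_nt.cntPairs P R hP (Dd x y) hD hR
    (fun m' => (m' : ℝ) * (x o : ℝ) ^ d / (y o : ℝ) ^ d) (fun m' => ev (tv m') x)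
  have hbox : ∀ v ∈ S, ∃ a ∈ Box n d A, ev a x = v.1 ∧ ev a y = v.2 := by
    intro v hv
    obtain ⟨h1, h2, t, ht⟩ := hS v hv
    obtain ⟨a', e1, e2, e3⟩ := pre2 hd B H q o hB hq x y hx hy hxy (tv v.2 + t • w)
    have f1 : ev (tv v.2 + t • w) x = v.1 := by
      rw [ev_add, ev_smul', hwx, ht]
    have f2 : ev (tv v.2 + t • w) y = v.2 := by
      rw [ev_add, ev_smul', hwy, htv, mul_zero, add_zero]
    rw [f1] at e1 e3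
    rw [f2] at e2 e3
    refine ⟨a', mem_Box.2 ?_, e1, e2⟩
    intro s
    have h3 := e3 s
    have h4 : |((v.2 : ℤ) : ℝ)| * ((q : ℝ) ^ d / (B : ℝ) ^ d) ≤ (A : ℝ) / 8 := by
      calc |((v.2 : ℤ) : ℝ)| * ((q : ℝ) ^ d / (B : ℝ) ^ d) ≤ P * ((q : ℝ) ^ d / (B : ℝ) ^ d) :=
            mul_le_mul_of_nonneg_right h1 (by positivity)
        _ = (A : ℝ) / 8 := by
            rw [hPdef]
            field_simp
    have h5 : |((v.1 : ℤ) : ℝ) - ((v.2 : ℤ) : ℝ) * (x o : ℝ) ^ d / (y o : ℝ) ^ d| *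
        ((q : ℝ) ^ d / (B : ℝ) ^ d) * ((B : ℝ) ^ 2 / ((q : ℝ) * (Del o x y : ℝ))) ≤ (A : ℝ) / 8 := by
      rw [mul_assoc]
      calc |((v.1 : ℤ) : ℝ) - ((v.2 : ℤ) : ℝ) * (x o : ℝ) ^ d / (y o : ℝ) ^ d| *
          (((q : ℝ) ^ d / (B : ℝ) ^ d) * ((B : ℝ) ^ 2 / ((q : ℝ) * (Del o x y : ℝ))))
          ≤ R * (((q : ℝ) ^ d / (B : ℝ) ^ d) * ((B : ℝ) ^ 2 / ((q : ℝ) * (Del o x y : ℝ)))) :=
            mul_le_mul_of_nonneg_right h2 (by positivity)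
        _ = (A : ℝ) / 8 := by
            rw [hRdef]
            field_simp
    have h6 : (cc n d : ℝ) * (H : ℝ) ^ 2 ≤ (A : ℝ) / 8 := by
      have h7 : (8 : ℝ) * (cc n d : ℝ) * (H : ℝ) ^ 2 ≤ (A : ℝ) := by exact_mod_cast hA
      linarith
    have h8 : |(a' s : ℝ)| ≤ (A : ℝ) := by linarith
    have h9 : ((|a' s| : ℤ) : ℝ) ≤ ((A : ℤ) : ℝ) := by
      rw [Int.cast_abs, Int.cast_natCast]
      exact h8
    exact_mod_cast h9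
  have htr := trans2 d S x y A hbox
  have htrR : (S.card : ℝ) * (n2 d x y A : ℝ) ≤ (4 * (A : ℝ) + 1) ^ (n + 1) ^ d := by
    exact_mod_cast htr
  have h45 : (4 * (A : ℝ) + 1) ^ (n + 1) ^ d ≤ (5 * (A : ℝ)) ^ (n + 1) ^ d := by
    have : (1 : ℝ) ≤ (A : ℝ) := by exact_mod_cast hA1
    exact pow_le_pow_left₀ (by positivity) (by linarith) _
  have hn : (0 : ℝ) ≤ (n2 d x y A : ℝ) := Nat.cast_nonneg _
  have h10 : P * (R / (Dd x y : ℝ)) * (n2 d x y A : ℝ) ≤ (5 * (A : ℝ)) ^ (n + 1) ^ d :=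
    le_trans (mul_le_mul_of_nonneg_right hcard hn) (le_trans htrR h45)
  have hPR : P * (R / (Dd x y : ℝ)) *
      (64 * ((q : ℝ) ^ d / (B : ℝ) ^ d) ^ 2 * ((B : ℝ) ^ 2 / ((q : ℝ) * (A : ℝ) ^ 2)) *
        ((Dd x y : ℝ) / (Del o x y : ℝ))) = 1 := by
    rw [hPdef, hRdef]
    field_simp
    norm_num
  have hPRpos : 0 < P * (R / (Dd x y : ℝ)) := by positivity
  have h11 : (n2 d x y A : ℝ) ≤ (5 * (A : ℝ)) ^ (n + 1) ^ d / (P * (R / (Dd x y : ℝ))) := by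
    rw [le_div_iff₀ hPRpos]
    linarith
  refine le_trans h11 (le_of_eq ?_)
  rw [div_eq_iff hPRpos.ne', mul_assoc, mul_comm _ (P * (R / (Dd x y : ℝ))), hPR, mul_one]

end Pool.Agent.Lib.MP_1ad228_ntF
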