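import Pool.Agent.Lib.MP_1ad228_ntF.N1
import Pool.Agent.Lib.MP_1ad228_ntF.N2

/-!
JOB NP.  Products of the bounds N1 and N2 over the degrees.

PROOF.  `cc_le_CC`, `H ≤ H^2` (`1 ≤ H`), `4 q^(d i) ≤ 4 q^(∑ d) ≤ A` (`Finset.single_le_sum`,
`Nat.pow_le_pow_right`), so `N1` and `N2` apply for every `i`. `Finset.prod_le_prod`, `Finset.prod_mul_distrib`,
`Finset.prod_pow_eq_pow_sum` (for `∏ i, c ^ (n+1)^(d i) = c ^ VV n d` and `∏ i, q ^ d i = q ^ ∑ i, d i`),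
`Finset.prod_const`, `Finset.prod_div_distrib`, `Finset.card_univ`, `Fintype.card_fin`.
-/

namespace Pool.Agent.Lib.MP_1ad228_ntF

open Classical

private theorem NP_cc {n r : ℕ} (d : Fin r → ℕ) (i : Fin r) : cc n (d i) ≤ CC n d :=
  Finset.single_le_sum (f := fun i => cc n (d i)) (fun _ _ => Nat.zero_le _) (Finset.mem_univ i)

private theorem NP_prod_pow {r : ℕ} (c : ℝ) (d : Fin r → ℕ) : ∏ i, c ^ d i = c ^ ∑ i, d i :=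
  Finset.prod_pow_eq_pow_sum _ _ _

theorem NP1 {n r : ℕ} (hn : 1 ≤ n) (d : Fin r → ℕ) (hd : ∀ i, 1 ≤ d i) (B H q A : ℕ)
    (o : Fin (n + 1)) (hB : 1 ≤ B) (hq : 1 ≤ q) (hA1 : 1 ≤ A) (hA : 8 * CC n d * H ≤ A)
    (x : Vc n ℤ) (hx : x ∈ GG B H q o) :
    ∏ i, (n1 (d i) x A : ℝ) ≤ (5 * (A : ℝ)) ^ VV n d *
      (2 ^ r * (q : ℝ) ^ (∑ i, d i) / ((A : ℝ) ^ r * (B : ℝ) ^ (∑ i, d i))) := by
  have h1 : ∀ i, 8 * cc n (d i) * H ≤ A := fun i =>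
    (Nat.mul_le_mul_right _ (Nat.mul_le_mul_left _ (NP_cc d i))).trans hA
  have h2 : ∏ i, (n1 (d i) x A : ℝ) ≤ ∏ i, ((5 * (A : ℝ)) ^ (n + 1) ^ d i *
      (2 * (q : ℝ) ^ d i / ((A : ℝ) * (B : ℝ) ^ d i))) :=
    Finset.prod_le_prod (fun _ _ => Nat.cast_nonneg _)
      fun i _ => N1 hn (d i) (hd i) B H q A o hB hq hA1 (h1 i) x hx
  refine h2.trans (le_of_eq ?_)
  have h3 : ∏ i, (5 * (A : ℝ)) ^ (n + 1) ^ d i = (5 * (A : ℝ)) ^ VV n d :=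
    Finset.prod_pow_eq_pow_sum _ _ _
  rw [Finset.prod_mul_distrib, h3, Finset.prod_div_distrib, Finset.prod_mul_distrib, Finset.prod_mul_distrib,
    NP_prod_pow (q : ℝ) d, NP_prod_pow (B : ℝ) d, Finset.prod_const, Finset.prod_const, Finset.card_univ,
    Fintype.card_fin]

theorem NP2 {n r : ℕ} (d : Fin r → ℕ) (hd : ∀ i, 2 ≤ d i) (B H q A : ℕ) (o : Fin (n + 1))
    (hB : 1 ≤ B) (hq : 1 ≤ q) (hA : 8 * CC n d * H ^ 2 ≤ A) (hA' : 4 * q ^ (∑ i, d i) ≤ A)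
    (x y : Vc n ℤ) (hx : x ∈ GG B H q o) (hy : y ∈ GG B H q o) (hxy : x ≠ y) :
    ∏ i, (n2 (d i) x y A : ℝ) ≤ (5 * (A : ℝ)) ^ VV n d *
      (64 ^ r * ((q : ℝ) ^ (∑ i, d i) / (B : ℝ) ^ (∑ i, d i)) ^ 2 *
        ((B : ℝ) ^ 2 / ((q : ℝ) * (A : ℝ) ^ 2)) ^ r *
        ((Dd x y : ℝ) / (Del o x y : ℝ)) ^ r) := by
  have h1 : ∀ i, 8 * cc n (d i) * H ^ 2 ≤ A := fun i =>
    (Nat.mul_le_mul_right _ (Nat.mul_le_mul_left _ (NP_cc d i))).trans hA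
  have h1' : ∀ i, 4 * q ^ d i ≤ A := fun i =>
    (Nat.mul_le_mul_left _ (Nat.pow_le_pow_right hq
      (Finset.single_le_sum (f := d) (fun _ _ => Nat.zero_le _) (Finset.mem_univ i)))).trans hA'
  have h2 : ∏ i, (n2 (d i) x y A : ℝ) ≤ ∏ i, ((5 * (A : ℝ)) ^ (n + 1) ^ d i *
      (64 * ((q : ℝ) ^ d i / (B : ℝ) ^ d i) ^ 2 * ((B : ℝ) ^ 2 / ((q : ℝ) * (A : ℝ) ^ 2)) *
        ((Dd x y : ℝ) / (Del o x y : ℝ)))) :=
    Finset.prod_le_prod (fun _ _ => Nat.cast_nonneg _)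
      fun i _ => N2 (d i) (hd i) B H q A o hB hq (h1 i) (h1' i) x y hx hy hxy
  refine h2.trans (le_of_eq ?_)
  have h3 : ∏ i, (5 * (A : ℝ)) ^ (n + 1) ^ d i = (5 * (A : ℝ)) ^ VV n d :=
    Finset.prod_pow_eq_pow_sum _ _ _
  rw [Finset.prod_mul_distrib, h3, Finset.prod_mul_distrib, Finset.prod_mul_distrib, Finset.prod_mul_distrib,
    Finset.prod_pow, Finset.prod_div_distrib, NP_prod_pow (q : ℝ) d, NP_prod_pow (B : ℝ) d, Finset.prod_const,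
    Finset.prod_const, Finset.prod_const, Finset.card_univ, Fintype.card_fin]

end Pool.Agent.Lib.MP_1ad228_ntF
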