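import Pool.Agent.Lib.MP_1ad228_ntF.PairSum
import Pool.Agent.Lib.MP_1ad228_ntF.NP
import Pool.Agent.Lib.MP_1ad228_ntF.EEle
import Pool.Agent.Lib.MP_1ad228_ntF.B_N2
import Pool.Agent.Lib.MP_1ad228_ntF.B_Exp
import Pool.Agent.Lib.MP_1ad228_ntF.B_Good
import Pool.Agent.Lib.MP_1ad228_ntF.B_Exc

/-!
JOB B_Var.  The variance in the borderline case. (Model: VarTot.lean.)

PROOF.  `d = fun _ : Fin r => 2`, `V = (n+1)^2`, `VV n d = r V`, `∑ d = 2 r`, `∏ i, n2 (d i) x y A = (n2 2 x y A)^r` (simp with `Finset.prod_const`, `Finset.sum_const`, `Finset.card_univ`,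
`Fintype.card_fin`, `smul_eq_mul`). `E = B^(n+1)/(A^r B^(2r))`. For every `x ∈ GG B H q o` choose a basis `fb x` from `HGood H x` (`GG_good`), `fb x = 0` otherwise. `expandB`:
`QvB = ∑_x ∑_y EEB x y`. Split the pairs into four classes:
(1) `y = x`: `EEleB`, `n2_self`, `NP1`: `|EEB| ≤ 2*4^(rV)*(5A)^(rV)*2^r q^(2r)/(A^r B^(2r))`; sum over `x` (`card_GG_le`): `C1 A^(rV) E` with `C1` depending on `n, r, q` only.
(2) `y ≠ x`, `¬ (Dd ∣ W ∧ B^2 ≤ T^2 Del)`: `EEleB`, `N2B` to the power `r`, `psBad` (with `k = T^2`, `1/T^2 ≤ 1/T`).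
(3) `y ≠ x`, `Dd ∣ W`, `B^2 ≤ T^2 Del`, not exceptional (`¬ ExcP T' (fb x) (fb y)`): `EEgoodB`, `N2B` to the power `r`, `psAll`; total `(66 r V^2/T) * ... * (1 + H^(n+1+r) B^r/B^n)` and `1/T ≤ 1`.
(4) `y ≠ x`, `Dd ∣ W`, `B^2 ≤ T^2 Del`, exceptional: `EEleB`, `N2B` to the power `r`, and `(Dd/Del)^r ≤ (W T^2/B^2)^r` (`Dd ≤ W` since `W ≥ 1`; `1/Del ≤ T^2/B^2`); the number of such pairs is at most
`C3 H^(2n(n+1)-1)` (`excCount`, `n ≥ 3`). The contribution is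
`≤ 2*4^(rV) * (lam^V (5A)^V 64 (q^2/B^2)^2 B^2/(q A^2))^r * (W T^2/B^2)^r * C3 H^(2n(n+1)-1)
 = C2' A^(rV) * (1/(A^(2r) B^(4r))) * (W T^2)^r * C3 H^(2n(n+1)-1)` and `1/(A^(2r) B^(4r)) = E^2/B^(2(n+1))`.
The constant `C2` depends on `n, r, q, lam`, the constant `C3` on `n, q, T'`.
-/

namespace Pool.Agent.Lib.MP_1ad228_ntF

open Classical

private theorem varB_n2pow {r n : ℕ} (B H q A lam : ℕ) (o : Fin (n + 1)) (hB : 1 ≤ B) (hq : 1 ≤ q)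
    (hl : 1 ≤ lam) (hA : 8 * cc n 2 * H ^ 2 ≤ lam * A) (hA' : 4 * q ^ 2 ≤ A) (x y : Vc n ℤ)
    (hx : x ∈ GG B H q o) (hy : y ∈ GG B H q o) (hxy : x ≠ y) :
    (n2 2 x y A : ℝ) ^ r ≤ ((lam : ℝ) ^ (n + 1) ^ 2 * ((5 * (A : ℝ)) ^ (n + 1) ^ 2 *
      (64 * ((q : ℝ) ^ 2 / (B : ℝ) ^ 2) ^ 2 * ((B : ℝ) ^ 2 / ((q : ℝ) * (A : ℝ) ^ 2))))) ^ r *
        ((Dd x y : ℝ) / (Del o x y : ℝ)) ^ r := by
  rw [← mul_pow]
  refine pow_le_pow_left₀ (Nat.cast_nonneg _) ?_ r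
  refine (N2B B H q A lam o hB hq hl hA hA' x y hx hy hxy).trans (le_of_eq ?_)
  ring

private theorem varB_rho {r n : ℕ} (o : Fin (n + 1)) (B T W : ℕ) (hB : 1 ≤ B) (hW : 1 ≤ W)
    (x y : Vc n ℤ) (hd : 1 ≤ Del o x y) (hD : Dd x y ∣ W) (h : B ^ 2 ≤ T ^ 2 * Del o x y) :
    ((Dd x y : ℝ) / (Del o x y : ℝ)) ^ r ≤ (((W : ℝ) * (T : ℝ) ^ 2) / (B : ℝ) ^ 2) ^ r := by
  refine pow_le_pow_left₀ (div_nonneg (Nat.cast_nonneg _) (Nat.cast_nonneg _)) ?_ r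
  have h1 : (Dd x y : ℝ) ≤ (W : ℝ) := by exact_mod_cast Nat.le_of_dvd (by omega) hD
  have h2 : (0 : ℝ) < (Del o x y : ℝ) := by exact_mod_cast hd
  have h3 : (0 : ℝ) < (B : ℝ) ^ 2 := by
    have : (0 : ℝ) < (B : ℝ) := by exact_mod_cast hB
    positivity
  have h4 : (B : ℝ) ^ 2 ≤ (T : ℝ) ^ 2 * (Del o x y : ℝ) := by exact_mod_cast h
  rw [div_le_div_iff₀ h2 h3]
  calc (Dd x y : ℝ) * (B : ℝ) ^ 2 ≤ (W : ℝ) * ((T : ℝ) ^ 2 * (Del o x y : ℝ)) :=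
        mul_le_mul h1 h4 h3.le (Nat.cast_nonneg _)
    _ = (W : ℝ) * (T : ℝ) ^ 2 * (Del o x y : ℝ) := by ring

private theorem varB_row {r : ℕ} (hr : 1 ≤ r) {n : ℕ} (hn : r + 2 ≤ n) (q : ℕ) (hq : 1 ≤ q)
    (C1 C2 : ℝ) (o : Fin (n + 1)) (T T' w B H A W lam : ℕ) (hl : 1 ≤ lam) (hT : 1 ≤ T)
    (hTA : T ≤ A) (hB : 1 ≤ B) (hW : 1 ≤ W)
    (hA3 : 8 * CC n (fun _ : Fin r => 2) * H ≤ A) (hA : 8 * cc n 2 * H ^ 2 ≤ lam * A)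
    (hA' : 4 * q ^ 2 ≤ A) (hTT : (n + 1) ^ 2 * H ^ 2 * T ≤ 2 * A * T')
    (x : Vc n ℤ) (hx : x ∈ GG B H q o) (fb : Vc n ℤ → Fin n → Vc n ℤ)
    (hfb : ∀ x ∈ GG B H q o, LinearIndependent ℤ (fb x) ∧ (∀ s, lin (fb x s) x = 0) ∧
      ∀ s i, |fb x s i| ≤ (H : ℤ))
    (hC1 : ∑ y ∈ (GG B H q o).filter (fun y => y ≠ x), ((Dd x y : ℝ) / (Del o x y : ℝ)) ^ r ≤
      C1 * ((B : ℝ) ^ (n + 1) / (B : ℝ) ^ (2 * r) + (H : ℝ) ^ (n + 1 + r) * ((B : ℝ) / (B : ℝ) ^ r)))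
    (hC2 : ∑ y ∈ (GG B H q o).filter (fun y => y ≠ x ∧ ¬ (Dd x y ∣ W ∧ B ^ 2 ≤ T ^ 2 * Del o x y)),
      ((Dd x y : ℝ) / (Del o x y : ℝ)) ^ r ≤
      C2 * ((B : ℝ) ^ (n + 1) / (B : ℝ) ^ (2 * r) * (1 / ((T ^ 2 : ℕ) : ℝ) + 1 / ((w : ℝ) + 1))
        + (H : ℝ) ^ (n + 1 + r) * ((B : ℝ) / (B : ℝ) ^ r))) :
    ∑ y ∈ GG B H q o, EEB (fun _ : Fin r => 2) o W ((T ^ 2) ^ 2) A x y ≤
      2 * 4 ^ VV n (fun _ : Fin r => 2) * ((5 * (A : ℝ)) ^ VV n (fun _ : Fin r => 2) *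
        (2 ^ r * (q : ℝ) ^ (∑ _i : Fin r, 2) / ((A : ℝ) ^ r * (B : ℝ) ^ (∑ _i : Fin r, 2))))
      + 66 * r * ((n + 1) ^ 2) ^ 2 / (T : ℝ) * (6 ^ (n + 1) ^ 2) ^ r *
          ((lam : ℝ) ^ (n + 1) ^ 2 * ((5 * (A : ℝ)) ^ (n + 1) ^ 2 *
          (64 * ((q : ℝ) ^ 2 / (B : ℝ) ^ 2) ^ 2 * ((B : ℝ) ^ 2 / ((q : ℝ) * (A : ℝ) ^ 2))))) ^ r *
        (C1 * ((B : ℝ) ^ (n + 1) / (B : ℝ) ^ (2 * r) + (H : ℝ) ^ (n + 1 + r) * ((B : ℝ) / (B : ℝ) ^ r)))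
      + 2 * 4 ^ VV n (fun _ : Fin r => 2) *
          ((lam : ℝ) ^ (n + 1) ^ 2 * ((5 * (A : ℝ)) ^ (n + 1) ^ 2 *
          (64 * ((q : ℝ) ^ 2 / (B : ℝ) ^ 2) ^ 2 * ((B : ℝ) ^ 2 / ((q : ℝ) * (A : ℝ) ^ 2))))) ^ r *
        (C2 * ((B : ℝ) ^ (n + 1) / (B : ℝ) ^ (2 * r) * (1 / ((T ^ 2 : ℕ) : ℝ) + 1 / ((w : ℝ) + 1))
          + (H : ℝ) ^ (n + 1 + r) * ((B : ℝ) / (B : ℝ) ^ r)))
      + 2 * 4 ^ VV n (fun _ : Fin r => 2) *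
          ((lam : ℝ) ^ (n + 1) ^ 2 * ((5 * (A : ℝ)) ^ (n + 1) ^ 2 *
          (64 * ((q : ℝ) ^ 2 / (B : ℝ) ^ 2) ^ 2 * ((B : ℝ) ^ 2 / ((q : ℝ) * (A : ℝ) ^ 2))))) ^ r *
        ((((W : ℝ) * (T : ℝ) ^ 2) / (B : ℝ) ^ 2) ^ r *
          ((GG B H q o).filter fun y => ExcP T' (fb x) (fb y)).card) := by
  have hA1 : 1 ≤ A := le_trans hT hTA
  have hBpos : (0 : ℝ) < (B : ℝ) := by exact_mod_cast hB
  have hTpos : (0 : ℝ) < (T : ℝ) := by exact_mod_cast hT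
  set M0 : ℝ := ((lam : ℝ) ^ (n + 1) ^ 2 * ((5 * (A : ℝ)) ^ (n + 1) ^ 2 *
          (64 * ((q : ℝ) ^ 2 / (B : ℝ) ^ 2) ^ 2 * ((B : ℝ) ^ 2 / ((q : ℝ) * (A : ℝ) ^ 2))))) ^ r with hM0
  have hM0' : 0 ≤ M0 := by
    rw [hM0]
    refine pow_nonneg (mul_nonneg (pow_nonneg (Nat.cast_nonneg _) _) (mul_nonneg ?_ ?_)) _
    · exact pow_nonneg (by positivity) _
    · exact mul_nonneg (mul_nonneg (by norm_num) (sq_nonneg _)) (by positivity)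
  have h16 : (0 : ℝ) ≤ 2 * 4 ^ VV n (fun _ : Fin r => 2) :=
    mul_nonneg (by norm_num) (pow_nonneg (by norm_num) _)
  have h24 : (0 : ℝ) ≤ (6 ^ (n + 1) ^ 2) ^ r := pow_nonneg (pow_nonneg (by norm_num) _) _
  have h66 : (0 : ℝ) ≤ 66 * r * ((n + 1) ^ 2) ^ 2 / (T : ℝ) :=
    div_nonneg (mul_nonneg (mul_nonneg (by norm_num) (Nat.cast_nonneg _)) (sq_nonneg _)) hTpos.le
  set ag : ℝ := 66 * r * ((n + 1) ^ 2) ^ 2 / (T : ℝ) * (6 ^ (n + 1) ^ 2) ^ r * M0 with hag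
  set ab : ℝ := 2 * 4 ^ VV n (fun _ : Fin r => 2) * M0 with hab
  have hag' : 0 ≤ ag := mul_nonneg (mul_nonneg h66 h24) hM0'
  have hab' : 0 ≤ ab := mul_nonneg h16 hM0'
  have hsplit := Finset.sum_filter_add_sum_filter_not (GG B H q o) (fun y => y ≠ x)
    (fun y => EEB (fun _ : Fin r => 2) o W ((T ^ 2) ^ 2) A x y)
  rw [← hsplit]
  have hrn : ∀ y : Vc n ℤ, 0 ≤ ((Dd x y : ℝ) / (Del o x y : ℝ)) ^ r := fun y =>
    pow_nonneg (div_nonneg (Nat.cast_nonneg _) (Nat.cast_nonneg _)) _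
  have hprod : ∀ y : Vc n ℤ, ∏ _i : Fin r, (n2 2 x y A : ℝ) = (n2 2 x y A : ℝ) ^ r := fun y => by
    rw [Finset.prod_const, Finset.card_univ, Fintype.card_fin]
  -- the diagonal term
  have hdiag : ∑ y ∈ (GG B H q o).filter (fun y => ¬ y ≠ x),
      EEB (fun _ : Fin r => 2) o W ((T ^ 2) ^ 2) A x y ≤
      2 * 4 ^ VV n (fun _ : Fin r => 2) * ((5 * (A : ℝ)) ^ VV n (fun _ : Fin r => 2) *
        (2 ^ r * (q : ℝ) ^ (∑ _i : Fin r, 2) / ((A : ℝ) ^ r * (B : ℝ) ^ (∑ _i : Fin r, 2)))) := by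
    have h1 : (GG B H q o).filter (fun y => ¬ y ≠ x) = {x} := by
      ext y
      simp only [Finset.mem_filter, not_not, Finset.mem_singleton]
      constructor
      · exact fun h => h.2
      · rintro rfl; exact ⟨hx, rfl⟩
    rw [h1, Finset.sum_singleton]
    refine le_trans (le_abs_self _) (le_trans (EEleB (fun _ : Fin r => 2) o W ((T ^ 2) ^ 2) A x x) ?_)
    have h2 := NP1 (n := n) (by omega) (fun _ : Fin r => 2) (fun i => by norm_num) B H q A o hB hq hA1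
      hA3 x hx
    have h3 : ∏ _i : Fin r, (n2 2 x x A : ℝ) = ∏ _i : Fin r, (n1 2 x A : ℝ) :=
      Finset.prod_congr rfl fun i _ => by rw [n2_self]
    have h4 : ∏ _i : Fin r, (n2 2 x x A : ℝ) ≤ (5 * (A : ℝ)) ^ VV n (fun _ : Fin r => 2) *
        (2 ^ r * (q : ℝ) ^ (∑ _i : Fin r, 2) / ((A : ℝ) ^ r * (B : ℝ) ^ (∑ _i : Fin r, 2))) := by
      rw [h3]
      exact h2
    exact mul_le_mul_of_nonneg_left h4 h16
  -- the other terms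
  have hoff : ∑ y ∈ (GG B H q o).filter (fun y => y ≠ x),
      EEB (fun _ : Fin r => 2) o W ((T ^ 2) ^ 2) A x y ≤
      ag * ∑ y ∈ (GG B H q o).filter (fun y => y ≠ x), ((Dd x y : ℝ) / (Del o x y : ℝ)) ^ r
      + ab * ∑ y ∈ (GG B H q o).filter
          (fun y => y ≠ x ∧ ¬ (Dd x y ∣ W ∧ B ^ 2 ≤ T ^ 2 * Del o x y)),
          ((Dd x y : ℝ) / (Del o x y : ℝ)) ^ r
      + ab * ((((W : ℝ) * (T : ℝ) ^ 2) / (B : ℝ) ^ 2) ^ r *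
          ((GG B H q o).filter fun y => ExcP T' (fb x) (fb y)).card) := by
    have h2 : ∑ y ∈ (GG B H q o).filter
          (fun y => y ≠ x ∧ ¬ (Dd x y ∣ W ∧ B ^ 2 ≤ T ^ 2 * Del o x y)),
          ((Dd x y : ℝ) / (Del o x y : ℝ)) ^ r
        = ∑ y ∈ (GG B H q o).filter (fun y => y ≠ x),
          (if ¬ (Dd x y ∣ W ∧ B ^ 2 ≤ T ^ 2 * Del o x y) then
            ((Dd x y : ℝ) / (Del o x y : ℝ)) ^ r else 0) := by
      rw [← Finset.filter_filter, Finset.sum_filter]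
    have h3 : ∑ y ∈ (GG B H q o).filter (fun y => y ≠ x),
          (if ExcP T' (fb x) (fb y) then (((W : ℝ) * (T : ℝ) ^ 2) / (B : ℝ) ^ 2) ^ r else 0) ≤
        (((W : ℝ) * (T : ℝ) ^ 2) / (B : ℝ) ^ 2) ^ r *
          ((GG B H q o).filter fun y => ExcP T' (fb x) (fb y)).card := by
      have hnn : (0 : ℝ) ≤ (((W : ℝ) * (T : ℝ) ^ 2) / (B : ℝ) ^ 2) ^ r := by positivity
      have h4 : ∑ y ∈ GG B H q o,
          (if ExcP T' (fb x) (fb y) then (((W : ℝ) * (T : ℝ) ^ 2) / (B : ℝ) ^ 2) ^ r else 0) =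
          (((W : ℝ) * (T : ℝ) ^ 2) / (B : ℝ) ^ 2) ^ r *
          ((GG B H q o).filter fun y => ExcP T' (fb x) (fb y)).card := by
        rw [← Finset.sum_filter, Finset.sum_const, nsmul_eq_mul, mul_comm]
      rw [← h4]
      refine Finset.sum_le_sum_of_subset_of_nonneg (Finset.filter_subset _ _) fun y _ _ => ?_
      split_ifs
      · exact hnn
      · exact le_refl _
    refine le_trans ?_ (add_le_add_right (mul_le_mul_of_nonneg_left h3 hab') _)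
    rw [h2, Finset.mul_sum, Finset.mul_sum, Finset.mul_sum, ← Finset.sum_add_distrib,
      ← Finset.sum_add_distrib]
    refine Finset.sum_le_sum fun y hy => ?_
    obtain ⟨hyG, hyx⟩ := Finset.mem_filter.1 hy
    have hN2 := varB_n2pow (r := r) B H q A lam o hB hq hl hA hA' x y hx hyG (Ne.symm hyx)
    rw [← hM0] at hN2
    have hdel : 1 ≤ Del o x y :=
      Pool.Agent.Lib.MP_219881_nt.Del_pos hB hx hyG (Ne.symm hyx)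
    have htriv : |EEB (fun _ : Fin r => 2) o W ((T ^ 2) ^ 2) A x y| ≤
        ab * ((Dd x y : ℝ) / (Del o x y : ℝ)) ^ r := by
      have g1 := EEleB (fun _ : Fin r => 2) o W ((T ^ 2) ^ 2) A x y
      have g2 : ∏ _i : Fin r, (n2 2 x y A : ℝ) ≤ M0 * ((Dd x y : ℝ) / (Del o x y : ℝ)) ^ r := by
        rw [hprod]
        exact hN2
      calc |EEB (fun _ : Fin r => 2) o W ((T ^ 2) ^ 2) A x y| ≤
            2 * 4 ^ VV n (fun _ : Fin r => 2) * ∏ _i : Fin r, (n2 2 x y A : ℝ) := g1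
        _ ≤ 2 * 4 ^ VV n (fun _ : Fin r => 2) * (M0 * ((Dd x y : ℝ) / (Del o x y : ℝ)) ^ r) :=
          mul_le_mul_of_nonneg_left g2 h16
        _ = ab * ((Dd x y : ℝ) / (Del o x y : ℝ)) ^ r := by rw [hab]; ring
    have hz1 : 0 ≤ ag * ((Dd x y : ℝ) / (Del o x y : ℝ)) ^ r := mul_nonneg hag' (hrn y)
    refine le_trans (le_abs_self _) ?_
    by_cases hgood : Dd x y ∣ W ∧ B ^ 2 ≤ T ^ 2 * Del o x y
    · rw [if_neg (not_not.2 hgood), mul_zero, add_zero]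
      by_cases hex : ExcP T' (fb x) (fb y)
      · rw [if_pos hex]
        have g3 := varB_rho (r := r) o B T W hB hW x y hdel hgood.1 hgood.2
        have g4 := mul_le_mul_of_nonneg_left g3 hab'
        linarith
      · rw [if_neg hex, mul_zero, add_zero]
        obtain ⟨f1, f2, f3⟩ := hfb x hx
        obtain ⟨g1, g2, g3⟩ := hfb y hyG
        have h5 := EEgoodB (r := r) B H q o T T' A W hB hT hTA hTT x y hx hyG (Ne.symm hyx) hgood.1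
          hgood.2 (fb x) (fb y) f1 g1 f2 g2 f3 g3 hex
        have h6 : (6 ^ (n + 1) ^ 2 * (n2 2 x y A : ℝ)) ^ r ≤
            (6 ^ (n + 1) ^ 2) ^ r * (M0 * ((Dd x y : ℝ) / (Del o x y : ℝ)) ^ r) := by
          rw [mul_pow]
          exact mul_le_mul_of_nonneg_left hN2 h24
        calc |EEB (fun _ : Fin r => 2) o W ((T ^ 2) ^ 2) A x y| ≤
              66 * r * ((n + 1) ^ 2) ^ 2 / (T : ℝ) * (6 ^ (n + 1) ^ 2 * (n2 2 x y A : ℝ)) ^ r := h5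
          _ ≤ 66 * r * ((n + 1) ^ 2) ^ 2 / (T : ℝ) *
              ((6 ^ (n + 1) ^ 2) ^ r * (M0 * ((Dd x y : ℝ) / (Del o x y : ℝ)) ^ r)) :=
            mul_le_mul_of_nonneg_left h6 h66
          _ = ag * ((Dd x y : ℝ) / (Del o x y : ℝ)) ^ r := by rw [hag]; ring
    · rw [if_pos hgood]
      have h7 : (0 : ℝ) ≤ ab * (if ExcP T' (fb x) (fb y) then
          (((W : ℝ) * (T : ℝ) ^ 2) / (B : ℝ) ^ 2) ^ r else 0) := by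
        refine mul_nonneg hab' ?_
        split_ifs
        · positivity
        · exact le_refl _
      linarith
  have h6 := mul_le_mul_of_nonneg_left hC1 hag'
  have h7 := mul_le_mul_of_nonneg_left hC2 hab'
  linarith

private theorem varB_alg (T w B Bn b BD a qr qD Hh C1 C2 R P2 P64 P5 P4 P6 PA P3 PL V2 Wt Cd : ℝ)
    (hT : 1 ≤ T)
    (hw : 0 ≤ w) (hB : 0 < B) (hBn : 0 < Bn) (hb : 0 < b) (hBD : 0 < BD) (ha : 0 < a) (hqr : 0 < qr)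
    (hqD : 0 < qD) (hHh : 0 ≤ Hh) (hC1 : 0 < C1) (hC2 : 0 < C2) (hR : 0 < R) (h2 : 0 < P2)
    (h64 : 0 < P64) (h5 : 0 < P5) (h4 : 0 < P4) (h6 : 0 < P6) (hPA : 0 < PA) (h3 : 0 < P3)
    (hPL : 0 < PL) (hV2 : 0 < V2) (hWt : 0 ≤ Wt) (hCd : 0 ≤ Cd) :
    P3 * (Bn * B) * (2 * P4 * ((P5 * PA) * (P2 * qD / (a * BD)))
      + 66 * R * V2 / T * P6 * (PL * ((P5 * PA) * (P64 * (qD / BD) ^ 2 * (b ^ 2 / (qr * a ^ 2))))) *
        (C1 * (Bn * B / b ^ 2 + Hh * (B / b)))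
      + 2 * P4 * (PL * ((P5 * PA) * (P64 * (qD / BD) ^ 2 * (b ^ 2 / (qr * a ^ 2))))) *
        (C2 * (Bn * B / b ^ 2 * (1 / T ^ 2 + 1 / (w + 1)) + Hh * (B / b))))
      + 2 * P4 * (PL * ((P5 * PA) * (P64 * (qD / BD) ^ 2 * (b ^ 2 / (qr * a ^ 2))))) *
        (Wt / b ^ 2 * Cd) ≤
      (P3 * 2 * P4 * P5 * (P2 * qD)) * PA * (Bn * B / (a * BD)) +
      (P3 * 66 * R * V2 * P6 * PL * P5 * (P64 * qD ^ 2 / qr) * C1
        + P3 * 2 * P4 * PL * P5 * (P64 * qD ^ 2 / qr) * C2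
        + 2 * P4 * PL * P5 * (P64 * qD ^ 2 / qr)) * PA *
        (Bn * B / (a * BD)) ^ 2 *
          (1 / T + 1 / (w + 1) + Hh * b / Bn + Wt * Cd / (Bn * B) ^ 2) := by
  have hT0 : 0 < T := by linarith
  have hw1 : 0 < w + 1 := by linarith
  obtain ⟨E, hE⟩ : ∃ E, E = Bn * B / (a * BD) := ⟨_, rfl⟩
  obtain ⟨h, hh⟩ : ∃ h, h = Hh * b / Bn := ⟨_, rfl⟩
  obtain ⟨c, hc⟩ : ∃ c, c = P64 * qD ^ 2 / qr := ⟨_, rfl⟩
  obtain ⟨z, hz⟩ : ∃ z, z = Wt * Cd / (Bn * B) ^ 2 := ⟨_, rfl⟩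
  have hE0 : 0 ≤ E := by rw [hE]; positivity
  have hh0 : 0 ≤ h := by rw [hh]; positivity
  have hc0 : 0 ≤ c := by rw [hc]; positivity
  have hz0 : 0 ≤ z := by rw [hz]; positivity
  have e1 : (Bn * B) * (P2 * qD / (a * BD)) = P2 * qD * E := by
    rw [hE]
    field_simp
  have e2 : (Bn * B) * (P64 * (qD / BD) ^ 2 * (b ^ 2 / (qr * a ^ 2))) * (Bn * B / b ^ 2) = c * E ^ 2 := by
    rw [hE, hc]
    field_simp
  have e3 : (Bn * B) * (P64 * (qD / BD) ^ 2 * (b ^ 2 / (qr * a ^ 2))) * (Hh * (B / b)) = c * (E ^ 2 * h) := by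
    rw [hE, hc, hh]
    field_simp
  have e5 : (P64 * (qD / BD) ^ 2 * (b ^ 2 / (qr * a ^ 2))) * (Wt / b ^ 2 * Cd) = c * (E ^ 2 * z) := by
    rw [hE, hc, hz]
    field_simp
  rw [← hE, ← hh, ← hc, ← hz]
  obtain ⟨s, hs⟩ : ∃ s, s = 1 / T + 1 / (w + 1) := ⟨_, rfl⟩
  have hw2 : 0 ≤ 1 / (w + 1) := by positivity
  have hs0 : 0 ≤ s := by rw [hs]; positivity
  have hT1 : 1 / T ≤ 1 := by
    rw [div_le_one hT0]
    exact hT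
  have hT2 : 0 ≤ 1 / T := by positivity
  have hTs : 1 / T ≤ s := by
    rw [hs]
    linarith
  obtain ⟨s', hs'⟩ : ∃ s', s' = 1 / T ^ 2 + 1 / (w + 1) := ⟨_, rfl⟩
  have hss : s' ≤ s := by
    rw [hs, hs']
    have : 1 / T ^ 2 ≤ 1 / T := by
      have e : 1 / T ^ 2 = 1 / T * (1 / T) := by field_simp
      rw [e]
      calc 1 / T * (1 / T) ≤ 1 / T * 1 := mul_le_mul_of_nonneg_left hT1 hT2
        _ = 1 / T := mul_one _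
    linarith
  rw [← hs, ← hs']
  obtain ⟨al, hal⟩ : ∃ al, al = P64 * (qD / BD) ^ 2 * (b ^ 2 / (qr * a ^ 2)) := ⟨_, rfl⟩
  rw [← hal] at e2 e3 e5 ⊢
  obtain ⟨u, hu⟩ : ∃ u, u = Bn * B / b ^ 2 := ⟨_, rfl⟩
  obtain ⟨v, hv⟩ : ∃ v, v = Hh * (B / b) := ⟨_, rfl⟩
  obtain ⟨t, ht⟩ : ∃ t, t = P2 * qD / (a * BD) := ⟨_, rfl⟩
  obtain ⟨X, hX⟩ : ∃ X, X = Bn * B := ⟨_, rfl⟩
  obtain ⟨y, hy⟩ : ∃ y, y = Wt / b ^ 2 * Cd := ⟨_, rfl⟩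
  rw [← hu, ← hX] at e2
  rw [← hv, ← hX] at e3
  rw [← ht, ← hX] at e1
  rw [← hy] at e5
  rw [← hu, ← hv, ← ht, ← hX, ← hy]
  have e4 : P3 * X * (2 * P4 * ((P5 * PA) * t)
      + 66 * R * V2 / T * P6 * (PL * ((P5 * PA) * al)) * (C1 * (u + v))
      + 2 * P4 * (PL * ((P5 * PA) * al)) * (C2 * (u * s' + v)))
      + 2 * P4 * (PL * ((P5 * PA) * al)) * y =
      P3 * 2 * P4 * P5 * PA * (X * t)
      + P3 * 66 * R * V2 * P6 * PL * P5 * PA * C1 * (1 / T * (X * al * u + X * al * v))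
      + P3 * 2 * P4 * PL * P5 * PA * C2 * (X * al * u * s' + X * al * v)
      + 2 * P4 * PL * P5 * PA * (al * y) := by
    ring
  rw [e4, e1, e2, e3, e5]
  have f2 : 1 / T * (c * E ^ 2 + c * (E ^ 2 * h)) ≤ c * (E ^ 2 * (s + h + z)) := by
    have g1 : 1 / T * (c * E ^ 2 + c * (E ^ 2 * h)) = c * (E ^ 2 * (1 / T + 1 / T * h)) := by ring
    rw [g1]
    have g2 : 1 / T * h ≤ 1 * h := mul_le_mul_of_nonneg_right hT1 hh0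
    exact mul_le_mul_of_nonneg_left (mul_le_mul_of_nonneg_left (by linarith) (sq_nonneg _)) hc0
  have f3 : c * E ^ 2 * s' + c * (E ^ 2 * h) ≤ c * (E ^ 2 * (s + h + z)) := by
    have g1 : c * E ^ 2 * s' + c * (E ^ 2 * h) = c * (E ^ 2 * (s' + h)) := by ring
    rw [g1]
    exact mul_le_mul_of_nonneg_left (mul_le_mul_of_nonneg_left (by linarith) (sq_nonneg _)) hc0
  have f4 : c * (E ^ 2 * z) ≤ c * (E ^ 2 * (s + h + z)) :=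
    mul_le_mul_of_nonneg_left (mul_le_mul_of_nonneg_left (by linarith) (sq_nonneg _)) hc0
  have k2 : 0 ≤ P3 * 66 * R * V2 * P6 * PL * P5 * PA * C1 := by positivity
  have k3 : 0 ≤ P3 * 2 * P4 * PL * P5 * PA * C2 := by positivity
  have k4 : 0 ≤ 2 * P4 * PL * P5 * PA := by positivity
  have m2 := mul_le_mul_of_nonneg_left f2 k2
  have m3 := mul_le_mul_of_nonneg_left f3 k3
  have m4 := mul_le_mul_of_nonneg_left f4 k4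
  calc _ ≤ P3 * 2 * P4 * P5 * PA * (P2 * qD * E)
      + P3 * 66 * R * V2 * P6 * PL * P5 * PA * C1 * (c * (E ^ 2 * (s + h + z)))
      + P3 * 2 * P4 * PL * P5 * PA * C2 * (c * (E ^ 2 * (s + h + z)))
      + 2 * P4 * PL * P5 * PA * (c * (E ^ 2 * (s + h + z))) := by
        linarith
    _ = _ := by ring

private theorem varB_VV (n r : ℕ) : VV n (fun _ : Fin r => 2) = (n + 1) ^ 2 * r := by
  unfold VV
  rw [Finset.sum_const, Finset.card_univ, Fintype.card_fin, smul_eq_mul, mul_comm]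

private theorem varB_D (r : ℕ) : (∑ _i : Fin r, 2) = 2 * r := by
  rw [Finset.sum_const, Finset.card_univ, Fintype.card_fin, smul_eq_mul, mul_comm]

private theorem varB_M0 (n r : ℕ) (lam A q B : ℝ) :
    (lam ^ (n + 1) ^ 2 * ((5 * A) ^ (n + 1) ^ 2 *
          (64 * (q ^ 2 / B ^ 2) ^ 2 * (B ^ 2 / (q * A ^ 2))))) ^ r =
    lam ^ ((n + 1) ^ 2 * r) * ((5 ^ ((n + 1) ^ 2 * r) * A ^ ((n + 1) ^ 2 * r)) *
      (64 ^ r * (q ^ (2 * r) / (B ^ r) ^ 2) ^ 2 * ((B ^ r) ^ 2 / (q ^ r * (A ^ r) ^ 2)))) := by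
  have e1 : (64 * (q ^ 2 / B ^ 2) ^ 2 * (B ^ 2 / (q * A ^ 2))) ^ r =
      64 ^ r * (q ^ (2 * r) / (B ^ r) ^ 2) ^ 2 * ((B ^ r) ^ 2 / (q ^ r * (A ^ r) ^ 2)) := by
    have b1 : (q ^ 2) ^ r = q ^ (2 * r) := (pow_mul q 2 r).symm
    have b2 : (B ^ 2) ^ r = (B ^ r) ^ 2 := by rw [← pow_mul, ← pow_mul, mul_comm]
    have b3 : (A ^ 2) ^ r = (A ^ r) ^ 2 := by rw [← pow_mul, ← pow_mul, mul_comm]
    have a1 : ((q ^ 2 / B ^ 2) ^ 2) ^ r = ((q ^ 2 / B ^ 2) ^ r) ^ 2 := by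
      rw [← pow_mul, ← pow_mul, mul_comm]
    rw [mul_pow, mul_pow, a1, div_pow (q ^ 2) (B ^ 2) r, b1, b2, div_pow (B ^ 2) (q * A ^ 2) r, b2,
      mul_pow q (A ^ 2) r, b3]
  rw [mul_pow, mul_pow, e1, mul_pow, ← pow_mul, mul_pow, ← pow_mul, ← pow_mul]

private theorem varB_count {n : ℕ} (G : Finset (Vc n ℤ)) (p : Vc n ℤ → Vc n ℤ → Prop) :
    ∑ x ∈ G, ((G.filter fun y => p x y).card : ℝ) = (((G ×ˢ G).filter fun z => p z.1 z.2).card : ℝ) := by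
  rw [Finset.card_filter, Finset.sum_product, Nat.cast_sum]
  refine Finset.sum_congr rfl fun x _ => ?_
  rw [Finset.card_filter]

theorem varTotB {r : ℕ} (hr : 1 ≤ r) (n : ℕ) (hn : r + 2 ≤ n) (q : ℕ) (hq : 1 ≤ q) :
    ∃ C1 : ℝ, 0 < C1 ∧ ∀ lam : ℕ, 1 ≤ lam → ∃ C2 : ℝ, 0 < C2 ∧ ∀ T' : ℕ, ∃ C3 : ℝ, 0 < C3 ∧
    ∀ (o : Fin (n + 1)) (T w B H A W : ℕ), 1 ≤ T → T ≤ A → 1 ≤ B → 1 ≤ H → 1 ≤ W →
    (∀ m, 1 ≤ m → m ≤ w → m ∣ W) → 8 * CC n (fun _ : Fin r => 2) * H ≤ A →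
    8 * cc n 2 * H ^ 2 ≤ lam * A → 4 * q ^ (2 * r) ≤ A →
    (n + 1) ^ 2 * H ^ 2 * T ≤ 2 * A * T' →
    QvB (fun _ : Fin r => 2) B H q o W ((T ^ 2) ^ 2) A ≤
      C1 * (A : ℝ) ^ VV n (fun _ : Fin r => 2) *
        ((B : ℝ) ^ (n + 1) / ((A : ℝ) ^ r * (B : ℝ) ^ (2 * r))) +
      C2 * (A : ℝ) ^ VV n (fun _ : Fin r => 2) *
        ((B : ℝ) ^ (n + 1) / ((A : ℝ) ^ r * (B : ℝ) ^ (2 * r))) ^ 2 *
            (1 / T + 1 / (w + 1) + (H : ℝ) ^ (n + 1 + r) * (B : ℝ) ^ r / (B : ℝ) ^ n +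
              C3 * ((W : ℝ) * T ^ 2) ^ r * (H : ℝ) ^ (2 * n * (n + 1) - 1) /
                (B : ℝ) ^ (2 * (n + 1))) := by
  obtain ⟨C1, hC1, hc1⟩ := psAll n r q hn hq
  obtain ⟨C2, hC2, hc2⟩ := psBad n r q hn hq
  have hqpos : (0 : ℝ) < q := by exact_mod_cast hq
  have hrpos : (0 : ℝ) < r := by exact_mod_cast hr
  rw [varB_VV n r]
  have p5 : (0 : ℝ) < 5 ^ ((n + 1) ^ 2 * r) := pow_pos (by norm_num) _
  have p4 : (0 : ℝ) < 4 ^ ((n + 1) ^ 2 * r) := pow_pos (by norm_num) _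
  have p6 : (0 : ℝ) < (6 ^ (n + 1) ^ 2) ^ r := pow_pos (pow_pos (by norm_num) _) _
  have p3 : (0 : ℝ) < 3 ^ (n + 1) := pow_pos (by norm_num) _
  have p2 : (0 : ℝ) < 2 ^ r := pow_pos (by norm_num) _
  have p64 : (0 : ℝ) < 64 ^ r := pow_pos (by norm_num) _
  have pqD : (0 : ℝ) < (q : ℝ) ^ (2 * r) := pow_pos hqpos _
  have pqr : (0 : ℝ) < (q : ℝ) ^ r := pow_pos hqpos _
  have pV : (0 : ℝ) < (((n : ℝ) + 1) ^ 2) ^ 2 := by positivity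
  refine ⟨3 ^ (n + 1) * 2 * 4 ^ ((n + 1) ^ 2 * r) * 5 ^ ((n + 1) ^ 2 * r) * (2 ^ r * (q : ℝ) ^ (2 * r)),
    mul_pos (mul_pos (mul_pos (mul_pos p3 (by norm_num)) p4) p5) (mul_pos p2 pqD), ?_⟩
  intro lam hl
  have hlpos : (0 : ℝ) < lam := by exact_mod_cast hl
  have pL : (0 : ℝ) < (lam : ℝ) ^ ((n + 1) ^ 2 * r) := pow_pos hlpos _
  have hcq : 0 < 64 ^ r * ((q : ℝ) ^ (2 * r)) ^ 2 / (q : ℝ) ^ r :=
    div_pos (mul_pos p64 (pow_pos pqD _)) pqr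
  refine ⟨3 ^ (n + 1) * 66 * r * (((n : ℝ) + 1) ^ 2) ^ 2 * (6 ^ (n + 1) ^ 2) ^ r *
        (lam : ℝ) ^ ((n + 1) ^ 2 * r) * 5 ^ ((n + 1) ^ 2 * r) *
        (64 ^ r * ((q : ℝ) ^ (2 * r)) ^ 2 / (q : ℝ) ^ r) * C1
      + 3 ^ (n + 1) * 2 * 4 ^ ((n + 1) ^ 2 * r) * (lam : ℝ) ^ ((n + 1) ^ 2 * r) *
        5 ^ ((n + 1) ^ 2 * r) * (64 ^ r * ((q : ℝ) ^ (2 * r)) ^ 2 / (q : ℝ) ^ r) * C2
      + 2 * 4 ^ ((n + 1) ^ 2 * r) * (lam : ℝ) ^ ((n + 1) ^ 2 * r) * 5 ^ ((n + 1) ^ 2 * r) *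
        (64 ^ r * ((q : ℝ) ^ (2 * r)) ^ 2 / (q : ℝ) ^ r), ?_, ?_⟩
  · generalize (64 ^ r * ((q : ℝ) ^ (2 * r)) ^ 2 / (q : ℝ) ^ r) = cq at *
    generalize (5 : ℝ) ^ ((n + 1) ^ 2 * r) = P5 at *
    generalize (4 : ℝ) ^ ((n + 1) ^ 2 * r) = P4 at *
    generalize ((6 : ℝ) ^ (n + 1) ^ 2) ^ r = P6 at *
    generalize (3 : ℝ) ^ (n + 1) = P3 at *
    generalize (lam : ℝ) ^ ((n + 1) ^ 2 * r) = PL at *
    generalize (((n : ℝ) + 1) ^ 2) ^ 2 = V2 at *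
    positivity
  · intro T'
    obtain ⟨C3, hC3, hc3⟩ := excCount n (by omega) T' q hq
    refine ⟨C3, hC3, ?_⟩
    intro o T w B H A W hT hTA hB hH hW hW' hA3 hA hA' hTT
    have hA1 : 1 ≤ A := le_trans hT hTA
    have hApos : (0 : ℝ) < A := by exact_mod_cast hA1
    have hBpos : (0 : ℝ) < B := by exact_mod_cast hB
    have hTpos : (0 : ℝ) < T := by exact_mod_cast hT
    have hT2 : 1 ≤ T ^ 2 := Nat.one_le_pow _ _ hT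
    have hA2 : 4 * q ^ 2 ≤ A := by
      refine le_trans (Nat.mul_le_mul_left _ (Nat.pow_le_pow_right hq ?_)) hA'
      omega
    -- bases
    have hex : ∀ x : Vc n ℤ, ∃ f : Fin n → Vc n ℤ, x ∈ GG B H q o →
        LinearIndependent ℤ f ∧ (∀ s, lin (f s) x = 0) ∧ ∀ s i, |f s i| ≤ (H : ℤ) := by
      intro x
      by_cases hx : x ∈ GG B H q o
      · obtain ⟨f, hf⟩ := Pool.Agent.Lib.MP_219881_nt.GG_good hx
        exact ⟨f, fun _ => hf⟩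
      · exact ⟨fun _ => 0, fun h => absurd h hx⟩
    choose fb hfb using hex
    have hcnt := hc3 B H o hB hH fb hfb
    rw [expandB (fun _ : Fin r => 2) B H q o W ((T ^ 2) ^ 2) A (Nat.one_le_pow _ _ hT2)]
    have h1 : ∀ x ∈ GG B H q o, _ := fun x hx =>
      varB_row hr hn q hq C1 C2 o T T' w B H A W lam hl hT hTA hB hW hA3 hA hA2 hTT x hx fb hfb
        (hc1 B H o hB hH x hx) (hc2 B H (T ^ 2) w W o hB hH hT2 hW' x hx)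
    refine (Finset.sum_le_sum h1).trans ?_
    rw [Finset.sum_add_distrib, ← Finset.mul_sum, ← Finset.mul_sum, varB_count, Finset.sum_const,
      nsmul_eq_mul, varB_VV n r, varB_D r, varB_M0, mul_pow (5 : ℝ) (A : ℝ), Nat.cast_pow]
    have eB : (B : ℝ) ^ (2 * r) = ((B : ℝ) ^ r) ^ 2 := by rw [← pow_mul, mul_comm]
    have eW : ((W : ℝ) * (T : ℝ) ^ 2 / (B : ℝ) ^ 2) ^ r =
        ((W : ℝ) * (T : ℝ) ^ 2) ^ r / ((B : ℝ) ^ r) ^ 2 := by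
      rw [div_pow, ← pow_mul, ← pow_mul, mul_comm 2 r]
    have eN : (B : ℝ) ^ (2 * (n + 1)) = ((B : ℝ) ^ n * (B : ℝ)) ^ 2 := by
      rw [← pow_succ, ← pow_mul, mul_comm]
    rw [eB, eW, eN, pow_succ (B : ℝ) n]
    have hcard : ((GG B H q o).card : ℝ) ≤ 3 ^ (n + 1) * ((B : ℝ) ^ n * (B : ℝ)) := by
      rw [← pow_succ]
      exact Pool.Agent.Lib.MP_219881_nt.card_GG_le hB
    have key := varB_alg T w B ((B : ℝ) ^ n) ((B : ℝ) ^ r) (((B : ℝ) ^ r) ^ 2) ((A : ℝ) ^ r)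
        ((q : ℝ) ^ r) ((q : ℝ) ^ (2 * r)) ((H : ℝ) ^ (n + 1 + r)) C1 C2 r (2 ^ r) (64 ^ r)
        (5 ^ ((n + 1) ^ 2 * r)) (4 ^ ((n + 1) ^ 2 * r)) ((6 ^ (n + 1) ^ 2) ^ r)
        ((A : ℝ) ^ ((n + 1) ^ 2 * r)) (3 ^ (n + 1)) ((lam : ℝ) ^ ((n + 1) ^ 2 * r))
        ((((n : ℝ) + 1) ^ 2) ^ 2) (((W : ℝ) * (T : ℝ) ^ 2) ^ r)
        (C3 * (H : ℝ) ^ (2 * n * (n + 1) - 1))
        (by exact_mod_cast hT) (Nat.cast_nonneg _) hBpos (pow_pos hBpos _) (pow_pos hBpos _)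
        (pow_pos (pow_pos hBpos _) _) (pow_pos hApos _) pqr pqD (by positivity) hC1 hC2 hrpos p2 p64 p5
        p4 p6 (pow_pos hApos _) p3 pL pV (by positivity) (by positivity)
    have r4 : ((W : ℝ) * (T : ℝ) ^ 2) ^ r * (C3 * (H : ℝ) ^ (2 * n * (n + 1) - 1)) /
        ((B : ℝ) ^ n * (B : ℝ)) ^ 2 = C3 * ((W : ℝ) * (T : ℝ) ^ 2) ^ r *
        (H : ℝ) ^ (2 * n * (n + 1) - 1) / ((B : ℝ) ^ n * (B : ℝ)) ^ 2 := by
      congr 1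
      ring
    rw [r4] at key
    refine le_trans ?_ key
    refine add_le_add (mul_le_mul_of_nonneg_right hcard ?_) (mul_le_mul_of_nonneg_left ?_ ?_)
    · have q7 : (0 : ℝ) ≤ 64 ^ r * ((q : ℝ) ^ (2 * r) / ((B : ℝ) ^ r) ^ 2) ^ 2 *
          (((B : ℝ) ^ r) ^ 2 / ((q : ℝ) ^ r * ((A : ℝ) ^ r) ^ 2)) := by positivity
      have q8 : (0 : ℝ) ≤ (5 : ℝ) ^ ((n + 1) ^ 2 * r) * (A : ℝ) ^ ((n + 1) ^ 2 * r) := by positivity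
      generalize (64 ^ r * ((q : ℝ) ^ (2 * r) / ((B : ℝ) ^ r) ^ 2) ^ 2 *
          (((B : ℝ) ^ r) ^ 2 / ((q : ℝ) ^ r * ((A : ℝ) ^ r) ^ 2))) = al at *
      generalize (5 : ℝ) ^ ((n + 1) ^ 2 * r) * (A : ℝ) ^ ((n + 1) ^ 2 * r) = N0 at *
      generalize (4 : ℝ) ^ ((n + 1) ^ 2 * r) = P4 at *
      generalize ((6 : ℝ) ^ (n + 1) ^ 2) ^ r = P6 at *
      generalize (lam : ℝ) ^ ((n + 1) ^ 2 * r) = PL at *
      generalize (2 : ℝ) ^ r = P2 at *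
      clear key
      positivity
    · exact mul_le_mul_of_nonneg_left hcnt (by positivity)
    · have q7 : (0 : ℝ) ≤ 64 ^ r * ((q : ℝ) ^ (2 * r) / ((B : ℝ) ^ r) ^ 2) ^ 2 *
          (((B : ℝ) ^ r) ^ 2 / ((q : ℝ) ^ r * ((A : ℝ) ^ r) ^ 2)) := by positivity
      have q8 : (0 : ℝ) ≤ (5 : ℝ) ^ ((n + 1) ^ 2 * r) * (A : ℝ) ^ ((n + 1) ^ 2 * r) := by positivity
      exact mul_nonneg (mul_nonneg (by norm_num) p4.le) (mul_nonneg pL.le (mul_nonneg q8 q7))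

end Pool.Agent.Lib.MP_1ad228_ntF
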