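import Pool.Agent.Lib.MP_1ad228_ntF.LD_Base

/-!
JOB LD_Crt.  Chinese remainders.  (Model with proof: Lib/MP_219881_nt/LD_Crt.lean; adapt it to tuples: the two conditions
`ev a x = 0 ∧ ev b x = 0` become `∀ i, ev (F i) x = 0`.)
-/

namespace Pool.Agent.Lib.MP_1ad228_ntF

open Classical

private theorem LD_Crt_ev {n d : ℕ} {R S : Type*} [CommRing R] [CommRing S] (f : R →+* S)
    (a : Ten n d ℤ) (x : Vc n R) : ev (ct S a) (fun i => f (x i)) = f (ev (ct R a) x) := by
  have h := ev_map f (ct R a) x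
  have h1 : (fun s => f (ct R a s)) = ct S a := by
    funext s
    unfold ct
    rw [map_intCast]
  rw [h1] at h
  exact h

private theorem LD_Crt_lin {n : ℕ} {R S : Type*} [CommRing R] [CommRing S] (f : R →+* S)
    (u x : Vc n R) : lin (fun i => f (u i)) (fun i => f (x i)) = f (lin u x) := by
  simp [lin, map_sum, map_mul]

theorem LD_mul {n r : ℕ} {d : Fin r → ℕ} (m m' : ℕ) (hm : m ≠ 0) (hm' : m' ≠ 0)
    (h : m.Coprime m') (F : Tup n d ℤ) :
    sm m (ctT (ZMod m) F) * sm m' (ctT (ZMod m') F) ≤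
      sm (m * m') (ctT (ZMod (m * m')) F) := by
  have : NeZero m := ⟨hm⟩
  have : NeZero m' := ⟨hm'⟩
  have : NeZero (m * m') := ⟨mul_ne_zero hm hm'⟩
  let e : ZMod (m * m') ≃+* ZMod m × ZMod m' := ZMod.chineseRemainder h
  have hinj : Function.Injective e := e.injective
  have key : ∀ (k : Fin r) (z : Vc n (ZMod (m * m'))) (x : Vc n (ZMod m)) (y : Vc n (ZMod m')),
      (∀ i, e (z i) = (x i, y i)) →
      e (ev (ct _ (F k)) z) = (ev (ct _ (F k)) x, ev (ct _ (F k)) y) := by
    intro k z x y hz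
    have h1 := LD_Crt_ev ((RingHom.fst (ZMod m) (ZMod m')).comp e.toRingHom) (F k) z
    have h2 := LD_Crt_ev ((RingHom.snd (ZMod m) (ZMod m')).comp e.toRingHom) (F k) z
    have e1 : (fun i => ((RingHom.fst (ZMod m) (ZMod m')).comp e.toRingHom) (z i)) = x := by
      funext i
      exact congrArg Prod.fst (hz i)
    have e2 : (fun i => ((RingHom.snd (ZMod m) (ZMod m')).comp e.toRingHom) (z i)) = y := by
      funext i
      exact congrArg Prod.snd (hz i)
    rw [e1] at h1
    rw [e2] at h2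
    exact Prod.ext h1.symm h2.symm
  have keyl : ∀ (v z : Vc n (ZMod (m * m'))) (u x : Vc n (ZMod m)) (w y : Vc n (ZMod m')),
      (∀ i, e (v i) = (u i, w i)) → (∀ i, e (z i) = (x i, y i)) →
      e (lin v z) = (lin u x, lin w y) := by
    intro v z u x w y hv hz
    have h1 := LD_Crt_lin ((RingHom.fst (ZMod m) (ZMod m')).comp e.toRingHom) v z
    have h2 := LD_Crt_lin ((RingHom.snd (ZMod m) (ZMod m')).comp e.toRingHom) v z
    have e1 : (fun i => ((RingHom.fst (ZMod m) (ZMod m')).comp e.toRingHom) (z i)) = x := by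
      funext i
      exact congrArg Prod.fst (hz i)
    have e2 : (fun i => ((RingHom.snd (ZMod m) (ZMod m')).comp e.toRingHom) (z i)) = y := by
      funext i
      exact congrArg Prod.snd (hz i)
    have e3 : (fun i => ((RingHom.fst (ZMod m) (ZMod m')).comp e.toRingHom) (v i)) = u := by
      funext i
      exact congrArg Prod.fst (hv i)
    have e4 : (fun i => ((RingHom.snd (ZMod m) (ZMod m')).comp e.toRingHom) (v i)) = w := by
      funext i
      exact congrArg Prod.snd (hv i)
    rw [e1, e3] at h1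
    rw [e2, e4] at h2
    exact Prod.ext h1.symm h2.symm
  unfold sm
  rw [← Nat.card_prod]
  let Φ : {x : Vc n (ZMod m) // Uni x ∧ ∀ k, ev (ctT (ZMod m) F k) x = 0} ×
      {y : Vc n (ZMod m') // Uni y ∧ ∀ k, ev (ctT (ZMod m') F k) y = 0} →
      {z : Vc n (ZMod (m * m')) // Uni z ∧ ∀ k, ev (ctT (ZMod (m * m')) F k) z = 0} := fun p =>
    ⟨fun i => e.symm (p.1.1 i, p.2.1 i), by
      obtain ⟨⟨x, ⟨u, hu⟩, hx⟩, ⟨y, ⟨w, hw⟩, hy⟩⟩ := p
      refine ⟨?_, ?_⟩
      · refine ⟨fun i => e.symm (u i, w i), hinj ?_⟩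
        rw [keyl _ _ u x w y (fun i => e.apply_symm_apply _) (fun i => e.apply_symm_apply _),
          hu, hw, map_one]
        rfl
      · intro k
        apply hinj
        have h1 : ev (ct (ZMod m) (F k)) x = 0 := hx k
        have h2 : ev (ct (ZMod m') (F k)) y = 0 := hy k
        have h3 := key k (fun i => e.symm (x i, y i)) x y (fun i => e.apply_symm_apply _)
        rw [h1, h2] at h3
        rw [map_zero]
        exact h3⟩
  have hΦ : Function.Injective Φ := by
    intro p p' hpp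
    have h1 : ∀ i, (p.1.1 i, p.2.1 i) = (p'.1.1 i, p'.2.1 i) := by
      intro i
      have h2 := congrFun (congrArg Subtype.val hpp) i
      exact e.symm.injective h2
    refine Prod.ext (Subtype.ext (funext fun i => congrArg Prod.fst (h1 i)))
      (Subtype.ext (funext fun i => congrArg Prod.snd (h1 i)))
  exact Nat.card_le_card_of_injective Φ hΦ

theorem LD_prod {n r : ℕ} {d : Fin r → ℕ} {ι : Type*} (s : Finset ι) (f : ι → ℕ)
    (hf : ∀ i ∈ s, f i ≠ 0) (hc : ∀ i ∈ s, ∀ j ∈ s, i ≠ j → (f i).Coprime (f j))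
    (F : Tup n d ℤ) :
    ∏ i ∈ s, sm (f i) (ctT (ZMod (f i)) F) ≤
      sm (∏ i ∈ s, f i) (ctT (ZMod (∏ i ∈ s, f i)) F) := by
  induction s using Finset.induction_on with
  | empty =>
    have h1 : ∀ k : ℕ, k = 1 → 1 ≤ sm k (ctT (ZMod k) F) := by
      intro k hk
      subst hk
      have : Nonempty {x : Vc n (ZMod 1) // Uni x ∧ ∀ i, ev (ctT (ZMod 1) F i) x = 0} :=
        ⟨⟨0, ⟨0, Subsingleton.elim _ _⟩, fun _ => Subsingleton.elim _ _⟩⟩
      unfold sm
      exact Nat.card_pos
    simp only [Finset.prod_empty]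
    exact h1 1 rfl
  | insert i s hi ih =>
    have h1 := ih (fun j hj => hf j (Finset.mem_insert_of_mem hj))
      (fun j hj k hk => hc j (Finset.mem_insert_of_mem hj) k (Finset.mem_insert_of_mem hk))
    have h2 : (f i).Coprime (∏ j ∈ s, f j) := by
      apply Nat.Coprime.prod_right
      intro j hj
      refine hc i (Finset.mem_insert_self _ _) j (Finset.mem_insert_of_mem hj) ?_
      rintro rfl
      exact hi hj
    have h3 : ∏ j ∈ s, f j ≠ 0 :=
      Finset.prod_ne_zero_iff.2 fun j hj => hf j (Finset.mem_insert_of_mem hj)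
    have h4 := LD_mul (f i) (∏ j ∈ s, f j) (hf i (Finset.mem_insert_self _ _)) h3 h2 F
    have h5 : ∀ k : ℕ, k = f i * ∏ j ∈ s, f j →
        sm (f i) (ctT (ZMod (f i)) F) * ∏ j ∈ s, sm (f j) (ctT (ZMod (f j)) F) ≤
          sm k (ctT (ZMod k) F) := by
      intro k hk
      subst hk
      exact (Nat.mul_le_mul_left _ h1).trans h4
    rw [Finset.prod_insert hi]
    exact h5 _ (Finset.prod_insert hi)

end Pool.Agent.Lib.MP_1ad228_ntF
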