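import Pool.Agent.Lib.MP_1ad228_ntF.LD_Base

/-!
JOB LD_Equi.  (Model with proof: Lib/MP_219881_nt/LD_Equi.lean; adapt it to tuples; `LD_Equi_one` is reused.)

`V = VV n d = ∑ i, (n+1)^(d i)`.  LD_cls: in `[-A, A]` there are at most `(2A+1)/m + 1` integers of a given class mod `m` (`LD_Equi_one`); a tuple
has `V` entries (`Fintype.piFinset` twice: `TBox`, `Box`; `Fintype.card_piFinset`, `Finset.prod_le_prod'`, `Finset.prod_pow_eq_pow_sum`).
LD_equi.  `(2A+1)/m + 1 ≤ (2A+1)/m * (1 + 1/(2V+1))` for `A` large and `(1 + 1/(2V+1))^V ≤ exp (1/2) ≤ 2`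
(as in the model with `4 V`; beware of `V = 0`: use `V + 1` instead of `V` in the denominators).
-/

namespace Pool.Agent.Lib.MP_1ad228_ntF

open Classical

private theorem LD_Equi_tup (n : ℕ) {r : ℕ} (d : Fin r → ℕ) (m : ℕ) [NeZero m] (A : ℕ)
    (R : Tup n d (ZMod m)) :
    ((TBox n d A).filter fun F => ctT (ZMod m) F = R).card ≤
      ((2 * A + 1) / m + 1) ^ VV n d := by
  have hsub : ((TBox n d A).filter fun F => ctT (ZMod m) F = R) ⊆
      Fintype.piFinset fun i => Fintype.piFinset fun s =>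
        (Finset.Icc (-(A : ℤ)) (A : ℤ)).filter fun z : ℤ => (z : ZMod m) = R i s := by
    intro F hF
    have hF' := Finset.mem_filter.1 hF
    have hF1 := Fintype.mem_piFinset.1 hF'.1
    simp only [Fintype.mem_piFinset]
    intro i s
    rw [Finset.mem_filter]
    refine ⟨Fintype.mem_piFinset.1 (hF1 i) s, ?_⟩
    exact congrFun (congrFun hF'.2 i) s
  refine (Finset.card_le_card hsub).trans ?_
  simp only [Fintype.card_piFinset]
  calc ∏ i : Fin r, ∏ s : Fin (d i) → Fin (n + 1),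
        ((Finset.Icc (-(A : ℤ)) (A : ℤ)).filter fun z : ℤ => (z : ZMod m) = R i s).card
      ≤ ∏ i : Fin r, ∏ _s : Fin (d i) → Fin (n + 1), ((2 * A + 1) / m + 1) :=
        Finset.prod_le_prod' fun i _ => Finset.prod_le_prod' fun s _ => LD_Equi_one m A (R i s)
    _ = ((2 * A + 1) / m + 1) ^ VV n d := by
        simp only [Finset.prod_const, Finset.card_univ, Fintype.card_fun, Fintype.card_fin, VV]
        exact Finset.prod_pow_eq_pow_sum _ _ _

theorem LD_cls (n : ℕ) {r : ℕ} (d : Fin r → ℕ) (m : ℕ) [NeZero m] (A : ℕ)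
    (S : Finset (Tup n d (ZMod m))) :
    ((TBox n d A).filter fun F => ctT (ZMod m) F ∈ S).card ≤
      S.card * ((2 * A + 1) / m + 1) ^ VV n d := by
  have hsub : ((TBox n d A).filter fun F => ctT (ZMod m) F ∈ S) ⊆
      S.biUnion fun R => (TBox n d A).filter fun F => ctT (ZMod m) F = R := by
    intro F hF
    have hF' := Finset.mem_filter.1 hF
    rw [Finset.mem_biUnion]
    exact ⟨ctT (ZMod m) F, hF'.2, Finset.mem_filter.2 ⟨hF'.1, rfl⟩⟩
  refine (Finset.card_le_card hsub).trans (Finset.card_biUnion_le.trans ?_)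
  refine (Finset.sum_le_sum fun R _ => LD_Equi_tup n d m A R).trans ?_
  rw [Finset.sum_const, smul_eq_mul]

theorem LD_equi (n : ℕ) {r : ℕ} (d : Fin r → ℕ) (m : ℕ) [NeZero m] : ∃ A0 : ℕ, ∀ A ≥ A0,
    ∀ S : Finset (Tup n d (ZMod m)),
    (((TBox n d A).filter fun F => ctT (ZMod m) F ∈ S).card : ℝ) ≤
      2 * ((S.card : ℝ) / (m : ℝ) ^ VV n d) * (2 * A + 1 : ℝ) ^ VV n d := by
  refine ⟨(VV n d + 1) * m, fun A hA S => ?_⟩
  have hm : (0 : ℝ) < (m : ℝ) := by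
    have := NeZero.pos m
    exact_mod_cast this
  set V : ℕ := VV n d with hVdef
  have hV0 : (0 : ℝ) < (V : ℝ) + 1 := by positivity
  have h1 : (((TBox n d A).filter fun F => ctT (ZMod m) F ∈ S).card : ℝ) ≤
      (S.card : ℝ) * ((((2 * A + 1) / m : ℕ) : ℝ) + 1) ^ V := by
    exact_mod_cast LD_cls n d m A S
  have h2 : (((2 * A + 1) / m : ℕ) : ℝ) ≤ ((2 * A + 1 : ℝ)) / (m : ℝ) := by
    have := @Nat.cast_div_le ℝ _ _ _ (2 * A + 1) m
    push_cast at this
    exact this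
  have hA' : ((V : ℝ) + 1) * m ≤ A := by exact_mod_cast hA
  have h3 : (1 : ℝ) ≤ (1 / (2 * ((V : ℝ) + 1))) * ((2 * A + 1 : ℝ) / (m : ℝ)) := by
    rw [div_mul_div_comm, le_div_iff₀ (by positivity)]
    linarith
  have h4 : (((2 * A + 1) / m : ℕ) : ℝ) + 1 ≤
      (1 / (2 * ((V : ℝ) + 1)) + 1) * ((2 * A + 1 : ℝ) / (m : ℝ)) := by
    linarith
  have h5 : ((((2 * A + 1) / m : ℕ) : ℝ) + 1) ^ V ≤
      ((1 / (2 * ((V : ℝ) + 1)) + 1) * ((2 * A + 1 : ℝ) / (m : ℝ))) ^ V :=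
    pow_le_pow_left₀ (by positivity) h4 V
  have h6 : ((1 / (2 * ((V : ℝ) + 1)) + 1) * ((2 * A + 1 : ℝ) / (m : ℝ))) ^ V ≤
      2 * ((2 * A + 1 : ℝ) ^ V / (m : ℝ) ^ V) := by
    have h7 : (1 / (2 * ((V : ℝ) + 1)) + 1) ^ V ≤ 2 := by
      have h9 : 1 / (2 * ((V : ℝ) + 1)) + 1 ≤ Real.exp (1 / (2 * ((V : ℝ) + 1))) :=
        Real.add_one_le_exp _
      have h10 : (1 / (2 * ((V : ℝ) + 1)) + 1) ^ V ≤
          (Real.exp (1 / (2 * ((V : ℝ) + 1)))) ^ V :=
        pow_le_pow_left₀ (by positivity) h9 V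
      have h11 : (Real.exp (1 / (2 * ((V : ℝ) + 1)))) ^ V ≤ Real.exp (1 / 2) := by
        rw [← Real.exp_nat_mul]
        apply Real.exp_le_exp.2
        rw [mul_one_div, div_le_div_iff₀ (by positivity) (by norm_num)]
        linarith
      have h12 : Real.exp (1 / 2) ≤ 2 := by
        rw [← Real.le_log_iff_exp_le (by norm_num)]
        have := Real.log_two_gt_d9
        linarith
      linarith
    have h8 : (0 : ℝ) ≤ (2 * A + 1 : ℝ) ^ V / (m : ℝ) ^ V := by positivity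
    rw [mul_pow, div_pow (2 * A + 1 : ℝ)]
    exact mul_le_mul_of_nonneg_right h7 h8
  calc (((TBox n d A).filter fun F => ctT (ZMod m) F ∈ S).card : ℝ)
      ≤ (S.card : ℝ) * ((((2 * A + 1) / m : ℕ) : ℝ) + 1) ^ V := h1
    _ ≤ (S.card : ℝ) * (2 * ((2 * A + 1 : ℝ) ^ V / (m : ℝ) ^ V)) :=
        mul_le_mul_of_nonneg_left (h5.trans h6) (by positivity)
    _ = 2 * ((S.card : ℝ) / (m : ℝ) ^ V) * (2 * A + 1 : ℝ) ^ V := by ring

end Pool.Agent.Lib.MP_1ad228_ntF
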