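import Pool.Agent.Lib.MP_1ad228_ntF.LD_Base

/-!
JOB LD_Lin.  The section of one tensor.  (Model with proof: first half of Lib/MP_219881_nt/LD_Lin.lean.)

`R` a commutative ring, `x i = 1`, `d ≥ 1`. For `j` let `spi i j : Fin d → Fin (n+1)` be `j` at slot 0 and `i` at all other slots
(so `spi i i` is constant `i`). `lsec i x c b` is the tensor with the entry `b j` at `spi i j` (`j ≠ i`), the entry
`c - ∑ j ≠ i, b j * x j` at `spi i i`, and 0 elsewhere (the index `s` is some `spi i j` iff `∀ k ≠ 0, s k = i`; then `j = s 0`).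
`lsec_ev`: `ev (lsec i x c b) x = c`: the entry at `spi i j` is multiplied by `∏ k, x (spi i j k) = x j * 1`, and `x i = 1`.
`lsec_dev`: `dev (lsec i x c b) x j = b j` for `j ≠ i`: in `∑ k, ∑ s, if s k = j then ..` a nonzero entry `s = spi i j'` with `s k = j ≠ i` has
`k = 0` and `j' = j`, and the product over the other slots is `1`.
(Sum over `s`: `Finset.sum_bij`/`Finset.sum_subset` with the image of `spi i`, injective; or write `d = d' + 1` and use `Fin.cons`,
`Fin.consEquiv`, `Fintype.sum_equiv`.)

LD_lin.  The additive map `ψ : a ↦ (ev a x, (dev a x j)_{j ≠ i})` as in the model (`P a j = if j = i then ev a x else dev a x j`)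
has the section `t ↦ lsec i x (t i) t`; all its fibres have the same number `K` of elements and `K * m^(n+1) = m^((n+1)^d)`: the model
does the fibre over 0; the fibre over `t` is the translate by the section (`Equiv` of subtypes: `a ↦ a - lsec i x c b`).
-/

namespace Pool.Agent.Lib.MP_1ad228_ntF

open Classical

/-- The index with `j` at slot 0 and `i` elsewhere. -/
def spi {n d : ℕ} (i j : Fin (n + 1)) : Fin d → Fin (n + 1) := fun k => if (k : ℕ) = 0 then j else i

/-- The section: a tensor with value `c` at `x` and derivatives `b j`, `j ≠ i`, at `x`. -/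
noncomputable def lsec {n d : ℕ} {R : Type*} [CommRing R] (i : Fin (n + 1)) (x : Vc n R) (c : R)
    (b : Vc n R) : Ten n d R := fun s =>
  if ∃ j, s = spi i j then
    (if s = spi i i then c - ∑ j ∈ Finset.univ.erase i, b j * x j
      else ∑ j, if s = spi i j then b j else 0)
  else 0

/-- The coefficients of the section. -/
private noncomputable def ldl_cf {n : ℕ} {R : Type*} [CommRing R] (i : Fin (n + 1)) (x : Vc n R) (c : R)
    (b : Vc n R) (j : Fin (n + 1)) : R :=
  if j = i then c - ∑ j' ∈ Finset.univ.erase i, b j' * x j' else b j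

private theorem ldl_spi_zero {n d : ℕ} (hd : 1 ≤ d) (i j : Fin (n + 1)) :
    spi i j (⟨0, hd⟩ : Fin d) = j := by
  unfold spi
  rw [if_pos rfl]

private theorem ldl_spi_ne {n d : ℕ} (i j : Fin (n + 1)) (k : Fin d) (hk : (k : ℕ) ≠ 0) :
    spi i j k = i := by
  unfold spi
  rw [if_neg hk]

private theorem ldl_inj {n d : ℕ} (hd : 1 ≤ d) (i : Fin (n + 1)) {j j' : Fin (n + 1)}
    (h : (spi i j : Fin d → Fin (n + 1)) = spi i j') : j = j' := by
  have h1 := congrFun h ⟨0, hd⟩
  rwa [ldl_spi_zero hd, ldl_spi_zero hd] at h1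

private theorem ldl_lsec {n d : ℕ} (hd : 1 ≤ d) {R : Type*} [CommRing R] (i : Fin (n + 1)) (x : Vc n R)
    (c : R) (b : Vc n R) (s : Fin d → Fin (n + 1)) :
    (lsec i x c b : Ten n d R) s = ∑ j, if s = spi i j then ldl_cf i x c b j else 0 := by
  unfold lsec
  by_cases h : ∃ j, s = spi i j
  · rw [if_pos h]
    by_cases hs : s = spi i i
    · have h2 : ∑ j, (if s = spi i j then ldl_cf i x c b j else 0) = ldl_cf i x c b i := by
        rw [Finset.sum_eq_single i]
        · rw [if_pos hs]
        · intro j _ hj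
          rw [if_neg]
          intro h1
          exact hj (ldl_inj hd i (h1.symm.trans hs))
        · intro h1
          exact absurd (Finset.mem_univ _) h1
      rw [if_pos hs, h2]
      exact (if_pos rfl).symm
    · rw [if_neg hs]
      refine Finset.sum_congr rfl fun j _ => ?_
      by_cases h1 : s = spi i j
      · rw [if_pos h1, if_pos h1]
        unfold ldl_cf
        rw [if_neg]
        rintro rfl
        exact hs h1
      · rw [if_neg h1, if_neg h1]
  · rw [if_neg h]
    symm
    refine Finset.sum_eq_zero fun j _ => ?_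
    rw [if_neg]
    intro h1
    exact h ⟨j, h1⟩

/-- sums against the section -/
private theorem ldl_sum {n d : ℕ} (hd : 1 ≤ d) {R : Type*} [CommRing R] (i : Fin (n + 1)) (x : Vc n R)
    (c : R) (b : Vc n R) (w : (Fin d → Fin (n + 1)) → R) :
    ∑ s, (lsec i x c b : Ten n d R) s * w s = ∑ j, ldl_cf i x c b j * w (spi i j) := by
  have h1 : ∀ s, (lsec i x c b : Ten n d R) s * w s =
      ∑ j, if s = spi i j then ldl_cf i x c b j * w s else 0 := by
    intro s
    rw [ldl_lsec hd, Finset.sum_mul]
    refine Finset.sum_congr rfl fun j _ => ?_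
    split_ifs
    · rfl
    · rw [zero_mul]
  rw [Finset.sum_congr rfl fun s _ => h1 s, Finset.sum_comm]
  refine Finset.sum_congr rfl fun j _ => ?_
  rw [Finset.sum_ite_eq' Finset.univ (spi i j) (fun s => ldl_cf i x c b j * w s),
    if_pos (Finset.mem_univ _)]

private theorem ldl_cf_i {n : ℕ} {R : Type*} [CommRing R] (i : Fin (n + 1)) (x : Vc n R) (c : R)
    (b : Vc n R) : ldl_cf i x c b i = c - ∑ j' ∈ Finset.univ.erase i, b j' * x j' := if_pos rfl

private theorem ldl_cf_ne {n : ℕ} {R : Type*} [CommRing R] (i : Fin (n + 1)) (x : Vc n R) (c : R)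
    (b : Vc n R) {j : Fin (n + 1)} (hj : j ≠ i) : ldl_cf i x c b j = b j := if_neg hj

theorem lsec_ev {n d : ℕ} (hd : 1 ≤ d) {R : Type*} [CommRing R] (i : Fin (n + 1)) (x : Vc n R)
    (hi : x i = 1) (c : R) (b : Vc n R) : ev (lsec i x c b : Ten n d R) x = c := by
  unfold ev
  rw [ldl_sum hd i x c b (fun s => ∏ k, x (s k))]
  have h1 : ∀ j, ∏ k : Fin d, x (spi i j k) = x j := by
    intro j
    rw [Finset.prod_eq_single (⟨0, hd⟩ : Fin d)]
    · rw [ldl_spi_zero hd]
    · intro k _ hk
      rw [ldl_spi_ne i j k (fun h => hk (Fin.ext h)), hi]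
    · intro h
      exact absurd (Finset.mem_univ _) h
  simp only [h1]
  rw [← Finset.add_sum_erase _ _ (Finset.mem_univ i), ldl_cf_i, hi, mul_one]
  have h3 : ∑ j ∈ Finset.univ.erase i, ldl_cf i x c b j * x j =
      ∑ j' ∈ Finset.univ.erase i, b j' * x j' := by
    refine Finset.sum_congr rfl fun j hj => ?_
    rw [ldl_cf_ne i x c b (Finset.ne_of_mem_erase hj)]
  rw [h3, sub_add_cancel]

theorem lsec_dev {n d : ℕ} (hd : 1 ≤ d) {R : Type*} [CommRing R] (i : Fin (n + 1)) (x : Vc n R)
    (hi : x i = 1) (c : R) (b : Vc n R) (j : Fin (n + 1)) (hj : j ≠ i) :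
    dev (lsec i x c b : Ten n d R) x j = b j := by
  unfold dev
  have h1 : ∀ k : Fin d, (∑ s : Fin d → Fin (n + 1), if s k = j then
      (lsec i x c b : Ten n d R) s * ∏ l ∈ Finset.univ.erase k, x (s l) else 0) =
      ∑ j', ldl_cf i x c b j' *
        (if (spi i j' : Fin d → Fin (n + 1)) k = j then
          ∏ l ∈ Finset.univ.erase k, x (spi i j' l) else 0) := by
    intro k
    rw [← ldl_sum hd i x c b (fun s => if s k = j then ∏ l ∈ Finset.univ.erase k, x (s l) else 0)]
    refine Finset.sum_congr rfl fun s _ => ?_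
    split_ifs
    · rfl
    · rw [mul_zero]
  rw [Finset.sum_congr rfl fun k _ => h1 k, Finset.sum_eq_single (⟨0, hd⟩ : Fin d)]
  · rw [Finset.sum_eq_single j]
    · rw [if_pos (ldl_spi_zero hd i j), ldl_cf_ne i x c b hj, Finset.prod_eq_one, mul_one]
      intro l hl
      rw [ldl_spi_ne i j l (fun h => Finset.ne_of_mem_erase hl (Fin.ext h)), hi]
    · intro j' _ hj'
      rw [if_neg, mul_zero]
      rw [ldl_spi_zero hd]
      exact hj'
    · intro h
      exact absurd (Finset.mem_univ _) h
  · intro k _ hk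
    refine Finset.sum_eq_zero fun j' _ => ?_
    rw [if_neg, mul_zero]
    rw [ldl_spi_ne i j' k (fun h => hk (Fin.ext h))]
    exact hj.symm
  · intro h
    exact absurd (Finset.mem_univ _) h

theorem LD_lin {n d : ℕ} (hd : 1 ≤ d) (m : ℕ) [NeZero m] (x : Vc n (ZMod m)) (i : Fin (n + 1))
    (hi : x i = 1) (c : ZMod m) (b : Vc n (ZMod m)) :
    Nat.card {a : Ten n d (ZMod m) // ev a x = c ∧ ∀ j, j ≠ i → dev a x j = b j} * m ^ (n + 1)
      = m ^ (n + 1) ^ d := by
  let P : Ten n d (ZMod m) → Vc n (ZMod m) := fun a j => if j = i then ev a x else dev a x j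
  let T : Vc n (ZMod m) → Ten n d (ZMod m) := fun t => lsec i x (t i) t
  let t0 : Vc n (ZMod m) := fun j => if j = i then c else b j
  have hPs : ∀ t, P (T t) = t := by
    intro t
    funext j
    by_cases hj : j = i
    · subst hj
      exact (if_pos rfl).trans (lsec_ev hd j x hi (t j) t)
    · exact (if_neg hj).trans (lsec_dev hd i x hi (t i) t j hj)
  have hPadd : ∀ a b, P (a + b) = P a + P b := by
    intro a b
    funext j
    simp only [P, Pi.add_apply]
    split_ifs
    · exact ev_add a b x
    · exact dev_add a b x j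
  have hPsub : ∀ a b, P (a - b) = P a - P b := by
    intro a b
    funext j
    simp only [P, Pi.sub_apply]
    split_ifs
    · exact ev_sub a b x
    · exact dev_sub a b x j
  have hPk : ∀ a, P a = t0 ↔ (ev a x = c ∧ ∀ j, j ≠ i → dev a x j = b j) := by
    intro a
    constructor
    · intro h
      refine ⟨?_, fun j hj => ?_⟩
      · have := congrFun h i
        simpa [P, t0] using this
      · have := congrFun h j
        simpa [P, t0, hj] using this
    · rintro ⟨h1, h2⟩
      funext j
      by_cases hj : j = i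
      · simp [P, t0, hj, h1]
      · simp [P, t0, hj, h2 j hj]
  have e : Ten n d (ZMod m) ≃
      {a : Ten n d (ZMod m) // ev a x = c ∧ ∀ j, j ≠ i → dev a x j = b j} × Vc n (ZMod m) :=
    { toFun := fun a => (⟨a - T (P a - t0), by
        rw [← hPk, hPsub, hPs, sub_sub_cancel]⟩, P a)
      invFun := fun p => p.1.1 + T (p.2 - t0)
      left_inv := fun a => sub_add_cancel _ _
      right_inv := by
        rintro ⟨⟨k, hk⟩, t⟩
        have h1 : P (k + T (t - t0)) = t := by
          rw [hPadd, hPs, (hPk k).2 hk, add_sub_cancel]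
        refine Prod.ext (Subtype.ext ?_) h1
        change k + T (t - t0) - T (P (k + T (t - t0)) - t0) = k
        rw [h1, add_sub_cancel_right] }
  have h1 := Nat.card_congr e
  rw [Nat.card_prod] at h1
  have h2 : Nat.card (Ten n d (ZMod m)) = m ^ (n + 1) ^ d := by
    rw [Nat.card_eq_fintype_card, Fintype.card_fun, Fintype.card_fun, ZMod.card,
      Fintype.card_fin, Fintype.card_fin]
  have h3 : Nat.card (Vc n (ZMod m)) = m ^ (n + 1) := by
    rw [Nat.card_eq_fintype_card, Fintype.card_fun, ZMod.card, Fintype.card_fin]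
  rw [h2, h3] at h1
  exact h1.symm

end Pool.Agent.Lib.MP_1ad228_ntF
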