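import Pool.Agent.Lib.MP_1ad228_ntF.LD_Ker
import Pool.Agent.Lib.MP_1ad228_ntF.LD_Lin

/-!
JOB LD_Exc.  The exceptional classes.  (Model with proof: second half of Lib/MP_219881_nt/LD_Lin.lean.)

`LD_excOne`.  Fix `x`, `i` with `x i = 1`, `t`, `l` with `t l = 1`. The tuples `F` with `ev (F k) x = 0` for all `k` and
`∑ k, t k * dev (F k) x j = 0` for `j ≠ i`: choose the `F k`, `k ≠ l`, freely with `ev (F k) x = 0` (`K_k` choices with
`K_k * m = m^((n+1)^(d k))`, LD_ker1, `uni_one`); then `F l` has `ev (F l) x = 0` and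
`dev (F l) x j = -∑_{k ≠ l} t k * dev (F k) x j` for `j ≠ i` (`t l = 1`): `L` choices with `L * m^(n+1) = m^((n+1)^(d l))` (LD_lin, for every right hand side).
So `# * (m^(r-1) * m^(n+1)) ≤ m^V`. (Formally: the map `F ↦ ((k ≠ l) ↦ F k)` to `∀ k : {k // k ≠ l}, {a // ev a x = 0}` has
fibres injecting by `F ↦ F l` in the set of LD_lin; `Nat.card_sigma`, `Nat.card_pi`. Or: with the section `lsec` of LD_Lin the map
`F ↦ Function.update F l (F l - lsec i x 0 (b F))`, `b F j = -∑_{k ≠ l} t k * dev (F k) x j`, is injective from the set to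
`Set.pi`: all tuples `G` with `ev (G k) x = 0` (`k ≠ l`) and `ev (G l) x = 0, dev (G l) x j = 0` (`j ≠ i`): product of subtypes, `Nat.card_pi`.)
`LD_exc`.  `{F // Exc m F}` is the union of these sets over `(i, x, l, t)` with `x i = 1`, `t l = 1`: at most `(n+1) * m^n * (r * m^(r-1))` quadruples.
So `#Exc * (m^(r-1) * m^(n+1)) ≤ (n+1) m^n r m^(r-1) m^V`; cancel.  (`r = 0`: `Exc` is empty, since there is no `l`.)
-/

namespace Pool.Agent.Lib.MP_1ad228_ntF

open Classical

/-- The right hand side of the last tensor. -/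
private noncomputable def LD_Exc_b {n r m : ℕ} {d : Fin r → ℕ} (x : Vc n (ZMod m))
    (t : Fin r → ZMod m) (l : Fin r) (F : Tup n d (ZMod m)) : Vc n (ZMod m) :=
  fun j => -∑ k ∈ Finset.univ.erase l, t k * dev (F k) x j

/-- The modified tuple. -/
private noncomputable def LD_Exc_U {n r m : ℕ} {d : Fin r → ℕ} (x : Vc n (ZMod m))
    (i : Fin (n + 1)) (t : Fin r → ZMod m) (l : Fin r) (F : Tup n d (ZMod m)) :
    Tup n d (ZMod m) :=
  Function.update F l (F l - lsec i x 0 (LD_Exc_b x t l F))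

private theorem LD_Exc_Uinj {n r m : ℕ} {d : Fin r → ℕ} (x : Vc n (ZMod m))
    (i : Fin (n + 1)) (t : Fin r → ZMod m) (l : Fin r) {F F' : Tup n d (ZMod m)}
    (h : LD_Exc_U x i t l F = LD_Exc_U x i t l F') : F = F' := by
  have h1 : ∀ k, k ≠ l → F k = F' k := by
    intro k hk
    have h2 := congrFun h k
    unfold LD_Exc_U at h2
    rwa [Function.update_of_ne hk, Function.update_of_ne hk] at h2
  have h3 : LD_Exc_b x t l F = LD_Exc_b x t l F' := by
    funext j
    unfold LD_Exc_b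
    congr 1
    refine Finset.sum_congr rfl fun k hk => ?_
    rw [h1 k (Finset.ne_of_mem_erase hk)]
  have h4 := congrFun h l
  unfold LD_Exc_U at h4
  rw [Function.update_self, Function.update_self, h3] at h4
  have h5 : F l = F' l := sub_left_injective h4
  funext k
  by_cases hk : k = l
  · subst hk
    exact h5
  · exact h1 k hk

theorem LD_excOne (n : ℕ) {r : ℕ} (d : Fin r → ℕ) (hd : ∀ i, 1 ≤ d i) (m : ℕ) [NeZero m]
    (x : Vc n (ZMod m)) (i : Fin (n + 1)) (t : Fin r → ZMod m) (l : Fin r) (hi : x i = 1)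
    (hl : t l = 1) :
    Nat.card {F : Tup n d (ZMod m) // (∀ k, ev (F k) x = 0) ∧
      ∀ j, j ≠ i → ∑ k, t k * dev (F k) x j = 0} * (m ^ (r - 1) * m ^ (n + 1)) ≤ m ^ VV n d := by
  let A : Fin r → Type := fun k => {a : Ten n (d k) (ZMod m) // ev a x = 0 ∧
    (k = l → ∀ j, j ≠ i → dev a x j = 0)}
  have hA : Nat.card {F : Tup n d (ZMod m) // (∀ k, ev (F k) x = 0) ∧
      ∀ j, j ≠ i → ∑ k, t k * dev (F k) x j = 0} ≤ Nat.card ((k : Fin r) → A k) := by
    let G : {F : Tup n d (ZMod m) // (∀ k, ev (F k) x = 0) ∧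
        ∀ j, j ≠ i → ∑ k, t k * dev (F k) x j = 0} → ((k : Fin r) → A k) := fun F k =>
      ⟨LD_Exc_U x i t l F.1 k, by
        obtain ⟨F, hF1, hF2⟩ := F
        change ev (LD_Exc_U x i t l F k) x = 0 ∧
          (k = l → ∀ j, j ≠ i → dev (LD_Exc_U x i t l F k) x j = 0)
        unfold LD_Exc_U
        by_cases hk : k = l
        · subst hk
          rw [Function.update_self]
          refine ⟨?_, fun _ j hj => ?_⟩
          · rw [ev_sub, hF1 k, lsec_ev (hd k) i x hi, sub_zero]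
          · rw [dev_sub, lsec_dev (hd k) i x hi _ _ j hj]
            have h1 := hF2 j hj
            rw [← Finset.add_sum_erase _ _ (Finset.mem_univ k), hl, one_mul] at h1
            unfold LD_Exc_b
            rw [sub_neg_eq_add]
            exact h1
        · rw [Function.update_of_ne hk]
          exact ⟨hF1 k, fun h => absurd h hk⟩⟩
    refine Nat.card_le_card_of_injective G ?_
    rintro ⟨F, hF⟩ ⟨F', hF'⟩ he
    have h1 : F = F' := by
      refine LD_Exc_Uinj x i t l ?_
      funext k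
      exact congrArg Subtype.val (congrFun he k)
    subst h1
    rfl
  have hAl : Nat.card (A l) * m ^ (n + 1) = m ^ (n + 1) ^ d l := by
    have h1 := LD_lin (hd l) m x i hi 0 0
    have h2 : Nat.card (A l) = Nat.card {a : Ten n (d l) (ZMod m) // ev a x = 0 ∧
        ∀ j, j ≠ i → dev a x j = (0 : Vc n (ZMod m)) j} := by
      refine Nat.card_congr (Equiv.subtypeEquivRight fun a => ?_)
      constructor
      · rintro ⟨h3, h4⟩
        exact ⟨h3, fun j hj => h4 rfl j hj⟩
      · rintro ⟨h3, h4⟩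
        exact ⟨h3, fun _ j hj => h4 j hj⟩
    rw [h2]
    exact h1
  have hAk : ∀ k, k ≠ l → Nat.card (A k) * m = m ^ (n + 1) ^ d k := by
    intro k hk
    have h1 := LD_ker1 (d := d k) m x (uni_one hi)
    have h2 : Nat.card (A k) = Nat.card {a : Ten n (d k) (ZMod m) // ev a x = 0} := by
      refine Nat.card_congr (Equiv.subtypeEquivRight fun a => ?_)
      constructor
      · rintro ⟨h3, _⟩
        exact h3
      · intro h3
        exact ⟨h3, fun h => absurd h hk⟩
    rw [h2]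
    exact h1
  have hm : ∏ _k ∈ Finset.univ.erase l, m = m ^ (r - 1) := by
    rw [Finset.prod_const, Finset.card_erase_of_mem (Finset.mem_univ l), Finset.card_univ,
      Fintype.card_fin]
  have hprod : Nat.card ((k : Fin r) → A k) * (m ^ (r - 1) * m ^ (n + 1)) = m ^ VV n d := by
    rw [Nat.card_pi, ← Finset.mul_prod_erase _ _ (Finset.mem_univ l), ← hm]
    calc _ = (Nat.card (A l) * m ^ (n + 1)) *
          ((∏ k ∈ Finset.univ.erase l, Nat.card (A k)) * ∏ _k ∈ Finset.univ.erase l, m) := by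
          ring
      _ = m ^ (n + 1) ^ d l * ∏ k ∈ Finset.univ.erase l, m ^ (n + 1) ^ d k := by
          rw [hAl, ← Finset.prod_mul_distrib]
          congr 1
          exact Finset.prod_congr rfl fun k hk => hAk k (Finset.ne_of_mem_erase hk)
      _ = ∏ k, m ^ (n + 1) ^ d k :=
          Finset.mul_prod_erase Finset.univ (fun k => m ^ (n + 1) ^ d k) (Finset.mem_univ l)
      _ = m ^ VV n d := by
          rw [VV, Finset.prod_pow_eq_pow_sum]
  rw [← hprod]
  exact Nat.mul_le_mul_right _ hA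

theorem LD_exc (n : ℕ) {r : ℕ} (d : Fin r → ℕ) (hd : ∀ i, 1 ≤ d i) (m : ℕ) [NeZero m] :
    Nat.card {F : Tup n d (ZMod m) // Exc m F} * m ≤ r * (n + 1) * m ^ VV n d := by
  rcases r with _ | r
  · have h0 : IsEmpty {F : Tup n d (ZMod m) // Exc m F} := by
      refine ⟨fun F => ?_⟩
      obtain ⟨F, x, i, t, l, _⟩ := F
      exact Fin.elim0 l
    rw [Nat.card_of_isEmpty, zero_mul]
    exact Nat.zero_le _
  let Q := {p : (Fin (n + 1) × Vc n (ZMod m)) × (Fin (r + 1) × (Fin (r + 1) → ZMod m)) //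
    p.1.2 p.1.1 = 1 ∧ p.2.2 p.2.1 = 1}
  let T : Q → Type := fun p => {F : Tup n d (ZMod m) // (∀ k, ev (F k) p.1.1.2 = 0) ∧
      ∀ j, j ≠ p.1.1.1 → ∑ k, p.1.2.2 k * dev (F k) p.1.1.2 j = 0}
  let F : (Σ p : Q, T p) → {F : Tup n d (ZMod m) // Exc m F} := fun s =>
    ⟨s.2.1, s.1.1.1.2, s.1.1.1.1, s.1.1.2.2, s.1.1.2.1, s.1.2.1, s.1.2.2, s.2.2.1, s.2.2.2⟩
  have hF : Function.Surjective F := by
    rintro ⟨G, x, i, t, l, hi, hl, h1, h2⟩
    exact ⟨⟨⟨((i, x), (l, t)), hi, hl⟩, ⟨G, h1, h2⟩⟩, rfl⟩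
  have h1 : Nat.card {F : Tup n d (ZMod m) // Exc m F} ≤
      Nat.card (Σ p : Q, T p) := Nat.card_le_card_of_surjective F hF
  have h2 : Nat.card (Σ p : Q, T p) * (m ^ r * m ^ (n + 1)) ≤
      Nat.card Q * m ^ VV n d := by
    rw [Nat.card_sigma, Finset.sum_mul]
    calc ∑ p : Q, Nat.card (T p) * (m ^ r * m ^ (n + 1)) ≤ ∑ _p : Q, m ^ VV n d :=
          Finset.sum_le_sum fun p _ => LD_excOne n d hd m p.1.1.2 p.1.1.1 p.1.2.2 p.1.2.1
            p.2.1 p.2.2
      _ = Nat.card Q * m ^ VV n d := by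
          rw [Finset.sum_const, Finset.card_univ, smul_eq_mul, Nat.card_eq_fintype_card]
  let G : Q → (Fin (n + 1) × (Fin n → ZMod m)) × (Fin (r + 1) × (Fin r → ZMod m)) := fun p =>
    ((p.1.1.1, fun k => p.1.1.2 (p.1.1.1.succAbove k)),
      (p.1.2.1, fun k => p.1.2.2 (p.1.2.1.succAbove k)))
  have hG : Function.Injective G := by
    rintro ⟨⟨⟨i, x⟩, ⟨l, t⟩⟩, hx, ht⟩ ⟨⟨⟨i', x'⟩, ⟨l', t'⟩⟩, hx', ht'⟩ h
    have e1 : i = i' := congrArg (fun z => z.1.1) h
    subst e1
    have e2 : (fun k => x (i.succAbove k)) = fun k => x' (i.succAbove k) :=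
      congrArg (fun z => z.1.2) h
    have e4 : l = l' := congrArg (fun z => z.2.1) h
    subst e4
    have e5 : (fun k => t (l.succAbove k)) = fun k => t' (l.succAbove k) :=
      congrArg (fun z => z.2.2) h
    have e3 : x = x' := by
      funext j
      rcases Fin.eq_self_or_eq_succAbove i j with hj | ⟨k, hk⟩
      · subst hj
        exact hx.trans hx'.symm
      · rw [hk]
        exact congrFun e2 k
    have e6 : t = t' := by
      funext j
      rcases Fin.eq_self_or_eq_succAbove l j with hj | ⟨k, hk⟩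
      · subst hj
        exact ht.trans ht'.symm
      · rw [hk]
        exact congrFun e5 k
    subst e3 e6
    rfl
  have h4 : Nat.card Q ≤ ((n + 1) * m ^ n) * ((r + 1) * m ^ r) := by
    refine (Nat.card_le_card_of_injective G hG).trans_eq ?_
    rw [Nat.card_prod, Nat.card_prod, Nat.card_prod, Nat.card_eq_fintype_card,
      Nat.card_eq_fintype_card, Nat.card_eq_fintype_card, Nat.card_eq_fintype_card,
      Fintype.card_fun, Fintype.card_fun, ZMod.card, Fintype.card_fin, Fintype.card_fin,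
      Fintype.card_fin, Fintype.card_fin]
  have h5 : (Nat.card {F : Tup n d (ZMod m) // Exc m F} * m) * (m ^ r * m ^ n) ≤
      ((r + 1) * (n + 1) * m ^ VV n d) * (m ^ r * m ^ n) := by
    calc _ = Nat.card {F : Tup n d (ZMod m) // Exc m F} * (m ^ r * m ^ (n + 1)) := by
          rw [pow_succ m n]
          ring
      _ ≤ Nat.card (Σ p : Q, T p) * (m ^ r * m ^ (n + 1)) := Nat.mul_le_mul_right _ h1
      _ ≤ Nat.card Q * m ^ VV n d := h2
      _ ≤ (((n + 1) * m ^ n) * ((r + 1) * m ^ r)) * m ^ VV n d := Nat.mul_le_mul_right _ h4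
      _ = ((r + 1) * (n + 1) * m ^ VV n d) * (m ^ r * m ^ n) := by ring
  exact Nat.le_of_mul_le_mul_right h5
    (Nat.mul_pos (pow_pos (NeZero.pos m) _) (pow_pos (NeZero.pos m) _))

end Pool.Agent.Lib.MP_1ad228_ntF
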