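import Pool.Agent.Lib.MP_1ad228_ntF.LD_Norm
import Pool.Agent.Lib.MP_1ad228_ntF.LD_Newt

/-!
JOB LD_Hensel.  Many zeros mod `p^w`.  (Model with proof: Lib/MP_219881_nt/LD_Hensel.lean; adapt it.
LD_Norm and LD_Newt are other jobs: use LD_norm, LD_minor, LD_stay, LD_lift.)

PROOF.  LD_norm gives `x : Vc n ℤ_[p]`, `x i = 1`; LD_minor gives the injective `S` (`S k ≠ i`) with the minor not
divisible by `p^(D+1)`, `D = r (e-1)`; `2 D + 1 ≤ 2 r e =: m ≤ w` (`r ≥ 1`, `e ≥ 1`). For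
`s : {l // ∀ k, l ≠ S k} → Fin (p^(w - 2re))` put `x_s l = x l + p^(2re) * s l` for `l` not in the range of `S` and
`x_s (S k) = x (S k)`. `ev (F k) x_s ≡ ev (F k) x = 0 mod p^(2re)` (`ev_congr_dvd`); the minor condition is
kept (LD_stay with `c = 2re`). LD_lift (with `m`, `w`) gives `x_s'` with the same coordinates outside of `S` and
`p^w ∣ ev (F k) x_s'`. Reduce mod `p^w` (`PadicInt.toZModPow w`): a common zero of
`ctT (ZMod (p^w)) F` (`ev_map`, kernel); unimodular because the `i`-th coordinate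
`1 + p^(2re) s_i` is a unit (`2re ≥ 1`). Different `s` give different reductions: if
`p^(2re) s_l ≡ p^(2re) s'_l mod p^w` for all `l` outside of `S` then `s_l = s'_l` (`0 ≤ s_l < p^(w-2re)`). The index set
`{l // ∀ k, l ≠ S k}` has `n + 1 - r` elements (`S` injective), so there are `(p^(w-2re))^(n+1-r)` different zeros
(`Nat.card_le_card_of_injective`).
-/

namespace Pool.Agent.Lib.MP_1ad228_ntF

open Classical

private theorem ldhensel_ctmap {n d : ℕ} {R S : Type*} [CommRing R] [CommRing S] (f : R →+* S)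
    (a : Ten n d ℤ) : (fun s => f (ct R a s)) = ct S a := by
  funext s
  simp [ct]

private theorem ldhensel_card (n r : ℕ) (S : Fin r → Fin (n + 1)) (hS : Function.Injective S) :
    Nat.card {l : Fin (n + 1) // ∀ k, l ≠ S k} = n + 1 - r := by
  rw [Nat.card_eq_fintype_card, Fintype.card_subtype]
  have h1 : (Finset.univ.filter fun l : Fin (n + 1) => ∀ k, l ≠ S k)
      = (Finset.univ.image S)ᶜ := by
    ext l
    simp only [Finset.mem_filter, Finset.mem_univ, true_and, Finset.mem_compl, Finset.mem_image,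
      not_exists]
    exact forall_congr' fun k => ⟨fun h h2 => h h2.symm, fun h h2 => h h2.symm⟩
  rw [h1, Finset.card_compl, Fintype.card_fin, Finset.card_image_of_injective _ hS,
    Finset.card_univ, Fintype.card_fin]

private theorem ldhensel_red (p : ℕ) [Fact p.Prime] (w : ℕ) (z : ℤ_[p])
    (hz : (p : ℤ_[p]) ^ w ∣ z) : PadicInt.toZModPow w z = 0 := by
  obtain ⟨c, rfl⟩ := hz
  rw [map_mul, map_pow, map_natCast]
  have h4 : ((p : ZMod (p ^ w))) ^ w = ((p ^ w : ℕ) : ZMod (p ^ w)) := by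
    push_cast; rfl
  rw [h4, ZMod.natCast_self, zero_mul]

theorem LD_hensel {n r : ℕ} {d : Fin r → ℕ} (hr : 1 ≤ r) (p : ℕ) [Fact p.Prime] (e w : ℕ)
    (he : 1 ≤ e) (hw : 2 * r * e ≤ w) (F : Tup n d ℤ)
    (h : ∃ x : Vc n ℚ_[p], x ≠ 0 ∧ ∀ k, ev (ct ℚ_[p] (F k)) x = 0)
    (hex : ¬ Exc (p ^ e) (ctT (ZMod (p ^ e)) F)) :
    p ^ ((n + 1 - r) * (w - 2 * r * e)) ≤ sm (p ^ w) (ctT (ZMod (p ^ w)) F) := by
  have hp : p.Prime := Fact.out
  obtain ⟨x, i, hxi, hx0⟩ := LD_norm p F h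
  obtain ⟨S, hSi, hS, hmin⟩ := LD_minor p e he F x i hxi hx0 hex
  obtain ⟨g, hg⟩ : ∃ g : ℕ, g = 2 * r * e := ⟨_, rfl⟩
  rw [← hg] at hw ⊢
  have hre : r * (e - 1) + r = r * e := by
    obtain ⟨e', rfl⟩ : ∃ e', e = e' + 1 := ⟨e - 1, by omega⟩
    rw [Nat.add_sub_cancel]
    ring
  have hg2 : g = 2 * (r * e) := by rw [hg, mul_assoc]
  have hg1 : 2 * (r * (e - 1)) + 1 ≤ g := by omega
  have hgD : r * (e - 1) + 1 ≤ g := by omega
  have hg0 : 0 < g := by omega
  set q : ℕ := p ^ (w - g) with hq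
  have hzero : ∀ s : {l : Fin (n + 1) // ∀ k, l ≠ S k} → Fin q, ∃ y : Vc n ℤ_[p],
      (∀ l (hl : ∀ k, l ≠ S k), y l = x l + (p : ℤ_[p]) ^ g * ((s ⟨l, hl⟩ : ℕ) : ℤ_[p]))
        ∧ ∀ k, (p : ℤ_[p]) ^ w ∣ ev (ct ℤ_[p] (F k)) y := by
    intro s
    let hh : Vc n ℤ_[p] := fun l => if hl : ∀ k, l ≠ S k then (p : ℤ_[p]) ^ g *
      ((s ⟨l, hl⟩ : ℕ) : ℤ_[p]) else 0
    have hhl : ∀ l (hl : ∀ k, l ≠ S k), hh l = (p : ℤ_[p]) ^ g *
        ((s ⟨l, hl⟩ : ℕ) : ℤ_[p]) := by
      intro l hl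
      show (if hl : ∀ k, l ≠ S k then (p : ℤ_[p]) ^ g *
        ((s ⟨l, hl⟩ : ℕ) : ℤ_[p]) else 0) = _
      rw [dif_pos hl]
    have hdv : ∀ l, (p : ℤ_[p]) ^ g ∣ hh l := by
      intro l
      by_cases hl : ∀ k, l ≠ S k
      · rw [hhl l hl]
        exact dvd_mul_right _ _
      · have : hh l = 0 := by
          show (if hl : ∀ k, l ≠ S k then (p : ℤ_[p]) ^ g *
            ((s ⟨l, hl⟩ : ℕ) : ℤ_[p]) else 0) = _
          rw [dif_neg hl]
        rw [this]
        exact dvd_zero _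
    have hxx : ∀ l, (p : ℤ_[p]) ^ g ∣ (x + hh) l - x l := fun l => by
      rw [Pi.add_apply, add_sub_cancel_left]
      exact hdv l
    have hJ := LD_stay p g (r * (e - 1)) hgD (ctT ℤ_[p] F) x (x + hh) S hxx hmin
    obtain ⟨y, hy1, -, hy0⟩ := LD_lift p (r * (e - 1)) g w hg1 hw (ctT ℤ_[p] F) (x + hh) S hS
      (fun l => by
        have h1 := ev_congr_dvd (ct ℤ_[p] (F l)) x hh ((p : ℤ_[p]) ^ g) hdv
        rw [hx0 l, sub_zero] at h1
        exact h1) hJ
    refine ⟨y, ?_, hy0⟩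
    intro l hl
    rw [hy1 l hl, Pi.add_apply, hhl l hl]
  choose y hy1 hy0 using hzero
  have hw0 : 0 < w := by omega
  have hNZ : NeZero (p ^ w) := ⟨pow_ne_zero _ hp.ne_zero⟩
  have hnil : IsNilpotent ((p : ZMod (p ^ w))) := by
    refine ⟨w, ?_⟩
    have h4 : ((p : ZMod (p ^ w))) ^ w = ((p ^ w : ℕ) : ZMod (p ^ w)) := by
      push_cast; rfl
    rw [h4, ZMod.natCast_self]
  have hij : ∀ k, i ≠ S k := fun k => (hSi k).symm
  let f : ({l : Fin (n + 1) // ∀ k, l ≠ S k} → Fin q) →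
      {z : Vc n (ZMod (p ^ w)) // Uni z ∧ ∀ k, ev (ctT (ZMod (p ^ w)) F k) z = 0} := fun s =>
    ⟨fun l => PadicInt.toZModPow w (y s l), by
      refine ⟨?_, ?_⟩
      · have h11 : PadicInt.toZModPow w (y s i) = 1 + (p : ZMod (p ^ w)) ^ g *
            ((s ⟨i, hij⟩ : ℕ) : ZMod (p ^ w)) := by
          rw [hy1 s i hij, hxi, map_add, map_one, map_mul, map_pow, map_natCast, map_natCast]
        have h12 : IsNilpotent ((p : ZMod (p ^ w)) ^ g *
            ((s ⟨i, hij⟩ : ℕ) : ZMod (p ^ w))) := by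
          refine Commute.isNilpotent_mul_right (Commute.all _ _) ?_
          exact hnil.pow_of_pos (by omega)
        have h13 : IsUnit (PadicInt.toZModPow w (y s i)) := by
          rw [h11]
          exact h12.isUnit_one_add
        obtain ⟨c, hc⟩ := h13.exists_left_inv
        refine ⟨Pi.single i c, ?_⟩
        have h14 : lin (Pi.single i c) (fun l => PadicInt.toZModPow w (y s l))
            = c * PadicInt.toZModPow w (y s i) := by
          simp [lin, Pi.single_apply]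
        rw [h14, hc]
      · intro k
        have h15 := ev_map (PadicInt.toZModPow (p := p) w) (ct ℤ_[p] (F k)) (y s)
        rw [ldhensel_ctmap, ldhensel_red p w _ (hy0 s k)] at h15
        exact h15⟩
  have hf : Function.Injective f := by
    intro s s' hss
    funext ⟨l, hl⟩
    have h16 : PadicInt.toZModPow w (y s l) = PadicInt.toZModPow w (y s' l) :=
      congrFun (congrArg Subtype.val hss) l
    rw [hy1 s l hl, hy1 s' l hl, map_add, map_add] at h16
    have h17 := add_left_cancel h16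
    rw [map_mul, map_mul, map_pow, map_natCast, map_natCast, map_natCast] at h17
    have h18 : ((p ^ g * (s ⟨l, hl⟩ : ℕ) : ℕ) : ZMod (p ^ w))
        = ((p ^ g * (s' ⟨l, hl⟩ : ℕ) : ℕ) : ZMod (p ^ w)) := by
      push_cast
      exact h17
    have hlt : ∀ t : Fin q, p ^ g * (t : ℕ) < p ^ w := by
      intro t
      have h19 : p ^ w = p ^ g * q := by
        rw [hq, ← pow_add]
        congr 1
        omega
      rw [h19]
      exact Nat.mul_lt_mul_of_pos_left t.2 (pow_pos hp.pos _)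
    have h20 := congrArg ZMod.val h18
    rw [ZMod.val_cast_of_lt (hlt _), ZMod.val_cast_of_lt (hlt _)] at h20
    exact Fin.ext (Nat.eq_of_mul_eq_mul_left (pow_pos hp.pos _) h20)
  have hcard := Nat.card_le_card_of_injective f hf
  have h21 : Nat.card ({l : Fin (n + 1) // ∀ k, l ≠ S k} → Fin q)
      = p ^ ((n + 1 - r) * (w - g)) := by
    rw [Nat.card_fun, Nat.card_eq_fintype_card (α := Fin q), Fintype.card_fin,
      ldhensel_card n r S hS, hq, ← pow_mul, mul_comm]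
  rw [← h21]
  exact hcard

end Pool.Agent.Lib.MP_1ad228_ntF
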