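import Pool.Agent.Lib.MP_1ad228_ntF.LD_MomC
import Pool.Agent.Lib.MP_1ad228_ntF.LD_Exc
import Pool.Agent.Lib.MP_1ad228_ntF.LD_Equi
import Pool.Agent.Lib.MP_1ad228_ntF.LD_Hensel
import Pool.Agent.Lib.MP_1ad228_ntF.LD_Crt

/-!
JOB LocDens.  Assembly of the local densities.  (Model with proof: Lib/MP_219881_nt/LocDens.lean; adapt it to tuples.)

Given `ε`, choose `p0 ≥ 8` with `32 / p0 ≤ ε / 2` (LD_M1 and LD_equi: the tuples with `sm W2 * W2^r ≤ W2^(n+1)/2`, `W2` the part of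
`WW w` prime to all `p ≤ p0`, are at most `32/p0 (2A+1)^V`), then `e ≥ 1` with `2 r (n+1) (p0+1) / 2^e ≤ ε / 2`
(LD_exc and LD_equi: the tuples with `Exc (p^e)` are at most `2 r (n+1) / p^e (2A+1)^V`, for each `p ≤ p0`), then
`τ = 1/2 * ∏_{p ≤ p0} p^(-2 r e (n+1-r))`, `w0 = 2 r e + p0`. For `w ≥ w0` outside of the exceptional sets, with `PSol F`:
LD_hensel for `p ≤ p0`: `sm (p^w) ≥ p^((n+1-r)(w-2re))`, so by LD_prod and LD_mul
`sm (WW w) ≥ ∏_{p ≤ p0} p^((n+1-r)(w-2re)) * W2^(n+1-r)/2`, that is `sm (WW w) * (WW w)^r ≥ τ (WW w)^(n+1)`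
(`p^((n+1-r)(w-2re)) (p^w)^r = p^(-2re(n+1-r)) (p^w)^(n+1)`, `r ≤ n+1`).
-/

namespace Pool.Agent.Lib.MP_1ad228_ntF

open Classical

/-- Counting for the singular classes. -/
private theorem locdens_excBox (n : ℕ) {r : ℕ} (d : Fin r → ℕ) (hd : ∀ i, 1 ≤ d i) (p e : ℕ)
    (hp : p.Prime) : ∃ A0 : ℕ, ∀ A ≥ A0,
    (((TBox n d A).filter fun F => Exc (p ^ e) (ctT (ZMod (p ^ e)) F)).card : ℝ) ≤
      2 * (r * (n + 1)) / (p : ℝ) ^ e * (2 * A + 1 : ℝ) ^ VV n d := by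
  have : NeZero (p ^ e) := ⟨(pow_pos hp.pos e).ne'⟩
  obtain ⟨A0, hA0⟩ := LD_equi n d (p ^ e)
  refine ⟨A0, fun A hA => ?_⟩
  have h1 := hA0 A hA (Finset.univ.filter fun F : Tup n d (ZMod (p ^ e)) => Exc (p ^ e) F)
  have h2 : ((TBox n d A).filter fun F => ctT (ZMod (p ^ e)) F ∈
      (Finset.univ.filter fun F : Tup n d (ZMod (p ^ e)) => Exc (p ^ e) F)) =
      (TBox n d A).filter fun F => Exc (p ^ e) (ctT (ZMod (p ^ e)) F) := by
    refine Finset.filter_congr fun F _ => ?_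
    simp only [Finset.mem_filter, Finset.mem_univ, true_and]
  rw [h2] at h1
  refine h1.trans ?_
  have h3 : (Finset.univ.filter fun F : Tup n d (ZMod (p ^ e)) => Exc (p ^ e) F).card * p ^ e ≤
      r * (n + 1) * (p ^ e) ^ VV n d := by
    have := LD_exc n d hd (p ^ e)
    rwa [Nat.card_eq_fintype_card, Fintype.card_subtype] at this
  have h4 : ((Finset.univ.filter fun F : Tup n d (ZMod (p ^ e)) => Exc (p ^ e) F).card : ℝ) *
      (p : ℝ) ^ e ≤ r * (n + 1) * ((p : ℝ) ^ e) ^ VV n d := by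
    exact_mod_cast h3
  have hpe : (0 : ℝ) < (p : ℝ) ^ e := pow_pos (by exact_mod_cast hp.pos) e
  generalize ((Finset.univ.filter fun F : Tup n d (ZMod (p ^ e)) => Exc (p ^ e) F).card : ℝ) = c
    at h4
  have h5 : 2 * (c / (((p ^ e : ℕ) : ℝ) ^ VV n d)) ≤ 2 * (r * (n + 1)) / (p : ℝ) ^ e := by
    push_cast
    have h6 : c / (((p : ℝ) ^ e) ^ VV n d) ≤ (r * (n + 1)) / (p : ℝ) ^ e := by
      rw [div_le_div_iff₀ (by positivity) hpe]
      exact h4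
    calc 2 * (c / (((p : ℝ) ^ e) ^ VV n d)) ≤ 2 * ((r * (n + 1)) / (p : ℝ) ^ e) :=
          mul_le_mul_of_nonneg_left h6 (by norm_num)
      _ = 2 * (r * (n + 1)) / (p : ℝ) ^ e := by ring
  exact mul_le_mul_of_nonneg_right h5 (by positivity)

/-- Counting for the classes with few zeros. -/
private theorem locdens_fewBox (n : ℕ) {r : ℕ} (hn : r + 2 ≤ n) (d : Fin r → ℕ)
    (hd : ∀ i, 1 ≤ d i) (m : ℕ) [NeZero m] (p0 : ℕ) (hp0 : 8 ≤ p0)
    (hm : ∀ c, c ∣ m → 1 < c → p0 < c) : ∃ A0 : ℕ, ∀ A ≥ A0,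
    (((TBox n d A).filter fun F =>
        (sm m (ctT (ZMod m) F) : ℝ) * (m : ℝ) ^ r ≤ (m : ℝ) ^ (n + 1) / 2).card : ℝ) ≤
      32 / (p0 : ℝ) * (2 * A + 1 : ℝ) ^ VV n d := by
  obtain ⟨A0, hA0⟩ := LD_equi n d m
  refine ⟨A0, fun A hA => ?_⟩
  have h1 := hA0 A hA (Finset.univ.filter fun F : Tup n d (ZMod m) =>
    (sm m F : ℝ) * (m : ℝ) ^ r ≤ (m : ℝ) ^ (n + 1) / 2)
  have h2 : ((TBox n d A).filter fun F => ctT (ZMod m) F ∈
      (Finset.univ.filter fun F : Tup n d (ZMod m) =>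
        (sm m F : ℝ) * (m : ℝ) ^ r ≤ (m : ℝ) ^ (n + 1) / 2)) =
      (TBox n d A).filter fun F =>
        (sm m (ctT (ZMod m) F) : ℝ) * (m : ℝ) ^ r ≤ (m : ℝ) ^ (n + 1) / 2 := by
    refine Finset.filter_congr fun F _ => ?_
    simp only [Finset.mem_filter, Finset.mem_univ, true_and]
  rw [h2] at h1
  refine h1.trans ?_
  have h3 := LD_M1 n hn d hd m p0 hp0 hm
  have hm : (0 : ℝ) < (m : ℝ) := by exact_mod_cast Nat.pos_of_ne_zero (NeZero.ne m)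
  generalize ((Finset.univ.filter fun F : Tup n d (ZMod m) =>
      (sm m F : ℝ) * (m : ℝ) ^ r ≤ (m : ℝ) ^ (n + 1) / 2).card : ℝ) = c at h3
  have h5 : 2 * (c / ((m : ℝ) ^ VV n d)) ≤ 32 / (p0 : ℝ) := by
    have h6 : c / ((m : ℝ) ^ VV n d) ≤ 16 / (p0 : ℝ) := by
      rw [div_le_iff₀ (by positivity)]
      exact h3
    calc 2 * (c / ((m : ℝ) ^ VV n d)) ≤ 2 * (16 / (p0 : ℝ)) :=
          mul_le_mul_of_nonneg_left h6 (by norm_num)
      _ = 32 / (p0 : ℝ) := by ring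
  exact mul_le_mul_of_nonneg_right h5 (by positivity)

/-- Primes up to `w`, with a condition. -/
private theorem locdens_split (w p0 : ℕ) (hw : p0 ≤ w) :
    WW w = (∏ p ∈ (Finset.range (p0 + 1)).filter Nat.Prime, p ^ w) *
      ∏ p ∈ ((Finset.range (w + 1)).filter Nat.Prime).filter (fun p => ¬ p ≤ p0), p ^ w := by
  unfold Pool.Agent.Lib.MP_219881_nt.WW
  rw [← Finset.prod_filter_mul_prod_filter_not ((Finset.range (w + 1)).filter Nat.Prime)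
    (fun p => p ≤ p0)]
  have h : ((Finset.range (w + 1)).filter Nat.Prime).filter (fun p => p ≤ p0) =
      (Finset.range (p0 + 1)).filter Nat.Prime := by
    ext p
    simp only [Finset.mem_filter, Finset.mem_range]
    constructor
    · rintro ⟨⟨_, h2⟩, h3⟩
      exact ⟨by omega, h2⟩
    · rintro ⟨h1, h2⟩
      exact ⟨⟨by omega, h2⟩, by omega⟩
  rw [h]

/-- Lower bound for the number of zeros outside the exceptional sets. -/
private theorem locdens_lower (n : ℕ) {r : ℕ} (hr : 1 ≤ r) (hn : r + 2 ≤ n) (d : Fin r → ℕ)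
    (w p0 e : ℕ) (hw : p0 ≤ w) (he : 1 ≤ e)
    (hwe : 2 * r * e ≤ w) (F : Tup n d ℤ) (hsol : PSol F)
    (h1 : ∀ p ∈ (Finset.range (p0 + 1)).filter Nat.Prime,
      ¬ Exc (p ^ e) (ctT (ZMod (p ^ e)) F))
    (W2 : ℕ) (hW2 : W2 =
      ∏ p ∈ ((Finset.range (w + 1)).filter Nat.Prime).filter (fun p => ¬ p ≤ p0), p ^ w)
    (h2 : (W2 : ℝ) ^ (n + 1) / 2 <
      (sm W2 (ctT (ZMod W2) F) : ℝ) * (W2 : ℝ) ^ r) :
    (1 / 2 * ∏ p ∈ (Finset.range (p0 + 1)).filter Nat.Prime,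
        (1 / ((p : ℝ) ^ (2 * r * e * (n + 1 - r))))) * (WW w : ℝ) ^ (n + 1) ≤
      (sm (WW w) (ctT (ZMod (WW w)) F) : ℝ) * (WW w : ℝ) ^ r := by
  have hs := locdens_split w p0 hw
  rw [← hW2] at hs
  have hW1 : (∏ p ∈ (Finset.range (p0 + 1)).filter Nat.Prime, p ^ w) ≠ 0 := by
    refine Finset.prod_ne_zero_iff.2 fun p hp => ?_
    exact (pow_pos (Finset.mem_filter.1 hp).2.pos _).ne'
  have hW2' : W2 ≠ 0 := by
    rw [hW2]
    refine Finset.prod_ne_zero_iff.2 fun p hp => ?_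
    exact (pow_pos (Finset.mem_filter.1 (Finset.mem_filter.1 hp).1).2.pos _).ne'
  have hcop : (∏ p ∈ (Finset.range (p0 + 1)).filter Nat.Prime, p ^ w).Coprime W2 := by
    rw [hW2]
    refine Nat.Coprime.prod_left fun p hp => Nat.Coprime.prod_right fun l hl => ?_
    simp only [Finset.mem_filter, Finset.mem_range] at hp hl
    refine Nat.Coprime.pow _ _ ((Nat.coprime_primes hp.2 hl.1.2).2 ?_)
    omega
  have hmul := LD_mul _ _ hW1 hW2' hcop F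
  have hprod := LD_prod ((Finset.range (p0 + 1)).filter Nat.Prime) (fun p => p ^ w)
    (fun p hp => (pow_pos (Finset.mem_filter.1 hp).2.pos _).ne')
    (fun p hp l hl hpl => Nat.Coprime.pow _ _
      ((Nat.coprime_primes (Finset.mem_filter.1 hp).2 (Finset.mem_filter.1 hl).2).2 hpl)) F
  have hloc : ∏ p ∈ (Finset.range (p0 + 1)).filter Nat.Prime,
      p ^ ((n + 1 - r) * (w - 2 * r * e)) ≤
      ∏ p ∈ (Finset.range (p0 + 1)).filter Nat.Prime,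
        sm (p ^ w) (ctT (ZMod (p ^ w)) F) := by
    refine Finset.prod_le_prod' fun p hp => ?_
    have : Fact p.Prime := ⟨(Finset.mem_filter.1 hp).2⟩
    exact LD_hensel hr p e w he hwe F (hsol p) (h1 p hp)
  have hnat : (∏ p ∈ (Finset.range (p0 + 1)).filter Nat.Prime,
      p ^ ((n + 1 - r) * (w - 2 * r * e))) *
      sm W2 (ctT (ZMod W2) F) ≤
      sm (WW w) (ctT (ZMod (WW w)) F) := by
    rw [hs]
    exact (Nat.mul_le_mul_right _ (hloc.trans hprod)).trans hmul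
  have hall : ((∏ p ∈ (Finset.range (p0 + 1)).filter Nat.Prime,
      p ^ ((n + 1 - r) * (w - 2 * r * e)) : ℕ) : ℝ) *
      (sm W2 (ctT (ZMod W2) F) : ℝ) ≤
      (sm (WW w) (ctT (ZMod (WW w)) F) : ℝ) := by
    exact_mod_cast hnat
  have hcast : (WW w : ℝ) = (∏ p ∈ (Finset.range (p0 + 1)).filter Nat.Prime, (p : ℝ) ^ w) *
      (W2 : ℝ) := by
    rw [hs]
    push_cast
    ring
  have hrr : ∀ p ∈ (Finset.range (p0 + 1)).filter Nat.Prime,
      (1 / ((p : ℝ) ^ (2 * r * e * (n + 1 - r)))) * ((p : ℝ) ^ w) ^ (n + 1) =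
        (p : ℝ) ^ ((n + 1 - r) * (w - 2 * r * e)) * ((p : ℝ) ^ w) ^ r := by
    intro p hp
    have hp0 : (0 : ℝ) < (p : ℝ) := by exact_mod_cast (Finset.mem_filter.1 hp).2.pos
    rw [one_div, inv_mul_eq_div, div_eq_iff (pow_pos hp0 _).ne', ← pow_mul, ← pow_mul, ← pow_add,
      ← pow_add]
    obtain ⟨k, hk⟩ : ∃ k, n + 1 = r + k := ⟨n + 1 - r, by omega⟩
    obtain ⟨v, rfl⟩ : ∃ v, w = 2 * r * e + v := ⟨w - 2 * r * e, by omega⟩
    rw [hk, Nat.add_sub_cancel_left, Nat.add_sub_cancel_left]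
    congr 1
    ring
  have hstep : (1 / 2 * ∏ p ∈ (Finset.range (p0 + 1)).filter Nat.Prime,
        (1 / ((p : ℝ) ^ (2 * r * e * (n + 1 - r))))) * (WW w : ℝ) ^ (n + 1) =
      ((∏ p ∈ (Finset.range (p0 + 1)).filter Nat.Prime,
          (p : ℝ) ^ ((n + 1 - r) * (w - 2 * r * e))) *
        (∏ p ∈ (Finset.range (p0 + 1)).filter Nat.Prime, (p : ℝ) ^ w) ^ r) *
        ((W2 : ℝ) ^ (n + 1) / 2) := by
    rw [hcast, mul_pow, ← Finset.prod_pow, ← Finset.prod_pow, ← Finset.prod_mul_distrib,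
      ← Finset.prod_congr rfl hrr, Finset.prod_mul_distrib]
    ring
  rw [hstep]
  have hpos : 0 ≤ (∏ p ∈ (Finset.range (p0 + 1)).filter Nat.Prime,
      (p : ℝ) ^ ((n + 1 - r) * (w - 2 * r * e))) *
        (∏ p ∈ (Finset.range (p0 + 1)).filter Nat.Prime, (p : ℝ) ^ w) ^ r := by positivity
  refine (mul_le_mul_of_nonneg_left h2.le hpos).trans ?_
  have hall2 := mul_le_mul_of_nonneg_right hall
    (pow_nonneg (Nat.cast_nonneg (α := ℝ) (WW w)) r)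
  refine le_trans (le_of_eq ?_) hall2
  rw [hcast, mul_pow]
  push_cast
  ring

theorem locDens (n : ℕ) {r : ℕ} (hr : 1 ≤ r) (hn : r + 2 ≤ n) (d : Fin r → ℕ)
    (hd : ∀ i, 1 ≤ d i) (ε : ℝ) (hε : 0 < ε) : ∃ τ : ℝ, 0 < τ ∧ ∃ w0 : ℕ,
    ∀ w ≥ w0, ∃ A0 : ℕ, ∀ A ≥ A0,
    (((TBox n d A).filter fun F => PSol F ∧
        (sm (WW w) (ctT (ZMod (WW w)) F) : ℝ) * (WW w : ℝ) ^ r
          < τ * (WW w : ℝ) ^ (n + 1)).card : ℝ)
      ≤ ε * (2 * A + 1 : ℝ) ^ VV n d := by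
  obtain ⟨p1, hp1⟩ := exists_nat_gt (64 / ε)
  obtain ⟨p0, hp0def⟩ : ∃ p0 : ℕ, p0 = p1 + 8 := ⟨_, rfl⟩
  have hp08 : 8 ≤ p0 := by omega
  have hp0pos : (0 : ℝ) < (p0 : ℝ) := by exact_mod_cast (by omega : 0 < p0)
  have hp0 : 32 / (p0 : ℝ) ≤ ε / 2 := by
    rw [div_le_div_iff₀ hp0pos (by norm_num)]
    have h1 : 64 < p1 * ε := by
      rwa [div_lt_iff₀ hε] at hp1
    have h2 : (p0 : ℝ) = p1 + 8 := by rw [hp0def]; push_cast; ring
    rw [h2]
    nlinarith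
  obtain ⟨e1, he1⟩ := pow_unbounded_of_one_lt (4 * ((r : ℝ) * (n + 1)) * (p0 + 1) / ε)
    (by norm_num : (1 : ℝ) < 2)
  obtain ⟨e, hedef⟩ : ∃ e : ℕ, e = e1 + 1 := ⟨_, rfl⟩
  have he : 1 ≤ e := by omega
  have he2 : 4 * ((r : ℝ) * (n + 1)) * ((p0 : ℝ) + 1) / ε ≤ 2 ^ e := by
    refine he1.le.trans ?_
    exact pow_le_pow_right₀ (by norm_num) (by omega)
  obtain ⟨P, hP⟩ : ∃ P : Finset ℕ, P = (Finset.range (p0 + 1)).filter Nat.Prime := ⟨_, rfl⟩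
  refine ⟨1 / 2 * ∏ p ∈ P, (1 / ((p : ℝ) ^ (2 * r * e * (n + 1 - r)))), ?_,
    2 * r * e + p0, fun w hw => ?_⟩
  · refine mul_pos (by norm_num) (Finset.prod_pos fun p hp => ?_)
    rw [hP] at hp
    have hp0 : (0 : ℝ) < (p : ℝ) := by exact_mod_cast (Finset.mem_filter.1 hp).2.pos
    positivity
  have hw0 : p0 ≤ w := by omega
  have hwe : 2 * r * e ≤ w := by omega
  obtain ⟨W2, hW2⟩ : ∃ W2 : ℕ, W2 =
      ∏ p ∈ ((Finset.range (w + 1)).filter Nat.Prime).filter (fun p => ¬ p ≤ p0), p ^ w := ⟨_, rfl⟩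
  have hW2' : W2 ≠ 0 := by
    rw [hW2]
    refine Finset.prod_ne_zero_iff.2 fun p hp => ?_
    exact (pow_pos (Finset.mem_filter.1 (Finset.mem_filter.1 hp).1).2.pos _).ne'
  have : NeZero W2 := ⟨hW2'⟩
  have hdiv : ∀ c, c ∣ W2 → 1 < c → p0 < c := by
    intro c hc hc1
    obtain ⟨l, hl, hlc⟩ := Nat.exists_prime_and_dvd hc1.ne'
    have h1 : l ∣ W2 := hlc.trans hc
    rw [hW2] at h1
    obtain ⟨p, hp, hlp⟩ := (Prime.dvd_finsetProd_iff hl.prime _).1 h1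
    have h2 := hl.dvd_of_dvd_pow hlp
    simp only [Finset.mem_filter, Finset.mem_range] at hp
    have h3 : l = p := (Nat.prime_dvd_prime_iff_eq hl hp.1.2).1 h2
    have h4 : l ≤ c := Nat.le_of_dvd (by omega) hlc
    omega
  obtain ⟨A1, hA1⟩ := locdens_fewBox n hn d hd W2 p0 hp08 hdiv
  choose! A2 hA2 using fun p (hp : Nat.Prime p) => locdens_excBox n d hd p e hp
  refine ⟨A1 + ∑ p ∈ P, A2 p, fun A hA => ?_⟩
  have hsub : ((TBox n d A).filter fun F => PSol F ∧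
        (sm (WW w) (ctT (ZMod (WW w)) F) : ℝ) * (WW w : ℝ) ^ r <
          (1 / 2 * ∏ p ∈ P, (1 / ((p : ℝ) ^ (2 * r * e * (n + 1 - r))))) *
            (WW w : ℝ) ^ (n + 1)) ⊆
      ((TBox n d A).filter fun F =>
        (sm W2 (ctT (ZMod W2) F) : ℝ) * (W2 : ℝ) ^ r ≤ (W2 : ℝ) ^ (n + 1) / 2) ∪
        P.biUnion (fun p => (TBox n d A).filter fun F =>
          Exc (p ^ e) (ctT (ZMod (p ^ e)) F)) := by
    intro F hF
    rw [Finset.mem_filter] at hF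
    obtain ⟨hbox, hsol, hlt⟩ := hF
    rw [Finset.mem_union, Finset.mem_biUnion, Finset.mem_filter]
    by_contra hcon
    rw [not_or] at hcon
    have h2 : (W2 : ℝ) ^ (n + 1) / 2 <
        (sm W2 (ctT (ZMod W2) F) : ℝ) * (W2 : ℝ) ^ r := by
      by_contra h
      exact hcon.1 ⟨hbox, not_lt.1 h⟩
    have h1 : ∀ p ∈ P, ¬ Exc (p ^ e) (ctT (ZMod (p ^ e)) F) := by
      intro p hp h
      exact hcon.2 ⟨p, hp, Finset.mem_filter.2 ⟨hbox, h⟩⟩
    rw [hP] at h1 hlt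
    have := locdens_lower n hr hn d w p0 e hw0 he hwe F hsol h1 W2 hW2 h2
    exact absurd this (not_le.2 hlt)
  have hc1 : (((TBox n d A).filter fun F => PSol F ∧
        (sm (WW w) (ctT (ZMod (WW w)) F) : ℝ) * (WW w : ℝ) ^ r <
          (1 / 2 * ∏ p ∈ P, (1 / ((p : ℝ) ^ (2 * r * e * (n + 1 - r))))) *
            (WW w : ℝ) ^ (n + 1)).card : ℝ) ≤
      (((TBox n d A).filter fun F =>
        (sm W2 (ctT (ZMod W2) F) : ℝ) * (W2 : ℝ) ^ r ≤ (W2 : ℝ) ^ (n + 1) / 2).card : ℝ) +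
        ∑ p ∈ P, (((TBox n d A).filter fun F =>
          Exc (p ^ e) (ctT (ZMod (p ^ e)) F)).card : ℝ) := by
    have h1 := (Finset.card_le_card hsub).trans (Finset.card_union_le _ _)
    have h2 := h1.trans (Nat.add_le_add_left Finset.card_biUnion_le _)
    exact_mod_cast h2
  refine hc1.trans ?_
  have hA1' : A ≥ A1 := le_trans (Nat.le_add_right _ _) hA
  have hV : (0 : ℝ) ≤ (2 * A + 1 : ℝ) ^ VV n d := by positivity
  have h3 : ∀ p ∈ P, (((TBox n d A).filter fun F =>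
          Exc (p ^ e) (ctT (ZMod (p ^ e)) F)).card : ℝ) ≤
      (ε / (2 * (p0 + 1))) * (2 * A + 1 : ℝ) ^ VV n d := by
    intro p hp
    have hpp : p.Prime := by
      rw [hP] at hp
      exact (Finset.mem_filter.1 hp).2
    have hAp : A ≥ A2 p := by
      have : A2 p ≤ ∑ p ∈ P, A2 p := Finset.single_le_sum (f := A2) (fun _ _ => Nat.zero_le _) hp
      omega
    refine (hA2 p hpp A hAp).trans ?_
    have hpe : (2 : ℝ) ^ e ≤ (p : ℝ) ^ e := by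
      gcongr
      exact_mod_cast hpp.two_le
    have hlow : 4 * ((r : ℝ) * (n + 1)) * ((p0 : ℝ) + 1) / ε ≤ (p : ℝ) ^ e := he2.trans hpe
    have h8 : 2 * ((r : ℝ) * (n + 1)) / (p : ℝ) ^ e ≤ ε / (2 * (p0 + 1)) := by
      have hpp' : (0 : ℝ) < (p : ℝ) ^ e := lt_of_lt_of_le (by positivity) hpe
      rw [div_le_div_iff₀ hpp' (by positivity)]
      rw [div_le_iff₀ hε] at hlow
      nlinarith
    exact mul_le_mul_of_nonneg_right h8 hV
  have h4 : ∑ p ∈ P, (((TBox n d A).filter fun F =>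
          Exc (p ^ e) (ctT (ZMod (p ^ e)) F)).card : ℝ) ≤
      (ε / 2) * (2 * A + 1 : ℝ) ^ VV n d := by
    refine (Finset.sum_le_sum h3).trans ?_
    rw [Finset.sum_const, nsmul_eq_mul]
    have hcard : (P.card : ℝ) ≤ p0 + 1 := by
      have : P.card ≤ p0 + 1 := by
        rw [hP]
        refine (Finset.card_filter_le _ _).trans ?_
        rw [Finset.card_range]
      exact_mod_cast this
    generalize (2 * A + 1 : ℝ) ^ VV n d = T at hV
    calc (P.card : ℝ) * (ε / (2 * (p0 + 1)) * T)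
        ≤ (p0 + 1) * (ε / (2 * (p0 + 1)) * T) :=
          mul_le_mul_of_nonneg_right hcard (by positivity)
      _ = (ε / 2) * T := by
          field_simp
  have h5 := hA1 A hA1'
  have h6 : 32 / (p0 : ℝ) * (2 * A + 1 : ℝ) ^ VV n d ≤
      (ε / 2) * (2 * A + 1 : ℝ) ^ VV n d := mul_le_mul_of_nonneg_right hp0 hV
  calc _ ≤ (ε / 2) * (2 * A + 1 : ℝ) ^ VV n d + (ε / 2) * (2 * A + 1 : ℝ) ^ VV n d :=
        add_le_add (h5.trans h6) h4
    _ = ε * (2 * A + 1 : ℝ) ^ VV n d := by ring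

end Pool.Agent.Lib.MP_1ad228_ntF
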