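import Pool.Agent.Lib.MP_1ad228_ntF.Psi
import Pool.Agent.Lib.MP_1ad228_ntF.B_EE

/-!
JOB MN_Cheb.  Chebyshev's inequality for the weighted variances. (Model: Lib/MP_219881_nt/MN_Cheb.lean.)

PROOF.  On `T`: `F ∈ TBox n d A ⊆ TBox n d (2A)`, `psi A (F i) ≥ 1/2` (`psi_half`), `Nn = 0`, `Ll ≥ l ≥ 0`, so the term of `Qv` is at least `(1/2)^r l^2`; all terms are nonnegative.
`chebB`: the same with `fw A (F i) ≥ (1/2)^((n+1)^(d i))` (`fw_half`), product `(1/2)^(VV n d)` (`Finset.prod_pow_eq_pow_sum`).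
-/

namespace Pool.Agent.Lib.MP_1ad228_ntF

open Classical

private theorem MN_Cheb_box {n d A : ℕ} {a : Ten n d ℤ} (ha : a ∈ Box n d A) :
    a ∈ Box n d (2 * A) := by
  unfold Box at ha ⊢
  rw [Fintype.mem_piFinset] at ha ⊢
  intro i
  have h1 := ha i
  rw [Finset.mem_Icc] at h1 ⊢
  push_cast
  constructor <;> omega

private theorem MN_Cheb_core {n r : ℕ} (d : Fin r → ℕ) (B H q W K A : ℕ) (o : Fin (n + 1)) (l : ℝ)
    (hl : 0 ≤ l) (T : Finset (Tup n d ℤ)) (hT : ∀ F ∈ T, F ∈ TBox n d A ∧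
      Nn B H q o F = 0 ∧ l ≤ Ll B H q o W K A F) (w : Tup n d ℤ → ℝ) (hw : ∀ F, 0 ≤ w F)
    (c : ℝ) (hwc : ∀ F ∈ TBox n d A, c ≤ w F) :
    (T.card : ℝ) * (c * l ^ 2) ≤ ∑ F ∈ TBox n d (2 * A), w F *
      ((Nn B H q o F : ℝ) - Ll B H q o W K A F) ^ 2 := by
  have hsub : T ⊆ TBox n d (2 * A) := by
    intro F hF
    have h1 := (hT F hF).1
    unfold TBox at h1 ⊢
    rw [Fintype.mem_piFinset] at h1 ⊢
    exact fun i => MN_Cheb_box (h1 i)
  have h1 : ∑ F ∈ T, w F * ((Nn B H q o F : ℝ) - Ll B H q o W K A F) ^ 2 ≤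
      ∑ F ∈ TBox n d (2 * A), w F * ((Nn B H q o F : ℝ) - Ll B H q o W K A F) ^ 2 := by
    apply Finset.sum_le_sum_of_subset_of_nonneg hsub
    intro F _ _
    exact mul_nonneg (hw F) (sq_nonneg _)
  refine le_trans ?_ h1
  calc (T.card : ℝ) * (c * l ^ 2) = ∑ _F ∈ T, (c * l ^ 2) := by
        rw [Finset.sum_const, nsmul_eq_mul]
    _ ≤ _ := by
        apply Finset.sum_le_sum
        intro F hF
        obtain ⟨hb, hN, hL⟩ := hT F hF
        rw [hN]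
        have h3 : (((0 : ℕ) : ℝ) - Ll B H q o W K A F) ^ 2 = (Ll B H q o W K A F) ^ 2 := by
          rw [Nat.cast_zero]
          ring
        rw [h3]
        have h4 : l ^ 2 ≤ (Ll B H q o W K A F) ^ 2 := pow_le_pow_left₀ hl hL 2
        exact mul_le_mul (hwc F hb) h4 (by positivity) (hw F)

theorem cheb {n r : ℕ} (d : Fin r → ℕ) (B H q W K A : ℕ) (hA : 1 ≤ A) (o : Fin (n + 1)) (l : ℝ)
    (hl : 0 ≤ l) (T : Finset (Tup n d ℤ)) (hT : ∀ F ∈ T, F ∈ TBox n d A ∧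
      Nn B H q o F = 0 ∧ l ≤ Ll B H q o W K A F) :
    (T.card : ℝ) * l ^ 2 ≤ 2 ^ r * Qv d B H q o W K A := by
  have h := MN_Cheb_core d B H q W K A o l hl T hT (fun F => ∏ i, psi A (F i))
    (fun F => Finset.prod_nonneg fun i _ => psi_nonneg A (F i)) ((1 / 2) ^ r) (fun F hF => by
      have h1 : ∏ _i : Fin r, (1 / 2 : ℝ) = (1 / 2) ^ r := by
        rw [Finset.prod_const, Finset.card_univ, Fintype.card_fin]
      rw [← h1]
      refine Finset.prod_le_prod (fun i _ => by norm_num) fun i _ => ?_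
      unfold TBox at hF
      rw [Fintype.mem_piFinset] at hF
      exact psi_half hA (hF i))
  have h2 : (2 : ℝ) ^ r * (1 / 2) ^ r = 1 := by
    rw [← mul_pow]
    norm_num
  calc (T.card : ℝ) * l ^ 2 = (2 : ℝ) ^ r * (1 / 2) ^ r * ((T.card : ℝ) * l ^ 2) := by
        rw [h2, one_mul]
    _ = 2 ^ r * ((T.card : ℝ) * ((1 / 2) ^ r * l ^ 2)) := by ring
    _ ≤ 2 ^ r * Qv d B H q o W K A := mul_le_mul_of_nonneg_left h (by positivity)

theorem chebB {n r : ℕ} (d : Fin r → ℕ) (B H q W K A : ℕ) (hA : 1 ≤ A) (o : Fin (n + 1)) (l : ℝ)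
    (hl : 0 ≤ l) (T : Finset (Tup n d ℤ)) (hT : ∀ F ∈ T, F ∈ TBox n d A ∧
      Nn B H q o F = 0 ∧ l ≤ Ll B H q o W K A F) :
    (T.card : ℝ) * l ^ 2 ≤ 2 ^ VV n d * QvB d B H q o W K A := by
  have h := MN_Cheb_core d B H q W K A o l hl T hT (fun F => ∏ i, fw A (F i))
    (fun F => Finset.prod_nonneg fun i _ => fw_nonneg A (F i)) ((1 / 2) ^ VV n d)
    (fun F hF => by
      have h1 : ∏ i : Fin r, (1 / 2 : ℝ) ^ ((n + 1) ^ d i) = (1 / 2) ^ VV n d := by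
        rw [Finset.prod_pow_eq_pow_sum]
        rfl
      rw [← h1]
      refine Finset.prod_le_prod (fun i _ => by positivity) fun i _ => ?_
      unfold TBox at hF
      rw [Fintype.mem_piFinset] at hF
      exact fw_half hA (hF i))
  have h2 : (2 : ℝ) ^ VV n d * (1 / 2) ^ VV n d = 1 := by
    rw [← mul_pow]
    norm_num
  calc (T.card : ℝ) * l ^ 2 = (2 : ℝ) ^ VV n d * (1 / 2) ^ VV n d * ((T.card : ℝ) * l ^ 2) := by
        rw [h2, one_mul]
    _ = 2 ^ VV n d * ((T.card : ℝ) * ((1 / 2) ^ VV n d * l ^ 2)) := by ring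
    _ ≤ 2 ^ VV n d * QvB d B H q o W K A := mul_le_mul_of_nonneg_left h (by positivity)

end Pool.Agent.Lib.MP_1ad228_ntF
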