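import Pool.Agent.Lib.MP_1ad228_ntF.Basic

/-! The two statements on tuples of tensors which are transferred to forms. -/

namespace Pool.Agent.Lib.MP_1ad228_ntF

open Classical

/-- Almost all everywhere locally soluble tuples have a small common zero. -/
def MainP (n : ℕ) {r : ℕ} (d : Fin r → ℕ) : Prop :=
  ∀ ε : ℝ, 0 < ε → ∃ M A0 : ℕ, ∀ A ≥ A0,
    (((TBox n d A).filter fun F => RSol F ∧ PSol F ∧
        ¬ ∃ x : Vc n ℤ, x ≠ 0 ∧ (∀ i, |x i| ^ (n + 1 - ∑ i, d i) ≤ (M : ℤ) * (A : ℤ) ^ r) ∧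
          ∀ i, ev (F i) x = 0).card : ℝ) ≤ ε * (2 * A + 1 : ℝ) ^ VV n d

/-- A positive proportion of the tuples has a common nonzero integer zero. -/
def PosP (n : ℕ) {r : ℕ} (d : Fin r → ℕ) : Prop :=
  ∃ δ : ℝ, 0 < δ ∧ ∃ A0 : ℕ, ∀ A ≥ A0, δ * (2 * A + 1 : ℝ) ^ VV n d ≤
    (((TBox n d A).filter fun F => ∃ x : Vc n ℤ, x ≠ 0 ∧ ∀ i, ev (F i) x = 0).card : ℝ)

end Pool.Agent.Lib.MP_1ad228_ntF
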