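import Mathlib

/-!
JOB LD_Elim.  Elimination: a large maximal minor.

PROOF.  Induction on `r` (for all `J`). `r = 0`: the determinant of the empty matrix is `1`, `v 1 = 1`, `η ^ 0 = 1`.
Step `r + 1`: the hypothesis with `t = Pi.single 0 1` gives `j0` with `η ≤ v (J 0 j0)`, so `J 0 j0 ≠ 0` (`v 0 = 0`, `0 < η`).
Let `J' : Fin r → ι → K`, `J' l j = J l.succ j - (J l.succ j0 / J 0 j0) * J 0 j`. For `t' : Fin r → K` with `t' l = 1` apply the hypothesis to
`t = Fin.cons (-(∑ l, t' l * J l.succ j0) / J 0 j0) t'` (`t l.succ = t' l = 1`): `∑ l, t l * J l j = ∑ l, t' l * J' l j` (`Fin.sum_univ_succ`).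
The induction hypothesis gives `S'` with `η ^ r ≤ v (det (J' l (S' k)))`. Put `S = Fin.cons j0 S'`.
`det (fun l k => J l (S k)) = J 0 j0 * det (fun l k => J' l (S' k))`: subtract `(J l.succ j0 / J 0 j0)` times row 0 from row `l.succ`
(`Matrix.det_eq_of_forall_row_eq_smul_add_const` or `Matrix.det_updateRow..`), then expand along the first column, whose entries
below the first are `0` (`Matrix.det_succ_column_zero`, `Fin.sum_univ_succ`, all terms but the first vanish); the remaining minor is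
`J' l (S' k)`. Then `v (det) = v (J 0 j0) * v (det') ≥ η * η ^ r` (`mul_le_mul`, `map_mul`).
`elim0`: the trivial case (`v x = if x = 0 then 0 else 1`, `η = 1`), or repeat the same proof with `≠ 0`; for a field without a given `v`
the quickest is the map `v : K →*₀ ℝ` defined by this `if`.
`elim_inj`: a determinant with two equal columns vanishes (`Matrix.det_zero_of_column_eq`).
-/

namespace Pool.Agent.Lib.MP_1ad228_ntF

open Classical

private theorem elim_det {K : Type*} [Field K] {ι : Type*} {r : ℕ} (J : Fin (r + 1) → ι → K) (j0 : ι)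
    (h0 : J 0 j0 ≠ 0) (S' : Fin r → ι) :
    Matrix.det (fun l k => J l ((Fin.cons j0 S' : Fin (r + 1) → ι) k)) =
      J 0 j0 * Matrix.det (fun l k => J (Fin.succ l) (S' k) - J (Fin.succ l) j0 / J 0 j0 * J 0 (S' k)) := by
  have h1 := Matrix.det_eq_of_forall_row_eq_smul_add_const
    (A := fun l k => J l ((Fin.cons j0 S' : Fin (r + 1) → ι) k))
    (B := fun l k => Fin.cases (motive := fun _ => K) (J 0 ((Fin.cons j0 S' : Fin (r + 1) → ι) k))
      (fun l' => J l'.succ ((Fin.cons j0 S' : Fin (r + 1) → ι) k) -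
        J l'.succ j0 / J 0 j0 * J 0 ((Fin.cons j0 S' : Fin (r + 1) → ι) k)) l)
    (Fin.cons 0 fun l => J l.succ j0 / J 0 j0) 0 (Fin.cons_zero _ _) (by
      intro i j
      refine Fin.cases ?_ (fun i' => ?_) i
      · simp
      · simp)
  rw [h1, Matrix.det_succ_column_zero, Fin.sum_univ_succ, Finset.sum_eq_zero, add_zero]
  · rw [Fin.val_zero, pow_zero, one_mul]
    rfl
  · intro i _
    have h2 : J i.succ j0 - J i.succ j0 / J 0 j0 * J 0 j0 = 0 := by
      rw [div_mul_cancel₀ _ h0, sub_self]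
    simp [h2]

theorem elim {K : Type*} [Field K] (v : K →*₀ ℝ) (hv : ∀ x, 0 ≤ v x) {ι : Type*} {r : ℕ} (η : ℝ)
    (hη : 0 < η) (J : Fin r → ι → K)
    (h : ∀ t : Fin r → K, (∃ l, t l = 1) → ∃ j, η ≤ v (∑ l, t l * J l j)) :
    ∃ S : Fin r → ι, η ^ r ≤ v (Matrix.det fun l k => J l (S k)) := by
  induction r with
  | zero =>
    refine ⟨Fin.elim0, ?_⟩
    rw [Matrix.det_isEmpty, map_one, pow_zero]
  | succ r ih =>
    obtain ⟨j0, hj0⟩ := h (Pi.single 0 1) ⟨0, Pi.single_eq_same _ _⟩
    have h1 : ∑ l, (Pi.single 0 1 : Fin (r + 1) → K) l * J l j0 = J 0 j0 := by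
      rw [Finset.sum_eq_single 0]
      · rw [Pi.single_eq_same, one_mul]
      · intro b _ hb
        rw [Pi.single_eq_of_ne hb, zero_mul]
      · intro h2
        exact absurd (Finset.mem_univ _) h2
    rw [h1] at hj0
    have h0 : J 0 j0 ≠ 0 := by
      intro h2
      rw [h2, map_zero] at hj0
      linarith
    obtain ⟨S', hS'⟩ := ih (fun l j => J l.succ j - J l.succ j0 / J 0 j0 * J 0 j) (by
      rintro t' ⟨l, hl⟩
      obtain ⟨j, hj⟩ := h (Fin.cons (-(∑ l, t' l * J l.succ j0) / J 0 j0) t')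
        ⟨l.succ, by rw [Fin.cons_succ]; exact hl⟩
      refine ⟨j, ?_⟩
      have h3 : ∑ l, (Fin.cons (-(∑ l, t' l * J l.succ j0) / J 0 j0) t' : Fin (r + 1) → K) l * J l j =
          ∑ l, t' l * (J l.succ j - J l.succ j0 / J 0 j0 * J 0 j) := by
        rw [Fin.sum_univ_succ]
        simp only [Fin.cons_zero, Fin.cons_succ, mul_sub, Finset.sum_sub_distrib]
        have h4 : ∑ l, t' l * (J l.succ j0 / J 0 j0 * J 0 j) =
            (∑ l, t' l * J l.succ j0) / J 0 j0 * J 0 j := by
          rw [Finset.sum_div, Finset.sum_mul]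
          refine Finset.sum_congr rfl fun l _ => ?_
          ring
        rw [h4]
        ring
      rw [← h3]
      exact hj)
    refine ⟨Fin.cons j0 S', ?_⟩
    rw [elim_det J j0 h0 S', map_mul, pow_succ']
    exact mul_le_mul hj0 hS' (pow_nonneg hη.le r) (hη.le.trans hj0)

theorem elim0 {K : Type*} [Field K] {ι : Type*} {r : ℕ} (J : Fin r → ι → K)
    (h : ∀ t : Fin r → K, (∃ l, t l = 1) → ∃ j, ∑ l, t l * J l j ≠ 0) :
    ∃ S : Fin r → ι, Matrix.det (fun l k => J l (S k)) ≠ 0 := by
  let v : K →*₀ ℝ :=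
    { toFun := fun x => if x = 0 then 0 else 1
      map_zero' := if_pos rfl
      map_one' := if_neg one_ne_zero
      map_mul' := fun x y => by
        by_cases hx : x = 0
        · simp [hx]
        · by_cases hy : y = 0
          · simp [hy]
          · simp [hx, hy] }
  have hv : ∀ x, v x = if x = 0 then 0 else 1 := fun _ => rfl
  obtain ⟨S, hS⟩ := elim v (fun x => by rw [hv]; split_ifs <;> norm_num) 1 one_pos J (fun t ht => by
    obtain ⟨j, hj⟩ := h t ht
    exact ⟨j, by rw [hv, if_neg hj]⟩)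
  refine ⟨S, fun h2 => ?_⟩
  rw [hv, if_pos h2, one_pow] at hS
  linarith

theorem elim_inj {K : Type*} [CommRing K] {ι : Type*} {r : ℕ} (J : Fin r → ι → K) (S : Fin r → ι)
    (h : Matrix.det (fun l k => J l (S k)) ≠ 0) : Function.Injective S := by
  intro a b hab
  by_contra hne
  exact h (Matrix.det_zero_of_column_eq hne fun i => by rw [hab])

end Pool.Agent.Lib.MP_1ad228_ntF
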