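import Pool.Agent.Lib.MP_1ad228_ntF.Tay

/-!
JOB RP_Loc.  Near a nonsingular real zero.  (Model with proof, two equations: Lib/MP_219881_nt/RP_Loc.lean; adapt it. Tay is another job: `ev_line`, `ev_contDiff`.)

PROOF.  `S` is injective because the determinant does not vanish (`Matrix.det_zero_of_column_eq`). Let `f : (Kp n d → ℝ) × Vc n ℝ → (Kp n d → ℝ) × Vc n ℝ`,
`f (ω, y) = (ω, fun j => if h : ∃ k, j = S k then ev (pt ω h.choose) y else y j)` (so the coordinate `S k` is `ev (pt ω k) y`, by injectivity).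
`f` is `C^1` (`ev_contDiff`), so it has a strict derivative `f'` at `(ω0, ξ)`; write `f'` as in the model: `fst.prod (ContinuousLinearMap.pi ..)` with `fderiv ℝ (g k) (ω0, ξ)`,
`g k (ω, y) = ev (pt ω k) y`, at the coordinate `S k`, and `proj j ∘ snd` at the other coordinates. `fderiv ℝ (g k) (ω0, ξ) (δ, h) = ev (pt δ k) ξ + ∑ m, dev (pt ω0 k) ξ m * h m`
(`ev_line`: derivative of `s ↦ g k ((ω0, ξ) + s • (δ, h))` at 0, uniqueness of the derivative, as in `RP_Loc_fderiv` of the model).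
`f'` is surjective: given `(δ, k)` put `M l k' = dev (pt ω0 l) ξ (S k')` (invertible: `Matrix.isUnit_iff_isUnit_det`), `ra l = k (S l) - ev (pt δ l) ξ - ∑ m, dev (pt ω0 l) ξ m * (if m in the range of S then 0 else k m)`,
`u = M⁻¹.mulVec ra`, `h = ∑ k', u k'` at `S k'` and `k m` at the other `m` (e.g. `h m = if ∃ k', m = S k' then ∑ k', if S k' = m then u k' else 0 else k m`); then
`∑ m, dev (pt ω0 l) ξ m * h m = (M.mulVec u) l + ∑ .. = ra l + ∑ ..`. (Or: `f'` is injective, hence surjective by `LinearMap.injective_iff_surjective`: if `f' (δ, h) = 0` then `δ = 0`, `h m = 0` outside of the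
range of `S`, and `M.mulVec (h ∘ S) = 0`, so `h ∘ S = 0` (`Matrix.eq_zero_of_mulVec_eq_zero`). This is probably shorter.)
`HasStrictFDerivAt.map_nhds_eq_of_surj` : `Filter.map f (𝓝 (ω0, ξ)) = 𝓝 (f (ω0, ξ))`. The set
`T = {(ω, s) | (∀ l, |s l| < 1/2) ∧ ξ o / 2 < s o}` is an open neighbourhood of `(ω0, ξ)`, so `f '' T` is a neighbourhood of `f (ω0, ξ) = (ω0, ξ*)`,
`ξ* = ξ` with the coordinates `S k` replaced by `0` (`h0`). So there is `r0 > 0` such that `(ω, z) ∈ f '' T` whenever `dist ω ω0 < r0`, `dist z ξ* < r0`.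
Take `ρ = min (r0 / 2) (ξ o / 4)`, `U = Metric.ball ω0 r0`.
For `ω ∈ U` use the point `ξ` itself in `Rob`: given `y` with `|y l - ξ l| ≤ ρ`, let `z` be `y` with the coordinates `S k` replaced by `0`:
`dist z ξ* ≤ ρ < r0` (`dist_pi_le_iff`), so `(ω, z) = f (ω', s)` with `(ω', s) ∈ T`: `ω' = ω`, `s l = y l` outside of `S`, `ev (pt ω k) s = 0`
(coordinate `S k`), `|s l| ≤ 1/2`, `2 ρ ≤ ξ o / 2 ≤ s o`.
-/

namespace Pool.Agent.Lib.MP_1ad228_ntF

open Classical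

open Topology in
private theorem RP_Loc_fderiv (n : ℕ) {r : ℕ} (d : Fin r → ℕ) (k : Fin r) (ω0 : Kp n d → ℝ)
    (ξ : Vc n ℝ) (δ : Kp n d → ℝ) (h : Vc n ℝ) :
    (fderiv ℝ (fun q : (Kp n d → ℝ) × Vc n ℝ => ev (pt q.1 k) q.2) (ω0, ξ)) (δ, h) =
      ev (pt δ k) ξ + ∑ m, dev (pt ω0 k) ξ m * h m := by
  set g : (Kp n d → ℝ) × Vc n ℝ → ℝ := fun q => ev (pt q.1 k) q.2 with hg
  have h1 : HasFDerivAt g (fderiv ℝ g (ω0, ξ)) (ω0, ξ) :=
    ((ev_contDiff n d k).differentiable (by norm_num) (ω0, ξ)).hasFDerivAt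
  have h2 : HasDerivAt (fun s : ℝ => ((ω0, ξ) : (Kp n d → ℝ) × Vc n ℝ) + s • ((δ, h) : (Kp n d → ℝ) × Vc n ℝ))
      ((δ, h) : (Kp n d → ℝ) × Vc n ℝ) 0 := by
    have := ((hasDerivAt_id (0 : ℝ)).smul_const ((δ, h) : (Kp n d → ℝ) × Vc n ℝ)).const_add
      ((ω0, ξ) : (Kp n d → ℝ) × Vc n ℝ)
    rw [one_smul] at this
    exact this
  have h3 : HasDerivAt (fun s : ℝ => g (((ω0, ξ) : (Kp n d → ℝ) × Vc n ℝ) + s • ((δ, h) : (Kp n d → ℝ) × Vc n ℝ)))
      (fderiv ℝ g (ω0, ξ) (δ, h)) 0 := by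
    refine HasFDerivAt.comp_hasDerivAt_of_eq (0 : ℝ) h1 h2 ?_
    rw [zero_smul, add_zero]
  have h5 := ev_line (pt ω0 k) (pt δ k) ξ h
  have h4 : (fun s : ℝ => g (((ω0, ξ) : (Kp n d → ℝ) × Vc n ℝ) + s • ((δ, h) : (Kp n d → ℝ) × Vc n ℝ))) =
      fun s : ℝ => ev (pt ω0 k + s • pt δ k) (ξ + s • h) := rfl
  rw [h4] at h3
  exact h3.unique h5

open Topology in
theorem locRob (n : ℕ) {r : ℕ} (d : Fin r → ℕ) (ω0 : Kp n d → ℝ) (ξ : Vc n ℝ)
    (hξ : ∀ l, |ξ l| ≤ 1 / 4) (h0 : ∀ k, ev (pt ω0 k) ξ = 0) (S : Fin r → Fin (n + 1))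
    (o : Fin (n + 1)) (hS : Matrix.det (fun l k => dev (pt ω0 l) ξ (S k)) ≠ 0) (ho : 0 < ξ o) :
    ∃ ρ : ℝ, 0 < ρ ∧ ∃ U : Set (Kp n d → ℝ), IsOpen U ∧ ω0 ∈ U ∧
      ∀ ω ∈ U, Rob o S ρ (pt ω) := by
  have hSi : Function.Injective S := by
    intro k k' hk
    by_contra hne
    apply hS
    exact Matrix.det_zero_of_column_eq hne fun l => by rw [hk]
  have hch : ∀ (k : Fin r) (h : ∃ k', S k = S k'), h.choose = k := fun k h => (hSi h.choose_spec).symm
  set g : Fin r → (Kp n d → ℝ) × Vc n ℝ → ℝ := fun k q => ev (pt q.1 k) q.2 with hg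
  set f : (Kp n d → ℝ) × Vc n ℝ → (Kp n d → ℝ) × Vc n ℝ := fun q =>
    (q.1, fun l => if h : ∃ k, l = S k then g h.choose q else q.2 l) with hf
  set f' : ((Kp n d → ℝ) × Vc n ℝ) →L[ℝ] ((Kp n d → ℝ) × Vc n ℝ) :=
    (ContinuousLinearMap.fst ℝ (Kp n d → ℝ) (Vc n ℝ)).prod
      (ContinuousLinearMap.pi fun l => if h : ∃ k, l = S k then fderiv ℝ (g h.choose) (ω0, ξ) else
          (ContinuousLinearMap.proj (R := ℝ) (φ := fun _ : Fin (n + 1) => ℝ) l).comp
            (ContinuousLinearMap.snd ℝ (Kp n d → ℝ) (Vc n ℝ))) with hf'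
  have hstrict : HasStrictFDerivAt f f' (ω0, ξ) := by
    refine HasStrictFDerivAt.prodMk hasStrictFDerivAt_fst (hasStrictFDerivAt_pi.2 fun l => ?_)
    by_cases h : ∃ k, l = S k
    · simp only [dif_pos h]
      exact (ev_contDiff n d h.choose).contDiffAt.hasStrictFDerivAt (by norm_num)
    · simp only [dif_neg h]
      exact ((ContinuousLinearMap.proj (R := ℝ) (φ := fun _ : Fin (n + 1) => ℝ) l).comp
            (ContinuousLinearMap.snd ℝ (Kp n d → ℝ) (Vc n ℝ))).hasStrictFDerivAt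
  have hinj : Function.Injective (f' : ((Kp n d → ℝ) × Vc n ℝ) →ₗ[ℝ] ((Kp n d → ℝ) × Vc n ℝ)) := by
    rw [injective_iff_map_eq_zero]
    rintro ⟨δ, h⟩ hz
    have hδ : δ = 0 := congrArg Prod.fst hz
    have h2 := congrArg Prod.snd hz
    have hout : ∀ m, (¬ ∃ k, m = S k) → h m = 0 := by
      intro m hm
      have h3 := congrFun h2 m
      change ((if h : ∃ k, m = S k then fderiv ℝ (g h.choose) (ω0, ξ) else
          (ContinuousLinearMap.proj (R := ℝ) (φ := fun _ : Fin (n + 1) => ℝ) m).comp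
            (ContinuousLinearMap.snd ℝ (Kp n d → ℝ) (Vc n ℝ))) :
          ((Kp n d → ℝ) × Vc n ℝ) →L[ℝ] ℝ) (δ, h) = 0 at h3
      rw [dif_neg hm] at h3
      exact h3
    have hin : ∀ k, ∑ m, dev (pt ω0 k) ξ m * h m = 0 := by
      intro k
      have h3 := congrFun h2 (S k)
      change ((if h : ∃ k', S k = S k' then fderiv ℝ (g h.choose) (ω0, ξ) else
          (ContinuousLinearMap.proj (R := ℝ) (φ := fun _ : Fin (n + 1) => ℝ) (S k)).comp
            (ContinuousLinearMap.snd ℝ (Kp n d → ℝ) (Vc n ℝ))) :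
          ((Kp n d → ℝ) × Vc n ℝ) →L[ℝ] ℝ) (δ, h) = 0 at h3
      have hex : ∃ k', S k = S k' := ⟨k, rfl⟩
      rw [dif_pos hex, hch k hex] at h3
      have h4 := RP_Loc_fderiv n d k ω0 ξ δ h
      have h5 : ev (pt δ k) ξ = 0 := by
        rw [hδ]
        have h6 : (pt (0 : Kp n d → ℝ) k : Ten n (d k) ℝ) = 0 := rfl
        rw [h6, ev_zero]
      rw [h5, zero_add] at h4
      rw [← h4]
      exact h3
    have hmul : Matrix.mulVec (fun l k => dev (pt ω0 l) ξ (S k)) (fun k => h (S k)) = 0 := by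
      funext l
      have h3 := hin l
      rw [← Fintype.sum_of_injective S hSi (fun k => dev (pt ω0 l) ξ (S k) * h (S k))
        (fun m => dev (pt ω0 l) ξ m * h m)] at h3
      · exact h3
      · intro m hm
        rw [hout m (fun ⟨k, hk⟩ => hm ⟨k, hk.symm⟩), mul_zero]
      · intro k
        rfl
    have hv := Matrix.eq_zero_of_mulVec_eq_zero hS hmul
    have hh : h = 0 := by
      funext m
      by_cases hm : ∃ k, m = S k
      · obtain ⟨k, rfl⟩ := hm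
        exact congrFun hv k
      · exact hout m hm
    rw [hδ, hh]
    rfl
  have hsurj : f'.range = ⊤ := by
    rw [LinearMap.range_eq_top]
    exact LinearMap.injective_iff_surjective.1 hinj
  have hmap := hstrict.map_nhds_eq_of_surj hsurj
  set T : Set ((Kp n d → ℝ) × Vc n ℝ) := {p | (∀ l, |p.2 l| < 1 / 2) ∧ ξ o / 2 < p.2 o} with hT
  have hTo : IsOpen T := by
    have h1 : IsOpen {p : (Kp n d → ℝ) × Vc n ℝ | ∀ l, |p.2 l| < 1 / 2} := by
      have : {p : (Kp n d → ℝ) × Vc n ℝ | ∀ l, |p.2 l| < 1 / 2} =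
          ⋂ l, {p : (Kp n d → ℝ) × Vc n ℝ | |p.2 l| < 1 / 2} := by
        ext p
        simp only [Set.mem_ofPred_eq, Set.mem_iInter]
      rw [this]
      exact isOpen_iInter_of_finite fun l => isOpen_lt (by fun_prop) continuous_const
    have h2 : IsOpen {p : (Kp n d → ℝ) × Vc n ℝ | ξ o / 2 < p.2 o} := isOpen_lt continuous_const (by fun_prop)
    exact h1.inter h2
  have hTm : T ∈ 𝓝 ((ω0, ξ) : (Kp n d → ℝ) × Vc n ℝ) := by
    refine hTo.mem_nhds ⟨fun l => ?_, ?_⟩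
    · have := hξ l
      have h3 : |ξ l| < 1 / 2 := by linarith
      exact h3
    · have h3 : ξ o / 2 < ξ o := by linarith
      exact h3
  have himg : f '' T ∈ 𝓝 (f (ω0, ξ)) := by
    rw [← hmap]
    exact Filter.image_mem_map hTm
  obtain ⟨r0, hr, hball⟩ := Metric.mem_nhds_iff.1 himg
  refine ⟨min (r0 / 2) (ξ o / 4), lt_min (by linarith) (by linarith), Metric.ball ω0 r0, Metric.isOpen_ball,
    Metric.mem_ball_self hr, fun ω hω => ⟨ξ, fun y hy => ?_⟩⟩
  set z : Vc n ℝ := fun l => if ∃ k, l = S k then 0 else y l with hz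
  have hρ1 : min (r0 / 2) (ξ o / 4) ≤ r0 / 2 := min_le_left _ _
  have hρ2 : min (r0 / 2) (ξ o / 4) ≤ ξ o / 4 := min_le_right _ _
  have hmem : ((ω, z) : (Kp n d → ℝ) × Vc n ℝ) ∈ Metric.ball (f (ω0, ξ)) r0 := by
    rw [Metric.mem_ball, Prod.dist_eq]
    refine max_lt hω ?_
    have h1 : dist z (f (ω0, ξ)).2 ≤ r0 / 2 := by
      rw [dist_pi_le_iff (by linarith)]
      intro l
      change dist (if ∃ k, l = S k then 0 else y l)
        (if h : ∃ k, l = S k then g h.choose (ω0, ξ) else ξ l) ≤ r0 / 2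
      by_cases h : ∃ k, l = S k
      · have hg0 : g h.choose (ω0, ξ) = 0 := h0 _
        rw [if_pos h, dif_pos h, hg0, dist_self]
        linarith
      · rw [if_neg h, dif_neg h, Real.dist_eq]
        exact (hy l).trans hρ1
    exact lt_of_le_of_lt h1 (by linarith)
  obtain ⟨⟨ω', s⟩, hsT, hfs⟩ := hball hmem
  have h1 : ω' = ω := congrArg Prod.fst hfs
  have h2 : (fun l => if h : ∃ k, l = S k then g h.choose (ω', s) else s l) = z := congrArg Prod.snd hfs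
  subst h1
  refine ⟨s, fun l hl => ?_, fun l => (hsT.1 l).le, ?_, fun k => ?_⟩
  · have h3 := congrFun h2 l
    have hne : ¬ ∃ k, l = S k := fun ⟨k, hk⟩ => hl k hk
    simp only [hz, dif_neg hne, if_neg hne] at h3
    exact h3
  · have h3 : ξ o / 2 < s o := hsT.2
    linarith
  · have h3 := congrFun h2 (S k)
    have hex : ∃ k', S k = S k' := ⟨k, rfl⟩
    simp only [hz, dif_pos hex, if_pos hex] at h3
    rw [hch k hex] at h3
    exact h3

theorem Rob_mono {n r : ℕ} {d : Fin r → ℕ} {o : Fin (n + 1)} {S : Fin r → Fin (n + 1)}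
    {ρ ρ' : ℝ} {α : Tup n d ℝ} (h : ρ' ≤ ρ) (hR : Rob o S ρ α) : Rob o S ρ' α := by
  obtain ⟨ξ, hξ⟩ := hR
  refine ⟨ξ, fun y hy => ?_⟩
  obtain ⟨s, h1, h2, h3, h4⟩ := hξ y fun l => (hy l).trans h
  exact ⟨s, h1, h2, by linarith, h4⟩

end Pool.Agent.Lib.MP_1ad228_ntF
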