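import Pool.Agent.Lib.MP_1ad228_ntF.RP_Defs
import Pool.Agent.Lib.MP_1ad228_ntF.RP_Loc
import Pool.Agent.Lib.MP_1ad228_ntF.LD_Elim

/-!
JOB RP_Cpt.  Uniformity by compactness.  (Model with proof: Lib/MP_219881_nt/RP_Cpt.lean; adapt it. RP_Loc, LD_Elim, Tay are other jobs.)

PROOF.  Let `Cu = {ω | ∀ t, |ω t| ≤ 1}` (closed unit ball), `Sp = {x : Vc n ℝ | ‖x‖ = 1/4}` (compact sphere, sup norm),
`P = {(ω, x) ∈ Cu × Sp | ∀ k, ev (pt ω k) x = 0}` (closed in a compact set, `ev_contDiff` gives continuity; intersection over `k`), and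
`Cc = (Prod.fst '' P) \ O`: compact. If `ω` is in the cube, not in `O`, with a common zero `x ≠ 0`, then `ω ∈ Cc` (scale `x` by `1/(4‖x‖)`, `ev_scale`).
For `ω0 ∈ Cc` take `ξ ∈ Sp` with `ev (pt ω0 k) ξ = 0`. `¬ Sing (pt ω0)` (hypothesis `hZ`, as `ω0 ∉ O`), so for every `t ≠ 0` there is `j` with
`∑ l, t l * dev (pt ω0 l) ξ j ≠ 0`; `elim0` gives `S` with nonzero determinant (injective by `elim_inj`). `ξ ≠ 0` has a coordinate `ξ o ≠ 0`. If `ξ o < 0` replace `ξ` by `-ξ`, that is `fun i => -1 * ξ i`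
(`ev_scale`: still a common zero; `dev_scale`: row `l` of the matrix is multiplied by `(-1)^(d l - 1) ≠ 0`, so the determinant is still nonzero, `Matrix.det_mul_column`;
or apply `elim0` to the point `-ξ` directly: choose the sign first, then `S`; this is simpler). `|ξ l| ≤ 1/4` by the sup norm. `locRob` gives `ρ(ω0)` and an open `U(ω0)`.
`IsCompact.induction_on`: the property of a set `T` : there is `ρ`, `0 < ρ ≤ 1`, such that all `ω ∈ T`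
are `Rob o S ρ` for some `o` and some injective `S` is inherited by subsets and finite unions (`Rob_mono` with the minimum).
-/

namespace Pool.Agent.Lib.MP_1ad228_ntF

open Classical

private theorem RP_Cpt_cont (n : ℕ) {r : ℕ} (d : Fin r → ℕ) (k : Fin r) :
    Continuous fun q : (Kp n d → ℝ) × Vc n ℝ => ev (pt q.1 k) q.2 := by
  unfold ev pt
  refine continuous_finsetSum _ fun s _ => ?_
  fun_prop

/-- the local statement at one point -/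
private theorem RP_Cpt_point (n : ℕ) {r : ℕ} (d : Fin r → ℕ) (ω0 : Kp n d → ℝ) (ξ : Vc n ℝ)
    (hξ : ‖ξ‖ = 1 / 4) (ha : ∀ k, ev (pt ω0 k) ξ = 0) (hns : ¬ Sing (pt ω0 : Tup n d ℝ)) :
    ∃ ρ : ℝ, 0 < ρ ∧ ∃ U : Set (Kp n d → ℝ), IsOpen U ∧ ω0 ∈ U ∧
      ∃ (o : Fin (n + 1)) (S : Fin r → Fin (n + 1)), Function.Injective S ∧
        ∀ ω ∈ U, Rob o S ρ (pt ω) := by
  have hξ0 : ξ ≠ 0 := by
    rintro rfl
    rw [norm_zero] at hξ
    norm_num at hξ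
  have hbd : ∀ l, |ξ l| ≤ 1 / 4 := by
    intro l
    rw [← Real.norm_eq_abs, ← hξ]
    exact norm_le_pi_norm ξ l
  obtain ⟨o, ho⟩ : ∃ o, ξ o ≠ 0 := by
    by_contra hcon
    push Not at hcon
    exact hξ0 (funext hcon)
  have main : ∀ ζ : Vc n ℝ, (∀ l, |ζ l| ≤ 1 / 4) → (∀ k, ev (pt ω0 k) ζ = 0) → 0 < ζ o →
      ∃ ρ : ℝ, 0 < ρ ∧ ∃ U : Set (Kp n d → ℝ), IsOpen U ∧ ω0 ∈ U ∧
      ∃ (o : Fin (n + 1)) (S : Fin r → Fin (n + 1)), Function.Injective S ∧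
        ∀ ω ∈ U, Rob o S ρ (pt ω) := by
    intro ζ h1 h2 h3
    have hζ0 : ζ ≠ 0 := by
      intro h
      rw [h] at h3
      exact lt_irrefl _ h3
    obtain ⟨S, hS⟩ := elim0 (fun l j => dev (pt ω0 l) ζ j) (by
      rintro t ⟨l, hl⟩
      by_contra hcon
      push Not at hcon
      refine hns ⟨ζ, t, hζ0, ?_, h2, hcon⟩
      rintro rfl
      exact zero_ne_one hl)
    obtain ⟨ρ, hρ, U, hU, hU0, hR⟩ := locRob n d ω0 ζ h1 h2 S o hS h3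
    exact ⟨ρ, hρ, U, hU, hU0, o, S, elim_inj _ S hS, hR⟩
  rcases lt_or_gt_of_ne ho with ho | ho
  · refine main (fun i => -1 * ξ i) ?_ ?_ ?_
    · intro l
      show |-1 * ξ l| ≤ 1 / 4
      rw [neg_one_mul, abs_neg]
      exact hbd l
    · intro k
      rw [ev_scale, ha k, mul_zero]
    · show 0 < -1 * ξ o
      linarith
  · exact main ξ hbd ha ho

/-- the set of the parameters in the cube, outside of `O`, with a common zero -/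
private theorem RP_Cpt_compact (n : ℕ) {r : ℕ} (d : Fin r → ℕ) (O : Set (Kp n d → ℝ))
    (hO : IsOpen O) :
    IsCompact ((Prod.fst '' ((Metric.closedBall (0 : Kp n d → ℝ) 1 ×ˢ
      Metric.sphere (0 : Vc n ℝ) (1 / 4)) ∩
      {q : (Kp n d → ℝ) × Vc n ℝ | ∀ k, ev (pt q.1 k) q.2 = 0})) \ O) := by
  refine IsCompact.diff (IsCompact.image (IsCompact.inter_right
    ((isCompact_closedBall _ _).prod (isCompact_sphere _ _)) ?_) continuous_fst) hO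
  rw [Set.ofPred_forall]
  exact isClosed_iInter fun k => isClosed_eq (RP_Cpt_cont n d k) continuous_const

theorem robCpt (n : ℕ) {r : ℕ} (d : Fin r → ℕ) (O : Set (Kp n d → ℝ)) (hO : IsOpen O)
    (hZ : ∀ ω : Kp n d → ℝ, (∀ t, |ω t| ≤ 1) → Sing (pt ω : Tup n d ℝ) → ω ∈ O) :
    ∃ ρ : ℝ, 0 < ρ ∧ ρ ≤ 1 ∧ ∀ ω : Kp n d → ℝ, (∀ t, |ω t| ≤ 1) → ω ∉ O →
      (∃ x : Vc n ℝ, x ≠ 0 ∧ ∀ k, ev (pt ω k) x = 0) →
      ∃ (o : Fin (n + 1)) (S : Fin r → Fin (n + 1)), Function.Injective S ∧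
        Rob o S ρ (pt ω) := by
  have hcube : ∀ ω : Kp n d → ℝ, ω ∈ Metric.closedBall (0 : Kp n d → ℝ) 1 ↔ ∀ t, |ω t| ≤ 1 := by
    intro ω
    rw [mem_closedBall_zero_iff, pi_norm_le_iff_of_nonneg zero_le_one]
    rfl
  have main : ∃ ρ : ℝ, 0 < ρ ∧ ρ ≤ 1 ∧ ∀ ω ∈ ((Prod.fst '' ((Metric.closedBall (0 : Kp n d → ℝ) 1 ×ˢ
      Metric.sphere (0 : Vc n ℝ) (1 / 4)) ∩
      {q : (Kp n d → ℝ) × Vc n ℝ | ∀ k, ev (pt q.1 k) q.2 = 0})) \ O),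
      ∃ (o : Fin (n + 1)) (S : Fin r → Fin (n + 1)), Function.Injective S ∧
        Rob o S ρ (pt ω) := by
    refine IsCompact.induction_on (RP_Cpt_compact n d O hO)
      (p := fun T => ∃ ρ : ℝ, 0 < ρ ∧ ρ ≤ 1 ∧ ∀ ω ∈ T,
        ∃ (o : Fin (n + 1)) (S : Fin r → Fin (n + 1)), Function.Injective S ∧
        Rob o S ρ (pt ω)) ?_ ?_ ?_ ?_
    · exact ⟨1, one_pos, le_rfl, fun ω hω => absurd hω (Set.notMem_empty ω)⟩
    · rintro S T hST ⟨ρ, hρ, hρ1, h⟩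
      exact ⟨ρ, hρ, hρ1, fun ω hω => h ω (hST hω)⟩
    · rintro S T ⟨ρ, hρ, hρ1, h⟩ ⟨ρ', hρ', hρ1', h'⟩
      refine ⟨min ρ ρ', lt_min hρ hρ', (min_le_left _ _).trans hρ1, fun ω hω => ?_⟩
      rcases hω with hω | hω
      · obtain ⟨o, S, hS, hR⟩ := h ω hω
        exact ⟨o, S, hS, Rob_mono (min_le_left _ _) hR⟩
      · obtain ⟨o, S, hS, hR⟩ := h' ω hω
        exact ⟨o, S, hS, Rob_mono (min_le_right _ _) hR⟩
    · rintro ω0 ⟨⟨⟨ω, ξ⟩, ⟨⟨h1, h2⟩, h3⟩, rfl⟩, h5⟩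
      have hns : ¬ Sing (pt ω : Tup n d ℝ) := fun h => h5 (hZ ω ((hcube ω).1 h1) h)
      obtain ⟨ρ, hρ, U, hU, hU0, o, S, hS, hR⟩ :=
        RP_Cpt_point n d ω ξ (mem_sphere_zero_iff_norm.1 h2) h3 hns
      refine ⟨U, mem_nhdsWithin_of_mem_nhds (hU.mem_nhds hU0), min ρ 1, lt_min hρ one_pos,
        min_le_right _ _, fun ω' hω' => ⟨o, S, hS, Rob_mono (min_le_left _ _) (hR ω' hω')⟩⟩
  obtain ⟨ρ, hρ, hρ1, h⟩ := main
  refine ⟨ρ, hρ, hρ1, fun ω hω hωO hx => ?_⟩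
  obtain ⟨x, hx0, hxa⟩ := hx
  refine h ω ⟨⟨(ω, fun i => (1 / (4 * ‖x‖)) * x i), ⟨⟨(hcube ω).2 hω, ?_⟩, ?_⟩, rfl⟩, hωO⟩
  · have hn : ‖x‖ ≠ 0 := norm_ne_zero_iff.2 hx0
    rw [mem_sphere_zero_iff_norm]
    rw [show ((ω, fun i => (1 / (4 * ‖x‖)) * x i) : (Kp n d → ℝ) × Vc n ℝ).2 =
      (1 / (4 * ‖x‖)) • x from rfl, norm_smul, Real.norm_eq_abs, abs_of_nonneg (by positivity)]
    field_simp
  · intro k
    show ev (pt ω k) (fun i => (1 / (4 * ‖x‖)) * x i) = 0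
    rw [ev_scale, hxa k, mul_zero]

end Pool.Agent.Lib.MP_1ad228_ntF
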