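import Pool.Agent.Lib.MP_1ad228_ntF.RP_Chart

/-!
JOB RP_Phi.  A nonzero polynomial vanishing on all singular tuples (over all fields).  (RP_Chart is another job.)

PROOF.  Fix `p`, `i0`, `c0 = ⟨i0, fun _ => p⟩ : Kp n d`, `σ = {c : Kp n d // c ≠ c0}`,
`y0 : Kp n d → MvPolynomial σ ℤ`, `y0 c = if h : c ≠ c0 then X ⟨c, h⟩ else 0`, `G c = chart p i0 y0 c.1 c.2 : MvPolynomial σ ℤ`.
`G` is not algebraically independent over `ℤ`: otherwise `#(Kp n d) ≤ Algebra.trdeg ℤ (MvPolynomial σ ℤ) = #σ` (`AlgebraicIndependent.cardinalMk_le_trdeg`,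
`MvPolynomial.trdeg_of_isDomain`), but `card σ = card (Kp n d) - 1 < card (Kp n d)` (`Cardinal.mk_fintype`, `Fintype.card_subtype_compl`, `Cardinal.natCast_le`..).
So (`algebraicIndependent_iff`) there is `Φ_(p,i0) ≠ 0` in `MvPolynomial (Kp n d) ℤ` with `aeval G Φ_(p,i0) = 0`: theorem `chartPhi`.
If `F` over `K` and `x, t` satisfy the hypotheses of `chart_surj` then `F = chart p i0 y` with `y c0 = 0`; let `f : MvPolynomial σ ℤ →+* K` be `aeval (fun c => y c.1)`: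
`f (y0 c) = y c` for all `c`, so `f (G c) = F c.1 c.2` (`chart_map`) and `aeval (fun c => F c.1 c.2) Φ_(p,i0) = f (aeval G Φ_(p,i0)) = 0`.
`exPhi`: `Φ = ∏ p, ∏ i0, Φ_(p,i0) ≠ 0` (`Finset.prod_ne_zero_iff`). Let `x ≠ 0`, `t ≠ 0` be as in `Sing F`; `x p ≠ 0`, `t i0 ≠ 0`. Put `c = (x p)⁻¹`, `x' j = c * x j`,
`t' l = t l * (x p)^(d l - 1)`, `t'' l = t' l / t' i0`. Then `x' p = 1`, `t'' i0 = 1`, `ev (F l) x' = 0` (`ev_scale`), `dev (F l) x' j = c^(d l - 1) dev (F l) x j` (`dev_scale`),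
so `∑ l, t'' l * dev (F l) x' j = (t' i0)⁻¹ * ∑ l, t l * dev (F l) x j = 0`.
-/

namespace Pool.Agent.Lib.MP_1ad228_ntF

open Classical

theorem chartPhi (n : ℕ) {r : ℕ} (d : Fin r → ℕ) (hd : ∀ i, 1 ≤ d i) (p : Fin (n + 1))
    (i0 : Fin r) : ∃ Φ : MvPolynomial (Kp n d) ℤ, Φ ≠ 0 ∧
      ∀ (K : Type) [Field K] (F : Tup n d K) (x : Vc n K) (t : Fin r → K), x p = 1 → t i0 = 1 →
        (∀ l, ev (F l) x = 0) → (∀ j, j ≠ p → ∑ l, t l * dev (F l) x j = 0) →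
        MvPolynomial.aeval (fun c : Kp n d => F c.1 c.2) Φ = 0 := by
  set c0 : Kp n d := ⟨i0, fun _ => p⟩ with hc0
  set y0 : Kp n d → MvPolynomial {c : Kp n d // c ≠ c0} ℤ := fun c =>
    if h : c ≠ c0 then MvPolynomial.X ⟨c, h⟩ else 0 with hy0
  set G : Kp n d → MvPolynomial {c : Kp n d // c ≠ c0} ℤ := fun c => chart p i0 y0 c.1 c.2 with hG
  have hna : ¬ AlgebraicIndependent ℤ G := by
    intro h
    have h1 := h.cardinalMk_le_trdeg
    rw [MvPolynomial.trdeg_of_isDomain, Cardinal.lift_id, Cardinal.mk_fintype,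
      Cardinal.mk_fintype] at h1
    have h2 : Fintype.card (Kp n d) ≤ Fintype.card {c : Kp n d // c ≠ c0} := by exact_mod_cast h1
    have h3 : Fintype.card {c : Kp n d // c ≠ c0} < Fintype.card (Kp n d) :=
      Fintype.card_subtype_lt (x := c0) (by simp)
    omega
  rw [algebraicIndependent_iff] at hna
  push Not at hna
  obtain ⟨Φ, hΦ, hΦ0⟩ := hna
  refine ⟨Φ, hΦ0, ?_⟩
  intro K _ F x t hp ht h0 h1
  obtain ⟨y, hy, hF⟩ := chart_surj hd p i0 F x t hp ht h0 h1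
  set f : MvPolynomial {c : Kp n d // c ≠ c0} ℤ →ₐ[ℤ] K :=
    MvPolynomial.aeval (fun c : {c : Kp n d // c ≠ c0} => y c.1) with hf
  have hfy : (fun c => (f : MvPolynomial {c : Kp n d // c ≠ c0} ℤ →+* K) (y0 c)) = y := by
    funext c
    by_cases h : c ≠ c0
    · have e : y0 c = MvPolynomial.X ⟨c, h⟩ := dif_pos h
      rw [e]
      show f (MvPolynomial.X ⟨c, h⟩) = y c
      rw [hf, MvPolynomial.aeval_X]
    · have e : y0 c = 0 := dif_neg h
      rw [e, map_zero]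
      push Not at h
      rw [h]
      exact hy.symm
  have hfG : ∀ c : Kp n d, f (G c) = F c.1 c.2 := by
    intro c
    have h2 := chart_map (f : MvPolynomial {c : Kp n d // c ≠ c0} ℤ →+* K) p i0 y0 c.1 c.2
    rw [hfy, hF] at h2
    exact h2.symm
  have h3 := MvPolynomial.comp_aeval_apply G f Φ
  rw [hΦ, map_zero] at h3
  have h4 : (fun c : Kp n d => F c.1 c.2) = fun c => f (G c) := by
    funext c
    exact (hfG c).symm
  rw [h4]
  exact h3.symm

theorem exPhi (n : ℕ) {r : ℕ} (d : Fin r → ℕ) (hd : ∀ i, 1 ≤ d i) :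
    ∃ Φ : MvPolynomial (Kp n d) ℤ, Φ ≠ 0 ∧ ∀ (K : Type) [Field K] (F : Tup n d K), Sing F →
      MvPolynomial.aeval (fun c : Kp n d => F c.1 c.2) Φ = 0 := by
  choose Φ hΦ0 hΦ using fun p i0 => chartPhi n d hd p i0
  refine ⟨∏ p, ∏ i0, Φ p i0, ?_, ?_⟩
  · exact Finset.prod_ne_zero_iff.mpr fun p _ => Finset.prod_ne_zero_iff.mpr fun i0 _ => hΦ0 p i0
  · intro K _ F hS
    obtain ⟨x, t, hx, ht, h0, h1⟩ := hS
    obtain ⟨p, hp⟩ := Function.ne_iff.mp hx
    obtain ⟨i0, hi0⟩ := Function.ne_iff.mp ht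
    have hp' : x p ≠ 0 := hp
    have hi0' : t i0 ≠ 0 := hi0
    rw [map_prod]
    apply Finset.prod_eq_zero (Finset.mem_univ p)
    rw [map_prod]
    apply Finset.prod_eq_zero (Finset.mem_univ i0)
    have hti : t i0 * x p ^ (d i0 - 1) ≠ 0 := mul_ne_zero hi0' (pow_ne_zero _ hp')
    refine hΦ p i0 K F (fun j => (x p)⁻¹ * x j)
      (fun l => t l * x p ^ (d l - 1) * (t i0 * x p ^ (d i0 - 1))⁻¹) ?_ ?_ ?_ ?_
    · exact inv_mul_cancel₀ hp'
    · exact mul_inv_cancel₀ hti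
    · intro l
      rw [ev_scale, h0 l, mul_zero]
    · intro j _
      have e : ∀ l, t l * x p ^ (d l - 1) * (t i0 * x p ^ (d i0 - 1))⁻¹ *
          dev (F l) (fun j => (x p)⁻¹ * x j) j =
          (t i0 * x p ^ (d i0 - 1))⁻¹ * (t l * dev (F l) x j) := by
        intro l
        rw [dev_scale]
        have e1 : x p ^ (d l - 1) * (x p)⁻¹ ^ (d l - 1) = 1 := by
          rw [← mul_pow, mul_inv_cancel₀ hp', one_pow]
        calc t l * x p ^ (d l - 1) * (t i0 * x p ^ (d i0 - 1))⁻¹ *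
            ((x p)⁻¹ ^ (d l - 1) * dev (F l) x j) =
            (x p ^ (d l - 1) * (x p)⁻¹ ^ (d l - 1)) * ((t i0 * x p ^ (d i0 - 1))⁻¹ *
              (t l * dev (F l) x j)) := by ring
          _ = _ := by rw [e1, one_mul]
      rw [Finset.sum_congr rfl fun l _ => e l, ← Finset.mul_sum, h1 j, mul_zero]

end Pool.Agent.Lib.MP_1ad228_ntF
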