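import Pool.Agent.Lib.MP_1ad228_ntF.RP_Null
import Pool.Agent.Lib.MP_1ad228_ntF.RP_Phi
import Pool.Agent.Lib.MP_1ad228_ntF.RP_Cpt

/-!
JOB RP_Fin.  The exceptional sets at the real place.  (Model with proof: Lib/MP_219881_nt/RP_Fin.lean; adapt it. RP_Null, RP_Phi, RP_Cpt are other jobs;
`content` is proved.)

Let `Φ` be the polynomial of `exPhi`, `Φr = MvPolynomial.map (Int.castRingHom ℝ) Φ ≠ 0` (`MvPolynomial.map_injective`), `eval ω Φr = aeval ω Φ` (`MvPolynomial.eval_map`, `aeval_def`).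
`realRob`: `Z0 = {ω | eval ω Φr = 0} ∩ {ω | ∀ t, |ω t| ≤ 1}` is compact (`closedPoly`, closed subset of the compact cube) and null (`nullPoly`). `content` gives `O`, `A0` (for the number `ε`);
a `ω` in the cube with `Sing (pt ω)` is in `Z0 ⊆ O` (`exPhi` with `K = ℝ`; `(fun c => pt ω c.1 c.2) = ω`); `robCpt` with this `O` gives `ρ`. For `A ≥ A0` (so `A ≥ 1`) and `F` in the filter let
`z c = F c.1 c.2` and `ω c = z c / A`: `|ω c| ≤ 1`, `pt ω = fun i s => (F i s : ℝ) / A`. A real common zero of the `ct ℝ (F i)` is one of `pt ω`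
(`ev_smul` with `c = 1/A`). If `ω ∉ O` then `robCpt` gives `Rob`, contradiction; so `ω ∈ O`. The map `F ↦ z` is injective, so the cardinality is at most
`ε A^(card (Kp n d))`, `card (Kp n d) = VV n d` (`Fintype.card_sigma`, `Fintype.card_fun`), `A ≤ 2A+1`.

`nonSm`: the same `O`, `A0`. If `F` is not smooth over `K = AlgebraicClosure ℚ` there is `x ≠ 0` with `ev (ct K (F k)) x = 0` for all `k` and the gradients linearly dependent:
`Fintype.linearIndependent_iff` gives `t ≠ 0` with `∑ l, t l • dev (ct K (F l)) x = 0`. So `Sing (ctT K F)`, and also `Sing` of the tuple `c • ctT K F`, `c = 1/A`: `F' i s = (F i s : K) / A`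
(`ev_smul`, `dev_smul'`). By `exPhi` `aeval (fun c => F' c.1 c.2) Φ = 0` in `K`; the entries are the images of the rational numbers `F i s / A`, so `aeval` of the rational tuple is 0 in `ℚ`
(`algebraMap ℚ K` injective, `MvPolynomial.aeval_algebraMap_apply` / `map_aeval`), hence also over `ℝ`: `ω c = F c.1 c.2 / A` has `eval ω Φr = 0`: `ω ∈ Z0 ⊆ O`. Count as before.
(Put the common part in one private lemma as in the model: `RP_Fin_O`.)
-/

namespace Pool.Agent.Lib.MP_1ad228_ntF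

open Classical

/-- the integer vector of the entries of a tuple -/
private def RP_Fin_z {n r : ℕ} {d : Fin r → ℕ} (F : Tup n d ℤ) : Kp n d → ℤ :=
  fun c => F c.1 c.2

private theorem RP_Fin_inj (n : ℕ) {r : ℕ} (d : Fin r → ℕ) :
    Function.Injective (RP_Fin_z : Tup n d ℤ → Kp n d → ℤ) := by
  intro F G h
  funext i s
  exact congrFun h ⟨i, s⟩

/-- the point of the cube attached to a tuple of integer tensors -/
private noncomputable def RP_Fin_w {n r : ℕ} {d : Fin r → ℕ} (A : ℕ) (F : Tup n d ℤ) :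
    Kp n d → ℝ :=
  fun c => (RP_Fin_z F c : ℝ) / A

private theorem RP_Fin_pt {n r : ℕ} {d : Fin r → ℕ} (A : ℕ) (F : Tup n d ℤ) :
    (pt (RP_Fin_w A F) : Tup n d ℝ) = fun i s => (F i s : ℝ) / A := rfl

private theorem RP_Fin_pt' {n r : ℕ} {d : Fin r → ℕ} (A : ℕ) (F : Tup n d ℤ) (k : Fin r) :
    (pt (RP_Fin_w A F) : Tup n d ℝ) k = fun s => (1 / (A : ℝ)) * ct ℝ (F k) s := by
  rw [RP_Fin_pt]
  funext s
  simp only [ct]
  ring

private theorem RP_Fin_box {n d A : ℕ} {a : Ten n d ℤ} (h : a ∈ Box n d A)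
    (s : Fin d → Fin (n + 1)) : |(a s : ℝ)| ≤ A := by
  have h1 := mem_Box.1 h s
  have h2 : ((|a s| : ℤ) : ℝ) ≤ ((A : ℤ) : ℝ) := Int.cast_le.2 h1
  rw [Int.cast_abs] at h2
  exact_mod_cast h2

private theorem RP_Fin_cube {n r : ℕ} {d : Fin r → ℕ} {A : ℕ} (hA : 1 ≤ A) {F : Tup n d ℤ}
    (h : F ∈ TBox n d A) (t : Kp n d) : |RP_Fin_w A F t| ≤ 1 := by
  have hA' : (0 : ℝ) < A := by exact_mod_cast hA
  unfold RP_Fin_w RP_Fin_z
  rw [abs_div, abs_of_pos hA', div_le_one hA']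
  exact RP_Fin_box (mem_TBox.1 h t.1) t.2

private theorem RP_Fin_eval {κ : Type} (Φ : MvPolynomial κ ℤ) (ω : κ → ℝ) :
    MvPolynomial.eval ω (MvPolynomial.map (Int.castRingHom ℝ) Φ) = MvPolynomial.aeval ω Φ := by
  rw [MvPolynomial.eval_map, MvPolynomial.aeval_def]
  rfl

/-- the open set `O` and the count -/
private theorem RP_Fin_O (n : ℕ) {r : ℕ} (d : Fin r → ℕ) (hd : ∀ i, 1 ≤ d i) (ε : ℝ)
    (hε : 0 < ε) : ∃ O : Set (Kp n d → ℝ), IsOpen O ∧
    (∀ ω : Kp n d → ℝ, (∀ t, |ω t| ≤ 1) → Sing (pt ω : Tup n d ℝ) → ω ∈ O) ∧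
    (∀ A : ℕ, 1 ≤ A → ∀ F ∈ TBox n d A, Sing (ctT (AlgebraicClosure ℚ) F) →
      RP_Fin_w A F ∈ O) ∧
    ∃ A0 : ℕ, 1 ≤ A0 ∧ ∀ A ≥ A0, ∀ S : Finset (Tup n d ℤ), (∀ F ∈ S, RP_Fin_w A F ∈ O) →
      (S.card : ℝ) ≤ ε * (2 * A + 1 : ℝ) ^ VV n d := by
  obtain ⟨Φ, hΦ, hS⟩ := exPhi n d hd
  have hΦr : MvPolynomial.map (Int.castRingHom ℝ) Φ ≠ 0 := by
    intro h
    exact hΦ (MvPolynomial.map_injective (Int.castRingHom ℝ) Int.cast_injective
      (h.trans (map_zero _).symm))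
  have hcpt : IsCompact ({ω : Kp n d → ℝ |
      MvPolynomial.eval ω (MvPolynomial.map (Int.castRingHom ℝ) Φ) = 0} ∩
      Metric.closedBall (0 : Kp n d → ℝ) 1) :=
    (isCompact_closedBall _ _).inter_left (closedPoly _)
  obtain ⟨O, hO, hZO, A0, hA0, h⟩ := content ({ω : Kp n d → ℝ |
      MvPolynomial.eval ω (MvPolynomial.map (Int.castRingHom ℝ) Φ) = 0} ∩
      Metric.closedBall (0 : Kp n d → ℝ) 1) hcpt
    (MeasureTheory.measure_mono_null Set.inter_subset_left (nullPoly _ hΦr)) ε hε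
  have hmem : ∀ ω : Kp n d → ℝ, (∀ t, |ω t| ≤ 1) → MvPolynomial.aeval ω Φ = 0 → ω ∈ O := by
    intro ω h1 h2
    refine hZO ⟨?_, ?_⟩
    · rw [← RP_Fin_eval] at h2
      exact h2
    · rw [mem_closedBall_zero_iff, pi_norm_le_iff_of_nonneg zero_le_one]
      exact h1
  refine ⟨O, hO, fun ω h1 h2 => hmem ω h1 (hS ℝ (pt ω) h2), fun A hA F hF hSg => ?_, A0, hA0,
    fun A hA S hSO => ?_⟩
  · refine hmem _ (RP_Fin_cube hA hF) ?_
    obtain ⟨x, t, hx, ht, h0, h1⟩ := hSg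
    have hS' := hS (AlgebraicClosure ℚ)
      (fun i => (algebraMap ℚ (AlgebraicClosure ℚ) (1 / (A : ℚ))) •
        ctT (AlgebraicClosure ℚ) F i) ⟨x, t, hx, ht, fun l => ?_, fun j => ?_⟩
    · have h2 : (fun c : Kp n d => ((algebraMap ℚ (AlgebraicClosure ℚ) (1 / (A : ℚ))) •
          ctT (AlgebraicClosure ℚ) F c.1) c.2) =
          (algebraMap ℚ (AlgebraicClosure ℚ)) ∘ fun c : Kp n d => (F c.1 c.2 : ℚ) / A := by
        funext c
        show (algebraMap ℚ (AlgebraicClosure ℚ) (1 / (A : ℚ))) *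
          ((F c.1 c.2 : ℤ) : AlgebraicClosure ℚ) =
          algebraMap ℚ (AlgebraicClosure ℚ) (((F c.1 c.2 : ℤ) : ℚ) / A)
        rw [← map_intCast (algebraMap ℚ (AlgebraicClosure ℚ)) (F c.1 c.2), ← map_mul]
        refine congrArg (algebraMap ℚ (AlgebraicClosure ℚ)) ?_
        ring
      rw [h2, MvPolynomial.aeval_algebraMap_apply] at hS'
      have h3 : MvPolynomial.aeval (fun c : Kp n d => (F c.1 c.2 : ℚ) / A) Φ = 0 := by
        apply (algebraMap ℚ (AlgebraicClosure ℚ)).injective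
        rw [hS', map_zero]
      have h4 : RP_Fin_w A F =
          (algebraMap ℚ ℝ) ∘ fun c : Kp n d => (F c.1 c.2 : ℚ) / A := by
        funext c
        rw [Function.comp_apply, map_div₀, map_intCast, map_natCast]
        rfl
      rw [h4, MvPolynomial.aeval_algebraMap_apply, h3, map_zero]
    · show ev ((algebraMap ℚ (AlgebraicClosure ℚ) (1 / (A : ℚ))) •
        ctT (AlgebraicClosure ℚ) F l) x = 0
      rw [ev_smul', h0, mul_zero]
    · have h5 : ∀ l, t l * dev ((algebraMap ℚ (AlgebraicClosure ℚ) (1 / (A : ℚ))) •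
          ctT (AlgebraicClosure ℚ) F l) x j =
          algebraMap ℚ (AlgebraicClosure ℚ) (1 / (A : ℚ)) *
            (t l * dev (ctT (AlgebraicClosure ℚ) F l) x j) := by
        intro l
        rw [dev_smul']
        ring
      rw [Finset.sum_congr rfl (fun l _ => h5 l), ← Finset.mul_sum, h1, mul_zero]
  · have h1 := h A hA (S.image RP_Fin_z) (by
      intro z hz
      obtain ⟨F, hF, rfl⟩ := Finset.mem_image.1 hz
      exact hSO F hF)
    rw [Finset.card_image_of_injective S (RP_Fin_inj n d)] at h1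
    refine h1.trans (mul_le_mul_of_nonneg_left ?_ hε.le)
    have hcard : Fintype.card (Kp n d) = VV n d := by
      rw [Fintype.card_sigma]
      simp only [Fintype.card_fun, Fintype.card_fin]
      rfl
    rw [hcard]
    refine pow_le_pow_left₀ (Nat.cast_nonneg A) ?_ _
    have : (0 : ℝ) ≤ (A : ℝ) := Nat.cast_nonneg A
    linarith

theorem realRob (n : ℕ) {r : ℕ} (d : Fin r → ℕ) (hd : ∀ i, 1 ≤ d i) (ε : ℝ) (hε : 0 < ε) :
    ∃ ρ : ℝ, 0 < ρ ∧ ρ ≤ 1 ∧ ∃ A0 : ℕ, ∀ A ≥ A0,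
    (((TBox n d A).filter fun F => RSol F ∧
        ¬ ∃ (o : Fin (n + 1)) (S : Fin r → Fin (n + 1)), Function.Injective S ∧
          Rob o S ρ (fun i s => (F i s : ℝ) / A : Tup n d ℝ)).card : ℝ)
      ≤ ε * (2 * A + 1 : ℝ) ^ VV n d := by
  obtain ⟨O, hO, hZ, -, A0, hA0, hcount⟩ := RP_Fin_O n d hd ε hε
  obtain ⟨ρ, hρ, hρ1, hrob⟩ := robCpt n d O hO hZ
  refine ⟨ρ, hρ, hρ1, A0, fun A hA => hcount A hA _ fun F hF => ?_⟩
  obtain ⟨h1, ⟨x, hx0, hx⟩, h2⟩ := Finset.mem_filter.1 hF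
  by_contra hnO
  apply h2
  have h3 := hrob (RP_Fin_w A F) (RP_Fin_cube (hA0.trans hA) h1) hnO
    ⟨x, hx0, fun k => by rw [RP_Fin_pt', ev_smul, hx, mul_zero]⟩
  rwa [RP_Fin_pt] at h3

theorem nonSm (n : ℕ) {r : ℕ} (d : Fin r → ℕ) (hd : ∀ i, 1 ≤ d i) (ε : ℝ) (hε : 0 < ε) :
    ∃ A0 : ℕ, ∀ A ≥ A0,
    (((TBox n d A).filter fun F =>
        ¬ ∀ x : Vc n (AlgebraicClosure ℚ), x ≠ 0 →
          (∀ k, ev (ct (AlgebraicClosure ℚ) (F k)) x = 0) →
          LinearIndependent (AlgebraicClosure ℚ)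
            (fun k => dev (ct (AlgebraicClosure ℚ) (F k)) x)).card : ℝ)
      ≤ ε * (2 * A + 1 : ℝ) ^ VV n d := by
  obtain ⟨O, hO, -, hK, A0, hA0, hcount⟩ := RP_Fin_O n d hd ε hε
  refine ⟨A0, fun A hA => hcount A hA _ fun F hF => ?_⟩
  obtain ⟨h1, h2⟩ := Finset.mem_filter.1 hF
  push Not at h2
  obtain ⟨x, hx0, hx, hli⟩ := h2
  rw [Fintype.linearIndependent_iff] at hli
  push Not at hli
  obtain ⟨t, ht, i, hi⟩ := hli
  refine hK A (hA0.trans hA) F h1 ⟨x, t, hx0, fun h => hi (by rw [h]; rfl), hx, fun j => ?_⟩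
  have h3 := congrFun ht j
  rw [Finset.sum_apply] at h3
  exact h3

end Pool.Agent.Lib.MP_1ad228_ntF
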