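import Pool.Agent.Lib.MP_1ad228_ntF.MN_Par
import Pool.Agent.Lib.MP_1ad228_ntF.MN_Cheb
import Pool.Agent.Lib.MP_1ad228_ntF.LocDens
import Pool.Agent.Lib.MP_1ad228_ntF.RP_Fin
import Pool.Agent.Lib.MP_1ad228_ntF.MainDef
import Pool.Agent.Lib.MP_1ad228_ntF.B_Var
import Pool.Agent.Lib.MP_1ad228_ntF.B_Mk
import Pool.Agent.Lib.MP_1ad228_ntF.B_Low

/-!
JOB B_Main.  Almost all everywhere locally soluble r-tuples of quadratic tensors in `2r + 1` variables have a small common zero. (Model: MN_Bad.lean of the same folder.)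

PROOF.  `n = 2 r`, `d = fun _ => 2`, `D = ∑ d = 2 r` (simp), `n + 1 - D = 1`, `V = VV n d`, `U A = (2A+1)^V`. Order of the choices:
1. `realRob (ε/5)`: `ρ, A1`; `q`, `1 ≤ ρ q`. `locDens (ε/5)`: `τ, w1`. `lowB`: `c`. `badB n`: `Cb`. `varTotB`: `C1`. Put `η = c τ/2`.
2. `s ≥ 1` with `10^V (6^r q^D Cb/s^n)/(η 3^r) ≤ ε/(10 (n+1))`. `h = 3^n (n+1) s^(n-1)`.
3. `μ ≥ 1` with `2^V * 4/(cτ)^2 * C1 * (4/μ)^r ≤ ε/(10 (n+1))` (see step 7; `E ≥ (μ/4)^r`). `lam = 8 cc n 2 h^2 μ` (at least 1: replace by `lam + 1` if necessary). `varTotB`: `C2`.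
4. `T ≥ 1` with `2^V * 4/(cτ)^2 * C2/T ≤ ε/(40 (n+1))`. `T' = (n+1)^2 h^2 μ T`. `varTotB`: `C3`. `K = (T^2)^2`.
5. `w ≥ max w0(K) w1`, `w ≥ 1`, `2^V * 4/(cτ)^2 * C2/(w+1) ≤ ε/(40(n+1))`. `W = WW w`. `B0` from `lowB`. `s' ≥ 1` with `10^V (Cb/s'^n) (K W)^r/(η 3^r) ≤ ε/(10 (n+1))`.
6. `A` large; `g = Nat.sqrt (μ A)`: `g^2 ≤ μ A < (g+1)^2 ≤ 4 g^2`. `B = g^n`, `H = h g`, `H' = A / (8 CC n d)` (natural division; `CC n d ≥ 1`). `g → ∞` as `A → ∞`, so for `A` large: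
   `B ≥ B0`, `g ≥ g0(s)`, `g ≥ g0(s')` (`badB`), `3^n (n+1) s'^(n-1) g ≤ H'` (because `g ≤ 2 μ A/g`... : `g^2 ≤ μ A` gives `A ≥ g * (g/μ)`, so `H' ≥ A/(8 CC) - 1 ≥ 3^n (n+1) s'^(n-1) g` for
   `g` large), `8 CC H ≤ A` (same reason), `4 q^(2r) ≤ A`, `T ≤ A`, `K W ≤ A B`. Also `8 cc H^2 = 8 cc h^2 g^2 ≤ 8 cc h^2 μ A ≤ lam A`, `(n+1)^2 H^2 T ≤ (n+1)^2 h^2 μ A T = A T' ≤ 2 A T'`.
   `E = B^(n+1)/(A^r B^(2r)) = B/A^r = (g^2/A)^r ≥ (μ/4)^r` (`EEq`; `B = (g^2)^r`). `H^(n+1+r) B^r/B^n = h^(3r+1) g^(3r+1+2r^2-4r^2) ≤ h^(3r+1)/g` (`r ≥ 2`: `3r + 2 ≤ 2 r^2`), and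
   `H^(2n(n+1)-1)/B^(2(n+1)) = h^(2n(n+1)-1)/g`. So the bracket of `varTotB` is at most `1/T + 1/(w+1) + h^(3r+1)/g + C3 (W T^2)^r h^(2n(n+1)-1)/g`, the last two terms `≤ 1/T` for `g` large.
7. For `o : Fin (n+1)` let `R(F) = #{x ∈ GG B B q o | ¬ HGood H x ∧ ∀ i, Loc W K A o (F i) x}`, `P_o` the set of `F ∈ TBox n d A` with `(K W)^r R(F)/(3^r B^(n+1)) > η`, and `T_o` the set of
   `F ∈ TBox n d A`, `F ∉ P_o`, with `Nn B H q o F = 0`, `∃ S, Injective S ∧ Rob o S ρ (F/A)`, `τ W^(n+1) ≤ sm .. W^r`. Markov (`markB`, `badB` for `s` and for `s'`):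
   `#P_o ≤ (10A)^V (6^r q^D/(K W)^r Cb B^(n+1)/s^n + Cb B^(n+1)/s'^n) * (K W)^r/(η 3^r B^(n+1)) ≤ A^V * 2 ε/(10 (n+1))`. `lowB`: on `T_o` `Ll ≥ E (c τ - η) = E c τ/2 =: lo`. `chebB`:
   `#T_o * lo^2 ≤ 2^V QvB ≤ 2^V A^V (C1 E + C2 E^2 (...))`, so `#T_o ≤ A^V 2^V 4/(cτ)^2 (C1/E + C2 (2/T + 1/(w+1) + 1/T)) ≤ A^V * (ε/(10(n+1)) + ε/(10(n+1)))` (`4` terms `≤ ε/(40(n+1))`).
8. A tuple `F` of the filter is in the exceptional set of `realRob`, or in that of `locDens`, or in `P_o` or `T_o` for some `o` (as in MN_Bad; `x ∈ GG` gives `|x l| ≤ B = (g^2)^r ≤ (μ A)^r = μ^r A^r`, `M = μ^r`,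
   `n + 1 - D = 1`). Total `≤ (ε/5 + ε/5) U + (n+1) (4 ε/(10(n+1))) A^V ≤ ε U`.
-/

namespace Pool.Agent.Lib.MP_1ad228_ntF

open Classical

private theorem B_Main_inv (X e : ℝ) (hX : 0 ≤ X) (he : 0 < e) : ∃ s : ℕ, 1 ≤ s ∧ X / s ≤ e := by
  refine ⟨⌈X / e⌉₊ + 1, by omega, ?_⟩
  have h1 := Nat.le_ceil (X / e)
  rw [div_le_iff₀ he] at h1
  have h2 : (0 : ℝ) < ((⌈X / e⌉₊ + 1 : ℕ) : ℝ) := by positivity
  rw [div_le_iff₀ h2]
  push_cast
  nlinarith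

private theorem B_Main_pow (X e : ℝ) (hX : 0 ≤ X) (s n : ℕ) (hs : 1 ≤ s) (hn : 1 ≤ n) (h : X / s ≤ e) :
    X / (s : ℝ) ^ n ≤ e := by
  refine le_trans ?_ h
  have h1 : (1 : ℝ) ≤ s := by exact_mod_cast hs
  apply div_le_div_of_nonneg_left hX (by linarith)
  exact le_self_pow₀ h1 (by omega)

/-- the parameter `g` -/
private theorem B_Main_g (μ c G0 : ℕ) (hμ : 1 ≤ μ) : ∃ A0 : ℕ, ∀ A ≥ A0, ∃ g : ℕ, 1 ≤ g ∧ G0 ≤ g ∧
    1 ≤ A ∧ g ^ 2 ≤ μ * A ∧ μ * A ≤ 4 * g ^ 2 ∧ c * g ≤ A := by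
  refine ⟨(G0 + c * μ + 1) ^ 2, fun A hA => ⟨Nat.sqrt (μ * A), ?_⟩⟩
  have h1 : (G0 + c * μ + 1) ^ 2 ≤ μ * A := by
    calc (G0 + c * μ + 1) ^ 2 ≤ A := hA
      _ = 1 * A := (one_mul A).symm
      _ ≤ μ * A := Nat.mul_le_mul_right A hμ
  have h2 : G0 + c * μ + 1 ≤ Nat.sqrt (μ * A) := by
    rw [Nat.le_sqrt', ]
    exact h1
  obtain ⟨g, hg⟩ : ∃ g, g = Nat.sqrt (μ * A) := ⟨_, rfl⟩
  rw [← hg] at h2 ⊢
  have h3 : g ^ 2 ≤ μ * A := by
    rw [hg]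
    exact Nat.sqrt_le' (μ * A)
  have h4 : μ * A < (g + 1) ^ 2 := by
    rw [hg]
    exact Nat.lt_succ_sqrt' (μ * A)
  have hA1 : 1 ≤ A := by
    have : 1 ≤ (G0 + c * μ + 1) ^ 2 := Nat.one_le_pow _ _ (by omega)
    omega
  refine ⟨by omega, by omega, hA1, h3, ?_, ?_⟩
  · refine h4.le.trans ?_
    have h5 : g + 1 ≤ 2 * g := by omega
    calc (g + 1) ^ 2 ≤ (2 * g) ^ 2 := Nat.pow_le_pow_left h5 2
      _ = 4 * g ^ 2 := by ring
  · have h5 : c * μ ≤ g := by omega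
    have h6 : μ * (c * g) ≤ μ * A := by
      calc μ * (c * g) = (c * μ) * g := by ring
        _ ≤ g * g := Nat.mul_le_mul_right g h5
        _ = g ^ 2 := by ring
        _ ≤ μ * A := h3
    exact Nat.le_of_mul_le_mul_left h6 (by omega)

private theorem B_Main_ar1 (C η κ t b z av x Cb s1 s2 y1 y2 e : ℝ) (hη : 0 < η) (hκ : 0 < κ) (ht : 0 < t)
    (hb : 0 < b) (hz : 0 < z) (hav : 0 ≤ av) (hx : 0 < x) (hCb : 0 < Cb) (hs1 : 0 < s1) (hs2 : 0 < s2)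
    (h1 : C * η ≤ κ / (t * b) * (z * av * (x / κ * y1 + y2))) (hy1 : y1 ≤ Cb * b / s1)
    (hy2 : y2 ≤ Cb * b / s2) (e1 : z * x * Cb / (η * t) / s1 ≤ e) (e2 : z * κ * Cb / (η * t) / s2 ≤ e) :
    C ≤ 2 * e * av := by
  have h2 : κ / (t * b) * (z * av * (x / κ * y1 + y2)) ≤
      κ / (t * b) * (z * av * (x / κ * (Cb * b / s1) + Cb * b / s2)) := by
    apply mul_le_mul_of_nonneg_left _ (by positivity)
    apply mul_le_mul_of_nonneg_left _ (by positivity)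
    exact add_le_add (mul_le_mul_of_nonneg_left hy1 (by positivity)) hy2
  have h3 : κ / (t * b) * (z * av * (x / κ * (Cb * b / s1) + Cb * b / s2)) =
      (av * (z * x * Cb / (η * t) / s1 + z * κ * Cb / (η * t) / s2)) * η := by
    field_simp
  have h4 : (av * (z * x * Cb / (η * t) / s1 + z * κ * Cb / (η * t) / s2)) * η ≤ (2 * e * av) * η := by
    apply mul_le_mul_of_nonneg_right _ hη.le
    calc av * (z * x * Cb / (η * t) / s1 + z * κ * Cb / (η * t) / s2) ≤ av * (e + e) :=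
          mul_le_mul_of_nonneg_left (add_le_add e1 e2) hav
      _ = 2 * e * av := by ring
  have h5 : C * η ≤ (2 * e * av) * η := h1.trans (h2.trans (h3.le.trans h4))
  exact le_of_mul_le_mul_right h5 hη

private theorem B_Main_ar2 (T Q C1 C2 av E S c τ P L T1 e : ℝ) (hC1 : 0 < C1) (hC2 : 0 < C2) (hav : 0 ≤ av)
    (hc : 0 < c) (hτ : 0 < τ) (hP : 0 < P) (hL : 0 < L) (hE : L ≤ E) (hT1 : 0 < T1)
    (h1 : T * (E * (c * τ / 2)) ^ 2 ≤ P * Q) (h2 : Q ≤ C1 * av * E + C2 * av * E ^ 2 * S)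
    (hS : S ≤ 3 / T1) (e1 : P * 4 * C1 / (c * τ) ^ 2 / L ≤ e) (e2 : P * 4 * C2 * 3 / (c * τ) ^ 2 / T1 ≤ e) :
    T ≤ 2 * e * av := by
  have hE0 : 0 < E := lt_of_lt_of_le hL hE
  have h3 : E ≤ E ^ 2 / L := by
    rw [le_div_iff₀ hL]
    calc E * L ≤ E * E := mul_le_mul_of_nonneg_left hE hE0.le
      _ = E ^ 2 := by ring
  have h4 : C1 * av * E + C2 * av * E ^ 2 * S ≤ C1 * av * (E ^ 2 / L) + C2 * av * E ^ 2 * (3 / T1) :=
    add_le_add (mul_le_mul_of_nonneg_left h3 (by positivity)) (mul_le_mul_of_nonneg_left hS (by positivity))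
  have h5 : P * (C1 * av * (E ^ 2 / L) + C2 * av * E ^ 2 * (3 / T1)) =
      (av * (P * 4 * C1 / (c * τ) ^ 2 / L + P * 4 * C2 * 3 / (c * τ) ^ 2 / T1)) * (E * (c * τ / 2)) ^ 2 := by
    field_simp
    ring
  have h6 : (av * (P * 4 * C1 / (c * τ) ^ 2 / L + P * 4 * C2 * 3 / (c * τ) ^ 2 / T1)) * (E * (c * τ / 2)) ^ 2 ≤
      (2 * e * av) * (E * (c * τ / 2)) ^ 2 := by
    apply mul_le_mul_of_nonneg_right _ (sq_nonneg _)
    calc av * (P * 4 * C1 / (c * τ) ^ 2 / L + P * 4 * C2 * 3 / (c * τ) ^ 2 / T1) ≤ av * (e + e) :=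
          mul_le_mul_of_nonneg_left (add_le_add e1 e2) hav
      _ = 2 * e * av := by ring
  have h7 : T * (E * (c * τ / 2)) ^ 2 ≤ (2 * e * av) * (E * (c * τ / 2)) ^ 2 :=
    h1.trans ((mul_le_mul_of_nonneg_left (h2.trans h4) hP.le).trans (h5.le.trans h6))
  exact le_of_mul_le_mul_right h7 (by positivity)

/-- the powers -/
private theorem B_Main_H1 (r n g h B H : ℕ) (hr : 2 ≤ r) (hn : n = 2 * r) (hg : 1 ≤ g) (hB : B = g ^ n)
    (hH : H = h * g) : (H : ℝ) ^ (n + 1 + r) * (B : ℝ) ^ r / (B : ℝ) ^ n ≤ (h : ℝ) ^ (3 * r + 1) / g := by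
  have hg' : (1 : ℝ) ≤ (g : ℝ) := by exact_mod_cast hg
  have hg0 : (0 : ℝ) < (g : ℝ) := by linarith
  subst hB hH hn
  push_cast
  rw [div_le_div_iff₀ (by positivity) hg0]
  have h1 : ((h : ℝ) * g) ^ (2 * r + 1 + r) * ((g : ℝ) ^ (2 * r)) ^ r * g =
      (h : ℝ) ^ (3 * r + 1) * (g : ℝ) ^ ((3 * r + 1) + (2 * r) * r + 1) := by
    have e : (g : ℝ) ^ ((3 * r + 1) + (2 * r) * r + 1) = (g : ℝ) ^ (3 * r + 1) * (g : ℝ) ^ ((2 * r) * r) * g := by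
      rw [pow_succ, pow_add]
    rw [e, mul_pow, show 2 * r + 1 + r = 3 * r + 1 by ring, ← pow_mul]
    ring
  have h2 : (h : ℝ) ^ (3 * r + 1) * ((g : ℝ) ^ (2 * r)) ^ (2 * r) =
      (h : ℝ) ^ (3 * r + 1) * (g : ℝ) ^ ((2 * r) * (2 * r)) := by
    rw [← pow_mul]
  rw [h1, h2]
  apply mul_le_mul_of_nonneg_left _ (by positivity)
  refine pow_le_pow_right₀ hg' ?_
  nlinarith

private theorem B_Main_H2 (n g h B H : ℕ) (hn : 1 ≤ n) (hg : 1 ≤ g) (hB : B = g ^ n)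
    (hH : H = h * g) : (H : ℝ) ^ (2 * n * (n + 1) - 1) / (B : ℝ) ^ (2 * (n + 1)) =
      (h : ℝ) ^ (2 * n * (n + 1) - 1) / g := by
  have hg' : (1 : ℝ) ≤ (g : ℝ) := by exact_mod_cast hg
  have hg0 : (0 : ℝ) < (g : ℝ) := by linarith
  obtain ⟨k, hk⟩ : ∃ k, 2 * n * (n + 1) = k + 1 := by
    refine ⟨2 * n * (n + 1) - 1, ?_⟩
    have : 0 < 2 * n * (n + 1) := by positivity
    omega
  have hB' : (B : ℝ) ^ (2 * (n + 1)) = (g : ℝ) ^ k * g := by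
    rw [hB, Nat.cast_pow, ← pow_mul, ← pow_succ, ← hk]
    congr 1
    ring
  rw [hB', hH, hk, Nat.add_sub_cancel]
  push_cast
  rw [mul_pow]
  have hgk : (g : ℝ) ^ k ≠ 0 := (pow_pos hg0 k).ne'
  field_simp

/-- Markov -/
private theorem B_Main_markov {α : Type*} (S : Finset α) (f : α → ℝ) (hf : ∀ a ∈ S, 0 ≤ f a) (η : ℝ)
    (hη : 0 < η) : ((S.filter fun a => ¬ f a ≤ η).card : ℝ) * η ≤ ∑ a ∈ S, f a := by
  calc ((S.filter fun a => ¬ f a ≤ η).card : ℝ) * η = ∑ _a ∈ S.filter (fun a => ¬ f a ≤ η), η := by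
        rw [Finset.sum_const, nsmul_eq_mul]
    _ ≤ ∑ a ∈ S.filter (fun a => ¬ f a ≤ η), f a := by
        apply Finset.sum_le_sum
        intro a ha
        rw [Finset.mem_filter] at ha
        exact (not_le.1 ha.2).le
    _ ≤ ∑ a ∈ S, f a :=
        Finset.sum_le_sum_of_subset_of_nonneg (Finset.filter_subset _ _) (fun a ha _ => hf a ha)

private noncomputable def B_Main_R {n r : ℕ} (B H q w K A : ℕ) {d : Fin r → ℕ} (o : Fin (n + 1))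
    (F : Tup n d ℤ) : ℝ :=
  ((K : ℝ) * WW w) ^ r * (((GG B B q o).filter fun x => ¬ HGood H x ∧
    ∀ i, Loc (WW w) K A o (F i) x).card : ℝ) / (3 ^ r * (B : ℝ) ^ (n + 1))

private noncomputable def B_Main_P {n r : ℕ} (d : Fin r → ℕ) (B H q w K A : ℕ) (η : ℝ) (o : Fin (n + 1)) :
    Finset (Tup n d ℤ) := (TBox n d A).filter fun F => ¬ B_Main_R B H q w K A o F ≤ η

private noncomputable def B_Main_T {n r : ℕ} (d : Fin r → ℕ) (B H q w K A : ℕ) (ρ τ η : ℝ) (o : Fin (n + 1)) :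
    Finset (Tup n d ℤ) :=
  (TBox n d A).filter fun F => B_Main_R B H q w K A o F ≤ η ∧ Nn B H q o F = 0 ∧
    (∃ S : Fin r → Fin (n + 1), Function.Injective S ∧
      Rob o S ρ (fun i s => (F i s : ℝ) / A : Tup n d ℝ)) ∧
    τ * (WW w : ℝ) ^ (n + 1) ≤ (sm (WW w) (ctT (ZMod (WW w)) F) : ℝ) * (WW w : ℝ) ^ r

private theorem B_Main_core (r : ℕ) (hr : 2 ≤ r) (n : ℕ) (hn : n = 2 * r) (d : Fin r → ℕ)
    (hd2 : d = fun _ => 2) : MainP n d := by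
  intro ε hε
  have hr1 : 1 ≤ r := by omega
  have hn1 : 1 ≤ n := by omega
  have hn2 : r + 2 ≤ n := by omega
  have hd : ∀ i, 1 ≤ d i := fun i => by rw [hd2]; norm_num
  have hD : ∑ i, d i = 2 * r := by
    rw [hd2, Finset.sum_const, Finset.card_univ, Fintype.card_fin, smul_eq_mul, mul_comm]
  have hD1 : n + 1 - ∑ i, d i = 1 := by rw [hD]; omega
  obtain ⟨ρ, hρ, hρ1, A1, hreal⟩ := realRob n d hd (ε / 5) (by positivity)
  obtain ⟨q, hq1, hqρ⟩ : ∃ q : ℕ, 1 ≤ q ∧ 1 ≤ ρ * q := by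
    refine ⟨⌈1 / ρ⌉₊ + 1, by omega, ?_⟩
    have h1 := Nat.le_ceil (1 / ρ)
    rw [div_le_iff₀ hρ] at h1
    push_cast
    nlinarith
  obtain ⟨τ, hτ, w1, hloc⟩ := locDens n hr1 hn2 d hd (ε / 5) (by positivity)
  obtain ⟨c, hc, hlow⟩ := lowB hr1 n hn2 d hd ρ hρ hρ1 q hqρ
  obtain ⟨Cb, hCb, hbad⟩ := badB n (by omega)
  obtain ⟨C1, hC1, hvar⟩ := varTotB hr1 n hn2 q hq1
  rw [← hd2] at hvar
  have hq0 : (0 : ℝ) < q := by exact_mod_cast hq1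
  obtain ⟨η, hη0⟩ : ∃ η : ℝ, η = c * τ / 2 := ⟨_, rfl⟩
  have hη : 0 < η := by rw [hη0]; positivity
  obtain ⟨e, he0⟩ : ∃ e : ℝ, e = ε / (10 * ((n + 1 : ℕ) : ℝ)) := ⟨_, rfl⟩
  have he : 0 < e := by rw [he0]; positivity
  -- s
  obtain ⟨s, hs1, hs⟩ := B_Main_inv ((10 : ℝ) ^ VV n d * (6 ^ r * (q : ℝ) ^ (∑ i, d i)) * Cb / (η * 3 ^ r)) e
    (by positivity) he
  obtain ⟨h, hh⟩ : ∃ h : ℕ, h = 3 ^ n * (n + 1) * s ^ (n - 1) := ⟨_, rfl⟩
  have hh1 : 1 ≤ h := by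
    rw [hh]
    have : 0 < 3 ^ n * (n + 1) * s ^ (n - 1) := by positivity
    exact this
  -- μ
  obtain ⟨L, hL1, hL⟩ := B_Main_inv ((2 : ℝ) ^ VV n d * 4 * C1 / (c * τ) ^ 2) e (by positivity) he
  obtain ⟨μ, hμ⟩ : ∃ μ : ℕ, μ = 4 * L := ⟨_, rfl⟩
  have hμ1 : 1 ≤ μ := by omega
  obtain ⟨lam, hlam⟩ : ∃ lam : ℕ, lam = 8 * cc n 2 * h ^ 2 * μ + 1 := ⟨_, rfl⟩
  have hlam1 : 1 ≤ lam := by omega
  obtain ⟨C2, hC2, hvar2⟩ := hvar lam hlam1
  -- T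
  obtain ⟨T, hT1, hT⟩ := B_Main_inv ((2 : ℝ) ^ VV n d * 4 * C2 * 3 / (c * τ) ^ 2) e (by positivity) he
  obtain ⟨T', hT'⟩ : ∃ T' : ℕ, T' = (n + 1) ^ 2 * h ^ 2 * μ * T := ⟨_, rfl⟩
  obtain ⟨C3, hC3, hvar3⟩ := hvar2 T'
  obtain ⟨K, hK⟩ : ∃ K : ℕ, K = (T ^ 2) ^ 2 := ⟨_, rfl⟩
  have hK1 : 1 ≤ K := by rw [hK]; exact Nat.one_le_pow _ _ (Nat.one_le_pow _ _ hT1)
  obtain ⟨w0, hw0⟩ := hlow K hK1
  obtain ⟨w, hw⟩ : ∃ w : ℕ, w = w0 + w1 + T := ⟨_, rfl⟩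
  obtain ⟨B0, hB0⟩ := hw0 w (by omega)
  obtain ⟨A2, hA2⟩ := hloc w (by omega)
  have hWpos := Pool.Agent.Lib.MP_219881_nt.WWpos w
  have hWr : (0 : ℝ) < (WW w : ℝ) := by exact_mod_cast hWpos
  have hKr : (0 : ℝ) < (K : ℝ) := by exact_mod_cast hK1
  have hKW : (0 : ℝ) < ((K : ℝ) * WW w) ^ r := by positivity
  -- s'
  obtain ⟨s', hs1', hs'⟩ := B_Main_inv ((10 : ℝ) ^ VV n d * ((K : ℝ) * WW w) ^ r * Cb / (η * 3 ^ r)) e
    (by positivity) he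
  obtain ⟨g0, hg0⟩ := hbad s hs1
  obtain ⟨g0', hg0'⟩ := hbad s' hs1'
  obtain ⟨G1, hG1⟩ := exists_nat_gt ((T : ℝ) * ((h : ℝ) ^ (3 * r + 1) +
    C3 * ((WW w : ℝ) * T ^ 2) ^ r * (h : ℝ) ^ (2 * n * (n + 1) - 1)))
  obtain ⟨A3, hA3⟩ := B_Main_g μ (8 * CC n d * h + 8 * CC n d * (3 ^ n * (n + 1) * s' ^ (n - 1)))
    (B0 + g0 + g0' + G1) hμ1
  have hCC : 1 ≤ CC n d := by
    have h1 : CC n d = r * cc n 2 := by
      unfold CC
      rw [hd2, Finset.sum_const, Finset.card_univ, Fintype.card_fin, smul_eq_mul]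
    have h2 : 0 < cc n 2 := by
      unfold cc
      positivity
    rw [h1]
    exact Nat.mul_pos (by omega) h2
  refine ⟨μ ^ r, A1 + A2 + A3 + 4 * q ^ (2 * r) + T + K * WW w + 1, fun A hA => ?_⟩
  obtain ⟨g, hg1, hgG, hAp, hgA, hAg, hcg⟩ := hA3 A (by omega)
  have hreal' := hreal A (by omega)
  have hloc' := hA2 A (by omega)
  obtain ⟨B, hB⟩ : ∃ B : ℕ, B = g ^ n := ⟨_, rfl⟩
  obtain ⟨H, hH⟩ : ∃ H : ℕ, H = h * g := ⟨_, rfl⟩
  obtain ⟨H', hH'⟩ : ∃ H' : ℕ, H' = A / (8 * CC n d) := ⟨_, rfl⟩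
  have hB1 : 1 ≤ B := by rw [hB]; exact Nat.one_le_pow _ _ hg1
  have hH1 : 1 ≤ H := by rw [hH]; exact Nat.mul_pos hh1 hg1
  have hgB : g ≤ B := by rw [hB]; exact Nat.le_self_pow (by omega) g
  have hAr : (0 : ℝ) < A := by exact_mod_cast hAp
  have hBr : (0 : ℝ) < B := by exact_mod_cast hB1
  have hgr : (0 : ℝ) < g := by exact_mod_cast hg1
  have hTr : (0 : ℝ) < T := by exact_mod_cast hT1
  have hLr : (0 : ℝ) < L := by exact_mod_cast hL1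
  have hsplit : 8 * CC n d * h * g + 8 * CC n d * (3 ^ n * (n + 1) * s' ^ (n - 1)) * g ≤ A := by
    calc 8 * CC n d * h * g + 8 * CC n d * (3 ^ n * (n + 1) * s' ^ (n - 1)) * g =
        (8 * CC n d * h + 8 * CC n d * (3 ^ n * (n + 1) * s' ^ (n - 1))) * g := by ring
      _ ≤ A := hcg
  have hCH : 8 * CC n d * H ≤ A := by
    calc 8 * CC n d * H = 8 * CC n d * h * g := by rw [hH]; ring
      _ ≤ 8 * CC n d * h * g + 8 * CC n d * (3 ^ n * (n + 1) * s' ^ (n - 1)) * g := Nat.le_add_right _ _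
      _ ≤ A := hsplit
  have hCH' : 8 * CC n d * H' ≤ A := by
    rw [hH']
    exact Nat.mul_div_le A (8 * CC n d)
  have hgH' : 3 ^ n * (n + 1) * s' ^ (n - 1) * g ≤ H' := by
    rw [hH', Nat.le_div_iff_mul_le (by omega)]
    calc 3 ^ n * (n + 1) * s' ^ (n - 1) * g * (8 * CC n d) =
        8 * CC n d * (3 ^ n * (n + 1) * s' ^ (n - 1)) * g := by ring
      _ ≤ 8 * CC n d * h * g + 8 * CC n d * (3 ^ n * (n + 1) * s' ^ (n - 1)) * g := Nat.le_add_left _ _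
      _ ≤ A := hsplit
  have hKWAB : K * WW w ≤ A * B := by
    calc K * WW w ≤ A := by omega
      _ = A * 1 := (mul_one A).symm
      _ ≤ A * B := Nat.mul_le_mul_left A hB1
  have hlamA : 8 * cc n 2 * H ^ 2 ≤ lam * A := by
    calc 8 * cc n 2 * H ^ 2 = 8 * cc n 2 * h ^ 2 * g ^ 2 := by rw [hH]; ring
      _ ≤ 8 * cc n 2 * h ^ 2 * (μ * A) := Nat.mul_le_mul_left _ hgA
      _ = 8 * cc n 2 * h ^ 2 * μ * A := by ring
      _ ≤ lam * A := Nat.mul_le_mul_right A (by omega)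
  have hTTA : (n + 1) ^ 2 * H ^ 2 * T ≤ 2 * A * T' := by
    calc (n + 1) ^ 2 * H ^ 2 * T = (n + 1) ^ 2 * h ^ 2 * T * g ^ 2 := by rw [hH]; ring
      _ ≤ (n + 1) ^ 2 * h ^ 2 * T * (μ * A) := Nat.mul_le_mul_left _ hgA
      _ = A * T' := by rw [hT']; ring
      _ ≤ 2 * (A * T') := by omega
      _ = 2 * A * T' := by ring
  -- E
  obtain ⟨E, hE⟩ : ∃ E : ℝ, E = (B : ℝ) ^ (n + 1) / ((A : ℝ) ^ r * (B : ℝ) ^ (2 * r)) := ⟨_, rfl⟩
  have hEeq : E = (B : ℝ) / (A : ℝ) ^ r := by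
    rw [hE, EEq n r (2 * r) A B (by omega) hAp hB1, show n + 1 - 2 * r = 1 by omega, pow_one]
  have hEL : (L : ℝ) ≤ E := by
    rw [hEeq, le_div_iff₀ (by positivity)]
    have h1 : L * A ≤ g ^ 2 := by
      have h2 : 4 * (L * A) ≤ 4 * g ^ 2 := by
        calc 4 * (L * A) = μ * A := by rw [hμ]; ring
          _ ≤ _ := hAg
      omega
    have h2 : L * A ^ r ≤ B := by
      calc L * A ^ r ≤ L ^ r * A ^ r := Nat.mul_le_mul_right _ (Nat.le_self_pow (by omega) L)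
        _ = (L * A) ^ r := (mul_pow L A r).symm
        _ ≤ (g ^ 2) ^ r := Nat.pow_le_pow_left h1 r
        _ = B := by rw [hB, hn, ← pow_mul]
    exact_mod_cast h2
  have hEpos : 0 < E := lt_of_lt_of_le hLr hEL
  -- the bracket
  have hbr : (1 : ℝ) / T + 1 / (w + 1) + (H : ℝ) ^ (n + 1 + r) * (B : ℝ) ^ r / (B : ℝ) ^ n +
      C3 * ((WW w : ℝ) * T ^ 2) ^ r * (H : ℝ) ^ (2 * n * (n + 1) - 1) / (B : ℝ) ^ (2 * (n + 1)) ≤ 3 / T := by
    have b1 := B_Main_H1 r n g h B H hr hn hg1 hB hH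
    have b2 := B_Main_H2 n g h B H hn1 hg1 hB hH
    have b3 : C3 * ((WW w : ℝ) * T ^ 2) ^ r * (H : ℝ) ^ (2 * n * (n + 1) - 1) / (B : ℝ) ^ (2 * (n + 1)) =
        C3 * ((WW w : ℝ) * T ^ 2) ^ r * (h : ℝ) ^ (2 * n * (n + 1) - 1) / g := by
      rw [mul_div_assoc, b2, mul_div_assoc]
    rw [b3]
    have b4 : (1 : ℝ) / (w + 1) ≤ 1 / T := by
      apply one_div_le_one_div_of_le hTr
      have : T ≤ w + 1 := by omega
      exact_mod_cast this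
    have b5 : (h : ℝ) ^ (3 * r + 1) / g + C3 * ((WW w : ℝ) * T ^ 2) ^ r * (h : ℝ) ^ (2 * n * (n + 1) - 1) / g ≤
        1 / T := by
      rw [← add_div, div_le_div_iff₀ hgr hTr, one_mul, mul_comm]
      refine hG1.le.trans ?_
      have : G1 ≤ g := by omega
      exact_mod_cast this
    have b6 : (3 : ℝ) / T = 1 / T + 1 / T + 1 / T := by ring
    rw [b6]
    linarith
  -- the sets P_o
  have hPo : ∀ o : Fin (n + 1), ((B_Main_P d B H q w K A η o).card : ℝ) ≤ 2 * e * (A : ℝ) ^ VV n d := by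
    intro o
    have m1 := B_Main_markov (TBox n d A) (fun F => B_Main_R B H q w K A o F)
      (fun F _ => by unfold B_Main_R; positivity) η hη
    have m2 : ∑ F ∈ TBox n d A, B_Main_R B H q w K A o F = ((K : ℝ) * WW w) ^ r / (3 ^ r * (B : ℝ) ^ (n + 1)) *
        ∑ F ∈ TBox n d A, (((GG B B q o).filter fun x => ¬ HGood H x ∧
          ∀ i, Loc (WW w) K A o (F i) x).card : ℝ) := by
      rw [Finset.mul_sum]
      apply Finset.sum_congr rfl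
      intro F _
      unfold B_Main_R
      ring
    have m3 := markB hn1 d hd B H H' q A K (WW w) o hB1 hq1 hAp hK1 hWpos hKWAB hCH'
    have m4 := hg0 g (by omega) B H hB (by rw [hH, hh])
    have m5 := hg0' g (by omega) B H' hB hgH'
    have hsn : (0 : ℝ) < (s : ℝ) ^ n := by positivity
    have hsn' : (0 : ℝ) < (s' : ℝ) ^ n := by positivity
    refine B_Main_ar1 _ η (((K : ℝ) * WW w) ^ r) (3 ^ r) ((B : ℝ) ^ (n + 1)) (10 ^ VV n d) ((A : ℝ) ^ VV n d)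
      (6 ^ r * (q : ℝ) ^ (∑ i, d i)) Cb ((s : ℝ) ^ n) ((s' : ℝ) ^ n) _ _ e hη hKW (by positivity)
      (by positivity) (by positivity) (by positivity) (by positivity) hCb hsn hsn' ?_ m4 m5
      (B_Main_pow _ e (by positivity) s n hs1 hn1 hs) (B_Main_pow _ e (by positivity) s' n hs1' hn1 hs')
    unfold B_Main_P
    refine m1.trans ?_
    rw [m2]
    apply mul_le_mul_of_nonneg_left _ (by positivity)
    rw [← mul_pow]
    exact m3
  -- the sets T_o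
  have hTo : ∀ o : Fin (n + 1), ((B_Main_T d B H q w K A ρ τ η o).card : ℝ) ≤ 2 * e * (A : ℝ) ^ VV n d := by
    intro o
    have hQ := hvar3 o T w B H A (WW w) hT1 (by omega) hB1 hH1 hWpos
      (fun m h1 h2 => Pool.Agent.Lib.MP_219881_nt.WWdvd _ m h1 h2) hCH hlamA (by omega) hTTA
    rw [← hE, ← hK] at hQ
    have hch := chebB d B H q (WW w) K A hAp o
      (E * (c * τ / 2)) (by positivity) (B_Main_T d B H q w K A ρ τ η o) (by
        intro F hF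
        unfold B_Main_T at hF
        rw [Finset.mem_filter] at hF
        obtain ⟨hFB, hR, hN, ⟨S, hS, hRob⟩, hsm⟩ := hF
        refine ⟨hFB, hN, ?_⟩
        have h3 := hB0 B (by omega) H A hAp F hFB o S hS hRob
        rw [hD, ← hE] at h3
        refine le_trans ?_ h3
        apply mul_le_mul_of_nonneg_left _ hEpos.le
        have h4 : τ ≤ (sm (WW w) (ctT (ZMod (WW w)) F) : ℝ) *
            (WW w : ℝ) ^ r / (WW w : ℝ) ^ (n + 1) := by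
          rw [le_div_iff₀ (by positivity)]
          exact hsm
        have h5 := mul_le_mul_of_nonneg_left h4 hc.le
        unfold B_Main_R at hR
        rw [hη0] at hR
        linarith)
    exact B_Main_ar2 _ _ C1 C2 ((A : ℝ) ^ VV n d) E _ c τ (2 ^ VV n d) (L : ℝ) (T : ℝ) e hC1 hC2 (by positivity)
      hc hτ (by positivity) hLr hEL hTr hch hQ hbr hL hT
  -- covering
  have hsub : ((TBox n d A).filter fun F => RSol F ∧ PSol F ∧
        ¬ ∃ x : Vc n ℤ, x ≠ 0 ∧ (∀ i, |x i| ^ (n + 1 - ∑ i, d i) ≤ ((μ ^ r : ℕ) : ℤ) * (A : ℤ) ^ r) ∧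
          ∀ i, ev (F i) x = 0) ⊆
      ((TBox n d A).filter fun F => RSol F ∧
        ¬ ∃ (o : Fin (n + 1)) (S : Fin r → Fin (n + 1)), Function.Injective S ∧
          Rob o S ρ (fun i s => (F i s : ℝ) / A : Tup n d ℝ)) ∪
      (((TBox n d A).filter fun F => PSol F ∧
        (sm (WW w) (ctT (ZMod (WW w)) F) : ℝ) * (WW w : ℝ) ^ r
          < τ * (WW w : ℝ) ^ (n + 1)) ∪
      ((Finset.univ : Finset (Fin (n + 1))).biUnion (fun o => B_Main_P d B H q w K A η o) ∪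
      (Finset.univ : Finset (Fin (n + 1))).biUnion (fun o => B_Main_T d B H q w K A ρ τ η o))) := by
    intro F hF
    rw [Finset.mem_filter] at hF
    obtain ⟨hbox, hR, hPS, hno⟩ := hF
    rw [Finset.mem_union, Finset.mem_union, Finset.mem_union]
    by_cases h1 : ∃ (o : Fin (n + 1)) (S : Fin r → Fin (n + 1)), Function.Injective S ∧
          Rob o S ρ (fun i s => (F i s : ℝ) / A : Tup n d ℝ)
    · right
      by_cases h3 : (sm (WW w) (ctT (ZMod (WW w)) F) : ℝ) *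
          (WW w : ℝ) ^ r < τ * (WW w : ℝ) ^ (n + 1)
      · left
        rw [Finset.mem_filter]
        exact ⟨hbox, hPS, h3⟩
      · right
        obtain ⟨o, S, hS, hRob⟩ := h1
        by_cases h4 : B_Main_R B H q w K A o F ≤ η
        · right
          rw [Finset.mem_biUnion]
          refine ⟨o, Finset.mem_univ _, ?_⟩
          unfold B_Main_T
          rw [Finset.mem_filter]
          refine ⟨hbox, h4, ?_, ⟨S, hS, hRob⟩, not_lt.1 h3⟩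
          unfold Nn
          rw [Finset.card_eq_zero, Finset.filter_eq_empty_iff]
          intro x hx he
          apply hno
          refine ⟨x, ?_, ?_, he⟩
          · intro h0
            have := Pool.Agent.Lib.MP_219881_nt.GG_pos hB1 hx
            rw [h0] at this
            simp at this
          · intro i
            have h4 := Pool.Agent.Lib.MP_219881_nt.GG_le hx i
            rw [hD1, pow_one]
            refine h4.trans ?_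
            have h5 : B ≤ μ ^ r * A ^ r := by
              calc B = (g ^ 2) ^ r := by rw [hB, hn, ← pow_mul]
                _ ≤ (μ * A) ^ r := Nat.pow_le_pow_left hgA r
                _ = μ ^ r * A ^ r := mul_pow μ A r
            exact_mod_cast h5
        · left
          rw [Finset.mem_biUnion]
          refine ⟨o, Finset.mem_univ _, ?_⟩
          unfold B_Main_P
          rw [Finset.mem_filter]
          exact ⟨hbox, h4⟩
    · left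
      rw [Finset.mem_filter]
      exact ⟨hbox, hR, h1⟩
  have hcard := (Finset.card_le_card hsub).trans ((Finset.card_union_le _ _).trans
    (Nat.add_le_add_left ((Finset.card_union_le _ _).trans (Nat.add_le_add_left
      ((Finset.card_union_le _ _).trans (Nat.add_le_add Finset.card_biUnion_le Finset.card_biUnion_le)) _)) _))
  have hcard' : ((((TBox n d A).filter fun F => RSol F ∧ PSol F ∧
        ¬ ∃ x : Vc n ℤ, x ≠ 0 ∧ (∀ i, |x i| ^ (n + 1 - ∑ i, d i) ≤ ((μ ^ r : ℕ) : ℤ) * (A : ℤ) ^ r) ∧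
          ∀ i, ev (F i) x = 0).card : ℕ) : ℝ) ≤
      ((((TBox n d A).filter fun F => RSol F ∧
        ¬ ∃ (o : Fin (n + 1)) (S : Fin r → Fin (n + 1)), Function.Injective S ∧
          Rob o S ρ (fun i s => (F i s : ℝ) / A : Tup n d ℝ)).card : ℕ) : ℝ) +
      (((((TBox n d A).filter fun F => PSol F ∧
        (sm (WW w) (ctT (ZMod (WW w)) F) : ℝ) * (WW w : ℝ) ^ r
          < τ * (WW w : ℝ) ^ (n + 1)).card : ℕ) : ℝ) +
      (∑ o : Fin (n + 1), ((B_Main_P d B H q w K A η o).card : ℝ) +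
      ∑ o : Fin (n + 1), ((B_Main_T d B H q w K A ρ τ η o).card : ℝ))) := by
    exact_mod_cast hcard
  have hsum : ∀ f : Fin (n + 1) → ℝ, (∀ o, f o ≤ 2 * e * (A : ℝ) ^ VV n d) →
      ∑ o : Fin (n + 1), f o ≤ ε / 5 * (2 * (A : ℝ) + 1) ^ VV n d := by
    intro f hf
    have hAV : (A : ℝ) ^ VV n d ≤ (2 * (A : ℝ) + 1) ^ VV n d :=
      pow_le_pow_left₀ (by positivity) (by linarith) _
    calc ∑ o : Fin (n + 1), f o ≤ ∑ _o : Fin (n + 1), 2 * e * (A : ℝ) ^ VV n d :=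
          Finset.sum_le_sum fun o _ => hf o
      _ = ε / 5 * (A : ℝ) ^ VV n d := by
        rw [Finset.sum_const, Finset.card_univ, Fintype.card_fin, nsmul_eq_mul, he0]
        field_simp
        ring
      _ ≤ _ := mul_le_mul_of_nonneg_left hAV (by positivity)
  have hpos : 0 ≤ ε / 5 * (2 * (A : ℝ) + 1) ^ VV n d := by positivity
  refine (hcard'.trans (add_le_add hreal' (add_le_add hloc' (add_le_add (hsum _ hPo) (hsum _ hTo))))).trans ?_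
  linarith

theorem mainB (r : ℕ) (hr : 2 ≤ r) : MainP (2 * r) (fun _ : Fin r => 2) :=
  B_Main_core r hr (2 * r) rfl (fun _ => 2) rfl

end Pool.Agent.Lib.MP_1ad228_ntF
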