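import Pool.Agent.Lib.MP_1ad228_ntF.B_Four

/-!
JOB B_Mass.  Concentration of the frequencies.

PROOF.  `V = (n+1)^d`, `X s = ∏ k, x (s k)`, `Y s = ∏ k, y (s k)`, `θ_s(i,j) = (i X_s + j Y_s)/Q`. Call `(i, j)` minor if for some `s`
`|θ_s - round θ_s| > 1/2^(J+2)`. By `dyad` a minor `(i, j)` has some `s` and some `t ≤ J` with `cos (2 π 2^t θ_s) ≤ 0`, so
`1 ≤ ∑_s ∑_{t ≤ J} (1 - cos (2 π 2^t θ_s(i,j)))` (all terms are nonnegative). Hence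
`∑_{minor} ν ≤ ∑_s ∑_{t ≤ J} ∑_{i,j} ν i j (1 - cos (2 π (i (2^t X_s) + j (2^t Y_s))/Q)) = ∑_s ∑_{t ≤ J} (slB 0 0 - slB (2^t X_s) (2^t Y_s))` by the formula for `slB`
(hypothesis `hν`, with `|2^t X_s|, |2^t Y_s| ≤ Mx`: hypothesis `hM`), and each difference is at most `2^t/(2A) * (6^V * n2 d x y A)` (`slB_shift`, `2^t ≤ 2^J ≤ A`).
`∑_{t ≤ J} 2^t ≤ 2^(J+1)`.
-/

namespace Pool.Agent.Lib.MP_1ad228_ntF

open Classical

private theorem B_Mass_pt {ι : Type} [Fintype ι] (J : ℕ) (θ : ι → ℝ) (v : ℝ) (hv : 0 ≤ v) :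
    (if ∀ s, |θ s - round (θ s)| ≤ 1 / 2 ^ (J + 2) then 0 else v) ≤
      ∑ s : ι, ∑ t ∈ Finset.range (J + 1), v * (1 - Real.cos (2 * Real.pi * (2 ^ t * θ s))) := by
  have hnn : ∀ (s : ι) (t : ℕ), 0 ≤ v * (1 - Real.cos (2 * Real.pi * (2 ^ t * θ s))) := fun s t =>
    mul_nonneg hv (by linarith [Real.cos_le_one (2 * Real.pi * (2 ^ t * θ s))])
  have hnn1 : ∀ s : ι, 0 ≤ ∑ t ∈ Finset.range (J + 1), v * (1 - Real.cos (2 * Real.pi * (2 ^ t * θ s))) :=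
    fun s => Finset.sum_nonneg fun t _ => hnn s t
  split_ifs with h
  · exact Finset.sum_nonneg fun s _ => hnn1 s
  · rw [not_forall] at h
    obtain ⟨s, hs⟩ := h
    have h1 : ∃ t, t ≤ J ∧ Real.cos (2 * Real.pi * (2 ^ t * θ s)) ≤ 0 := by
      by_contra hc
      apply hs
      refine dyad (θ s) J fun j hj => ?_
      by_contra h2
      exact hc ⟨j, hj, not_lt.mp h2⟩
    obtain ⟨t, ht, hc⟩ := h1
    have h2 : v ≤ v * (1 - Real.cos (2 * Real.pi * (2 ^ t * θ s))) := by nlinarith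
    have h3 : v * (1 - Real.cos (2 * Real.pi * (2 ^ t * θ s))) ≤
        ∑ t ∈ Finset.range (J + 1), v * (1 - Real.cos (2 * Real.pi * (2 ^ t * θ s))) :=
      Finset.single_le_sum (f := fun t => v * (1 - Real.cos (2 * Real.pi * (2 ^ t * θ s))))
        (fun t _ => hnn s t) (Finset.mem_range.mpr (by omega))
    have h4 : (∑ t ∈ Finset.range (J + 1), v * (1 - Real.cos (2 * Real.pi * (2 ^ t * θ s)))) ≤
        ∑ s : ι, ∑ t ∈ Finset.range (J + 1), v * (1 - Real.cos (2 * Real.pi * (2 ^ t * θ s))) :=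
      Finset.single_le_sum (f := fun s => ∑ t ∈ Finset.range (J + 1), v * (1 - Real.cos (2 * Real.pi * (2 ^ t * θ s))))
        (fun s _ => hnn1 s) (Finset.mem_univ s)
    linarith

private theorem B_Mass_geo (J : ℕ) (A K : ℝ) (hA : 0 < A) (hK : 0 ≤ K) :
    ∑ t ∈ Finset.range (J + 1), (2 : ℝ) ^ t / (2 * A) * K ≤ 2 ^ J / A * K := by
  have h1 : ∀ J : ℕ, ∑ t ∈ Finset.range (J + 1), (2 : ℝ) ^ t = 2 * 2 ^ J - 1 := by
    intro J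
    induction J with
    | zero => norm_num
    | succ J ih =>
      rw [Finset.sum_range_succ, ih]
      ring
  rw [← Finset.sum_mul, ← Finset.sum_div, h1 J]
  refine mul_le_mul_of_nonneg_right ?_ hK
  rw [div_le_div_iff₀ (by linarith) hA]
  nlinarith

theorem massB {n : ℕ} (d A : ℕ) (hA : 1 ≤ A) (x y : Vc n ℤ) (Mx Q J : ℕ) (ν : Fin Q → Fin Q → ℝ)
    (hQ : 1 ≤ Q) (hν0 : ∀ i j, 0 ≤ ν i j)
    (hν : ∀ m m' : ℤ, |m| ≤ (Mx : ℤ) → |m'| ≤ (Mx : ℤ) →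
        slB d A x y m m' = ∑ i : Fin Q, ∑ j : Fin Q, ν i j *
          Real.cos (2 * Real.pi * ((((i : ℕ) : ℝ) * m + ((j : ℕ) : ℝ) * m') / Q)))
    (hJ : 2 ^ J ≤ A)
    (hM : ∀ s : Fin d → Fin (n + 1), 2 ^ J * |∏ k, x (s k)| ≤ (Mx : ℤ) ∧
      2 ^ J * |∏ k, y (s k)| ≤ (Mx : ℤ)) :
    ∑ i : Fin Q, ∑ j : Fin Q, (if ∀ s : Fin d → Fin (n + 1),
        |(((i : ℕ) : ℝ) * ((∏ k, x (s k) : ℤ) : ℝ) + ((j : ℕ) : ℝ) * ((∏ k, y (s k) : ℤ) : ℝ)) / Q -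
          round ((((i : ℕ) : ℝ) * ((∏ k, x (s k) : ℤ) : ℝ) +
            ((j : ℕ) : ℝ) * ((∏ k, y (s k) : ℤ) : ℝ)) / Q)| ≤ 1 / 2 ^ (J + 2)
      then 0 else ν i j) ≤
      (n + 1) ^ d * ((2 : ℝ) ^ J / A) * (6 ^ (n + 1) ^ d * (n2 d x y A : ℝ)) := by
  have hApos : (0 : ℝ) < A := by exact_mod_cast hA
  have hK : (0 : ℝ) ≤ 6 ^ (n + 1) ^ d * (n2 d x y A : ℝ) := by positivity
  -- step 1
  have s1 : ∑ i : Fin Q, ∑ j : Fin Q, (if ∀ s : Fin d → Fin (n + 1),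
        |(((i : ℕ) : ℝ) * ((∏ k, x (s k) : ℤ) : ℝ) + ((j : ℕ) : ℝ) * ((∏ k, y (s k) : ℤ) : ℝ)) / Q -
          round ((((i : ℕ) : ℝ) * ((∏ k, x (s k) : ℤ) : ℝ) +
            ((j : ℕ) : ℝ) * ((∏ k, y (s k) : ℤ) : ℝ)) / Q)| ≤ 1 / 2 ^ (J + 2)
      then 0 else ν i j) ≤
      ∑ i : Fin Q, ∑ j : Fin Q, ∑ s : Fin d → Fin (n + 1), ∑ t ∈ Finset.range (J + 1),
        ν i j * (1 - Real.cos (2 * Real.pi * (2 ^ t *
          ((((i : ℕ) : ℝ) * ((∏ k, x (s k) : ℤ) : ℝ) + ((j : ℕ) : ℝ) * ((∏ k, y (s k) : ℤ) : ℝ)) / Q)))) :=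
    Finset.sum_le_sum fun i _ => Finset.sum_le_sum fun j _ =>
      B_Mass_pt J (fun s : Fin d → Fin (n + 1) =>
        (((i : ℕ) : ℝ) * ((∏ k, x (s k) : ℤ) : ℝ) + ((j : ℕ) : ℝ) * ((∏ k, y (s k) : ℤ) : ℝ)) / Q) (ν i j) (hν0 i j)
  refine s1.trans ?_
  -- step 2 : exchange the sums
  have s2 : (∑ i : Fin Q, ∑ j : Fin Q, ∑ s : Fin d → Fin (n + 1), ∑ t ∈ Finset.range (J + 1),
        ν i j * (1 - Real.cos (2 * Real.pi * (2 ^ t *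
          ((((i : ℕ) : ℝ) * ((∏ k, x (s k) : ℤ) : ℝ) + ((j : ℕ) : ℝ) * ((∏ k, y (s k) : ℤ) : ℝ)) / Q))))) =
      ∑ s : Fin d → Fin (n + 1), ∑ t ∈ Finset.range (J + 1), ∑ i : Fin Q, ∑ j : Fin Q,
        ν i j * (1 - Real.cos (2 * Real.pi * (2 ^ t *
          ((((i : ℕ) : ℝ) * ((∏ k, x (s k) : ℤ) : ℝ) + ((j : ℕ) : ℝ) * ((∏ k, y (s k) : ℤ) : ℝ)) / Q)))) := by
    rw [Finset.sum_congr rfl fun i _ => Finset.sum_comm, Finset.sum_comm]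
    refine Finset.sum_congr rfl fun s _ => ?_
    rw [Finset.sum_congr rfl fun i _ => Finset.sum_comm, Finset.sum_comm]
  rw [s2]
  -- step 3 : every pair `(s, t)`
  have s3 : ∀ s : Fin d → Fin (n + 1), ∀ t ∈ Finset.range (J + 1), ∑ i : Fin Q, ∑ j : Fin Q,
        ν i j * (1 - Real.cos (2 * Real.pi * (2 ^ t *
          ((((i : ℕ) : ℝ) * ((∏ k, x (s k) : ℤ) : ℝ) + ((j : ℕ) : ℝ) * ((∏ k, y (s k) : ℤ) : ℝ)) / Q)))) ≤
      (2 : ℝ) ^ t / (2 * A) * (6 ^ (n + 1) ^ d * (n2 d x y A : ℝ)) := by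
    intro s t ht
    have ht1 : t ≤ J := by
      have := Finset.mem_range.mp ht
      omega
    have hp : (2 : ℤ) ^ t ≤ 2 ^ J := pow_le_pow_right₀ (by norm_num) ht1
    have hpn : (2 : ℕ) ^ t ≤ A := (Nat.pow_le_pow_right (by norm_num) ht1).trans hJ
    have hb : ∀ z : ℤ, 2 ^ J * |z| ≤ (Mx : ℤ) → |((2 ^ t : ℕ) : ℤ) * z| ≤ (Mx : ℤ) := by
      intro z hz
      rw [abs_mul, Nat.abs_cast]
      push_cast
      exact (mul_le_mul_of_nonneg_right hp (abs_nonneg z)).trans hz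
    have e0 := hν 0 0 (by simp) (by simp)
    have e1 := hν (((2 ^ t : ℕ) : ℤ) * ∏ k, x (s k)) (((2 ^ t : ℕ) : ℤ) * ∏ k, y (s k)) (hb _ (hM s).1) (hb _ (hM s).2)
    have e2 := slB_shift d A hA x y s (2 ^ t) hpn
    have e3 : (∑ i : Fin Q, ∑ j : Fin Q,
        ν i j * (1 - Real.cos (2 * Real.pi * (2 ^ t *
          ((((i : ℕ) : ℝ) * ((∏ k, x (s k) : ℤ) : ℝ) + ((j : ℕ) : ℝ) * ((∏ k, y (s k) : ℤ) : ℝ)) / Q))))) =
        slB d A x y 0 0 - slB d A x y (((2 ^ t : ℕ) : ℤ) * ∏ k, x (s k)) (((2 ^ t : ℕ) : ℤ) * ∏ k, y (s k)) := by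
      rw [e0, e1, ← Finset.sum_sub_distrib]
      refine Finset.sum_congr rfl fun i _ => ?_
      rw [← Finset.sum_sub_distrib]
      refine Finset.sum_congr rfl fun j _ => ?_
      have c0 : Real.cos (2 * Real.pi * ((((i : ℕ) : ℝ) * ((0 : ℤ) : ℝ) + ((j : ℕ) : ℝ) * ((0 : ℤ) : ℝ)) / Q)) = 1 := by
        simp
      have c1 : 2 * Real.pi * ((((i : ℕ) : ℝ) * ((((2 ^ t : ℕ) : ℤ) * ∏ k, x (s k) : ℤ) : ℝ) +
          ((j : ℕ) : ℝ) * ((((2 ^ t : ℕ) : ℤ) * ∏ k, y (s k) : ℤ) : ℝ)) / Q) = 2 * Real.pi * (2 ^ t *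
          ((((i : ℕ) : ℝ) * ((∏ k, x (s k) : ℤ) : ℝ) + ((j : ℕ) : ℝ) * ((∏ k, y (s k) : ℤ) : ℝ)) / Q)) := by
        push_cast
        ring
      rw [c0, c1]
      ring
    rw [e3]
    have e4 := (abs_le.mp e2).1
    push_cast at e4 ⊢
    linarith
  have s4 : (∑ s : Fin d → Fin (n + 1), ∑ t ∈ Finset.range (J + 1), ∑ i : Fin Q, ∑ j : Fin Q,
        ν i j * (1 - Real.cos (2 * Real.pi * (2 ^ t *
          ((((i : ℕ) : ℝ) * ((∏ k, x (s k) : ℤ) : ℝ) + ((j : ℕ) : ℝ) * ((∏ k, y (s k) : ℤ) : ℝ)) / Q))))) ≤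
      ∑ _s : Fin d → Fin (n + 1), (2 : ℝ) ^ J / A * (6 ^ (n + 1) ^ d * (n2 d x y A : ℝ)) :=
    Finset.sum_le_sum fun s _ => (Finset.sum_le_sum (s3 s)).trans
      (B_Mass_geo J A (6 ^ (n + 1) ^ d * (n2 d x y A : ℝ)) hApos hK)
  refine s4.trans (le_of_eq ?_)
  rw [Finset.sum_const, Finset.card_univ, nsmul_eq_mul]
  simp only [Fintype.card_fun, Fintype.card_fin]
  push_cast
  ring

end Pool.Agent.Lib.MP_1ad228_ntF
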