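import Pool.Agent.Lib.MP_1ad228_ntF.B_ExcDef

/-!
JOB B_PP.  The cross product and Cramer's rule.

`bDet_lin`.  `bDet z g = lin (bCr g) z`: the determinant is linear in row 0: `z = ∑ k, z k • Pi.single k 1` (e.g. `Matrix.det_succ_row_zero` on both sides, or the linear map
`z ↦ bDet z g` (`Matrix.detRowAlternating`, `Matrix.det_updateRow_add/smul` with `Matrix.of (Fin.cons z g) = (Matrix.of (Fin.cons 0 g)).updateRow 0 z`) evaluated on the basis `Pi.single k 1`, `pi_eq_sum_univ'`).
Laplace expansion along row 0 is the quickest: `det (cons z g) = ∑ k, (-1)^k * z k * det (submatrix)` with a minor independent of `z`.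
`bCr_perp`.  `lin (bCr g) (g j) = bDet (g j) g = 0`: two equal rows (row 0 and row `j.succ`), `Matrix.det_zero_of_row_eq`.
`bCramer`.  Let `M = Matrix.of (Fin.cons (bCr g) g)`, `A = Mᵀ`. `Matrix.mulVec_cramer A z : A.mulVec (A.cramer z) = A.det • z`, `A.cramer z r = (A.updateCol r z).det`
(`Matrix.cramer_apply`) `= (M.updateRow r z).det` (`Matrix.updateCol_transpose`/`updateRow_transpose`, `Matrix.det_transpose`). `r = 0`: `M.updateRow 0 z = of (Fin.cons z g)`, value `bDet z g = lin (bCr g) z`;
`r = j.succ`: `of (Fin.cons (bCr g) (Function.update g j z))`, value `bDt g j z`. `A.det = M.det = lin (bCr g) (bCr g)`. `(A.mulVec c) i = ∑ r, M r i * c r`, split with `Fin.sum_univ_succ`.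
`bDt_add`, `bDt_smul` linearity in the row `j.succ` (or deduce what is needed from `Matrix.det_updateRow_add`, `Matrix.det_updateRow_smul`).
`bDt_self`: `bDt g j (g k) = if k = j then lin (bCr g) (bCr g) else 0` (`Function.update_eq_self`; two equal rows if `k ≠ j`).
`bU_eq`, `bU_perp`: direct (`Finset.sum_ite_eq`, `lin_sub_right`, `lin_smul_right`).
-/

namespace Pool.Agent.Lib.MP_1ad228_ntF

open Classical

private theorem B_PP_lap {n : ℕ} {R : Type*} [CommRing R] (z : Vc n R) (g : Fin n → Vc n R) :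
    bDet z g = ∑ j : Fin (n + 1), (-1) ^ (j : ℕ) * z j *
      Matrix.det (Matrix.of fun (i l : Fin n) => g i (j.succAbove l)) := by
  unfold bDet
  rw [Matrix.det_succ_row_zero]
  rfl

private theorem B_PP_upd {n : ℕ} {R : Type*} [CommRing R] (g : Fin n → Vc n R) (j : Fin n)
    (z : Vc n R) : bDt g j z =
      ((Matrix.of (Fin.cons (bCr g) g : Fin (n + 1) → Vc n R)).updateRow j.succ z).det := by
  unfold bDt bDet
  congr 1
  have h := Fin.cons_update (α := fun _ : Fin (n + 1) => Vc n R) (bCr g) g j z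
  show (Fin.cons (bCr g) (Function.update g j z) : Fin (n + 1) → Vc n R) = _
  rw [h]
  rfl

theorem bDet_lin {n : ℕ} {R : Type*} [CommRing R] (z : Vc n R) (g : Fin n → Vc n R) :
    bDet z g = lin (bCr g) z := by
  have h1 : ∀ k, bCr g k = (-1) ^ (k : ℕ) *
      Matrix.det (Matrix.of fun (i l : Fin n) => g i (k.succAbove l)) := by
    intro k
    unfold bCr
    rw [B_PP_lap, Finset.sum_eq_single k]
    · rw [Pi.single_eq_same, mul_one]
    · intro j _ hj
      rw [Pi.single_eq_of_ne hj, mul_zero, zero_mul]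
    · intro h
      exact absurd (Finset.mem_univ k) h
  rw [B_PP_lap]
  show _ = ∑ i, bCr g i * z i
  refine Finset.sum_congr rfl fun k _ => ?_
  rw [h1]
  ring

theorem bCr_perp {n : ℕ} {R : Type*} [CommRing R] (g : Fin n → Vc n R) (j : Fin n) :
    lin (bCr g) (g j) = 0 := by
  rw [← bDet_lin]
  unfold bDet
  exact Matrix.det_zero_of_row_eq (i := 0) (j := j.succ) (Fin.succ_ne_zero j).symm rfl

theorem bCramer {n : ℕ} {R : Type*} [CommRing R] (g : Fin n → Vc n R) (z : Vc n R)
    (i : Fin (n + 1)) :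
    lin (bCr g) (bCr g) * z i = ∑ j, bDt g j z * g j i + lin (bCr g) z * bCr g i := by
  have h1 := congrFun (Matrix.mulVec_cramer
    (Matrix.of (Fin.cons (bCr g) g : Fin (n + 1) → Vc n R)).transpose z) i
  rw [Matrix.det_transpose, Pi.smul_apply, smul_eq_mul, Matrix.mulVec, dotProduct,
    Fin.sum_univ_succ] at h1
  simp only [Matrix.cramer_transpose_apply] at h1
  have h2 : (Matrix.of (Fin.cons (bCr g) g : Fin (n + 1) → Vc n R)).det =
      lin (bCr g) (bCr g) := bDet_lin (bCr g) g
  have h3 : ((Matrix.of (Fin.cons (bCr g) g : Fin (n + 1) → Vc n R)).updateRow 0 z).det =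
      lin (bCr g) z := by
    rw [← bDet_lin]
    unfold bDet
    congr 1
    have h := Fin.update_cons_zero (α := fun _ : Fin (n + 1) => Vc n R) (bCr g) g z
    show _ = (Fin.cons z g : Fin (n + 1) → Vc n R)
    rw [← h]
    rfl
  rw [h2, h3] at h1
  rw [← h1, add_comm]
  congr 1
  · refine Finset.sum_congr rfl fun j _ => ?_
    rw [B_PP_upd, mul_comm]
    rfl
  · rw [mul_comm]
    rfl

theorem bDt_smul {n : ℕ} {R : Type*} [CommRing R] (g : Fin n → Vc n R) (j : Fin n) (c : R)
    (z : Vc n R) : bDt g j (c • z) = c * bDt g j z := by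
  rw [B_PP_upd, B_PP_upd, Matrix.det_updateRow_smul]

theorem bDt_self {n : ℕ} {R : Type*} [CommRing R] (g : Fin n → Vc n R) (j k : Fin n) :
    bDt g j (g k) = if k = j then lin (bCr g) (bCr g) else 0 := by
  by_cases h : k = j
  · subst h
    rw [if_pos rfl, ← bDet_lin]
    unfold bDt
    rw [Function.update_eq_self]
  · rw [if_neg h]
    unfold bDt bDet
    refine Matrix.det_zero_of_row_eq (i := j.succ) (j := k.succ)
      (fun hh => h (Fin.succ_injective _ hh).symm) ?_
    show Function.update g j (g k) j = Function.update g j (g k) k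
    rw [Function.update_self, Function.update_of_ne h]

theorem bU_eq {n : ℕ} {R : Type*} [CommRing R] (y : Vc n R) (f : Fin n → Vc n R) (i m : Fin n)
    (a : Fin (n + 1)) : bU y f i m a = ∑ k, bA y f i m k * f k a := by
  unfold bU bA
  simp only [Pi.sub_apply, Pi.smul_apply, smul_eq_mul, sub_mul, Finset.sum_sub_distrib, ite_mul,
    zero_mul, Finset.sum_ite_eq', Finset.mem_univ, if_true]

theorem bU_perp {n : ℕ} {R : Type*} [CommRing R] (y : Vc n R) (f : Fin n → Vc n R)
    (i m : Fin n) : lin y (bU y f i m) = 0 := by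
  unfold bU
  rw [lin_sub_right, lin_smul_right, lin_smul_right]
  ring

end Pool.Agent.Lib.MP_1ad228_ntF
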