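import Pool.Agent.Lib.MP_1ad228_ntF.B_PP

/-!
JOB B_PPv.  The polynomial vanishes at exceptional pairs; naturality.

`bP_zero`.  Let `y = bCr g`, `N = lin y y`, `u = bU y f i m`, `v = bU y f l m`, `<z, w> = ∑ a, ∑ b, z a * E a b * w b` (bilinear, symmetric because `E` is).
`lin y u = lin y v = 0` (`bU_perp`), so `bCramer` gives `N * v b = ∑ j, bDt g j v * g j b`, `N * u b = ∑ j, bDt g j u * g j b`. Hence
`N * <u, v> = ∑ j, bDt g j v * <u, g j> = ∑ j, ∑ k, bDt g j v * bA y f i m k * <f k, g j>` (`bU_eq`) and in the same way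
`N * <v, u> = ∑ j, ∑ k, bDt g j u * bA y f l m k * <f k, g j>`. Since `<u, v> = <v, u>` the difference, which is `bP e i l m f g` with `e k j = <f k, g j>`, vanishes.
`bP_map`.  All the definitions are polynomial: `RingHom.map_det`, `map_sum`, `apply_ite`, `Pi.single` (`Pi.single k 1` maps to `Pi.single k 1`), `Function.update`, `Fin.cons` (`Matrix.ext`,
`Fin.cases`): `bDet (fun i => φ (z i)) (fun j i => φ (g j i)) = φ (bDet z g)`, then `bCr`, `bDt`, `bA`, `bU`, `bP`.
-/

namespace Pool.Agent.Lib.MP_1ad228_ntF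

open Classical

private theorem B_PPv_right {n : ℕ} {R : Type*} [CommRing R] (E : Fin (n + 1) → Fin (n + 1) → R)
    (z w : Vc n R) (N : R) (c : Fin n → R) (g : Fin n → Vc n R)
    (h : ∀ b, N * w b = ∑ j, c j * g j b) :
    N * ∑ a, ∑ b, z a * E a b * w b = ∑ j, c j * ∑ a, ∑ b, z a * E a b * g j b := by
  have h1 : ∀ a b, N * (z a * E a b * w b) = ∑ j, c j * (z a * E a b * g j b) := by
    intro a b
    calc N * (z a * E a b * w b) = z a * E a b * (N * w b) := by ring
      _ = ∑ j, c j * (z a * E a b * g j b) := by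
        rw [h, Finset.mul_sum]
        exact Finset.sum_congr rfl fun j _ => by ring
  simp only [Finset.mul_sum, h1]
  calc ∑ a, ∑ b, ∑ j, c j * (z a * E a b * g j b)
      = ∑ a, ∑ j, ∑ b, c j * (z a * E a b * g j b) :=
        Finset.sum_congr rfl fun a _ => Finset.sum_comm
    _ = ∑ j, ∑ a, ∑ b, c j * (z a * E a b * g j b) := Finset.sum_comm

private theorem B_PPv_left {n : ℕ} {R : Type*} [CommRing R] (E : Fin (n + 1) → Fin (n + 1) → R)
    (z w : Vc n R) (c : Fin n → R) (f : Fin n → Vc n R)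
    (h : ∀ a, z a = ∑ k, c k * f k a) :
    ∑ a, ∑ b, z a * E a b * w b = ∑ k, c k * ∑ a, ∑ b, f k a * E a b * w b := by
  have h1 : ∀ a b, z a * E a b * w b = ∑ k, c k * (f k a * E a b * w b) := by
    intro a b
    rw [h, Finset.sum_mul, Finset.sum_mul]
    exact Finset.sum_congr rfl fun k _ => by ring
  simp only [Finset.mul_sum, h1]
  calc ∑ a, ∑ b, ∑ k, c k * (f k a * E a b * w b)
      = ∑ a, ∑ k, ∑ b, c k * (f k a * E a b * w b) :=
        Finset.sum_congr rfl fun a _ => Finset.sum_comm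
    _ = ∑ k, ∑ a, ∑ b, c k * (f k a * E a b * w b) := Finset.sum_comm

private theorem B_PPv_uv {n : ℕ} {R : Type*} [CommRing R] (E : Fin (n + 1) → Fin (n + 1) → R)
    (f g : Fin n → Vc n R) (e : Fin n → Fin n → R)
    (he : ∀ k j, e k j = ∑ a, ∑ b, f k a * E a b * g j b) (i l m : Fin n) :
    lin (bCr g) (bCr g) *
      ∑ a, ∑ b, bU (bCr g) f i m a * E a b * bU (bCr g) f l m b =
    ∑ k, ∑ j, e k j * (bA (bCr g) f i m k * bDt g j (bU (bCr g) f l m)) := by
  have h1 : ∀ b, lin (bCr g) (bCr g) * bU (bCr g) f l m b =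
      ∑ j, bDt g j (bU (bCr g) f l m) * g j b := by
    intro b
    rw [bCramer g (bU (bCr g) f l m) b, bU_perp, zero_mul, add_zero]
  rw [B_PPv_right E _ _ _ _ g h1]
  have h2 : ∀ j, ∑ a, ∑ b, bU (bCr g) f i m a * E a b * g j b =
      ∑ k, bA (bCr g) f i m k * e k j := by
    intro j
    rw [B_PPv_left E _ (g j) _ f (bU_eq (bCr g) f i m)]
    exact Finset.sum_congr rfl fun k _ => by rw [he]
  simp only [h2, Finset.mul_sum]
  rw [Finset.sum_comm]
  exact Finset.sum_congr rfl fun k _ => Finset.sum_congr rfl fun j _ => by ring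

theorem bP_zero {n : ℕ} {R : Type*} [CommRing R] (E : Fin (n + 1) → Fin (n + 1) → R)
    (hE : ∀ i j, E i j = E j i) (f g : Fin n → Vc n R) (e : Fin n → Fin n → R)
    (he : ∀ k j, e k j = ∑ a, ∑ b, f k a * E a b * g j b) (i l m : Fin n) :
    bP e i l m f g = 0 := by
  have h1 := B_PPv_uv E f g e he i l m
  have h2 := B_PPv_uv E f g e he l i m
  have h3 : ∑ a, ∑ b, bU (bCr g) f i m a * E a b * bU (bCr g) f l m b =
      ∑ a, ∑ b, bU (bCr g) f l m a * E a b * bU (bCr g) f i m b := by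
    rw [Finset.sum_comm]
    refine Finset.sum_congr rfl fun a _ => Finset.sum_congr rfl fun b _ => ?_
    rw [hE b a]
    ring
  have h4 : bP e i l m f g =
      ∑ k, ∑ j, e k j * (bA (bCr g) f i m k * bDt g j (bU (bCr g) f l m)) -
      ∑ k, ∑ j, e k j * (bA (bCr g) f l m k * bDt g j (bU (bCr g) f i m)) := by
    unfold bP
    rw [← Finset.sum_sub_distrib]
    refine Finset.sum_congr rfl fun k _ => ?_
    rw [← Finset.sum_sub_distrib]
    exact Finset.sum_congr rfl fun j _ => by ring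
  rw [h4, ← h1, ← h2, h3, sub_self]

private theorem B_PPv_det {n : ℕ} {R S : Type*} [CommRing R] [CommRing S] (φ : R →+* S)
    (z : Vc n R) (g : Fin n → Vc n R) :
    bDet (fun a => φ (z a)) (fun j a => φ (g j a)) = φ (bDet z g) := by
  unfold bDet
  rw [RingHom.map_det]
  congr 1
  ext r c
  refine Fin.cases ?_ (fun r => ?_) r
  · rfl
  · rfl

private theorem B_PPv_cr {n : ℕ} {R S : Type*} [CommRing R] [CommRing S] (φ : R →+* S)
    (g : Fin n → Vc n R) :
    bCr (fun j a => φ (g j a)) = fun k => φ (bCr g k) := by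
  funext k
  unfold bCr
  rw [← B_PPv_det]
  congr 1
  funext a
  by_cases h : a = k
  · subst h
    rw [Pi.single_eq_same, Pi.single_eq_same, map_one]
  · rw [Pi.single_eq_of_ne h, Pi.single_eq_of_ne h, map_zero]

private theorem B_PPv_dt {n : ℕ} {R S : Type*} [CommRing R] [CommRing S] (φ : R →+* S)
    (g : Fin n → Vc n R) (j : Fin n) (z : Vc n R) :
    bDt (fun j a => φ (g j a)) j (fun a => φ (z a)) = φ (bDt g j z) := by
  unfold bDt
  rw [← B_PPv_det, B_PPv_cr]
  congr 1
  funext k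
  by_cases h : k = j
  · subst h
    rw [Function.update_self, Function.update_self]
  · rw [Function.update_of_ne h, Function.update_of_ne h]

private theorem B_PPv_lin {n : ℕ} {R S : Type*} [CommRing R] [CommRing S] (φ : R →+* S)
    (u x : Vc n R) : lin (fun a => φ (u a)) (fun a => φ (x a)) = φ (lin u x) := by
  simp only [Pool.Agent.Lib.MP_219881_nt.lin, map_sum, map_mul]

private theorem B_PPv_A {n : ℕ} {R S : Type*} [CommRing R] [CommRing S] (φ : R →+* S)
    (y : Vc n R) (f : Fin n → Vc n R) (i m k : Fin n) :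
    bA (fun a => φ (y a)) (fun j a => φ (f j a)) i m k = φ (bA y f i m k) := by
  unfold bA
  rw [map_sub, apply_ite φ, apply_ite φ, map_zero, B_PPv_lin, B_PPv_lin]

private theorem B_PPv_U {n : ℕ} {R S : Type*} [CommRing R] [CommRing S] (φ : R →+* S)
    (y : Vc n R) (f : Fin n → Vc n R) (i m : Fin n) :
    bU (fun a => φ (y a)) (fun j a => φ (f j a)) i m = fun a => φ (bU y f i m a) := by
  funext a
  unfold bU
  simp only [Pi.sub_apply, Pi.smul_apply, smul_eq_mul, map_sub, map_mul, B_PPv_lin]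

theorem bP_map {n : ℕ} {R S : Type*} [CommRing R] [CommRing S] (φ : R →+* S)
    (e : Fin n → Fin n → R) (i l m : Fin n) (f g : Fin n → Vc n R) :
    bP (fun k j => φ (e k j)) i l m (fun k a => φ (f k a)) (fun j a => φ (g j a)) =
      φ (bP e i l m f g) := by
  unfold bP
  rw [B_PPv_cr, map_sum]
  refine Finset.sum_congr rfl fun k _ => ?_
  rw [map_sum]
  refine Finset.sum_congr rfl fun j _ => ?_
  rw [map_mul, map_sub, map_mul, map_mul, B_PPv_A, B_PPv_A, B_PPv_U, B_PPv_U, B_PPv_dt, B_PPv_dt]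

end Pool.Agent.Lib.MP_1ad228_ntF
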