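import Pool.Agent.Lib.MP_1ad228_ntF.PairSum
import Pool.Agent.Lib.MP_1ad228_ntF.B_N2
import Pool.Agent.Lib.MP_1ad228_ntF.NP
import Pool.Agent.Lib.MP_1ad228_ntF.EEle

/-!
JOB B_Tot.  The second moment without local terms in the borderline case. (Model: PairTot.lean, with `N2B` for `NP2`; the constant may depend on `lam`.)

PROOF.  As in PairTot.lean with `d = fun _ => 2`, `VV n d = r (n+1)^2`, `∑ i, d i = 2 r` (simp: `Finset.sum_const`, `Finset.card_univ`, `Fintype.card_fin`), `∏ i, n2 2 x y A = (n2 2 x y A)^r`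
(`Finset.prod_const`). Diagonal: `n2_self`, `NP1` (`hA1`: `8 CC n d H ≤ A`). Off diagonal: the `r`-th power of `N2B`, and `psAll`.
-/

namespace Pool.Agent.Lib.MP_1ad228_ntF

open Classical

private theorem B_Tot_sum (r : ℕ) : ∑ _i : Fin r, 2 = 2 * r := by
  rw [Finset.sum_const, Finset.card_univ, Fintype.card_fin, smul_eq_mul, mul_comm]

private theorem B_Tot_VV (n r : ℕ) : VV n (fun _ : Fin r => 2) = (n + 1) ^ 2 * r := by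
  unfold VV
  rw [Finset.sum_const, Finset.card_univ, Fintype.card_fin, smul_eq_mul, mul_comm]

private theorem B_Tot_pow {r V : ℕ} (x lam a q b c e : ℝ) (hx0 : 0 ≤ x)
    (hx : x ≤ lam ^ V * ((5 * a) ^ V * (64 * (q ^ 2 / b ^ 2) ^ 2 * c * e))) :
    x ^ r ≤ (5 * a) ^ (V * r) * (64 ^ r * (q ^ (2 * r) / b ^ (2 * r)) ^ 2 * c ^ r) *
      (lam ^ (V * r) * e ^ r) := by
  refine (pow_le_pow_left₀ hx0 hx r).trans (le_of_eq ?_)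
  have hs : q ^ (2 * r) / b ^ (2 * r) = (q ^ 2 / b ^ 2) ^ r := by
    rw [pow_mul, pow_mul, div_pow]
  rw [hs, pow_mul (5 * a), pow_mul lam]
  generalize q ^ 2 / b ^ 2 = s
  generalize (5 * a) ^ V = u
  generalize lam ^ V = w
  rw [mul_pow, mul_pow, mul_pow, mul_pow, mul_pow, ← pow_mul s 2 r, ← pow_mul s r 2, mul_comm 2 r]
  ring

private theorem B_Tot_row {n r : ℕ} (hr : 1 ≤ r) (hn : r + 2 ≤ n) (lam : ℕ) (hl : 1 ≤ lam)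
    (o : Fin (n + 1)) (B H q A : ℕ) (hB : 1 ≤ B)
    (hq : 1 ≤ q) (hA6 : 8 * CC n (fun _ : Fin r => 2) * H ≤ A)
    (hA : 8 * cc n 2 * H ^ 2 ≤ lam * A) (hqA : 4 * q ^ 2 ≤ A) (C0 : ℝ)
    (hC0 : ∀ x ∈ GG B H q o,
      ∑ y ∈ (GG B H q o).filter (fun y => y ≠ x), ((Dd x y : ℝ) / (Del o x y : ℝ)) ^ r ≤
      C0 * ((B : ℝ) ^ (n + 1) / (B : ℝ) ^ (2 * r)
        + (H : ℝ) ^ (n + 1 + r) * ((B : ℝ) / (B : ℝ) ^ r)))
    (x : Vc n ℤ) (hx : x ∈ GG B H q o) :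
    ∑ y ∈ GG B H q o, (n2 2 x y A : ℝ) ^ r ≤ (5 * (A : ℝ)) ^ ((n + 1) ^ 2 * r) *
      (2 ^ r * (q : ℝ) ^ (2 * r) / ((A : ℝ) ^ r * (B : ℝ) ^ (2 * r))
      + 64 ^ r * ((q : ℝ) ^ (2 * r) / (B : ℝ) ^ (2 * r)) ^ 2 *
        ((B : ℝ) ^ 2 / ((q : ℝ) * (A : ℝ) ^ 2)) ^ r *
        ((lam : ℝ) ^ ((n + 1) ^ 2 * r) * C0 * ((B : ℝ) ^ (n + 1) / (B : ℝ) ^ (2 * r)
        + (H : ℝ) ^ (n + 1 + r) * ((B : ℝ) / (B : ℝ) ^ r)))) := by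
  have hA1 : 1 ≤ A := by
    have : 1 ≤ q ^ 2 := Nat.one_le_pow _ _ (by omega)
    omega
  have hsplit : ∑ y ∈ GG B H q o, (n2 2 x y A : ℝ) ^ r =
      (n2 2 x x A : ℝ) ^ r +
        ∑ y ∈ (GG B H q o).filter (fun y => y ≠ x), (n2 2 x y A : ℝ) ^ r := by
    have h1 := Finset.add_sum_erase (GG B H q o) (fun y => (n2 2 x y A : ℝ) ^ r) hx
    have h2 : (GG B H q o).erase x = (GG B H q o).filter (fun y => y ≠ x) := by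
      ext y
      simp only [Finset.mem_erase, Finset.mem_filter]
      tauto
    rw [h2] at h1
    exact h1.symm
  rw [hsplit, mul_add]
  apply add_le_add
  · have h3 := NP1 (by omega : 1 ≤ n) (fun _ : Fin r => 2) (fun _ => by norm_num) B H q A o hB hq hA1
      hA6 x hx
    rw [B_Tot_sum, B_Tot_VV, Finset.prod_const, Finset.card_univ, Fintype.card_fin] at h3
    rw [n2_self]
    exact h3
  · calc ∑ y ∈ (GG B H q o).filter (fun y => y ≠ x), (n2 2 x y A : ℝ) ^ r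
        ≤ ∑ y ∈ (GG B H q o).filter (fun y => y ≠ x), ((5 * (A : ℝ)) ^ ((n + 1) ^ 2 * r) *
          (64 ^ r * ((q : ℝ) ^ (2 * r) / (B : ℝ) ^ (2 * r)) ^ 2 *
            ((B : ℝ) ^ 2 / ((q : ℝ) * (A : ℝ) ^ 2)) ^ r)) *
            ((lam : ℝ) ^ ((n + 1) ^ 2 * r) * ((Dd x y : ℝ) / (Del o x y : ℝ)) ^ r) := by
          apply Finset.sum_le_sum
          intro y hy
          rw [Finset.mem_filter] at hy
          exact B_Tot_pow _ _ _ _ _ _ _ (Nat.cast_nonneg _)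
            (N2B B H q A lam o hB hq hl hA hqA x y hx hy.1 (Ne.symm hy.2))
      _ = ((5 * (A : ℝ)) ^ ((n + 1) ^ 2 * r) *
          (64 ^ r * ((q : ℝ) ^ (2 * r) / (B : ℝ) ^ (2 * r)) ^ 2 *
            ((B : ℝ) ^ 2 / ((q : ℝ) * (A : ℝ) ^ 2)) ^ r)) *
          ((lam : ℝ) ^ ((n + 1) ^ 2 * r) *
          ∑ y ∈ (GG B H q o).filter (fun y => y ≠ x), ((Dd x y : ℝ) / (Del o x y : ℝ)) ^ r) := by
          rw [Finset.mul_sum, Finset.mul_sum]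
      _ ≤ ((5 * (A : ℝ)) ^ ((n + 1) ^ 2 * r) *
          (64 ^ r * ((q : ℝ) ^ (2 * r) / (B : ℝ) ^ (2 * r)) ^ 2 *
            ((B : ℝ) ^ 2 / ((q : ℝ) * (A : ℝ) ^ 2)) ^ r)) *
          ((lam : ℝ) ^ ((n + 1) ^ 2 * r) * (C0 * ((B : ℝ) ^ (n + 1) / (B : ℝ) ^ (2 * r)
            + (H : ℝ) ^ (n + 1 + r) * ((B : ℝ) / (B : ℝ) ^ r)))) := by
          apply mul_le_mul_of_nonneg_left _ (by positivity)
          apply mul_le_mul_of_nonneg_left _ (by positivity)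
          exact hC0 x hx
      _ = _ := by ring

theorem pairTotB {r : ℕ} (hr : 1 ≤ r) (n : ℕ) (hn : r + 2 ≤ n) (q : ℕ) (hq : 1 ≤ q)
    (lam : ℕ) (hl : 1 ≤ lam) : ∃ C : ℝ, 0 < C ∧
    ∀ (o : Fin (n + 1)) (B H A : ℕ), 1 ≤ B → 1 ≤ H → 8 * CC n (fun _ : Fin r => 2) * H ≤ A →
    8 * cc n 2 * H ^ 2 ≤ lam * A → 4 * q ^ 2 ≤ A →
    ∑ x ∈ GG B H q o, ∑ y ∈ GG B H q o, (n2 2 x y A : ℝ) ^ r ≤
      C * (A : ℝ) ^ VV n (fun _ : Fin r => 2) *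
        ((B : ℝ) ^ (n + 1) / ((A : ℝ) ^ r * (B : ℝ) ^ (2 * r))
        + ((B : ℝ) ^ (n + 1) / ((A : ℝ) ^ r * (B : ℝ) ^ (2 * r))) ^ 2 *
            (1 + (H : ℝ) ^ (n + 1 + r) * (B : ℝ) ^ r / (B : ℝ) ^ n)) := by
  have hq0 : (0 : ℝ) < q := by exact_mod_cast hq
  obtain ⟨C0, hC0pos, hC0⟩ := psAll n r q hn hq
  rw [B_Tot_VV]
  obtain ⟨C1, hC1⟩ : ∃ C1 : ℝ, C1 = (lam : ℝ) ^ ((n + 1) ^ 2 * r) * C0 := ⟨_, rfl⟩
  have hl0 : (0 : ℝ) < lam := by exact_mod_cast hl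
  have hC1pos : 0 < C1 := by
    rw [hC1]
    positivity
  refine ⟨3 ^ (n + 1) * 5 ^ ((n + 1) ^ 2 * r) * (2 ^ r * (q : ℝ) ^ (2 * r) +
    64 ^ r * ((q : ℝ) ^ (2 * r)) ^ 2 * C1), by positivity, ?_⟩
  intro o B H A hB hH hA6 hA hqA
  have hA1 : 1 ≤ A := by
    have : 1 ≤ q ^ 2 := Nat.one_le_pow _ _ (by omega)
    omega
  have hA0 : (0 : ℝ) < A := by exact_mod_cast hA1
  have hB0 : (0 : ℝ) < B := by exact_mod_cast hB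
  have hH0 : (0 : ℝ) < H := by exact_mod_cast hH
  set R : ℝ := (5 * (A : ℝ)) ^ ((n + 1) ^ 2 * r) *
      (2 ^ r * (q : ℝ) ^ (2 * r) / ((A : ℝ) ^ r * (B : ℝ) ^ (2 * r))
      + 64 ^ r * ((q : ℝ) ^ (2 * r) / (B : ℝ) ^ (2 * r)) ^ 2 *
        ((B : ℝ) ^ 2 / ((q : ℝ) * (A : ℝ) ^ 2)) ^ r *
        (C1 * ((B : ℝ) ^ (n + 1) / (B : ℝ) ^ (2 * r)
        + (H : ℝ) ^ (n + 1 + r) * ((B : ℝ) / (B : ℝ) ^ r)))) with hR
  have hR0 : 0 ≤ R := by positivity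
  have h1 : ∑ x ∈ GG B H q o, ∑ y ∈ GG B H q o, (n2 2 x y A : ℝ) ^ r ≤
      ((GG B H q o).card : ℝ) * R := by
    calc ∑ x ∈ GG B H q o, ∑ y ∈ GG B H q o, (n2 2 x y A : ℝ) ^ r ≤ ∑ _x ∈ GG B H q o, R :=
          Finset.sum_le_sum (fun x hx =>
            by
            have h := B_Tot_row hr hn lam hl o B H q A hB hq hA6 hA hqA C0 (hC0 B H o hB hH) x hx
            rw [← hC1] at h
            exact h)
      _ = _ := by rw [Finset.sum_const, nsmul_eq_mul]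
  have h2 := Pool.Agent.Lib.MP_219881_nt.card_GG_le (B := B) (H := H) (q := q) (o := o) hB
  refine h1.trans ((mul_le_mul_of_nonneg_right h2 hR0).trans ?_)
  have e1 : 3 ^ (n + 1) * (B : ℝ) ^ (n + 1) * R =
      3 ^ (n + 1) * 5 ^ ((n + 1) ^ 2 * r) * (A : ℝ) ^ ((n + 1) ^ 2 * r) *
      (2 ^ r * (q : ℝ) ^ (2 * r) *
          ((B : ℝ) ^ (n + 1) / ((A : ℝ) ^ r * (B : ℝ) ^ (2 * r))) +
        64 ^ r * ((q : ℝ) ^ (2 * r)) ^ 2 * C1 * (1 / (q : ℝ) ^ r) *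
          (((B : ℝ) ^ (n + 1) / ((A : ℝ) ^ r * (B : ℝ) ^ (2 * r))) ^ 2 *
            (1 + (H : ℝ) ^ (n + 1 + r) * (B : ℝ) ^ r / (B : ℝ) ^ n))) := by
    have hb0 : (B : ℝ) ^ n ≠ 0 := (pow_pos hB0 n).ne'
    have hb1 : (B : ℝ) ^ r ≠ 0 := (pow_pos hB0 r).ne'
    have hb3 : (A : ℝ) ^ r ≠ 0 := (pow_pos hA0 r).ne'
    have hb4 : (q : ℝ) ^ r ≠ 0 := (pow_pos hq0 r).ne'
    have hb5 : ((B : ℝ) ^ 2 / ((q : ℝ) * (A : ℝ) ^ 2)) ^ r =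
        ((B : ℝ) ^ r) ^ 2 / ((q : ℝ) ^ r * ((A : ℝ) ^ r) ^ 2) := by
      rw [div_pow, mul_pow, ← pow_mul, ← pow_mul, ← pow_mul, ← pow_mul, mul_comm 2 r]
    have hb6 : (B : ℝ) ^ (2 * r) = ((B : ℝ) ^ r) ^ 2 := by rw [← pow_mul, mul_comm 2 r]
    have hBne : (B : ℝ) ≠ 0 := hB0.ne'
    rw [hR, hb5, hb6, mul_pow 5 (A : ℝ), pow_succ (B : ℝ) n]
    generalize (B : ℝ) ^ n = b at hb0 ⊢
    generalize (B : ℝ) ^ r = b1 at hb1 ⊢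
    generalize (A : ℝ) ^ r = a1 at hb3 ⊢
    generalize (q : ℝ) ^ r = q1 at hb4 ⊢
    generalize (q : ℝ) ^ (2 * r) = q2
    generalize (5 : ℝ) ^ ((n + 1) ^ 2 * r) = v5
    generalize (A : ℝ) ^ ((n + 1) ^ 2 * r) = vA
    generalize (H : ℝ) ^ (n + 1 + r) = hh
    generalize (3 : ℝ) ^ (n + 1) = v3
    generalize (2 : ℝ) ^ r = v2
    generalize (64 : ℝ) ^ r = v64
    generalize (B : ℝ) = b3 at hBne ⊢
    field_simp
  rw [e1]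
  have p1 : (0 : ℝ) ≤ (B : ℝ) ^ (n + 1) / ((A : ℝ) ^ r * (B : ℝ) ^ (2 * r)) := by positivity
  have p2 : (0 : ℝ) ≤ ((B : ℝ) ^ (n + 1) / ((A : ℝ) ^ r * (B : ℝ) ^ (2 * r))) ^ 2 *
            (1 + (H : ℝ) ^ (n + 1 + r) * (B : ℝ) ^ r / (B : ℝ) ^ n) := by positivity
  generalize (B : ℝ) ^ (n + 1) / ((A : ℝ) ^ r * (B : ℝ) ^ (2 * r)) = s at p1 p2 ⊢
  generalize s ^ 2 * (1 + (H : ℝ) ^ (n + 1 + r) * (B : ℝ) ^ r / (B : ℝ) ^ n) = t at p2 ⊢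
  have p3 : (0 : ℝ) ≤ 2 ^ r * (q : ℝ) ^ (2 * r) := by positivity
  have p4 : (0 : ℝ) ≤ 64 ^ r * ((q : ℝ) ^ (2 * r)) ^ 2 * C1 := by positivity
  have p5 : 1 / (q : ℝ) ^ r ≤ 1 := by
    have hq1 : (1 : ℝ) ≤ q := by exact_mod_cast hq
    rw [div_le_one (pow_pos hq0 r)]
    exact one_le_pow₀ hq1
  have p6 : 0 ≤ 1 / (q : ℝ) ^ r := by positivity
  generalize 2 ^ r * (q : ℝ) ^ (2 * r) = a at p3 ⊢
  generalize 64 ^ r * ((q : ℝ) ^ (2 * r)) ^ 2 * C1 = b at p4 ⊢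
  generalize 1 / (q : ℝ) ^ r = c at p5 p6 ⊢
  have e2 : 3 ^ (n + 1) * 5 ^ ((n + 1) ^ 2 * r) * (a + b) * (A : ℝ) ^ ((n + 1) ^ 2 * r) * (s + t) =
      3 ^ (n + 1) * 5 ^ ((n + 1) ^ 2 * r) * (A : ℝ) ^ ((n + 1) ^ 2 * r) * ((a + b) * (s + t)) := by ring
  rw [e2]
  apply mul_le_mul_of_nonneg_left _ (by positivity)
  have e3 : (a + b) * (s + t) = (a * s + b * t) + (a * t + b * s) := by ring
  rw [e3]
  have e4 : 0 ≤ a * t + b * s := by positivity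
  have e5 : b * c * t ≤ b * t := by
    apply mul_le_mul_of_nonneg_right _ p2
    calc b * c ≤ b * 1 := mul_le_mul_of_nonneg_left p5 p4
      _ = b := mul_one b
  linarith

end Pool.Agent.Lib.MP_1ad228_ntF
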