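import Pool.Agent.Lib.MP_1ad228_ntF.Basic
import Pool.Agent.Lib.MP_219881_nt.CN_Cls

/-!
JOB CN_Cnt.  Counting near a robust real zero in a residue class; pigeonhole lower bound for `n1`.
(Model: Lib/MP_219881_nt/CN_Cnt.lean and CN_Cls.lean; `clsLow`, `clsUp` = `Pool.Agent.Lib.MP_219881_nt.clsLow` ...)

`cnt` PROOF.  `D = ∑ i, d i`, `dl = ρ^D / (2 D (n+1)^D)`, so `0 < dl ≤ 1/2`, `dl ≤ ρ` (as `ρ ≤ 1`, `D ≥ 1`). `hB` says `K W ≤ dl B`; so `W ≤ dl B / K` and `W ≤ ρ B`. Let `ξ` be the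
point of `Rob`.
Step 1: for every `l` not in the range of `S` `clsLow` with `c = B ξ l`, `r = ρ B` gives a finset with at least `ρ B / W` elements; `T` = the vectors `y` with `y l` in it for `l ∉ range S`,
`y (S k) = 0`: at least `(ρ B / W)^(n+1-r)` elements (`Fintype.card_piFinset`; the number of `l ∉ range S` is `n + 1 - r` because `S` is injective).
Step 2: for `y ∈ T` let `Y l = y l / B` for `l ∉ range S` and `Y (S k) = ξ (S k)`; `|Y l - ξ l| ≤ ρ`, so `Rob` gives `s` with `s l = Y l` (`l ∉ range S`), `|s l| ≤ 1/2`, `2ρ ≤ s o`, all forms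
vanish at `s`. `clsLow` with `c = B s (S k)`, `r = dl B / K` gives a finset `Z y k` of at least `dl B/(K W)` elements for every `k`.
Step 3: the points `x` with `x l = y l` for `l ∉ range S`, `x (S k) ∈ Z y k`, `y ∈ T`, are pairwise different for different `(y, z)` (`y` is recovered from `x`), there are at least
`(ρ B/W)^(n+1-r) (dl B/(K W))^r` of them, which is the left side (e.g. fibre over `y`: the set of `x` is `Fintype.piFinset` with singletons outside `range S`; `Finset.card_sigma` or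
`Finset.card_biUnion`; `r ≤ n + 1`).
Step 4: each such `x` is in the filter. `x l ≡ x0 l mod W` clear. For all `l`: `|x l / B - s l| ≤ dl/K ≤ 1/2`, so `|x l / B| ≤ 1`, `x ∈ VBox n B`.
`x o / B ≥ 2ρ - dl/K ≥ ρ`, so `q x_o ≥ q ρ B ≥ B` (`hq`) and `(x o / B)^d ≥ ρ^d`. For the tensor `a = F i` of degree `d = d i` (`1 ≤ d ≤ D`): `ev a x = A B^d ev α (x/B)`, `α = a/A`, `|α_s| ≤ 1`,
`ev α (x/B) = ∑_s α_s (∏ (x_(s k)/B) - ∏ s_(s k))` and a difference of products of `d` factors of absolute value `≤ 1` differing by at most `dl/K` is at most `d dl/K` (induction), so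
`|ev α (x/B)| ≤ (n+1)^d d dl/K ≤ ρ^D/(2K) ≤ ρ^d/K`; so `K |ev a x| ≤ A B^d ρ^d ≤ A (x o)^d`.

`n1low` PROOF.  The tensors with all entries in `[0, A]`: `(A+1)^V` of them, `V = (n+1)^d`; their values at `x` lie in `[-V A B^d, V A B^d]` (`ev_bound`), at most `2 V A B^d + 1 ≤ 3 V A B^d` integers. Some
fibre has at least `(A+1)^V/(3 V A B^d)` elements; subtract one of its elements: the differences are in `Box n d A` and vanish at `x`.
-/

namespace Pool.Agent.Lib.MP_1ad228_ntF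

open Classical

private theorem CN_Cnt_prod {ι : Type*} [DecidableEq ι] (T : Finset ι) (p q : ι → ℝ) {e B : ℝ} (hB : 0 ≤ B)
    (he : 0 ≤ e) (hp : ∀ k, |p k| ≤ B) (hq : ∀ k, |q k| ≤ B) (h : ∀ k, |p k - q k| ≤ e) :
    B * |∏ k ∈ T, p k - ∏ k ∈ T, q k| ≤ T.card * e * B ^ T.card := by
  induction T using Finset.induction_on with
  | empty => simp
  | insert k T hk ih =>
    rw [Finset.prod_insert hk, Finset.prod_insert hk, Finset.card_insert_of_notMem hk]
    have h1 : p k * ∏ k ∈ T, p k - q k * ∏ k ∈ T, q k =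
        p k * (∏ k ∈ T, p k - ∏ k ∈ T, q k) + (p k - q k) * ∏ k ∈ T, q k := by ring
    have h2 : |∏ k ∈ T, q k| ≤ B ^ T.card := by
      rw [Finset.abs_prod, ← Finset.prod_const]
      exact Finset.prod_le_prod (fun _ _ => abs_nonneg _) fun k _ => hq k
    rw [h1]
    calc B * |p k * (∏ k ∈ T, p k - ∏ k ∈ T, q k) + (p k - q k) * ∏ k ∈ T, q k|
        ≤ B * (|p k| * |∏ k ∈ T, p k - ∏ k ∈ T, q k| + |p k - q k| * |∏ k ∈ T, q k|) := by
          refine mul_le_mul_of_nonneg_left ?_ hB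
          refine (abs_add_le _ _).trans (le_of_eq ?_)
          rw [abs_mul, abs_mul]
      _ = |p k| * (B * |∏ k ∈ T, p k - ∏ k ∈ T, q k|) + B * (|p k - q k| * |∏ k ∈ T, q k|) := by ring
      _ ≤ B * (T.card * e * B ^ T.card) + B * (e * B ^ T.card) :=
          add_le_add (mul_le_mul (hp k) ih (mul_nonneg hB (abs_nonneg _)) hB)
            (mul_le_mul_of_nonneg_left (mul_le_mul (h k) h2 (abs_nonneg _) he) hB)
      _ = ((T.card + 1 : ℕ) : ℝ) * e * B ^ (T.card + 1) := by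
          push_cast
          ring

private theorem CN_Cnt_ev {n d : ℕ} (D A B K : ℕ) (hdD : d ≤ D) (hD : 1 ≤ D) (hA : 1 ≤ A) (hK : 1 ≤ K)
    (ρ : ℝ) (hρ : 0 < ρ) (hρ1 : ρ ≤ 1)
    (hB0 : (0 : ℝ) < B) (a : Ten n d ℤ) (ha : a ∈ Box n d A) (x : Vc n ℤ) (s : Vc n ℝ)
    (hx1 : ∀ l, |(x l : ℝ)| ≤ B) (hs : ∀ l, |s l| ≤ 1 / 2)
    (hx : ∀ l, |(x l : ℝ) - B * s l| ≤ ρ ^ D / (2 * (D : ℝ) * (n + 1) ^ D) * B / K)
    (h0 : ev (fun s => (a s : ℝ) / A) s = 0) (o : Fin (n + 1)) (ho : ρ * B ≤ x o) :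
    (K : ℤ) * |ev a x| ≤ A * (x o) ^ d := by
  have hA0 : (0 : ℝ) < A := by exact_mod_cast hA
  have hK0 : (0 : ℝ) < K := by exact_mod_cast hK
  have hD0 : (0 : ℝ) < D := by exact_mod_cast hD
  have hn0 : (0 : ℝ) < (n : ℝ) + 1 := by positivity
  have hn1 : (1 : ℝ) ≤ (n : ℝ) + 1 := by linarith [Nat.cast_nonneg (α := ℝ) n]
  have e1 : ∑ t : Fin d → Fin (n + 1), (a t : ℝ) * ∏ k, (B * s (t k)) = 0 := by
    have h1 : ∑ t : Fin d → Fin (n + 1), (a t : ℝ) * ∏ k, (B * s (t k)) =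
        A * (B : ℝ) ^ d * ev (fun s => (a s : ℝ) / A) s := by
      unfold ev
      rw [Finset.mul_sum]
      refine Finset.sum_congr rfl fun t _ => ?_
      rw [Finset.prod_mul_distrib, Finset.prod_const, Finset.card_univ, Fintype.card_fin]
      field_simp
    rw [h1, h0, mul_zero]
  have e2 : ((ev a x : ℤ) : ℝ) =
      ∑ t : Fin d → Fin (n + 1), (a t : ℝ) * (∏ k, (x (t k) : ℝ) - ∏ k, (B * s (t k))) := by
    have h3 : ∑ t : Fin d → Fin (n + 1), (a t : ℝ) * (∏ k, (x (t k) : ℝ) - ∏ k, (B * s (t k))) =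
        ∑ t : Fin d → Fin (n + 1), (a t : ℝ) * ∏ k, (x (t k) : ℝ) -
          ∑ t : Fin d → Fin (n + 1), (a t : ℝ) * ∏ k, (B * s (t k)) := by
      rw [← Finset.sum_sub_distrib]
      exact Finset.sum_congr rfl fun t _ => mul_sub _ _ _
    rw [h3, e1, sub_zero]
    unfold ev
    push_cast
    rfl
  obtain ⟨e, he⟩ : ∃ e : ℝ, e = ρ ^ D / (2 * (D : ℝ) * (n + 1) ^ D) * B / K := ⟨_, rfl⟩
  rw [← he] at hx
  have he0 : 0 ≤ e := by rw [he]; positivity
  have e3 : ∀ t : Fin d → Fin (n + 1),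
      (B : ℝ) * |(a t : ℝ) * (∏ k, (x (t k) : ℝ) - ∏ k, (B * s (t k)))| ≤ A * (d * e * B ^ d) := by
    intro t
    rw [abs_mul]
    have h1 : |(a t : ℝ)| ≤ A := by
      have := mem_Box.1 ha t
      exact_mod_cast this
    have h2 : ∀ k, |(B : ℝ) * s (t k)| ≤ B := by
      intro k
      rw [abs_mul, abs_of_pos hB0]
      have := hs (t k)
      nlinarith
    have h3 := CN_Cnt_prod (Finset.univ : Finset (Fin d)) (fun k => (x (t k) : ℝ))
      (fun k => (B : ℝ) * s (t k)) hB0.le he0 (fun k => hx1 (t k)) h2 (fun k => hx (t k))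
    rw [Finset.card_univ, Fintype.card_fin] at h3
    calc (B : ℝ) * (|(a t : ℝ)| * |∏ k, (x (t k) : ℝ) - ∏ k, (B * s (t k))|)
        = |(a t : ℝ)| * (B * |∏ k, (x (t k) : ℝ) - ∏ k, (B * s (t k))|) := by ring
      _ ≤ A * (d * e * B ^ d) :=
          mul_le_mul h1 h3 (mul_nonneg hB0.le (abs_nonneg _)) hA0.le
  have e4 : (B : ℝ) * |((ev a x : ℤ) : ℝ)| ≤ (n + 1) ^ d * (A * (d * e * B ^ d)) := by
    rw [e2]
    calc (B : ℝ) * |∑ t : Fin d → Fin (n + 1), (a t : ℝ) * (∏ k, (x (t k) : ℝ) - ∏ k, (B * s (t k)))|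
        ≤ B * ∑ t : Fin d → Fin (n + 1), |(a t : ℝ) * (∏ k, (x (t k) : ℝ) - ∏ k, (B * s (t k)))| :=
          mul_le_mul_of_nonneg_left (Finset.abs_sum_le_sum_abs _ _) hB0.le
      _ = ∑ t : Fin d → Fin (n + 1), B * |(a t : ℝ) * (∏ k, (x (t k) : ℝ) - ∏ k, (B * s (t k)))| :=
          Finset.mul_sum _ _ _
      _ ≤ ∑ _t : Fin d → Fin (n + 1), A * (d * e * B ^ d) := Finset.sum_le_sum fun t _ => e3 t
      _ = (n + 1) ^ d * (A * (d * e * B ^ d)) := by
          rw [Finset.sum_const, Finset.card_univ, Fintype.card_fun, Fintype.card_fin, Fintype.card_fin,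
            nsmul_eq_mul]
          push_cast
          ring
  have hdr : (d : ℝ) ≤ D := by exact_mod_cast hdD
  have e5 : (K : ℝ) * |((ev a x : ℤ) : ℝ)| ≤ A * (ρ * B) ^ d := by
    have h1 : (B : ℝ) * (K * |((ev a x : ℤ) : ℝ)|) ≤ B * (A * (ρ * B) ^ d) := by
      have h2 : (B : ℝ) * (K * |((ev a x : ℤ) : ℝ)|) ≤ K * ((n + 1) ^ d * (A * (d * e * B ^ d))) := by
        calc (B : ℝ) * (K * |((ev a x : ℤ) : ℝ)|) = K * (B * |((ev a x : ℤ) : ℝ)|) := by ring
          _ ≤ _ := mul_le_mul_of_nonneg_left e4 hK0.le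
      refine h2.trans ?_
      have h3 : (K : ℝ) * ((n + 1) ^ d * (A * (d * e * B ^ d))) =
          B * (A * B ^ d * (((n + 1) ^ d * d * ρ ^ D) / (2 * (D : ℝ) * (n + 1) ^ D))) := by
        rw [he]
        field_simp
      rw [h3]
      refine mul_le_mul_of_nonneg_left ?_ hB0.le
      have h4 : ((n : ℝ) + 1) ^ d * d * ρ ^ D / (2 * (D : ℝ) * (n + 1) ^ D) ≤ ρ ^ d := by
        rw [div_le_iff₀ (by positivity)]
        have h5 : ρ ^ D ≤ ρ ^ d := pow_le_pow_of_le_one hρ.le hρ1 hdD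
        have h6 : ((n : ℝ) + 1) ^ d ≤ (n + 1) ^ D := pow_le_pow_right₀ hn1 hdD
        have h7 : ((n : ℝ) + 1) ^ d * d ≤ (n + 1) ^ D * D :=
          mul_le_mul h6 hdr (Nat.cast_nonneg _) (by positivity)
        calc ((n : ℝ) + 1) ^ d * d * ρ ^ D ≤ (n + 1) ^ D * D * ρ ^ d :=
              mul_le_mul h7 h5 (by positivity) (by positivity)
          _ ≤ ρ ^ d * (2 * (D : ℝ) * (n + 1) ^ D) := by
              have h8 : 0 ≤ ρ ^ d * (D * ((n : ℝ) + 1) ^ D) := by positivity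
              nlinarith
      calc (A : ℝ) * B ^ d * (((n : ℝ) + 1) ^ d * d * ρ ^ D / (2 * (D : ℝ) * (n + 1) ^ D)) ≤
            A * B ^ d * ρ ^ d := mul_le_mul_of_nonneg_left h4 (by positivity)
        _ = A * (ρ * B) ^ d := by rw [mul_pow]; ring
    exact le_of_mul_le_mul_left h1 hB0
  have e6 : (ρ * B) ^ d ≤ ((x o : ℤ) : ℝ) ^ d :=
    pow_le_pow_left₀ (mul_pos hρ hB0).le ho d
  have e7 : (K : ℝ) * |((ev a x : ℤ) : ℝ)| ≤ A * ((x o : ℤ) : ℝ) ^ d :=
    e5.trans (mul_le_mul_of_nonneg_left e6 hA0.le)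
  exact_mod_cast e7

private theorem CN_Cnt_card {n r : ℕ} (S : Fin r → Fin (n + 1)) (hS : Function.Injective S)
    (Z : Fin (n + 1) → Finset ℤ) (u : ℝ) (hu : 0 ≤ u) (hZ : ∀ l, u ≤ ((Z l).card : ℝ)) :
    u ^ (n + 1 - r) ≤
      ((Fintype.piFinset fun l => if (∃ k, S k = l) then {0} else Z l).card : ℝ) := by
  rw [Fintype.card_piFinset]
  push_cast
  have h1 : ∏ l, (((if (∃ k, S k = l) then ({0} : Finset ℤ) else Z l).card : ℕ) : ℝ) =
      ∏ l ∈ Finset.univ \ Finset.univ.image S, ((Z l).card : ℝ) := by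
    rw [← Finset.prod_subset (Finset.subset_univ (Finset.univ \ Finset.univ.image S))]
    · refine Finset.prod_congr rfl fun l hl => ?_
      rw [Finset.mem_sdiff, Finset.mem_image] at hl
      rw [if_neg (by
        rintro ⟨k, hk⟩
        exact hl.2 ⟨k, Finset.mem_univ _, hk⟩)]
    · intro l _ hl
      have h2 : ∃ k, S k = l := by
        by_contra hcon
        refine hl (Finset.mem_sdiff.2 ⟨Finset.mem_univ _, fun h => hcon ?_⟩)
        rw [Finset.mem_image] at h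
        obtain ⟨k, _, hk⟩ := h
        exact ⟨k, hk⟩
      rw [if_pos h2, Finset.card_singleton, Nat.cast_one]
  rw [h1]
  have h3 : (Finset.univ \ Finset.univ.image S).card = n + 1 - r := by
    rw [Finset.card_sdiff_of_subset (Finset.subset_univ _), Finset.card_univ, Fintype.card_fin,
      Finset.card_image_of_injective _ hS, Finset.card_univ, Fintype.card_fin]
  rw [← h3, ← Finset.prod_const]
  exact Finset.prod_le_prod (fun _ _ => hu) fun l _ => hZ l

theorem cnt {n r : ℕ} (d : Fin r → ℕ) (hr : 1 ≤ r) (hrn : r ≤ n + 1) (hd : ∀ i, 1 ≤ d i)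
    (o : Fin (n + 1)) (S : Fin r → Fin (n + 1)) (hS : Function.Injective S) (ρ : ℝ)
    (hρ : 0 < ρ) (hρ1 : ρ ≤ 1) (q : ℕ) (hq : 1 ≤ ρ * q) (K W B A : ℕ) (hK : 1 ≤ K) (hW : 1 ≤ W)
    (hB : (K : ℝ) * W ≤ ρ ^ (∑ i, d i) / (2 * ((∑ i, d i : ℕ) : ℝ) * (n + 1) ^ (∑ i, d i)) * B)
    (hA : 1 ≤ A) (F : Tup n d ℤ) (hF : F ∈ TBox n d A)
    (h : Rob o S ρ (fun i s => (F i s : ℝ) / A)) (x0 : Vc n ℤ) :
    ρ ^ (n + 1 - r) * (ρ ^ (∑ i, d i) / (2 * ((∑ i, d i : ℕ) : ℝ) * (n + 1) ^ (∑ i, d i))) ^ r *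
      (B : ℝ) ^ (n + 1) / (K ^ r * W ^ (n + 1)) ≤
      (((VBox n B).filter fun x => (∀ l, (W : ℤ) ∣ x l - x0 l) ∧ (B : ℤ) ≤ q * x o ∧
        ∀ i, (K : ℤ) * |ev (F i) x| ≤ A * (x o) ^ d i).card : ℝ) := by
  have hK1 : (1 : ℝ) ≤ K := by exact_mod_cast hK
  have hK0 : (0 : ℝ) < K := lt_of_lt_of_le one_pos hK1
  have hW1 : (1 : ℝ) ≤ W := by exact_mod_cast hW
  have hW0 : (0 : ℝ) < W := lt_of_lt_of_le one_pos hW1
  have hdD : ∀ i, d i ≤ ∑ i, d i := fun i =>
    Finset.single_le_sum (f := d) (fun _ _ => Nat.zero_le _) (Finset.mem_univ i)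
  have hD1 : 1 ≤ ∑ i, d i := (hd ⟨0, by omega⟩).trans (hdD ⟨0, by omega⟩)
  generalize (∑ i, d i) = D at hB hdD hD1 ⊢
  have hD1r : (1 : ℝ) ≤ D := by exact_mod_cast hD1
  have hn1 : (1 : ℝ) ≤ ((n : ℝ) + 1) ^ D := by
    refine one_le_pow₀ ?_
    have : (0 : ℝ) ≤ n := Nat.cast_nonneg n
    linarith
  obtain ⟨dl, hdl⟩ : ∃ dl : ℝ, dl = ρ ^ D / (2 * (D : ℝ) * (n + 1) ^ D) := ⟨_, rfl⟩
  have hdl0 : 0 < dl := by rw [hdl]; positivity
  have hdlρ : 2 * dl ≤ ρ := by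
    rw [hdl, ← mul_div_assoc, div_le_iff₀ (by positivity)]
    have h1 : ρ ^ D ≤ ρ := by
      calc ρ ^ D ≤ ρ ^ 1 := pow_le_pow_of_le_one hρ.le hρ1 hD1
        _ = ρ := pow_one ρ
    have h2 : (1 : ℝ) ≤ D * (n + 1) ^ D := one_le_mul_of_one_le_of_one_le hD1r hn1
    calc 2 * ρ ^ D ≤ 2 * ρ := by linarith
      _ = ρ * (2 * 1) := by ring
      _ ≤ ρ * (2 * (D * (n + 1) ^ D)) := by
          refine mul_le_mul_of_nonneg_left ?_ hρ.le
          linarith
      _ = ρ * (2 * (D : ℝ) * (n + 1) ^ D) := by ring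
  have hBpos : (0 : ℝ) < B := by
    rw [← hdl] at hB
    by_contra hcon
    have h1 : (B : ℝ) = 0 := le_antisymm (not_lt.1 hcon) (Nat.cast_nonneg B)
    rw [h1, mul_zero] at hB
    nlinarith
  rw [← hdl] at hB ⊢
  obtain ⟨ξ, hξ⟩ := h
  have hWr : (W : ℝ) ≤ ρ * B := by nlinarith
  have hWd : (W : ℝ) ≤ dl * B / K := by
    rw [le_div_iff₀ hK0]
    linarith
  have hS1 : ∀ l, ∃ S : Finset ℤ, (∀ z ∈ S, |(z : ℝ) - B * ξ l| ≤ ρ * B ∧ (W : ℤ) ∣ z - x0 l) ∧
      ρ * B / W ≤ (S.card : ℝ) := fun l =>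
    Pool.Agent.Lib.MP_219881_nt.clsLow (B * ξ l) (ρ * B) W (x0 l) hW hWr
  choose Z hZ hZc using hS1
  obtain ⟨T, hT⟩ : ∃ T : Finset (Vc n ℤ),
      T = Fintype.piFinset fun l => if (∃ k, S k = l) then {0} else Z l := ⟨_, rfl⟩
  have hTc : (ρ * B / W) ^ (n + 1 - r) ≤ (T.card : ℝ) := by
    rw [hT]
    exact CN_Cnt_card S hS Z _ (by positivity) hZc
  have hTi : ∀ y ∈ T, ∀ k, y (S k) = 0 := by
    intro y hy k
    rw [hT, Fintype.mem_piFinset] at hy
    have := hy (S k)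
    rw [if_pos ⟨k, rfl⟩] at this
    exact Finset.mem_singleton.1 this
  have hTl : ∀ y ∈ T, ∀ l, (¬ ∃ k, S k = l) → y l ∈ Z l := by
    intro y hy l h1
    rw [hT, Fintype.mem_piFinset] at hy
    have := hy l
    rwa [if_neg h1] at this
  have hs1 : ∀ y : Vc n ℤ, y ∈ T → ∃ s : Vc n ℝ, (∀ l, (¬ ∃ k, S k = l) → s l = (y l : ℝ) / B) ∧
      (∀ l, |s l| ≤ 1 / 2) ∧ 2 * ρ ≤ s o ∧ ∀ i, ev (fun s => (F i s : ℝ) / A) s = 0 := by
    intro y hy
    obtain ⟨s, h1, h2⟩ := hξ (fun l => if (∃ k, S k = l) then ξ l else (y l : ℝ) / B) (by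
      intro l
      by_cases hl : ∃ k, S k = l
      · simp only [if_pos hl, sub_self, abs_zero]
        exact hρ.le
      · simp only [if_neg hl]
        have h5 := (hZ l (y l) (hTl y hy l hl)).1
        have h6 : (y l : ℝ) / B - ξ l = ((y l : ℝ) - B * ξ l) / B := by field_simp
        rw [h6, abs_div, abs_of_pos hBpos, div_le_iff₀ hBpos]
        exact h5)
    refine ⟨s, fun l h3 => ?_, h2⟩
    rw [h1 l (fun k hk => h3 ⟨k, hk.symm⟩)]
    exact if_neg h3
  choose! s hs using hs1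
  have hSi : ∀ (y : Vc n ℤ) (k : Fin r), ∃ S' : Finset ℤ,
      (∀ z ∈ S', |(z : ℝ) - B * s y (S k)| ≤ dl * B / K ∧ (W : ℤ) ∣ z - x0 (S k)) ∧
      dl * B / K / W ≤ (S'.card : ℝ) := fun y k =>
    Pool.Agent.Lib.MP_219881_nt.clsLow (B * s y (S k)) (dl * B / K) W (x0 (S k)) hW hWd
  choose Y hY hYc using hSi
  obtain ⟨E, hE⟩ : ∃ E : Finset (Σ _ : Vc n ℤ, (Fin r → ℤ)),
      E = T.sigma fun y => Fintype.piFinset (Y y) := ⟨_, rfl⟩
  have hEc : (ρ * B / W) ^ (n + 1 - r) * (dl * B / K / W) ^ r ≤ (E.card : ℝ) := by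
    rw [hE, Finset.card_sigma]
    push_cast
    have h1 : ∀ y ∈ T, (dl * B / K / W) ^ r ≤ ((Fintype.piFinset (Y y)).card : ℝ) := by
      intro y _
      rw [Fintype.card_piFinset]
      push_cast
      have h2 : (dl * B / K / W) ^ r = ∏ _k : Fin r, dl * B / K / W := by
        rw [Finset.prod_const, Finset.card_univ, Fintype.card_fin]
      rw [h2]
      exact Finset.prod_le_prod (fun _ _ => by positivity) fun k _ => hYc y k
    calc (ρ * B / W) ^ (n + 1 - r) * (dl * B / K / W) ^ r ≤ (T.card : ℝ) * (dl * B / K / W) ^ r :=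
          mul_le_mul_of_nonneg_right hTc (by positivity)
      _ = ∑ _y ∈ T, (dl * B / K / W) ^ r := by rw [Finset.sum_const, nsmul_eq_mul]
      _ ≤ _ := Finset.sum_le_sum h1
  have hL : ρ ^ (n + 1 - r) * dl ^ r * (B : ℝ) ^ (n + 1) / (K ^ r * W ^ (n + 1)) =
      (ρ * B / W) ^ (n + 1 - r) * (dl * B / K / W) ^ r := by
    have key : ∀ m N : ℕ, N = m + r → ρ ^ m * dl ^ r * (B : ℝ) ^ N / (K ^ r * W ^ N) =
        (ρ * B / W) ^ m * (dl * B / K / W) ^ r := by
      rintro m N rfl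
      rw [div_pow, mul_pow, div_pow, div_pow, mul_pow, pow_add, pow_add]
      field_simp
    exact key _ _ (by omega)
  rw [hL]
  refine hEc.trans ?_
  rw [Nat.cast_le]
  refine Finset.card_le_card_of_injOn (fun t => Function.extend S t.2 t.1) ?_ ?_
  · rintro ⟨y, z⟩ ht
    rw [hE, Finset.mem_coe, Finset.mem_sigma] at ht
    obtain ⟨hy, hz⟩ := ht
    have hy' : y ∈ T := hy
    have hz' : ∀ k, z k ∈ Y y k := Fintype.mem_piFinset.1 hz
    obtain ⟨g1, g2, g3, g4⟩ := hs y hy'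
    obtain ⟨x, hx⟩ : ∃ x : Vc n ℤ, x = Function.extend S z y := ⟨_, rfl⟩
    have xS : ∀ k, x (S k) = z k := by
      intro k
      rw [hx, hS.extend_apply]
    have xl : ∀ l, (¬ ∃ k, S k = l) → x l = y l := by
      intro l h1
      rw [hx, Function.extend_apply' _ _ _ h1]
    have hdB : 0 ≤ dl * B / K := by positivity
    have f1 : ∀ l, |(x l : ℝ) - B * s y l| ≤ dl * B / K := by
      intro l
      by_cases h1 : ∃ k, S k = l
      · obtain ⟨k, rfl⟩ := h1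
        rw [xS]
        exact (hY y k (z k) (hz' k)).1
      · rw [xl l h1, g1 l h1]
        have h3 : (y l : ℝ) - B * ((y l : ℝ) / B) = 0 := by
          field_simp
          ring
        rw [h3, abs_zero]
        exact hdB
    have f2 : ∀ l, (W : ℤ) ∣ x l - x0 l := by
      intro l
      by_cases h1 : ∃ k, S k = l
      · obtain ⟨k, rfl⟩ := h1
        rw [xS]
        exact (hY y k (z k) (hz' k)).2
      · rw [xl l h1]
        exact (hZ l (y l) (hTl y hy' l h1)).2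
    have f3 : dl * B / K ≤ B / 2 := by
      rw [div_le_iff₀ hK0]
      have h1 : dl ≤ 1 / 2 := by linarith
      nlinarith [mul_le_mul_of_nonneg_right h1 hBpos.le]
    have f3' : dl * B / K ≤ ρ * B := by
      rw [div_le_iff₀ hK0]
      have h1 : dl ≤ ρ := by linarith
      nlinarith [mul_le_mul_of_nonneg_right h1 hBpos.le, mul_pos hρ hBpos]
    have f4 : ∀ l, |(x l : ℝ)| ≤ B := by
      intro l
      have h1 := f1 l
      have h2 := g2 l
      have h3 : |(B : ℝ) * s y l| ≤ B / 2 := by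
        rw [abs_mul, abs_of_pos hBpos]
        nlinarith
      have h4 : (x l : ℝ) = ((x l : ℝ) - B * s y l) + B * s y l := by ring
      rw [h4]
      refine (abs_add_le _ _).trans ?_
      linarith
    have f5 : ρ * B ≤ (x o : ℝ) := by
      have h1 := (abs_le.1 (f1 o)).1
      have h2 : 2 * ρ * B ≤ s y o * B := mul_le_mul_of_nonneg_right g3 hBpos.le
      linarith
    have f6 : (B : ℤ) ≤ q * x o := by
      have h1 : (B : ℝ) ≤ q * (x o : ℝ) := by
        have h2 : (q : ℝ) * (ρ * B) ≤ q * (x o : ℝ) :=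
          mul_le_mul_of_nonneg_left f5 (Nat.cast_nonneg _)
        nlinarith
      exact_mod_cast h1
    show Function.extend S z y ∈ _
    rw [← hx, Finset.mem_coe, Finset.mem_filter]
    rw [hdl] at f1
    refine ⟨mem_VBox.2 fun l => ?_, f2, f6, fun i =>
      CN_Cnt_ev D A B K (hdD i) hD1 hA hK ρ hρ hρ1 hBpos (F i) (mem_TBox.1 hF i) x (s y) f4 g2 f1
        (g4 i) o f5⟩
    have h1 := f4 l
    exact_mod_cast h1
  · rintro ⟨y, z⟩ ht ⟨y1, z1⟩ ht1 heq
    rw [hE, Finset.mem_coe, Finset.mem_sigma] at ht ht1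
    have hy : y ∈ T := ht.1
    have hy1 : y1 ∈ T := ht1.1
    have heq' : Function.extend S z y = Function.extend S z1 y1 := heq
    have k1 : z = z1 := by
      funext k
      have := congrFun heq' (S k)
      rwa [hS.extend_apply, hS.extend_apply] at this
    have k3 : y = y1 := by
      funext l
      by_cases h1 : ∃ k, S k = l
      · obtain ⟨k, rfl⟩ := h1
        rw [hTi y hy, hTi y1 hy1]
      · have := congrFun heq' l
        rwa [Function.extend_apply' _ _ _ h1, Function.extend_apply' _ _ _ h1] at this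
    subst k1 k3
    rfl

theorem n1low {n : ℕ} (d A B : ℕ) (hA : 1 ≤ A) (hB : 1 ≤ B) (x : Vc n ℤ) (hx : x ∈ VBox n B) :
    (A : ℝ) ^ (n + 1) ^ d / (3 * (n + 1) ^ d * A * B ^ d) ≤ (n1 d x A : ℝ) := by
  obtain ⟨M, hM⟩ : ∃ M : ℕ, M = (n + 1) ^ d * A * B ^ d := ⟨_, rfl⟩
  have hM1 : 1 ≤ M := by
    rw [hM]
    exact Nat.succ_le_of_lt (by positivity)
  obtain ⟨P, hP⟩ : ∃ P : Finset (Ten n d ℤ), P = Fintype.piFinset fun _ =>
    Finset.Icc (0 : ℤ) (A : ℤ) := ⟨_, rfl⟩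
  have hPm : ∀ a : Ten n d ℤ, a ∈ P ↔ ∀ s, 0 ≤ a s ∧ a s ≤ (A : ℤ) := by
    intro a
    rw [hP]
    simp [Fintype.mem_piFinset, Finset.mem_Icc]
  have hPc : P.card = (A + 1) ^ (n + 1) ^ d := by
    have h : ((A : ℤ) + 1 - 0).toNat = A + 1 := by omega
    rw [hP]
    simp only [Fintype.card_piFinset, Int.card_Icc, h, Finset.prod_const, Finset.card_univ,
      Fintype.card_fun, Fintype.card_fin]
  have hxb := mem_VBox.mp hx
  have hmaps : ∀ a ∈ P, ev a x ∈ Finset.Icc (-(M : ℤ)) (M : ℤ) := by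
    intro a ha
    have h1 : ∀ s, |a s| ≤ (A : ℤ) := by
      intro s
      obtain ⟨h2, h3⟩ := (hPm a).mp ha s
      rw [abs_of_nonneg h2]
      exact h3
    have h2 := ev_bound h1 hxb
    rw [Finset.mem_Icc, ← abs_le, hM]
    push_cast
    exact h2
  have hIc : ((Finset.Icc (-(M : ℤ)) (M : ℤ)).card : ℝ) = 2 * M + 1 := by
    rw [Int.card_Icc]
    have : ((M : ℤ) + 1 - -(M : ℤ)).toNat = 2 * M + 1 := by omega
    rw [this]
    push_cast
    ring
  have hM0 : (0 : ℝ) < 2 * M + 1 := by positivity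
  obtain ⟨v, _, hv⟩ := Finset.exists_le_card_fiber_of_nsmul_le_card_of_maps_to
    (s := P) (t := Finset.Icc (-(M : ℤ)) (M : ℤ)) (f := fun a => ev a x)
    (b := (P.card : ℝ) / (2 * M + 1)) hmaps ⟨0, by rw [Finset.mem_Icc]; constructor <;> omega⟩ (by
      rw [nsmul_eq_mul, hIc, mul_div_cancel₀ _ hM0.ne'])
  have hPpos : (0 : ℝ) < P.card := by
    rw [hPc]
    positivity
  have hFpos : (0 : ℝ) < ((P.filter fun a => ev a x = v).card : ℝ) :=
    lt_of_lt_of_le (by positivity) hv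
  have hFne : (P.filter fun a => ev a x = v).Nonempty := by
    rw [← Finset.card_pos]
    exact_mod_cast hFpos
  obtain ⟨a0, ha0⟩ := hFne
  rw [Finset.mem_filter] at ha0
  have hle : (P.filter fun a => ev a x = v).card ≤ n1 d x A := by
    rw [n1]
    refine Finset.card_le_card_of_injOn (fun a => a - a0) ?_ ?_
    · intro a ha
      rw [Finset.mem_coe, Finset.mem_filter] at ha
      rw [Finset.mem_coe, Finset.mem_filter, mem_Box]
      refine ⟨?_, ?_⟩
      · intro s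
        obtain ⟨h1, h2⟩ := (hPm a).mp ha.1 s
        obtain ⟨h3, h4⟩ := (hPm a0).mp ha0.1 s
        show |a s - a0 s| ≤ (A : ℤ)
        rw [abs_le]
        constructor <;> linarith
      · show ev (a - a0) x = 0
        rw [ev_sub, ha.2, ha0.2, sub_self]
    · intro a _ a' _ haa
      exact sub_left_injective haa
  have h1 : (A : ℝ) ^ (n + 1) ^ d ≤ P.card := by
    rw [hPc]
    push_cast
    exact pow_le_pow_left₀ (by positivity) (by linarith) _
  have hMr : (M : ℝ) = (n + 1) ^ d * A * B ^ d := by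
    rw [hM]
    push_cast
    ring
  have hM1r : (1 : ℝ) ≤ M := by exact_mod_cast hM1
  calc (A : ℝ) ^ (n + 1) ^ d / (3 * (n + 1) ^ d * A * B ^ d)
      = (A : ℝ) ^ (n + 1) ^ d / (3 * M) := by
        rw [hMr]
        congr 1
        ring
    _ ≤ (P.card : ℝ) / (2 * M + 1) := by
        apply div_le_div₀ (by positivity) h1 hM0
        linarith
    _ ≤ ((P.filter fun a => ev a x = v).card : ℝ) := hv
    _ ≤ (n1 d x A : ℝ) := by exact_mod_cast hle

end Pool.Agent.Lib.MP_1ad228_ntF
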