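import Pool.Agent.Lib.MP_1ad228_ntF.PairSum
import Pool.Agent.Lib.MP_1ad228_ntF.NP
import Pool.Agent.Lib.MP_1ad228_ntF.EEle

/-!
JOB PairTot.  The second moment without local terms.
(Model: Lib/MP_219881_nt/PairTot.lean)

PROOF.  Put `V = VV n d`, `D = ∑ d`, `E = B^(n+1)/(A^r B^D)`. `A ≥ 4 q^D ≥ 1`. `y = x`: `n2_self` and `NP1`
(`8 CC H ≤ 8 CC H^2 ≤ A`): `∏ n2 ≤ (5A)^V * 2^r q^D/(A^r B^D)`. `y ≠ x`: `NP2` and `psAll`. Sum over `x`: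
`card (GG B H q o) ≤ 3^(n+1) B^(n+1)` (`card_GG_le`). Diagonal: `B^(n+1)/(A^r B^D) = E`. Off diagonal:
`B^(n+1) * (1/B^D)^2 * (B^2/A^2)^r * B^(n+1)/B^(2r) = E^2` and
`B^(n+1) * (1/B^D)^2 * (B^2/A^2)^r * H^(n+1+r) * B/B^r = E^2 * (H^(n+1+r) * B^r/B^n)`.
`(5A)^V = 5^V A^V`. Constant: `3^(n+1) 5^V (2^r q^D + 64^r q^(2D) C0)` (`1/q^r ≤ 1`).
-/

namespace Pool.Agent.Lib.MP_1ad228_ntF

open Classical

private theorem PairTot_row {n r : ℕ} (hr : 1 ≤ r) (hn : r + 2 ≤ n) (d : Fin r → ℕ)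
    (hd : ∀ i, 2 ≤ d i) (o : Fin (n + 1)) (B H q A : ℕ) (hB : 1 ≤ B)
    (hH : 1 ≤ H) (hq : 1 ≤ q) (hA : 8 * CC n d * H ^ 2 ≤ A) (hqA : 4 * q ^ (∑ i, d i) ≤ A) (C0 : ℝ)
    (hC0 : ∀ x ∈ GG B H q o,
      ∑ y ∈ (GG B H q o).filter (fun y => y ≠ x), ((Dd x y : ℝ) / (Del o x y : ℝ)) ^ r ≤
      C0 * ((B : ℝ) ^ (n + 1) / (B : ℝ) ^ (2 * r)
        + (H : ℝ) ^ (n + 1 + r) * ((B : ℝ) / (B : ℝ) ^ r)))
    (x : Vc n ℤ) (hx : x ∈ GG B H q o) :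
    ∑ y ∈ GG B H q o, ∏ i, (n2 (d i) x y A : ℝ) ≤ (5 * (A : ℝ)) ^ VV n d *
      (2 ^ r * (q : ℝ) ^ (∑ i, d i) / ((A : ℝ) ^ r * (B : ℝ) ^ (∑ i, d i))
      + 64 ^ r * ((q : ℝ) ^ (∑ i, d i) / (B : ℝ) ^ (∑ i, d i)) ^ 2 *
        ((B : ℝ) ^ 2 / ((q : ℝ) * (A : ℝ) ^ 2)) ^ r *
        (C0 * ((B : ℝ) ^ (n + 1) / (B : ℝ) ^ (2 * r)
        + (H : ℝ) ^ (n + 1 + r) * ((B : ℝ) / (B : ℝ) ^ r)))) := by
  have h6 : 8 * CC n d * H ≤ A := by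
    have h1 : H ≤ H ^ 2 := by nlinarith
    exact (Nat.mul_le_mul_left (8 * CC n d) h1).trans hA
  have hA1 : 1 ≤ A := by
    have : 1 ≤ q ^ (∑ i, d i) := Nat.one_le_pow _ _ (by omega)
    omega
  have hsplit : ∑ y ∈ GG B H q o, ∏ i, (n2 (d i) x y A : ℝ) =
      ∏ i, (n2 (d i) x x A : ℝ) +
        ∑ y ∈ (GG B H q o).filter (fun y => y ≠ x), ∏ i, (n2 (d i) x y A : ℝ) := by
    have h1 := Finset.add_sum_erase (GG B H q o) (fun y => ∏ i, (n2 (d i) x y A : ℝ)) hx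
    have h2 : (GG B H q o).erase x = (GG B H q o).filter (fun y => y ≠ x) := by
      ext y
      simp only [Finset.mem_erase, Finset.mem_filter]
      tauto
    rw [h2] at h1
    exact h1.symm
  rw [hsplit, mul_add]
  apply add_le_add
  · have h3 := NP1 (by omega : 1 ≤ n) d (fun i => (by have := hd i; omega : 1 ≤ d i)) B H q A o hB hq hA1
      h6 x hx
    refine le_trans (le_of_eq ?_) h3
    exact Finset.prod_congr rfl fun i _ => by rw [n2_self]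
  · calc ∑ y ∈ (GG B H q o).filter (fun y => y ≠ x), ∏ i, (n2 (d i) x y A : ℝ)
        ≤ ∑ y ∈ (GG B H q o).filter (fun y => y ≠ x), ((5 * (A : ℝ)) ^ VV n d *
          (64 ^ r * ((q : ℝ) ^ (∑ i, d i) / (B : ℝ) ^ (∑ i, d i)) ^ 2 *
            ((B : ℝ) ^ 2 / ((q : ℝ) * (A : ℝ) ^ 2)) ^ r)) *
            ((Dd x y : ℝ) / (Del o x y : ℝ)) ^ r := by
          apply Finset.sum_le_sum
          intro y hy
          rw [Finset.mem_filter] at hy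
          have h3 := NP2 d hd B H q A o hB hq hA hqA x y hx hy.1 (Ne.symm hy.2)
          rw [mul_assoc]
          exact h3
      _ = ((5 * (A : ℝ)) ^ VV n d *
          (64 ^ r * ((q : ℝ) ^ (∑ i, d i) / (B : ℝ) ^ (∑ i, d i)) ^ 2 *
            ((B : ℝ) ^ 2 / ((q : ℝ) * (A : ℝ) ^ 2)) ^ r)) *
          ∑ y ∈ (GG B H q o).filter (fun y => y ≠ x), ((Dd x y : ℝ) / (Del o x y : ℝ)) ^ r := by
          rw [Finset.mul_sum]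
      _ ≤ ((5 * (A : ℝ)) ^ VV n d *
          (64 ^ r * ((q : ℝ) ^ (∑ i, d i) / (B : ℝ) ^ (∑ i, d i)) ^ 2 *
            ((B : ℝ) ^ 2 / ((q : ℝ) * (A : ℝ) ^ 2)) ^ r)) *
          (C0 * ((B : ℝ) ^ (n + 1) / (B : ℝ) ^ (2 * r)
            + (H : ℝ) ^ (n + 1 + r) * ((B : ℝ) / (B : ℝ) ^ r))) := by
          apply mul_le_mul_of_nonneg_left _ (by positivity)
          exact hC0 x hx
      _ = _ := by rw [mul_assoc]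

theorem pairTot {r : ℕ} (hr : 1 ≤ r) (n : ℕ) (hn : r + 2 ≤ n) (d : Fin r → ℕ)
    (hd : ∀ i, 2 ≤ d i) (q : ℕ) (hq : 1 ≤ q) : ∃ C : ℝ, 0 < C ∧
    ∀ (o : Fin (n + 1)) (B H A : ℕ), 1 ≤ B → 1 ≤ H → 8 * CC n d * H ^ 2 ≤ A →
    4 * q ^ (∑ i, d i) ≤ A →
    ∑ x ∈ GG B H q o, ∑ y ∈ GG B H q o, ∏ i, (n2 (d i) x y A : ℝ) ≤
      C * (A : ℝ) ^ VV n d * ((B : ℝ) ^ (n + 1) / ((A : ℝ) ^ r * (B : ℝ) ^ (∑ i, d i))
        + ((B : ℝ) ^ (n + 1) / ((A : ℝ) ^ r * (B : ℝ) ^ (∑ i, d i))) ^ 2 *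
            (1 + (H : ℝ) ^ (n + 1 + r) * (B : ℝ) ^ r / (B : ℝ) ^ n)) := by
  have hq0 : (0 : ℝ) < q := by exact_mod_cast hq
  obtain ⟨C0, hC0pos, hC0⟩ := psAll n r q hn hq
  refine ⟨3 ^ (n + 1) * 5 ^ VV n d * (2 ^ r * (q : ℝ) ^ (∑ i, d i) +
    64 ^ r * ((q : ℝ) ^ (∑ i, d i)) ^ 2 * C0), by positivity, ?_⟩
  intro o B H A hB hH hA hqA
  have hA1 : 1 ≤ A := by
    have : 1 ≤ q ^ (∑ i, d i) := Nat.one_le_pow _ _ (by omega)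
    omega
  have hA0 : (0 : ℝ) < A := by exact_mod_cast hA1
  have hB0 : (0 : ℝ) < B := by exact_mod_cast hB
  have hH0 : (0 : ℝ) < H := by exact_mod_cast hH
  set R : ℝ := (5 * (A : ℝ)) ^ VV n d *
      (2 ^ r * (q : ℝ) ^ (∑ i, d i) / ((A : ℝ) ^ r * (B : ℝ) ^ (∑ i, d i))
      + 64 ^ r * ((q : ℝ) ^ (∑ i, d i) / (B : ℝ) ^ (∑ i, d i)) ^ 2 *
        ((B : ℝ) ^ 2 / ((q : ℝ) * (A : ℝ) ^ 2)) ^ r *
        (C0 * ((B : ℝ) ^ (n + 1) / (B : ℝ) ^ (2 * r)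
        + (H : ℝ) ^ (n + 1 + r) * ((B : ℝ) / (B : ℝ) ^ r)))) with hR
  have hR0 : 0 ≤ R := by positivity
  have h1 : ∑ x ∈ GG B H q o, ∑ y ∈ GG B H q o, ∏ i, (n2 (d i) x y A : ℝ) ≤
      ((GG B H q o).card : ℝ) * R := by
    calc ∑ x ∈ GG B H q o, ∑ y ∈ GG B H q o, ∏ i, (n2 (d i) x y A : ℝ) ≤ ∑ _x ∈ GG B H q o, R :=
          Finset.sum_le_sum (fun x hx =>
            PairTot_row hr hn d hd o B H q A hB hH hq hA hqA C0 (hC0 B H o hB hH) x hx)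
      _ = _ := by rw [Finset.sum_const, nsmul_eq_mul]
  have h2 := Pool.Agent.Lib.MP_219881_nt.card_GG_le (B := B) (H := H) (q := q) (o := o) hB
  refine h1.trans ((mul_le_mul_of_nonneg_right h2 hR0).trans ?_)
  have e1 : 3 ^ (n + 1) * (B : ℝ) ^ (n + 1) * R =
      3 ^ (n + 1) * 5 ^ VV n d * (A : ℝ) ^ VV n d *
      (2 ^ r * (q : ℝ) ^ (∑ i, d i) *
          ((B : ℝ) ^ (n + 1) / ((A : ℝ) ^ r * (B : ℝ) ^ (∑ i, d i))) +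
        64 ^ r * ((q : ℝ) ^ (∑ i, d i)) ^ 2 * C0 * (1 / (q : ℝ) ^ r) *
          (((B : ℝ) ^ (n + 1) / ((A : ℝ) ^ r * (B : ℝ) ^ (∑ i, d i))) ^ 2 *
            (1 + (H : ℝ) ^ (n + 1 + r) * (B : ℝ) ^ r / (B : ℝ) ^ n))) := by
    have hb0 : (B : ℝ) ^ n ≠ 0 := (pow_pos hB0 n).ne'
    have hb1 : (B : ℝ) ^ r ≠ 0 := (pow_pos hB0 r).ne'
    have hb2 : (B : ℝ) ^ (∑ i, d i) ≠ 0 := (pow_pos hB0 _).ne'
    have hb3 : (A : ℝ) ^ r ≠ 0 := (pow_pos hA0 r).ne'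
    have hb4 : (q : ℝ) ^ r ≠ 0 := (pow_pos hq0 r).ne'
    have hb5 : ((B : ℝ) ^ 2 / ((q : ℝ) * (A : ℝ) ^ 2)) ^ r =
        ((B : ℝ) ^ r) ^ 2 / ((q : ℝ) ^ r * ((A : ℝ) ^ r) ^ 2) := by
      rw [div_pow, mul_pow, ← pow_mul, ← pow_mul, ← pow_mul, ← pow_mul, mul_comm 2 r]
    have hb6 : (B : ℝ) ^ (2 * r) = ((B : ℝ) ^ r) ^ 2 := by rw [← pow_mul, mul_comm 2 r]
    have hBne : (B : ℝ) ≠ 0 := hB0.ne'
    rw [hR, hb5, hb6, mul_pow 5 (A : ℝ), pow_succ (B : ℝ) n]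
    generalize (B : ℝ) ^ n = b at hb0 ⊢
    generalize (B : ℝ) ^ r = b1 at hb1 ⊢
    generalize (B : ℝ) ^ (∑ i, d i) = b2 at hb2 ⊢
    generalize (A : ℝ) ^ r = a1 at hb3 ⊢
    generalize (q : ℝ) ^ r = q1 at hb4 ⊢
    generalize (q : ℝ) ^ (∑ i, d i) = q2
    generalize (5 : ℝ) ^ VV n d = v5
    generalize (A : ℝ) ^ VV n d = vA
    generalize (H : ℝ) ^ (n + 1 + r) = hh
    generalize (3 : ℝ) ^ (n + 1) = v3
    generalize (2 : ℝ) ^ r = v2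
    generalize (64 : ℝ) ^ r = v64
    generalize (B : ℝ) = b3 at hBne ⊢
    field_simp
  rw [e1]
  have p1 : (0 : ℝ) ≤ (B : ℝ) ^ (n + 1) / ((A : ℝ) ^ r * (B : ℝ) ^ (∑ i, d i)) := by positivity
  have p2 : (0 : ℝ) ≤ ((B : ℝ) ^ (n + 1) / ((A : ℝ) ^ r * (B : ℝ) ^ (∑ i, d i))) ^ 2 *
            (1 + (H : ℝ) ^ (n + 1 + r) * (B : ℝ) ^ r / (B : ℝ) ^ n) := by positivity
  generalize (B : ℝ) ^ (n + 1) / ((A : ℝ) ^ r * (B : ℝ) ^ (∑ i, d i)) = s at p1 p2 ⊢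
  generalize s ^ 2 * (1 + (H : ℝ) ^ (n + 1 + r) * (B : ℝ) ^ r / (B : ℝ) ^ n) = t at p2 ⊢
  have p3 : (0 : ℝ) ≤ 2 ^ r * (q : ℝ) ^ (∑ i, d i) := by positivity
  have p4 : (0 : ℝ) ≤ 64 ^ r * ((q : ℝ) ^ (∑ i, d i)) ^ 2 * C0 := by positivity
  have p5 : 1 / (q : ℝ) ^ r ≤ 1 := by
    have hq1 : (1 : ℝ) ≤ q := by exact_mod_cast hq
    rw [div_le_one (pow_pos hq0 r)]
    exact one_le_pow₀ hq1
  have p6 : 0 ≤ 1 / (q : ℝ) ^ r := by positivity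
  generalize 2 ^ r * (q : ℝ) ^ (∑ i, d i) = a at p3 ⊢
  generalize 64 ^ r * ((q : ℝ) ^ (∑ i, d i)) ^ 2 * C0 = b at p4 ⊢
  generalize 1 / (q : ℝ) ^ r = c at p5 p6 ⊢
  have e2 : 3 ^ (n + 1) * 5 ^ VV n d * (a + b) * (A : ℝ) ^ VV n d * (s + t) =
      3 ^ (n + 1) * 5 ^ VV n d * (A : ℝ) ^ VV n d * ((a + b) * (s + t)) := by ring
  rw [e2]
  apply mul_le_mul_of_nonneg_left _ (by positivity)
  have e3 : (a + b) * (s + t) = (a * s + b * t) + (a * t + b * s) := by ring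
  rw [e3]
  have e4 : 0 ≤ a * t + b * s := by positivity
  have e5 : b * c * t ≤ b * t := by
    apply mul_le_mul_of_nonneg_right _ p2
    calc b * c ≤ b * 1 := mul_le_mul_of_nonneg_left p5 p4
      _ = b := mul_one b
  linarith

end Pool.Agent.Lib.MP_1ad228_ntF
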