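import Pool.Agent.Lib.MP_1ad228_ntF.MN_Par
import Pool.Agent.Lib.MP_1ad228_ntF.PairTot
import Pool.Agent.Lib.MP_1ad228_ntF.CN_Cnt
import Pool.Agent.Lib.MP_1ad228_ntF.MainDef
import Pool.Agent.Lib.MP_219881_nt.CN_Np
import Pool.Agent.Lib.MP_219881_nt.HG_Bad

/-!
JOB MN_Pos.  A positive proportion of the tuples has a common nonzero integer zero, main case. (Model: Lib/MP_219881_nt/MN_Pos.lean.)

`csPos` (Cauchy-Schwarz): `N(F) = ∑_{x ∈ GG} [∀ i, ev (F i) x = 0]`. Exchange sums: `∑_F N = ∑_{x ∈ GG} ∏ i, n1 (d i) x A`,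
`∑_F N^2 = ∑_{x, y ∈ GG} ∏ i, n2 (d i) x y A` (`Finset.prod_univ_sum`: the sum over `TBox` of a product of indicators). With `S = {F | N ≠ 0}`: `(∑ N)^2 ≤ S.card * ∑ N^2`. A tuple in `S` has a common zero
`x ∈ GG`, nonzero because it is `Uni`.

`manyU3` (`n ≥ 3`; model `manyU` in CN_Np.lean for `n ≥ 5`): the vectors with `B ≤ 2 x o`, `x o ≤ B` and `x l ∈ [1, B]` for `l ≠ o`: at least `B/2 * B^n`. Those which are not `Uni` have a divisor `e ∈ {2, .., B}` and for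
each `e` there are at most `(B/e)^(n+1)` of them: at most `B^(n+1) ∑_{e ≥ 2} e^(-(n+1))`, `e^(-(n+1)) ≤ e^(-4) ≤ (1/4) e^(-2)` and `∑_{e ≥ 2} e^(-2) ≤ 1`. So at least `(1/2 - 1/4) B^(n+1)` remain.

`posA`: `q = 2`, `o = 0`, `l = 4(n+r)+4`, constants `Cb` of `badX`, `C` of `pairTot` with `q = 2`. `gpar n r l ι .. 1 g0 (8 CC)` with `g0` such that for `g ≥ g0`, `B = g^(n l+1)`, `H = g^(l+2)`, `L = g^l`: the
hypotheses of `badX` hold (`1 ≤ L ≤ H`, `2^(n+1) L ≤ B`, `3^n (n+1) B ≤ H L^(n-1) = g^(n l+2)`) and `Cb B^n L^n = Cb B^(n+1)/g ≤ B^(n+1)/8`. By `manyU3` and `badX` `#GG B H 2 o ≥ B^(n+1)/8`. `A ≥ 4 * 2^D`.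
`E = B^ι/A^r` satisfies `2^(-D0) ≤ E ≤ 1`, `D0 = (n l+1) ι`. With `v = ∏ i, 3 (n+1)^(d i)` : `∑_{GG} ∏ n1 ≥ (B^(n+1)/8) A^V/(v A^r B^D) = E A^V/(8 v)` (`n1low`), `∑∑ ∏ n2 ≤ C A^V (E + E^2 (1 + 1)) ≤ 3 C A^V E`
(`pairTot`, `Hpow`). So `#S ≥ (E A^V/(8 v))^2/(3 C A^V E) = E A^V/(192 v^2 C) ≥ δ (2A+1)^V` with `δ = 2^(-D0) 3^(-V)/(192 v^2 C)`.
-/

namespace Pool.Agent.Lib.MP_1ad228_ntF

open Classical

private theorem MN_Pos_cnt {n r : ℕ} (d : Fin r → ℕ) (A : ℕ) (x : Vc n ℤ) :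
    ∑ F ∈ TBox n d A, (if ∀ i, ev (F i) x = 0 then (1 : ℝ) else 0) = ∏ i, (n1 (d i) x A : ℝ) := by
  have h : ((TBox n d A).filter fun F => ∀ i, ev (F i) x = 0) =
      Fintype.piFinset fun i => (Box n (d i) A).filter fun a => ev a x = 0 := by
    ext F
    simp only [TBox, Finset.mem_filter, Fintype.mem_piFinset, forall_and]
  rw [Finset.sum_boole, h, Fintype.card_piFinset]
  push_cast
  rfl

private theorem MN_Pos_cnt2 {n r : ℕ} (d : Fin r → ℕ) (A : ℕ) (x y : Vc n ℤ) :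
    ∑ F ∈ TBox n d A, (if ∀ i, ev (F i) x = 0 then (1 : ℝ) else 0) *
      (if ∀ i, ev (F i) y = 0 then (1 : ℝ) else 0) = ∏ i, (n2 (d i) x y A : ℝ) := by
  have h1 : ∀ F : Tup n d ℤ, (if ∀ i, ev (F i) x = 0 then (1 : ℝ) else 0) *
      (if ∀ i, ev (F i) y = 0 then (1 : ℝ) else 0) =
      if ∀ i, (ev (F i) x = 0 ∧ ev (F i) y = 0) then (1 : ℝ) else 0 := by
    intro F
    by_cases p1 : ∀ i, ev (F i) x = 0
    · by_cases p2 : ∀ i, ev (F i) y = 0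
      · rw [if_pos p1, if_pos p2, if_pos (fun i => ⟨p1 i, p2 i⟩), mul_one]
      · rw [if_neg p2, mul_zero, if_neg (fun h => p2 fun i => (h i).2)]
    · rw [if_neg p1, zero_mul, if_neg (fun h => p1 fun i => (h i).1)]
  have h : ((TBox n d A).filter fun F => ∀ i, (ev (F i) x = 0 ∧ ev (F i) y = 0)) =
      Fintype.piFinset fun i => (Box n (d i) A).filter fun a => ev a x = 0 ∧ ev a y = 0 := by
    ext F
    simp only [TBox, Finset.mem_filter, Fintype.mem_piFinset, forall_and]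
  rw [Finset.sum_congr rfl (fun F _ => h1 F), Finset.sum_boole, h, Fintype.card_piFinset]
  push_cast
  rfl

theorem csPos {n r : ℕ} (d : Fin r → ℕ) (B H q A : ℕ) (o : Fin (n + 1)) :
    (∑ x ∈ GG B H q o, ∏ i, (n1 (d i) x A : ℝ)) ^ 2 ≤
      (((TBox n d A).filter fun F => ∃ x : Vc n ℤ, x ≠ 0 ∧ ∀ i, ev (F i) x = 0).card : ℝ) *
        ∑ x ∈ GG B H q o, ∑ y ∈ GG B H q o, ∏ i, (n2 (d i) x y A : ℝ) := by
  obtain ⟨N, hN⟩ : ∃ N : Tup n d ℤ → ℝ, N = fun F => ∑ x ∈ GG B H q o,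
    (if ∀ i, ev (F i) x = 0 then (1 : ℝ) else 0) := ⟨_, rfl⟩
  have hs1 : ∑ F ∈ TBox n d A, N F = ∑ x ∈ GG B H q o, ∏ i, (n1 (d i) x A : ℝ) := by
    rw [hN, Finset.sum_comm]
    exact Finset.sum_congr rfl fun x _ => MN_Pos_cnt d A x
  have hs2 : ∑ F ∈ TBox n d A, (N F) ^ 2 =
      ∑ x ∈ GG B H q o, ∑ y ∈ GG B H q o, ∏ i, (n2 (d i) x y A : ℝ) := by
    have h1 : ∀ F : Tup n d ℤ, (N F) ^ 2 = ∑ x ∈ GG B H q o, ∑ y ∈ GG B H q o,
        (if ∀ i, ev (F i) x = 0 then (1 : ℝ) else 0) *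
        (if ∀ i, ev (F i) y = 0 then (1 : ℝ) else 0) := by
      intro F
      rw [hN, sq, Finset.sum_mul_sum]
    rw [Finset.sum_congr rfl (fun F _ => h1 F), Finset.sum_comm]
    refine Finset.sum_congr rfl fun x _ => ?_
    rw [Finset.sum_comm]
    exact Finset.sum_congr rfl fun y _ => MN_Pos_cnt2 d A x y
  obtain ⟨S0, hS0⟩ : ∃ S0 : Finset (Tup n d ℤ), S0 = (TBox n d A).filter fun F => N F ≠ 0 :=
    ⟨_, rfl⟩
  have hS0sub : S0 ⊆ ((TBox n d A).filter fun F => ∃ x : Vc n ℤ, x ≠ 0 ∧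
      ∀ i, ev (F i) x = 0) := by
    intro F hF
    rw [hS0, Finset.mem_filter] at hF
    rw [Finset.mem_filter]
    refine ⟨hF.1, ?_⟩
    have h1 : ∃ x ∈ GG B H q o, (if ∀ i, ev (F i) x = 0 then (1 : ℝ) else 0) ≠ 0 := by
      apply Finset.exists_ne_zero_of_sum_ne_zero
      have := hF.2
      rw [hN] at this
      exact this
    obtain ⟨x, hx, hne⟩ := h1
    have h2 : ∀ i, ev (F i) x = 0 := by
      by_contra h
      rw [if_neg h] at hne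
      exact hne rfl
    refine ⟨x, ?_, h2⟩
    intro h0
    unfold Pool.Agent.Lib.MP_219881_nt.GG at hx
    rw [Finset.mem_filter] at hx
    obtain ⟨u, hu⟩ := hx.2.2.1
    rw [h0] at hu
    simp [lin] at hu
  have hsum : ∑ F ∈ TBox n d A, N F = ∑ F ∈ S0, N F := by
    rw [hS0, Finset.sum_filter_ne_zero]
  have hsumsq : ∑ F ∈ S0, (N F) ^ 2 ≤ ∑ F ∈ TBox n d A, (N F) ^ 2 := by
    apply Finset.sum_le_sum_of_subset_of_nonneg
    · rw [hS0]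
      exact Finset.filter_subset _ _
    · intro F _ _
      exact sq_nonneg _
  rw [← hs1, ← hs2, hsum]
  calc (∑ F ∈ S0, N F) ^ 2 ≤ (S0.card : ℝ) * ∑ F ∈ S0, (N F) ^ 2 := sq_sum_le_card_mul_sum_sq
    _ ≤ (S0.card : ℝ) * ∑ F ∈ TBox n d A, (N F) ^ 2 :=
        mul_le_mul_of_nonneg_left hsumsq (Nat.cast_nonneg _)
    _ ≤ _ := by
        apply mul_le_mul_of_nonneg_right
        · exact_mod_cast Finset.card_le_card hS0sub
        · exact Finset.sum_nonneg fun F _ => sq_nonneg _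

private theorem MN_Pos_half (B : ℕ) (hB : 1 ≤ B) :
    (B : ℝ) / 2 ≤ (((Finset.Icc (1 : ℤ) (B : ℤ)).filter fun z => (B : ℤ) ≤ 2 * z).card : ℝ) := by
  have h1 : Finset.Icc (((B + 1) / 2 : ℕ) : ℤ) (B : ℤ) ⊆
      (Finset.Icc (1 : ℤ) (B : ℤ)).filter fun z => (B : ℤ) ≤ 2 * z := by
    intro z hz
    rw [Finset.mem_Icc] at hz
    rw [Finset.mem_filter, Finset.mem_Icc]
    omega
  have h2 : (Finset.Icc (((B + 1) / 2 : ℕ) : ℤ) (B : ℤ)).card = B + 1 - (B + 1) / 2 := by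
    rw [Int.card_Icc]
    omega
  have h3 : B ≤ 2 * (B + 1 - (B + 1) / 2) := by omega
  have h4 := Finset.card_le_card h1
  rw [h2] at h4
  have h5 : B ≤ 2 * ((Finset.Icc (1 : ℤ) (B : ℤ)).filter fun z => (B : ℤ) ≤ 2 * z).card := by omega
  have h6 : (B : ℝ) ≤ 2 * (((Finset.Icc (1 : ℤ) (B : ℤ)).filter
      fun z => (B : ℤ) ≤ 2 * z).card : ℝ) := by exact_mod_cast h5
  linarith

private theorem MN_Pos_mult (B d : ℕ) (hd : 1 ≤ d) :
    (((Finset.Icc (1 : ℤ) (B : ℤ)).filter fun z => (d : ℤ) ∣ z).card : ℝ) ≤ (B : ℝ) / d := by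
  have hd0 : (0 : ℝ) < d := by exact_mod_cast hd
  have hdz : (0 : ℤ) < d := by exact_mod_cast hd
  have h1 : ((Finset.Icc (1 : ℤ) (B : ℤ)).filter fun z => (d : ℤ) ∣ z).card ≤
      (Finset.Icc (1 : ℤ) ((B / d : ℕ) : ℤ)).card := by
    refine Finset.card_le_card_of_injOn (fun z => z / (d : ℤ)) ?_ ?_
    · intro z hz
      rw [Finset.mem_coe, Finset.mem_filter, Finset.mem_Icc] at hz
      obtain ⟨⟨hz1, hz2⟩, t, rfl⟩ := hz
      rw [Finset.mem_coe, Finset.mem_Icc]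
      show 1 ≤ (d : ℤ) * t / d ∧ (d : ℤ) * t / d ≤ ((B / d : ℕ) : ℤ)
      rw [Int.mul_ediv_cancel_left _ hdz.ne']
      constructor
      · by_contra hcon
        push Not at hcon
        have : (d : ℤ) * t ≤ 0 := mul_nonpos_of_nonneg_of_nonpos hdz.le (by omega)
        omega
      · rw [Int.natCast_div, Int.le_ediv_iff_mul_le hdz, mul_comm]
        exact hz2
    · intro z hz z' hz' heq
      rw [Finset.mem_coe, Finset.mem_filter] at hz hz'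
      obtain ⟨_, t, rfl⟩ := hz
      obtain ⟨_, t', rfl⟩ := hz'
      have h2 : (d : ℤ) * t / d = (d : ℤ) * t' / d := heq
      rw [Int.mul_ediv_cancel_left _ hdz.ne', Int.mul_ediv_cancel_left _ hdz.ne'] at h2
      rw [h2]
  have h2 : (Finset.Icc (1 : ℤ) ((B / d : ℕ) : ℤ)).card = B / d := by
    rw [Int.card_Icc]
    generalize B / d = k
    omega
  rw [h2] at h1
  calc (((Finset.Icc (1 : ℤ) (B : ℤ)).filter fun z => (d : ℤ) ∣ z).card : ℝ)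
      ≤ ((B / d : ℕ) : ℝ) := by exact_mod_cast h1
    _ ≤ (B : ℝ) / d := Nat.cast_div_le

theorem manyU3 (n B : ℕ) (hn : 3 ≤ n) (o : Fin (n + 1)) :
    (B : ℝ) ^ (n + 1) / 4 ≤
      (((VBox n B).filter fun x => (B : ℤ) ≤ 2 * x o ∧ Uni x).card : ℝ) := by
  rcases Nat.eq_zero_or_pos B with hB | hB
  · rw [hB]
    simp
  have hB0 : (0 : ℝ) < B := by exact_mod_cast hB
  obtain ⟨T, hT⟩ : ∃ T : Finset (Vc n ℤ), T = Fintype.piFinset fun l : Fin (n + 1) =>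
    if l = o then (Finset.Icc (1 : ℤ) (B : ℤ)).filter fun z => (B : ℤ) ≤ 2 * z
      else Finset.Icc (1 : ℤ) (B : ℤ) := ⟨_, rfl⟩
  have hTm : ∀ x ∈ T, (∀ l, 1 ≤ x l ∧ x l ≤ (B : ℤ)) ∧ (B : ℤ) ≤ 2 * x o := by
    intro x hx
    rw [hT, Fintype.mem_piFinset] at hx
    constructor
    · intro l
      have h1 := hx l
      split_ifs at h1 with hl
      · rw [Finset.mem_filter, Finset.mem_Icc] at h1
        exact h1.1
      · rw [Finset.mem_Icc] at h1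
        exact h1
    · have h1 := hx o
      rw [if_pos rfl, Finset.mem_filter] at h1
      exact h1.2
  have hTc : (B : ℝ) ^ (n + 1) / 2 ≤ (T.card : ℝ) := by
    rw [hT, Fintype.card_piFinset]
    push_cast
    rw [← Finset.mul_prod_erase Finset.univ _ (Finset.mem_univ o), if_pos rfl]
    have h1 : ∏ l ∈ Finset.univ.erase o, (((if l = o then
        (Finset.Icc (1 : ℤ) (B : ℤ)).filter fun z => (B : ℤ) ≤ 2 * z
          else Finset.Icc (1 : ℤ) (B : ℤ)) : Finset ℤ).card : ℝ) = (B : ℝ) ^ n := by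
      have h2 : ∀ l ∈ Finset.univ.erase o, (((if l = o then
          (Finset.Icc (1 : ℤ) (B : ℤ)).filter fun z => (B : ℤ) ≤ 2 * z
            else Finset.Icc (1 : ℤ) (B : ℤ)) : Finset ℤ).card : ℝ) = (B : ℝ) := by
        intro l hl
        rw [if_neg (Finset.ne_of_mem_erase hl), Int.card_Icc]
        have : ((B : ℤ) + 1 - 1).toNat = B := by omega
        rw [this]
      rw [Finset.prod_congr rfl h2, Finset.prod_const, Finset.card_erase_of_mem (Finset.mem_univ o),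
        Finset.card_univ, Fintype.card_fin, Nat.add_sub_cancel]
    rw [h1, pow_succ]
    have h3 := MN_Pos_half B hB
    have h4 : (0 : ℝ) ≤ (B : ℝ) ^ n := by positivity
    have h5 := mul_le_mul_of_nonneg_right h3 h4
    linarith
  have hsub : T ⊆ ((VBox n B).filter fun x => (B : ℤ) ≤ 2 * x o ∧ Uni x) ∪
      (Finset.Ioc 1 B).biUnion fun d => Fintype.piFinset fun _ : Fin (n + 1) =>
        (Finset.Icc (1 : ℤ) (B : ℤ)).filter fun z => (d : ℤ) ∣ z := by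
    intro x hx
    obtain ⟨h1, h2⟩ := hTm x hx
    have hV : x ∈ VBox n B := by
      rw [mem_VBox]
      intro l
      obtain ⟨h3, h4⟩ := h1 l
      rw [abs_of_nonneg (by linarith)]
      exact h4
    rw [Finset.mem_union]
    by_cases hu : Uni x
    · left
      rw [Finset.mem_filter]
      exact ⟨hV, h2, hu⟩
    · right
      have hx0 : x ≠ 0 := by
        intro h0
        have h3 := (h1 o).1
        rw [h0] at h3
        simp at h3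
      obtain ⟨d, hd2, hd⟩ := Pool.Agent.Lib.MP_219881_nt.nonUni x hx0 hu
      rw [Finset.mem_biUnion]
      refine ⟨d, ?_, ?_⟩
      · rw [Finset.mem_Ioc]
        refine ⟨by omega, ?_⟩
        have h3 : (d : ℤ) ≤ x o := Int.le_of_dvd (by linarith [(h1 o).1]) (hd o)
        exact_mod_cast h3.trans (h1 o).2
      · rw [Fintype.mem_piFinset]
        intro l
        rw [Finset.mem_filter, Finset.mem_Icc]
        exact ⟨h1 l, hd l⟩
  have hcard : (T.card : ℝ) ≤ (((VBox n B).filter fun x => (B : ℤ) ≤ 2 * x o ∧ Uni x).card : ℝ) +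
      ∑ d ∈ Finset.Ioc 1 B, ((Fintype.piFinset fun _ : Fin (n + 1) =>
        (Finset.Icc (1 : ℤ) (B : ℤ)).filter fun z => (d : ℤ) ∣ z).card : ℝ) := by
    have h1 := (Finset.card_le_card hsub).trans ((Finset.card_union_le _ _).trans
      (Nat.add_le_add_left Finset.card_biUnion_le _))
    exact_mod_cast h1
  have hd : ∀ d ∈ Finset.Ioc 1 B, ((Fintype.piFinset fun _ : Fin (n + 1) =>
      (Finset.Icc (1 : ℤ) (B : ℤ)).filter fun z => (d : ℤ) ∣ z).card : ℝ) ≤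
        (B : ℝ) ^ (n + 1) / 4 * ((d : ℝ) ^ 2)⁻¹ := by
    intro d hd
    rw [Finset.mem_Ioc] at hd
    have hd2 : (2 : ℝ) ≤ d := by exact_mod_cast hd.1
    have hd0 : (0 : ℝ) < d := by linarith
    rw [Fintype.card_piFinset, Finset.prod_const, Finset.card_univ, Fintype.card_fin]
    push_cast
    have h1 := MN_Pos_mult B d (by omega)
    calc (((Finset.Icc (1 : ℤ) (B : ℤ)).filter fun z => (d : ℤ) ∣ z).card : ℝ) ^ (n + 1)
        ≤ ((B : ℝ) / d) ^ (n + 1) := pow_le_pow_left₀ (Nat.cast_nonneg _) h1 _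
      _ = (B : ℝ) ^ (n + 1) * ((d : ℝ) ^ (n + 1))⁻¹ := by rw [div_pow, div_eq_mul_inv]
      _ ≤ (B : ℝ) ^ (n + 1) * (4 * (d : ℝ) ^ 2)⁻¹ := by
          apply mul_le_mul_of_nonneg_left _ (by positivity)
          apply inv_anti₀ (by positivity)
          have h2 : (4 : ℝ) ≤ (d : ℝ) ^ 2 := by
            calc (4 : ℝ) = 2 ^ 2 := by norm_num
              _ ≤ (d : ℝ) ^ 2 := pow_le_pow_left₀ (by norm_num) hd2 2
          calc 4 * (d : ℝ) ^ 2 ≤ (d : ℝ) ^ 2 * (d : ℝ) ^ 2 :=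
                mul_le_mul_of_nonneg_right h2 (by positivity)
            _ = (d : ℝ) ^ 4 := by ring
            _ ≤ (d : ℝ) ^ (n + 1) := pow_le_pow_right₀ (by linarith) (by omega)
      _ = (B : ℝ) ^ (n + 1) / 4 * ((d : ℝ) ^ 2)⁻¹ := by
          rw [mul_inv]
          ring
  have hs : ∑ d ∈ Finset.Ioc 1 B, ((d : ℝ) ^ 2)⁻¹ ≤ 1 := by
    have h5 := sum_Ioc_inv_sq_le_sub (α := ℝ) (one_ne_zero : (1 : ℕ) ≠ 0) hB
    have h6 : (0 : ℝ) ≤ (B : ℝ)⁻¹ := by positivity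
    rw [Nat.cast_one, inv_one] at h5
    linarith
  have h1 := Finset.sum_le_sum hd
  rw [← Finset.mul_sum] at h1
  have h2 : (B : ℝ) ^ (n + 1) / 4 * ∑ d ∈ Finset.Ioc 1 B, ((d : ℝ) ^ 2)⁻¹ ≤
      (B : ℝ) ^ (n + 1) / 4 * 1 := mul_le_mul_of_nonneg_left hs (by positivity)
  have h3 : (0 : ℝ) ≤ (B : ℝ) ^ (n + 1) := by positivity
  linarith

private theorem MN_Pos_GG (n l : ℕ) (hn : 3 ≤ n) (hl : 1 ≤ l) : ∃ g1 : ℕ, ∀ g ≥ g1, ∀ B H : ℕ, B = g ^ (n * l + 1) → H = g ^ (l + 2) →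
    (B : ℝ) ^ (n + 1) / 8 ≤ ((GG B H 2 (0 : Fin (n + 1))).card : ℝ) := by
  obtain ⟨Cb, hCb, hbad⟩ := Pool.Agent.Lib.MP_219881_nt.badX n (by omega)
  obtain ⟨p2, hp2⟩ : ∃ p : ℕ, p = 2 ^ (n + 1) := ⟨_, rfl⟩
  obtain ⟨p3, hp3⟩ : ∃ p : ℕ, p = 3 ^ n * (n + 1) := ⟨_, rfl⟩
  refine ⟨⌈8 * Cb⌉₊ + p3 + p2 + 1, fun g hg B H hB hH => ?_⟩
  have hg1 : 1 ≤ g := by omega
  have hg1r : (1 : ℝ) ≤ g := by exact_mod_cast hg1
  have hg8 : 8 * Cb ≤ (g : ℝ) := by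
    have h1 := Nat.le_ceil (8 * Cb)
    have h2 : ((⌈8 * Cb⌉₊ : ℕ) : ℝ) ≤ (g : ℝ) := by
      have : ⌈8 * Cb⌉₊ ≤ g := by omega
      exact_mod_cast this
    linarith
  have hg3 : 3 ^ n * (n + 1) ≤ g := by rw [← hp3]; omega
  have hg2 : 2 ^ (n + 1) ≤ g := by rw [← hp2]; omega
  have hb := hbad B H (g ^ l) (Nat.one_le_pow _ _ hg1) (by
      rw [hH]; exact Nat.pow_le_pow_right hg1 (by omega)) (by
      rw [hB]
      calc 2 ^ (n + 1) * g ^ l ≤ g * g ^ l := Nat.mul_le_mul_right _ hg2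
        _ = g ^ (l + 1) := by ring
        _ ≤ g ^ (n * l + 1) := Nat.pow_le_pow_right hg1 (by nlinarith)) (by
      rw [hB, hH]
      have h1 : g ^ (l + 2) * (g ^ l) ^ (n - 1) = g * g ^ (n * l + 1) := by
        obtain ⟨m, rfl⟩ : ∃ m, n = m + 1 := ⟨n - 1, by omega⟩
        rw [← pow_mul, ← pow_add, ← pow_succ', Nat.add_sub_cancel]
        have h2 : l + 2 + l * m = (m + 1) * l + 1 + 1 := by ring
        rw [h2]
      rw [h1]
      exact Nat.mul_le_mul_right _ hg3)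
  have hmany := manyU3 n B hn (0 : Fin (n + 1))
  have hBg : (B : ℝ) = (g : ℝ) ^ (n * l) * g := by
    rw [hB]
    push_cast
    rw [pow_succ]
  have hB0 : (0 : ℝ) < B := by
    rw [hBg]
    positivity
  have hbound : Cb * (B : ℝ) ^ n * (((g ^ l : ℕ) : ℝ)) ^ n ≤ (B : ℝ) ^ (n + 1) / 8 := by
    have h1 : (((g ^ l : ℕ) : ℝ)) ^ n = (g : ℝ) ^ (n * l) := by
      push_cast
      rw [← pow_mul, mul_comm l n]
    rw [h1, pow_succ]
    have h2 : Cb * (B : ℝ) ^ n * (g : ℝ) ^ (n * l) = (B : ℝ) ^ n * (g : ℝ) ^ (n * l) * Cb := by ring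
    rw [h2]
    have h3 : (B : ℝ) ^ n * B / 8 = (B : ℝ) ^ n * (g : ℝ) ^ (n * l) * (g / 8) := by
      nth_rewrite 2 [hBg]
      ring
    rw [h3]
    apply mul_le_mul_of_nonneg_left _ (by positivity)
    linarith
  have hsub : ((VBox n B).filter fun x => (B : ℤ) ≤ 2 * x 0 ∧ Uni x) ⊆
      GG B H 2 (0 : Fin (n + 1)) ∪ ((VBox n B).filter fun x => ¬ HGood H x) := by
    intro x hx
    rw [Finset.mem_filter] at hx
    rw [Finset.mem_union]
    by_cases h : HGood H x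
    · left
      unfold GG
      rw [Finset.mem_filter]
      exact ⟨hx.1, by exact_mod_cast hx.2.1, hx.2.2, h⟩
    · right
      rw [Finset.mem_filter]
      exact ⟨hx.1, h⟩
  have hcard := (Finset.card_le_card hsub).trans (Finset.card_union_le _ _)
  have hcard' : (((VBox n B).filter fun x => (B : ℤ) ≤ 2 * x 0 ∧ Uni x).card : ℝ) ≤
      ((GG B H 2 (0 : Fin (n + 1))).card : ℝ) + (((VBox n B).filter fun x => ¬ HGood H x).card : ℝ) := by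
    exact_mod_cast hcard
  linarith

private theorem MN_Pos_ar (S N1 N2 A2 E C v : ℝ) (hE : 0 < E) (hE1 : E ≤ 1) (hC : 0 < C)
    (hv : 0 < v) (hA2 : 0 < A2)
    (hN1 : E * A2 / (8 * v) ≤ N1) (hN2 : N2 ≤ C * A2 * (E + E ^ 2 * 2)) (hcs : N1 ^ 2 ≤ S * N2)
    (hS : 0 ≤ S) : E * A2 / (192 * v ^ 2 * C) ≤ S := by
  have h1 : N2 ≤ C * A2 * (3 * E) := by
    refine hN2.trans (mul_le_mul_of_nonneg_left ?_ (by positivity))
    nlinarith
  have h2 : (E * A2 / (8 * v)) ^ 2 ≤ S * (C * A2 * (3 * E)) :=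
    (pow_le_pow_left₀ (by positivity) hN1 2).trans (hcs.trans (mul_le_mul_of_nonneg_left h1 hS))
  have h3 : (E * A2 / (192 * v ^ 2 * C)) * (C * A2 * (3 * E)) = (E * A2 / (8 * v)) ^ 2 := by
    field_simp
    ring
  rw [← h3] at h2
  exact le_of_mul_le_mul_right h2 (by positivity)

private theorem MN_Pos_prod {n r : ℕ} (d : Fin r → ℕ) (A B : ℕ) :
    ∏ i, ((A : ℝ) ^ (n + 1) ^ d i / (3 * ((n : ℝ) + 1) ^ d i * A * (B : ℝ) ^ d i)) =
      (A : ℝ) ^ VV n d / ((∏ i, (3 * ((n : ℝ) + 1) ^ d i)) * ((A : ℝ) ^ r * (B : ℝ) ^ (∑ i, d i))) := by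
  have h1 : ∏ i, ((3 * ((n : ℝ) + 1) ^ d i) * (A : ℝ) * (B : ℝ) ^ d i) =
      (∏ i, (3 * ((n : ℝ) + 1) ^ d i)) * (A : ℝ) ^ r * (B : ℝ) ^ (∑ i, d i) := by
    rw [Finset.prod_mul_distrib, Finset.prod_mul_distrib, Finset.prod_const, Finset.card_univ,
      Fintype.card_fin, Finset.prod_pow_eq_pow_sum]
  rw [Finset.prod_div_distrib, Finset.prod_pow_eq_pow_sum, h1, mul_assoc]
  rfl

theorem posA {r : ℕ} (hr : 1 ≤ r) (n : ℕ) (hn : r + 2 ≤ n) (d : Fin r → ℕ) (hd : ∀ i, 2 ≤ d i)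
    (hD : ∑ i, d i ≤ n) (h2 : 2 * r < n * (n + 1 - ∑ i, d i)) : PosP n d := by
  obtain ⟨D, hDd⟩ : ∃ D : ℕ, D = ∑ i, d i := ⟨_, rfl⟩
  obtain ⟨ι, hιd⟩ : ∃ ι : ℕ, ι = n + 1 - D := ⟨_, rfl⟩
  obtain ⟨l, hl⟩ : ∃ l : ℕ, l = 4 * (n + r) + 4 := ⟨_, rfl⟩
  rw [← hDd] at hD h2
  rw [← hιd] at h2
  have hι : 1 ≤ ι := by omega
  have hl2 := lpar n r ι l hι h2 hl
  obtain ⟨g1, hg1⟩ := MN_Pos_GG n l (by omega) (by omega)
  obtain ⟨C, hC, hpt⟩ := pairTot hr n hn d hd 2 (by norm_num)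
  obtain ⟨A1, hA1⟩ := gpar n r l ι hr hι hl2 1 le_rfl g1 (8 * CC n d)
  obtain ⟨v, hvd⟩ : ∃ v : ℝ, v = ∏ i, (3 * ((n : ℝ) + 1) ^ d i) := ⟨_, rfl⟩
  have hv : 0 < v := by
    rw [hvd]
    exact Finset.prod_pos fun i _ => by positivity
  obtain ⟨V, hV⟩ : ∃ V : ℕ, V = VV n d := ⟨_, rfl⟩
  refine ⟨(1 / 2 ^ ((n * l + 1) * ι)) / (192 * v ^ 2 * C) / 3 ^ V, by positivity,
    A1 + 4 * 2 ^ (∑ i, d i), fun A hA => ?_⟩
  obtain ⟨g, hgg, hgg1, hA0, hgM, hMg, hcA⟩ := hA1 A (by omega)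
  rw [one_mul] at hgM hMg
  have hA0r : (0 : ℝ) < A := by exact_mod_cast hA0
  obtain ⟨B, hB⟩ : ∃ B : ℕ, B = g ^ (n * l + 1) := ⟨_, rfl⟩
  obtain ⟨H, hH⟩ : ∃ H : ℕ, H = g ^ (l + 2) := ⟨_, rfl⟩
  rw [← hB] at hgM hMg
  rw [← hH] at hcA
  have hB1 : 1 ≤ B := by rw [hB]; exact Nat.one_le_pow _ _ hgg
  have hH1 : 1 ≤ H := by rw [hH]; exact Nat.one_le_pow _ _ hgg
  have hB0r : (0 : ℝ) < B := by exact_mod_cast hB1
  have hg0r : (0 : ℝ) < g := by exact_mod_cast hgg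
  have hG := hg1 g hgg1 B H hB hH
  have hp := hpt (0 : Fin (n + 1)) B H A hB1 hH1 hcA (by omega)
  have hcs := csPos d B H 2 A (0 : Fin (n + 1))
  rw [← hDd, ← hV] at hp
  have hEeq := EEq n r D A B (by omega) hA0 hB1
  rw [← hιd] at hEeq
  obtain ⟨E, hE⟩ : ∃ E : ℝ, E = (B : ℝ) ^ (n + 1) / ((A : ℝ) ^ r * (B : ℝ) ^ D) := ⟨_, rfl⟩
  rw [← hE] at hp hEeq
  have hEpos : 0 < E := by rw [hE]; positivity
  have hE1 : E ≤ 1 := by
    rw [hEeq, div_le_one (by positivity)]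
    exact_mod_cast hgM
  have hElow : 1 / 2 ^ ((n * l + 1) * ι) ≤ E := by
    rw [hEeq, div_le_div_iff₀ (by positivity) (by positivity), one_mul]
    have : (A : ℝ) ^ r ≤ 2 ^ ((n * l + 1) * ι) * (B : ℝ) ^ ι := by exact_mod_cast hMg
    linarith
  have hHp : (H : ℝ) ^ (n + 1 + r) * (B : ℝ) ^ r / (B : ℝ) ^ n ≤ 1 := by
    refine (Hpow n r l g B H hn hl hgg hB hH).trans ?_
    rw [div_le_one hg0r]
    exact_mod_cast hgg
  -- lower bound of the first moment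
  have hN1 : E * (A : ℝ) ^ V / (8 * v) ≤
      ∑ x ∈ GG B H 2 (0 : Fin (n + 1)), ∏ i, (n1 (d i) x A : ℝ) := by
    have h1 : ∀ x ∈ GG B H 2 (0 : Fin (n + 1)),
        (A : ℝ) ^ V / (v * ((A : ℝ) ^ r * (B : ℝ) ^ D)) ≤ ∏ i, (n1 (d i) x A : ℝ) := by
      intro x hx
      unfold Pool.Agent.Lib.MP_219881_nt.GG at hx
      rw [Finset.mem_filter] at hx
      rw [hV, hvd, hDd, ← MN_Pos_prod (n := n) d A B]
      exact Finset.prod_le_prod (fun i _ => by positivity) fun i _ => n1low (d i) A B hA0 hB1 x hx.1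
    have h2 := Finset.sum_le_sum h1
    rw [Finset.sum_const, nsmul_eq_mul] at h2
    refine le_trans ?_ h2
    calc E * (A : ℝ) ^ V / (8 * v)
        = (B : ℝ) ^ (n + 1) / 8 * ((A : ℝ) ^ V / (v * ((A : ℝ) ^ r * (B : ℝ) ^ D))) := by
          rw [hE]
          field_simp
      _ ≤ _ := mul_le_mul_of_nonneg_right hG (by positivity)
  have hN2 : ∑ x ∈ GG B H 2 (0 : Fin (n + 1)), ∑ y ∈ GG B H 2 (0 : Fin (n + 1)),
      ∏ i, (n2 (d i) x y A : ℝ) ≤ C * (A : ℝ) ^ V * (E + E ^ 2 * 2) := by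
    refine hp.trans ?_
    apply mul_le_mul_of_nonneg_left _ (by positivity)
    have := mul_le_mul_of_nonneg_left
      (show (1 + (H : ℝ) ^ (n + 1 + r) * (B : ℝ) ^ r / (B : ℝ) ^ n) ≤ 2 by linarith)
      (show (0 : ℝ) ≤ E ^ 2 by positivity)
    linarith
  have hfin := MN_Pos_ar _ _ _ ((A : ℝ) ^ V) E C v hEpos hE1 hC hv (by positivity) hN1 hN2 hcs
    (Nat.cast_nonneg _)
  rw [← hV]
  refine le_trans ?_ hfin
  have h3A : (2 * (A : ℝ) + 1) ^ V ≤ 3 ^ V * (A : ℝ) ^ V := by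
    rw [← mul_pow]
    apply pow_le_pow_left₀ (by positivity)
    have : (1 : ℝ) ≤ A := by exact_mod_cast hA0
    linarith
  calc (1 / 2 ^ ((n * l + 1) * ι)) / (192 * v ^ 2 * C) / 3 ^ V * (2 * (A : ℝ) + 1) ^ V
      ≤ (1 / 2 ^ ((n * l + 1) * ι)) / (192 * v ^ 2 * C) / 3 ^ V * (3 ^ V * (A : ℝ) ^ V) :=
        mul_le_mul_of_nonneg_left h3A (by positivity)
    _ = (1 / 2 ^ ((n * l + 1) * ι)) * ((A : ℝ) ^ V / (192 * v ^ 2 * C)) := by
        field_simp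
    _ ≤ E * ((A : ℝ) ^ V / (192 * v ^ 2 * C)) :=
        mul_le_mul_of_nonneg_right hElow (by positivity)
    _ = _ := by ring

end Pool.Agent.Lib.MP_1ad228_ntF
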