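import Pool.Agent.Lib.MP_1ad228_ntF.MN_Par
import Pool.Agent.Lib.MP_1ad228_ntF.MN_Pos
import Pool.Agent.Lib.MP_1ad228_ntF.B_Tot
import Pool.Agent.Lib.MP_1ad228_ntF.B_Bad

/-!
JOB B_Pos.  A positive proportion of the r-tuples of quadratic tensors in `2r + 1` variables has a common nonzero integer zero. (Model: `posA` in MN_Pos.lean.)

PROOF.  `n = 2 r`, `d = fun _ => 2`, `D = ∑ d = 2 r`, `V = VV n d`, `q = 2`, `o = 0`. `badB n`: `Cb`; `s ≥ 1` with `Cb/s^n ≤ 1/8`; `h = 3^n (n+1) s^(n-1)`; `lam = 8 cc n 2 h^2 + 1`; `pairTotB` with `q = 2` and `lam`: `C`.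
For `A` large let `g = Nat.sqrt A`: `g^2 ≤ A < (g+1)^2 ≤ 4 g^2`, `B = g^n`, `H = h g`. `#GG B H 2 o ≥ B^(n+1)/4 - B^(n+1)/8` (`manyU3`, `badB`). `8 cc H^2 ≤ lam A`, `8 CC H ≤ A` for `A` large, `16 ≤ A`.
`E = B^(n+1)/(A^r B^(2r)) = B/A^r = (g^2/A)^r` satisfies `(1/4)^r ≤ E ≤ 1`. `∑_{GG} ∏ n1 ≥ (B^(n+1)/8) * (A^((n+1)^2)/(3 (n+1)^2 A B^2))^r = E A^V/(8 v)`, `v = (3 (n+1)^2)^r` (`n1low`).
`∑∑ (n2)^r ≤ C A^V (E + E^2 (1 + H^(n+1+r) B^r/B^n))` and `H^(n+1+r) B^r/B^n = h^(3r+1) g^(3r+1-2r^2) ≤ h^(3r+1)/g ≤ 1` for `g ≥ h^(3r+1)` (`r ≥ 2`). So it is `≤ 3 C A^V E`. `csPos` :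
`#S ≥ (E A^V/(8v))^2/(3 C A^V E) = E A^V/(192 v^2 C) ≥ δ (2A+1)^V` with `δ = (1/4)^r 3^(-V)/(192 v^2 C)`.
-/

namespace Pool.Agent.Lib.MP_1ad228_ntF

open Classical

private theorem B_Pos_GG (n : ℕ) (hn : 3 ≤ n) : ∃ h : ℕ, 1 ≤ h ∧ ∃ g0 : ℕ, ∀ g ≥ g0,
    ∀ B H : ℕ, B = g ^ n → H = h * g →
    (B : ℝ) ^ (n + 1) / 8 ≤ ((GG B H 2 (0 : Fin (n + 1))).card : ℝ) := by
  obtain ⟨Cb, hCb, hbad⟩ := badB n (by omega)
  obtain ⟨s, hs⟩ : ∃ s : ℕ, s = ⌈8 * Cb⌉₊ + 1 := ⟨_, rfl⟩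
  have hs1 : 1 ≤ s := by omega
  have hs1r : (1 : ℝ) ≤ s := by exact_mod_cast hs1
  have hs8 : 8 * Cb ≤ (s : ℝ) ^ n := by
    have h1 := Nat.le_ceil (8 * Cb)
    have h2 : ((⌈8 * Cb⌉₊ : ℕ) : ℝ) ≤ (s : ℝ) := by
      have : ⌈8 * Cb⌉₊ ≤ s := by omega
      exact_mod_cast this
    have h3 : (s : ℝ) ≤ (s : ℝ) ^ n := le_self_pow₀ hs1r (by omega)
    linarith
  obtain ⟨g0, hg0⟩ := hbad s hs1
  refine ⟨3 ^ n * (n + 1) * s ^ (n - 1), Nat.one_le_iff_ne_zero.mpr (by positivity), g0,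
    fun g hg B H hB hH => ?_⟩
  have hb := hg0 g hg B H hB (le_of_eq hH.symm)
  have hmany := manyU3 n B hn (0 : Fin (n + 1))
  have hbound : Cb * (B : ℝ) ^ (n + 1) / (s : ℝ) ^ n ≤ (B : ℝ) ^ (n + 1) / 8 := by
    rw [div_le_div_iff₀ (by positivity) (by norm_num)]
    have h1 : (0 : ℝ) ≤ (B : ℝ) ^ (n + 1) := by positivity
    have h2 := mul_le_mul_of_nonneg_left hs8 h1
    linarith
  have hsub : ((VBox n B).filter fun x => (B : ℤ) ≤ 2 * x 0 ∧ Uni x) ⊆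
      GG B H 2 (0 : Fin (n + 1)) ∪ ((VBox n B).filter fun x => ¬ HGood H x) := by
    intro x hx
    rw [Finset.mem_filter] at hx
    rw [Finset.mem_union]
    by_cases h : HGood H x
    · left
      unfold Pool.Agent.Lib.MP_219881_nt.GG
      rw [Finset.mem_filter]
      exact ⟨hx.1, by exact_mod_cast hx.2.1, hx.2.2, h⟩
    · right
      rw [Finset.mem_filter]
      exact ⟨hx.1, h⟩
  have hcard := (Finset.card_le_card hsub).trans (Finset.card_union_le _ _)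
  have hcard' : (((VBox n B).filter fun x => (B : ℤ) ≤ 2 * x 0 ∧ Uni x).card : ℝ) ≤
      ((GG B H 2 (0 : Fin (n + 1))).card : ℝ) +
        (((VBox n B).filter fun x => ¬ HGood H x).card : ℝ) := by
    exact_mod_cast hcard
  linarith

private theorem B_Pos_ar (S N1 N2 A2 E C v : ℝ) (hE : 0 < E) (hE1 : E ≤ 1) (hC : 0 < C)
    (hv : 0 < v) (hA2 : 0 < A2)
    (hN1 : E * A2 / (8 * v) ≤ N1) (hN2 : N2 ≤ C * A2 * (E + E ^ 2 * 2)) (hcs : N1 ^ 2 ≤ S * N2)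
    (hS : 0 ≤ S) : E * A2 / (192 * v ^ 2 * C) ≤ S := by
  have h1 : N2 ≤ C * A2 * (3 * E) := by
    refine hN2.trans (mul_le_mul_of_nonneg_left ?_ (by positivity))
    nlinarith
  have h2 : (E * A2 / (8 * v)) ^ 2 ≤ S * (C * A2 * (3 * E)) :=
    (pow_le_pow_left₀ (by positivity) hN1 2).trans (hcs.trans (mul_le_mul_of_nonneg_left h1 hS))
  have h3 : (E * A2 / (192 * v ^ 2 * C)) * (C * A2 * (3 * E)) = (E * A2 / (8 * v)) ^ 2 := by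
    field_simp
    ring
  rw [← h3] at h2
  exact le_of_mul_le_mul_right h2 (by positivity)

private theorem B_Pos_prod {n r : ℕ} (d : Fin r → ℕ) (A B : ℕ) :
    ∏ i, ((A : ℝ) ^ (n + 1) ^ d i / (3 * ((n : ℝ) + 1) ^ d i * A * (B : ℝ) ^ d i)) =
      (A : ℝ) ^ VV n d / ((∏ i, (3 * ((n : ℝ) + 1) ^ d i)) * ((A : ℝ) ^ r * (B : ℝ) ^ (∑ i, d i))) := by
  have h1 : ∏ i, ((3 * ((n : ℝ) + 1) ^ d i) * (A : ℝ) * (B : ℝ) ^ d i) =
      (∏ i, (3 * ((n : ℝ) + 1) ^ d i)) * (A : ℝ) ^ r * (B : ℝ) ^ (∑ i, d i) := by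
    rw [Finset.prod_mul_distrib, Finset.prod_mul_distrib, Finset.prod_const, Finset.card_univ,
      Fintype.card_fin, Finset.prod_pow_eq_pow_sum]
  rw [Finset.prod_div_distrib, Finset.prod_pow_eq_pow_sum, h1, mul_assoc]
  rfl

private theorem B_Pos_H (r n h g B H : ℕ) (hr : 2 ≤ r) (hn : n = 2 * r) (hg1 : 1 ≤ g)
    (hg : h ^ (3 * r + 1) ≤ g) (hB : B = g ^ n) (hH : H = h * g) :
    (H : ℝ) ^ (n + 1 + r) * (B : ℝ) ^ r / (B : ℝ) ^ n ≤ 1 := by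
  have hB0 : (0 : ℝ) < (B : ℝ) ^ n := by
    have : 0 < B := by rw [hB]; positivity
    positivity
  rw [div_le_one hB0]
  have key : H ^ (n + 1 + r) * B ^ r ≤ B ^ n := by
    have e1 : n + 1 + r = 3 * r + 1 := by omega
    rw [hH, e1, mul_pow, hB, ← pow_mul, ← pow_mul, hn]
    calc h ^ (3 * r + 1) * g ^ (3 * r + 1) * g ^ (2 * r * r)
        ≤ g * g ^ (3 * r + 1) * g ^ (2 * r * r) :=
          Nat.mul_le_mul_right _ (Nat.mul_le_mul_right _ hg)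
      _ = g ^ (2 * r * r + 3 * r + 2) := by ring
      _ ≤ g ^ (2 * r * (2 * r)) := Nat.pow_le_pow_right hg1 (by nlinarith)
  exact_mod_cast key

theorem posB (r : ℕ) (hr : 2 ≤ r) : PosP (2 * r) (fun _ : Fin r => 2) := by
  obtain ⟨n, hn⟩ : ∃ n : ℕ, n = 2 * r := ⟨_, rfl⟩
  obtain ⟨d, hd⟩ : ∃ d : Fin r → ℕ, d = fun _ => 2 := ⟨_, rfl⟩
  rw [← hn, ← hd]
  have hds : ∑ i, d i = 2 * r := by
    rw [hd, Finset.sum_const, Finset.card_univ, Fintype.card_fin, smul_eq_mul, mul_comm]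
  obtain ⟨h, hh, g1, hg1⟩ := B_Pos_GG n (by omega)
  obtain ⟨C, hC, hpt⟩ := pairTotB (r := r) (by omega) n (by omega) 2 (by norm_num)
    (8 * cc n 2 * h ^ 2 + 1) (by omega)
  rw [← hd] at hpt
  obtain ⟨v, hvd⟩ : ∃ v : ℝ, v = ∏ i, (3 * ((n : ℝ) + 1) ^ d i) := ⟨_, rfl⟩
  have hv : 0 < v := by
    rw [hvd]
    exact Finset.prod_pos fun i _ => by positivity
  obtain ⟨V, hV⟩ : ∃ V : ℕ, V = VV n d := ⟨_, rfl⟩
  obtain ⟨h3, hh3⟩ : ∃ h3 : ℕ, h3 = h ^ (3 * r + 1) := ⟨_, rfl⟩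
  obtain ⟨c8, hc8⟩ : ∃ c8 : ℕ, c8 = 8 * CC n d * h := ⟨_, rfl⟩
  refine ⟨(1 / 4 ^ r) / (192 * v ^ 2 * C) / 3 ^ V, by positivity,
    (g1 + c8 + h3 + 4) * (g1 + c8 + h3 + 4), fun A hA => ?_⟩
  obtain ⟨g, hgd⟩ : ∃ g : ℕ, g = Nat.sqrt A := ⟨_, rfl⟩
  have hgb : g1 + c8 + h3 + 4 ≤ g := by
    rw [hgd]
    exact Nat.le_sqrt.mpr hA
  have hgA : g ^ 2 ≤ A := by
    rw [hgd]
    exact Nat.sqrt_le' A
  have hAg : A ≤ 4 * g ^ 2 := by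
    have h1 : A < (g + 1) ^ 2 := by
      rw [hgd]
      exact Nat.lt_succ_sqrt' A
    nlinarith
  have hgg : 1 ≤ g := by omega
  have hA16 : 16 ≤ A := by nlinarith
  have hA0 : 1 ≤ A := by omega
  have hA0r : (0 : ℝ) < A := by exact_mod_cast hA0
  obtain ⟨B, hB⟩ : ∃ B : ℕ, B = g ^ n := ⟨_, rfl⟩
  obtain ⟨H, hH⟩ : ∃ H : ℕ, H = h * g := ⟨_, rfl⟩
  have hB1 : 1 ≤ B := by rw [hB]; exact Nat.one_le_pow _ _ hgg
  have hH1 : 1 ≤ H := by rw [hH]; exact Nat.mul_pos hh hgg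
  have hB0r : (0 : ℝ) < B := by exact_mod_cast hB1
  have hg0r : (0 : ℝ) < g := by exact_mod_cast hgg
  have hG := hg1 g (by omega) B H hB hH
  have hc1 : 8 * CC n d * H ≤ A := by
    calc 8 * CC n d * H = c8 * g := by rw [hH, hc8]; ring
      _ ≤ g * g := Nat.mul_le_mul_right _ (by omega)
      _ ≤ A := by rw [← sq]; exact hgA
  have hc2 : 8 * cc n 2 * H ^ 2 ≤ (8 * cc n 2 * h ^ 2 + 1) * A := by
    calc 8 * cc n 2 * H ^ 2 = (8 * cc n 2 * h ^ 2) * g ^ 2 := by rw [hH]; ring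
      _ ≤ (8 * cc n 2 * h ^ 2) * A := Nat.mul_le_mul_left _ hgA
      _ ≤ (8 * cc n 2 * h ^ 2 + 1) * A := Nat.mul_le_mul_right _ (by omega)
  have hp := hpt (0 : Fin (n + 1)) B H A hB1 hH1 hc1 hc2 (by omega)
  have hcs := csPos d B H 2 A (0 : Fin (n + 1))
  rw [← hV] at hp
  obtain ⟨E, hE⟩ : ∃ E : ℝ, E = (B : ℝ) ^ (n + 1) / ((A : ℝ) ^ r * (B : ℝ) ^ (2 * r)) := ⟨_, rfl⟩
  rw [← hE] at hp
  have hEeq : E = (B : ℝ) / (A : ℝ) ^ r := by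
    rw [hE, hn, pow_succ]
    field_simp
  have hBg : B = (g ^ 2) ^ r := by rw [hB, hn, pow_mul]
  have hEpos : 0 < E := by rw [hE]; positivity
  have hE1 : E ≤ 1 := by
    rw [hEeq, div_le_one (by positivity)]
    have : B ≤ A ^ r := by
      rw [hBg]
      exact Nat.pow_le_pow_left hgA r
    exact_mod_cast this
  have hElow : 1 / 4 ^ r ≤ E := by
    rw [hEeq, div_le_div_iff₀ (by positivity) (by positivity), one_mul]
    have : A ^ r ≤ B * 4 ^ r := by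
      calc A ^ r ≤ (4 * g ^ 2) ^ r := Nat.pow_le_pow_left hAg r
        _ = B * 4 ^ r := by rw [hBg, mul_pow, mul_comm]
    exact_mod_cast this
  have hHp := B_Pos_H r n h g B H hr hn hgg (by omega) hB hH
  -- lower bound of the first moment
  have hN1 : E * (A : ℝ) ^ V / (8 * v) ≤
      ∑ x ∈ GG B H 2 (0 : Fin (n + 1)), ∏ i, (n1 (d i) x A : ℝ) := by
    have h1 : ∀ x ∈ GG B H 2 (0 : Fin (n + 1)),
        (A : ℝ) ^ V / (v * ((A : ℝ) ^ r * (B : ℝ) ^ (2 * r))) ≤ ∏ i, (n1 (d i) x A : ℝ) := by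
      intro x hx
      unfold Pool.Agent.Lib.MP_219881_nt.GG at hx
      rw [Finset.mem_filter] at hx
      rw [hV, hvd, ← hds, ← B_Pos_prod (n := n) d A B]
      exact Finset.prod_le_prod (fun i _ => by positivity) fun i _ => n1low (d i) A B hA0 hB1 x hx.1
    have h2 := Finset.sum_le_sum h1
    rw [Finset.sum_const, nsmul_eq_mul] at h2
    refine le_trans ?_ h2
    calc E * (A : ℝ) ^ V / (8 * v)
        = (B : ℝ) ^ (n + 1) / 8 * ((A : ℝ) ^ V / (v * ((A : ℝ) ^ r * (B : ℝ) ^ (2 * r)))) := by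
          rw [hE]
          field_simp
      _ ≤ _ := mul_le_mul_of_nonneg_right hG (by positivity)
  have hN2 : ∑ x ∈ GG B H 2 (0 : Fin (n + 1)), ∑ y ∈ GG B H 2 (0 : Fin (n + 1)),
      ∏ i, (n2 (d i) x y A : ℝ) ≤ C * (A : ℝ) ^ V * (E + E ^ 2 * 2) := by
    have e1 : ∑ x ∈ GG B H 2 (0 : Fin (n + 1)), ∑ y ∈ GG B H 2 (0 : Fin (n + 1)),
      ∏ i, (n2 (d i) x y A : ℝ) = ∑ x ∈ GG B H 2 (0 : Fin (n + 1)),
        ∑ y ∈ GG B H 2 (0 : Fin (n + 1)), (n2 2 x y A : ℝ) ^ r := by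
      refine Finset.sum_congr rfl fun x _ => Finset.sum_congr rfl fun y _ => ?_
      rw [hd, Finset.prod_const, Finset.card_univ, Fintype.card_fin]
    rw [e1]
    refine hp.trans ?_
    apply mul_le_mul_of_nonneg_left _ (by positivity)
    have := mul_le_mul_of_nonneg_left
      (show (1 + (H : ℝ) ^ (n + 1 + r) * (B : ℝ) ^ r / (B : ℝ) ^ n) ≤ 2 by linarith)
      (show (0 : ℝ) ≤ E ^ 2 by positivity)
    linarith
  have hfin := B_Pos_ar _ _ _ ((A : ℝ) ^ V) E C v hEpos hE1 hC hv (by positivity) hN1 hN2 hcs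
    (Nat.cast_nonneg _)
  rw [← hV]
  refine le_trans ?_ hfin
  have h3A : (2 * (A : ℝ) + 1) ^ V ≤ 3 ^ V * (A : ℝ) ^ V := by
    rw [← mul_pow]
    apply pow_le_pow_left₀ (by positivity)
    have : (1 : ℝ) ≤ A := by exact_mod_cast hA0
    linarith
  calc (1 / 4 ^ r) / (192 * v ^ 2 * C) / 3 ^ V * (2 * (A : ℝ) + 1) ^ V
      ≤ (1 / 4 ^ r) / (192 * v ^ 2 * C) / 3 ^ V * (3 ^ V * (A : ℝ) ^ V) :=
        mul_le_mul_of_nonneg_left h3A (by positivity)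
    _ = (1 / 4 ^ r) * ((A : ℝ) ^ V / (192 * v ^ 2 * C)) := by
        field_simp
    _ ≤ E * ((A : ℝ) ^ V / (192 * v ^ 2 * C)) :=
        mul_le_mul_of_nonneg_right hElow (by positivity)
    _ = _ := by ring

end Pool.Agent.Lib.MP_1ad228_ntF
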