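import Pool.Agent.Lib.MP_1ad228_ntF.CoverC
import Pool.Agent.Lib.MP_1ad228_ntF.Psi

/-!
JOB B_Wt.  The product weight (borderline case; plan: /team-store/PAPER_MP_1ad228_ntF_B.md section 2).

`w1_lip`: the function `z ↦ max 0 (1 - |z|/(2A))` is Lipschitz with constant `1/(2A)` (`abs_max_sub_max_le_abs` style, or cases).
`fw_half`: product of `(n+1)^d` factors `≥ 1/2` (`Finset.prod_le_prod`, `Finset.prod_const`, `Fintype.card_fun`).
`fw_zero`: some entry has `|a s| > 2A`, its factor is `0`.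
`fw_lip1`: the products over `l ≠ s` are the same and at most 1 (`Finset.mul_prod_erase` or `Fintype.prod_eq_mul_prod_compl`):
`fw A (a + Pi.single s t) - fw A a = (w1 A (a s + t) - w1 A (a s)) * ∏ l ∈ univ.erase s, w1 A (a l)`.
`slB_le`: `fw ≤ 1` and `cover2` with `M = 2`, `X = A` (as `sl_le` in Slice.lean).
`slB_shift`: same proof as `sl_close` in Slice.lean with `a0 = Pi.single s t` (`ev a0 x = t * ∏ k, x (s k)`, `tn a0 ≤ A`), `fw_zero`, `fw_lip1` and
`cover2` with `M = 3`.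
-/

namespace Pool.Agent.Lib.MP_1ad228_ntF

open Classical

/-- One dimensional weight. -/
noncomputable def w1 (A : ℕ) (z : ℤ) : ℝ := max 0 (1 - |(z : ℝ)| / (2 * A))

/-- Product weight. -/
noncomputable def fw {n d : ℕ} (A : ℕ) (a : Ten n d ℤ) : ℝ := ∏ s, w1 A (a s)

/-- Slices with the product weight. -/
noncomputable def slB {n : ℕ} (d A : ℕ) (x y : Vc n ℤ) (m m' : ℤ) : ℝ :=
  ∑ a ∈ (Box n d (2 * A)).filter (fun a => ev a x = m ∧ ev a y = m'), fw A a

theorem w1_nonneg (A : ℕ) (z : ℤ) : 0 ≤ w1 A z := le_max_left _ _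

theorem w1_le_one (A : ℕ) (z : ℤ) : w1 A z ≤ 1 := by
  unfold w1
  refine max_le zero_le_one ?_
  have h : (0 : ℝ) ≤ |(z : ℝ)| / (2 * A) := by positivity
  linarith

theorem w1_lip {A : ℕ} (hA : 1 ≤ A) (z t : ℤ) :
    |w1 A (z + t) - w1 A z| ≤ |(t : ℝ)| / (2 * A) := by
  have hA' : (0 : ℝ) < (A : ℝ) := by exact_mod_cast hA
  have h3 : |(|(z : ℝ)| - |((z + t : ℤ) : ℝ)|)| ≤ |(t : ℝ)| := by
    have h := abs_abs_sub_abs_le (z : ℝ) ((z + t : ℤ) : ℝ)
    have e : (z : ℝ) - ((z + t : ℤ) : ℝ) = -t := by push_cast; ring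
    rwa [e, abs_neg] at h
  unfold w1
  have h4 := abs_max_sub_max_le_max 0 (1 - |((z + t : ℤ) : ℝ)| / (2 * A)) 0
    (1 - |(z : ℝ)| / (2 * A))
  rw [sub_self, abs_zero] at h4
  refine h4.trans ((max_eq_right (abs_nonneg _)).le.trans ?_)
  have h5 : 1 - |((z + t : ℤ) : ℝ)| / (2 * A) - (1 - |(z : ℝ)| / (2 * A)) =
      (|(z : ℝ)| - |((z + t : ℤ) : ℝ)|) / (2 * A) := by ring
  rw [h5, abs_div, abs_of_pos (by positivity : (0 : ℝ) < 2 * A)]
  exact div_le_div_of_nonneg_right h3 (by positivity)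

theorem fw_nonneg {n d : ℕ} (A : ℕ) (a : Ten n d ℤ) : 0 ≤ fw A a :=
  Finset.prod_nonneg fun _ _ => w1_nonneg A _

theorem fw_le_one {n d : ℕ} (A : ℕ) (a : Ten n d ℤ) : fw A a ≤ 1 :=
  Finset.prod_le_one (fun _ _ => w1_nonneg A _) (fun _ _ => w1_le_one A _)

theorem fw_half {n d : ℕ} {A : ℕ} (hA : 1 ≤ A) {a : Ten n d ℤ} (ha : a ∈ Box n d A) :
    (1 / 2) ^ (n + 1) ^ d ≤ fw A a := by
  have hA' : (0 : ℝ) < (A : ℝ) := by exact_mod_cast hA
  have h : ∀ s, 1 / 2 ≤ w1 A (a s) := by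
    intro s
    have h1 : |a s| ≤ (A : ℤ) := mem_Box.1 ha s
    have h2 : |(a s : ℝ)| ≤ (A : ℝ) := by exact_mod_cast h1
    have h3 : |(a s : ℝ)| / (2 * A) ≤ 1 / 2 := by
      rw [div_le_iff₀ (by positivity)]
      linarith
    unfold w1
    refine le_trans ?_ (le_max_right _ _)
    linarith
  have h0 : ((1 : ℝ) / 2) ^ (n + 1) ^ d = ∏ _s : Fin d → Fin (n + 1), (1 / 2 : ℝ) := by
    rw [Finset.prod_const, Finset.card_univ, Fintype.card_fun, Fintype.card_fin, Fintype.card_fin]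
  rw [h0]
  exact Finset.prod_le_prod (fun s _ => by norm_num) (fun s _ => h s)

theorem fw_zero {n d : ℕ} {A : ℕ} (hA : 1 ≤ A) {a : Ten n d ℤ} (ha : a ∉ Box n d (2 * A)) :
    fw A a = 0 := by
  have hA' : (0 : ℝ) < (A : ℝ) := by exact_mod_cast hA
  rw [mem_Box] at ha
  push Not at ha
  obtain ⟨s, hs⟩ := ha
  refine Finset.prod_eq_zero (Finset.mem_univ s) ?_
  have h2 : (2 * A : ℝ) < |(a s : ℝ)| := by exact_mod_cast hs
  have h3 : 1 ≤ |(a s : ℝ)| / (2 * A) := by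
    rw [le_div_iff₀ (by positivity)]
    linarith
  unfold w1
  exact max_eq_left (by linarith)

theorem fw_lip1 {n d : ℕ} {A : ℕ} (hA : 1 ≤ A) (a : Ten n d ℤ) (s : Fin d → Fin (n + 1))
    (t : ℤ) : |fw A (a + Pi.single s t) - fw A a| ≤ |(t : ℝ)| / (2 * A) := by
  set R : ℝ := ∏ l ∈ Finset.univ.erase s, w1 A (a l) with hR
  have hR0 : 0 ≤ R := Finset.prod_nonneg fun _ _ => w1_nonneg A _
  have hR1 : R ≤ 1 := Finset.prod_le_one (fun _ _ => w1_nonneg A _) (fun _ _ => w1_le_one A _)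
  have e1 : fw A a = w1 A (a s) * R := by
    unfold fw
    exact (Finset.mul_prod_erase _ _ (Finset.mem_univ s)).symm
  have e2 : fw A (a + Pi.single s t) = w1 A (a s + t) * R := by
    unfold fw
    rw [← Finset.mul_prod_erase _ _ (Finset.mem_univ s)]
    have e3 : (a + Pi.single s t : Ten n d ℤ) s = a s + t := by
      rw [Pi.add_apply, Pi.single_eq_same]
    rw [e3]
    have e4 : ∏ l ∈ Finset.univ.erase s, w1 A ((a + Pi.single s t : Ten n d ℤ) l) = R := by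
      refine Finset.prod_congr rfl fun l hl => ?_
      rw [Pi.add_apply, Pi.single_eq_of_ne (Finset.ne_of_mem_erase hl), add_zero]
    rw [e4]
  rw [e1, e2, ← sub_mul, abs_mul, abs_of_nonneg hR0]
  calc |w1 A (a s + t) - w1 A (a s)| * R ≤ |w1 A (a s + t) - w1 A (a s)| * 1 :=
        mul_le_mul_of_nonneg_left hR1 (abs_nonneg _)
    _ = |w1 A (a s + t) - w1 A (a s)| := mul_one _
    _ ≤ |(t : ℝ)| / (2 * A) := w1_lip hA _ _

theorem slB_nonneg {n : ℕ} (d A : ℕ) (x y : Vc n ℤ) (m m' : ℤ) : 0 ≤ slB d A x y m m' :=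
  Finset.sum_nonneg fun a _ => fw_nonneg A a

theorem slB_le {n : ℕ} (d A : ℕ) (x y : Vc n ℤ) (m m' : ℤ) :
    slB d A x y m m' ≤ 4 ^ (n + 1) ^ d * (n2 d x y A : ℝ) := by
  have h1 : slB d A x y m m' ≤
      ∑ _a ∈ (Box n d (2 * A)).filter (fun a => ev a x = m ∧ ev a y = m'), (1 : ℝ) :=
    Finset.sum_le_sum fun a _ => fw_le_one A a
  have h2 := cover2 d x y m m' 2 A (by norm_num)
  have h3 : (2 * 2 : ℕ) = 4 := by norm_num
  rw [h3] at h2
  have h4 : (((Box n d (2 * A)).filter fun a => ev a x = m ∧ ev a y = m').card : ℝ)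
      ≤ 4 ^ (n + 1) ^ d * (n2 d x y A : ℝ) := by exact_mod_cast h2
  refine h1.trans ?_
  rw [Finset.sum_const, nsmul_eq_mul, mul_one]
  exact h4

private theorem BWt_ev {n d : ℕ} (s : Fin d → Fin (n + 1)) (t : ℤ) (x : Vc n ℤ) :
    ev (Pi.single s t : Ten n d ℤ) x = t * ∏ k, x (s k) := by
  unfold ev
  rw [Finset.sum_eq_single s]
  · rw [Pi.single_eq_same]
  · intro b _ hb
    rw [Pi.single_eq_of_ne hb, zero_mul]
  · intro h
    exact absurd (Finset.mem_univ s) h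

private theorem BWt_tn {n d : ℕ} (s : Fin d → Fin (n + 1)) (t : ℕ) :
    tn (Pi.single s (t : ℤ) : Ten n d ℤ) ≤ t := by
  rw [tn_le]
  intro l
  by_cases hl : l = s
  · rw [hl, Pi.single_eq_same, abs_of_nonneg (by positivity)]
  · rw [Pi.single_eq_of_ne hl, abs_zero]
    positivity

theorem slB_shift {n : ℕ} (d A : ℕ) (hA : 1 ≤ A) (x y : Vc n ℤ) (s : Fin d → Fin (n + 1))
    (t : ℕ) (ht : t ≤ A) :
    |slB d A x y ((t : ℤ) * ∏ k, x (s k)) ((t : ℤ) * ∏ k, y (s k)) - slB d A x y 0 0| ≤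
      (t : ℝ) / (2 * A) * (6 ^ (n + 1) ^ d * (n2 d x y A : ℝ)) := by
  set a0 : Ten n d ℤ := Pi.single s (t : ℤ) with ha0
  have h0 : tn a0 ≤ A := (BWt_tn s t).trans ht
  rw [← BWt_ev s (t : ℤ) x, ← BWt_ev s (t : ℤ) y, ← ha0]
  set B : Finset (Ten n d ℤ) := (Box n d (3 * A)).filter (fun b => ev b x = 0 ∧ ev b y = 0) with hB
  have c1 : slB d A x y (ev a0 x) (ev a0 y) = ∑ b ∈ B, fw A (b + a0) := by
    have e1 : ∑ b ∈ B, fw A (b + a0) = ∑ b ∈ B.filter (fun b => b + a0 ∈ Box n d (2 * A)),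
        fw A (b + a0) := by
      symm
      refine Finset.sum_subset (Finset.filter_subset _ _) ?_
      intro b hb hnb
      apply fw_zero hA
      intro h
      exact hnb (Finset.mem_filter.mpr ⟨hb, h⟩)
    rw [e1]
    unfold slB
    refine Finset.sum_bij' (fun a _ => a - a0) (fun b _ => b + a0) ?_ ?_ ?_ ?_ ?_
    · intro a ha
      rw [Finset.mem_filter] at ha
      obtain ⟨ha1, ha2, ha3⟩ := ha
      have htn : tn (a - a0) ≤ 3 * A := by
        rw [mem_Box_iff_tn] at ha1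
        have := tn_add a (-a0)
        rw [tn_neg, ← sub_eq_add_neg] at this
        omega
      refine Finset.mem_filter.mpr ⟨?_, ?_⟩
      · refine Finset.mem_filter.mpr ⟨mem_Box_iff_tn.mpr htn, ?_, ?_⟩
        · rw [ev_sub, ha2, sub_self]
        · rw [ev_sub, ha3, sub_self]
      · rw [sub_add_cancel]; exact ha1
    · intro b hb
      rw [Finset.mem_filter] at hb
      obtain ⟨hb1, hb2⟩ := hb
      rw [hB, Finset.mem_filter] at hb1
      refine Finset.mem_filter.mpr ⟨hb2, ?_, ?_⟩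
      · rw [ev_add, hb1.2.1, zero_add]
      · rw [ev_add, hb1.2.2, zero_add]
    · intro a _
      exact sub_add_cancel a a0
    · intro b _
      exact add_sub_cancel_right b a0
    · intro a _
      rw [sub_add_cancel]
  have c2 : slB d A x y 0 0 = ∑ b ∈ B, fw A b := by
    unfold slB
    refine Finset.sum_subset ?_ ?_
    · intro a ha
      rw [Finset.mem_filter] at ha
      refine Finset.mem_filter.mpr ⟨?_, ha.2⟩
      rw [mem_Box_iff_tn] at ha ⊢
      omega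
    · intro b hb hnb
      apply fw_zero hA
      intro h
      exact hnb (Finset.mem_filter.mpr ⟨h, (Finset.mem_filter.mp hb).2⟩)
  rw [c1, c2, ← Finset.sum_sub_distrib]
  have h2 := cover2 d x y 0 0 3 A (by norm_num)
  have h3 : (2 * 3 : ℕ) = 6 := by norm_num
  rw [h3] at h2
  have h4 : (B.card : ℝ) ≤ 6 ^ (n + 1) ^ d * (n2 d x y A : ℝ) := by exact_mod_cast h2
  have h5 : ∀ b : Ten n d ℤ, |fw A (b + a0) - fw A b| ≤ (t : ℝ) / (2 * A) := by
    intro b
    have h6 := fw_lip1 hA b s (t : ℤ)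
    rw [← ha0] at h6
    refine h6.trans (le_of_eq ?_)
    rw [abs_of_nonneg (by positivity), Int.cast_natCast]
  calc |∑ b ∈ B, (fw A (b + a0) - fw A b)|
      ≤ ∑ b ∈ B, |fw A (b + a0) - fw A b| := Finset.abs_sum_le_sum_abs _ _
    _ ≤ ∑ _b ∈ B, (t : ℝ) / (2 * A) := Finset.sum_le_sum fun b _ => h5 b
    _ = (t : ℝ) / (2 * A) * B.card := by rw [Finset.sum_const, nsmul_eq_mul, mul_comm]
    _ ≤ _ := mul_le_mul_of_nonneg_left h4 (by positivity)

end Pool.Agent.Lib.MP_1ad228_ntF
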