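import Pool.Agent.Lib.MP_1ad228_ntF.CN_Cnt
import Pool.Agent.Lib.MP_219881_nt.CN_Np
import Pool.Agent.Lib.MP_219881_nt.HG_Bad

/-!
JOB CN_Low.  Lower bound for the local prediction. (Model: Lib/MP_219881_nt/CN_Low.lean; `nonPrim`, `badX` = `Pool.Agent.Lib.MP_219881_nt.nonPrim` ...)

`muUp`: `MS d W K A o x` is a set of integers `m`, `|m| ≤ A (x o)^d / K ≤ A B^d / K`, divisible by `W`: at most `2 A B^d/(K W) + 1 ≤ 3 A B^d/(K W)` elements. It contains `0` when `0 ≤ x o`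
(hypothesis `hx0`).

`CN_Low_count`: as in the model. `W = WW w`. Let `Z` be the finite set of unimodular common zeros mod `W` of the tuple, `sm W .. = Z.card`. For `z ∈ Z`, integer representatives `x0(z)` (`ZMod.val`), `X_z` = the
set of `cnt` for `x0(z)`, `Y_z` = the set of `nonPrim`. If `x ∈ X_z`, `x ∉ Y_z` and `x` is `H`-good then `x ∈ GG B H q o` and `Loc` holds for all `F i`. The sets `X_z` are disjoint.

`low`: `c1 = ρ^(n+1-r) dl^r`, `dl` as in `cnt`; `c = c1/(2 * 3^r)`. Given `K`, let `w0 ≥ 1` be such that `4^(n+1)/w ≤ c1/(4K^r)` for `w ≥ w0`. Given `w`, `η` put `W = WW w`. `B = g^(n l+1)`, `H = g^(l+2)`, `L = g^l`.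
For large `g`: `1 ≤ L ≤ H`, `2^(n+1) g^l ≤ g^(n l+1)`, `3^n (n+1) g^(n l+1) ≤ g^(l+2) g^(l(n-1)) = g^(n l+2)`; `K W ≤ dl B`; `K W ≤ B`; `2^(n+1) B ≤ c1/(4K^r) B^(n+1)/W^(n+1)`;
`(K W)^r C/(3^r g) ≤ η` (`C` the constant of `badX`). The number of `x ∈ GG` with all `Loc` is at least `sm * c1 B^(n+1)/(2 K^r W^(n+1)) - C B^(n+1)/g` (`badX`: `C B^n L^n = C B^(n+1)/g`).
Each term of `Ll` is at least `∏ K W/(3 A B^(d i)) = (K W)^r/(3^r A^r B^D)` (`muUp`), so `Ll ≥ B^(n+1)/(A^r B^D) * (c1 sm W^r/(2*3^r W^(n+1)) - (K W)^r C/(3^r g))`.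
-/

namespace Pool.Agent.Lib.MP_1ad228_ntF

open Classical

theorem muUp {n : ℕ} (d W K A B : ℕ) (o : Fin (n + 1)) (hW : 1 ≤ W) (hK : 1 ≤ K)
    (hB : K * W ≤ A * B ^ d) (x : Vc n ℤ) (hx : x ∈ VBox n B) (hx0 : 0 ≤ x o) :
    0 < ((MS d W K A o x).card : ℝ) ∧
      ((MS d W K A o x).card : ℝ) ≤ 3 * A * B ^ d / (K * W) := by
  have hx' := mem_VBox.mp hx o
  have hpw : (x o) ^ d ≤ (B : ℤ) ^ d := pow_le_pow_left₀ hx0 ((le_abs_self _).trans hx') d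
  constructor
  · have h0 : (0 : ℤ) ∈ MS d W K A o x := by
      unfold MS
      rw [Finset.mem_filter, Finset.mem_Icc]
      have h1 : (0 : ℤ) ≤ A * (x o) ^ d := by positivity
      refine ⟨⟨by linarith, h1⟩, dvd_zero _, ?_⟩
      rw [abs_zero, mul_zero]
      exact h1
    exact_mod_cast Finset.card_pos.mpr ⟨0, h0⟩
  · have h1 := Pool.Agent.Lib.MP_219881_nt.clsUp (A * B ^ d / K) W 0 hW (MS d W K A o x) (by
      intro z hz
      unfold MS at hz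
      rw [Finset.mem_filter] at hz
      obtain ⟨_, hd, hk⟩ := hz
      refine ⟨?_, by rw [sub_zero]; exact hd⟩
      have h2 : ((A * B ^ d / K : ℕ) : ℤ) = ((A : ℤ) * (B : ℤ) ^ d) / (K : ℤ) := by
        push_cast; rfl
      rw [h2, Int.le_ediv_iff_mul_le (by exact_mod_cast hK)]
      have h3 : (A : ℤ) * (x o) ^ d ≤ A * (B : ℤ) ^ d :=
        mul_le_mul_of_nonneg_left hpw (by positivity)
      linarith [mul_comm (K : ℤ) |z|])
    have hKp : (0 : ℝ) < K := by exact_mod_cast hK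
    have hWp : (0 : ℝ) < W := by exact_mod_cast hW
    have h4 : ((A * B ^ d / K : ℕ) : ℝ) ≤ (A * B ^ d : ℝ) / K := by
      have h5 := @Nat.cast_div_le ℝ _ _ _ (A * B ^ d) K
      push_cast at h5
      exact h5
    have h6 : (1 : ℝ) ≤ (A * B ^ d : ℝ) / (K * W) := by
      rw [le_div_iff₀ (by positivity)]
      rw [one_mul]
      exact_mod_cast hB
    calc ((MS d W K A o x).card : ℝ) ≤ 2 * ((A * B ^ d / K : ℕ) : ℝ) / W + 1 := h1
      _ ≤ 2 * ((A * B ^ d : ℝ) / K) / W + (A * B ^ d : ℝ) / (K * W) := by gcongr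
      _ = 3 * A * B ^ d / (K * W) := by field_simp; ring

private theorem CN_Low_WW_pos (w : ℕ) : 1 ≤ WW w := by
  unfold WW
  refine Finset.one_le_prod' ?_
  intro p hp
  exact Nat.one_le_iff_ne_zero.mpr (pow_ne_zero _ (Finset.mem_filter.mp hp).2.ne_zero)

theorem CN_Low_count {n r : ℕ} (d : Fin r → ℕ) (hr : 1 ≤ r) (hrn : r ≤ n + 1) (hn : 1 ≤ n)
    (hd : ∀ i, 1 ≤ d i) (ρ : ℝ) (hρ : 0 < ρ) (hρ1 : ρ ≤ 1) (q : ℕ)
    (hq : 1 ≤ ρ * q) (K : ℕ) (hK : 1 ≤ K) (w : ℕ) (hw : 1 ≤ w) (B H : ℕ) (hB1 : 1 ≤ B)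
    (hB : (K : ℝ) * (WW w : ℝ) ≤
      ρ ^ (∑ i, d i) / (2 * ((∑ i, d i : ℕ) : ℝ) * (n + 1) ^ (∑ i, d i)) * B)
    (A : ℕ) (hA : 1 ≤ A) (F : Tup n d ℤ) (hF : F ∈ TBox n d A) (o : Fin (n + 1))
    (S : Fin r → Fin (n + 1)) (hS : Function.Injective S)
    (h : Rob o S ρ (fun i s => (F i s : ℝ) / A)) :
    (sm (WW w) (ctT (ZMod (WW w)) F) : ℝ) *
      (ρ ^ (n + 1 - r) *
        (ρ ^ (∑ i, d i) / (2 * ((∑ i, d i : ℕ) : ℝ) * (n + 1) ^ (∑ i, d i))) ^ r *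
        (B : ℝ) ^ (n + 1) / (K ^ r * (WW w : ℝ) ^ (n + 1)) -
        ((4 * B / (WW w : ℝ)) ^ (n + 1) / w + 2 ^ (n + 1) * B)) ≤
      (((GG B H q o).filter (fun x => ∀ i, Loc (WW w) K A o (F i) x)).card : ℝ) +
        (((VBox n B).filter fun x => ¬ HGood H x).card : ℝ) := by
  have hWp : 1 ≤ WW w := CN_Low_WW_pos w
  have hne : NeZero (WW w) := ⟨by omega⟩
  have hcv : ∀ z : Vc n (ZMod (WW w)), cv (ZMod (WW w)) (fun l => ((z l).val : ℤ)) = z := by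
    intro z
    funext l
    show (((z l).val : ℤ) : ZMod (WW w)) = z l
    rw [Int.cast_natCast, ZMod.natCast_zmod_val]
  have hcong : ∀ (x : Vc n ℤ) (z : Vc n (ZMod (WW w))),
      (∀ l, ((WW w : ℕ) : ℤ) ∣ x l - ((z l).val : ℤ)) → cv (ZMod (WW w)) x = z := by
    intro x z hx
    funext l
    show ((x l : ℤ) : ZMod (WW w)) = z l
    have h1 := (ZMod.intCast_zmod_eq_zero_iff_dvd (x l - ((z l).val : ℤ)) (WW w)).mpr (hx l)
    rw [Int.cast_sub, Int.cast_natCast, ZMod.natCast_zmod_val] at h1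
    exact sub_eq_zero.mp h1
  have hsm : sm (WW w) (ctT (ZMod (WW w)) F) =
      (Finset.univ.filter (fun z : Vc n (ZMod (WW w)) => Uni z ∧
        ∀ i, ev (ctT (ZMod (WW w)) F i) z = 0)).card := by
    unfold sm
    rw [Nat.card_eq_fintype_card, Fintype.card_subtype]
  have hdvd : ∀ (i : Fin r) (x : Vc n ℤ),
      ev (ctT (ZMod (WW w)) F i) (cv (ZMod (WW w)) x) = 0 → ((WW w : ℕ) : ℤ) ∣ ev (F i) x := by
    intro i x hc
    unfold ctT at hc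
    rw [ev_ct] at hc
    exact (ZMod.intCast_zmod_eq_zero_iff_dvd _ _).mp hc
  let X : Vc n (ZMod (WW w)) → Finset (Vc n ℤ) := fun z =>
    (VBox n B).filter fun x => (∀ l, ((WW w : ℕ) : ℤ) ∣ x l - ((z l).val : ℤ)) ∧
      (B : ℤ) ≤ q * x o ∧ ∀ i, (K : ℤ) * |ev (F i) x| ≤ A * (x o) ^ d i
  let Y : Vc n (ZMod (WW w)) → Finset (Vc n ℤ) := fun z =>
    (VBox n B).filter fun x => (∀ l, ((WW w : ℕ) : ℤ) ∣ x l - ((z l).val : ℤ)) ∧ x ≠ 0 ∧ ¬ Uni x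
  have hdisj : ∀ z ∈ Finset.univ.filter (fun z : Vc n (ZMod (WW w)) => Uni z ∧
        ∀ i, ev (ctT (ZMod (WW w)) F i) z = 0),
      ∀ z' ∈ Finset.univ.filter (fun z : Vc n (ZMod (WW w)) => Uni z ∧
        ∀ i, ev (ctT (ZMod (WW w)) F i) z = 0),
      z ≠ z' → Disjoint (X z \ Y z) (X z' \ Y z') := by
    intro z _ z' _ hzz
    rw [Finset.disjoint_left]
    intro x hx hx'
    have h1 := (Finset.mem_filter.mp (Finset.mem_sdiff.mp hx).1).2.1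
    have h2 := (Finset.mem_filter.mp (Finset.mem_sdiff.mp hx').1).2.1
    exact hzz ((hcong x z h1).symm.trans (hcong x z' h2))
  have hsub : (Finset.univ.filter (fun z : Vc n (ZMod (WW w)) => Uni z ∧
        ∀ i, ev (ctT (ZMod (WW w)) F i) z = 0)).biUnion
        (fun z => X z \ Y z) ⊆
      ((GG B H q o).filter (fun x => ∀ i, Loc (WW w) K A o (F i) x)) ∪
        ((VBox n B).filter fun x => ¬ HGood H x) := by
    intro x hx
    obtain ⟨z, hz, hxz⟩ := Finset.mem_biUnion.mp hx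
    obtain ⟨hxX, hxY⟩ := Finset.mem_sdiff.mp hxz
    obtain ⟨hV, hcl, hpo, hka⟩ := Finset.mem_filter.mp hxX
    obtain ⟨_, _, hza⟩ := Finset.mem_filter.mp hz
    rw [Finset.mem_union]
    by_cases hg : HGood H x
    · left
      have hx0 : x ≠ 0 := by
        intro h0
        rw [h0, Pi.zero_apply, mul_zero] at hpo
        have h1 : (1 : ℤ) ≤ B := by exact_mod_cast hB1
        linarith
      have hU : Uni x := by
        by_contra hU
        exact hxY (Finset.mem_filter.mpr ⟨hV, hcl, hx0, hU⟩)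
      have hcx := hcong x z hcl
      rw [← hcx] at hza
      refine Finset.mem_filter.mpr ⟨?_, fun i => ⟨hdvd i x (hza i), hka i⟩⟩
      unfold GG
      exact Finset.mem_filter.mpr ⟨hV, hpo, hU, hg⟩
    · right
      exact Finset.mem_filter.mpr ⟨hV, hg⟩
  have hcard : ∑ z ∈ Finset.univ.filter (fun z : Vc n (ZMod (WW w)) => Uni z ∧
        ∀ i, ev (ctT (ZMod (WW w)) F i) z = 0),
        (((X z \ Y z).card : ℕ) : ℝ) ≤
      (((GG B H q o).filter (fun x => ∀ i, Loc (WW w) K A o (F i) x)).card : ℝ) +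
        (((VBox n B).filter fun x => ¬ HGood H x).card : ℝ) := by
    have h1 := (Finset.card_le_card hsub).trans (Finset.card_union_le _ _)
    rw [Finset.card_biUnion hdisj] at h1
    exact_mod_cast h1
  refine le_trans ?_ hcard
  rw [hsm, ← nsmul_eq_mul]
  refine Finset.card_nsmul_le_sum _ _ _ ?_
  intro z hz
  obtain ⟨_, hzU, _⟩ := Finset.mem_filter.mp hz
  have h1 := cnt d hr hrn hd o S hS ρ hρ hρ1 q hq K (WW w) B A hK hWp hB hA F hF h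
    (fun l => ((z l).val : ℤ))
  have h2 := Pool.Agent.Lib.MP_219881_nt.nonPrim n w B hn hw (fun l => ((z l).val : ℤ))
    (by rw [hcv z]; exact hzU)
  have h3 : ((X z).card : ℝ) ≤ ((X z \ Y z).card : ℝ) + ((Y z).card : ℝ) := by
    have h4 : (X z).card ≤ (X z \ Y z).card + (Y z).card := by
      have h5 := Finset.le_card_sdiff (Y z) (X z)
      omega
    exact_mod_cast h4
  have h6 : ρ ^ (n + 1 - r) *
        (ρ ^ (∑ i, d i) / (2 * ((∑ i, d i : ℕ) : ℝ) * (n + 1) ^ (∑ i, d i))) ^ r *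
        (B : ℝ) ^ (n + 1) / (K ^ r * (WW w : ℝ) ^ (n + 1)) ≤ ((X z).card : ℝ) := h1
  have h7 : ((Y z).card : ℝ) ≤ (4 * B / (WW w : ℝ)) ^ (n + 1) / w + 2 ^ (n + 1) * B := h2
  linarith

theorem low {r : ℕ} (hr : 1 ≤ r) (n : ℕ) (hn : r + 2 ≤ n) (d : Fin r → ℕ) (hd : ∀ i, 1 ≤ d i)
    (l : ℕ) (hl : 1 ≤ l) (ρ : ℝ) (hρ : 0 < ρ) (hρ1 : ρ ≤ 1) (q : ℕ) (hq : 1 ≤ ρ * q) :
    ∃ c : ℝ, 0 < c ∧ ∀ K : ℕ, 1 ≤ K → ∃ w0 : ℕ, ∀ w ≥ w0, ∀ η : ℝ, 0 < η → ∃ g0 : ℕ, ∀ g ≥ g0,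
      ∀ B H : ℕ, B = g ^ (n * l + 1) → H = g ^ (l + 2) → ∀ A : ℕ, 1 ≤ A →
      ∀ F ∈ TBox n d A, ∀ (o : Fin (n + 1)) (S : Fin r → Fin (n + 1)), Function.Injective S →
        Rob o S ρ (fun i s => (F i s : ℝ) / A) →
        ((B : ℝ) ^ (n + 1) / ((A : ℝ) ^ r * (B : ℝ) ^ (∑ i, d i))) *
          (c * ((sm (WW w) (ctT (ZMod (WW w)) F) : ℝ) * (WW w : ℝ) ^ r /
            (WW w : ℝ) ^ (n + 1)) - η) ≤ Ll B H q o (WW w) K A F := by
  obtain ⟨C, hC, hbad⟩ := Pool.Agent.Lib.MP_219881_nt.badX n (by omega)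
  have hD1 : 1 ≤ ∑ i, d i := by
    have h1 := Finset.sum_le_sum (s := (Finset.univ : Finset (Fin r))) (fun i _ => hd i)
    rw [Finset.sum_const, Finset.card_univ, Fintype.card_fin, smul_eq_mul, mul_one] at h1
    exact hr.trans h1
  have hDp : (1 : ℝ) ≤ ((∑ i, d i : ℕ) : ℝ) := by exact_mod_cast hD1
  have hn1 : (1 : ℝ) ≤ ((n : ℝ) + 1) ^ (∑ i, d i) :=
    one_le_pow₀ (by
      have h2 : (0 : ℝ) ≤ n := Nat.cast_nonneg _
      linarith)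
  have hdl : (0 : ℝ) < ρ ^ (∑ i, d i) / (2 * ((∑ i, d i : ℕ) : ℝ) * ((n : ℝ) + 1) ^ (∑ i, d i)) := by
    have h1 : (0 : ℝ) < 2 * ((∑ i, d i : ℕ) : ℝ) * ((n : ℝ) + 1) ^ (∑ i, d i) := by nlinarith
    exact div_pos (pow_pos hρ _) h1
  have hdl1 : ρ ^ (∑ i, d i) / (2 * ((∑ i, d i : ℕ) : ℝ) * ((n : ℝ) + 1) ^ (∑ i, d i)) ≤ 1 := by
    have h1 : (1 : ℝ) ≤ 2 * ((∑ i, d i : ℕ) : ℝ) * ((n : ℝ) + 1) ^ (∑ i, d i) := by nlinarith
    rw [div_le_one (by linarith)]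
    exact (pow_le_one₀ hρ.le hρ1).trans h1
  have hc1 : (0 : ℝ) < ρ ^ (n + 1 - r) *
      (ρ ^ (∑ i, d i) / (2 * ((∑ i, d i : ℕ) : ℝ) * ((n : ℝ) + 1) ^ (∑ i, d i))) ^ r :=
    mul_pos (pow_pos hρ _) (pow_pos hdl _)
  refine ⟨ρ ^ (n + 1 - r) *
      (ρ ^ (∑ i, d i) / (2 * ((∑ i, d i : ℕ) : ℝ) * ((n : ℝ) + 1) ^ (∑ i, d i))) ^ r / (2 * 3 ^ r),
    div_pos hc1 (by positivity), ?_⟩
  generalize hc1e : ρ ^ (n + 1 - r) *
      (ρ ^ (∑ i, d i) / (2 * ((∑ i, d i : ℕ) : ℝ) * ((n : ℝ) + 1) ^ (∑ i, d i))) ^ r = c1 at hc1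
  generalize hdle : ρ ^ (∑ i, d i) / (2 * ((∑ i, d i : ℕ) : ℝ) * ((n : ℝ) + 1) ^ (∑ i, d i)) = dl at hdl hdl1
  intro K hK
  have hKp : (0 : ℝ) < K := by exact_mod_cast hK
  refine ⟨max 1 ⌈4 ^ (n + 1) * (4 * (K : ℝ) ^ r) / c1⌉₊, ?_⟩
  intro w hw η hη
  have hw1 : 1 ≤ w := (le_max_left _ _).trans hw
  have hw2 : 4 ^ (n + 1) * (4 * (K : ℝ) ^ r) / c1 ≤ (w : ℝ) :=
    (Nat.le_ceil _).trans (by exact_mod_cast (le_max_right _ _).trans hw)
  have hwp : (0 : ℝ) < w := by exact_mod_cast hw1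
  have hWn : 1 ≤ WW w := CN_Low_WW_pos w
  have hWp : (0 : ℝ) < (WW w : ℝ) := by exact_mod_cast hWn
  refine ⟨max (max (max 1 (2 ^ (n + 1))) (3 ^ n * (n + 1)))
    (max (max ⌈(K : ℝ) * (WW w : ℝ) / dl⌉₊ ⌈2 ^ (n + 1) * (WW w : ℝ) ^ (n + 1) * (4 * (K : ℝ) ^ r) / c1⌉₊)
      ⌈(K : ℝ) ^ r * (WW w : ℝ) ^ r * C / (3 ^ r * η)⌉₊), ?_⟩
  intro g hg B H hBg hHg A hA F hF o S hS hR
  have hg1 : 1 ≤ g := le_trans (le_trans (le_trans (le_max_left _ _) (le_max_left _ _)) (le_max_left _ _)) hg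
  have hg2 : 2 ^ (n + 1) ≤ g :=
    le_trans (le_trans (le_trans (le_max_right _ _) (le_max_left _ _)) (le_max_left _ _)) hg
  have hg3 : 3 ^ n * (n + 1) ≤ g := le_trans (le_trans (le_max_right _ _) (le_max_left _ _)) hg
  have hg4 : (K : ℝ) * (WW w : ℝ) / dl ≤ (g : ℝ) :=
    (Nat.le_ceil _).trans (by
      exact_mod_cast le_trans (le_trans (le_trans (le_max_left _ _) (le_max_left _ _)) (le_max_right _ _)) hg)
  have hg5 : 2 ^ (n + 1) * (WW w : ℝ) ^ (n + 1) * (4 * (K : ℝ) ^ r) / c1 ≤ (g : ℝ) :=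
    (Nat.le_ceil _).trans (by
      exact_mod_cast le_trans (le_trans (le_trans (le_max_right _ _) (le_max_left _ _)) (le_max_right _ _)) hg)
  have hg6 : (K : ℝ) ^ r * (WW w : ℝ) ^ r * C / (3 ^ r * η) ≤ (g : ℝ) :=
    (Nat.le_ceil _).trans (by
      exact_mod_cast le_trans (le_trans (le_max_right _ _) (le_max_right _ _)) hg)
  have hgp : (0 : ℝ) < g := by exact_mod_cast hg1
  have hgB : g ≤ B := by
    rw [hBg]
    calc g = g ^ 1 := (pow_one g).symm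
      _ ≤ g ^ (n * l + 1) := Nat.pow_le_pow_right hg1 (by omega)
  have hB1 : 1 ≤ B := hg1.trans hgB
  have hB1' : (1 : ℝ) ≤ B := by exact_mod_cast hB1
  have hBp : (0 : ℝ) < B := by exact_mod_cast hB1
  have hAp : (0 : ℝ) < A := by exact_mod_cast hA
  have hgB' : (g : ℝ) ≤ B := by exact_mod_cast hgB
  have hKW : (K : ℝ) * (WW w : ℝ) ≤ dl * B := by
    rw [div_le_iff₀ hdl] at hg4
    nlinarith
  have hKWA : ∀ i, K * WW w ≤ A * B ^ d i := by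
    intro i
    have h1 : (K : ℝ) * (WW w : ℝ) ≤ A * (B : ℝ) ^ d i := by
      have h2 : dl * B ≤ 1 * B := mul_le_mul_of_nonneg_right hdl1 hBp.le
      have h4 : (1 : ℝ) ≤ A := by exact_mod_cast hA
      have h5 : (B : ℝ) ≤ (B : ℝ) ^ d i := by
        calc (B : ℝ) = (B : ℝ) ^ 1 := (pow_one _).symm
          _ ≤ (B : ℝ) ^ d i := pow_le_pow_right₀ hB1' (hd i)
      have h6 : (B : ℝ) ^ d i ≤ A * (B : ℝ) ^ d i := le_mul_of_one_le_left (by positivity) h4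
      linarith
    exact_mod_cast h1
  have hnl : l + 1 ≤ n * l + 1 := by
    have h1 : 1 * l ≤ n * l := Nat.mul_le_mul_right l (by omega)
    omega
  have hbd := hbad B H (g ^ l) (Nat.one_le_pow _ _ hg1)
    (by rw [hHg]; exact Nat.pow_le_pow_right hg1 (by omega))
    (by
      rw [hBg]
      calc 2 ^ (n + 1) * g ^ l ≤ g * g ^ l := Nat.mul_le_mul_right _ hg2
        _ = g ^ (l + 1) := by ring
        _ ≤ g ^ (n * l + 1) := Nat.pow_le_pow_right hg1 hnl)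
    (by
      rw [hBg, hHg]
      calc 3 ^ n * (n + 1) * g ^ (n * l + 1) ≤ g * g ^ (n * l + 1) := Nat.mul_le_mul_right _ hg3
        _ = g ^ (l + 2) * (g ^ l) ^ (n - 1) := by
          rw [← pow_mul, ← pow_add, ← pow_succ']
          congr 1
          obtain ⟨m, rfl⟩ : ∃ m, n = m + 1 := ⟨n - 1, by omega⟩
          rw [Nat.add_sub_cancel]
          ring)
  have hcount := CN_Low_count d hr (by omega) (by omega) hd ρ hρ hρ1 q hq K hK w hw1 B H hB1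
    (by rw [hdle]; exact hKW) A hA F hF o S hS hR
  rw [hc1e] at hcount
  generalize (sm (WW w) (ctT (ZMod (WW w)) F) : ℕ) = s at hcount
  -- the number of good points
  have hL0 : (((GG B H q o).filter
      (fun x => ∀ i, Loc (WW w) K A o (F i) x)).card : ℝ) *
      (((K : ℝ) ^ r * (WW w : ℝ) ^ r) / (3 ^ r * (A : ℝ) ^ r * (B : ℝ) ^ (∑ i, d i))) ≤
        Ll B H q o (WW w) K A F := by
    unfold Ll
    rw [← nsmul_eq_mul]
    refine Finset.card_nsmul_le_sum _ _ _ ?_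
    intro x hx
    obtain ⟨hxV, hxo, _, _⟩ := Finset.mem_filter.mp (Finset.mem_filter.mp hx).1
    have hx0 : 0 ≤ x o := by
      by_contra hneg
      have h1 : (q : ℤ) * x o ≤ 0 := mul_nonpos_of_nonneg_of_nonpos (Nat.cast_nonneg _) (by omega)
      have h2 : (1 : ℤ) ≤ B := by exact_mod_cast hB1
      linarith
    have e1 : ((K : ℝ) ^ r * (WW w : ℝ) ^ r) / (3 ^ r * (A : ℝ) ^ r * (B : ℝ) ^ (∑ i, d i)) =
        ∏ i : Fin r, ((K * (WW w : ℝ)) / (3 * A * (B : ℝ) ^ d i)) := by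
      rw [Finset.prod_div_distrib, Finset.prod_mul_distrib, Finset.prod_mul_distrib, Finset.prod_mul_distrib,
        Finset.prod_const, Finset.prod_const, Finset.prod_const, Finset.prod_const, Finset.card_univ,
        Fintype.card_fin, Finset.prod_pow_eq_pow_sum]
    rw [e1]
    refine Finset.prod_le_prod (fun i _ => by positivity) fun i _ => ?_
    obtain ⟨h1, h2⟩ := muUp (d i) (WW w) K A B o hWn hK (hKWA i) x hxV hx0
    rw [le_div_iff₀ h1]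
    calc (K * (WW w : ℝ)) / (3 * A * (B : ℝ) ^ d i) * ((MS (d i) (WW w) K A o x).card : ℝ) ≤
          (K * (WW w : ℝ)) / (3 * A * (B : ℝ) ^ d i) * (3 * A * (B : ℝ) ^ d i / (K * (WW w : ℝ))) :=
          mul_le_mul_of_nonneg_left h2 (by positivity)
      _ = 1 := by field_simp
  refine le_trans ?_ hL0
  generalize (((GG B H q o).filter
      (fun x => ∀ i, Loc (WW w) K A o (F i) x)).card : ℝ) = P at hcount
  have hbd' : (((VBox n B).filter fun x => ¬ HGood H x).card : ℝ) ≤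
      C * ((B : ℝ) ^ (n + 1) / g) := by
    refine hbd.trans (le_of_eq ?_)
    have h1 : (B : ℝ) ^ n * ((g ^ l : ℕ) : ℝ) ^ n * g = (B : ℝ) ^ (n + 1) := by
      rw [hBg]
      push_cast
      rw [← pow_mul, ← pow_mul, ← pow_mul, ← pow_add, ← pow_succ]
      exact congrArg (fun e => (g : ℝ) ^ e) (by ring)
    rw [← h1]
    field_simp
  generalize (((VBox n B).filter fun x => ¬ HGood H x).card : ℝ) = D at hcount hbd'
  generalize hWe : (WW w : ℝ) = W at *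
  have hE : (0 : ℝ) < (B : ℝ) ^ (n + 1) := by positivity
  -- per class
  have hcls : c1 * (B : ℝ) ^ (n + 1) / (2 * ((K : ℝ) ^ r * W ^ (n + 1))) ≤
      c1 * (B : ℝ) ^ (n + 1) / ((K : ℝ) ^ r * W ^ (n + 1)) -
        ((4 * B / W) ^ (n + 1) / w + 2 ^ (n + 1) * B) := by
    have h1 : (4 * (B : ℝ) / W) ^ (n + 1) / w ≤
        c1 * (B : ℝ) ^ (n + 1) / (4 * ((K : ℝ) ^ r * W ^ (n + 1))) := by
      rw [div_le_iff₀ hwp]
      have h2 : 4 ^ (n + 1) * (4 * (K : ℝ) ^ r) ≤ c1 * w := by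
        rw [div_le_iff₀ hc1] at hw2
        linarith
      rw [div_pow, mul_pow]
      rw [div_mul_eq_mul_div, div_le_div_iff₀ (by positivity) (by positivity)]
      calc 4 ^ (n + 1) * (B : ℝ) ^ (n + 1) * (4 * ((K : ℝ) ^ r * W ^ (n + 1))) =
            (4 ^ (n + 1) * (4 * (K : ℝ) ^ r)) * ((B : ℝ) ^ (n + 1) * W ^ (n + 1)) := by ring
        _ ≤ (c1 * w) * ((B : ℝ) ^ (n + 1) * W ^ (n + 1)) := by gcongr
        _ = c1 * (B : ℝ) ^ (n + 1) * w * W ^ (n + 1) := by ring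
    have h3 : 2 ^ (n + 1) * (B : ℝ) ≤
        c1 * (B : ℝ) ^ (n + 1) / (4 * ((K : ℝ) ^ r * W ^ (n + 1))) := by
      rw [le_div_iff₀ (by positivity)]
      rw [div_le_iff₀ hc1] at hg5
      have h4 : (g : ℝ) ≤ (B : ℝ) ^ n := by
        refine hgB'.trans ?_
        calc (B : ℝ) = (B : ℝ) ^ 1 := (pow_one _).symm
          _ ≤ (B : ℝ) ^ n := pow_le_pow_right₀ hB1' (by omega)
      calc 2 ^ (n + 1) * (B : ℝ) * (4 * ((K : ℝ) ^ r * W ^ (n + 1))) =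
            (2 ^ (n + 1) * W ^ (n + 1) * (4 * (K : ℝ) ^ r)) * B := by ring
        _ ≤ (g * c1) * B := by gcongr
        _ ≤ ((B : ℝ) ^ n * c1) * B := by gcongr
        _ = c1 * (B : ℝ) ^ (n + 1) := by ring
    have h5 : c1 * (B : ℝ) ^ (n + 1) / ((K : ℝ) ^ r * W ^ (n + 1)) =
        c1 * (B : ℝ) ^ (n + 1) / (2 * ((K : ℝ) ^ r * W ^ (n + 1))) +
        (c1 * (B : ℝ) ^ (n + 1) / (4 * ((K : ℝ) ^ r * W ^ (n + 1))) +
        c1 * (B : ℝ) ^ (n + 1) / (4 * ((K : ℝ) ^ r * W ^ (n + 1)))) := by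
      field_simp
      ring
    rw [h5]
    linarith
  have hs0 : (0 : ℝ) ≤ s := Nat.cast_nonneg _
  have hP : (s : ℝ) * (c1 * (B : ℝ) ^ (n + 1) / (2 * ((K : ℝ) ^ r * W ^ (n + 1)))) -
      C * ((B : ℝ) ^ (n + 1) / g) ≤ P := by
    have h1 := mul_le_mul_of_nonneg_left hcls hs0
    linarith
  have hη' : (K : ℝ) ^ r * W ^ r * C / (3 ^ r * g) ≤ η := by
    rw [div_le_iff₀ (by positivity)] at hg6
    rw [div_le_iff₀ (by positivity)]
    linarith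
  generalize hDD : ∑ i, d i = DD
  have hf : (0 : ℝ) ≤ (B : ℝ) ^ (n + 1) / ((A : ℝ) ^ r * (B : ℝ) ^ DD) := by positivity
  have hf2 : (0 : ℝ) ≤ ((K : ℝ) ^ r * W ^ r) / (3 ^ r * (A : ℝ) ^ r * (B : ℝ) ^ DD) := by positivity
  calc (B : ℝ) ^ (n + 1) / ((A : ℝ) ^ r * (B : ℝ) ^ DD) *
        (c1 / (2 * 3 ^ r) * ((s : ℝ) * W ^ r / W ^ (n + 1)) - η) ≤
        (B : ℝ) ^ (n + 1) / ((A : ℝ) ^ r * (B : ℝ) ^ DD) *
        (c1 / (2 * 3 ^ r) * ((s : ℝ) * W ^ r / W ^ (n + 1)) - (K : ℝ) ^ r * W ^ r * C / (3 ^ r * g)) :=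
        mul_le_mul_of_nonneg_left (by linarith) hf
    _ = ((s : ℝ) * (c1 * (B : ℝ) ^ (n + 1) / (2 * ((K : ℝ) ^ r * W ^ (n + 1)))) -
      C * ((B : ℝ) ^ (n + 1) / g)) * (((K : ℝ) ^ r * W ^ r) / (3 ^ r * (A : ℝ) ^ r * (B : ℝ) ^ DD)) := by
        field_simp
    _ ≤ P * (((K : ℝ) ^ r * W ^ r) / (3 ^ r * (A : ℝ) ^ r * (B : ℝ) ^ DD)) :=
        mul_le_mul_of_nonneg_right hP hf2

end Pool.Agent.Lib.MP_1ad228_ntF
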