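import Pool.Agent.Lib.MP_219881_nt.Vals
import Pool.Agent.Lib.MP_219881_nt.GGfacts
import Pool.Agent.Lib.MP_219881_nt.PerpSpan
import Pool.Agent.Lib.MP_219881_nt.AlphaPt
import Pool.Agent.Lib.MP_219881_nt.CntY
import Pool.Agent.Lib.MP_219881_nt.Beta
import Pool.Agent.Lib.MP_219881_nt.CntPairs
import Pool.Agent.Lib.MP_219881_nt.HG_Bad
import Pool.Agent.Lib.MP_219881_nt.CN_Cls
import Pool.Agent.Lib.MP_219881_nt.CN_Np
import Pool.Agent.Lib.MP_219881_nt.MN_Par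
import Pool.Agent.Lib.MP_219881_nt.LD_Base
import Pool.Agent.Lib.MP_219881_nt.LD_Cnt
import Pool.Agent.Lib.MP_219881_nt.LD_Uni
import Pool.Agent.Lib.MP_219881_nt.LD_Equi
import Pool.Agent.Lib.MP_219881_nt.RP_Cont

/-!
MP_1ad228_nt, Fano complete intersections.  Definitions.
Paper: team-store PAPER_MP_1ad228_ntF.md
-/

namespace Pool.Agent.Lib.MP_1ad228_ntF

export Pool.Agent.Lib.MP_219881_nt (Vc lin cv Uni VBox mn Del Dd HGood GG WW
  lin_add lin_add_right lin_sub lin_sub_right lin_smul lin_smul_right lin_comm lin_single mn_swap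
  lin_cv mem_VBox card_VBox)

open Classical

/-- Tensors of degree `d` on the space of vectors with `n + 1` coordinates. -/
abbrev Ten (n d : ℕ) (R : Type*) := (Fin d → Fin (n + 1)) → R

/-- Value at `x` of the form of degree `d` of the tensor `a`. -/
def ev {n d : ℕ} {R : Type*} [CommRing R] (a : Ten n d R) (x : Vc n R) : R :=
  ∑ s, a s * ∏ k, x (s k)

/-- Product tensor. -/
def tp {n d : ℕ} {R : Type*} [CommRing R] (u : Fin d → Vc n R) : Ten n d R :=
  fun s => ∏ k, u k (s k)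

/-- Partial derivative (direction `j`) of the form of the tensor `a` at `x`. -/
def dev {n d : ℕ} {R : Type*} [CommRing R] (a : Ten n d R) (x : Vc n R) (j : Fin (n + 1)) : R :=
  ∑ k, ∑ s, if s k = j then a s * ∏ l ∈ Finset.univ.erase k, x (s l) else 0

/-- Cast of integer tensors. -/
def ct {n d : ℕ} (R : Type*) [CommRing R] (a : Ten n d ℤ) : Ten n d R := fun s => (a s : R)

/-- Integer tensors with all entries in `[-X, X]`. -/
noncomputable def Box (n d X : ℕ) : Finset (Ten n d ℤ) :=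
  Fintype.piFinset fun _ => Finset.Icc (-(X : ℤ)) (X : ℤ)

/-- Sup norm of an integer tensor. -/
def tn {n d : ℕ} (a : Ten n d ℤ) : ℕ := Finset.univ.sup fun s => (a s).natAbs

/-- Weight function. -/
noncomputable def psi {n d : ℕ} (A : ℕ) (a : Ten n d ℤ) : ℝ := max 0 (1 - (tn a : ℝ) / (2 * A))

/-- The constant of the lattice lemmas. -/
def cc (n d : ℕ) : ℕ := d ^ 2 * n ^ 2 * (n + 1) ^ d

/-- Number of tensors in the box vanishing at `x`. -/
noncomputable def n1 {n : ℕ} (d : ℕ) (x : Vc n ℤ) (X : ℕ) : ℕ :=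
  ((Box n d X).filter fun a => ev a x = 0).card

/-- Number of tensors in the box vanishing at `x` and at `y`. -/
noncomputable def n2 {n : ℕ} (d : ℕ) (x y : Vc n ℤ) (X : ℕ) : ℕ :=
  ((Box n d X).filter fun a => ev a x = 0 ∧ ev a y = 0).card

/-- Weighted slices. -/
noncomputable def sl {n : ℕ} (d A : ℕ) (x y : Vc n ℤ) (m m' : ℤ) : ℝ :=
  ∑ a ∈ (Box n d (2 * A)).filter (fun a => ev a x = m ∧ ev a y = m'), psi A a

/-- The local condition of the tensor `a` at `x`. -/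
def Loc {n d : ℕ} (W K A : ℕ) (o : Fin (n + 1)) (a : Ten n d ℤ) (x : Vc n ℤ) : Prop :=
  (W : ℤ) ∣ ev a x ∧ (K : ℤ) * |ev a x| ≤ A * (x o) ^ d

/-- The set of values allowed by the local condition at `x`. -/
noncomputable def MS {n : ℕ} (d W K A : ℕ) (o : Fin (n + 1)) (x : Vc n ℤ) : Finset ℤ :=
  (Finset.Icc (-(A * (x o) ^ d)) (A * (x o) ^ d)).filter fun m =>
    ((W : ℤ) ∣ m ∧ (K : ℤ) * |m| ≤ A * (x o) ^ d)

/-- Average over the allowed values at `x` of the slices through `(m, 0)`. -/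
noncomputable def TT {n : ℕ} (d : ℕ) (o : Fin (n + 1)) (W K A : ℕ) (x y : Vc n ℤ) : ℝ :=
  (1 / ((MS d W K A o x).card : ℝ)) * ∑ m ∈ MS d W K A o x, sl d A x y m 0

/-- Average over the allowed values at `y` of the slices through `(0, m')`. -/
noncomputable def TS {n : ℕ} (d : ℕ) (o : Fin (n + 1)) (W K A : ℕ) (x y : Vc n ℤ) : ℝ :=
  (1 / ((MS d W K A o y).card : ℝ)) * ∑ m' ∈ MS d W K A o y, sl d A x y 0 m'

/-- Average over the allowed values at `x` and at `y` of the slices. -/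
noncomputable def UU {n : ℕ} (d : ℕ) (o : Fin (n + 1)) (W K A : ℕ) (x y : Vc n ℤ) : ℝ :=
  (1 / ((MS d W K A o x).card : ℝ)) * (1 / ((MS d W K A o y).card : ℝ)) *
    ∑ m ∈ MS d W K A o x, ∑ m' ∈ MS d W K A o y, sl d A x y m m'

/-- Tuples of tensors of degrees `d 0, d 1, ...`. -/
abbrev Tup (n : ℕ) {r : ℕ} (d : Fin r → ℕ) (R : Type*) := (i : Fin r) → Ten n (d i) R

/-- Number of entries of a tuple. -/
def VV (n : ℕ) {r : ℕ} (d : Fin r → ℕ) : ℕ := ∑ i, (n + 1) ^ d i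

/-- The constant of the lattice lemmas for tuples. -/
def CC (n : ℕ) {r : ℕ} (d : Fin r → ℕ) : ℕ := ∑ i, cc n (d i)

/-- Cast of integer tuples. -/
def ctT {n r : ℕ} {d : Fin r → ℕ} (R : Type*) [CommRing R] (F : Tup n d ℤ) : Tup n d R :=
  fun i => ct R (F i)

/-- Tuples with all entries in `[-X, X]`. -/
noncomputable def TBox (n : ℕ) {r : ℕ} (d : Fin r → ℕ) (X : ℕ) : Finset (Tup n d ℤ) :=
  Fintype.piFinset fun i => Box n (d i) X

/-- Number of test points on the intersection. -/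
noncomputable def Nn {n r : ℕ} {d : Fin r → ℕ} (B H q : ℕ) (o : Fin (n + 1))
    (F : Tup n d ℤ) : ℕ :=
  ((GG B H q o).filter fun x => ∀ i, ev (F i) x = 0).card

/-- Local prediction. -/
noncomputable def Ll {n r : ℕ} {d : Fin r → ℕ} (B H q : ℕ) (o : Fin (n + 1)) (W K A : ℕ)
    (F : Tup n d ℤ) : ℝ :=
  ∑ x ∈ (GG B H q o).filter (fun x => ∀ i, Loc W K A o (F i) x),
    ∏ i, (1 / ((MS (d i) W K A o x).card : ℝ))

/-- The weighted variance. -/
noncomputable def Qv {n r : ℕ} (d : Fin r → ℕ) (B H q : ℕ) (o : Fin (n + 1)) (W K A : ℕ) : ℝ :=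
  ∑ F ∈ TBox n d (2 * A), (∏ i, psi A (F i)) *
    ((Nn B H q o F : ℝ) - Ll B H q o W K A F) ^ 2

/-- Contribution of a pair of points to the variance. -/
noncomputable def EE {n r : ℕ} (d : Fin r → ℕ) (o : Fin (n + 1)) (W K A : ℕ)
    (x y : Vc n ℤ) : ℝ :=
  ∏ i, sl (d i) A x y 0 0 - ∏ i, TT (d i) o W K A x y - ∏ i, TS (d i) o W K A x y
    + ∏ i, UU (d i) o W K A x y

/-- Number of unimodular common zeros modulo `m` of a tuple over `ZMod m`. -/
noncomputable def sm {n r : ℕ} {d : Fin r → ℕ} (m : ℕ) (F : Tup n d (ZMod m)) : ℕ :=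
  Nat.card {x : Vc n (ZMod m) // Uni x ∧ ∀ i, ev (F i) x = 0}

/-- Tuples over `ZMod m` with a singular unimodular common zero (some coordinate of the point and
some coordinate of the degenerate combination normalised to 1). -/
def Exc {n r : ℕ} {d : Fin r → ℕ} (m : ℕ) (F : Tup n d (ZMod m)) : Prop :=
  ∃ (x : Vc n (ZMod m)) (i : Fin (n + 1)) (t : Fin r → ZMod m) (l : Fin r), x i = 1 ∧ t l = 1 ∧
    (∀ k, ev (F k) x = 0) ∧ ∀ j, j ≠ i → ∑ k, t k * dev (F k) x j = 0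

/-- Common nonzero zero over all `p`-adic fields. -/
def PSol {n r : ℕ} {d : Fin r → ℕ} (F : Tup n d ℤ) : Prop :=
  ∀ (p : ℕ) [Fact p.Prime], ∃ x : Vc n ℚ_[p], x ≠ 0 ∧ ∀ i, ev (ct ℚ_[p] (F i)) x = 0

/-- Common nonzero real zero. -/
def RSol {n r : ℕ} {d : Fin r → ℕ} (F : Tup n d ℤ) : Prop :=
  ∃ x : Vc n ℝ, x ≠ 0 ∧ ∀ i, ev (ct ℝ (F i)) x = 0

/-- Robust real solubility of the real tuple `α`, with pivot `o` and solved coordinates `S`. -/
def Rob {n r : ℕ} {d : Fin r → ℕ} (o : Fin (n + 1)) (S : Fin r → Fin (n + 1)) (ρ : ℝ)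
    (α : Tup n d ℝ) : Prop :=
  ∃ ξ : Vc n ℝ, ∀ y : Vc n ℝ, (∀ l, |y l - ξ l| ≤ ρ) →
    ∃ s : Vc n ℝ, (∀ l, (∀ k, l ≠ S k) → s l = y l) ∧ (∀ l, |s l| ≤ 1 / 2) ∧ 2 * ρ ≤ s o ∧
      ∀ i, ev (α i) s = 0

/-- Index set of the entries of a tuple. -/
abbrev Kp (n : ℕ) {r : ℕ} (d : Fin r → ℕ) := (i : Fin r) × (Fin (d i) → Fin (n + 1))

/-- The tuple with entries `ω`. -/
def pt {n r : ℕ} {d : Fin r → ℕ} {R : Type*} (ω : Kp n d → R) : Tup n d R :=
  fun i s => ω ⟨i, s⟩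

end Pool.Agent.Lib.MP_1ad228_ntF
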