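import Pool.Agent.Lib.MP_1ad228_ntF.Basic

/-!
JOB Expand.  The variance is the sum over pairs of test points.
(Model: Lib/MP_219881_nt/Expand.lean)

PROOF.  For `x ∈ GG B H q o` and a tensor `a` of degree `d` write `s_x(a) = 1` if `ev a x = 0` and 0 otherwise, and
`l_x(a) = (1/μ_x) * ∑ m ∈ MS d W K A o x, (1 if ev a x = m else 0)` (`μ_x` the cardinality of `MS d W K A o x`).
For `K ≥ 1`, `Loc W K A o a x` iff `ev a x ∈ MS d W K A o x` (the interval condition follows from
`K |m| ≤ A x_o^d`), so `l_x(a) = 1/μ_x` if `Loc W K A o a x` and 0 otherwise;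
`Nn B H q o F = ∑_x ∏_i s_x(F i)`, `Ll B H q o W K A F = ∑_x ∏_i l_x(F i)` (`Finset.prod_ite_zero`-type argument:
a product of indicators is the indicator of `∀ i`) and
`(N - L)^2 = ∑_x ∑_y (∏ s_x - ∏ l_x) (∏ s_y - ∏ l_y)
 = ∑_x ∑_y (∏ s_x s_y - ∏ l_x s_y - ∏ s_x l_y + ∏ l_x l_y)` (`Finset.prod_mul_distrib`).
Multiply by `∏ i, psi A (F i)`, sum over `F ∈ TBox n d (2*A)`, exchange the sums: for each pair `x, y` the sum over
`F` of a product `∏ i, f i (F i)` is `∏ i, ∑ a ∈ Box n (d i) (2*A), f i a` (`Finset.prod_univ_sum`), with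
`∑_a psi s_x s_y = sl d A x y 0 0`, `∑_a psi l_x s_y = TT d o W K A x y`, `∑_a psi s_x l_y = TS d o W K A x y`,
`∑_a psi l_x l_y = UU d o W K A x y`.
-/

namespace Pool.Agent.Lib.MP_1ad228_ntF

open Classical

/-- Indicator of `ev a x = m`. -/
private noncomputable def expandD {n d : ℕ} (x : Vc n ℤ) (m : ℤ) (a : Ten n d ℤ) : ℝ :=
  if ev a x = m then 1 else 0

/-- The local function. -/
private noncomputable def expandL {n d : ℕ} (o : Fin (n + 1)) (W K A : ℕ) (x : Vc n ℤ) (a : Ten n d ℤ) : ℝ :=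
  (1 / ((MS d W K A o x).card : ℝ)) * ∑ m ∈ MS d W K A o x, expandD x m a

private theorem expand_mem {n d : ℕ} (o : Fin (n + 1)) (W K A : ℕ) (hK : 1 ≤ K) (x : Vc n ℤ) (a : Ten n d ℤ) :
    ev a x ∈ MS d W K A o x ↔ Loc W K A o a x := by
  unfold MS Loc
  rw [Finset.mem_filter, Finset.mem_Icc]
  constructor
  · exact fun h => h.2
  · intro h
    refine ⟨?_, h⟩
    have h1 : |ev a x| ≤ (A : ℤ) * (x o) ^ d := by
      have h2 : (1 : ℤ) ≤ (K : ℤ) := by exact_mod_cast hK
      have h3 : 1 * |ev a x| ≤ (K : ℤ) * |ev a x| :=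
        mul_le_mul_of_nonneg_right h2 (abs_nonneg _)
      have h4 := h.2
      linarith
    exact abs_le.mp h1

private theorem expand_L {n d : ℕ} (o : Fin (n + 1)) (W K A : ℕ) (hK : 1 ≤ K) (x : Vc n ℤ) (a : Ten n d ℤ) :
    expandL o W K A x a = if Loc W K A o a x then 1 / ((MS d W K A o x).card : ℝ) else 0 := by
  unfold expandL expandD
  rw [Finset.sum_ite_eq]
  by_cases h : Loc W K A o a x
  · rw [if_pos ((expand_mem o W K A hK x a).mpr h), if_pos h, mul_one]
  · rw [if_neg (fun h' => h ((expand_mem o W K A hK x a).mp h')), if_neg h, mul_zero]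

private theorem expand_sl {n : ℕ} (d A : ℕ) (x y : Vc n ℤ) (m m' : ℤ) :
    sl d A x y m m' = ∑ a ∈ Box n d (2 * A), psi A a * (expandD x m a * expandD y m' a) := by
  unfold sl expandD
  rw [Finset.sum_filter]
  refine Finset.sum_congr rfl fun a _ => ?_
  by_cases h1 : ev a x = m
  · by_cases h2 : ev a y = m'
    · rw [if_pos ⟨h1, h2⟩, if_pos h1, if_pos h2]; ring
    · rw [if_neg (fun h => h2 h.2), if_neg h2]; ring
  · rw [if_neg (fun h => h1 h.1), if_neg h1]; ring

private theorem expand_TT {n : ℕ} (d : ℕ) (o : Fin (n + 1)) (W K A : ℕ) (x y : Vc n ℤ) :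
    TT d o W K A x y = ∑ a ∈ Box n d (2 * A), psi A a * (expandL o W K A x a * expandD y 0 a) := by
  unfold TT
  simp only [expand_sl, expandL]
  rw [Finset.sum_comm, Finset.mul_sum]
  refine Finset.sum_congr rfl fun a _ => ?_
  rw [← Finset.mul_sum, ← Finset.sum_mul]
  ring

private theorem expand_TS {n : ℕ} (d : ℕ) (o : Fin (n + 1)) (W K A : ℕ) (x y : Vc n ℤ) :
    TS d o W K A x y = ∑ a ∈ Box n d (2 * A), psi A a * (expandD x 0 a * expandL o W K A y a) := by
  unfold TS
  simp only [expand_sl, expandL]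
  rw [Finset.sum_comm, Finset.mul_sum]
  refine Finset.sum_congr rfl fun a _ => ?_
  rw [← Finset.mul_sum, ← Finset.mul_sum]
  ring

private theorem expand_UU {n : ℕ} (d : ℕ) (o : Fin (n + 1)) (W K A : ℕ) (x y : Vc n ℤ) :
    UU d o W K A x y = ∑ a ∈ Box n d (2 * A), psi A a * (expandL o W K A x a * expandL o W K A y a) := by
  unfold UU
  simp only [expand_sl, expandL]
  have h1 : ∑ m ∈ MS d W K A o x, ∑ m' ∈ MS d W K A o y, ∑ a ∈ Box n d (2 * A),
        psi A a * (expandD x m a * expandD y m' a)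
      = ∑ a ∈ Box n d (2 * A), psi A a *
        ((∑ m ∈ MS d W K A o x, expandD x m a) * ∑ m' ∈ MS d W K A o y, expandD y m' a) := by
    calc ∑ m ∈ MS d W K A o x, ∑ m' ∈ MS d W K A o y, ∑ a ∈ Box n d (2 * A),
          psi A a * (expandD x m a * expandD y m' a)
        = ∑ m ∈ MS d W K A o x, ∑ a ∈ Box n d (2 * A), ∑ m' ∈ MS d W K A o y,
          psi A a * (expandD x m a * expandD y m' a) :=
          Finset.sum_congr rfl fun m _ => Finset.sum_comm
      _ = ∑ a ∈ Box n d (2 * A), ∑ m ∈ MS d W K A o x, ∑ m' ∈ MS d W K A o y,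
          psi A a * (expandD x m a * expandD y m' a) := Finset.sum_comm
      _ = _ := by
          refine Finset.sum_congr rfl fun a _ => ?_
          rw [Finset.sum_mul_sum, Finset.mul_sum]
          refine Finset.sum_congr rfl fun m _ => ?_
          rw [Finset.mul_sum]
  rw [h1, Finset.mul_sum]
  refine Finset.sum_congr rfl fun a _ => ?_
  ring

private theorem expand_prod {n r : ℕ} (d : Fin r → ℕ) (X : ℕ)
    (p f g u v : (i : Fin r) → Ten n (d i) ℤ → ℝ) :
    ∑ F ∈ TBox n d X, (∏ i, p i (F i)) * ((∏ i, f i (F i) - ∏ i, u i (F i)) *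
      (∏ i, g i (F i) - ∏ i, v i (F i))) =
    ∏ i, (∑ a ∈ Box n (d i) X, p i a * (f i a * g i a)) - ∏ i, (∑ a ∈ Box n (d i) X, p i a * (u i a * g i a))
      - ∏ i, (∑ a ∈ Box n (d i) X, p i a * (f i a * v i a))
      + ∏ i, (∑ a ∈ Box n (d i) X, p i a * (u i a * v i a)) := by
  unfold TBox
  rw [Finset.prod_univ_sum, Finset.prod_univ_sum, Finset.prod_univ_sum, Finset.prod_univ_sum,
    ← Finset.sum_sub_distrib, ← Finset.sum_sub_distrib, ← Finset.sum_add_distrib]
  refine Finset.sum_congr rfl fun F _ => ?_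
  simp only [Finset.prod_mul_distrib]
  ring

private theorem expand_EE {n r : ℕ} (d : Fin r → ℕ) (o : Fin (n + 1)) (W K A : ℕ) (x y : Vc n ℤ) :
    EE d o W K A x y = ∑ F ∈ TBox n d (2 * A), (∏ i, psi A (F i)) *
      ((∏ i, expandD x 0 (F i) - ∏ i, expandL o W K A x (F i)) *
        (∏ i, expandD y 0 (F i) - ∏ i, expandL o W K A y (F i))) := by
  rw [expand_prod d (2 * A) (fun _ a => psi A a) (fun _ a => expandD x 0 a) (fun _ a => expandD y 0 a)
    (fun _ a => expandL o W K A x a) (fun _ a => expandL o W K A y a)]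
  unfold EE
  simp only [expand_TT, expand_TS, expand_UU, expand_sl]

private theorem expand_ind {r : ℕ} (P : Fin r → Prop) [DecidablePred P] [Decidable (∀ i, P i)]
    (c : Fin r → ℝ) :
    (if ∀ i, P i then ∏ i, c i else 0) = ∏ i, (if P i then c i else 0) := by
  by_cases h : ∀ i, P i
  · rw [if_pos h]
    exact Finset.prod_congr rfl fun i _ => (if_pos (h i)).symm
  · rw [if_neg h]
    obtain ⟨i, hi⟩ := not_forall.1 h
    exact (Finset.prod_eq_zero (Finset.mem_univ i) (if_neg hi)).symm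

theorem expand {n r : ℕ} (d : Fin r → ℕ) (B H q : ℕ) (o : Fin (n + 1)) (W K A : ℕ) (hK : 1 ≤ K) :
    Qv d B H q o W K A = ∑ x ∈ GG B H q o, ∑ y ∈ GG B H q o, EE d o W K A x y := by
  have hN : ∀ F : Tup n d ℤ, (Nn B H q o F : ℝ) = ∑ x ∈ GG B H q o, ∏ i, expandD x 0 (F i) := by
    intro F
    unfold Nn expandD
    rw [Finset.card_filter, Nat.cast_sum]
    refine Finset.sum_congr rfl fun x _ => ?_
    rw [← expand_ind (fun i => ev (F i) x = 0) (fun _ => 1), Finset.prod_const_one]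
    by_cases h : ∀ i, ev (F i) x = 0
    · rw [if_pos h, if_pos h, Nat.cast_one]
    · rw [if_neg h, if_neg h, Nat.cast_zero]
  have hL : ∀ F : Tup n d ℤ, Ll B H q o W K A F = ∑ x ∈ GG B H q o, ∏ i, expandL o W K A x (F i) := by
    intro F
    unfold Ll
    rw [Finset.sum_filter]
    refine Finset.sum_congr rfl fun x _ => ?_
    simp only [expand_L o W K A hK x]
    rw [← expand_ind (fun i => Loc W K A o (F i) x) (fun i => 1 / ((MS (d i) W K A o x).card : ℝ))]
  have hQ : ∀ F : Tup n d ℤ, (∏ i, psi A (F i)) * ((Nn B H q o F : ℝ) - Ll B H q o W K A F) ^ 2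
      = ∑ x ∈ GG B H q o, ∑ y ∈ GG B H q o, (∏ i, psi A (F i)) *
      ((∏ i, expandD x 0 (F i) - ∏ i, expandL o W K A x (F i)) *
        (∏ i, expandD y 0 (F i) - ∏ i, expandL o W K A y (F i))) := by
    intro F
    rw [hN, hL, ← Finset.sum_sub_distrib, sq, Finset.sum_mul_sum, Finset.mul_sum]
    refine Finset.sum_congr rfl fun x _ => ?_
    rw [Finset.mul_sum]
  unfold Qv
  rw [Finset.sum_congr rfl fun F _ => hQ F, Finset.sum_comm]
  refine Finset.sum_congr rfl fun x _ => ?_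
  rw [Finset.sum_comm]
  refine Finset.sum_congr rfl fun y _ => ?_
  exact (expand_EE d o W K A x y).symm

end Pool.Agent.Lib.MP_1ad228_ntF
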