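import Pool.Agent.Lib.MP_1ad228_ntF.FM_Poly

/-!
JOB FM_Loc.  Solubility and smoothness of the forms and of the tensors.  Model (with proofs): Lib/MP_219881_nt/FM_Loc.lean, same proofs with `∀ k`.

* `sol_of_locSol`: `aeval_poly` over `ℝ` and over `ℚ_[p]`.
* `locSol_of_zero`: an integer common zero `x ≠ 0`: `cv ℝ x`, `cv ℚ_[p] x` are nonzero common zeros (`ev_ct`, characteristic zero).
* `smallZero_iff`: `aeval_poly` over `ℤ`: `ct ℤ a = a` (`Int.cast_id`).
* `smooth_iff`: `aeval_poly`, `pderiv_poly` over `AlgebraicClosure ℚ` (`funext`).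
-/

namespace Pool.Agent.Lib.MP_1ad228_ntF

variable {n r : ℕ} {d : Fin r → ℕ}

theorem sol_of_locSol {F : Tup n d ℤ} (h : LocSol (polyT F)) : RSol F ∧ PSol F := by
  constructor
  · obtain ⟨x, hx, h1⟩ := h.1
    refine ⟨x, hx, fun k => ?_⟩
    have h2 := h1 k
    unfold polyT at h2
    rw [aeval_poly] at h2
    exact h2
  · intro p hp
    obtain ⟨x, hx, h1⟩ := h.2 p
    refine ⟨x, hx, fun k => ?_⟩
    have h2 := h1 k
    unfold polyT at h2
    rw [aeval_poly] at h2
    exact h2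

theorem locSol_of_zero {F : Tup n d ℤ} {x : Vc n ℤ} (hx : x ≠ 0) (h : ∀ k, ev (F k) x = 0) :
    LocSol (polyT F) := by
  have key : ∀ (R : Type) [CommRing R] [CharZero R], ∃ y : Fin (n + 1) → R, y ≠ 0 ∧
      ∀ k, MvPolynomial.aeval y (polyT F k) = 0 := by
    intro R _ _
    refine ⟨cv R x, fun h0 => hx ?_, fun k => ?_⟩
    · funext i
      have h1 := congrFun h0 i
      exact Int.cast_injective (α := R) (h1.trans Int.cast_zero.symm)
    · unfold polyT
      rw [aeval_poly, ev_ct, h k, Int.cast_zero]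
  exact ⟨key ℝ, fun p hp => key ℚ_[p]⟩

theorem smallZero_iff (e : ℕ) (X : ℤ) (F : Tup n d ℤ) :
    SmallZero e X (polyT F) ↔
      ∃ x : Vc n ℤ, x ≠ 0 ∧ (∀ i, |x i| ^ e ≤ X) ∧ ∀ k, ev (F k) x = 0 := by
  have e' : ∀ (m : ℕ) (c : Ten n m ℤ), ct ℤ c = c := by
    intro m c
    funext s
    change ((c s : ℤ) : ℤ) = c s
    exact Int.cast_id
  unfold SmallZero polyT
  simp only [aeval_poly, e']

theorem smooth_iff (F : Tup n d ℤ) :
    SmoothCI (polyT F) ↔
      ∀ x : Vc n (AlgebraicClosure ℚ), x ≠ 0 →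
        (∀ k, ev (ct (AlgebraicClosure ℚ) (F k)) x = 0) →
        LinearIndependent (AlgebraicClosure ℚ)
          (fun k => dev (ct (AlgebraicClosure ℚ) (F k)) x) := by
  have e : ∀ (k : Fin r) (x : Vc n (AlgebraicClosure ℚ)),
      (fun i => MvPolynomial.aeval x (MvPolynomial.pderiv i (polyT F k))) =
        dev (ct (AlgebraicClosure ℚ) (F k)) x := by
    intro k x
    funext i
    exact pderiv_poly (F k) x i
  have e' : ∀ (k : Fin r) (x : Vc n (AlgebraicClosure ℚ)),
      MvPolynomial.aeval x (polyT F k) = ev (ct (AlgebraicClosure ℚ) (F k)) x :=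
    fun k x => aeval_poly (F k) x
  have e2 : ∀ x : Vc n (AlgebraicClosure ℚ), (fun (k : Fin r) (i : Fin (n + 1)) =>
      MvPolynomial.aeval x (MvPolynomial.pderiv i (polyT F k))) =
        fun k => dev (ct (AlgebraicClosure ℚ) (F k)) x := fun x => funext fun k => e k x
  unfold SmoothCI
  refine forall_congr' fun x => ?_
  rw [e2 x]
  simp only [e']

end Pool.Agent.Lib.MP_1ad228_ntF
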