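import Pool.Agent.Lib.MP_1ad228_ntF.FM_Tup
import Pool.Agent.Lib.MP_1ad228_ntF.FM_Loc

/-!
JOB FM_Bad.  Transfer of `MainP` to forms.  Model (with proof): Lib/MP_219881_nt/FM_Bad.lean.

`formsBad`: let `K = ∏ k, (2 * (n + 1) ^ d k) ^ Lo n (d k)` (real, positive). `hM (ε / K)` gives `M`, `A0`. `xferT` with
`S = {f | all f k ∈ Forms n (d k) A, LocSol f, not SmallZero}` and `T` = the filter of `MainP` (`sol_of_locSol`, `smallZero_iff`):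
`S.ncard * ∏ k (A / (n + 1) ^ d k + 1) ^ Lo n (d k) ≤ T.card ≤ ε / K * (2A+1) ^ VV n d`.
For `N ≥ 1`: `(A / N : ℕ) + 1 ≥ (A + 1) / N ≥ (2A+1) / (2N)` (`Nat.lt_mul_div_succ` or `Nat.div_add_mod`), so `∏ k ≥ (2A+1) ^ LoT n d / K`
(`Finset.prod_le_prod`, `Finset.prod_pow_eq_pow_sum`, `div_pow`, `Finset.prod_div_distrib`).
`VV = LoT + UpT` (`LoT_add_UpT`), cancel `(2A+1) ^ LoT / K`: `S.ncard ≤ ε (2A+1) ^ UpT`.
-/

namespace Pool.Agent.Lib.MP_1ad228_ntF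

open Classical

theorem formsBad (n : ℕ) {r : ℕ} (d : Fin r → ℕ) (hM : MainP n d) (ε : ℝ) (hε : 0 < ε) :
    ∃ M A0 : ℕ, ∀ A ≥ A0,
    (({f | (∀ k, f k ∈ Forms n (d k) A) ∧ LocSol f ∧
        ¬ SmallZero (n + 1 - ∑ k, d k) ((M : ℤ) * (A : ℤ) ^ r) f} :
      Set (Fin r → MvPolynomial (Fin (n + 1)) ℤ)).ncard : ℝ)
      ≤ ε * (2 * A + 1 : ℝ) ^ UpT n d := by
  have hK : (0 : ℝ) < ∏ k, (2 * ((n : ℝ) + 1) ^ d k) ^ Lo n (d k) :=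
    Finset.prod_pos fun k _ => by positivity
  set K : ℝ := ∏ k, (2 * ((n : ℝ) + 1) ^ d k) ^ Lo n (d k) with hKdef
  obtain ⟨M, A0, h⟩ := hM (ε / K) (div_pos hε hK)
  refine ⟨M, A0, fun A hA => ?_⟩
  have h1 := h A hA
  set S : Set (Fin r → MvPolynomial (Fin (n + 1)) ℤ) :=
    {f | (∀ k, f k ∈ Forms n (d k) A) ∧ LocSol f ∧
        ¬ SmallZero (n + 1 - ∑ k, d k) ((M : ℤ) * (A : ℤ) ^ r) f} with hS
  set T := (TBox n d A).filter fun F => RSol F ∧ PSol F ∧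
        ¬ ∃ x : Vc n ℤ, x ≠ 0 ∧ (∀ i, |x i| ^ (n + 1 - ∑ i, d i) ≤ (M : ℤ) * (A : ℤ) ^ r) ∧
          ∀ i, ev (F i) x = 0 with hT
  have h2 : S.ncard * ∏ k, (A / (n + 1) ^ d k + 1) ^ Lo n (d k) ≤ T.card := by
    refine xferT S (fun f hf => hf.1) T ?_
    intro F hF hpF
    rw [hT, Finset.mem_filter]
    obtain ⟨hr, hp⟩ := sol_of_locSol hpF.2.1
    exact ⟨hF, hr, hp, fun hx => hpF.2.2 ((smallZero_iff _ _ F).2 hx)⟩
  have h3 : (S.ncard : ℝ) * ∏ k, (((A / (n + 1) ^ d k : ℕ) : ℝ) + 1) ^ Lo n (d k) ≤ (T.card : ℝ) := by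
    have h3' : ((S.ncard * ∏ k, (A / (n + 1) ^ d k + 1) ^ Lo n (d k) : ℕ) : ℝ) ≤ (T.card : ℝ) :=
      Nat.cast_le.2 h2
    rw [Nat.cast_mul, Nat.cast_prod] at h3'
    refine le_trans (le_of_eq ?_) h3'
    refine congrArg _ (Finset.prod_congr rfl fun k _ => ?_)
    rw [Nat.cast_pow, Nat.cast_add, Nat.cast_one]
  have hA0 : (0 : ℝ) ≤ A := Nat.cast_nonneg A
  have h5 : (0 : ℝ) < 2 * A + 1 := by positivity
  have h4 : ∀ k, (2 * A + 1 : ℝ) / (2 * ((n : ℝ) + 1) ^ d k) ≤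
      ((A / (n + 1) ^ d k : ℕ) : ℝ) + 1 := by
    intro k
    have hN : 0 < (n + 1) ^ d k := pow_pos (Nat.succ_pos n) _
    have e1 : A < (n + 1) ^ d k * (A / (n + 1) ^ d k + 1) := Nat.lt_mul_div_succ A hN
    have e2 : ((A + 1 : ℕ) : ℝ) ≤ (((n + 1) ^ d k * (A / (n + 1) ^ d k + 1) : ℕ) : ℝ) :=
      Nat.cast_le.2 e1
    rw [Nat.cast_mul, Nat.cast_pow, Nat.cast_add, Nat.cast_add, Nat.cast_add, Nat.cast_one] at e2
    rw [div_le_iff₀ (by positivity)]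
    linarith
  have h6 : (2 * A + 1 : ℝ) ^ LoT n d / K ≤
      ∏ k, (((A / (n + 1) ^ d k : ℕ) : ℝ) + 1) ^ Lo n (d k) := by
    have e1 : (2 * A + 1 : ℝ) ^ LoT n d / K =
        ∏ k, ((2 * A + 1 : ℝ) / (2 * ((n : ℝ) + 1) ^ d k)) ^ Lo n (d k) := by
      unfold LoT
      rw [hKdef, ← Finset.prod_pow_eq_pow_sum, ← Finset.prod_div_distrib]
      exact Finset.prod_congr rfl fun k _ => (div_pow _ _ _).symm
    rw [e1]
    exact Finset.prod_le_prod (fun k _ => by positivity)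
      fun k _ => pow_le_pow_left₀ (by positivity) (h4 k) _
  have h7 : (S.ncard : ℝ) * ((2 * A + 1 : ℝ) ^ LoT n d / K) ≤
      ε / K * (2 * A + 1 : ℝ) ^ VV n d :=
    (mul_le_mul_of_nonneg_left h6 (Nat.cast_nonneg _)).trans (h3.trans h1)
  have h8 : (0 : ℝ) < (2 * A + 1 : ℝ) ^ LoT n d / K := by positivity
  refine le_of_mul_le_mul_right (h7.trans (le_of_eq ?_)) h8
  rw [← LoT_add_UpT, pow_add]
  ring

end Pool.Agent.Lib.MP_1ad228_ntF
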