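import Mathlib

/-! Forms, smooth complete intersections, local solubility: the definitions of the final statement. -/

namespace Pool.Agent.Lib.MP_1ad228_ntF

/-- Integral forms of degree `d` in `n + 1` variables with all coefficients at most `A` in absolute
value. -/
def Forms (n d A : ℕ) : Set (MvPolynomial (Fin (n + 1)) ℤ) :=
  {f | f.IsHomogeneous d ∧ ∀ m, |f.coeff m| ≤ (A : ℤ)}

/-- The forms `F k` define a smooth complete intersection of codimension `r` (over the algebraic
closure of `ℚ`): their gradients are linearly independent at every nonzero common zero. -/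
def SmoothCI {n r : ℕ} (F : Fin r → MvPolynomial (Fin (n + 1)) ℤ) : Prop :=
  ∀ x : Fin (n + 1) → AlgebraicClosure ℚ, x ≠ 0 → (∀ k, MvPolynomial.aeval x (F k) = 0) →
    LinearIndependent (AlgebraicClosure ℚ)
      (fun (k : Fin r) (i : Fin (n + 1)) => MvPolynomial.aeval x (MvPolynomial.pderiv i (F k)))

/-- The forms have a common nonzero zero over the reals and over every `p`-adic field. -/
def LocSol {n r : ℕ} (F : Fin r → MvPolynomial (Fin (n + 1)) ℤ) : Prop :=
  (∃ x : Fin (n + 1) → ℝ, x ≠ 0 ∧ ∀ k, MvPolynomial.aeval x (F k) = 0) ∧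
  ∀ (p : ℕ) [Fact p.Prime], ∃ x : Fin (n + 1) → ℚ_[p], x ≠ 0 ∧
    ∀ k, MvPolynomial.aeval x (F k) = 0

/-- The forms have a common nonzero integer zero with all coordinates satisfying
`|x i| ^ e ≤ X`. -/
def SmallZero {n r : ℕ} (e : ℕ) (X : ℤ) (F : Fin r → MvPolynomial (Fin (n + 1)) ℤ) : Prop :=
  ∃ x : Fin (n + 1) → ℤ, x ≠ 0 ∧ (∀ i, |x i| ^ e ≤ X) ∧ ∀ k, MvPolynomial.aeval x (F k) = 0

end Pool.Agent.Lib.MP_1ad228_ntF
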