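import Pool.Agent.Lib.MP_1ad228_ntF.MainDef
import Pool.Agent.Lib.MP_1ad228_ntF.FormsDef

/-! Tensors and forms, definitions (paper section 12). -/

namespace Pool.Agent.Lib.MP_1ad228_ntF

open Classical

/-- The exponent of the monomial `∏ k, X (s k)`. -/
noncomputable def mo {n d : ℕ} (s : Fin d → Fin (n + 1)) : Fin (n + 1) →₀ ℕ :=
  ∑ k, Finsupp.single (s k) 1

/-- The form of a tensor. -/
noncomputable def poly {n d : ℕ} (a : Ten n d ℤ) : MvPolynomial (Fin (n + 1)) ℤ :=
  ∑ s, MvPolynomial.monomial (mo s) (a s)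

/-- The forms of a tuple of tensors. -/
noncomputable def polyT {n r : ℕ} {d : Fin r → ℕ} (F : Tup n d ℤ) :
    Fin r → MvPolynomial (Fin (n + 1)) ℤ := fun k => poly (F k)

/-- A chosen index of exponent `m`. -/
noncomputable def rp {n : ℕ} (d : ℕ) (m : Fin (n + 1) →₀ ℕ) : Fin d → Fin (n + 1) :=
  if h : ∃ t : Fin d → Fin (n + 1), mo t = m then Classical.choose h else fun _ => 0

/-- The index `s` is the chosen index of its exponent. -/
def IsRp {n d : ℕ} (s : Fin d → Fin (n + 1)) : Prop := rp d (mo s) = s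

/-- The tensor of a form: the coefficients at the chosen indices, zero elsewhere. -/
noncomputable def toTen {n : ℕ} (d : ℕ) (f : MvPolynomial (Fin (n + 1)) ℤ) : Ten n d ℤ := fun s =>
  if IsRp s then f.coeff (mo s) else 0

/-- Sign. -/
def sg (x : ℤ) : ℤ := if 0 ≤ x then 1 else -1

/-- The tensor with the form of `α` (supported on the chosen indices) and entries `± b` at the other
indices. -/
noncomputable def mkT {n d : ℕ} (α b : Ten n d ℤ) : Ten n d ℤ := fun s =>
  if IsRp s then
    α s - sg (α s) * ∑ t ∈ Finset.univ.filter (fun t : Fin d → Fin (n + 1) =>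
      mo t = mo s ∧ ¬ IsRp t), b t
  else sg (α (rp d (mo s))) * b s

/-- Tensors supported outside the chosen indices, with entries in `[0, q]`. -/
noncomputable def BB (n d q : ℕ) : Finset (Ten n d ℤ) :=
  Fintype.piFinset fun s => if IsRp s then {0} else Finset.Icc 0 (q : ℤ)

/-- Number of indices which are not chosen. -/
noncomputable def Lo (n d : ℕ) : ℕ :=
  ((Finset.univ : Finset (Fin d → Fin (n + 1))).filter fun s => ¬ IsRp s).card

/-- Number of chosen indices. -/
noncomputable def Up (n d : ℕ) : ℕ :=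
  ((Finset.univ : Finset (Fin d → Fin (n + 1))).filter fun s => IsRp s).card

/-- Number of entries of a tuple at indices which are not chosen. -/
noncomputable def LoT (n : ℕ) {r : ℕ} (d : Fin r → ℕ) : ℕ := ∑ k, Lo n (d k)

/-- Number of entries of a tuple at chosen indices. -/
noncomputable def UpT (n : ℕ) {r : ℕ} (d : Fin r → ℕ) : ℕ := ∑ k, Up n (d k)

end Pool.Agent.Lib.MP_1ad228_ntF
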