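import Pool.Agent.Lib.MP_1ad228_ntF.FM_Fin
import Pool.Agent.Lib.MP_1ad228_ntF.Main

/-! Final form of the positive proportion statement: everywhere locally soluble smooth complete
intersections. -/

namespace Pool.Agent.Lib.MP_1ad228_ntF

open Classical

theorem locSol_of_intZero (n : ℕ) {r : ℕ} (d : Fin r → ℕ) (A : ℕ)
    (f : Fin r → MvPolynomial (Fin (n + 1)) ℤ) (hf : ∀ k, f k ∈ Forms n (d k) A)
    (x : Fin (n + 1) → ℤ) (hx : x ≠ 0) (h : ∀ k, MvPolynomial.aeval x (f k) = 0) : LocSol f := by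
  have hp : polyT (d := d) (fun k => toTen (d k) (f k)) = f := by
    funext k
    exact poly_toTen (hf k).1
  have h5 := locSol_of_zero (d := d) (F := fun k => toTen (d k) (f k)) hx (fun k => by
    have h2 := h k
    rw [← poly_toTen (hf k).1, aeval_poly] at h2
    have h1 : ct ℤ (toTen (d k) (f k)) = toTen (d k) (f k) := by
      funext s
      unfold ct
      exact Int.cast_id
    rwa [h1] at h2)
  rwa [hp] at h5

theorem final3 (n : ℕ) {r : ℕ} (d : Fin r → ℕ) (hd : ∀ k, 1 ≤ d k) (hP : PosP n d) :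
    ∃ δ : ℝ, 0 < δ ∧ ∃ A0 : ℕ, ∀ A ≥ A0,
    δ * (({f | ∀ k, f k ∈ Forms n (d k) A} :
      Set (Fin r → MvPolynomial (Fin (n + 1)) ℤ)).ncard : ℝ) ≤
    (({f | (∀ k, f k ∈ Forms n (d k) A) ∧ SmoothCI f ∧ LocSol f} :
      Set (Fin r → MvPolynomial (Fin (n + 1)) ℤ)).ncard : ℝ) := by
  obtain ⟨δ, hδ, A1, h1⟩ := final2 n d hd hP
  refine ⟨δ, hδ, A1, fun A hA => le_trans (h1 A hA) ?_⟩
  rw [Nat.cast_le]
  refine Set.ncard_le_ncard ?_ ?_
  · rintro f ⟨g1, g3, x, hx, e1⟩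
    exact ⟨g1, g3, locSol_of_intZero n d A f g1 x hx e1⟩
  · refine Set.Finite.subset (FormsT_finite n d A) ?_
    rintro f ⟨g1, -⟩
    exact g1

end Pool.Agent.Lib.MP_1ad228_ntF
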