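import Pool.Agent.Lib.MP_1ad228_ntF.FM_Tup
import Pool.Agent.Lib.MP_1ad228_ntF.FM_Loc
import Pool.Agent.Lib.MP_1ad228_ntF.RP_Fin

/-!
JOB FM_Good.  Transfer of `PosP` to forms.  Model (with proof): Lib/MP_219881_nt/FM_Good.lean.

`formsGood`: `hP` gives `δ, A1`; `nonSm n d hd (δ/2)` gives `A2`. Let `N = (n + 1) ^ (∑ k, d k)`, so `(n + 1) ^ d k ≤ N` for all `k`
(`Nat.pow_le_pow_right`, `Finset.single_le_sum`) and `1 ≤ N`. For `A ≥ N * (A1 + A2) + N` let `B = A / N`: `B ≥ A1`, `B ≥ A2`, `N * B ≤ A`, `2A + 1 ≤ 2N(2B+1)`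
(`A < N (B + 1)`). `T1` = the filter of `PosP` in `TBox n d B`, `T2` = the filter of `nonSm` in `TBox n d B`;
`T1.card ≤ (T1 \ T2).card + T2.card`. `fibT` (`A := B`) with `T = T1 \ T2` and `S` the set of the statement (finite: subset of `FormsT_finite`): the forms of `F ∈ TBox n d B` are in
`Forms n (d k) ((n + 1) ^ d k * B) ⊆ Forms n (d k) A` (`poly_mem`), smooth by `smooth_iff`, with the zero by `aeval_poly` over `ℤ` (`ct ℤ a = a`).
So `(δ - δ/2) (2B+1) ^ VV ≤ (2B+1) ^ LoT * S.ncard`, `VV = LoT + UpT`; `S.ncard ≥ δ/2 (2B+1) ^ UpT ≥ δ/2 / (2N) ^ UpT * (2A+1) ^ UpT`. So the constant is `δ / 2 / (2N) ^ UpT n d`.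
-/

namespace Pool.Agent.Lib.MP_1ad228_ntF

open Classical

theorem formsGood (n : ℕ) {r : ℕ} (d : Fin r → ℕ) (hd : ∀ k, 1 ≤ d k) (hP : PosP n d) :
    ∃ δ : ℝ, 0 < δ ∧ ∃ A0 : ℕ, ∀ A ≥ A0,
    δ * (2 * A + 1 : ℝ) ^ UpT n d ≤
    (({f | (∀ k, f k ∈ Forms n (d k) A) ∧ SmoothCI f ∧
        ∃ x : Fin (n + 1) → ℤ, x ≠ 0 ∧ ∀ k, MvPolynomial.aeval x (f k) = 0} :
      Set (Fin r → MvPolynomial (Fin (n + 1)) ℤ)).ncard : ℝ) := by
  obtain ⟨δ, hδ, A1, h1⟩ := hP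
  obtain ⟨A2, h2⟩ := nonSm n d hd (δ / 2) (by positivity)
  obtain ⟨N, hN⟩ : ∃ N : ℕ, N = (n + 1) ^ (∑ k, d k) := ⟨_, rfl⟩
  have hN1 : 0 < N := by
    rw [hN]
    positivity
  have hNk : ∀ k, (n + 1) ^ d k ≤ N := by
    intro k
    rw [hN]
    exact Nat.pow_le_pow_right (Nat.succ_pos n)
      (Finset.single_le_sum (f := d) (fun _ _ => Nat.zero_le _) (Finset.mem_univ k))
  have hNR : (0 : ℝ) < (N : ℝ) := by exact_mod_cast hN1
  refine ⟨δ / 2 / (2 * (N : ℝ)) ^ UpT n d, by positivity, N * (A1 + A2) + N, fun A hA => ?_⟩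
  have hAB : A1 + A2 + 1 ≤ A / N := by
    rw [Nat.le_div_iff_mul_le hN1]
    calc (A1 + A2 + 1) * N = N * (A1 + A2) + N := by ring
      _ ≤ A := hA
  have g1 := h1 (A / N) (by omega)
  have g2 := h2 (A / N) (by omega)
  have hNB : N * (A / N) ≤ A := Nat.mul_div_le A N
  have hlt : A < N * (A / N + 1) := Nat.lt_mul_div_succ A hN1
  generalize A / N = B at hAB g1 g2 hNB hlt
  set S : Set (Fin r → MvPolynomial (Fin (n + 1)) ℤ) :=
    {f | (∀ k, f k ∈ Forms n (d k) A) ∧ SmoothCI f ∧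
        ∃ x : Fin (n + 1) → ℤ, x ≠ 0 ∧ ∀ k, MvPolynomial.aeval x (f k) = 0} with hS
  have hSf : S.Finite := (FormsT_finite n d A).subset fun f hf => hf.1
  set T1 := (TBox n d B).filter fun F => ∃ x : Vc n ℤ, x ≠ 0 ∧ ∀ i, ev (F i) x = 0 with hT1
  set T2 := (TBox n d B).filter fun F =>
        ¬ ∀ x : Vc n (AlgebraicClosure ℚ), x ≠ 0 →
          (∀ k, ev (ct (AlgebraicClosure ℚ) (F k)) x = 0) →
          LinearIndependent (AlgebraicClosure ℚ)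
            (fun k => dev (ct (AlgebraicClosure ℚ) (F k)) x) with hT2
  have h3 : T1.card ≤ (T1 \ T2).card + T2.card := Finset.card_le_card_sdiff_add_card
  have h4 : (T1 \ T2).card ≤ (2 * B + 1) ^ LoT n d * S.ncard := by
    refine fibT S hSf (T1 \ T2) ?_
    intro F hF
    rw [Finset.mem_sdiff, hT1, hT2, Finset.mem_filter, Finset.mem_filter] at hF
    obtain ⟨⟨hFB, x, hx, hx1⟩, hns⟩ := hF
    refine ⟨hFB, fun k => ?_, ?_, x, hx, fun k => ?_⟩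
    · have hm := poly_mem (mem_TBox.1 hFB k)
      refine ⟨hm.1, fun m => (hm.2 m).trans ?_⟩
      exact_mod_cast (Nat.mul_le_mul_right B (hNk k)).trans hNB
    · rw [smooth_iff]
      by_contra hcon
      exact hns ⟨hFB, hcon⟩
    · have e : ct ℤ (F k) = F k := by
        funext t
        simp [ct]
      show MvPolynomial.aeval x (poly (F k)) = 0
      rw [aeval_poly, e]
      exact hx1 k
  have h5 : (T1.card : ℝ) ≤ (2 * (B : ℝ) + 1) ^ LoT n d * (S.ncard : ℝ) + (T2.card : ℝ) := by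
    exact_mod_cast h3.trans (Nat.add_le_add_right h4 _)
  have h6 : δ / 2 * (2 * (B : ℝ) + 1) ^ VV n d ≤ (2 * (B : ℝ) + 1) ^ LoT n d * (S.ncard : ℝ) := by
    linarith
  have h7 : (2 * A + 1 : ℝ) ≤ 2 * (N : ℝ) * (2 * (B : ℝ) + 1) := by
    have h8 : 2 * A + 1 ≤ 2 * N * (2 * B + 1) := by
      have h9 : N * (B + 1) ≤ N * (2 * B + 1) := Nat.mul_le_mul_left N (by omega)
      have h10 : 2 * N * (2 * B + 1) = 2 * (N * (2 * B + 1)) := by ring
      omega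
    exact_mod_cast h8
  have h8 : (2 * A + 1 : ℝ) ^ UpT n d ≤ (2 * (N : ℝ) * (2 * (B : ℝ) + 1)) ^ UpT n d :=
    pow_le_pow_left₀ (by positivity) h7 _
  have h9 : (0 : ℝ) < (2 * (B : ℝ) + 1) ^ LoT n d := by positivity
  refine le_of_mul_le_mul_left ?_ h9
  refine le_trans ?_ h6
  calc (2 * (B : ℝ) + 1) ^ LoT n d *
        (δ / 2 / (2 * (N : ℝ)) ^ UpT n d * (2 * A + 1 : ℝ) ^ UpT n d)
      ≤ (2 * (B : ℝ) + 1) ^ LoT n d *
        (δ / 2 / (2 * (N : ℝ)) ^ UpT n d * (2 * (N : ℝ) * (2 * (B : ℝ) + 1)) ^ UpT n d) := by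
        refine mul_le_mul_of_nonneg_left (mul_le_mul_of_nonneg_left h8 (by positivity)) h9.le
    _ = δ / 2 * (2 * (B : ℝ) + 1) ^ VV n d := by
        rw [← LoT_add_UpT, pow_add, mul_pow (2 * (N : ℝ))]
        field_simp

end Pool.Agent.Lib.MP_1ad228_ntF
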