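import Pool.Agent.Lib.MP_1ad228_ntF.FM_Bad
import Pool.Agent.Lib.MP_1ad228_ntF.FM_Good

/-!
JOB FM_Fin.  The final theorems for forms.  Model (with proof): Lib/MP_219881_nt/FM_Fin.lean.

`final1`: `formsGood` gives `δ, A1`; `formsBad` with `ε δ` gives `M, A0`. For `A ≥ max A0 A1`: `#bad ≤ ε δ (2A+1) ^ UpT ≤ ε #{SmoothCI and common nonzero integer zero} ≤ ε #{SmoothCI and LocSol}`
(an integer zero is a local zero at all places: write `f k = poly (toTen (d k) (f k))` (`poly_toTen`), so `f = polyT F` with `F k = toTen (d k) (f k)`, then `locSol_of_zero`, `aeval_poly` over `ℤ`;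
`Set.ncard_le_ncard` with finiteness from `FormsT_finite`).

`final2`: `card_FormsT` and `formsGood`.
-/

namespace Pool.Agent.Lib.MP_1ad228_ntF

open Classical

private theorem FM_Fin_ev {n d : ℕ} {f : MvPolynomial (Fin (n + 1)) ℤ} (hf : f.IsHomogeneous d)
    {x : Fin (n + 1) → ℤ} (h : MvPolynomial.aeval x f = 0) : ev (toTen d f) x = 0 := by
  rw [← poly_toTen hf, aeval_poly] at h
  have h1 : ct ℤ (toTen d f) = toTen d f := by
    funext s
    unfold ct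
    exact Int.cast_id
  rwa [h1] at h

private theorem FM_Fin_polyT {n r : ℕ} {d : Fin r → ℕ} {f : Fin r → MvPolynomial (Fin (n + 1)) ℤ}
    (hf : ∀ k, (f k).IsHomogeneous (d k)) :
    polyT (d := d) (fun k => toTen (d k) (f k)) = f := by
  funext k
  exact poly_toTen (hf k)

theorem final1 (n : ℕ) {r : ℕ} (d : Fin r → ℕ) (hd : ∀ k, 1 ≤ d k) (hM : MainP n d)
    (hP : PosP n d) (ε : ℝ) (hε : 0 < ε) : ∃ M A0 : ℕ, ∀ A ≥ A0,
    (({f | (∀ k, f k ∈ Forms n (d k) A) ∧ LocSol f ∧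
        ¬ SmallZero (n + 1 - ∑ k, d k) ((M : ℤ) * (A : ℤ) ^ r) f} :
      Set (Fin r → MvPolynomial (Fin (n + 1)) ℤ)).ncard : ℝ)
      ≤ ε * (({f | (∀ k, f k ∈ Forms n (d k) A) ∧ SmoothCI f ∧ LocSol f} :
        Set (Fin r → MvPolynomial (Fin (n + 1)) ℤ)).ncard : ℝ) := by
  obtain ⟨δ, hδ, A1, h1⟩ := formsGood n d hd hP
  obtain ⟨M, A0, h2⟩ := formsBad n d hM (ε * δ) (mul_pos hε hδ)
  refine ⟨M, max A0 A1, fun A hA => ?_⟩
  have hA0 : A0 ≤ A := le_trans (le_max_left _ _) hA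
  have hA1 : A1 ≤ A := le_trans (le_max_right _ _) hA
  have h3 := h2 A hA0
  have h4 := h1 A hA1
  refine h3.trans ?_
  rw [mul_assoc]
  refine mul_le_mul_of_nonneg_left (h4.trans ?_) hε.le
  rw [Nat.cast_le]
  refine Set.ncard_le_ncard ?_ ?_
  · rintro f ⟨g1, g3, x, hx, e1⟩
    refine ⟨g1, g3, ?_⟩
    have h5 := locSol_of_zero (d := d) (F := fun k => toTen (d k) (f k)) hx
      (fun k => FM_Fin_ev (g1 k).1 (e1 k))
    rwa [FM_Fin_polyT fun k => (g1 k).1] at h5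
  · refine Set.Finite.subset (FormsT_finite n d A) ?_
    rintro f ⟨g1, -⟩
    exact g1

theorem final2 (n : ℕ) {r : ℕ} (d : Fin r → ℕ) (hd : ∀ k, 1 ≤ d k) (hP : PosP n d) :
    ∃ δ : ℝ, 0 < δ ∧ ∃ A0 : ℕ, ∀ A ≥ A0,
    δ * (({f | ∀ k, f k ∈ Forms n (d k) A} :
      Set (Fin r → MvPolynomial (Fin (n + 1)) ℤ)).ncard : ℝ) ≤
    (({f | (∀ k, f k ∈ Forms n (d k) A) ∧ SmoothCI f ∧
        ∃ x : Fin (n + 1) → ℤ, x ≠ 0 ∧ ∀ k, MvPolynomial.aeval x (f k) = 0} :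
      Set (Fin r → MvPolynomial (Fin (n + 1)) ℤ)).ncard : ℝ) := by
  obtain ⟨δ, hδ, A1, h1⟩ := formsGood n d hd hP
  refine ⟨δ, hδ, A1, fun A hA => le_trans ?_ (h1 A hA)⟩
  refine mul_le_mul_of_nonneg_left ?_ hδ.le
  exact_mod_cast card_FormsT n d A

end Pool.Agent.Lib.MP_1ad228_ntF
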