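import Pool.Agent.Lib.MP_1ad228_ntF.FM_Defs

/-!
JOB FM_Poly.  The form of a tensor.  Model (pairs of quadratic forms, with all proofs):
Lib/MP_219881_nt/FM_Poly.lean.  Here `mo s = ∑ k, single (s k) 1`, `poly a = ∑ s, monomial (mo s) (a s)`.

* `degree_mo`: `map_sum` (`Finsupp.degree` is additive), `Finsupp.degree_single`, `Finset.sum_const`, `Finset.card_univ`.
* `coeff_poly`: `MvPolynomial.coeff_sum`, `MvPolynomial.coeff_monomial`.
* `poly_hom`: `MvPolynomial.IsHomogeneous.sum`, `MvPolynomial.isHomogeneous_monomial _ (degree_mo s)`.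
* `poly_sub`: `map_sub`, `Finset.sum_sub_distrib`.
* Key private lemma: `MvPolynomial.monomial (mo s) c = MvPolynomial.C c * ∏ k, MvPolynomial.X (s k)`
  (`MvPolynomial.monomial_eq`? or: `MvPolynomial.monomial_sum_one`/`MvPolynomial.monomial_finsupp_sum_index`; by `Finset` induction with
  `MvPolynomial.monomial_mul`; `X i = monomial (single i 1) 1`; `MvPolynomial.C_mul_monomial`).
* `aeval_poly`: `map_sum`, key lemma, `map_mul`, `map_prod`, `aeval_C`, `aeval_X`; compare with `ev`, `ct` (`simp [ev, ct]`).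
* `pderiv_poly`: key lemma; `MvPolynomial.pderiv_C_mul`, Leibniz rule for a product over `Finset.univ`
  (`Derivation.leibniz_prod` or `Finset` induction: `pderiv j (∏ k ∈ S, X (s k)) = ∑ k ∈ S, (if s k = j then 1 else 0) * ∏ l ∈ S.erase k, X (s l)`),
  `MvPolynomial.pderiv_X`; then apply `aeval x`; exchange the two sums (`Finset.sum_comm`) to get `dev (ct R a) x j =
  ∑ k, ∑ s, if s k = j then a s * ∏ l ∈ univ.erase k, x (s l) else 0`.
* `exists_mo`: the multiset `Finsupp.toMultiset μ` has `d` elements (`Finsupp.card_toMultiset`), so it is the multiset of the values of some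
  `s : Fin d → Fin (n + 1)` (`Multiset.toList`, `List.get`, cast along `length = d`; subst `d` first), and `toMultiset (mo s) = ∑ k, {s k}`;
  compare counts (`Finsupp.count_toMultiset`) or use `Finsupp.toMultiset.injective`. Alternative proof: induction on `d` generalizing `μ`: for `d = 0`, `μ = 0` (degree zero) and
  `mo s = 0`; for `d + 1` some `μ i ≥ 1`, `μ = single i 1 + μ'`, `μ' = mo s'`, `s = Fin.cons i s'` (`Fin.sum_univ_succ`).
* `mo_rp`: unfold `rp`, `dif_pos ⟨s, rfl⟩`, `Classical.choose_spec`.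
* `isRp_rp`: unfold `IsRp`, rewrite with `mo_rp`.
* `rp_unique`: `IsRp s`, `IsRp t`, `mo s = mo t`: `s = rp d (mo s) = rp d (mo t) = t`.
-/

namespace Pool.Agent.Lib.MP_1ad228_ntF

open Classical

variable {n d : ℕ}

theorem degree_mo (s : Fin d → Fin (n + 1)) : (mo s).degree = d := by
  unfold mo
  rw [map_sum]
  simp only [Finsupp.degree_single, Finset.sum_const, Finset.card_univ, Fintype.card_fin,
    smul_eq_mul, mul_one]

theorem coeff_poly (a : Ten n d ℤ) (μ : Fin (n + 1) →₀ ℕ) :
    (poly a).coeff μ = ∑ s, if mo s = μ then a s else 0 := by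
  unfold poly
  rw [MvPolynomial.coeff_sum]
  refine Finset.sum_congr rfl fun s _ => ?_
  rw [MvPolynomial.coeff_monomial]

theorem poly_hom (a : Ten n d ℤ) : (poly a).IsHomogeneous d := by
  unfold poly
  apply MvPolynomial.IsHomogeneous.sum
  intro s _
  exact MvPolynomial.isHomogeneous_monomial _ (degree_mo s)

theorem poly_sub (a b : Ten n d ℤ) : poly (a - b) = poly a - poly b := by
  unfold poly
  simp only [Pi.sub_apply, map_sub, Finset.sum_sub_distrib]

private theorem FM_Poly_mono (s : Fin d → Fin (n + 1)) (c : ℤ) :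
    MvPolynomial.monomial (mo s) c = MvPolynomial.C c * ∏ k, MvPolynomial.X (s k) := by
  unfold mo
  rw [MvPolynomial.monomial_sum_index]
  rfl

theorem aeval_poly {R : Type*} [CommRing R] (a : Ten n d ℤ) (x : Fin (n + 1) → R) :
    MvPolynomial.aeval x (poly a) = ev (ct R a) x := by
  unfold poly ev ct
  rw [map_sum]
  refine Finset.sum_congr rfl fun s _ => ?_
  rw [FM_Poly_mono, map_mul, MvPolynomial.aeval_C, map_prod]
  simp only [MvPolynomial.aeval_X, algebraMap_int_eq, eq_intCast]

private theorem FM_Poly_pdX {R : Type*} [CommRing R] (x : Fin (n + 1) → R) (j k : Fin (n + 1)) :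
    MvPolynomial.aeval x (MvPolynomial.pderiv j (MvPolynomial.X k : MvPolynomial (Fin (n + 1)) ℤ)) =
      if k = j then (1 : R) else 0 := by
  by_cases h : k = j
  · rw [if_pos h, h, MvPolynomial.pderiv_X_self, map_one]
  · rw [if_neg h, MvPolynomial.pderiv_X_of_ne (fun h' => h h'), map_zero]

private theorem FM_Poly_dprod {R : Type*} [CommRing R] (x : Fin (n + 1) → R) (j : Fin (n + 1))
    (s : Fin d → Fin (n + 1)) (S : Finset (Fin d)) :
    MvPolynomial.aeval x (MvPolynomial.pderiv j
      (∏ k ∈ S, (MvPolynomial.X (s k) : MvPolynomial (Fin (n + 1)) ℤ))) =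
      ∑ k ∈ S, if s k = j then ∏ l ∈ S.erase k, x (s l) else 0 := by
  induction S using Finset.induction_on with
  | empty =>
    rw [Finset.prod_empty, Finset.sum_empty, MvPolynomial.pderiv_one, map_zero]
  | insert b S hb ih =>
    rw [Finset.prod_insert hb, MvPolynomial.pderiv_mul, map_add, map_mul, map_mul, ih,
      FM_Poly_pdX, Finset.sum_insert hb, Finset.erase_insert hb, MvPolynomial.aeval_X, map_prod,
      Finset.mul_sum]
    refine congrArg₂ (· + ·) ?_ ?_
    · simp only [MvPolynomial.aeval_X]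
      by_cases h : s b = j
      · rw [if_pos h, if_pos h, one_mul]
      · rw [if_neg h, if_neg h, zero_mul]
    · refine Finset.sum_congr rfl fun k hk => ?_
      by_cases h : s k = j
      · have hne : b ≠ k := fun h' => hb (h' ▸ hk)
        rw [if_pos h, if_pos h, Finset.erase_insert_of_ne hne, Finset.prod_insert
          (fun h' => hb (Finset.mem_of_mem_erase h'))]
      · rw [if_neg h, if_neg h, mul_zero]

theorem pderiv_poly {R : Type*} [CommRing R] (a : Ten n d ℤ) (x : Fin (n + 1) → R)
    (j : Fin (n + 1)) :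
    MvPolynomial.aeval x (MvPolynomial.pderiv j (poly a)) = dev (ct R a) x j := by
  unfold poly dev ct
  rw [map_sum, map_sum, Finset.sum_comm]
  refine Finset.sum_congr rfl fun s _ => ?_
  rw [FM_Poly_mono, MvPolynomial.pderiv_C_mul, map_mul, MvPolynomial.aeval_C, FM_Poly_dprod,
    Finset.mul_sum]
  refine Finset.sum_congr rfl fun k _ => ?_
  by_cases h : s k = j
  · rw [if_pos h, if_pos h, algebraMap_int_eq, eq_intCast]
  · rw [if_neg h, if_neg h, mul_zero]

theorem exists_mo {μ : Fin (n + 1) →₀ ℕ} (h : μ.degree = d) :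
    ∃ s : Fin d → Fin (n + 1), mo s = μ := by
  induction d generalizing μ with
  | zero =>
    refine ⟨fun _ => 0, ?_⟩
    have h1 : μ = 0 := (Finsupp.degree_eq_zero_iff μ).1 h
    rw [h1]
    unfold mo
    exact Finset.sum_empty
  | succ d ih =>
    have hne : μ ≠ 0 := by
      intro h0
      rw [h0, map_zero] at h
      omega
    obtain ⟨i, hi⟩ := Finsupp.ne_iff.1 hne
    have hi' : μ i ≠ 0 := hi
    have hle : Finsupp.single i 1 ≤ μ := by
      rw [Finsupp.single_le_iff]
      omega
    have hsplit : Finsupp.single i 1 + (μ - Finsupp.single i 1) = μ := add_tsub_cancel_of_le hle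
    have hdeg : (μ - Finsupp.single i 1).degree = d := by
      have h2 : (Finsupp.single i 1 + (μ - Finsupp.single i 1)).degree = d + 1 := by
        rw [hsplit]
        exact h
      rw [map_add, Finsupp.degree_single] at h2
      omega
    obtain ⟨s, hs⟩ := ih hdeg
    refine ⟨Fin.cons i s, ?_⟩
    unfold mo
    rw [Fin.sum_univ_succ]
    simp only [Fin.cons_zero, Fin.cons_succ]
    unfold mo at hs
    rw [hs]
    exact hsplit

theorem mo_rp (s : Fin d → Fin (n + 1)) : mo (rp d (mo s)) = mo s := by
  have h : ∃ t : Fin d → Fin (n + 1), mo t = mo s := ⟨s, rfl⟩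
  unfold rp
  rw [dif_pos h]
  exact Classical.choose_spec h

theorem isRp_rp (s : Fin d → Fin (n + 1)) : IsRp (rp d (mo s)) := by
  unfold IsRp
  rw [mo_rp]

theorem rp_unique {s t : Fin d → Fin (n + 1)} (hs : IsRp s) (ht : IsRp t) (h : mo s = mo t) :
    s = t := by
  unfold IsRp at hs ht
  rw [← hs, h]
  exact ht

end Pool.Agent.Lib.MP_1ad228_ntF
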