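import Pool.Agent.Lib.MP_1ad228_ntF.FM_Poly

/-!
JOB FM_Ten.  The tensor of a form.  Model: the second half of Lib/MP_219881_nt/FM_Poly.lean.

* `coeff_rp` (`c` supported on the chosen indices): in `coeff_poly` at `mo s` only the index `rp d (mo s)` contributes: if `mo t = mo s` and `c t ≠ 0` then
  `IsRp t`, so `t = rp d (mo t) = rp d (mo s)` (`Finset.sum_eq_single (rp d (mo s))`, `mo_rp`).
* `toTen_supp`: `if_neg`.
* `poly_toTen`: `MvPolynomial.ext`: if `μ.degree = d` then `μ = mo s` (`exists_mo`) and `coeff_rp` (with `toTen_supp`) gives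
  `toTen d f (rp d (mo s)) = f.coeff (mo (rp d (mo s))) = f.coeff (mo s)` (`isRp_rp`, `mo_rp`); otherwise both coefficients vanish
  (`(poly_hom _).coeff_eq_zero`, `hf.coeff_eq_zero`).
* `toTen_poly`: at `s` with `IsRp s`: `coeff_rp` and `rp d (mo s) = s`; otherwise both sides are `0`.
* `toTen_mem`: each entry is a coefficient or `0` (`mem_Box`).
* `poly_mem`: `poly_hom`; the coefficient (`coeff_poly`) is a sum over the `(n + 1) ^ d` indices of terms with absolute value at most `A`
  (`Finset.abs_sum_le_sum_abs`, `Finset.sum_le_card_nsmul`, `Fintype.card_pi`/`Fintype.card_fun`).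
-/

namespace Pool.Agent.Lib.MP_1ad228_ntF

open Classical

variable {n d : ℕ}

theorem coeff_rp {c : Ten n d ℤ} (hc : ∀ s, ¬ IsRp s → c s = 0) (s : Fin d → Fin (n + 1)) :
    (poly c).coeff (mo s) = c (rp d (mo s)) := by
  rw [coeff_poly, Finset.sum_eq_single (rp d (mo s))]
  · rw [if_pos (mo_rp s)]
  · intro t _ ht
    by_cases hm : mo t = mo s
    · rw [if_pos hm]
      apply hc
      intro h
      apply ht
      unfold IsRp at h
      rw [← hm, h]
    · rw [if_neg hm]
  · intro h
    exact absurd (Finset.mem_univ _) h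

theorem toTen_supp (f : MvPolynomial (Fin (n + 1)) ℤ) (s : Fin d → Fin (n + 1))
    (h : ¬ IsRp s) : toTen d f s = 0 := by
  unfold toTen
  rw [if_neg h]

theorem poly_toTen {f : MvPolynomial (Fin (n + 1)) ℤ} (hf : f.IsHomogeneous d) :
    poly (toTen d f) = f := by
  ext μ
  by_cases h : μ.degree = d
  · obtain ⟨s, rfl⟩ := exists_mo h
    rw [coeff_rp (toTen_supp f)]
    unfold toTen
    rw [if_pos (isRp_rp s), mo_rp]
  · rw [hf.coeff_eq_zero h, (poly_hom _).coeff_eq_zero h]

theorem toTen_poly {c : Ten n d ℤ} (hc : ∀ s, ¬ IsRp s → c s = 0) : toTen d (poly c) = c := by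
  funext s
  by_cases h : IsRp s
  · unfold toTen
    rw [if_pos h, coeff_rp hc]
    unfold IsRp at h
    rw [h]
  · rw [toTen_supp _ s h, hc s h]

theorem toTen_mem {A : ℕ} {f : MvPolynomial (Fin (n + 1)) ℤ} (hf : f ∈ Forms n d A) :
    toTen d f ∈ Box n d A := by
  rw [mem_Box]
  intro s
  unfold toTen
  by_cases h : IsRp s
  · rw [if_pos h]
    exact hf.2 _
  · rw [if_neg h, abs_zero]
    exact Int.natCast_nonneg A

theorem poly_mem {A : ℕ} {a : Ten n d ℤ} (ha : a ∈ Box n d A) :
    poly a ∈ Forms n d ((n + 1) ^ d * A) := by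
  refine ⟨poly_hom a, fun μ => ?_⟩
  rw [mem_Box] at ha
  rw [coeff_poly]
  calc |∑ s, if mo s = μ then a s else 0|
      ≤ ∑ s, |if mo s = μ then a s else 0| := Finset.abs_sum_le_sum_abs _ _
    _ ≤ ∑ _s : Fin d → Fin (n + 1), (A : ℤ) := by
        refine Finset.sum_le_sum fun s _ => ?_
        by_cases h : mo s = μ
        · rw [if_pos h]
          exact ha s
        · rw [if_neg h, abs_zero]
          exact Int.natCast_nonneg A
    _ = (((n + 1) ^ d * A : ℕ) : ℤ) := by
        rw [Finset.sum_const, nsmul_eq_mul, Finset.card_univ, Fintype.card_fun, Fintype.card_fin,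
          Fintype.card_fin]
        push_cast
        rfl

end Pool.Agent.Lib.MP_1ad228_ntF
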