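import Pool.Agent.Lib.MP_1ad228_ntF.FM_Xfer

/-!
JOB FM_Tup.  From tuples of tensors to tuples of forms.  Model: `xfer2`, `fib2` of Lib/MP_219881_nt/FM_Xfer.lean; all the work is in FM_Xfer (one form).

* `LoT_add_UpT`: unfold, `Finset.sum_add_distrib`, `Lo_add_Up`.
* `FormsT_eq`: the set of tuples is the coercion of `Fintype.piFinset fun k => (Forms_finite n (d k) A).toFinset` (`ext`, `Fintype.mem_piFinset`, `Set.Finite.mem_toFinset`).
* `FormsT_finite`: `FormsT_eq`, `Finset.finite_toSet`.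
* `card_FormsT`: `FormsT_eq`, `Set.ncard_coe_finset`, `Fintype.card_piFinset`, each factor is `(Forms ..).ncard` (`Set.ncard_eq_toFinset_card`), `card_Forms`, `Finset.prod_le_prod'`,
  `Finset.prod_pow_eq_pow_sum`.
* `xferT`: `q k = A / (n + 1) ^ d k`, so `(n + 1) ^ d k * q k ≤ A` (`Nat.mul_div_le`). The map `(f, b) ↦ fun k => mkT (toTen (d k) (f k)) (b k)` from `hS.toFinset ×ˢ Fintype.piFinset fun k => BB n (d k) (q k)`
  into `T` is well defined (`mkT_mem`, `toTen_mem`, `mem_TBox`/`Fintype.mem_piFinset` for `TBox`; `polyT` of the image is `f` by `poly_mkT` (`toTen_supp`) and `poly_toTen`) and injective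
  (`mkT_inj` for each `k`, then `poly_toTen`). `Finset.card_le_card_of_injOn`, `card_BB`, `Fintype.card_piFinset`.
* `fibT`: `Finset.card_le_mul_card_image` for `polyT` on `T`: the fibre of `f` is contained in `Fintype.piFinset fun k => (Box n (d k) A).filter fun a => poly a = f k`, of cardinality
  `∏ k, card ≤ ∏ k, (2A+1) ^ Lo n (d k) = (2A+1) ^ LoT` (`fib`, `Finset.prod_le_prod'`, `Finset.prod_pow_eq_pow_sum`); the image is contained in `hS.toFinset`.
-/

namespace Pool.Agent.Lib.MP_1ad228_ntF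

open Classical

variable {n r : ℕ}

theorem LoT_add_UpT (n : ℕ) {r : ℕ} (d : Fin r → ℕ) : LoT n d + UpT n d = VV n d := by
  unfold LoT UpT VV
  rw [← Finset.sum_add_distrib]
  exact Finset.sum_congr rfl fun k _ => Lo_add_Up n (d k)

private theorem FM_Tup_eq (n : ℕ) {r : ℕ} (d : Fin r → ℕ) (A : ℕ) :
    ({f | ∀ k, f k ∈ Forms n (d k) A} : Set (Fin r → MvPolynomial (Fin (n + 1)) ℤ)) =
      ((Fintype.piFinset fun k => (Forms_finite n (d k) A).toFinset :
        Finset (Fin r → MvPolynomial (Fin (n + 1)) ℤ)) :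
        Set (Fin r → MvPolynomial (Fin (n + 1)) ℤ)) := by
  ext f
  rw [Finset.mem_coe, Fintype.mem_piFinset, Set.mem_ofPred_eq]
  exact forall_congr' fun k => ((Forms_finite n (d k) A).mem_toFinset).symm

theorem FormsT_finite (n : ℕ) {r : ℕ} (d : Fin r → ℕ) (A : ℕ) :
    ({f | ∀ k, f k ∈ Forms n (d k) A} : Set (Fin r → MvPolynomial (Fin (n + 1)) ℤ)).Finite := by
  rw [FM_Tup_eq]
  exact Finset.finite_toSet _

theorem card_FormsT (n : ℕ) {r : ℕ} (d : Fin r → ℕ) (A : ℕ) :
    ({f | ∀ k, f k ∈ Forms n (d k) A} : Set (Fin r → MvPolynomial (Fin (n + 1)) ℤ)).ncard ≤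
      (2 * A + 1) ^ UpT n d := by
  rw [FM_Tup_eq, Set.ncard_coe_finset, Fintype.card_piFinset]
  unfold UpT
  rw [← Finset.prod_pow_eq_pow_sum]
  refine Finset.prod_le_prod' fun k _ => ?_
  rw [← Set.ncard_eq_toFinset_card _ (Forms_finite n (d k) A)]
  exact card_Forms n (d k) A

theorem xferT {d : Fin r → ℕ} {A : ℕ} (S : Set (Fin r → MvPolynomial (Fin (n + 1)) ℤ))
    (hS : ∀ f ∈ S, ∀ k, f k ∈ Forms n (d k) A) (T : Finset (Tup n d ℤ))
    (hT : ∀ F ∈ TBox n d A, polyT F ∈ S → F ∈ T) :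
    S.ncard * ∏ k, (A / (n + 1) ^ d k + 1) ^ Lo n (d k) ≤ T.card := by
  have hSf : S.Finite := (FormsT_finite n d A).subset hS
  have hBB : ∏ k, (A / (n + 1) ^ d k + 1) ^ Lo n (d k) =
      (Fintype.piFinset fun k => BB n (d k) (A / (n + 1) ^ d k)).card := by
    rw [Fintype.card_piFinset]
    exact Finset.prod_congr rfl fun k _ => (card_BB n (d k) _).symm
  rw [Set.ncard_eq_toFinset_card S hSf, hBB, ← Finset.card_product]
  refine Finset.card_le_card_of_injOn
    (fun x => (fun k => mkT (toTen (d k) (x.1 k)) (x.2 k) : Tup n d ℤ)) ?_ ?_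
  · rintro ⟨f, b⟩ hx
    rw [Finset.mem_coe, Finset.mem_product, Set.Finite.mem_toFinset, Fintype.mem_piFinset] at hx
    obtain ⟨hf, hb⟩ := hx
    have hpT : polyT (fun k => mkT (toTen (d k) (f k)) (b k) : Tup n d ℤ) = f := by
      funext k
      show poly (mkT (toTen (d k) (f k)) (b k)) = f k
      rw [poly_mkT (toTen_supp (f k)), poly_toTen (hS f hf k).1]
    refine hT _ ?_ ?_
    · rw [mem_TBox]
      intro k
      exact mkT_mem (Nat.mul_div_le A ((n + 1) ^ d k)) (toTen_mem (hS f hf k)) (hb k)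
    · show polyT (fun k => mkT (toTen (d k) (f k)) (b k) : Tup n d ℤ) ∈ S
      rw [hpT]
      exact hf
  · rintro ⟨f, b⟩ hx ⟨f', b'⟩ hx' he
    rw [Finset.mem_coe, Finset.mem_product, Set.Finite.mem_toFinset, Fintype.mem_piFinset] at hx hx'
    obtain ⟨hf, hb⟩ := hx
    obtain ⟨hf', hb'⟩ := hx'
    have h1 : ∀ k, toTen (d k) (f k) = toTen (d k) (f' k) ∧ b k = b' k := fun k =>
      mkT_inj (toTen_supp (f k)) (toTen_supp (f' k)) (hb k) (hb' k) (congrFun he k)
    have h2 : f = f' := by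
      funext k
      rw [← poly_toTen (hS f hf k).1, ← poly_toTen (hS f' hf' k).1, (h1 k).1]
    have h3 : b = b' := funext fun k => (h1 k).2
    rw [h2, h3]

theorem fibT {d : Fin r → ℕ} {A : ℕ} (S : Set (Fin r → MvPolynomial (Fin (n + 1)) ℤ))
    (hS : S.Finite) (T : Finset (Tup n d ℤ)) (hT : ∀ F ∈ T, F ∈ TBox n d A ∧ polyT F ∈ S) :
    T.card ≤ (2 * A + 1) ^ LoT n d * S.ncard := by
  rw [Set.ncard_eq_toFinset_card S hS]
  have himg : T.image (fun F : Tup n d ℤ => polyT F) ⊆ hS.toFinset := by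
    intro f hf
    rw [Finset.mem_image] at hf
    obtain ⟨F, hF, rfl⟩ := hf
    rw [Set.Finite.mem_toFinset]
    exact (hT F hF).2
  refine (Finset.card_le_mul_card_image (f := fun F : Tup n d ℤ => polyT F)
    T ((2 * A + 1) ^ LoT n d) ?_).trans (Nat.mul_le_mul_left _ (Finset.card_le_card himg))
  intro f _
  have hsub : (T.filter fun F => polyT F = f) ⊆
      (Fintype.piFinset fun k => (Box n (d k) A).filter fun a => poly a = f k) := by
    intro F hF
    rw [Finset.mem_filter] at hF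
    obtain ⟨h1, h2⟩ := hF
    rw [Fintype.mem_piFinset]
    intro k
    rw [Finset.mem_filter]
    exact ⟨mem_TBox.1 (hT F h1).1 k, congrFun h2 k⟩
  refine (Finset.card_le_card hsub).trans ?_
  unfold LoT
  rw [Fintype.card_piFinset, ← Finset.prod_pow_eq_pow_sum]
  exact Finset.prod_le_prod' fun k _ => fib A (f k)

end Pool.Agent.Lib.MP_1ad228_ntF
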