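import Pool.Agent.Lib.MP_1ad228_ntF.FM_Ten

/-!
JOB FM_Xfer.  The sign trick.  Model: Lib/MP_219881_nt/FM_Xfer.lean (first half).

* `mem_BB`: `Fintype.mem_piFinset`, `split_ifs`, `Finset.mem_Icc`.
* `poly_mkT`: `MvPolynomial.ext`; if `μ.degree ≠ d` both coefficients are `0` (`poly_hom`); otherwise `μ = mo s0` (`exists_mo`); let `ρ = rp d (mo s0)` (`mo_rp`, `isRp_rp`).
  By `coeff_rp` the right side is `α ρ`. The left side (`coeff_poly`, `Finset.sum_filter`): the indices `t` with `mo t = mo s0` are `ρ` and those which are not chosen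
  (`IsRp t` and `mo t = mo s0` give `t = ρ`); at `ρ` the entry is `α ρ - sg (α ρ) * Σ`, `Σ = ∑ t ∈ filter (mo t = mo s0 ∧ ¬ IsRp t), b t`, at the others it is
  `sg (α (rp d (mo t))) * b t = sg (α ρ) * b t`. Sum: `α ρ`.
* `mkT_mem`: at a chosen index: `0 ≤ Σ ≤ (n + 1) ^ d * q ≤ A` (at most `(n + 1) ^ d` terms in `[0, q]`) and `|α s| ≤ A`: if `0 ≤ α s` then `-A ≤ α s - Σ ≤ A`, otherwise
  `-A ≤ α s + Σ ≤ A`. At the other indices: `|± b s| ≤ q ≤ A` (`(n+1)^d ≥ 1`).
* `mkT_inj`: `poly α = poly α'` by `poly_mkT`, so `α = α'` (`toTen_poly`); at an index which is not chosen `sg (..) * b s = sg (..) * b' s` and `sg = ± 1`; at the chosen ones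
  `b s = 0 = b' s` (`mem_BB`).
* `card_BB`: `Fintype.card_piFinset`, `Finset.prod_ite`, `Int.card_Icc`.
* `Lo_add_Up`: `Finset.card_filter_add_card_filter_not`, `Fintype.card_fun`.
* `Forms_finite`: subset of the image of `Box n d A` under `poly` (`poly_toTen`, `toTen_mem`).
* `card_Forms`: `toTen d` is injective on `Forms n d A` (`poly_toTen`) with values in `Fintype.piFinset fun s => if IsRp s then Finset.Icc (-A) A else {0}`, which has
  `(2A+1) ^ Up` elements (see `FM_Fin_card` in Lib/MP_219881_nt/FM_Fin.lean).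
* `fib`: `a ↦` (`a s` at the indices which are not chosen, `0` at the chosen ones) maps the filter into `Fintype.piFinset fun s => if IsRp s then {0} else Icc (-A) A`
  (`(2A+1) ^ Lo` elements) and is injective there: if `poly a = poly a'` and the entries which are not chosen agree then `c = a - a'` is supported on the chosen indices and
  `poly c = 0 = poly 0` (`poly_sub`), so `c = toTen d (poly c) = toTen d (poly 0) = 0`.
-/

namespace Pool.Agent.Lib.MP_1ad228_ntF

open Classical

variable {n d : ℕ}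

theorem mem_BB {q : ℕ} {b : Ten n d ℤ} : b ∈ BB n d q ↔
    ∀ s, (IsRp s → b s = 0) ∧ (¬ IsRp s → 0 ≤ b s ∧ b s ≤ (q : ℤ)) := by
  unfold BB
  rw [Fintype.mem_piFinset]
  refine forall_congr' fun s => ?_
  by_cases h : IsRp s
  · rw [if_pos h, Finset.mem_singleton]
    exact ⟨fun h1 => ⟨fun _ => h1, fun h2 => absurd h h2⟩, fun h1 => h1.1 h⟩
  · rw [if_neg h, Finset.mem_Icc]
    exact ⟨fun h1 => ⟨fun h2 => absurd h2 h, fun _ => h1⟩, fun h1 => h1.2 h⟩

private theorem FM_Xfer_card1 (n d : ℕ) (I : Finset ℤ) :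
    (Fintype.piFinset fun s : Fin d → Fin (n + 1) => if IsRp s then ({0} : Finset ℤ) else I).card =
      I.card ^ Lo n d := by
  rw [Fintype.card_piFinset]
  have h1 : ∀ s : Fin d → Fin (n + 1), (if IsRp s then ({0} : Finset ℤ) else I).card =
      if IsRp s then 1 else I.card := by
    intro s
    split_ifs
    · rfl
    · rfl
  rw [Finset.prod_congr rfl fun s _ => h1 s, Finset.prod_ite, Finset.prod_const_one, one_mul,
    Finset.prod_const]
  rfl

private theorem FM_Xfer_card2 (n d : ℕ) (I : Finset ℤ) :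
    (Fintype.piFinset fun s : Fin d → Fin (n + 1) => if IsRp s then I else ({0} : Finset ℤ)).card =
      I.card ^ Up n d := by
  rw [Fintype.card_piFinset]
  have h1 : ∀ s : Fin d → Fin (n + 1), (if IsRp s then I else ({0} : Finset ℤ)).card =
      if IsRp s then I.card else 1 := by
    intro s
    split_ifs
    · rfl
    · rfl
  rw [Finset.prod_congr rfl fun s _ => h1 s, Finset.prod_ite, Finset.prod_const_one, mul_one,
    Finset.prod_const]
  rfl

private theorem FM_Xfer_sg (z : ℤ) : sg z = 1 ∨ sg z = -1 := by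
  unfold sg
  split_ifs
  · exact Or.inl rfl
  · exact Or.inr rfl

theorem poly_mkT {α : Ten n d ℤ} (hα : ∀ s, ¬ IsRp s → α s = 0) (b : Ten n d ℤ) :
    poly (mkT α b) = poly α := by
  refine MvPolynomial.ext _ _ fun μ => ?_
  by_cases hμ : ∃ s0 : Fin d → Fin (n + 1), mo s0 = μ
  · obtain ⟨s0, rfl⟩ := hμ
    rw [coeff_rp hα s0, coeff_poly]
    obtain ⟨ρ, hρ⟩ : ∃ ρ, ρ = rp d (mo s0) := ⟨_, rfl⟩
    have h1 : mo ρ = mo s0 := by rw [hρ, mo_rp]
    have h2 : IsRp ρ := by
      rw [hρ]
      exact isRp_rp s0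
    rw [← hρ]
    have h3 : ∀ t ∈ (Finset.univ : Finset (Fin d → Fin (n + 1))),
        (if mo t = mo s0 then mkT α b t else 0) =
        (if t = ρ then α ρ - sg (α ρ) * ∑ t ∈ Finset.univ.filter (fun t : Fin d → Fin (n + 1) =>
          mo t = mo s0 ∧ ¬ IsRp t), b t else 0) +
        (if mo t = mo s0 ∧ ¬ IsRp t then sg (α ρ) * b t else 0) := by
      intro t _
      by_cases ht : mo t = mo s0
      · by_cases hr : IsRp t
        · have h4 : t = ρ := rp_unique hr h2 (ht.trans h1.symm)
          rw [if_pos ht, if_pos h4, if_neg (fun h => h.2 hr), add_zero, h4]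
          unfold mkT
          rw [if_pos h2, h1]
        · have h4 : t ≠ ρ := fun h => hr (by rw [h]; exact h2)
          rw [if_pos ht, if_neg h4, if_pos ⟨ht, hr⟩, zero_add]
          unfold mkT
          rw [if_neg hr, ht, ← hρ]
      · have h4 : t ≠ ρ := fun h => ht (by rw [h]; exact h1)
        rw [if_neg ht, if_neg h4, if_neg (fun h => ht h.1), add_zero]
    rw [Finset.sum_congr rfl h3, Finset.sum_add_distrib, Finset.sum_ite_eq' Finset.univ ρ,
      if_pos (Finset.mem_univ ρ), ← Finset.sum_filter, ← Finset.mul_sum]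
    ring
  · rw [coeff_poly, coeff_poly, Finset.sum_eq_zero, Finset.sum_eq_zero]
    · intro s _
      exact if_neg fun h => hμ ⟨s, h⟩
    · intro s _
      exact if_neg fun h => hμ ⟨s, h⟩

theorem mkT_mem {A q : ℕ} (hq : (n + 1) ^ d * q ≤ A) {α b : Ten n d ℤ} (hα : α ∈ Box n d A)
    (hb : b ∈ BB n d q) : mkT α b ∈ Box n d A := by
  rw [mem_Box] at hα ⊢
  have hb' := mem_BB.1 hb
  have hq' : ((n : ℤ) + 1) ^ d * (q : ℤ) ≤ (A : ℤ) := by exact_mod_cast hq
  intro s
  by_cases hs : IsRp s
  · have h1 : mkT α b s = α s - sg (α s) * ∑ t ∈ Finset.univ.filter (fun t : Fin d → Fin (n + 1) =>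
        mo t = mo s ∧ ¬ IsRp t), b t := by
      unfold mkT
      rw [if_pos hs]
    rw [h1]
    obtain ⟨S, hS⟩ : ∃ S, S = ∑ t ∈ Finset.univ.filter (fun t : Fin d → Fin (n + 1) =>
        mo t = mo s ∧ ¬ IsRp t), b t := ⟨_, rfl⟩
    rw [← hS]
    have h2 : 0 ≤ S := by
      rw [hS]
      refine Finset.sum_nonneg fun t ht => ?_
      exact ((hb' t).2 (Finset.mem_filter.1 ht).2.2).1
    have h3 : S ≤ (A : ℤ) := by
      have h4 : S ≤ ∑ t : Fin d → Fin (n + 1), (q : ℤ) := by
        rw [hS]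
        refine (Finset.sum_le_sum fun t ht => ((hb' t).2 (Finset.mem_filter.1 ht).2.2).2).trans ?_
        exact Finset.sum_le_sum_of_subset_of_nonneg (Finset.filter_subset _ _)
          fun _ _ _ => Int.natCast_nonneg q
      rw [Finset.sum_const, Finset.card_univ, Fintype.card_fun, Fintype.card_fin, Fintype.card_fin,
        nsmul_eq_mul] at h4
      push_cast at h4
      exact h4.trans hq'
    have h5 := abs_le.1 (hα s)
    rw [abs_le]
    unfold sg
    split_ifs with h6
    · constructor <;> linarith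
    · constructor <;> linarith
  · have h1 : mkT α b s = sg (α (rp d (mo s))) * b s := by
      unfold mkT
      rw [if_neg hs]
    rw [h1]
    obtain ⟨h3, h4⟩ := (hb' s).2 hs
    have h5 : (q : ℤ) ≤ (A : ℤ) := by
      have h6 : q ≤ (n + 1) ^ d * q := Nat.le_mul_of_pos_left q (by positivity)
      exact_mod_cast h6.trans hq
    rw [abs_le]
    rcases FM_Xfer_sg (α (rp d (mo s))) with h6 | h6 <;> rw [h6] <;> constructor <;> linarith

theorem mkT_inj {q : ℕ} {α α' b b' : Ten n d ℤ} (hα : ∀ s, ¬ IsRp s → α s = 0)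
    (hα' : ∀ s, ¬ IsRp s → α' s = 0) (hb : b ∈ BB n d q) (hb' : b' ∈ BB n d q)
    (h : mkT α b = mkT α' b') : α = α' ∧ b = b' := by
  have hp : poly α = poly α' := by rw [← poly_mkT hα b, ← poly_mkT hα' b', h]
  have hαα : α = α' := by rw [← toTen_poly hα, ← toTen_poly hα', hp]
  refine ⟨hαα, ?_⟩
  subst hαα
  funext s
  have h1 := mem_BB.1 hb s
  have h2 := mem_BB.1 hb' s
  by_cases hs : IsRp s
  · rw [h1.1 hs, h2.1 hs]
  · have h3 : mkT α b s = mkT α b' s := by rw [h]
    unfold mkT at h3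
    rw [if_neg hs, if_neg hs] at h3
    have h4 : sg (α (rp d (mo s))) ≠ 0 := by
      rcases FM_Xfer_sg (α (rp d (mo s))) with h5 | h5 <;> rw [h5] <;> decide
    exact mul_left_cancel₀ h4 h3

theorem card_BB (n d q : ℕ) : (BB n d q).card = (q + 1) ^ Lo n d := by
  have h := FM_Xfer_card1 n d (Finset.Icc 0 (q : ℤ))
  have h1 : (Finset.Icc 0 (q : ℤ)).card = q + 1 := by
    rw [Int.card_Icc]
    omega
  rw [h1] at h
  exact h

theorem Lo_add_Up (n d : ℕ) : Lo n d + Up n d = (n + 1) ^ d := by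
  have h := Finset.card_filter_add_card_filter_not
    (s := (Finset.univ : Finset (Fin d → Fin (n + 1)))) (fun s => IsRp s)
  rw [Finset.card_univ, Fintype.card_fun, Fintype.card_fin, Fintype.card_fin] at h
  unfold Lo Up
  rw [← h, add_comm]

theorem Forms_finite (n d A : ℕ) : (Forms n d A).Finite := by
  refine Set.Finite.subset ((Box n d A).finite_toSet.image poly) ?_
  intro f hf
  exact ⟨toTen d f, toTen_mem hf, poly_toTen hf.1⟩

theorem card_Forms (n d A : ℕ) : (Forms n d A).ncard ≤ (2 * A + 1) ^ Up n d := by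
  have hcard := FM_Xfer_card2 n d (Finset.Icc (-(A : ℤ)) (A : ℤ))
  have hI : (Finset.Icc (-(A : ℤ)) (A : ℤ)).card = 2 * A + 1 := by
    rw [Int.card_Icc]
    omega
  rw [hI] at hcard
  rw [← hcard, ← Set.ncard_coe_finset]
  refine Set.ncard_le_ncard_of_injOn (toTen d) ?_ ?_ (Finset.finite_toSet _)
  · intro f hf
    rw [Finset.mem_coe, Fintype.mem_piFinset]
    intro s
    unfold toTen
    split_ifs with h
    · rw [Finset.mem_Icc]
      exact abs_le.1 (hf.2 _)
    · exact Finset.mem_singleton_self _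
  · intro f hf g hg h
    rw [← poly_toTen hf.1, ← poly_toTen hg.1, h]

theorem fib (A : ℕ) (f : MvPolynomial (Fin (n + 1)) ℤ) :
    ((Box n d A).filter fun a => poly a = f).card ≤ (2 * A + 1) ^ Lo n d := by
  have hcard := FM_Xfer_card1 n d (Finset.Icc (-(A : ℤ)) (A : ℤ))
  have hI : (Finset.Icc (-(A : ℤ)) (A : ℤ)).card = 2 * A + 1 := by
    rw [Int.card_Icc]
    omega
  rw [hI] at hcard
  rw [← hcard]
  apply Finset.card_le_card_of_injOn (fun a : Ten n d ℤ => fun s => if IsRp s then 0 else a s)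
  · intro a ha
    rw [Finset.mem_coe, Finset.mem_filter, mem_Box] at ha
    rw [Finset.mem_coe, Fintype.mem_piFinset]
    intro s
    show (if IsRp s then 0 else a s) ∈ _
    by_cases h : IsRp s
    · rw [if_pos h, if_pos h]
      exact Finset.mem_singleton_self _
    · rw [if_neg h, if_neg h, Finset.mem_Icc]
      exact abs_le.1 (ha.1 s)
  · intro a ha a' ha' heq
    rw [Finset.mem_coe, Finset.mem_filter] at ha ha'
    have h1 : ∀ s, ¬ IsRp s → (a - a') s = 0 := by
      intro s h
      have h2 := congrFun heq s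
      simp only [if_neg h] at h2
      simp only [Pi.sub_apply, h2, sub_self]
    have h2 : poly (a - a') = poly (0 : Ten n d ℤ) := by
      rw [poly_sub, ha.2, ha'.2, sub_self]
      have := poly_sub (0 : Ten n d ℤ) 0
      rw [sub_self, sub_self] at this
      exact this.symm
    have h3 : a - a' = 0 := by
      rw [← toTen_poly h1, h2]
      exact toTen_poly (c := 0) (fun _ _ => rfl)
    exact sub_eq_zero.1 h3

end Pool.Agent.Lib.MP_1ad228_ntF
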