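import Pool.Agent.Lib.MP_1ad228_ntF.Tay

/-! Local densities: the lemmas on vectors modulo `m` of the model are exported. -/

namespace Pool.Agent.Lib.MP_1ad228_ntF

export Pool.Agent.Lib.MP_219881_nt (II mn_mem_II LD_tors LD_cardI LD_cnty LD_sq LD_uni LD_Equi_one
  content)

open Classical

/-- Number of tuples modulo `m`. -/
theorem card_TupZ (n : ℕ) {r : ℕ} (d : Fin r → ℕ) (m : ℕ) [NeZero m] :
    Nat.card (Tup n d (ZMod m)) = m ^ VV n d := by
  rw [Nat.card_eq_fintype_card, Fintype.card_pi]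
  simp only [Fintype.card_fun, ZMod.card, Fintype.card_fin, VV]
  exact Finset.prod_pow_eq_pow_sum _ _ _

/-- Number of tensors modulo `m`. -/
theorem card_TenZ (n d m : ℕ) [NeZero m] : Nat.card (Ten n d (ZMod m)) = m ^ (n + 1) ^ d := by
  rw [Nat.card_eq_fintype_card]
  simp only [Fintype.card_fun, ZMod.card, Fintype.card_fin]

/-- A vector with a coordinate 1 is unimodular. -/
theorem uni_one {n : ℕ} {R : Type*} [CommRing R] {x : Vc n R} {i : Fin (n + 1)} (hi : x i = 1) :
    Uni x := by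
  refine ⟨Pi.single i 1, ?_⟩
  rw [lin_single, hi]

end Pool.Agent.Lib.MP_1ad228_ntF
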