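import Pool.Agent.Lib.MP_1ad228_ntF.LD_Ker

/-!
JOB LD_Mom.  (Model with proof: Lib/MP_219881_nt/LD_Mom.lean; adapt it to tuples. LD_Ker is another job.)

`V = VV n d = ∑ i, (n+1)^(d i)`, `U = Nat.card {x // Uni x}`, `s(F) = sm m F = #{x // Uni x ∧ ∀ i, ev (F i) x = 0}`.

LD_mom1.  `∑_F s(F) = ∑_{x Uni} #{F // ∀ i, ev (F i) x = 0} = ∑_{x Uni} ∏ i, #{a // ev a x = 0}` (the indicator of
`∀ i, ev (F i) x = 0` is `∏ i, f (F i) x`, and `Fintype.prod_sum`/`Finset.prod_univ_sum`: `∑_F ∏ i, g i (F i) = ∏ i, ∑_a g i a`,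
`Fintype.piFinset_univ`), and each `#{..} * m = m^((n+1)^(d i))` (LD_ker1), so `∏ * m^r = m^V` (`Finset.prod_pow_eq_pow_sum`).

LD_mom2.  `∑_F s(F)^2 = ∑_{x Uni} ∑_{y Uni} ∏ i, #{a // ev a x = 0 ∧ ev a y = 0}` and by LD_ker2
`#{..} * m * card (II x y) ≤ m^((n+1)^(d i))`, so `∏ i * m^r * card(II x y)^r ≤ m^V`. For fixed `x` group `y` by
`c = card (II x y)`, a divisor of `m` (LD_cardI):
`∑_y 1 / card (II x y)^r ≤ ∑_{c ∣ m} (m c^n) / c^r = m ∑_{c ∣ m} c^(n-r) ≤ m * m^(n-r) (1 + 1/p0)`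
(LD_cnty, LD_sq with `s = n - r ≥ 2`). So `∑ s^2 * m^r ≤ U m^V m^(n+1-r) (1 + 1/p0)`, times `m^r`:
`U m^V m^(n+1) (1 + 1/p0)`.
-/

namespace Pool.Agent.Lib.MP_1ad228_ntF

open Classical

private theorem LD_Mom_card {n : ℕ} (m : ℕ) [NeZero m] (P : Vc n (ZMod m) → Prop) :
    (Nat.card {x : Vc n (ZMod m) // P x} : ℝ) =
      ((Finset.univ.filter fun x : Vc n (ZMod m) => P x).card : ℝ) := by
  rw [Nat.card_eq_fintype_card, Fintype.card_subtype]

private theorem LD_Mom_cardT {n d : ℕ} (m : ℕ) [NeZero m] (P : Ten n d (ZMod m) → Prop) :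
    Nat.card {a : Ten n d (ZMod m) // P a} =
      (Finset.univ.filter fun a : Ten n d (ZMod m) => P a).card := by
  rw [Nat.card_eq_fintype_card, Fintype.card_subtype]

/-- The indicator of `ev a x = 0`. -/
private noncomputable def LD_Mom_f {n d m : ℕ} (a : Ten n d (ZMod m)) (x : Vc n (ZMod m)) : ℝ :=
  if ev a x = 0 then 1 else 0

private theorem LD_Mom_f_nonneg {n d m : ℕ} (a : Ten n d (ZMod m)) (x : Vc n (ZMod m)) :
    0 ≤ LD_Mom_f a x := by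
  unfold LD_Mom_f
  split_ifs <;> norm_num

private theorem LD_Mom_sm {n r : ℕ} {d : Fin r → ℕ} (m : ℕ) [NeZero m] (F : Tup n d (ZMod m)) :
    (sm m F : ℝ) = ∑ x ∈ Finset.univ.filter (fun x : Vc n (ZMod m) => Uni x),
      ∏ i, LD_Mom_f (F i) x := by
  have h0 : ∀ x : Vc n (ZMod m), ∏ i, LD_Mom_f (F i) x =
      (if ∀ i, ev (F i) x = 0 then (1 : ℝ) else 0) := by
    intro x
    unfold LD_Mom_f
    rw [Finset.prod_ite_zero]
    simp
  unfold sm
  simp only [h0]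
  rw [LD_Mom_card, Finset.sum_boole, Finset.filter_filter]
  refine congrArg _ (congrArg Finset.card ?_)
  ext x
  simp only [Finset.mem_filter]

private theorem LD_Mom_pos (m : ℕ) [NeZero m] : (0 : ℝ) < (m : ℝ) := by
  have : 0 < m := Nat.pos_of_ne_zero (NeZero.ne m)
  exact_mod_cast this

private theorem LD_Mom_one {n d : ℕ} (m : ℕ) [NeZero m] (x : Vc n (ZMod m)) (hx : Uni x) :
    (∑ a : Ten n d (ZMod m), LD_Mom_f a x) * (m : ℝ) = (m : ℝ) ^ (n + 1) ^ d := by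
  have hk := LD_ker1 (d := d) m x hx
  rw [LD_Mom_cardT] at hk
  unfold LD_Mom_f
  rw [Finset.sum_boole]
  exact_mod_cast hk

private theorem LD_Mom_two {n d : ℕ} (hd : 1 ≤ d) (m : ℕ) [NeZero m] (x y : Vc n (ZMod m))
    (hx : Uni x) (hy : Uni y) :
    ∑ a : Ten n d (ZMod m), LD_Mom_f a x * LD_Mom_f a y ≤
      (m : ℝ) ^ (n + 1) ^ d / ((m : ℝ) * (Nat.card (II x y) : ℝ)) := by
  have hm := LD_Mom_pos m
  have hc : 0 < Nat.card (II x y) := Nat.card_pos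
  have hc' : (0 : ℝ) < (Nat.card (II x y) : ℝ) := by exact_mod_cast hc
  have hk := LD_ker2 hd m x y hx hy
  rw [LD_Mom_cardT] at hk
  have h1 : ∑ a : Ten n d (ZMod m), LD_Mom_f a x * LD_Mom_f a y =
      ((Finset.univ.filter fun a : Ten n d (ZMod m) => ev a x = 0 ∧ ev a y = 0).card : ℝ) := by
    rw [← Finset.sum_boole]
    refine Finset.sum_congr rfl fun a _ => ?_
    unfold LD_Mom_f
    by_cases h : ev a x = 0
    · by_cases h' : ev a y = 0
      · simp [h, h']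
      · simp [h, h']
    · simp [h]
  have h2 : ((Finset.univ.filter fun a : Ten n d (ZMod m) => ev a x = 0 ∧ ev a y = 0).card : ℝ) *
      ((m : ℝ) * (Nat.card (II x y) : ℝ)) ≤ (m : ℝ) ^ (n + 1) ^ d := by
    exact_mod_cast hk
  rw [h1, le_div_iff₀ (by positivity)]
  exact h2

private theorem LD_Mom_two' {n r : ℕ} (d : Fin r → ℕ) (hd : ∀ i, 1 ≤ d i) (m : ℕ) [NeZero m]
    (x y : Vc n (ZMod m)) (hx : Uni x) (hy : Uni y) :
    (∏ i, ∑ a : Ten n (d i) (ZMod m), LD_Mom_f a x * LD_Mom_f a y) * (m : ℝ) ^ (2 * r) ≤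
      (m : ℝ) ^ VV n d * (m : ℝ) ^ r / (Nat.card (II x y) : ℝ) ^ r := by
  have hm := LD_Mom_pos m
  have hc : 0 < Nat.card (II x y) := Nat.card_pos
  have hc' : (0 : ℝ) < (Nat.card (II x y) : ℝ) := by exact_mod_cast hc
  have h1 : ∏ i, ∑ a : Ten n (d i) (ZMod m), LD_Mom_f a x * LD_Mom_f a y ≤
      ∏ i, ((m : ℝ) ^ (n + 1) ^ d i / ((m : ℝ) * (Nat.card (II x y) : ℝ))) := by
    refine Finset.prod_le_prod (fun i _ => ?_) (fun i _ => LD_Mom_two (hd i) m x y hx hy)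
    exact Finset.sum_nonneg fun a _ => mul_nonneg (LD_Mom_f_nonneg a x) (LD_Mom_f_nonneg a y)
  have h2 : ∏ i : Fin r, ((m : ℝ) ^ (n + 1) ^ d i / ((m : ℝ) * (Nat.card (II x y) : ℝ))) =
      (m : ℝ) ^ VV n d / ((m : ℝ) * (Nat.card (II x y) : ℝ)) ^ r := by
    rw [Finset.prod_div_distrib, Finset.prod_pow_eq_pow_sum, Finset.prod_const, Finset.card_univ,
      Fintype.card_fin]
    rfl
  rw [h2] at h1
  calc (∏ i, ∑ a : Ten n (d i) (ZMod m), LD_Mom_f a x * LD_Mom_f a y) * (m : ℝ) ^ (2 * r)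
      ≤ (m : ℝ) ^ VV n d / ((m : ℝ) * (Nat.card (II x y) : ℝ)) ^ r * (m : ℝ) ^ (2 * r) :=
        mul_le_mul_of_nonneg_right h1 (by positivity)
    _ = _ := by
        rw [mul_pow, two_mul, pow_add]
        field_simp

private theorem LD_Mom_row {n r : ℕ} (hn : r + 2 ≤ n) (m : ℕ) [NeZero m] (p0 : ℕ)
    (hp0 : 1 ≤ p0) (hm' : ∀ c, c ∣ m → 1 < c → p0 < c) (x : Vc n (ZMod m)) (hx : Uni x) (M : ℝ)
    (hM : 0 ≤ M) :
    ∑ y ∈ Finset.univ.filter (fun y : Vc n (ZMod m) => Uni y),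
      M * (m : ℝ) ^ r / (Nat.card (II x y) : ℝ) ^ r ≤ M * ((m : ℝ) ^ (n + 1) * (1 + 1 / p0)) := by
  have hm := LD_Mom_pos m
  have hm0 : m ≠ 0 := NeZero.ne m
  obtain ⟨s, rfl⟩ : ∃ s, n = s + r := ⟨n - r, by omega⟩
  have hs : 2 ≤ s := by omega
  have h1 : ∑ y ∈ Finset.univ.filter (fun y : Vc (s + r) (ZMod m) => Uni y),
      M * (m : ℝ) ^ r / (Nat.card (II x y) : ℝ) ^ r ≤
      ∑ y : Vc (s + r) (ZMod m), M * (m : ℝ) ^ r / (Nat.card (II x y) : ℝ) ^ r :=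
    Finset.sum_le_sum_of_subset_of_nonneg (Finset.filter_subset _ _)
      (fun y _ _ => by positivity)
  have hmap : ∀ y ∈ (Finset.univ : Finset (Vc (s + r) (ZMod m))),
      Nat.card (II x y) ∈ m.divisors := by
    intro y _
    exact Nat.mem_divisors.mpr ⟨(LD_cardI m (II x y)).1, hm0⟩
  rw [← Finset.sum_fiberwise_of_maps_to hmap] at h1
  refine h1.trans ?_
  have h2 : ∀ c ∈ m.divisors,
      ∑ y ∈ Finset.univ.filter (fun y : Vc (s + r) (ZMod m) => Nat.card (II x y) = c),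
        M * (m : ℝ) ^ r / (Nat.card (II x y) : ℝ) ^ r ≤ M * (m : ℝ) ^ (r + 1) * (c : ℝ) ^ s := by
    intro c hc
    have hcd : c ∣ m := Nat.dvd_of_mem_divisors hc
    have hc0 : 0 < c := Nat.pos_of_mem_divisors hc
    have hc' : (0 : ℝ) < (c : ℝ) := by exact_mod_cast hc0
    have h3 : ∑ y ∈ Finset.univ.filter (fun y : Vc (s + r) (ZMod m) => Nat.card (II x y) = c),
        M * (m : ℝ) ^ r / (Nat.card (II x y) : ℝ) ^ r =
        ∑ y ∈ Finset.univ.filter (fun y : Vc (s + r) (ZMod m) => Nat.card (II x y) = c),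
        M * (m : ℝ) ^ r / (c : ℝ) ^ r := by
      refine Finset.sum_congr rfl fun y hy => ?_
      rw [(Finset.mem_filter.mp hy).2]
    rw [h3, Finset.sum_const, nsmul_eq_mul]
    have h4 : ((Finset.univ.filter fun y : Vc (s + r) (ZMod m) =>
        Nat.card (II x y) = c).card : ℝ) ≤ (m : ℝ) * (c : ℝ) ^ (s + r) := by
      have := LD_cnty m x hx c hcd
      rw [Nat.card_eq_fintype_card, Fintype.card_subtype] at this
      exact_mod_cast this
    calc ((Finset.univ.filter fun y : Vc (s + r) (ZMod m) => Nat.card (II x y) = c).card : ℝ) *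
          (M * (m : ℝ) ^ r / (c : ℝ) ^ r)
        ≤ ((m : ℝ) * (c : ℝ) ^ (s + r)) * (M * (m : ℝ) ^ r / (c : ℝ) ^ r) := by
          exact mul_le_mul_of_nonneg_right h4 (by positivity)
      _ = M * (m : ℝ) ^ (r + 1) * (c : ℝ) ^ s := by
          rw [pow_add, pow_succ]
          field_simp
  refine (Finset.sum_le_sum h2).trans ?_
  rw [← Finset.mul_sum]
  calc M * (m : ℝ) ^ (r + 1) * ∑ c ∈ m.divisors, (c : ℝ) ^ s
      ≤ M * (m : ℝ) ^ (r + 1) * ((m : ℝ) ^ s * (1 + 1 / p0)) :=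
        mul_le_mul_of_nonneg_left (LD_sq m p0 hp0 hm' s hs) (by positivity)
    _ = _ := by rw [add_assoc s r 1, pow_add (m : ℝ) s (r + 1)]; ring

theorem LD_mom1 (n : ℕ) {r : ℕ} (d : Fin r → ℕ) (m : ℕ) [NeZero m] :
    (∑ F : Tup n d (ZMod m), (sm m F : ℝ)) * (m : ℝ) ^ r =
      (Nat.card {x : Vc n (ZMod m) // Uni x} : ℝ) * (m : ℝ) ^ VV n d := by
  have h0 : ∑ F : Tup n d (ZMod m), (sm m F : ℝ) =
      ∑ x ∈ Finset.univ.filter (fun x : Vc n (ZMod m) => Uni x),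
        ∏ i, ∑ a : Ten n (d i) (ZMod m), LD_Mom_f a x := by
    calc ∑ F : Tup n d (ZMod m), (sm m F : ℝ)
        = ∑ F : Tup n d (ZMod m),
            ∑ x ∈ Finset.univ.filter (fun x : Vc n (ZMod m) => Uni x),
              ∏ i, LD_Mom_f (F i) x :=
          Finset.sum_congr rfl fun F _ => LD_Mom_sm m F
      _ = ∑ x ∈ Finset.univ.filter (fun x : Vc n (ZMod m) => Uni x),
            ∑ F : Tup n d (ZMod m), ∏ i, LD_Mom_f (F i) x :=
          Finset.sum_comm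
      _ = _ := by
          refine Finset.sum_congr rfl fun x _ => ?_
          rw [Finset.prod_univ_sum, Fintype.piFinset_univ]
  rw [h0, Finset.sum_mul]
  have h1 : ∀ x ∈ Finset.univ.filter (fun x : Vc n (ZMod m) => Uni x),
      (∏ i, ∑ a : Ten n (d i) (ZMod m), LD_Mom_f a x) * (m : ℝ) ^ r = (m : ℝ) ^ VV n d := by
    intro x hx
    have h2 : (m : ℝ) ^ r = ∏ _i : Fin r, (m : ℝ) := by
      rw [Finset.prod_const, Finset.card_univ, Fintype.card_fin]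
    rw [h2, ← Finset.prod_mul_distrib,
      Finset.prod_congr rfl (fun i _ => LD_Mom_one (d := d i) m x (Finset.mem_filter.mp hx).2),
      Finset.prod_pow_eq_pow_sum]
    rfl
  rw [Finset.sum_congr rfl h1, Finset.sum_const, nsmul_eq_mul, LD_Mom_card]

theorem LD_mom2 (n : ℕ) {r : ℕ} (hn : r + 2 ≤ n) (d : Fin r → ℕ) (hd : ∀ i, 1 ≤ d i) (m : ℕ)
    [NeZero m] (p0 : ℕ) (hp0 : 1 ≤ p0) (hm : ∀ c, c ∣ m → 1 < c → p0 < c) :
    (∑ F : Tup n d (ZMod m), (sm m F : ℝ) ^ 2) * (m : ℝ) ^ (2 * r) ≤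
      (Nat.card {x : Vc n (ZMod m) // Uni x} : ℝ) * (m : ℝ) ^ VV n d *
        ((m : ℝ) ^ (n + 1) * (1 + 1 / p0)) := by
  set S := Finset.univ.filter (fun x : Vc n (ZMod m) => Uni x) with hS
  have h0 : ∑ F : Tup n d (ZMod m), (sm m F : ℝ) ^ 2 =
      ∑ x ∈ S, ∑ y ∈ S, ∏ i, ∑ a : Ten n (d i) (ZMod m), LD_Mom_f a x * LD_Mom_f a y := by
    calc ∑ F : Tup n d (ZMod m), (sm m F : ℝ) ^ 2
        = ∑ F : Tup n d (ZMod m), ∑ x ∈ S, ∑ y ∈ S,
            ∏ i, (LD_Mom_f (F i) x * LD_Mom_f (F i) y) := by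
          refine Finset.sum_congr rfl fun F _ => ?_
          rw [LD_Mom_sm, pow_two, Finset.sum_mul_sum]
          refine Finset.sum_congr rfl fun x _ => Finset.sum_congr rfl fun y _ => ?_
          rw [Finset.prod_mul_distrib]
      _ = ∑ x ∈ S, ∑ y ∈ S, ∑ F : Tup n d (ZMod m),
            ∏ i, (LD_Mom_f (F i) x * LD_Mom_f (F i) y) := by
          rw [Finset.sum_comm]
          refine Finset.sum_congr rfl fun x _ => ?_
          rw [Finset.sum_comm]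
      _ = _ := by
          refine Finset.sum_congr rfl fun x _ => Finset.sum_congr rfl fun y _ => ?_
          rw [Finset.prod_univ_sum, Fintype.piFinset_univ]
  rw [h0]
  calc (∑ x ∈ S, ∑ y ∈ S, ∏ i, ∑ a : Ten n (d i) (ZMod m), LD_Mom_f a x * LD_Mom_f a y) *
        (m : ℝ) ^ (2 * r)
      = ∑ x ∈ S, ∑ y ∈ S,
          (∏ i, ∑ a : Ten n (d i) (ZMod m), LD_Mom_f a x * LD_Mom_f a y) *
            (m : ℝ) ^ (2 * r) := by
        rw [Finset.sum_mul]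
        refine Finset.sum_congr rfl fun x _ => ?_
        rw [Finset.sum_mul]
    _ ≤ ∑ x ∈ S, ∑ y ∈ S,
          (m : ℝ) ^ VV n d * (m : ℝ) ^ r / (Nat.card (II x y) : ℝ) ^ r := by
        refine Finset.sum_le_sum fun x hx => Finset.sum_le_sum fun y hy => ?_
        exact LD_Mom_two' d hd m x y (Finset.mem_filter.mp hx).2 (Finset.mem_filter.mp hy).2
    _ ≤ ∑ x ∈ S, (m : ℝ) ^ VV n d * ((m : ℝ) ^ (n + 1) * (1 + 1 / p0)) := by
        refine Finset.sum_le_sum fun x hx => ?_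
        exact LD_Mom_row hn m p0 hp0 hm x (Finset.mem_filter.mp hx).2 _ (by positivity)
    _ = _ := by rw [Finset.sum_const, nsmul_eq_mul, LD_Mom_card]; ring

end Pool.Agent.Lib.MP_1ad228_ntF
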