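import Pool.Agent.Lib.MP_1ad228_ntF.LD_Mom

/-!
JOB LD_MomC.  Chebyshev.  (Model with proof: Lib/MP_219881_nt/LD_MomC.lean; adapt it. LD_Mom is another job.)

`V = VV n d`, `P = m^V` tuples (`card_TupZ`), `U = #Uni ≤ m^(n+1)`, `U ≥ m^(n+1) (1 - 1/p0)` (LD_uni).
`∑ (s m^r - U)^2 = (∑ s^2) m^(2r) - 2 U (∑ s) m^r + U^2 P ≤ U P m^(n+1) (1+1/p0) - U^2 P
= U P (m^(n+1) (1+1/p0) - U) ≤ U P (2 m^(n+1)/p0) ≤ 2 P m^(2n+2)/p0` (LD_mom1, LD_mom2).
If `s m^r ≤ m^(n+1)/2` then `U - s m^r ≥ m^(n+1) (1 - 1/p0) - m^(n+1)/2 ≥ (3/8) m^(n+1)` since `p0 ≥ 8`.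
So `# * (9/64) ≤ 2 P/p0`, `# ≤ (128/9) P / p0 ≤ 16 / p0 * P`.
-/

namespace Pool.Agent.Lib.MP_1ad228_ntF

open Classical

theorem LD_M1 (n : ℕ) {r : ℕ} (hn : r + 2 ≤ n) (d : Fin r → ℕ) (hd : ∀ i, 1 ≤ d i) (m : ℕ)
    [NeZero m] (p0 : ℕ) (hp0 : 8 ≤ p0) (hm : ∀ c, c ∣ m → 1 < c → p0 < c) :
    ((Finset.univ.filter fun F : Tup n d (ZMod m) =>
        (sm m F : ℝ) * (m : ℝ) ^ r ≤ (m : ℝ) ^ (n + 1) / 2).card : ℝ) ≤
      16 / p0 * (m : ℝ) ^ VV n d := by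
  have hm0 : (0 : ℝ) < (m : ℝ) := by
    have : 0 < m := Nat.pos_of_ne_zero (NeZero.ne m)
    exact_mod_cast this
  have hp1 : 1 ≤ p0 := by omega
  have hp : (8 : ℝ) ≤ (p0 : ℝ) := by exact_mod_cast hp0
  have hp' : (0 : ℝ) < (p0 : ℝ) := by linarith
  set U : ℝ := (Nat.card {x : Vc n (ZMod m) // Uni x} : ℝ) with hU
  have hU1 : (m : ℝ) ^ (n + 1) * (1 - 1 / p0) ≤ U := LD_uni n (by omega) m p0 hp1 hm
  have hU0 : 0 ≤ U := by positivity
  have hU2 : U ≤ (m : ℝ) ^ (n + 1) := by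
    have h : Nat.card {x : Vc n (ZMod m) // Uni x} ≤ Nat.card (Vc n (ZMod m)) :=
      Nat.card_le_card_of_injective _ Subtype.val_injective
    have h' : Nat.card (Vc n (ZMod m)) = m ^ (n + 1) := by
      rw [Nat.card_eq_fintype_card, Fintype.card_pi]
      simp [ZMod.card]
    rw [h'] at h
    rw [hU]
    exact_mod_cast h
  have hm1 := LD_mom1 n d m
  have hm2 := LD_mom2 n hn d hd m p0 hp1 hm
  rw [← hU] at hm1 hm2
  have hcard : ((Finset.univ : Finset (Tup n d (ZMod m))).card : ℝ) = (m : ℝ) ^ VV n d := by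
    have h := card_TupZ n d m
    rw [Nat.card_eq_fintype_card] at h
    rw [Finset.card_univ]
    exact_mod_cast h
  set P : ℝ := (m : ℝ) ^ VV n d with hP
  have hP0 : 0 < P := by positivity
  set N : ℝ := (m : ℝ) ^ (n + 1) with hN
  have hN0 : 0 < N := by positivity
  have hD : ∑ F : Tup n d (ZMod m), ((sm m F : ℝ) * (m : ℝ) ^ r - U) ^ 2 ≤
      2 * N ^ 2 * P / p0 := by
    have e1 : ∑ F : Tup n d (ZMod m), ((sm m F : ℝ) * (m : ℝ) ^ r - U) ^ 2 =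
        (∑ F : Tup n d (ZMod m), (sm m F : ℝ) ^ 2) * (m : ℝ) ^ (2 * r) - U ^ 2 * P := by
      have e2 : ∀ F : Tup n d (ZMod m), ((sm m F : ℝ) * (m : ℝ) ^ r - U) ^ 2 =
          (m : ℝ) ^ (2 * r) * (sm m F : ℝ) ^ 2 - (2 * U * (m : ℝ) ^ r) * (sm m F : ℝ)
            + U ^ 2 := fun F => by
        rw [mul_comm 2 r, pow_mul]
        ring
      simp only [e2]
      rw [Finset.sum_add_distrib, Finset.sum_sub_distrib, ← Finset.mul_sum, ← Finset.mul_sum,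
        Finset.sum_const, nsmul_eq_mul, hcard]
      have e3 : 2 * U * (m : ℝ) ^ r * ∑ F : Tup n d (ZMod m), (sm m F : ℝ) =
          2 * U * (U * P) := by
        rw [← hm1]
        ring
      rw [e3]
      ring
    rw [e1]
    have e6 : N * (1 + 1 / p0) - U ≤ 2 * N / p0 := by
      have : N * (1 + 1 / p0) - N * (1 - 1 / p0) = 2 * N / p0 := by ring
      linarith
    calc (∑ F : Tup n d (ZMod m), (sm m F : ℝ) ^ 2) * (m : ℝ) ^ (2 * r) - U ^ 2 * P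
        ≤ U * P * (N * (1 + 1 / p0)) - U ^ 2 * P := by linarith
      _ = U * (P * (N * (1 + 1 / p0) - U)) := by ring
      _ ≤ U * (P * (2 * N / p0)) :=
          mul_le_mul_of_nonneg_left (mul_le_mul_of_nonneg_left e6 hP0.le) hU0
      _ ≤ N * (P * (2 * N / p0)) := mul_le_mul_of_nonneg_right hU2 (by positivity)
      _ = 2 * N ^ 2 * P / p0 := by ring
  set T := Finset.univ.filter (fun F : Tup n d (ZMod m) =>
    (sm m F : ℝ) * (m : ℝ) ^ r ≤ N / 2) with hT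
  have hlow : (T.card : ℝ) * ((3 / 8 * N) ^ 2) ≤
      ∑ F : Tup n d (ZMod m), ((sm m F : ℝ) * (m : ℝ) ^ r - U) ^ 2 := by
    calc (T.card : ℝ) * ((3 / 8 * N) ^ 2)
        = ∑ F ∈ T, ((3 / 8 * N) ^ 2) := by rw [Finset.sum_const, nsmul_eq_mul]
      _ ≤ ∑ F ∈ T, ((sm m F : ℝ) * (m : ℝ) ^ r - U) ^ 2 := by
          refine Finset.sum_le_sum fun F hF => ?_
          have h1 : (sm m F : ℝ) * (m : ℝ) ^ r ≤ N / 2 := (Finset.mem_filter.mp hF).2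
          have h3 : (1 : ℝ) / p0 ≤ 1 / 8 := one_div_le_one_div_of_le (by norm_num) hp
          have h4 : N * (7 / 8) ≤ N * (1 - 1 / p0) :=
            mul_le_mul_of_nonneg_left (by linarith) hN0.le
          have h5 : 3 / 8 * N ≤ U - (sm m F : ℝ) * (m : ℝ) ^ r := by linarith
          have h6 : (0 : ℝ) ≤ 3 / 8 * N := by positivity
          have h7 : (3 / 8 * N) ^ 2 ≤ (U - (sm m F : ℝ) * (m : ℝ) ^ r) ^ 2 :=
            pow_le_pow_left₀ h6 h5 2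
          calc (3 / 8 * N) ^ 2 ≤ (U - (sm m F : ℝ) * (m : ℝ) ^ r) ^ 2 := h7
            _ = ((sm m F : ℝ) * (m : ℝ) ^ r - U) ^ 2 := by ring
      _ ≤ _ := Finset.sum_le_sum_of_subset_of_nonneg (Finset.filter_subset _ _)
          (fun F _ _ => by positivity)
  have hfin : (T.card : ℝ) * ((3 / 8 * N) ^ 2) ≤ 2 * N ^ 2 * P / p0 := hlow.trans hD
  have hN6 : (0 : ℝ) < 9 / 64 * N ^ 2 := by positivity
  refine le_of_mul_le_mul_right ?_ hN6
  calc (T.card : ℝ) * (9 / 64 * N ^ 2) = (T.card : ℝ) * ((3 / 8 * N) ^ 2) := by ring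
    _ ≤ 2 * N ^ 2 * P / p0 := hfin
    _ ≤ 16 / p0 * P * (9 / 64 * N ^ 2) := by
        have e7 : 16 / p0 * P * (9 / 64 * N ^ 2) = (9 / 4) * (N ^ 2 * P / p0) := by
          ring
        rw [e7]
        have h0 : (0 : ℝ) ≤ N ^ 2 * P / p0 := by positivity
        have h1 : 2 * N ^ 2 * P / p0 = 2 * (N ^ 2 * P / p0) := by ring
        rw [h1]
        linarith

end Pool.Agent.Lib.MP_1ad228_ntF
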