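import Pool.Agent.Lib.MP_1ad228_ntF.LD_Base
import Pool.Agent.Lib.MP_1ad228_ntF.LD_Elim

/-!
JOB LD_Norm.  Normalisation of a p-adic zero and a good minor.
(Model of the first part with proof: LD_norm in Lib/MP_219881_nt/LD_Norm.lean; adapt it.)

LD_norm.  Let `y ≠ 0` be a common zero in `ℚ_[p]^(n+1)`; choose `i` with `‖y i‖` maximal (`> 0`) and divide by
`y i`: `x = y / y i` has all norms `≤ 1` and `x i = 1`, so it comes from `ℤ_[p]`; `ev` is homogeneous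
(`ev_scale`); use injectivity of the coercion `ℤ_[p] → ℚ_[p]` (`ev_map`, `PadicInt.Coe.ringHom`).

LD_minor.  Put `u l j = dev (ct ℤ_[p] (F l)) x j` in `ℤ_[p]`. Reduction mod `p^e`:
`PadicInt.toZModPow e` (kernel = multiples of `p^e`), `dev_map`, `ev_map`; the reduced `x` has `i`-th coordinate
1 and is a common zero.  So (`hex`) (*) for every `t : Fin r → ℤ_[p]` with some `t l = 1` there is `j ≠ i` with `¬ p^e ∣ ∑ l, t l * u l j`
(reduce `t`), that is `‖∑ l, t l * u l j‖ > p^(-e)`, that is `≥ p^(-(e-1)) =: η` (`PadicInt.norm_le_pow_iff_mem_span_pow`,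
`PadicInt.norm_lt_pow_iff_norm_le_pow_sub_one`, `PadicInt.norm_int_le_pow_iff_dvd`..).
Apply `elim` with `K = ℚ_[p]`, `v` = the norm (`NormedField.toAbsoluteValue`/`normHom : ℚ_[p] →*₀ ℝ`), `ι = {j // j ≠ i}`, `J l j = (u l j : ℚ_[p])`.
Its hypothesis: `t : Fin r → ℚ_[p]` with `t l = 1`; let `l0` have `‖t l0‖` maximal (`≥ 1`), `t / t l0` has entries of norm `≤ 1` (so in `ℤ_[p]`) and its `l0`
entry is 1; by (*) there is `j` with `η ≤ ‖∑ l, (t l / t l0) * u l j‖ = ‖∑ l, t l * u l j‖ / ‖t l0‖ ≤ ‖∑ l, t l * u l j‖`.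
So there is `S` with `p^(-r(e-1)) ≤ ‖det‖`, `det = det (u l (S k))` (the coercion commutes with `det`: `RingHom.map_det`), hence
`p^(r(e-1)+1)` does not divide it (otherwise the norm is `≤ p^(-(r(e-1)+1))`). `elim_inj`: `S` is injective.
-/

namespace Pool.Agent.Lib.MP_1ad228_ntF

open Classical

private theorem LD_Norm_ctmap {n d : ℕ} {R S : Type*} [CommRing R] [CommRing S] (f : R →+* S)
    (a : Ten n d ℤ) : (fun s => f (ct R a s)) = ct S a := by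
  funext s
  simp [ct]

private theorem LD_Norm_ev {n d : ℕ} {R S : Type*} [CommRing R] [CommRing S] (f : R →+* S)
    (a : Ten n d ℤ) (x : Vc n R) : ev (ct S a) (fun i => f (x i)) = f (ev (ct R a) x) := by
  rw [← ev_map f (ct R a) x, LD_Norm_ctmap]

private theorem LD_Norm_dev {n d : ℕ} {R S : Type*} [CommRing R] [CommRing S] (f : R →+* S)
    (a : Ten n d ℤ) (x : Vc n R) (j : Fin (n + 1)) :
    dev (ct S a) (fun i => f (x i)) j = f (dev (ct R a) x j) := by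
  rw [← dev_map f (ct R a) x, LD_Norm_ctmap]

private theorem LD_Norm_low (p : ℕ) [Fact p.Prime] (e : ℕ) (z : ℤ_[p])
    (hz : ¬ (p : ℤ_[p]) ^ (e + 1) ∣ z) : (p : ℝ) ^ (-(e : ℤ)) ≤ ‖z‖ := by
  by_contra h
  push Not at h
  apply hz
  rw [PadicInt.norm_lt_pow_iff_norm_le_pow_sub_one] at h
  have h1 : (-(e : ℤ) - 1) = -((e + 1 : ℕ) : ℤ) := by
    push_cast
    ring
  rw [h1, PadicInt.norm_le_pow_iff_mem_span_pow] at h
  exact Ideal.mem_span_singleton.1 h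

theorem LD_norm {n r : ℕ} {d : Fin r → ℕ} (p : ℕ) [Fact p.Prime] (F : Tup n d ℤ)
    (h : ∃ x : Vc n ℚ_[p], x ≠ 0 ∧ ∀ k, ev (ct ℚ_[p] (F k)) x = 0) :
    ∃ (x : Vc n ℤ_[p]) (i : Fin (n + 1)), x i = 1 ∧ ∀ k, ev (ct ℤ_[p] (F k)) x = 0 := by
  obtain ⟨y, hy0, hya⟩ := h
  obtain ⟨i, hi⟩ := Finite.exists_max (fun k => ‖y k‖)
  have hyi : y i ≠ 0 := by
    intro h0
    apply hy0
    funext k
    have h1 := hi k
    simp only [h0, norm_zero] at h1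
    exact norm_le_zero_iff.1 h1
  have hn : ∀ k, ‖(y i)⁻¹ * y k‖ ≤ 1 := by
    intro k
    rw [norm_mul, norm_inv, inv_mul_le_iff₀ (norm_pos_iff.2 hyi), mul_one]
    exact hi k
  refine ⟨fun k => ⟨(y i)⁻¹ * y k, hn k⟩, i, ?_, ?_⟩
  · apply Subtype.ext
    show (y i)⁻¹ * y i = ((1 : ℤ_[p]) : ℚ_[p])
    rw [inv_mul_cancel₀ hyi]
    rfl
  · intro m
    have h1 : ((ev (ct ℤ_[p] (F m)) (fun k => (⟨(y i)⁻¹ * y k, hn k⟩ : ℤ_[p])) : ℤ_[p]) : ℚ_[p])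
        = 0 := by
      have h2 := LD_Norm_ev (PadicInt.Coe.ringHom (p := p)) (F m)
        (fun k => (⟨(y i)⁻¹ * y k, hn k⟩ : ℤ_[p]))
      have h3 : (fun k => PadicInt.Coe.ringHom (p := p) (⟨(y i)⁻¹ * y k, hn k⟩ : ℤ_[p]))
          = fun k => (y i)⁻¹ * y k := rfl
      rw [h3, ev_scale, hya m, mul_zero] at h2
      exact h2.symm
    exact Subtype.ext h1

private theorem LD_Norm_star {n r : ℕ} {d : Fin r → ℕ} (p : ℕ) [Fact p.Prime] (e : ℕ)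
    (F : Tup n d ℤ) (x : Vc n ℤ_[p]) (i : Fin (n + 1)) (hi : x i = 1)
    (h0 : ∀ k, ev (ct ℤ_[p] (F k)) x = 0) (hex : ¬ Exc (p ^ e) (ctT (ZMod (p ^ e)) F))
    (t : Fin r → ℤ_[p]) (l : Fin r) (hl : t l = 1) :
    ∃ j, j ≠ i ∧ ¬ (p : ℤ_[p]) ^ e ∣ ∑ k, t k * dev (ct ℤ_[p] (F k)) x j := by
  by_contra hcon
  push Not at hcon
  have hxi : PadicInt.toZModPow e (x i) = 1 := by rw [hi, map_one]
  have htl : PadicInt.toZModPow e (t l) = 1 := by rw [hl, map_one]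
  refine hex ⟨fun k => PadicInt.toZModPow e (x k), i, fun k => PadicInt.toZModPow e (t k), l,
    hxi, htl, fun k => ?_, fun j hj => ?_⟩
  · show ev (ct (ZMod (p ^ e)) (F k)) (fun k => PadicInt.toZModPow e (x k)) = 0
    rw [LD_Norm_ev (PadicInt.toZModPow (p := p) e) (F k) x, h0 k, map_zero]
  · have h1 : PadicInt.toZModPow e (∑ k, t k * dev (ct ℤ_[p] (F k)) x j) = 0 := by
      rw [← RingHom.mem_ker, PadicInt.ker_toZModPow]
      exact Ideal.mem_span_singleton.2 (hcon j hj)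
    rw [map_sum] at h1
    rw [← h1]
    refine Finset.sum_congr rfl fun k _ => ?_
    rw [map_mul]
    show PadicInt.toZModPow e (t k) *
      dev (ct (ZMod (p ^ e)) (F k)) (fun k => PadicInt.toZModPow e (x k)) j = _
    rw [LD_Norm_dev (PadicInt.toZModPow (p := p) e) (F k) x]

private theorem LD_Norm_elimHyp {n r : ℕ} {d : Fin r → ℕ} (p : ℕ) [Fact p.Prime] (e : ℕ)
    (F : Tup n d ℤ) (x : Vc n ℤ_[p]) (i : Fin (n + 1)) (hi : x i = 1)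
    (h0 : ∀ k, ev (ct ℤ_[p] (F k)) x = 0) (hex : ¬ Exc (p ^ (e + 1)) (ctT (ZMod (p ^ (e + 1))) F))
    (t : Fin r → ℚ_[p]) (ht : ∃ l, t l = 1) :
    ∃ j : {j : Fin (n + 1) // j ≠ i}, (p : ℝ) ^ (-(e : ℤ)) ≤
      ‖∑ k, t k * ((dev (ct ℤ_[p] (F k)) x j.1 : ℤ_[p]) : ℚ_[p])‖ := by
  obtain ⟨l, hl⟩ := ht
  have : Nonempty (Fin r) := ⟨l⟩
  obtain ⟨l0, hl0⟩ := Finite.exists_max (fun k => ‖t k‖)
  have h1 : 1 ≤ ‖t l0‖ := by
    have h := hl0 l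
    simp only [hl, norm_one] at h
    exact h
  have hpos : 0 < ‖t l0‖ := lt_of_lt_of_le one_pos h1
  have hne : t l0 ≠ 0 := norm_pos_iff.1 hpos
  have hn : ∀ k, ‖(t l0)⁻¹ * t k‖ ≤ 1 := by
    intro k
    rw [norm_mul, norm_inv, inv_mul_le_iff₀ hpos, mul_one]
    exact hl0 k
  obtain ⟨tt, htt⟩ : ∃ tt : Fin r → ℤ_[p], ∀ k, ((tt k : ℤ_[p]) : ℚ_[p]) = (t l0)⁻¹ * t k :=
    ⟨fun k => ⟨_, hn k⟩, fun k => rfl⟩
  have htl0 : tt l0 = 1 := by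
    apply Subtype.ext
    rw [htt, inv_mul_cancel₀ hne]
    rfl
  obtain ⟨j, hj, hdj⟩ := LD_Norm_star p (e + 1) F x i hi h0 hex tt l0 htl0
  refine ⟨⟨j, hj⟩, (LD_Norm_low p e _ hdj).trans ?_⟩
  have h2 : ((∑ k, tt k * dev (ct ℤ_[p] (F k)) x j : ℤ_[p]) : ℚ_[p]) =
      (t l0)⁻¹ * ∑ k, t k * ((dev (ct ℤ_[p] (F k)) x j : ℤ_[p]) : ℚ_[p]) := by
    have h3 : ((∑ k, tt k * dev (ct ℤ_[p] (F k)) x j : ℤ_[p]) : ℚ_[p]) =
        PadicInt.Coe.ringHom (∑ k, tt k * dev (ct ℤ_[p] (F k)) x j) := rfl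
    rw [h3, map_sum, Finset.mul_sum]
    refine Finset.sum_congr rfl fun k _ => ?_
    rw [map_mul]
    show ((tt k : ℤ_[p]) : ℚ_[p]) * ((dev (ct ℤ_[p] (F k)) x j : ℤ_[p]) : ℚ_[p]) = _
    rw [htt, mul_assoc]
  rw [PadicInt.norm_def, h2, norm_mul, norm_inv, inv_mul_le_iff₀ hpos]
  exact le_mul_of_one_le_left (norm_nonneg _) h1

theorem LD_minor {n r : ℕ} {d : Fin r → ℕ} (p : ℕ) [Fact p.Prime] (e : ℕ) (he : 1 ≤ e)
    (F : Tup n d ℤ) (x : Vc n ℤ_[p]) (i : Fin (n + 1)) (hi : x i = 1)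
    (h0 : ∀ k, ev (ct ℤ_[p] (F k)) x = 0) (hex : ¬ Exc (p ^ e) (ctT (ZMod (p ^ e)) F)) :
    ∃ S : Fin r → Fin (n + 1), (∀ k, S k ≠ i) ∧ Function.Injective S ∧
      ¬ ((p : ℤ_[p]) ^ (r * (e - 1) + 1) ∣
        Matrix.det fun l k => dev (ct ℤ_[p] (F l)) x (S k)) := by
  obtain ⟨f, rfl⟩ : ∃ f, e = f + 1 := ⟨e - 1, by omega⟩
  have hp1 : (1 : ℝ) < p := by exact_mod_cast (Fact.out : p.Prime).one_lt
  have hp0 : (0 : ℝ) < p := lt_trans one_pos hp1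
  have hη : (0 : ℝ) < (p : ℝ) ^ (-(f : ℤ)) := zpow_pos hp0 _
  obtain ⟨S, hS⟩ := elim (normHom : ℚ_[p] →*₀ ℝ) (fun z => norm_nonneg z) ((p : ℝ) ^ (-(f : ℤ))) hη
    (fun (l : Fin r) (j : {j : Fin (n + 1) // j ≠ i}) => ((dev (ct ℤ_[p] (F l)) x j.1 : ℤ_[p]) : ℚ_[p]))
    (fun t ht => LD_Norm_elimHyp p f F x i hi h0 hex t ht)
  have hdet : (Matrix.det fun l k => ((dev (ct ℤ_[p] (F l)) x (S k).1 : ℤ_[p]) : ℚ_[p])) =
      ((Matrix.det (fun l k => dev (ct ℤ_[p] (F l)) x (S k).1) : ℤ_[p]) : ℚ_[p]) := by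
    have h := RingHom.map_det (PadicInt.Coe.ringHom (p := p))
      (fun l k => dev (ct ℤ_[p] (F l)) x (S k).1 : Matrix (Fin r) (Fin r) ℤ_[p])
    exact h.symm
  have hS' : ((p : ℝ) ^ (-(f : ℤ))) ^ r ≤ ‖(Matrix.det (fun l k => dev (ct ℤ_[p] (F l)) x (S k).1) : ℤ_[p])‖ := by
    rw [PadicInt.norm_def, ← hdet]
    exact hS
  have hpow : ((p : ℝ) ^ (-(f : ℤ))) ^ r = (p : ℝ) ^ (-((r * f : ℕ) : ℤ)) := by
    rw [← zpow_natCast, ← zpow_mul]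
    congr 1
    push_cast
    ring
  have hne : (Matrix.det (fun l k => dev (ct ℤ_[p] (F l)) x (S k).1) : ℤ_[p]) ≠ 0 := by
    intro h
    rw [h, norm_zero] at hS'
    exact absurd hS' (not_le.2 (pow_pos hη r))
  refine ⟨fun k => (S k).1, fun k => (S k).2, ?_, ?_⟩
  · exact Subtype.val_injective.comp (elim_inj (K := ℤ_[p])
      (fun (l : Fin r) (j : {j : Fin (n + 1) // j ≠ i}) => dev (ct ℤ_[p] (F l)) x j.1) S hne)
  · intro hdvd
    rw [hpow] at hS'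
    have h1 : ‖(Matrix.det (fun l k => dev (ct ℤ_[p] (F l)) x (S k).1) : ℤ_[p])‖ ≤
        (p : ℝ) ^ (-((r * (f + 1 - 1) + 1 : ℕ) : ℤ)) := by
      rw [PadicInt.norm_le_pow_iff_mem_span_pow]
      exact Ideal.mem_span_singleton.2 hdvd
    have h2 := hS'.trans h1
    have h3 : (p : ℝ) ^ (-((r * (f + 1 - 1) + 1 : ℕ) : ℤ)) < (p : ℝ) ^ (-((r * f : ℕ) : ℤ)) := by
      apply zpow_lt_zpow_right₀ hp1
      rw [Nat.add_sub_cancel]
      push_cast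
      linarith
    exact absurd h2 (not_le.2 h3)

end Pool.Agent.Lib.MP_1ad228_ntF
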