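import Pool.Agent.Lib.MP_1ad228_ntF.Tp

/-!
JOB Span2.  Tensors vanishing at two non proportional `H`-good points are spanned by
`d^2 n^2 (n+1)^d` short integer tensors, `d ≥ 2`.
(Model with proof: Lib/MP_219881_nt/Span2.lean, the case `d = 2`.)

PROOF.  Let `f` be the short vectors of `x`, `g` those of `y`. Index `t = (k, k', s, s', σ)`:
`c t = 0` if `k = k'`, otherwise `c t = tp (fun l => if l = k then f s else if l = k' then g s' else
Pi.single (σ l) 1)`. By `ev_tp` it vanishes at `x` (factor `k`) and at `y` (factor `k'`); entries: one entry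
of `f_s`, one of `g_s'`, the other factors 0 or 1: at most `H ^ 2`.
Spanning: `S` = span of the `ct ℚ (c t)`, `X = cv ℚ x`, `Y = cv ℚ y`.
(M) if `k ≠ k'`, `lin (u k) X = 0`, `lin (u k') Y = 0` then `tp u ∈ S` (`tp_mem`, `perp_mem` for `x` and for
`y`, `top_mem`).
Take `j` with `D := X o * Y j - X j * Y o ≠ 0`; `p = D⁻¹ • (Y j • e_o - Y o • e_j)`,
`r = D⁻¹ • (X o • e_j - X j • e_o)`: `p(X) = 1, p(Y) = 0, r(X) = 0, r(Y) = 1`. For `i` put
`w i : Fin 3 → Vc n ℚ`, `w i 0 = X_i • p`, `w i 1 = Y_i • r`, `w i 2 = e_i - X_i • p - Y_i • r` (kills `X` and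
`Y`); `∑ a, w i a = e_i`. By `tp_sum`: `tp (e ∘ σ) = ∑ v : Fin d → Fin 3, tp (fun k => w (σ k) (v k))`.
The terms `v = 0` (constant) and `v = 1` (constant) are `(∏ X (σ k)) • tp (fun _ => p)` and
`(∏ Y (σ k)) • tp (fun _ => r)` (`tp_smul`). Every other term is in `S` by (M): `w i 0` kills `Y`, `w i 1`
kills `X`, `w i 2` kills both; if some `v k = 2`, take any `k' ≠ k` (`d ≥ 2`) and use that slot `k'` kills `X` or
`Y`; if no `v k = 2` then both values `0` and `1` are taken. So
`tp (e ∘ σ) - (∏ X (σ k)) • tp p - (∏ Y (σ k)) • tp r ∈ S`; multiply by `b σ` and sum (`ten_sum`); `ev b X = 0`,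
`ev b Y = 0`.
-/

namespace Pool.Agent.Lib.MP_1ad228_ntF

open Classical

private def span2_c {n d : ℕ} (f g : Fin n → Vc n ℤ)
    (t : Fin d × Fin d × Fin n × Fin n × (Fin d → Fin (n + 1))) : Ten n d ℤ :=
  if t.1 = t.2.1 then 0 else
    tp (fun l => if l = t.1 then f t.2.2.1 else if l = t.2.1 then g t.2.2.2.1 else
      Pi.single (t.2.2.2.2 l) 1)

private theorem span2_e {n : ℕ} (i j : Fin (n + 1)) : |(Pi.single i 1 : Vc n ℤ) j| ≤ 1 := by
  rw [Pi.single_apply]
  split_ifs <;> simp

private theorem span2_slots {d : ℕ} (hd : 2 ≤ d) (v : Fin d → Fin 3) (h0 : v ≠ fun _ => 0)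
    (h1 : v ≠ fun _ => 1) : ∃ k k' : Fin d, k ≠ k' ∧ v k ≠ 0 ∧ v k' ≠ 1 := by
  obtain ⟨k1, hk1⟩ : ∃ k, v k ≠ 0 := by
    by_contra hcon
    push Not at hcon
    exact h0 (funext hcon)
  obtain ⟨k2, hk2⟩ : ∃ k, v k ≠ 1 := by
    by_contra hcon
    push Not at hcon
    exact h1 (funext hcon)
  by_cases he : k1 = k2
  · subst he
    obtain ⟨k', hk'⟩ : ∃ k' : Fin d, k' ≠ k1 := by
      by_cases hz : k1 = ⟨0, by omega⟩
      · refine ⟨⟨1, by omega⟩, ?_⟩
        rw [hz]
        intro h
        have := congrArg Fin.val h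
        simp at this
      · exact ⟨⟨0, by omega⟩, fun h => hz h.symm⟩
    by_cases hv : v k' = 1
    · refine ⟨k', k1, hk', ?_, hk2⟩
      rw [hv]
      decide
    · exact ⟨k1, k', fun h => hk' h.symm, hk1, hv⟩
  · exact ⟨k1, k2, he, hk1, hk2⟩

theorem span2 {n : ℕ} (d : ℕ) (hd : 2 ≤ d) (H : ℕ) (o : Fin (n + 1)) (x y : Vc n ℤ)
    (hxy : ∃ j, mn x y o j ≠ 0) (hx : HGood H x) (hy : HGood H y) :
    ∃ c : (Fin d × Fin d × Fin n × Fin n × (Fin d → Fin (n + 1))) → Ten n d ℤ,
      (∀ t, ev (c t) x = 0) ∧ (∀ t, ev (c t) y = 0) ∧ (∀ t s, |c t s| ≤ (H : ℤ) ^ 2) ∧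
      ∀ b : Ten n d ℚ, ev b (cv ℚ x) = 0 → ev b (cv ℚ y) = 0 →
        ∃ r : (Fin d × Fin d × Fin n × Fin n × (Fin d → Fin (n + 1))) → ℚ,
          ∀ s, b s = ∑ t, r t * (c t s : ℚ) := by
  obtain ⟨f, hf, hf0, hfH⟩ := hx
  obtain ⟨g, hg, hg0, hgH⟩ := hy
  obtain ⟨j0, hj0⟩ := hxy
  have hx0 : x ≠ 0 := by
    intro h
    apply hj0
    simp [mn, h]
  have hy0 : y ≠ 0 := by
    intro h
    apply hj0
    simp [mn, h]
  have hev0 : ∀ z : Vc n ℤ, ev (0 : Ten n d ℤ) z = 0 := by
    intro z
    unfold ev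
    exact Finset.sum_eq_zero fun s _ => by rw [Pi.zero_apply, zero_mul]
  refine ⟨span2_c f g, ?_, ?_, ?_, ?_⟩
  · rintro ⟨k, k', s, s', σ⟩
    unfold span2_c
    by_cases hk : k = k'
    · rw [if_pos hk]
      exact hev0 x
    · rw [if_neg hk, ev_tp]
      refine Finset.prod_eq_zero (Finset.mem_univ k) ?_
      rw [if_pos rfl]
      exact hf0 s
  · rintro ⟨k, k', s, s', σ⟩
    unfold span2_c
    by_cases hk : k = k'
    · rw [if_pos hk]
      exact hev0 y
    · rw [if_neg hk, ev_tp]
      refine Finset.prod_eq_zero (Finset.mem_univ k') ?_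
      rw [if_neg (Ne.symm hk), if_pos rfl]
      exact hg0 s'
  · rintro ⟨k, k', s, s', σ⟩ τ
    unfold span2_c
    by_cases hk : k = k'
    · rw [if_pos hk, Pi.zero_apply, abs_zero]
      positivity
    · rw [if_neg hk]
      show |∏ l, (if l = k then f s else if l = k' then g s' else (Pi.single (σ l) 1 : Vc n ℤ)) (τ l)|
        ≤ (H : ℤ) ^ 2
      have hk2 : k' ∈ Finset.univ.erase k := Finset.mem_erase.2 ⟨Ne.symm hk, Finset.mem_univ _⟩
      rw [← Finset.mul_prod_erase Finset.univ _ (Finset.mem_univ k), if_pos rfl,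
        ← Finset.mul_prod_erase (Finset.univ.erase k) _ hk2, if_neg (Ne.symm hk), if_pos rfl, abs_mul,
        abs_mul, Finset.abs_prod]
      have h1 : ∏ l ∈ (Finset.univ.erase k).erase k',
          |(if l = k then f s else if l = k' then g s' else (Pi.single (σ l) 1 : Vc n ℤ)) (τ l)| ≤ 1 := by
        refine Finset.prod_le_one (fun l _ => abs_nonneg _) fun l hl => ?_
        rw [if_neg (Finset.ne_of_mem_erase (Finset.mem_of_mem_erase hl)),
          if_neg (Finset.ne_of_mem_erase hl)]
        exact span2_e _ _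
      have h2 := mul_le_mul (hgH s' (τ k')) h1 (Finset.prod_nonneg fun l _ => abs_nonneg _)
        (Int.natCast_nonneg H)
      rw [mul_one] at h2
      have h3 := mul_le_mul (hfH s (τ k)) h2 (by positivity) (Int.natCast_nonneg H)
      calc _ ≤ (H : ℤ) * H := h3
        _ = (H : ℤ) ^ 2 := by ring
  · intro b hbx hby
    let S : Submodule ℚ (Ten n d ℚ) := Submodule.span ℚ (Set.range fun t => ct ℚ (span2_c f g t))
    let X : Vc n ℚ := cv ℚ x
    let Y : Vc n ℚ := cv ℚ y
    have hM : ∀ (u : Fin d → Vc n ℚ) (k k' : Fin d), k ≠ k' → lin (u k) X = 0 → lin (u k') Y = 0 →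
        tp u ∈ S := by
      intro u k k' hkk hk hk'
      refine tp_mem S (fun l => if l = k then (Set.range fun s : Fin n => cv ℚ (f s)) else
        if l = k' then (Set.range fun s : Fin n => cv ℚ (g s)) else
        (Set.range fun j : Fin (n + 1) => (Pi.single j 1 : Vc n ℚ))) ?_ u ?_
      · intro a ha
        have hak := ha k
        rw [if_pos rfl] at hak
        obtain ⟨s, hs⟩ := hak
        have hak' := ha k'
        rw [if_neg (Ne.symm hkk), if_pos rfl] at hak'
        obtain ⟨s', hs'⟩ := hak'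
        have h2 : ∀ l, ∃ j : Fin (n + 1), l ≠ k → l ≠ k' → (Pi.single j 1 : Vc n ℚ) = a l := by
          intro l
          by_cases hl : l = k
          · exact ⟨0, fun h => absurd hl h⟩
          · by_cases hl' : l = k'
            · exact ⟨0, fun _ h => absurd hl' h⟩
            · have hal := ha l
              rw [if_neg hl, if_neg hl'] at hal
              obtain ⟨j, hj⟩ := hal
              exact ⟨j, fun _ _ => hj⟩
        choose σ hσ using h2
        refine Submodule.subset_span ⟨(k, k', s, s', σ), ?_⟩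
        have e0 : span2_c f g (k, k', s, s', σ) =
            tp (fun l => if l = k then f s else if l = k' then g s' else Pi.single (σ l) 1) :=
          if_neg hkk
        show ct ℚ (span2_c f g (k, k', s, s', σ)) = tp a
        rw [e0, ct_tp]
        refine congrArg tp (funext fun l => ?_)
        by_cases hl : l = k
        · rw [if_pos hl, hl]
          exact hs
        · by_cases hl' : l = k'
          · rw [if_neg hl, if_pos hl', hl']
            exact hs'
          · rw [if_neg hl, if_neg hl', cv_single]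
            exact hσ l hl hl'
      · intro l
        by_cases hl : l = k
        · rw [if_pos hl, hl]
          exact perp_mem x hx0 f hf hf0 hk
        · by_cases hl' : l = k'
          · rw [if_neg hl, if_pos hl', hl']
            exact perp_mem y hy0 g hg hg0 hk'
          · rw [if_neg hl, if_neg hl']
            exact top_mem (u l)
    let e : Fin (n + 1) → Vc n ℚ := fun i => Pi.single i 1
    let D : ℚ := X o * Y j0 - X j0 * Y o
    have hD : D ≠ 0 := by
      have h1 : ((mn x y o j0 : ℤ) : ℚ) ≠ 0 := by exact_mod_cast hj0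
      simpa [mn, D, X, Y, cv] using h1
    let p : Vc n ℚ := D⁻¹ • (Y j0 • e o - Y o • e j0)
    let r : Vc n ℚ := D⁻¹ • (X o • e j0 - X j0 • e o)
    have hpx : lin p X = 1 := by
      show lin (D⁻¹ • (Y j0 • e o - Y o • e j0)) X = 1
      rw [lin_smul, lin_sub, lin_smul, lin_smul, lin_single, lin_single]
      have h1 : Y j0 * X o - Y o * X j0 = D := by ring
      rw [h1, inv_mul_cancel₀ hD]
    have hpy : lin p Y = 0 := by
      show lin (D⁻¹ • (Y j0 • e o - Y o • e j0)) Y = 0
      rw [lin_smul, lin_sub, lin_smul, lin_smul, lin_single, lin_single]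
      ring
    have hrx : lin r X = 0 := by
      show lin (D⁻¹ • (X o • e j0 - X j0 • e o)) X = 0
      rw [lin_smul, lin_sub, lin_smul, lin_smul, lin_single, lin_single]
      ring
    have hry : lin r Y = 1 := by
      show lin (D⁻¹ • (X o • e j0 - X j0 • e o)) Y = 1
      rw [lin_smul, lin_sub, lin_smul, lin_smul, lin_single, lin_single]
      exact inv_mul_cancel₀ hD
    let w : Fin (n + 1) → Fin 3 → Vc n ℚ := fun i a =>
      (![X i • p, Y i • r, e i - X i • p - Y i • r] : Fin 3 → Vc n ℚ) a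
    have hw : ∀ i, ∑ a, w i a = e i := by
      intro i
      rw [Fin.sum_univ_three]
      show X i • p + Y i • r + (e i - X i • p - Y i • r) = e i
      abel
    have hwX : ∀ i (a : Fin 3), a ≠ 0 → lin (w i a) X = 0 := by
      intro i a ha
      fin_cases a
      · exact absurd rfl ha
      · show lin (Y i • r) X = 0
        rw [lin_smul, hrx, mul_zero]
      · show lin (e i - X i • p - Y i • r) X = 0
        have a1 : lin (X i • p) X = X i := by rw [lin_smul, hpx, mul_one]
        have a2 : lin (Y i • r) X = 0 := by rw [lin_smul, hrx, mul_zero]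
        rw [lin_sub, lin_sub, a1, a2, lin_single]
        ring
    have hwY : ∀ i (a : Fin 3), a ≠ 1 → lin (w i a) Y = 0 := by
      intro i a ha
      fin_cases a
      · show lin (X i • p) Y = 0
        rw [lin_smul, hpy, mul_zero]
      · exact absurd rfl ha
      · show lin (e i - X i • p - Y i • r) Y = 0
        have a1 : lin (X i • p) Y = 0 := by rw [lin_smul, hpy, mul_zero]
        have a2 : lin (Y i • r) Y = Y i := by rw [lin_smul, hry, mul_one]
        rw [lin_sub, lin_sub, a1, a2, lin_single]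
        ring
    have hσ : ∀ σ : Fin d → Fin (n + 1), tp (fun k => e (σ k)) - (∏ k, X (σ k)) • tp (fun _ : Fin d => p)
        - (∏ k, Y (σ k)) • tp (fun _ : Fin d => r) ∈ S := by
      intro σ
      have e1 : tp (fun k => e (σ k)) = ∑ v : Fin d → Fin 3, tp (fun k => w (σ k) (v k)) := by
        rw [← tp_sum (fun k => w (σ k))]
        exact congrArg tp (funext fun k => (hw (σ k)).symm)
      have e2 : (∏ k, X (σ k)) • tp (fun _ : Fin d => p) =
          tp (fun k => w (σ k) ((fun _ : Fin d => (0 : Fin 3)) k)) := (tp_smul (fun k => X (σ k)) _).symm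
      have e3 : (∏ k, Y (σ k)) • tp (fun _ : Fin d => r) =
          tp (fun k => w (σ k) ((fun _ : Fin d => (1 : Fin 3)) k)) := (tp_smul (fun k => Y (σ k)) _).symm
      have hne : (fun _ : Fin d => (1 : Fin 3)) ≠ (fun _ : Fin d => (0 : Fin 3)) := by
        intro h
        have := congrFun h ⟨0, by omega⟩
        exact absurd this (by decide)
      have hmem : (fun _ : Fin d => (1 : Fin 3)) ∈
          (Finset.univ : Finset (Fin d → Fin 3)).erase (fun _ => 0) :=
        Finset.mem_erase.2 ⟨hne, Finset.mem_univ _⟩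
      rw [e1, e2, e3, ← Finset.add_sum_erase Finset.univ _ (Finset.mem_univ (fun _ : Fin d => (0 : Fin 3))),
        ← Finset.add_sum_erase _ _ hmem, add_sub_cancel_left, add_sub_cancel_left]
      refine Submodule.sum_mem _ fun v hv => ?_
      have hv1 : v ≠ fun _ => 1 := Finset.ne_of_mem_erase hv
      have hv0 : v ≠ fun _ => 0 := Finset.ne_of_mem_erase (Finset.mem_of_mem_erase hv)
      obtain ⟨k, k', hkk, hk, hk'⟩ := span2_slots hd v hv0 hv1
      exact hM _ k k' hkk (hwX _ _ hk) (hwY _ _ hk')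
    have hb2 : b - ev b X • tp (fun _ => p) - ev b Y • tp (fun _ => r) ∈ S := by
      have e1 : b - ev b X • tp (fun _ => p) - ev b Y • tp (fun _ => r) =
          ∑ σ : Fin d → Fin (n + 1), b σ • (tp (fun k => e (σ k)) - (∏ k, X (σ k)) • tp (fun _ : Fin d => p)
            - (∏ k, Y (σ k)) • tp (fun _ : Fin d => r)) := by
        have e3 : ev b X • tp (fun _ : Fin d => p) = ∑ σ : Fin d → Fin (n + 1), b σ • (∏ k, X (σ k)) •
            tp (fun _ => p) := by
          unfold ev
          simp only [Finset.sum_smul, mul_smul]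
        have e4 : ev b Y • tp (fun _ : Fin d => r) = ∑ σ : Fin d → Fin (n + 1), b σ • (∏ k, Y (σ k)) •
            tp (fun _ => r) := by
          unfold ev
          simp only [Finset.sum_smul, mul_smul]
        rw [e3, e4]
        refine (congrArg (fun z => z - (∑ σ : Fin d → Fin (n + 1), b σ • (∏ k, X (σ k)) •
            tp (fun _ => p)) - ∑ σ : Fin d → Fin (n + 1), b σ • (∏ k, Y (σ k)) •
            tp (fun _ => r)) (ten_sum b)).trans ?_
        show (∑ σ : Fin d → Fin (n + 1), b σ • tp (fun k => e (σ k))) -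
          (∑ σ : Fin d → Fin (n + 1), b σ • (∏ k, X (σ k)) • tp (fun _ => p)) -
          ∑ σ : Fin d → Fin (n + 1), b σ • (∏ k, Y (σ k)) • tp (fun _ => r) = _
        rw [← Finset.sum_sub_distrib, ← Finset.sum_sub_distrib]
        refine Finset.sum_congr rfl fun σ _ => ?_
        rw [smul_sub, smul_sub]
      rw [e1]
      exact Submodule.sum_mem _ fun σ _ => Submodule.smul_mem _ _ (hσ σ)
    have hb3 : b ∈ S := by
      have e4 : ev b X = 0 := hbx
      have e5 : ev b Y = 0 := hby
      rw [e4, e5, zero_smul, zero_smul, sub_zero, sub_zero] at hb2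
      exact hb2
    obtain ⟨t, ht⟩ := (Submodule.mem_span_range_iff_exists_fun ℚ).1 hb3
    refine ⟨t, fun s => ?_⟩
    rw [← ht]
    simp only [Finset.sum_apply, Pi.smul_apply, smul_eq_mul, ct]

end Pool.Agent.Lib.MP_1ad228_ntF
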