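import Pool.Agent.Lib.MP_1ad228_ntF.Span1
import Pool.Agent.Lib.MP_1ad228_ntF.Span2
import Pool.Agent.Lib.MP_1ad228_ntF.Round

/-!
JOB LL.  Short integer tensors with given values.  (Model: Lib/MP_219881_nt/LL.lean)

PROOF.  LL1: `span1` gives the integer tensors `c t`; the rational tensor `ct ℚ a - b` vanishes at `x`
(`ev_sub`, `ev_ct`), so it is `∑ r_t c_t`; `roundLem` with `N = H`, card of the index type
`d * (n * (n + 1) ^ d)`, gives `a' = a - ∑ m_t c_t`, whose value at `x` is that of `a`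
(`ev_sub`, `ev_sum`, `ev_smul'`). LL2: the same with `span2`, `N = H^2`, card `d * (d * (n * (n * (n+1)^d)))`.
-/

namespace Pool.Agent.Lib.MP_1ad228_ntF

open Classical

private theorem ll_ev_sub_sum {n d : ℕ} {ι : Type} [Fintype ι] (a : Ten n d ℤ)
    (c : ι → Ten n d ℤ) (m : ι → ℤ) (z : Vc n ℤ) (hc : ∀ t, ev (c t) z = 0) :
    ev (fun s => a s - ∑ t, m t * c t s) z = ev a z := by
  have e : (fun s => a s - ∑ t, m t * c t s) = a - ∑ t, m t • c t := by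
    funext s
    simp only [Pi.sub_apply, Finset.sum_apply, Pi.smul_apply, smul_eq_mul]
  rw [e, ev_sub, ev_sum]
  simp only [ev_smul', hc, mul_zero, Finset.sum_const_zero, sub_zero]

private theorem ll_vanish {n d : ℕ} (a : Ten n d ℤ) (b : Ten n d ℚ) (z : Vc n ℤ)
    (he : ((ev a z : ℤ) : ℚ) = ev b (cv ℚ z)) : ev (ct ℚ a - b) (cv ℚ z) = 0 := by
  rw [ev_sub, ev_ct, he, sub_self]

theorem LL1 {n d : ℕ} (H : ℕ) (o : Fin (n + 1)) (x : Vc n ℤ) (hxo : x o ≠ 0) (hx : HGood H x)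
    (a : Ten n d ℤ) (b : Ten n d ℚ) (β : ℚ) (hb : ∀ s, |b s| ≤ β)
    (he : ((ev a x : ℤ) : ℚ) = ev b (cv ℚ x)) :
    ∃ a' : Ten n d ℤ, ev a' x = ev a x ∧ ∀ s, |(a' s : ℚ)| ≤ β + d * n * (n + 1) ^ d * H := by
  obtain ⟨c, hc1, hc2, hc3⟩ := span1 d H o x hxo hx
  obtain ⟨r, hr⟩ := hc3 (ct ℚ a - b) (ll_vanish a b x he)
  obtain ⟨m, hm⟩ := roundLem H a b β hb c hc2 r (fun s => by
    have := hr s
    simpa [ct] using this)
  refine ⟨fun s => a s - ∑ t, m t * c t s, ll_ev_sub_sum a c m x hc1, fun s => ?_⟩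
  have h1 := hm s
  have h2 : (Fintype.card (Fin d × Fin n × (Fin d → Fin (n + 1))) : ℚ) =
      d * n * (n + 1) ^ d := by
    simp only [Fintype.card_prod, Fintype.card_fin, Fintype.card_fun]
    push_cast
    ring
  rw [h2] at h1
  exact h1

theorem LL2 {n d : ℕ} (hd : 2 ≤ d) (H : ℕ) (o : Fin (n + 1)) (x y : Vc n ℤ)
    (hxy : ∃ j, mn x y o j ≠ 0)
    (hx : HGood H x) (hy : HGood H y) (a : Ten n d ℤ) (b : Ten n d ℚ) (β : ℚ)
    (hb : ∀ s, |b s| ≤ β) (he : ((ev a x : ℤ) : ℚ) = ev b (cv ℚ x))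
    (he' : ((ev a y : ℤ) : ℚ) = ev b (cv ℚ y)) :
    ∃ a' : Ten n d ℤ, ev a' x = ev a x ∧ ev a' y = ev a y ∧
      ∀ s, |(a' s : ℚ)| ≤ β + (cc n d : ℚ) * (H : ℚ) ^ 2 := by
  obtain ⟨c, hc1, hc1', hc2, hc3⟩ := span2 d hd H o x y hxy hx hy
  obtain ⟨r, hr⟩ := hc3 (ct ℚ a - b) (ll_vanish a b x he) (ll_vanish a b y he')
  obtain ⟨m, hm⟩ := roundLem (H ^ 2) a b β hb c (fun t s => by
    have := hc2 t s
    push_cast
    exact this) r (fun s => by
    have := hr s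
    simpa [ct] using this)
  refine ⟨fun s => a s - ∑ t, m t * c t s, ll_ev_sub_sum a c m x hc1,
    ll_ev_sub_sum a c m y hc1', fun s => ?_⟩
  have h1 := hm s
  have h2 : (Fintype.card (Fin d × Fin d × Fin n × Fin n × (Fin d → Fin (n + 1))) : ℚ) =
      (cc n d : ℚ) := by
    simp only [Fintype.card_prod, Fintype.card_fin, Fintype.card_fun, cc]
    push_cast
    ring
  rw [h2] at h1
  have h3 : ((H ^ 2 : ℕ) : ℚ) = (H : ℚ) ^ 2 := by
    push_cast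
    rfl
  rw [h3] at h1
  exact h1

end Pool.Agent.Lib.MP_1ad228_ntF
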