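import Pool.Agent.Lib.MP_1ad228_ntF.PairSum
import Pool.Agent.Lib.MP_1ad228_ntF.NP
import Pool.Agent.Lib.MP_1ad228_ntF.Expand
import Pool.Agent.Lib.MP_1ad228_ntF.EEgood

/-!
JOB VarTot.  The variance (assembly).
(Model: Lib/MP_219881_nt/VarTot.lean)

PROOF.  `V = VV n d`, `D = ∑ d`, `K = k^2 ≥ 1`, `A ≥ 4 q^D ≥ 1`. `expand`: `Qv = ∑_x ∑_y EE x y`. Split the inner
sum in `y = x`, good `y` (`y ≠ x`, `Dd ∣ W` and `B^2 ≤ k Del`), bad `y` (the others).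
`y = x`: `EEle`, `n2_self`, `NP1` (`8 CC H ≤ 8 CC H^2 k ≤ A`): `|EE| ≤ 2*4^V*(5A)^V*2^r q^D/(A^r B^D)`.
good: `EEgood` and `NP2` (`8 CC H^2 ≤ A`):
`|EE| ≤ (5r/k)*6^V*(5A)^V*64^r (q^D/B^D)^2 (B^2/(q A^2))^r * (Dd/Del)^r`; sum with
`psAll`: the bracket `B^(n+1)/B^(2r) + H^(n+1+r) B/B^r`, and `1/k ≤ 1`.
bad: `EEle` and `NP2`: `|EE| ≤ 2*4^V*(5A)^V*64^r (q^D/B^D)^2 (B^2/(q A^2))^r * (Dd/Del)^r`; sum with `psBad`.
Sum over `x`: multiply by `card (GG B H q o) ≤ 3^(n+1) B^(n+1)` (`card_GG_le`). With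
`E = B^(n+1)/(A^r B^D)`: as in PairTot the three products are `E`, `E^2` and `E^2 * H^(n+1+r) B^r/B^n`. Constants
may depend on `n, r, d` and `q`.
-/

namespace Pool.Agent.Lib.MP_1ad228_ntF

open Classical

/-- One row of the variance sum. -/
private theorem varTot_row {r : ℕ} (hr : 1 ≤ r) {n : ℕ} (hn : r + 2 ≤ n) (d : Fin r → ℕ)
    (hd : ∀ i, 2 ≤ d i) (q : ℕ) (hq : 1 ≤ q) (C1 C2 : ℝ)
    (o : Fin (n + 1)) (k w B H A W : ℕ) (hk : 1 ≤ k) (hB : 1 ≤ B) (hH : 1 ≤ H)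
    (hA : 8 * CC n d * H ^ 2 * k ≤ A) (hA' : 4 * q ^ (∑ i, d i) ≤ A) (x : Vc n ℤ) (hx : x ∈ GG B H q o)
    (hC1 : ∑ y ∈ (GG B H q o).filter (fun y => y ≠ x), ((Dd x y : ℝ) / (Del o x y : ℝ)) ^ r ≤
      C1 * ((B : ℝ) ^ (n + 1) / (B : ℝ) ^ (2 * r) + (H : ℝ) ^ (n + 1 + r) * ((B : ℝ) / (B : ℝ) ^ r)))
    (hC2 : ∑ y ∈ (GG B H q o).filter (fun y => y ≠ x ∧ ¬ (Dd x y ∣ W ∧ B ^ 2 ≤ k * Del o x y)),
      ((Dd x y : ℝ) / (Del o x y : ℝ)) ^ r ≤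
      C2 * ((B : ℝ) ^ (n + 1) / (B : ℝ) ^ (2 * r) * (1 / (k : ℝ) + 1 / ((w : ℝ) + 1))
        + (H : ℝ) ^ (n + 1 + r) * ((B : ℝ) / (B : ℝ) ^ r))) :
    ∑ y ∈ GG B H q o, EE d o W (k ^ 2) A x y ≤
      2 * 4 ^ VV n d * ((5 * (A : ℝ)) ^ VV n d *
        (2 ^ r * (q : ℝ) ^ (∑ i, d i) / ((A : ℝ) ^ r * (B : ℝ) ^ (∑ i, d i))))
      + 5 * r / (k : ℝ) * 6 ^ VV n d * ((5 * (A : ℝ)) ^ VV n d *
          (64 ^ r * ((q : ℝ) ^ (∑ i, d i) / (B : ℝ) ^ (∑ i, d i)) ^ 2 *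
            ((B : ℝ) ^ 2 / ((q : ℝ) * (A : ℝ) ^ 2)) ^ r)) *
        (C1 * ((B : ℝ) ^ (n + 1) / (B : ℝ) ^ (2 * r) + (H : ℝ) ^ (n + 1 + r) * ((B : ℝ) / (B : ℝ) ^ r)))
      + 2 * 4 ^ VV n d * ((5 * (A : ℝ)) ^ VV n d *
          (64 ^ r * ((q : ℝ) ^ (∑ i, d i) / (B : ℝ) ^ (∑ i, d i)) ^ 2 *
            ((B : ℝ) ^ 2 / ((q : ℝ) * (A : ℝ) ^ 2)) ^ r)) *
        (C2 * ((B : ℝ) ^ (n + 1) / (B : ℝ) ^ (2 * r) * (1 / (k : ℝ) + 1 / ((w : ℝ) + 1))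
          + (H : ℝ) ^ (n + 1 + r) * ((B : ℝ) / (B : ℝ) ^ r))) := by
  have hA2 : 8 * CC n d * H ^ 2 ≤ A := le_trans (Nat.le_mul_of_pos_right _ hk) hA
  have hA3 : 8 * CC n d * H ≤ A := by
    refine le_trans ?_ hA2
    refine Nat.mul_le_mul_left _ ?_
    rw [sq]
    exact Nat.le_mul_of_pos_right _ hH
  have hA1 : 1 ≤ A := by
    have : 1 ≤ q ^ (∑ i, d i) := Nat.one_le_pow _ _ hq
    omega
  set N0 : ℝ := (5 * (A : ℝ)) ^ VV n d with hN0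
  set al : ℝ := 64 ^ r * ((q : ℝ) ^ (∑ i, d i) / (B : ℝ) ^ (∑ i, d i)) ^ 2 *
            ((B : ℝ) ^ 2 / ((q : ℝ) * (A : ℝ) ^ 2)) ^ r with hal
  have hN0' : 0 ≤ N0 := by positivity
  have hal' : 0 ≤ al := by
    rw [hal]
    have h64 : (0 : ℝ) ≤ 64 ^ r := pow_nonneg (by norm_num) _
    exact mul_nonneg (mul_nonneg h64 (sq_nonneg _)) (pow_nonneg (by positivity) _)
  have hkpos : (0 : ℝ) < k := by exact_mod_cast hk
  have h24 : (0 : ℝ) ≤ 6 ^ VV n d := pow_nonneg (by norm_num) _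
  have h16 : (0 : ℝ) ≤ 4 ^ VV n d := pow_nonneg (by norm_num) _
  have h9k : (0 : ℝ) ≤ 5 * r / (k : ℝ) := div_nonneg (mul_nonneg (by norm_num) (Nat.cast_nonneg _)) hkpos.le
  set ag : ℝ := 5 * r / (k : ℝ) * 6 ^ VV n d * (N0 * al) with hag
  set ab : ℝ := 2 * 4 ^ VV n d * (N0 * al) with hab
  have hag' : 0 ≤ ag := mul_nonneg (mul_nonneg h9k h24) (mul_nonneg hN0' hal')
  have hab' : 0 ≤ ab := mul_nonneg (mul_nonneg (by norm_num) h16) (mul_nonneg hN0' hal')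
  have hsplit := Finset.sum_filter_add_sum_filter_not (GG B H q o) (fun y => y ≠ x)
    (fun y => EE d o W (k ^ 2) A x y)
  rw [← hsplit]
  have hrn : ∀ y : Vc n ℤ, 0 ≤ ((Dd x y : ℝ) / (Del o x y : ℝ)) ^ r := fun y =>
    pow_nonneg (div_nonneg (Nat.cast_nonneg _) (Nat.cast_nonneg _)) _
  -- the diagonal term
  have hdiag : ∑ y ∈ (GG B H q o).filter (fun y => ¬ y ≠ x), EE d o W (k ^ 2) A x y ≤
      2 * 4 ^ VV n d * (N0 * (2 ^ r * (q : ℝ) ^ (∑ i, d i) / ((A : ℝ) ^ r * (B : ℝ) ^ (∑ i, d i)))) := by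
    have h1 : (GG B H q o).filter (fun y => ¬ y ≠ x) = {x} := by
      ext y
      simp only [Finset.mem_filter, not_not, Finset.mem_singleton]
      constructor
      · exact fun h => h.2
      · rintro rfl; exact ⟨hx, rfl⟩
    rw [h1, Finset.sum_singleton]
    refine le_trans (le_abs_self _) (le_trans (EEle d o W (k ^ 2) A x x) ?_)
    have h2 := NP1 (n := n) (by omega) d (fun i => le_trans (by norm_num) (hd i)) B H q A o hB hq hA1 hA3 x hx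
    have h3 : ∏ i, (n2 (d i) x x A : ℝ) = ∏ i, (n1 (d i) x A : ℝ) :=
      Finset.prod_congr rfl fun i _ => by rw [n2_self]
    rw [h3]
    exact mul_le_mul_of_nonneg_left h2 (mul_nonneg (by norm_num) h16)
  -- the other terms
  have hoff : ∑ y ∈ (GG B H q o).filter (fun y => y ≠ x), EE d o W (k ^ 2) A x y ≤
      ag * ∑ y ∈ (GG B H q o).filter (fun y => y ≠ x), ((Dd x y : ℝ) / (Del o x y : ℝ)) ^ r
      + ab * ∑ y ∈ (GG B H q o).filter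
          (fun y => y ≠ x ∧ ¬ (Dd x y ∣ W ∧ B ^ 2 ≤ k * Del o x y)),
          ((Dd x y : ℝ) / (Del o x y : ℝ)) ^ r := by
    have h2 : ∑ y ∈ (GG B H q o).filter
          (fun y => y ≠ x ∧ ¬ (Dd x y ∣ W ∧ B ^ 2 ≤ k * Del o x y)),
          ((Dd x y : ℝ) / (Del o x y : ℝ)) ^ r
        = ∑ y ∈ (GG B H q o).filter (fun y => y ≠ x),
          (if ¬ (Dd x y ∣ W ∧ B ^ 2 ≤ k * Del o x y) then
            ((Dd x y : ℝ) / (Del o x y : ℝ)) ^ r else 0) := by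
      rw [← Finset.filter_filter, Finset.sum_filter]
    rw [h2, Finset.mul_sum, Finset.mul_sum, ← Finset.sum_add_distrib]
    refine Finset.sum_le_sum fun y hy => ?_
    obtain ⟨hyG, hyx⟩ := Finset.mem_filter.1 hy
    have hN2 := NP2 d hd B H q A o hB hq hA2 hA' x y hx hyG (Ne.symm hyx)
    have hN3 : ∏ i, (n2 (d i) x y A : ℝ) ≤ N0 * (al * ((Dd x y : ℝ) / (Del o x y : ℝ)) ^ r) := by
      refine hN2.trans (le_of_eq ?_)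
      rw [hal]
    refine le_trans (le_abs_self _) ?_
    by_cases hgood : Dd x y ∣ W ∧ B ^ 2 ≤ k * Del o x y
    · have h3 := EEgood hr d hd B H q o k A W hB hk hA1 hA x y hx hyG (Ne.symm hyx) hgood.1 hgood.2
      rw [if_neg (not_not.2 hgood), mul_zero, add_zero]
      calc |EE d o W (k ^ 2) A x y| ≤ 5 * r / (k : ℝ) * 6 ^ VV n d * ∏ i, (n2 (d i) x y A : ℝ) := h3
        _ ≤ 5 * r / (k : ℝ) * 6 ^ VV n d *
            (N0 * (al * ((Dd x y : ℝ) / (Del o x y : ℝ)) ^ r)) :=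
          mul_le_mul_of_nonneg_left hN3 (mul_nonneg h9k h24)
        _ = ag * ((Dd x y : ℝ) / (Del o x y : ℝ)) ^ r := by rw [hag]; ring
    · rw [if_pos hgood]
      have h4 : 0 ≤ ag * ((Dd x y : ℝ) / (Del o x y : ℝ)) ^ r := mul_nonneg hag' (hrn y)
      have h5 : |EE d o W (k ^ 2) A x y| ≤ ab * ((Dd x y : ℝ) / (Del o x y : ℝ)) ^ r := by
        calc |EE d o W (k ^ 2) A x y| ≤ 2 * 4 ^ VV n d * ∏ i, (n2 (d i) x y A : ℝ) :=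
              EEle d o W (k ^ 2) A x y
          _ ≤ 2 * 4 ^ VV n d * (N0 * (al * ((Dd x y : ℝ) / (Del o x y : ℝ)) ^ r)) :=
            mul_le_mul_of_nonneg_left hN3 (mul_nonneg (by norm_num) h16)
          _ = ab * ((Dd x y : ℝ) / (Del o x y : ℝ)) ^ r := by rw [hab]; ring
      linarith
  have h6 := mul_le_mul_of_nonneg_left hC1 hag'
  have h7 := mul_le_mul_of_nonneg_left hC2 hab'
  linarith

private theorem varTot_alg (k w B Bn b BD a qr qD Hh C1 C2 R P2 P64 P5 P4 P6 PA P3 : ℝ) (hk : 1 ≤ k)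
    (hw : 0 ≤ w) (hB : 0 < B) (hBn : 0 < Bn) (hb : 0 < b) (hBD : 0 < BD) (ha : 0 < a) (hqr : 0 < qr)
    (hqD : 0 < qD) (hHh : 0 ≤ Hh) (hC1 : 0 < C1) (hC2 : 0 < C2) (hR : 0 < R) (h2 : 0 < P2)
    (h64 : 0 < P64) (h5 : 0 < P5) (h4 : 0 < P4) (h6 : 0 < P6) (hPA : 0 < PA) (h3 : 0 < P3) :
    P3 * (Bn * B) * (2 * P4 * ((P5 * PA) * (P2 * qD / (a * BD)))
      + 5 * R / k * P6 * ((P5 * PA) * (P64 * (qD / BD) ^ 2 * (b ^ 2 / (qr * a ^ 2)))) *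
        (C1 * (Bn * B / b ^ 2 + Hh * (B / b)))
      + 2 * P4 * ((P5 * PA) * (P64 * (qD / BD) ^ 2 * (b ^ 2 / (qr * a ^ 2)))) *
        (C2 * (Bn * B / b ^ 2 * (1 / k + 1 / (w + 1)) + Hh * (B / b)))) ≤
      (P3 * 2 * P4 * P5 * (P2 * qD) + P3 * 5 * R * P6 * P5 * (P64 * qD ^ 2 / qr) * C1
        + P3 * 2 * P4 * P5 * (P64 * qD ^ 2 / qr) * C2) * PA *
        (Bn * B / (a * BD) + (Bn * B / (a * BD)) ^ 2 *
          (1 / k + 1 / (w + 1) + Hh * b / Bn)) := by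
  have hk0 : 0 < k := by linarith
  have hw1 : 0 < w + 1 := by linarith
  obtain ⟨E, hE⟩ : ∃ E, E = Bn * B / (a * BD) := ⟨_, rfl⟩
  obtain ⟨h, hh⟩ : ∃ h, h = Hh * b / Bn := ⟨_, rfl⟩
  obtain ⟨c, hc⟩ : ∃ c, c = P64 * qD ^ 2 / qr := ⟨_, rfl⟩
  have hE0 : 0 ≤ E := by rw [hE]; positivity
  have hh0 : 0 ≤ h := by rw [hh]; positivity
  have hc0 : 0 ≤ c := by rw [hc]; positivity
  have e1 : (Bn * B) * (P2 * qD / (a * BD)) = P2 * qD * E := by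
    rw [hE]
    field_simp
  have e2 : (Bn * B) * (P64 * (qD / BD) ^ 2 * (b ^ 2 / (qr * a ^ 2))) * (Bn * B / b ^ 2) = c * E ^ 2 := by
    rw [hE, hc]
    field_simp
  have e3 : (Bn * B) * (P64 * (qD / BD) ^ 2 * (b ^ 2 / (qr * a ^ 2))) * (Hh * (B / b)) = c * (E ^ 2 * h) := by
    rw [hE, hc, hh]
    field_simp
  rw [← hE, ← hh, ← hc]
  obtain ⟨s, hs⟩ : ∃ s, s = 1 / k + 1 / (w + 1) := ⟨_, rfl⟩
  have hs0 : 0 ≤ s := by rw [hs]; positivity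
  have hk1 : 1 / k ≤ 1 := by
    rw [div_le_one hk0]
    exact hk
  have hk2 : 0 ≤ 1 / k := by positivity
  have hks : 1 / k ≤ s := by
    rw [hs]
    have : 0 ≤ 1 / (w + 1) := by positivity
    linarith
  rw [← hs]
  obtain ⟨al, hal⟩ : ∃ al, al = P64 * (qD / BD) ^ 2 * (b ^ 2 / (qr * a ^ 2)) := ⟨_, rfl⟩
  rw [← hal] at e2 e3 ⊢
  obtain ⟨u, hu⟩ : ∃ u, u = Bn * B / b ^ 2 := ⟨_, rfl⟩
  obtain ⟨v, hv⟩ : ∃ v, v = Hh * (B / b) := ⟨_, rfl⟩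
  obtain ⟨t, ht⟩ : ∃ t, t = P2 * qD / (a * BD) := ⟨_, rfl⟩
  obtain ⟨X, hX⟩ : ∃ X, X = Bn * B := ⟨_, rfl⟩
  rw [← hu, ← hX] at e2
  rw [← hv, ← hX] at e3
  rw [← ht, ← hX] at e1
  rw [← hu, ← hv, ← ht, ← hX]
  have e4 : P3 * X * (2 * P4 * ((P5 * PA) * t)
      + 5 * R / k * P6 * ((P5 * PA) * al) * (C1 * (u + v))
      + 2 * P4 * ((P5 * PA) * al) * (C2 * (u * s + v))) =
      P3 * 2 * P4 * P5 * PA * (X * t)
      + P3 * 5 * R * P6 * P5 * PA * C1 * (1 / k * (X * al * u + X * al * v))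
      + P3 * 2 * P4 * P5 * PA * C2 * (X * al * u * s + X * al * v) := by
    ring
  rw [e4, e1, e2, e3]
  have f0 : 0 ≤ E ^ 2 * (s + h) := by positivity
  have f1 : P2 * qD * E ≤ P2 * qD * (E + E ^ 2 * (s + h)) :=
    mul_le_mul_of_nonneg_left (by linarith) (by positivity)
  have f2 : 1 / k * (c * E ^ 2 + c * (E ^ 2 * h)) ≤ c * (E + E ^ 2 * (s + h)) := by
    have g1 : 1 / k * (c * E ^ 2 + c * (E ^ 2 * h)) = c * (E ^ 2 * (1 / k + 1 / k * h)) := by ring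
    rw [g1]
    have g2 : 1 / k * h ≤ 1 * h := mul_le_mul_of_nonneg_right hk1 hh0
    have g3 : E ^ 2 * (1 / k + 1 / k * h) ≤ E ^ 2 * (s + h) :=
      mul_le_mul_of_nonneg_left (by linarith) (sq_nonneg _)
    exact mul_le_mul_of_nonneg_left (by linarith) hc0
  have f3 : c * E ^ 2 * s + c * (E ^ 2 * h) ≤ c * (E + E ^ 2 * (s + h)) := by
    have g1 : c * E ^ 2 * s + c * (E ^ 2 * h) = c * (E ^ 2 * (s + h)) := by ring
    rw [g1]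
    exact mul_le_mul_of_nonneg_left (by linarith) hc0
  have k1 : 0 ≤ P3 * 2 * P4 * P5 * PA := by positivity
  have k2 : 0 ≤ P3 * 5 * R * P6 * P5 * PA * C1 := by positivity
  have k3 : 0 ≤ P3 * 2 * P4 * P5 * PA * C2 := by positivity
  have m1 := mul_le_mul_of_nonneg_left f1 k1
  have m2 := mul_le_mul_of_nonneg_left f2 k2
  have m3 := mul_le_mul_of_nonneg_left f3 k3
  calc _ ≤ P3 * 2 * P4 * P5 * PA * (P2 * qD * (E + E ^ 2 * (s + h)))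
      + P3 * 5 * R * P6 * P5 * PA * C1 * (c * (E + E ^ 2 * (s + h)))
      + P3 * 2 * P4 * P5 * PA * C2 * (c * (E + E ^ 2 * (s + h))) := by
        linarith
    _ = _ := by ring

private theorem varTot_pw (B q A : ℝ) (r : ℕ) :
    (B ^ 2 / (q * A ^ 2)) ^ r = (B ^ r) ^ 2 / (q ^ r * (A ^ r) ^ 2) := by
  rw [div_pow, mul_pow, ← pow_mul, ← pow_mul, ← pow_mul, ← pow_mul, mul_comm 2 r]

theorem varTot {r : ℕ} (hr : 1 ≤ r) (n : ℕ) (hn : r + 2 ≤ n) (d : Fin r → ℕ)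
    (hd : ∀ i, 2 ≤ d i) (q : ℕ) (hq : 1 ≤ q) : ∃ C : ℝ, 0 < C ∧
    ∀ (o : Fin (n + 1)) (k w B H A W : ℕ), 1 ≤ k → 1 ≤ B → 1 ≤ H → 1 ≤ W →
    (∀ m, 1 ≤ m → m ≤ w → m ∣ W) → 8 * CC n d * H ^ 2 * k ≤ A → 4 * q ^ (∑ i, d i) ≤ A →
    Qv d B H q o W (k ^ 2) A ≤
      C * (A : ℝ) ^ VV n d * ((B : ℝ) ^ (n + 1) / ((A : ℝ) ^ r * (B : ℝ) ^ (∑ i, d i))
        + ((B : ℝ) ^ (n + 1) / ((A : ℝ) ^ r * (B : ℝ) ^ (∑ i, d i))) ^ 2 *
            (1 / k + 1 / (w + 1) + (H : ℝ) ^ (n + 1 + r) * (B : ℝ) ^ r / (B : ℝ) ^ n)) := by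
  obtain ⟨C1, hC1, hc1⟩ := psAll n r q hn hq
  obtain ⟨C2, hC2, hc2⟩ := psBad n r q hn hq
  have hqpos : (0 : ℝ) < q := by exact_mod_cast hq
  have hrpos : (0 : ℝ) < r := by exact_mod_cast hr
  have p5 : (0 : ℝ) < 5 ^ VV n d := pow_pos (by norm_num) _
  have p4 : (0 : ℝ) < 4 ^ VV n d := pow_pos (by norm_num) _
  have p6 : (0 : ℝ) < 6 ^ VV n d := pow_pos (by norm_num) _
  have p3 : (0 : ℝ) < 3 ^ (n + 1) := pow_pos (by norm_num) _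
  have p2 : (0 : ℝ) < 2 ^ r := pow_pos (by norm_num) _
  have p64 : (0 : ℝ) < 64 ^ r := pow_pos (by norm_num) _
  have pqD : (0 : ℝ) < (q : ℝ) ^ (∑ i, d i) := pow_pos hqpos _
  have pqr : (0 : ℝ) < (q : ℝ) ^ r := pow_pos hqpos _
  refine ⟨3 ^ (n + 1) * 2 * 4 ^ VV n d * 5 ^ VV n d * (2 ^ r * (q : ℝ) ^ (∑ i, d i))
    + 3 ^ (n + 1) * 5 * r * 6 ^ VV n d * 5 ^ VV n d *
      (64 ^ r * ((q : ℝ) ^ (∑ i, d i)) ^ 2 / (q : ℝ) ^ r) * C1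
    + 3 ^ (n + 1) * 2 * 4 ^ VV n d * 5 ^ VV n d *
      (64 ^ r * ((q : ℝ) ^ (∑ i, d i)) ^ 2 / (q : ℝ) ^ r) * C2, ?_, ?_⟩
  · generalize (5 : ℝ) ^ VV n d = P5 at *
    generalize (4 : ℝ) ^ VV n d = P4 at *
    generalize (6 : ℝ) ^ VV n d = P6 at *
    generalize (3 : ℝ) ^ (n + 1) = P3 at *
    generalize (2 : ℝ) ^ r = P2 at *
    generalize (64 : ℝ) ^ r = P64 at *
    generalize (q : ℝ) ^ (∑ i, d i) = qD at *
    generalize (q : ℝ) ^ r = qr at *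
    positivity
  · intro o k w B H A W hk hB hH hW hW' hA hA'
    have hA1 : 1 ≤ A := by
      have : 1 ≤ q ^ (∑ i, d i) := Nat.one_le_pow _ _ hq
      omega
    have hApos : (0 : ℝ) < A := by exact_mod_cast hA1
    have hBpos : (0 : ℝ) < B := by exact_mod_cast hB
    rw [expand d B H q o W (k ^ 2) A (Nat.one_le_pow _ _ hk)]
    have h1 : ∀ x ∈ GG B H q o, _ := fun x hx =>
      varTot_row hr hn d hd q hq C1 C2 o k w B H A W hk hB hH hA hA' x hx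
        (hc1 B H o hB hH x hx) (hc2 B H k w W o hB hH hk hW' x hx)
    refine (Finset.sum_le_sum h1).trans ?_
    rw [Finset.sum_const, nsmul_eq_mul]
    refine (mul_le_mul_of_nonneg_right (Pool.Agent.Lib.MP_219881_nt.card_GG_le hB) ?_).trans ?_
    · have q5 : (0 : ℝ) ≤ (5 * (A : ℝ)) ^ VV n d := by positivity
      have q7 : (0 : ℝ) ≤ ((B : ℝ) ^ 2 / ((q : ℝ) * (A : ℝ) ^ 2)) ^ r := by positivity
      generalize (5 * (A : ℝ)) ^ VV n d = N0 at *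
      generalize (4 : ℝ) ^ VV n d = P4 at *
      generalize (6 : ℝ) ^ VV n d = P6 at *
      generalize (2 : ℝ) ^ r = P2 at *
      generalize (64 : ℝ) ^ r = P64 at *
      positivity
    · rw [mul_pow (5 : ℝ) (A : ℝ), varTot_pw, pow_succ (B : ℝ) n, mul_comm 2 r, pow_mul]
      exact varTot_alg k w B ((B : ℝ) ^ n) ((B : ℝ) ^ r) ((B : ℝ) ^ (∑ i, d i)) ((A : ℝ) ^ r)
        ((q : ℝ) ^ r) ((q : ℝ) ^ (∑ i, d i)) ((H : ℝ) ^ (n + 1 + r)) C1 C2 r (2 ^ r) (64 ^ r)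
        (5 ^ VV n d) (4 ^ VV n d) (6 ^ VV n d) ((A : ℝ) ^ VV n d) (3 ^ (n + 1))
        (by exact_mod_cast hk) (Nat.cast_nonneg _) hBpos (pow_pos hBpos _) (pow_pos hBpos _)
        (pow_pos hBpos _) (pow_pos hApos _) pqr pqD (by positivity) hC1 hC2 hrpos p2 p64 p5 p4 p6
        (pow_pos hApos _) p3

end Pool.Agent.Lib.MP_1ad228_ntF
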