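import Pool.Agent.Lib.MP_1ad228_ntF.MN_Par
import Pool.Agent.Lib.MP_1ad228_ntF.MN_Cheb
import Pool.Agent.Lib.MP_1ad228_ntF.VarTot
import Pool.Agent.Lib.MP_1ad228_ntF.LocDens
import Pool.Agent.Lib.MP_1ad228_ntF.CN_Low
import Pool.Agent.Lib.MP_1ad228_ntF.RP_Fin
import Pool.Agent.Lib.MP_1ad228_ntF.MainDef

/-!
JOB MN_Bad.  Almost all everywhere locally soluble tuples have a small common zero, main case. (Model: Lib/MP_219881_nt/MN_Bad.lean.)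

PROOF.  `D = ∑ d`, `ι = n + 1 - D ≥ 1`, `l = 4(n+r)+4`, `V = VV n d`, `U A = (2A+1)^V`, `D0 = (n l+1) ι`.
1. `realRob n d (ε/4)`: `ρ, A1`. `q` a natural number with `1 ≤ ρ q` and `q ≥ 1`. `locDens (ε/4)`: `τ, w1`. `low` (with `l`, `ρ`, `q`): `c`. `varTot` with `q`: `C`.
   Let `θ = ε (cτ)^2 / (N * C)` with a large `N` (see step 3, `N = 2^(r+6) (n+1)`): we need the four quantities `1/E, 1/k, 1/(w+1), 1/g` all `≤ θ`.
2. Choose `k ≥ 1` with `1/k ≤ θ`, `K = k^2`; `w ≥ max w0(K) w1`, `1/(w+1) ≤ θ`, `w ≥ 1`; `W = WW w`; `η = cτ/2`; `g0` from `low` (this `w`, `η`), also `g0 ≥ 1/θ`, `g0 ≥ 1`; `A2` from `locDens` for this `w`.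
   `M ≥ 2^D0 / θ` (natural, `≥ 1`). `gpar n r l ι .. M g0 (8 CC k)` gives `A3` (`lpar`). `A0 = max` of `A1, A2, A3, 4 q^D, 1`.
3. Let `A ≥ A0`, `g` from `gpar`, `B = g^(n l+1)`, `H = g^(l+2)`, `E = B^(n+1)/(A^r B^D) = B^ι/A^r` (`EEq`): `E ≥ M/2^D0 ≥ 1/θ > 0`.
   For `o : Fin (n+1)` let `T_o` be the set of `F ∈ TBox n d A` with `Nn B H q o F = 0`, `∃ S, Injective S ∧ Rob o S ρ (F/A)`, and `τ W^(n+1) ≤ sm .. W^r`. By `low`
   `Ll ≥ E (c τ - cτ/2) = E cτ/2 =: lam`. `cheb`: `T_o.card * lam^2 ≤ 2^r Qv ≤ 2^r C A^V (E + E^2 (1/k + 1/(w+1) + H^(n+1+r)B^r/B^n))` (`varTot`; hypotheses: `WWdvd`, `WWpos`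
   (`Pool.Agent.Lib.MP_219881_nt.WWdvd`), `8 CC H^2 k ≤ A`, `4 q^D ≤ A`), and `Hpow` bounds the last term by `1/g ≤ θ`. So
   `T_o.card ≤ 2^r C * 4/(cτ)^2 * (1/E + 3θ) A^V ≤ 2^r 16 C θ/(cτ)^2 * U A ≤ ε/(4 (n+1)) * U A` for the right `θ` (`A^V ≤ U A`).
4. A tuple `F` of the filter (real and `p`-adic solubility, no small zero) is in the exceptional set of `realRob`, or in that of `locDens`, or in `T_o` for some `o`: otherwise there are `o, S` with `Rob`, and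
   `sm W^r ≥ τ W^(n+1)`, so `Nn B H q o F ≠ 0` (if it were `0` the tuple would be in `T_o`): there is `x ∈ GG B H q o` with all `ev (F i) x = 0`; `x ≠ 0` (`q x_o ≥ B ≥ 1`), `|x l| ≤ B`, so
   `|x l|^ι ≤ B^ι ≤ M A^r` (`gpar`), contradiction. So the cardinality is at most `ε/4 U + ε/4 U + (n+1) ε/(4(n+1)) U ≤ ε U A` (`Finset.card_biUnion_le`, `Finset.card_union_le`).
-/

namespace Pool.Agent.Lib.MP_1ad228_ntF

open Classical

private theorem MN_Bad_ar (T Q C A2 E S c τ ε d N1 P : ℝ) (hC : 0 < C) (hA : 0 ≤ A2) (hE : 0 < E) (hc : 0 < c)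
    (hτ : 0 < τ) (hN : 0 < N1) (hP : 0 < P) (h1 : T * (E * (c * τ / 2)) ^ 2 ≤ P * Q)
    (h2 : Q ≤ C * A2 * (E + E ^ 2 * S))
    (hS : S ≤ 3 * d) (hd : 1 ≤ d * E) (hd2 : d ≤ ε * (c * τ) ^ 2 / (64 * P * N1 * C)) : T ≤ ε / (4 * N1) * A2 := by
  have h3 : E ≤ E ^ 2 * d := by
    calc E = E * 1 := by ring
      _ ≤ E * (d * E) := mul_le_mul_of_nonneg_left hd hE.le
      _ = E ^ 2 * d := by ring
  have h4 : E + E ^ 2 * S ≤ E ^ 2 * (4 * d) := by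
    have : E ^ 2 * S ≤ E ^ 2 * (3 * d) := mul_le_mul_of_nonneg_left hS (by positivity)
    calc E + E ^ 2 * S ≤ E ^ 2 * d + E ^ 2 * (3 * d) := add_le_add h3 this
      _ = E ^ 2 * (4 * d) := by ring
  have h5 : C * d ≤ ε * (c * τ) ^ 2 / (64 * P * N1) := by
    calc C * d ≤ C * (ε * (c * τ) ^ 2 / (64 * P * N1 * C)) := mul_le_mul_of_nonneg_left hd2 hC.le
      _ = ε * (c * τ) ^ 2 / (64 * P * N1) := by
        field_simp
  have h6 : T * (E * (c * τ / 2)) ^ 2 ≤ (ε / (4 * N1) * A2) * (E * (c * τ / 2)) ^ 2 := by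
    calc T * (E * (c * τ / 2)) ^ 2 ≤ P * Q := h1
      _ ≤ P * (C * A2 * (E + E ^ 2 * S)) := mul_le_mul_of_nonneg_left h2 hP.le
      _ ≤ P * (C * A2 * (E ^ 2 * (4 * d))) :=
        mul_le_mul_of_nonneg_left (mul_le_mul_of_nonneg_left h4 (show 0 ≤ C * A2 by positivity)) hP.le
      _ = (A2 * E ^ 2 * (4 * P)) * (C * d) := by ring
      _ ≤ (A2 * E ^ 2 * (4 * P)) * (ε * (c * τ) ^ 2 / (64 * P * N1)) :=
        mul_le_mul_of_nonneg_left h5 (by positivity)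
      _ = (ε / (4 * N1) * A2) * (E * (c * τ / 2)) ^ 2 := by
        field_simp
        ring
  exact le_of_mul_le_mul_right h6 (by positivity)

private theorem MN_Bad_inv (d : ℝ) (hd : 0 < d) (n : ℕ) (hn : ⌈1 / d⌉₊ + 1 ≤ n) : 1 / (n : ℝ) ≤ d := by
  have h1 : 1 / d ≤ (n : ℝ) := by
    have h2 := Nat.le_ceil (1 / d)
    have h3 : ((⌈1 / d⌉₊ : ℕ) : ℝ) ≤ (n : ℝ) := by
      have : ⌈1 / d⌉₊ ≤ n := by omega
      exact_mod_cast this
    linarith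
  have h2 : (0 : ℝ) < n := by
    have : 0 < n := by omega
    exact_mod_cast this
  rw [div_le_iff₀ hd] at h1
  rw [div_le_iff₀ h2]
  linarith

private noncomputable def MN_Bad_T (n : ℕ) {r : ℕ} (d : Fin r → ℕ) (B H q w A : ℕ) (ρ τ : ℝ) (o : Fin (n + 1)) :
    Finset (Tup n d ℤ) :=
  (TBox n d A).filter fun F => Nn B H q o F = 0 ∧
    (∃ S : Fin r → Fin (n + 1), Function.Injective S ∧
      Rob o S ρ (fun i s => (F i s : ℝ) / A : Tup n d ℝ)) ∧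
    τ * (WW w : ℝ) ^ (n + 1) ≤ (sm (WW w) (ctT (ZMod (WW w)) F) : ℝ) * (WW w : ℝ) ^ r

theorem mainA {r : ℕ} (hr : 1 ≤ r) (n : ℕ) (hn : r + 2 ≤ n) (d : Fin r → ℕ) (hd : ∀ i, 2 ≤ d i)
    (hD : ∑ i, d i ≤ n) (h2 : 2 * r < n * (n + 1 - ∑ i, d i)) : MainP n d := by
  intro ε hε
  have hd1 : ∀ i, 1 ≤ d i := fun i => le_trans (by norm_num) (hd i)
  obtain ⟨D, hDD⟩ : ∃ D : ℕ, D = ∑ i, d i := ⟨_, rfl⟩
  obtain ⟨ι, hι0⟩ : ∃ ι : ℕ, ι = n + 1 - D := ⟨_, rfl⟩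
  obtain ⟨l, hl⟩ : ∃ l : ℕ, l = 4 * (n + r) + 4 := ⟨_, rfl⟩
  obtain ⟨D0, hD0⟩ : ∃ D0 : ℕ, D0 = (n * l + 1) * ι := ⟨_, rfl⟩
  have hι : 1 ≤ ι := by omega
  have hl1 : 1 ≤ l := by omega
  have h2' : 2 * r < n * ι := by
    rw [hι0, hDD]
    exact h2
  have hlp := lpar n r ι l hι h2' hl
  obtain ⟨ρ, hρ, hρ1, A1, hreal⟩ := realRob n d hd1 (ε / 4) (by positivity)
  obtain ⟨q, hq1, hqρ⟩ : ∃ q : ℕ, 1 ≤ q ∧ 1 ≤ ρ * q := by
    refine ⟨⌈1 / ρ⌉₊ + 1, by omega, ?_⟩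
    have h1 := Nat.le_ceil (1 / ρ)
    rw [div_le_iff₀ hρ] at h1
    push_cast
    nlinarith
  obtain ⟨τ, hτ, w1, hloc⟩ := locDens n hr hn d hd1 (ε / 4) (by positivity)
  obtain ⟨c, hc, hlow⟩ := low hr n hn d hd1 l hl1 ρ hρ hρ1 q hqρ
  obtain ⟨C, hC, hvar⟩ := varTot hr n hn d hd q hq1
  have hN1 : (0 : ℝ) < ((n + 1 : ℕ) : ℝ) := by positivity
  have hP : (0 : ℝ) < 2 ^ r := by positivity
  obtain ⟨δ, hδpos, hδ2⟩ : ∃ δ : ℝ, 0 < δ ∧ δ ≤ ε * (c * τ) ^ 2 / (64 * 2 ^ r * ((n + 1 : ℕ) : ℝ) * C) :=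
    ⟨_, by positivity, le_rfl⟩
  obtain ⟨k, hk⟩ : ∃ k : ℕ, k = ⌈1 / δ⌉₊ + 1 := ⟨_, rfl⟩
  have hinv : ∀ m : ℕ, k ≤ m → 1 / (m : ℝ) ≤ δ := fun m hm => MN_Bad_inv δ hδpos m (hk ▸ hm)
  have hk1 : 1 ≤ k := by omega
  obtain ⟨w0, hw0⟩ := hlow (k ^ 2) (Nat.one_le_pow _ _ hk1)
  obtain ⟨g0, hg0⟩ := hw0 (w0 + w1 + k) (by omega) (c * τ / 2) (by positivity)
  obtain ⟨A2, hA2⟩ := hloc (w0 + w1 + k) (by omega)
  have hMpos : 1 ≤ 2 ^ D0 * k := by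
    have : 0 < 2 ^ D0 * k := by positivity
    exact this
  obtain ⟨A3, hA3⟩ := gpar n r l ι hr hι hlp (2 ^ D0 * k) hMpos (g0 + k) (8 * CC n d * k)
  refine ⟨2 ^ D0 * k, A1 + A2 + A3 + 4 * q ^ D + 1, fun A hA => ?_⟩
  obtain ⟨g, hg1, hg2, hA0, hgM, hMg, hcA⟩ := hA3 A (by omega)
  have hreal' := hreal A (by omega)
  have hloc' := hA2 A (by omega)
  have hA0r : (0 : ℝ) < A := by exact_mod_cast hA0
  rw [← hD0] at hMg
  obtain ⟨B, hB⟩ : ∃ B : ℕ, B = g ^ (n * l + 1) := ⟨_, rfl⟩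
  obtain ⟨H, hH⟩ : ∃ H : ℕ, H = g ^ (l + 2) := ⟨_, rfl⟩
  rw [← hB] at hgM hMg
  rw [← hH] at hcA
  have hB1 : 1 ≤ B := by rw [hB]; exact Nat.one_le_pow _ _ hg1
  have hH1 : 1 ≤ H := by rw [hH]; exact Nat.one_le_pow _ _ hg1
  have hWpos := Pool.Agent.Lib.MP_219881_nt.WWpos (w0 + w1 + k)
  have hWr : (0 : ℝ) < (WW (w0 + w1 + k) : ℝ) := by exact_mod_cast hWpos
  have hB0r : (0 : ℝ) < B := by exact_mod_cast hB1
  -- E
  obtain ⟨E, hE⟩ : ∃ E : ℝ, E = (B : ℝ) ^ (n + 1) / ((A : ℝ) ^ r * (B : ℝ) ^ (∑ i, d i)) := ⟨_, rfl⟩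
  have hEeq : E = (B : ℝ) ^ ι / (A : ℝ) ^ r := by
    rw [hE, hι0, hDD]
    exact EEq n r (∑ i, d i) A B (by omega) hA0 hB1
  have hEr : (k : ℝ) ≤ E := by
    rw [hEeq, le_div_iff₀ (by positivity)]
    have h1 : 2 ^ D0 * (k * A ^ r) ≤ 2 ^ D0 * B ^ ι := by
      calc 2 ^ D0 * (k * A ^ r) = 2 ^ D0 * k * A ^ r := by ring
        _ ≤ _ := hMg
    have h2 : k * A ^ r ≤ B ^ ι := Nat.le_of_mul_le_mul_left h1 (by positivity)
    exact_mod_cast h2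
  have hEpos : 0 < E := by
    rw [hE]
    positivity
  -- each T_o
  have hTo : ∀ o : Fin (n + 1), ((MN_Bad_T n d B H q (w0 + w1 + k) A ρ τ o).card : ℝ) ≤
      ε / (4 * ((n + 1 : ℕ) : ℝ)) * (A : ℝ) ^ VV n d := by
    intro o
    have hQ := hvar o k (w0 + w1 + k) B H A (WW (w0 + w1 + k)) hk1 hB1 hH1 hWpos
      (fun m h1 h2 => Pool.Agent.Lib.MP_219881_nt.WWdvd _ m h1 h2)
      (by
        calc 8 * CC n d * H ^ 2 * k = 8 * CC n d * k * H ^ 2 := by ring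
          _ ≤ A := hcA) (by rw [← hDD]; omega)
    rw [← hE] at hQ
    have hch := cheb d B H q (WW (w0 + w1 + k)) (k ^ 2) A hA0 o
      (E * (c * τ / 2)) (by positivity) (MN_Bad_T n d B H q (w0 + w1 + k) A ρ τ o) (by
        intro F hF
        unfold MN_Bad_T at hF
        rw [Finset.mem_filter] at hF
        obtain ⟨hFB, hN, ⟨S, hS, hRob⟩, hsm⟩ := hF
        refine ⟨hFB, hN, ?_⟩
        have h3 := hg0 g (by omega) B H hB hH A hA0 F hFB o S hS hRob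
        rw [← hE] at h3
        refine le_trans ?_ h3
        apply mul_le_mul_of_nonneg_left _ hEpos.le
        have h4 : τ ≤ (sm (WW (w0 + w1 + k)) (ctT (ZMod (WW (w0 + w1 + k))) F) : ℝ) *
            (WW (w0 + w1 + k) : ℝ) ^ r / (WW (w0 + w1 + k) : ℝ) ^ (n + 1) := by
          rw [le_div_iff₀ (by positivity)]
          exact hsm
        have h5 := mul_le_mul_of_nonneg_left h4 hc.le
        linarith)
    refine MN_Bad_ar _ _ C ((A : ℝ) ^ VV n d) E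
      (1 / (k : ℝ) + 1 / (((w0 + w1 + k : ℕ) : ℝ) + 1) + (H : ℝ) ^ (n + 1 + r) * (B : ℝ) ^ r / (B : ℝ) ^ n)
      c τ ε δ ((n + 1 : ℕ) : ℝ) (2 ^ r) hC (by positivity) hEpos hc hτ hN1 hP hch hQ ?_ ?_ hδ2
    · have e1 := hinv k le_rfl
      have e2 : 1 / (((w0 + w1 + k : ℕ) : ℝ) + 1) ≤ δ := by
        have := hinv (w0 + w1 + k + 1) (by omega)
        rw [Nat.cast_succ] at this
        exact this
      have e3 := (Hpow n r l g B H hn hl hg1 hB hH).trans (hinv g (by omega))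
      linarith
    · have e1 := hinv k le_rfl
      have hk0 : (0 : ℝ) < k := by exact_mod_cast hk1
      calc (1 : ℝ) = 1 / (k : ℝ) * k := by field_simp
        _ ≤ δ * k := mul_le_mul_of_nonneg_right e1 hk0.le
        _ ≤ δ * E := mul_le_mul_of_nonneg_left hEr hδpos.le
  -- covering
  have hsub : ((TBox n d A).filter fun F => RSol F ∧ PSol F ∧
        ¬ ∃ x : Vc n ℤ, x ≠ 0 ∧ (∀ i, |x i| ^ (n + 1 - ∑ i, d i) ≤ ((2 ^ D0 * k : ℕ) : ℤ) * (A : ℤ) ^ r) ∧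
          ∀ i, ev (F i) x = 0) ⊆
      ((TBox n d A).filter fun F => RSol F ∧
        ¬ ∃ (o : Fin (n + 1)) (S : Fin r → Fin (n + 1)), Function.Injective S ∧
          Rob o S ρ (fun i s => (F i s : ℝ) / A : Tup n d ℝ)) ∪
      (((TBox n d A).filter fun F => PSol F ∧
        (sm (WW (w0 + w1 + k)) (ctT (ZMod (WW (w0 + w1 + k))) F) : ℝ) * (WW (w0 + w1 + k) : ℝ) ^ r
          < τ * (WW (w0 + w1 + k) : ℝ) ^ (n + 1)) ∪
      (Finset.univ : Finset (Fin (n + 1))).biUnion (fun o => MN_Bad_T n d B H q (w0 + w1 + k) A ρ τ o)) := by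
    intro F hF
    rw [Finset.mem_filter] at hF
    obtain ⟨hbox, hR, hPS, hno⟩ := hF
    rw [Finset.mem_union, Finset.mem_union]
    by_cases h1 : ∃ (o : Fin (n + 1)) (S : Fin r → Fin (n + 1)), Function.Injective S ∧
          Rob o S ρ (fun i s => (F i s : ℝ) / A : Tup n d ℝ)
    · right
      by_cases h3 : (sm (WW (w0 + w1 + k)) (ctT (ZMod (WW (w0 + w1 + k))) F) : ℝ) *
          (WW (w0 + w1 + k) : ℝ) ^ r < τ * (WW (w0 + w1 + k) : ℝ) ^ (n + 1)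
      · left
        rw [Finset.mem_filter]
        exact ⟨hbox, hPS, h3⟩
      · right
        obtain ⟨o, S, hS, hRob⟩ := h1
        rw [Finset.mem_biUnion]
        refine ⟨o, Finset.mem_univ _, ?_⟩
        unfold MN_Bad_T
        rw [Finset.mem_filter]
        refine ⟨hbox, ?_, ⟨S, hS, hRob⟩, not_lt.1 h3⟩
        unfold Nn
        rw [Finset.card_eq_zero, Finset.filter_eq_empty_iff]
        intro x hx he
        apply hno
        refine ⟨x, ?_, ?_, he⟩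
        · intro h0
          have := Pool.Agent.Lib.MP_219881_nt.GG_pos hB1 hx
          rw [h0] at this
          simp at this
        · intro i
          have h4 := Pool.Agent.Lib.MP_219881_nt.GG_le hx i
          rw [← hDD, ← hι0]
          calc |x i| ^ ι ≤ (B : ℤ) ^ ι := pow_le_pow_left₀ (abs_nonneg _) h4 _
            _ ≤ ((2 ^ D0 * k : ℕ) : ℤ) * (A : ℤ) ^ r := by exact_mod_cast hgM
    · left
      rw [Finset.mem_filter]
      exact ⟨hbox, hR, h1⟩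
  have hcard := (Finset.card_le_card hsub).trans ((Finset.card_union_le _ _).trans
    (Nat.add_le_add_left ((Finset.card_union_le _ _).trans (Nat.add_le_add_left Finset.card_biUnion_le _)) _))
  have hcard' : ((((TBox n d A).filter fun F => RSol F ∧ PSol F ∧
        ¬ ∃ x : Vc n ℤ, x ≠ 0 ∧ (∀ i, |x i| ^ (n + 1 - ∑ i, d i) ≤ ((2 ^ D0 * k : ℕ) : ℤ) * (A : ℤ) ^ r) ∧
          ∀ i, ev (F i) x = 0).card : ℕ) : ℝ) ≤
      ((((TBox n d A).filter fun F => RSol F ∧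
        ¬ ∃ (o : Fin (n + 1)) (S : Fin r → Fin (n + 1)), Function.Injective S ∧
          Rob o S ρ (fun i s => (F i s : ℝ) / A : Tup n d ℝ)).card : ℕ) : ℝ) +
      (((((TBox n d A).filter fun F => PSol F ∧
        (sm (WW (w0 + w1 + k)) (ctT (ZMod (WW (w0 + w1 + k))) F) : ℝ) * (WW (w0 + w1 + k) : ℝ) ^ r
          < τ * (WW (w0 + w1 + k) : ℝ) ^ (n + 1)).card : ℕ) : ℝ) +
      ∑ o : Fin (n + 1), ((MN_Bad_T n d B H q (w0 + w1 + k) A ρ τ o).card : ℝ)) := by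
    exact_mod_cast hcard
  have hsum : ∑ o : Fin (n + 1), ((MN_Bad_T n d B H q (w0 + w1 + k) A ρ τ o).card : ℝ) ≤
      ε / 4 * (A : ℝ) ^ VV n d := by
    calc ∑ o : Fin (n + 1), ((MN_Bad_T n d B H q (w0 + w1 + k) A ρ τ o).card : ℝ) ≤
        ∑ _o : Fin (n + 1), ε / (4 * ((n + 1 : ℕ) : ℝ)) * (A : ℝ) ^ VV n d :=
          Finset.sum_le_sum fun o _ => hTo o
      _ = ε / 4 * (A : ℝ) ^ VV n d := by
        rw [Finset.sum_const, Finset.card_univ, Fintype.card_fin, nsmul_eq_mul]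
        field_simp
  have hAV : (A : ℝ) ^ VV n d ≤ (2 * (A : ℝ) + 1) ^ VV n d :=
    pow_le_pow_left₀ (by positivity) (by linarith) _
  have hpos : 0 ≤ ε / 4 * (2 * (A : ℝ) + 1) ^ VV n d := by positivity
  have hsum' : ∑ o : Fin (n + 1), ((MN_Bad_T n d B H q (w0 + w1 + k) A ρ τ o).card : ℝ) ≤
      ε / 4 * (2 * (A : ℝ) + 1) ^ VV n d :=
    hsum.trans (mul_le_mul_of_nonneg_left hAV (by positivity))
  refine (hcard'.trans (add_le_add hreal' (add_le_add hloc' hsum'))).trans ?_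
  linarith

end Pool.Agent.Lib.MP_1ad228_ntF
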