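import Pool.Agent.Lib.MP_1ad228_ntF.Basic
import Pool.Agent.Lib.MP_219881_nt.MN_Par

/-!
JOB MN_Par.  Choice of the parameter `g`. (Model: Lib/MP_219881_nt/MN_Par.lean.) Here `l = 4(n+r)+4` is written `l` with a hypothesis.

`gpar`: `D0 = (n l + 1) ι ≥ 1`. Let `g1 = max g0 (c^r M)` (natural). For given `A` let `g` be the largest natural number with `g^D0 ≤ M A^r` (`Nat.findGreatest`). For `A ≥ A0 := g1^D0 + 1`: `M A^r ≥ A ≥ g1^D0`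
(`M ≥ 1`, `r ≥ 1`), so `g ≥ g1`, `g ≥ 1`. `(g+1)^D0 > M A^r` and `g + 1 ≤ 2 g`, so `2^D0 g^D0 ≥ M A^r`.
`(c (g^(l+2))^2)^r = c^r g^((2l+4) r)` and `g^((2l+4) r) * g ≤ g^D0 ≤ M A^r` (`hl2 : (2l+4) r + 1 ≤ (n l + 1) ι`), so `c^r g^((2l+4) r) * g ≤ c^r M A^r ≤ g A^r`, hence `(c (g^(l+2))^2)^r ≤ A^r`, and
`c (g^(l+2))^2 ≤ A` (`r ≥ 1`).

`lpar`: if `2 r < n ι`, `1 ≤ ι`, then `l = 4(n+r)+4` satisfies `(2l+4) r + 1 ≤ (n l+1) ι`: `(n l + 1) ι = l (n ι) + ι ≥ l (2r+1) + 1 = 2 r l + l + 1 ≥ 2 r l + 4 r + 1`.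

`EEq`: `B^(n+1)/(A^r B^D) = B^(n+1-D)/A^r` for `B ≥ 1`, `A ≥ 1`, `D ≤ n + 1`.

`Hpow`: `B = g^(n l+1)`, `H = g^(l+2)`, `l = 4(n+r)+4`, `r + 2 ≤ n`: `H^(n+1+r) B^r/B^n ≤ 1/g`: exponents `(l+2)(n+1+r) + (n l+1) r + 1 ≤ (n l+1) n`: write `n = r + 2 + m`; then `n (n-r) ≥ n + r + 2`,
so `(n l + 1)(n - r) ≥ l (n + r + 2) + 2 = l (n+1+r) + l + 2 ≥ (l+2)(n+1+r) + 1` as `l ≥ 2(n+1+r)`.
-/

namespace Pool.Agent.Lib.MP_1ad228_ntF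

open Classical

theorem gpar (n r l ι : ℕ) (hr : 1 ≤ r) (hι : 1 ≤ ι) (hl2 : (2 * l + 4) * r + 1 ≤ (n * l + 1) * ι)
    (M : ℕ) (hM : 1 ≤ M) (g0 c : ℕ) : ∃ A0 : ℕ, ∀ A ≥ A0, ∃ g : ℕ,
    1 ≤ g ∧ g0 ≤ g ∧ 1 ≤ A ∧ (g ^ (n * l + 1)) ^ ι ≤ M * A ^ r ∧
      M * A ^ r ≤ 2 ^ ((n * l + 1) * ι) * (g ^ (n * l + 1)) ^ ι ∧
      c * (g ^ (l + 2)) ^ 2 ≤ A := by
  obtain ⟨D, hD⟩ : ∃ D, D = (n * l + 1) * ι := ⟨_, rfl⟩
  obtain ⟨g1, hg1d⟩ : ∃ g1, g1 = max g0 (c ^ r * M) := ⟨_, rfl⟩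
  rw [← hD] at hl2
  have hD1 : 1 ≤ D := by omega
  have hD0 : D ≠ 0 := by omega
  refine ⟨g1 ^ D + 1, fun A hA => ?_⟩
  have hA1 : 1 ≤ A := by
    have h := Nat.zero_le (g1 ^ D)
    omega
  have hAg : g1 ^ D ≤ A := by omega
  have hAA : A ≤ M * A ^ r := by
    calc A = 1 * A ^ 1 := by rw [pow_one, one_mul]
      _ ≤ M * A ^ r := Nat.mul_le_mul hM (Nat.pow_le_pow_right hA1 hr)
  have hMA : 1 ≤ M * A ^ r := hA1.trans hAA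
  have hP1 : (1 : ℕ) ^ D ≤ M * A ^ r := by rw [one_pow]; exact hMA
  obtain ⟨g, hg⟩ : ∃ g, g = Nat.findGreatest (fun g => g ^ D ≤ M * A ^ r) (M * A ^ r) := ⟨_, rfl⟩
  have hgs : g ^ D ≤ M * A ^ r := by
    rw [hg]
    exact Nat.findGreatest_spec (P := fun g => g ^ D ≤ M * A ^ r) hMA hP1
  have hg1 : 1 ≤ g := by
    rw [hg]
    exact Nat.le_findGreatest (P := fun g => g ^ D ≤ M * A ^ r) hMA hP1
  have hgg : g1 ≤ g := by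
    have h2 : g1 ^ D ≤ M * A ^ r := hAg.trans hAA
    rw [hg]
    exact Nat.le_findGreatest (P := fun g => g ^ D ≤ M * A ^ r)
      ((Nat.le_self_pow hD0 g1).trans h2) h2
  have hg2 : M * A ^ r < (g + 1) ^ D := by
    by_contra hcon
    have h2 : (g + 1) ^ D ≤ M * A ^ r := not_lt.mp hcon
    have h3 : g + 1 ≤ Nat.findGreatest (fun g => g ^ D ≤ M * A ^ r) (M * A ^ r) :=
      Nat.le_findGreatest (P := fun g => g ^ D ≤ M * A ^ r)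
        ((Nat.le_self_pow hD0 (g + 1)).trans h2) h2
    rw [← hg] at h3
    omega
  have hpow : ∀ a : ℕ, (a ^ (n * l + 1)) ^ ι = a ^ D := fun a => by rw [← pow_mul, hD]
  have hgc : c ^ r * M ≤ g := by
    refine le_trans ?_ hgg
    rw [hg1d]
    exact le_max_right _ _
  refine ⟨g, hg1, ?_, hA1, ?_, ?_, ?_⟩
  · refine le_trans ?_ hgg
    rw [hg1d]
    exact le_max_left _ _
  · rw [hpow]
    exact hgs
  · rw [hpow, ← hD, ← mul_pow]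
    exact hg2.le.trans (Nat.pow_le_pow_left (by omega) D)
  · have h3 : (c * (g ^ (l + 2)) ^ 2) ^ r * g ≤ A ^ r * g := by
      calc (c * (g ^ (l + 2)) ^ 2) ^ r * g = c ^ r * g ^ ((2 * l + 4) * r + 1) := by
            rw [mul_pow, ← pow_mul, ← pow_mul, mul_assoc, ← pow_succ]
            congr 2
            ring
        _ ≤ c ^ r * g ^ D := Nat.mul_le_mul le_rfl (Nat.pow_le_pow_right hg1 hl2)
        _ ≤ c ^ r * (M * A ^ r) := Nat.mul_le_mul le_rfl hgs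
        _ = (c ^ r * M) * A ^ r := by ring
        _ ≤ g * A ^ r := Nat.mul_le_mul hgc le_rfl
        _ = A ^ r * g := mul_comm _ _
    have h4 : (c * (g ^ (l + 2)) ^ 2) ^ r ≤ A ^ r := Nat.le_of_mul_le_mul_right h3 hg1
    exact (Nat.pow_le_pow_iff_left (by omega)).mp h4

theorem lpar (n r ι l : ℕ) (hι : 1 ≤ ι) (h : 2 * r < n * ι) (hl : l = 4 * (n + r) + 4) :
    (2 * l + 4) * r + 1 ≤ (n * l + 1) * ι := by
  have h1 : l * (2 * r + 1) ≤ l * (n * ι) := Nat.mul_le_mul le_rfl h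
  have h2 : (n * l + 1) * ι = l * (n * ι) + ι := by ring
  have h3 : l * (2 * r + 1) = 2 * l * r + l := by ring
  have h4 : (2 * l + 4) * r = 2 * l * r + 4 * r := by ring
  rw [h2, h4]
  rw [h3] at h1
  omega

theorem EEq (n r D A B : ℕ) (hD : D ≤ n + 1) (hA : 1 ≤ A) (hB : 1 ≤ B) :
    (B : ℝ) ^ (n + 1) / ((A : ℝ) ^ r * (B : ℝ) ^ D) = (B : ℝ) ^ (n + 1 - D) / (A : ℝ) ^ r := by
  have hA' : (0 : ℝ) < A := by exact_mod_cast hA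
  have hB' : (0 : ℝ) < B := by exact_mod_cast hB
  obtain ⟨k, hk⟩ : ∃ k, n + 1 = D + k := ⟨n + 1 - D, by omega⟩
  rw [hk, Nat.add_sub_cancel_left, div_eq_div_iff (by positivity) (by positivity), pow_add]
  ring

theorem Hpow (n r l g B H : ℕ) (hn : r + 2 ≤ n) (hl : l = 4 * (n + r) + 4) (hg : 1 ≤ g)
    (hB : B = g ^ (n * l + 1)) (hH : H = g ^ (l + 2)) :
    (H : ℝ) ^ (n + 1 + r) * (B : ℝ) ^ r / (B : ℝ) ^ n ≤ 1 / g := by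
  have hg' : (1 : ℝ) ≤ (g : ℝ) := by exact_mod_cast hg
  have hg0 : (0 : ℝ) < (g : ℝ) := by linarith
  subst hB hH
  push_cast
  rw [div_le_div_iff₀ (by positivity) hg0, one_mul]
  have h1 : ((g : ℝ) ^ (l + 2)) ^ (n + 1 + r) * ((g : ℝ) ^ (n * l + 1)) ^ r * g =
      (g : ℝ) ^ ((l + 2) * (n + 1 + r) + (n * l + 1) * r + 1) := by
    rw [← pow_mul, ← pow_mul, ← pow_add, ← pow_succ]
  have h2 : ((g : ℝ) ^ (n * l + 1)) ^ n = (g : ℝ) ^ ((n * l + 1) * n) := by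
    rw [← pow_mul]
  rw [h1, h2]
  refine pow_le_pow_right₀ hg' ?_
  obtain ⟨m, rfl⟩ : ∃ m, n = r + 2 + m := ⟨n - (r + 2), by omega⟩
  have h3 : (r + 2 + m) + r + 2 ≤ (r + 2 + m) * (m + 2) := by nlinarith [Nat.zero_le (r * m), Nat.zero_le (m * m)]
  have h4 : l * ((r + 2 + m) + r + 2) ≤ l * ((r + 2 + m) * (m + 2)) := Nat.mul_le_mul le_rfl h3
  have h5 : ((r + 2 + m) * l + 1) * (r + 2 + m) =
      ((r + 2 + m) * l + 1) * r + (l * ((r + 2 + m) * (m + 2)) + (m + 2)) := by ring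
  have h6 : (l + 2) * (r + 2 + m + 1 + r) + l = l * ((r + 2 + m) + r + 2) + 2 * (r + 2 + m + 1 + r) := by ring
  omega

end Pool.Agent.Lib.MP_1ad228_ntF
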