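import Pool.Agent.Lib.MP_1ad228_ntF.Alpha
import Pool.Agent.Lib.MP_1ad228_ntF.Beta

/-!
JOB PairSum.  Pair sums (assembly of alpha and beta).
(Model: Lib/MP_219881_nt/PairSum.lean, the case `r = 2`, `B^n/B^3 = B^(n+1)/B^4`.)

PROOF.  All terms are nonnegative. `Del o x y ≤ 2 B^2` (`Del_le`), `Dd x y ≥ 1` (`Del_pos`, `Dd_pos`).
`psAll`: the set of `y ≠ x` is the union of `{Del ≤ Dd B}` (`alpha`) and `{Dd B < Del, 0 < Dd, Del ≤ 2 B^2}`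
(`beta` with `w = 0`, `Z = 2 B^2`: `Z^n/Z^r * B/B^n = Z^(n-r) * B/B^n ≤ 2^n B^(2n)/B^(2r) * B/B^n = 2^n B^(n+1)/B^(2r)`;
write `n = r + 2 + m`).
`psBad`: the set of `y ≠ x` with `¬(Dd ∣ W ∧ B^2 ≤ k Del)` is contained in the union of `{Del ≤ Dd B}`
(`alpha`), `{Dd B < Del, ¬ Dd ∣ W}`, where `w < Dd` by hypothesis (`1 ≤ Dd`) (`beta` with `w`,
`Z = 2 B^2`), and `{Dd B < Del, k Del < B^2}`, where `Del ≤ Z := B^2 / k` (natural division) (`beta` with `w = 0`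
and this `Z`: `Z ≤ B^2/k` and `n ≥ r+2`, so `Z^n/Z^r = Z^(n-r) ≤ (B^2/k)^(n-r) ≤ (B^2)^(n-r)/k`; when `Z = 0` the
bound is trivially `0 ≤`).
-/

namespace Pool.Agent.Lib.MP_1ad228_ntF

open Classical

private theorem pairSum_split2 {α : Type*} (G : Finset α) (f : α → ℝ) (p p1 p2 : α → Prop)
    [DecidablePred p] [DecidablePred p1] [DecidablePred p2]
    (hf : ∀ y ∈ G, 0 ≤ f y) (h : ∀ y ∈ G, p y → p1 y ∨ p2 y) :
    ∑ y ∈ G.filter p, f y ≤ ∑ y ∈ G.filter p1, f y + ∑ y ∈ G.filter p2, f y := by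
  rw [Finset.sum_filter, Finset.sum_filter, Finset.sum_filter, ← Finset.sum_add_distrib]
  refine Finset.sum_le_sum fun y hy => ?_
  have h0 := hf y hy
  by_cases hp : p y
  · rw [if_pos hp]
    rcases h y hy hp with h1 | h2
    · rw [if_pos h1]
      by_cases h2 : p2 y
      · rw [if_pos h2]; linarith
      · rw [if_neg h2]; linarith
    · rw [if_pos h2]
      by_cases h1 : p1 y
      · rw [if_pos h1]; linarith
      · rw [if_neg h1]; linarith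
  · rw [if_neg hp]
    by_cases h1 : p1 y
    · rw [if_pos h1]
      by_cases h2 : p2 y
      · rw [if_pos h2]; linarith
      · rw [if_neg h2]; linarith
    · rw [if_neg h1]
      by_cases h2 : p2 y
      · rw [if_pos h2]; linarith
      · rw [if_neg h2]; linarith

private theorem pairSum_nonneg {n : ℕ} (r : ℕ) (o : Fin (n + 1)) (x y : Vc n ℤ) :
    0 ≤ ((Dd x y : ℝ) / (Del o x y : ℝ)) ^ r := pow_nonneg (div_nonneg (Nat.cast_nonneg _) (Nat.cast_nonneg _)) _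

private theorem pairSum_full (n r : ℕ) (hn : r + 2 ≤ n) (B : ℕ) (hB : 1 ≤ B) :
    (((2 * B ^ 2 : ℕ) : ℝ) ^ n / ((2 * B ^ 2 : ℕ) : ℝ) ^ r) * ((B : ℝ) / (B : ℝ) ^ n) ≤
      2 ^ n * ((B : ℝ) ^ (n + 1) / (B : ℝ) ^ (2 * r)) := by
  obtain ⟨m, rfl⟩ := Nat.exists_eq_add_of_le hn
  have hB1 : (1 : ℝ) ≤ (B : ℝ) := by exact_mod_cast hB
  have hB0 : (0 : ℝ) < (B : ℝ) := by linarith
  have e1 : ((2 * B ^ 2 : ℕ) : ℝ) ^ (r + 2 + m) / ((2 * B ^ 2 : ℕ) : ℝ) ^ r =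
      (2 * (B : ℝ) ^ 2) ^ (2 + m) := by
    push_cast
    rw [add_assoc, pow_add (2 * (B : ℝ) ^ 2) r (2 + m), mul_div_cancel_left₀ _ (by positivity)]
  have e : (((2 * B ^ 2 : ℕ) : ℝ) ^ (r + 2 + m) / ((2 * B ^ 2 : ℕ) : ℝ) ^ r) *
      ((B : ℝ) / (B : ℝ) ^ (r + 2 + m)) =
      2 ^ (2 + m) * ((B : ℝ) ^ (r + 2 + m + 1) / (B : ℝ) ^ (2 * r)) := by
    rw [e1, mul_div_assoc', mul_div_assoc', div_eq_div_iff (by positivity) (by positivity), mul_pow]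
    ring
  rw [e]
  refine mul_le_mul_of_nonneg_right ?_ (by positivity)
  exact pow_le_pow_right₀ (by norm_num) (by omega)

private theorem pairSum_small (n r : ℕ) (hn : r + 2 ≤ n) (B k : ℕ) (hB : 1 ≤ B) (hk : 1 ≤ k) :
    (((B ^ 2 / k : ℕ) : ℝ) ^ n / ((B ^ 2 / k : ℕ) : ℝ) ^ r) * ((B : ℝ) / (B : ℝ) ^ n) ≤
      (B : ℝ) ^ (n + 1) / (B : ℝ) ^ (2 * r) * (1 / (k : ℝ)) := by
  obtain ⟨m, rfl⟩ := Nat.exists_eq_add_of_le hn
  have hB1 : (1 : ℝ) ≤ (B : ℝ) := by exact_mod_cast hB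
  have hB0 : (0 : ℝ) < (B : ℝ) := by linarith
  have hk1 : (1 : ℝ) ≤ (k : ℝ) := by exact_mod_cast hk
  have hk0 : (0 : ℝ) < (k : ℝ) := by linarith
  have hZ : ((B ^ 2 / k : ℕ) : ℝ) ≤ (B : ℝ) ^ 2 / (k : ℝ) := by
    have := @Nat.cast_div_le ℝ _ _ _ (B ^ 2) k
    push_cast at this
    exact this
  have hZ0 : (0 : ℝ) ≤ ((B ^ 2 / k : ℕ) : ℝ) := Nat.cast_nonneg _
  generalize ((B ^ 2 / k : ℕ) : ℝ) = Z at hZ hZ0 ⊢
  have h1 : Z ^ (r + 2 + m) / Z ^ r ≤ ((B : ℝ) ^ 2) ^ (2 + m) / k := by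
    have hle : Z ^ (r + 2 + m) / Z ^ r ≤ Z ^ (2 + m) := by
      rcases hZ0.eq_or_lt with h | h
      · rw [← h, zero_pow (by omega : r + 2 + m ≠ 0), zero_div]
        positivity
      · rw [div_le_iff₀ (by positivity), ← pow_add]
        apply le_of_eq
        congr 1
        omega
    refine hle.trans ((pow_le_pow_left₀ hZ0 hZ _).trans ?_)
    rw [div_pow]
    refine div_le_div_of_nonneg_left (by positivity) hk0 ?_
    have : (k : ℝ) ^ 1 ≤ (k : ℝ) ^ (2 + m) := pow_le_pow_right₀ hk1 (by omega)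
    simpa using this
  calc (Z ^ (r + 2 + m) / Z ^ r) * ((B : ℝ) / (B : ℝ) ^ (r + 2 + m))
      ≤ (((B : ℝ) ^ 2) ^ (2 + m) / k) * ((B : ℝ) / (B : ℝ) ^ (r + 2 + m)) :=
        mul_le_mul_of_nonneg_right h1 (by positivity)
    _ = (B : ℝ) ^ (r + 2 + m + 1) / (B : ℝ) ^ (2 * r) * (1 / (k : ℝ)) := by
        rw [div_mul_div_comm, div_mul_div_comm, div_eq_div_iff (by positivity) (by positivity)]
        ring

theorem psAll (n r q : ℕ) (hn : r + 2 ≤ n) (hq : 1 ≤ q) : ∃ C : ℝ, 0 < C ∧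
    ∀ (B H : ℕ) (o : Fin (n + 1)), 1 ≤ B → 1 ≤ H → ∀ x ∈ GG B H q o,
    ∑ y ∈ (GG B H q o).filter (fun y => y ≠ x), ((Dd x y : ℝ) / (Del o x y : ℝ)) ^ r ≤
      C * ((B : ℝ) ^ (n + 1) / (B : ℝ) ^ (2 * r)
        + (H : ℝ) ^ (n + 1 + r) * ((B : ℝ) / (B : ℝ) ^ r)) := by
  obtain ⟨Ca, hCa, ha⟩ := alpha n r q hq
  obtain ⟨Cb, hCb, hb⟩ := beta n r q hn hq
  refine ⟨Ca + Cb * 2 ^ n, by positivity, ?_⟩
  intro B H o hB hH x hx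
  have h1 := pairSum_split2 (GG B H q o) (fun y => ((Dd x y : ℝ) / (Del o x y : ℝ)) ^ r)
    (fun y => y ≠ x)
    (fun y => y ≠ x ∧ Del o x y ≤ Dd x y * B)
    (fun y => y ≠ x ∧ Dd x y * B < Del o x y ∧ 0 < Dd x y ∧ Del o x y ≤ 2 * B ^ 2)
    (fun y _ => pairSum_nonneg r o x y) (by
      intro y hy hne
      have hD : 1 ≤ Del o x y := Pool.Agent.Lib.MP_219881_nt.Del_pos hB hx hy (fun h => hne h.symm)
      by_cases h : Del o x y ≤ Dd x y * B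
      · exact Or.inl ⟨hne, h⟩
      · exact Or.inr ⟨hne, not_le.mp h, Pool.Agent.Lib.MP_219881_nt.Dd_pos o x y hD, Pool.Agent.Lib.MP_219881_nt.Del_le hx hy⟩)
  have h2 := ha B H o hB hH x hx
  have h3 := hb B H 0 (2 * B ^ 2) o hB le_rfl x hx
  have h4 := pairSum_full n r hn B hB
  have e0 : (((0 : ℕ) : ℝ) + 1) = 1 := by norm_num
  rw [e0, div_one] at h3
  have hP : 0 ≤ (B : ℝ) ^ (n + 1) / (B : ℝ) ^ (2 * r) := by positivity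
  have hR : 0 ≤ (H : ℝ) ^ (n + 1 + r) * ((B : ℝ) / (B : ℝ) ^ r) := by positivity
  have h5 : Cb * ((((2 * B ^ 2 : ℕ) : ℝ) ^ n / ((2 * B ^ 2 : ℕ) : ℝ) ^ r) *
      ((B : ℝ) / (B : ℝ) ^ n)) ≤ Cb * (2 ^ n * ((B : ℝ) ^ (n + 1) / (B : ℝ) ^ (2 * r))) :=
    mul_le_mul_of_nonneg_left h4 hCb.le
  refine (h1.trans (add_le_add h2 (h3.trans h5))).trans ?_
  have h6 : 0 ≤ Ca * ((B : ℝ) ^ (n + 1) / (B : ℝ) ^ (2 * r)) := by positivity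
  have h7 : 0 ≤ Cb * 2 ^ n * ((H : ℝ) ^ (n + 1 + r) * ((B : ℝ) / (B : ℝ) ^ r)) := by positivity
  nlinarith

theorem psBad (n r q : ℕ) (hn : r + 2 ≤ n) (hq : 1 ≤ q) : ∃ C : ℝ, 0 < C ∧
    ∀ (B H k w W : ℕ) (o : Fin (n + 1)), 1 ≤ B → 1 ≤ H → 1 ≤ k →
    (∀ m, 1 ≤ m → m ≤ w → m ∣ W) → ∀ x ∈ GG B H q o,
    ∑ y ∈ (GG B H q o).filter (fun y => y ≠ x ∧ ¬ (Dd x y ∣ W ∧ B ^ 2 ≤ k * Del o x y)),
      ((Dd x y : ℝ) / (Del o x y : ℝ)) ^ r ≤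
      C * ((B : ℝ) ^ (n + 1) / (B : ℝ) ^ (2 * r) * (1 / (k : ℝ) + 1 / ((w : ℝ) + 1))
        + (H : ℝ) ^ (n + 1 + r) * ((B : ℝ) / (B : ℝ) ^ r)) := by
  obtain ⟨Ca, hCa, ha⟩ := alpha n r q hq
  obtain ⟨Cb, hCb, hb⟩ := beta n r q hn hq
  refine ⟨Ca + Cb * 2 ^ n + Cb, by positivity, ?_⟩
  intro B H k w W o hB hH hk hW x hx
  have h1 := pairSum_split2 (GG B H q o) (fun y => ((Dd x y : ℝ) / (Del o x y : ℝ)) ^ r)
    (fun y => y ≠ x ∧ ¬ (Dd x y ∣ W ∧ B ^ 2 ≤ k * Del o x y))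
    (fun y => y ≠ x ∧ Del o x y ≤ Dd x y * B)
    (fun y => (y ≠ x ∧ Dd x y * B < Del o x y ∧ w < Dd x y ∧ Del o x y ≤ 2 * B ^ 2) ∨
      (y ≠ x ∧ Dd x y * B < Del o x y ∧ 0 < Dd x y ∧ Del o x y ≤ B ^ 2 / k))
    (fun y _ => pairSum_nonneg r o x y) (by
      intro y hy hne
      obtain ⟨hne, hno⟩ := hne
      have hD : 1 ≤ Del o x y := Pool.Agent.Lib.MP_219881_nt.Del_pos hB hx hy (fun h => hne h.symm)
      have hd : 1 ≤ Dd x y := Pool.Agent.Lib.MP_219881_nt.Dd_pos o x y hD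
      by_cases h : Del o x y ≤ Dd x y * B
      · exact Or.inl ⟨hne, h⟩
      · refine Or.inr ?_
        by_cases hdW : Dd x y ∣ W
        · refine Or.inr ⟨hne, not_le.mp h, hd, ?_⟩
          have h5 : k * Del o x y < B ^ 2 := by
            by_contra hcon
            exact hno ⟨hdW, not_lt.mp hcon⟩
          rw [Nat.le_div_iff_mul_le (by omega)]
          rw [mul_comm]
          exact h5.le
        · refine Or.inl ⟨hne, not_le.mp h, ?_, Pool.Agent.Lib.MP_219881_nt.Del_le hx hy⟩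
          by_contra hcon
          exact hdW (hW _ hd (not_lt.mp hcon)))
  have h1' := pairSum_split2 (GG B H q o) (fun y => ((Dd x y : ℝ) / (Del o x y : ℝ)) ^ r)
    (fun y => (y ≠ x ∧ Dd x y * B < Del o x y ∧ w < Dd x y ∧ Del o x y ≤ 2 * B ^ 2) ∨
      (y ≠ x ∧ Dd x y * B < Del o x y ∧ 0 < Dd x y ∧ Del o x y ≤ B ^ 2 / k))
    (fun y => y ≠ x ∧ Dd x y * B < Del o x y ∧ w < Dd x y ∧ Del o x y ≤ 2 * B ^ 2)
    (fun y => y ≠ x ∧ Dd x y * B < Del o x y ∧ 0 < Dd x y ∧ Del o x y ≤ B ^ 2 / k)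
    (fun y _ => pairSum_nonneg r o x y) (fun y _ h => h)
  have h2 := ha B H o hB hH x hx
  have h3 := hb B H w (2 * B ^ 2) o hB le_rfl x hx
  have h4 := hb B H 0 (B ^ 2 / k) o hB
    ((Nat.div_le_self _ _).trans (Nat.le_mul_of_pos_left _ (by norm_num))) x hx
  have f3 := pairSum_full n r hn B hB
  have f4 := pairSum_small n r hn B k hB hk
  have e0 : (((0 : ℕ) : ℝ) + 1) = 1 := by norm_num
  rw [e0, div_one] at h4
  have hw0 : (0 : ℝ) < (w : ℝ) + 1 := by positivity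
  have hk0 : (0 : ℝ) < (k : ℝ) := by exact_mod_cast hk
  have g3 : Cb * ((((2 * B ^ 2 : ℕ) : ℝ) ^ n / ((2 * B ^ 2 : ℕ) : ℝ) ^ r) *
      ((B : ℝ) / (B : ℝ) ^ n) / ((w : ℝ) + 1)) ≤
      Cb * (2 ^ n * ((B : ℝ) ^ (n + 1) / (B : ℝ) ^ (2 * r)) / ((w : ℝ) + 1)) :=
    mul_le_mul_of_nonneg_left (div_le_div_of_nonneg_right f3 hw0.le) hCb.le
  have g4 : Cb * ((((B ^ 2 / k : ℕ) : ℝ) ^ n / ((B ^ 2 / k : ℕ) : ℝ) ^ r) *
      ((B : ℝ) / (B : ℝ) ^ n)) ≤ Cb * ((B : ℝ) ^ (n + 1) / (B : ℝ) ^ (2 * r) * (1 / (k : ℝ))) :=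
    mul_le_mul_of_nonneg_left f4 hCb.le
  have h7 := h1.trans (add_le_add h2 (h1'.trans (add_le_add (h3.trans g3) (h4.trans g4))))
  refine h7.trans ?_
  have hP : 0 ≤ (B : ℝ) ^ (n + 1) / (B : ℝ) ^ (2 * r) := by positivity
  have hR : 0 ≤ (H : ℝ) ^ (n + 1 + r) * ((B : ℝ) / (B : ℝ) ^ r) := by positivity
  generalize (B : ℝ) ^ (n + 1) / (B : ℝ) ^ (2 * r) = P at hP ⊢
  generalize (H : ℝ) ^ (n + 1 + r) * ((B : ℝ) / (B : ℝ) ^ r) = R at hR ⊢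
  have hk1 : 0 ≤ 1 / (k : ℝ) := by positivity
  have hw1 : 0 ≤ 1 / ((w : ℝ) + 1) := by positivity
  have ew : (2 : ℝ) ^ n * P / ((w : ℝ) + 1) = 2 ^ n * (P * (1 / ((w : ℝ) + 1))) := by
    field_simp
  rw [ew]
  have p1 : 0 ≤ P * (1 / (k : ℝ)) := mul_nonneg hP hk1
  have p2 : 0 ≤ P * (1 / ((w : ℝ) + 1)) := mul_nonneg hP hw1
  have hexp : (Ca + Cb * 2 ^ n + Cb) * (P * (1 / (k : ℝ) + 1 / ((w : ℝ) + 1)) + R) =
      Ca * R + (Cb * (2 ^ n * (P * (1 / ((w : ℝ) + 1)))) + Cb * (P * (1 / (k : ℝ)))) +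
      (Ca * (P * (1 / (k : ℝ))) + Ca * (P * (1 / ((w : ℝ) + 1))) +
        Cb * 2 ^ n * (P * (1 / (k : ℝ))) + Cb * (P * (1 / ((w : ℝ) + 1))) +
        Cb * 2 ^ n * R + Cb * R) := by ring
  rw [hexp]
  have q1 : 0 ≤ Ca * (P * (1 / (k : ℝ))) := by positivity
  have q2 : 0 ≤ Ca * (P * (1 / ((w : ℝ) + 1))) := by positivity
  have q3 : 0 ≤ Cb * 2 ^ n * (P * (1 / (k : ℝ))) := by positivity
  have q4 : 0 ≤ Cb * (P * (1 / ((w : ℝ) + 1))) := by positivity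
  have q5 : 0 ≤ Cb * 2 ^ n * R := by positivity
  have q6 : 0 ≤ Cb * R := by positivity
  linarith

end Pool.Agent.Lib.MP_1ad228_ntF
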