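import Pool.Agent.Lib.MP_1ad228_ntF.LL
import Pool.Agent.Lib.MP_219881_nt.GGfacts

/-!
JOB Pre.  Short integer tensors with given values at test points, explicit bounds.
(Model: Lib/MP_219881_nt/Pre.lean.)  GGfacts: `Pool.Agent.Lib.MP_219881_nt.GG_pos`, `GG_pivot`, `GG_good`, `exists_Del`, `Del_pos` ...

PROOF.  `pre1`: `LL1`, `b = (ev a x / x_o^d) • tp (fun _ => e_o)`: `ev b x = ev a x`, entries at most
`|ev a x| / x_o^d ≤ |ev a x| (q/B)^d`.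
`pre2` (`d ≥ 2`): let `j` be as in `exists_Del` (`Del_pos`), `Δ = mn x y o j`, `m = ev a x`, `m' = ev a y`,
`s = m - m' x_o^d / y_o^d`.
`b = (m'/y_o^d) • tp (fun _ => e_o) + (s/(Δ x_o^(d-1))) • tp (fun k => if k = 0 then y_j e_o - y_o e_j else e_o)`
(slot 0 = `⟨0, _⟩`). The linear form `y_j e_o - y_o e_j` has value `Δ` at `x` and 0 at `y`. So `ev b y = m'`,
`ev b x = m' x_o^d/y_o^d + s = m` (`ev_tp`; the product over `k` of `if k = 0 then Δ else x_o` is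
`Δ * x_o^(d-1)`: write `d = e + 1`, `Fin.prod_univ_succ`). The two tensors have disjoint supports except at the
constant index `o`: entries of `b` are at most
`|m'|/y_o^d + |s| max(|y_j|,|y_o|)/(|Δ| x_o^(d-1)) ≤ |m'| q^d/B^d + |s| B (q/B)^(d-1)/Del`, and
`B (q/B)^(d-1) = (q^d/B^d) * (B^2/q)`. Then `LL2`. The statements are over ℝ: take `β` rational and cast.
-/

namespace Pool.Agent.Lib.MP_1ad228_ntF

open Classical

/-- the tensor with the single entry `c` at the constant index `o` -/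
private theorem Pre_single {n d : ℕ} (o : Fin (n + 1)) (c : ℚ) (x : Vc n ℚ) :
    ev (c • tp (fun _ : Fin d => (Pi.single o 1 : Vc n ℚ))) x = c * x o ^ d := by
  rw [ev_smul', ev_tp]
  simp only [lin_single, Finset.prod_const, Finset.card_univ, Fintype.card_fin]

private theorem Pre_sg {n : ℕ} (o i : Fin (n + 1)) : |(Pi.single o 1 : Vc n ℚ) i| ≤ 1 := by
  by_cases h : i = o
  · subst h
    rw [Pi.single_eq_same, abs_one]
  · rw [Pi.single_eq_of_ne h, abs_zero]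
    exact zero_le_one

private theorem Pre_single_le {n d : ℕ} (o : Fin (n + 1)) (c β : ℚ) (hc : |c| ≤ β)
    (s : Fin d → Fin (n + 1)) :
    |(c • tp (fun _ : Fin d => (Pi.single o 1 : Vc n ℚ))) s| ≤ β := by
  have hβ : 0 ≤ β := (abs_nonneg c).trans hc
  show |c * ∏ k, (Pi.single o 1 : Vc n ℚ) (s k)| ≤ β
  have h2 : |∏ k, (Pi.single o 1 : Vc n ℚ) (s k)| ≤ 1 := by
    rw [Finset.abs_prod]
    exact Finset.prod_le_one (fun k _ => abs_nonneg _) fun k _ => Pre_sg o (s k)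
  rw [abs_mul]
  calc |c| * _ ≤ β * 1 := mul_le_mul hc h2 (abs_nonneg _) hβ
    _ = β := mul_one β

private theorem Pre_inv {n B H q : ℕ} {o : Fin (n + 1)} (hB : 1 ≤ B) {x : Vc n ℤ}
    (hx : x ∈ GG B H q o) :
    0 < (x o : ℚ) ∧ 0 < (B : ℚ) ∧ 1 / (x o : ℚ) ≤ (q : ℚ) / (B : ℚ) := by
  have h0 : 0 < (x o : ℚ) := by exact_mod_cast Pool.Agent.Lib.MP_219881_nt.GG_pos hB hx
  have hg0 : (0 : ℚ) < B := by exact_mod_cast hB
  refine ⟨h0, hg0, ?_⟩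
  rw [div_le_div_iff₀ h0 hg0, one_mul]
  exact_mod_cast Pool.Agent.Lib.MP_219881_nt.GG_pivot hx

private theorem Pre_inv2 {n B H q : ℕ} {o : Fin (n + 1)} (hB : 1 ≤ B) {x : Vc n ℤ}
    (hx : x ∈ GG B H q o) (d : ℕ) (m : ℚ) :
    |m / (x o : ℚ) ^ d| ≤ |m| * ((q : ℚ) ^ d / (B : ℚ) ^ d) := by
  obtain ⟨h0, hg0, h1⟩ := Pre_inv hB hx
  have h2 : |m / (x o : ℚ) ^ d| = |m| * (1 / (x o : ℚ)) ^ d := by
    rw [abs_div, abs_of_pos (pow_pos h0 d), div_pow, one_pow]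
    ring
  rw [h2]
  calc |m| * (1 / (x o : ℚ)) ^ d ≤ |m| * ((q : ℚ) / (B : ℚ)) ^ d := by
        gcongr
    _ = |m| * ((q : ℚ) ^ d / (B : ℚ) ^ d) := by
        rw [div_pow]

theorem pre1 {n d : ℕ} (B H q : ℕ) (o : Fin (n + 1)) (hB : 1 ≤ B) (hq : 1 ≤ q) (x : Vc n ℤ)
    (hx : x ∈ GG B H q o) (a : Ten n d ℤ) :
    ∃ a' : Ten n d ℤ, ev a' x = ev a x ∧ ∀ s,
      |(a' s : ℝ)| ≤ |((ev a x : ℤ) : ℝ)| * ((q : ℝ) ^ d / (B : ℝ) ^ d)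
        + d * n * (n + 1) ^ d * (H : ℝ) := by
  obtain ⟨h0, hg0, h1⟩ := Pre_inv hB hx
  obtain ⟨c, hc⟩ : ∃ c : ℚ, c = ((ev a x : ℤ) : ℚ) / (x o : ℚ) ^ d := ⟨_, rfl⟩
  have hcb : |c| ≤ |((ev a x : ℤ) : ℚ)| * ((q : ℚ) ^ d / (B : ℚ) ^ d) := by
    rw [hc]
    exact Pre_inv2 hB hx d _
  obtain ⟨a', ha1, ha2⟩ := LL1 H o x (Pool.Agent.Lib.MP_219881_nt.GG_pos hB hx).ne'
    (Pool.Agent.Lib.MP_219881_nt.GG_good hx) a
    (c • tp (fun _ : Fin d => (Pi.single o 1 : Vc n ℚ))) _ (Pre_single_le o c _ hcb)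
    (by
      rw [Pre_single, hc]
      show _ = _ * (x o : ℚ) ^ d
      field_simp)
  refine ⟨a', ha1, fun s => ?_⟩
  have h3 := ha2 s
  have h4 : ((|(a' s : ℚ)| : ℚ) : ℝ) ≤ ((|((ev a x : ℤ) : ℚ)| * ((q : ℚ) ^ d / (B : ℚ) ^ d) +
      d * n * (n + 1) ^ d * (H : ℚ) : ℚ) : ℝ) := by
    exact_mod_cast h3
  push_cast at h4
  exact h4

theorem pre2 {n d : ℕ} (hd : 2 ≤ d) (B H q : ℕ) (o : Fin (n + 1)) (hB : 1 ≤ B) (hq : 1 ≤ q)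
    (x y : Vc n ℤ) (hx : x ∈ GG B H q o) (hy : y ∈ GG B H q o) (hxy : x ≠ y) (a : Ten n d ℤ) :
    ∃ a' : Ten n d ℤ, ev a' x = ev a x ∧ ev a' y = ev a y ∧ ∀ s,
      |(a' s : ℝ)| ≤ |((ev a y : ℤ) : ℝ)| * ((q : ℝ) ^ d / (B : ℝ) ^ d)
        + |((ev a x : ℤ) : ℝ) - ((ev a y : ℤ) : ℝ) * (x o : ℝ) ^ d / (y o : ℝ) ^ d| *
            ((q : ℝ) ^ d / (B : ℝ) ^ d) * ((B : ℝ) ^ 2 / ((q : ℝ) * (Del o x y : ℝ)))
        + (cc n d : ℝ) * (H : ℝ) ^ 2 := by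
  obtain ⟨f, rfl⟩ : ∃ f, d = f + 1 := ⟨d - 1, by omega⟩
  obtain ⟨hx0, hg0, hx1⟩ := Pre_inv hB hx
  obtain ⟨hy0, -, hy1⟩ := Pre_inv hB hy
  have hq0 : (0 : ℚ) < q := by exact_mod_cast hq
  have hDp := Pool.Agent.Lib.MP_219881_nt.Del_pos hB hx hy hxy
  obtain ⟨j, hj1, hjne, hjD⟩ := Pool.Agent.Lib.MP_219881_nt.exists_Del o x y hDp
  obtain ⟨m, hm⟩ : ∃ m : ℚ, m = ((ev a x : ℤ) : ℚ) := ⟨_, rfl⟩
  obtain ⟨m', hm'⟩ : ∃ m' : ℚ, m' = ((ev a y : ℤ) : ℚ) := ⟨_, rfl⟩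
  obtain ⟨Δ, hΔ⟩ : ∃ Δ : ℚ, Δ = ((mn x y o j : ℤ) : ℚ) := ⟨_, rfl⟩
  have hΔ0 : Δ ≠ 0 := by
    rw [hΔ]
    exact_mod_cast hjne
  have hΔe : Δ = (x o : ℚ) * (y j : ℚ) - (x j : ℚ) * (y o : ℚ) := by
    rw [hΔ, Pool.Agent.Lib.MP_219881_nt.mn]
    push_cast
    rfl
  have hΔa : |Δ| = (Del o x y : ℚ) := by
    rw [hΔ]
    exact_mod_cast congrArg (fun z : ℤ => (z : ℚ)) hjD
  have hD0 : (0 : ℚ) < (Del o x y : ℚ) := by exact_mod_cast hDp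
  obtain ⟨s, hs⟩ : ∃ s : ℚ, s = m - m' * (x o : ℚ) ^ (f + 1) / (y o : ℚ) ^ (f + 1) := ⟨_, rfl⟩
  obtain ⟨c, hc⟩ : ∃ c : ℚ, c = m' / (y o : ℚ) ^ (f + 1) := ⟨_, rfl⟩
  obtain ⟨e, he⟩ : ∃ e : ℚ, e = s / (Δ * (x o : ℚ) ^ f) := ⟨_, rfl⟩
  have hcb : |c| ≤ |m'| * ((q : ℚ) ^ (f + 1) / (B : ℚ) ^ (f + 1)) := by
    rw [hc]
    exact Pre_inv2 hB hy _ _
  -- the linear form
  obtain ⟨u, hu⟩ : ∃ u : Vc n ℚ, u = (y j : ℚ) • (Pi.single o 1 : Vc n ℚ) -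
      (y o : ℚ) • (Pi.single j 1 : Vc n ℚ) := ⟨_, rfl⟩
  have hux : lin u (cv ℚ x) = Δ := by
    rw [hu, lin_sub, lin_smul, lin_smul, lin_single, lin_single, hΔe]
    show (y j : ℚ) * (x o : ℚ) - (y o : ℚ) * (x j : ℚ) = _
    ring
  have huy : lin u (cv ℚ y) = 0 := by
    rw [hu, lin_sub, lin_smul, lin_smul, lin_single, lin_single]
    show (y j : ℚ) * (y o : ℚ) - (y o : ℚ) * (y j : ℚ) = _
    ring
  have hub : ∀ i, |u i| ≤ (B : ℚ) := by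
    intro i
    have hyj : |(y j : ℚ)| ≤ (B : ℚ) := by
      exact_mod_cast Pool.Agent.Lib.MP_219881_nt.GG_le hy j
    have hy1' : |(y o : ℚ)| ≤ (B : ℚ) := by
      exact_mod_cast Pool.Agent.Lib.MP_219881_nt.GG_le hy o
    rw [hu]
    show |(y j : ℚ) * (Pi.single o 1 : Vc n ℚ) i - (y o : ℚ) * (Pi.single j 1 : Vc n ℚ) i| ≤ _
    by_cases h1 : i = o
    · subst h1
      rw [Pi.single_eq_same, Pi.single_eq_of_ne hj1.symm, mul_one, mul_zero, sub_zero]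
      exact hyj
    · rw [Pi.single_eq_of_ne h1, mul_zero, zero_sub, abs_neg]
      by_cases h2 : i = j
      · subst h2
        rw [Pi.single_eq_same, mul_one]
        exact hy1'
      · rw [Pi.single_eq_of_ne h2, mul_zero, abs_zero]
        exact hg0.le
  have heb : |e| * (B : ℚ) ≤ |s| * ((q : ℚ) ^ (f + 1) / (B : ℚ) ^ (f + 1)) *
      ((B : ℚ) ^ 2 / ((q : ℚ) * (Del o x y : ℚ))) := by
    have h2 : |e| = |s| / (Del o x y : ℚ) * (1 / (x o : ℚ)) ^ f := by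
      rw [he, abs_div, abs_mul, hΔa, abs_of_pos (pow_pos hx0 f), div_pow, one_pow]
      field_simp
    rw [h2]
    calc |s| / (Del o x y : ℚ) * (1 / (x o : ℚ)) ^ f * (B : ℚ)
        ≤ |s| / (Del o x y : ℚ) * ((q : ℚ) / (B : ℚ)) ^ f * (B : ℚ) := by
          gcongr
      _ = |s| * ((q : ℚ) ^ (f + 1) / (B : ℚ) ^ (f + 1)) *
      ((B : ℚ) ^ 2 / ((q : ℚ) * (Del o x y : ℚ))) := by
          rw [div_pow, pow_succ, pow_succ]
          field_simp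
  -- the two tensors
  obtain ⟨w, hw⟩ : ∃ w : Fin (f + 1) → Vc n ℚ,
      w = fun k => if k = 0 then u else (Pi.single o 1 : Vc n ℚ) := ⟨_, rfl⟩
  have hw0 : w 0 = u := by rw [hw]; rfl
  have hws : ∀ k : Fin f, w k.succ = (Pi.single o 1 : Vc n ℚ) := by
    intro k
    rw [hw]
    show (if k.succ = 0 then u else (Pi.single o 1 : Vc n ℚ)) = _
    rw [if_neg (Fin.succ_ne_zero k)]
  have hwe : ∀ z : Vc n ℚ, ev (tp w) z = lin u z * z o ^ f := by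
    intro z
    rw [ev_tp, Fin.prod_univ_succ, hw0]
    simp only [hws, lin_single, Finset.prod_const, Finset.card_univ, Fintype.card_fin]
  have hwb : ∀ t : Fin (f + 1) → Fin (n + 1), |tp w t| ≤ (B : ℚ) := by
    intro t
    show |∏ k, w k (t k)| ≤ (B : ℚ)
    rw [Fin.prod_univ_succ, hw0, abs_mul, Finset.abs_prod]
    have h3 : ∏ k : Fin f, |w k.succ (t k.succ)| ≤ 1 := by
      refine Finset.prod_le_one (fun k _ => abs_nonneg _) fun k _ => ?_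
      rw [hws]
      exact Pre_sg o _
    calc |u (t 0)| * ∏ k : Fin f, |w k.succ (t k.succ)| ≤ (B : ℚ) * 1 :=
          mul_le_mul (hub _) h3 (Finset.prod_nonneg fun k _ => abs_nonneg _) hg0.le
      _ = _ := mul_one _
  obtain ⟨b, hb⟩ : ∃ b : Ten n (f + 1) ℚ,
      b = c • tp (fun _ : Fin (f + 1) => (Pi.single o 1 : Vc n ℚ)) + e • tp w := ⟨_, rfl⟩
  have hxf : (x o : ℚ) ^ f ≠ 0 := (pow_pos hx0 f).ne'
  have hbx : ev b (cv ℚ x) = m := by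
    rw [hb, ev_add, Pre_single, ev_smul', hwe, hux]
    show c * (x o : ℚ) ^ (f + 1) + e * (Δ * (x o : ℚ) ^ f) = m
    have h5 : e * (Δ * (x o : ℚ) ^ f) = s := by
      rw [he]
      field_simp
    rw [h5, hc, hs]
    ring
  have hby : ev b (cv ℚ y) = m' := by
    rw [hb, ev_add, Pre_single, ev_smul', hwe, huy]
    show c * (y o : ℚ) ^ (f + 1) + e * (0 * _) = m'
    rw [hc]
    field_simp
    ring
  have hbb : ∀ t, |b t| ≤ |m'| * ((q : ℚ) ^ (f + 1) / (B : ℚ) ^ (f + 1)) +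
      |s| * ((q : ℚ) ^ (f + 1) / (B : ℚ) ^ (f + 1)) *
      ((B : ℚ) ^ 2 / ((q : ℚ) * (Del o x y : ℚ))) := by
    intro t
    have h1 := Pre_single_le o c _ hcb t
    have h2 : |(e • tp w) t| ≤ |s| * ((q : ℚ) ^ (f + 1) / (B : ℚ) ^ (f + 1)) *
      ((B : ℚ) ^ 2 / ((q : ℚ) * (Del o x y : ℚ))) := by
      show |e * tp w t| ≤ _
      rw [abs_mul]
      exact le_trans (mul_le_mul_of_nonneg_left (hwb t) (abs_nonneg _)) heb
    rw [hb]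
    exact (abs_add_le _ _).trans (add_le_add h1 h2)
  obtain ⟨a', ha1, ha2, ha3⟩ := LL2 hd H o x y ⟨j, hjne⟩
    (Pool.Agent.Lib.MP_219881_nt.GG_good hx) (Pool.Agent.Lib.MP_219881_nt.GG_good hy) a b _ hbb
    (by rw [hbx, hm]) (by rw [hby, hm'])
  refine ⟨a', ha1, ha2, fun t => ?_⟩
  have h3 := ha3 t
  rw [hs, hm, hm'] at h3
  have h4 : ((|(a' t : ℚ)| : ℚ) : ℝ) ≤
      ((|((ev a y : ℤ) : ℚ)| * ((q : ℚ) ^ (f + 1) / (B : ℚ) ^ (f + 1)) +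
      |((ev a x : ℤ) : ℚ) - ((ev a y : ℤ) : ℚ) * (x o : ℚ) ^ (f + 1) / (y o : ℚ) ^ (f + 1)| *
        ((q : ℚ) ^ (f + 1) / (B : ℚ) ^ (f + 1)) * ((B : ℚ) ^ 2 / ((q : ℚ) * (Del o x y : ℚ)))
        + (cc n (f + 1) : ℚ) * (H : ℚ) ^ 2 : ℚ) : ℝ) := by
    exact_mod_cast h3
  push_cast at h4
  exact h4

end Pool.Agent.Lib.MP_1ad228_ntF
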