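import Pool.Agent.Lib.MP_1ad228_ntF.RP_Defs

/-!
JOB RP_Chart.  The charts (`spi`, `lsec` are defined in LD_Lin; Tay has `dev_scale`).

`chart_map`.  All the definitions `cx, cT, cb, cg, lsec, ev, dev, chart` commute with ring homomorphisms (`ev_map`, `dev_map`, `map_sum`, `apply_ite`, `split_ifs`):
do it for one after the other.
`supp_ev`, `supp_dev`.  Let `a` be supported on the indices `spi p j` (`d ≥ 1`, `x p = 1`). `ev a x = ∑ j, a (spi p j) * x j`: `j ↦ spi p j` is injective (slot 0 exists), so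
the sum over `s` is the sum over the image, and `∏ k, x (spi p j k) = x j` (`Finset.prod_eq_single` slot 0, the other slots give `x p = 1`).
`dev a x j = a (spi p j)` for `j ≠ p`: in `∑ k, ∑ s, if s k = j then ..` the terms with `s = spi p j'`, `s k = j ≠ p` have `k` = slot 0 and `j' = j`; the product over the
other slots is 1.
`lsec_eq`.  `a = lsec p x (ev a x) (fun j => dev a x j)`: compare entries: both vanish outside of the `spi p j`; at `spi p j`, `j ≠ p`, the section has the entry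
`∑ j', if spi p j = spi p j' then dev a x j' else 0 = dev a x j = a (spi p j)`; at `spi p p` it is `ev a x - ∑ j ≠ p, a (spi p j) * x j = a (spi p p)`.
`chart_surj`.  Let `y c = 0` for `c = ⟨i0, fun _ => p⟩`, `y ⟨i0, spi p j⟩ = x j` (`j ≠ p`), `y ⟨l, fun _ => p⟩ = t l` (`l ≠ i0`), `y ⟨l, s⟩ = F l s` else. Then `cx p i0 y = x`, `cT p i0 y = t`
(`fun _ => p` is `spi p p`; `spi p j ≠ fun _ => p` for `j ≠ p`). `l ≠ i0`: `cb p i0 y l` is `F l` with the entry at `fun _ => p` put to 0, so
`0 = ev (F l) x = F l (fun _ => p) * 1 + ev (cb p i0 y l) x`, hence `cg p i0 y l = F l`. `l = i0`: `a = F i0 - cb p i0 y i0` is supported on the `spi p j`,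
`ev a x = -ev (cb ..) x`, `dev a x j = dev (F i0) x j - dev (cb ..) x j = -∑ k ≠ i0, t k * dev (F k) x j - dev (cb ..) x j` for `j ≠ p` (`t i0 = 1`,
hypothesis `h1`); `lsec` does not use the value of its last argument at `p` (it only occurs multiplied.. in the sum over `erase p`, and at `spi p j` with `j ≠ p`); so `lsec_eq` gives the claim.
-/

namespace Pool.Agent.Lib.MP_1ad228_ntF

open Classical

private theorem RP_Chart_spi_self {n d : ℕ} (p : Fin (n + 1)) :
    (spi p p : Fin d → Fin (n + 1)) = fun _ => p := by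
  funext k
  unfold spi
  split_ifs <;> rfl

private theorem RP_Chart_spi_inj {n d : ℕ} (hd : 1 ≤ d) (p : Fin (n + 1)) :
    Function.Injective (spi p : Fin (n + 1) → Fin d → Fin (n + 1)) := by
  intro j j' h
  have h1 := congrFun h ⟨0, hd⟩
  simpa [spi] using h1

private theorem RP_Chart_spi_zero {n d : ℕ} (hd : 1 ≤ d) (p j : Fin (n + 1)) :
    (spi p j : Fin d → Fin (n + 1)) ⟨0, hd⟩ = j := by
  simp [spi]

private theorem RP_Chart_spi_ne {n d : ℕ} (hd : 1 ≤ d) (p j : Fin (n + 1)) {k : Fin d}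
    (hk : k ≠ ⟨0, hd⟩) : (spi p j : Fin d → Fin (n + 1)) k = p := by
  unfold spi
  rw [if_neg]
  intro h
  exact hk (Fin.ext h)

private theorem RP_Chart_spi_const {n d : ℕ} (hd : 1 ≤ d) {p j : Fin (n + 1)} (hj : j ≠ p) :
    (spi p j : Fin d → Fin (n + 1)) ≠ fun _ => p := by
  intro h
  have h1 := congrFun h ⟨0, hd⟩
  rw [RP_Chart_spi_zero hd] at h1
  exact hj h1

private theorem RP_Chart_prod {n d : ℕ} (hd : 1 ≤ d) {R : Type*} [CommRing R] (p : Fin (n + 1))
    (x : Vc n R) (hp : x p = 1) (j : Fin (n + 1)) :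
    ∏ k, x ((spi p j : Fin d → Fin (n + 1)) k) = x j := by
  rw [Finset.prod_eq_single (⟨0, hd⟩ : Fin d)]
  · rw [RP_Chart_spi_zero hd]
  · intro k _ hk
    rw [RP_Chart_spi_ne hd p j hk, hp]
  · intro h
    exact absurd (Finset.mem_univ _) h

private theorem RP_Chart_cx_map {n r : ℕ} {d : Fin r → ℕ} {R S : Type*} [CommRing R]
    [CommRing S] (f : R →+* S) (p : Fin (n + 1)) (i0 : Fin r) (y : Kp n d → R) :
    cx p i0 (fun c => f (y c)) = fun j => f (cx p i0 y j) := by
  funext j
  unfold cx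
  split_ifs
  · rw [map_one]
  · rfl

private theorem RP_Chart_cT_map {n r : ℕ} {d : Fin r → ℕ} {R S : Type*} [CommRing R]
    [CommRing S] (f : R →+* S) (p : Fin (n + 1)) (i0 : Fin r) (y : Kp n d → R) (l : Fin r) :
    cT p i0 (fun c => f (y c)) l = f (cT p i0 y l) := by
  unfold cT
  split_ifs
  · rw [map_one]
  · rfl

private theorem RP_Chart_cb_map {n r : ℕ} {d : Fin r → ℕ} {R S : Type*} [CommRing R]
    [CommRing S] (f : R →+* S) (p : Fin (n + 1)) (i0 : Fin r) (y : Kp n d → R) (l : Fin r) :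
    cb p i0 (fun c => f (y c)) l = fun s => f (cb p i0 y l s) := by
  funext s
  unfold cb
  split_ifs
  · rw [map_zero]
  · rfl
  · rw [map_zero]
  · rfl

private theorem RP_Chart_cg_map {n r : ℕ} {d : Fin r → ℕ} {R S : Type*} [CommRing R]
    [CommRing S] (f : R →+* S) (p : Fin (n + 1)) (i0 : Fin r) (y : Kp n d → R) (l : Fin r) :
    cg p i0 (fun c => f (y c)) l = fun s => f (cg p i0 y l s) := by
  funext s
  unfold cg
  rw [RP_Chart_cb_map, RP_Chart_cx_map, ev_map]
  split_ifs
  · rw [map_neg]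
  · rfl

private theorem RP_Chart_lsec_map {n d : ℕ} {R S : Type*} [CommRing R]
    [CommRing S] (f : R →+* S) (i : Fin (n + 1)) (x : Vc n R) (c : R) (b : Vc n R)
    (s : Fin d → Fin (n + 1)) :
    lsec i (fun j => f (x j)) (f c) (fun j => f (b j)) s = f (lsec i x c b s) := by
  unfold lsec
  split_ifs
  · rw [map_sub, map_sum]
    congr 1
    exact Finset.sum_congr rfl fun j _ => (map_mul f _ _).symm
  · rw [map_sum]
    refine Finset.sum_congr rfl fun j _ => ?_
    split_ifs
    · rfl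
    · rw [map_zero]
  · rw [map_zero]

theorem chart_map {n r : ℕ} {d : Fin r → ℕ} {R S : Type*} [CommRing R] [CommRing S] (f : R →+* S)
    (p : Fin (n + 1)) (i0 : Fin r) (y : Kp n d → R) (l : Fin r) (s : Fin (d l) → Fin (n + 1)) :
    chart p i0 (fun c => f (y c)) l s = f (chart p i0 y l s) := by
  unfold chart
  split_ifs with hl
  · have h1 : (-ev (cb p i0 (fun c => f (y c)) l) (cx p i0 (fun c => f (y c)))) =
        f (-ev (cb p i0 y l) (cx p i0 y)) := by
      rw [RP_Chart_cb_map, RP_Chart_cx_map, ev_map, map_neg]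
    have h2 : (fun j => -dev (cb p i0 (fun c => f (y c)) l) (cx p i0 (fun c => f (y c))) j -
        ∑ k ∈ Finset.univ.erase i0, cT p i0 (fun c => f (y c)) k *
          dev (cg p i0 (fun c => f (y c)) k) (cx p i0 (fun c => f (y c))) j) =
        fun j => f (-dev (cb p i0 y l) (cx p i0 y) j -
          ∑ k ∈ Finset.univ.erase i0, cT p i0 y k * dev (cg p i0 y k) (cx p i0 y) j) := by
      funext j
      rw [map_sub, map_neg, map_sum, RP_Chart_cb_map, RP_Chart_cx_map, dev_map]
      congr 1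
      refine Finset.sum_congr rfl fun k _ => ?_
      rw [RP_Chart_cT_map, RP_Chart_cg_map, dev_map, map_mul]
    rw [Pi.add_apply, Pi.add_apply, map_add, h1, h2, RP_Chart_cx_map, RP_Chart_lsec_map,
      RP_Chart_cb_map]
  · rw [RP_Chart_cg_map]

theorem supp_ev {n d : ℕ} (hd : 1 ≤ d) {R : Type*} [CommRing R] (p : Fin (n + 1)) (x : Vc n R)
    (hp : x p = 1) (a : Ten n d R) (ha : ∀ s, (¬ ∃ j, s = spi p j) → a s = 0) :
    ev a x = ∑ j, a (spi p j) * x j := by
  unfold ev
  symm
  refine Fintype.sum_of_injective (spi p) (RP_Chart_spi_inj hd p) _ _ ?_ ?_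
  · intro s hs
    rw [ha s, zero_mul]
    rintro ⟨j, hj⟩
    exact hs ⟨j, hj.symm⟩
  · intro j
    rw [RP_Chart_prod hd p x hp j]

theorem supp_dev {n d : ℕ} (hd : 1 ≤ d) {R : Type*} [CommRing R] (p : Fin (n + 1)) (x : Vc n R)
    (hp : x p = 1) (a : Ten n d R) (ha : ∀ s, (¬ ∃ j, s = spi p j) → a s = 0) (j : Fin (n + 1))
    (hj : j ≠ p) : dev a x j = a (spi p j) := by
  have h1 : ∀ k : Fin d, (∑ s : Fin d → Fin (n + 1), if s k = j then
      a s * ∏ l ∈ Finset.univ.erase k, x (s l) else 0) =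
      ∑ j', if (spi p j' : Fin d → Fin (n + 1)) k = j then
        a (spi p j') * ∏ l ∈ Finset.univ.erase k, x ((spi p j' : Fin d → Fin (n + 1)) l) else 0 := by
    intro k
    symm
    refine Fintype.sum_of_injective (spi p) (RP_Chart_spi_inj hd p) _ _ ?_ ?_
    · intro s hs
      rw [ha s, zero_mul, ite_self]
      rintro ⟨j, hj⟩
      exact hs ⟨j, hj.symm⟩
    · intro j'
      rfl
  unfold dev
  rw [Finset.sum_congr rfl fun k _ => h1 k, Finset.sum_eq_single (⟨0, hd⟩ : Fin d)]
  · rw [Finset.sum_eq_single j]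
    · rw [RP_Chart_spi_zero hd, if_pos rfl]
      have h2 : ∏ l ∈ Finset.univ.erase (⟨0, hd⟩ : Fin d),
          x ((spi p j : Fin d → Fin (n + 1)) l) = 1 := by
        refine Finset.prod_eq_one fun l hl => ?_
        rw [RP_Chart_spi_ne hd p j (Finset.ne_of_mem_erase hl), hp]
      rw [h2, mul_one]
    · intro j' _ hj'
      rw [RP_Chart_spi_zero hd, if_neg hj']
    · intro h
      exact absurd (Finset.mem_univ _) h
  · intro k _ hk
    refine Finset.sum_eq_zero fun j' _ => ?_
    rw [RP_Chart_spi_ne hd p j' hk, if_neg (Ne.symm hj)]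
  · intro h
    exact absurd (Finset.mem_univ _) h

theorem lsec_eq {n d : ℕ} (hd : 1 ≤ d) {R : Type*} [CommRing R] (p : Fin (n + 1)) (x : Vc n R)
    (hp : x p = 1) (a : Ten n d R) (ha : ∀ s, (¬ ∃ j, s = spi p j) → a s = 0) (b : Vc n R)
    (hb : ∀ j, j ≠ p → dev a x j = b j) : a = lsec p x (ev a x) b := by
  have hab : ∀ j, j ≠ p → a (spi p j) = b j := by
    intro j hj
    rw [← hb j hj, supp_dev hd p x hp a ha j hj]
  funext s
  unfold lsec
  split_ifs with h1 h2
  · rw [h2, supp_ev hd p x hp a ha, ← Finset.add_sum_erase _ _ (Finset.mem_univ p), hp, mul_one]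
    have h3 : ∑ j ∈ Finset.univ.erase p, a (spi p j) * x j =
        ∑ j ∈ Finset.univ.erase p, b j * x j := by
      refine Finset.sum_congr rfl fun j hj => ?_
      rw [hab j (Finset.ne_of_mem_erase hj)]
    rw [h3, add_sub_cancel_right]
  · obtain ⟨j, hj⟩ := h1
    have hjp : j ≠ p := by
      rintro rfl
      exact h2 hj
    rw [Finset.sum_eq_single j]
    · rw [if_pos hj, hj, hab j hjp]
    · intro j' _ hj'
      rw [if_neg]
      intro h3
      exact hj' (RP_Chart_spi_inj hd p (h3.symm.trans hj))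
    · intro h
      exact absurd (Finset.mem_univ _) h
  · exact ha s h1

theorem chart_surj {n r : ℕ} {d : Fin r → ℕ} (hd : ∀ i, 1 ≤ d i) {R : Type*} [CommRing R]
    (p : Fin (n + 1)) (i0 : Fin r) (F : Tup n d R) (x : Vc n R) (t : Fin r → R) (hp : x p = 1)
    (ht : t i0 = 1) (h0 : ∀ l, ev (F l) x = 0)
    (h1 : ∀ j, j ≠ p → ∑ l, t l * dev (F l) x j = 0) :
    ∃ y : Kp n d → R, y ⟨i0, fun _ => p⟩ = 0 ∧ chart p i0 y = F := by
  obtain ⟨y, hy⟩ : ∃ y : Kp n d → R, ∀ c : Kp n d, y c =
      if c.2 = (fun _ => p) then (if c.1 = i0 then 0 else t c.1)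
      else if c.1 = i0 ∧ ∃ j, c.2 = spi p j then x (c.2 ⟨0, hd c.1⟩) else F c.1 c.2 :=
    ⟨_, fun _ => rfl⟩
  have y0 : y ⟨i0, fun _ => p⟩ = 0 := by
    rw [hy]
    simp only [if_true]
  have y1 : ∀ j, j ≠ p → y ⟨i0, spi p j⟩ = x j := by
    intro j hj
    rw [hy]
    dsimp only
    rw [if_neg (RP_Chart_spi_const (hd i0) hj), if_pos ⟨rfl, j, rfl⟩, RP_Chart_spi_zero]
  have y2 : ∀ l, l ≠ i0 → y ⟨l, fun _ => p⟩ = t l := by
    intro l hl
    rw [hy]
    dsimp only
    rw [if_pos rfl, if_neg hl]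
  have y3 : ∀ l, l ≠ i0 → ∀ s, s ≠ (fun _ => p) → y ⟨l, s⟩ = F l s := by
    intro l hl s hs
    rw [hy]
    dsimp only
    rw [if_neg hs, if_neg fun h => hl h.1]
  have y4 : ∀ s : Fin (d i0) → Fin (n + 1), (¬ ∃ j, s = spi p j) → y ⟨i0, s⟩ = F i0 s := by
    intro s hs
    rw [hy]
    dsimp only
    rw [if_neg, if_neg fun h => hs h.2]
    intro h
    exact hs ⟨p, by rw [h, RP_Chart_spi_self]⟩
  refine ⟨y, y0, ?_⟩
  have hcx : cx p i0 y = x := by
    funext j
    unfold cx
    split_ifs with hj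
    · rw [hj, hp]
    · exact y1 j hj
  have hcT : ∀ k, cT p i0 y k = t k := by
    intro k
    unfold cT
    split_ifs with hk
    · rw [hk, ht]
    · exact y2 k hk
  have hcg : ∀ l, l ≠ i0 → cg p i0 y l = F l := by
    intro l hl
    have hcb : ∀ s, cb p i0 y l s = if s = (fun _ => p) then 0 else F l s := by
      intro s
      unfold cb
      rw [if_neg hl]
      split_ifs with hs
      · rfl
      · exact y3 l hl s hs
    have h2 : ev (F l - cb p i0 y l) x = F l (fun _ => p) := by
      unfold ev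
      rw [Finset.sum_eq_single (fun _ => p)]
      · rw [Pi.sub_apply, hcb, if_pos rfl, sub_zero, Finset.prod_const, hp, one_pow, mul_one]
      · intro s _ hs
        rw [Pi.sub_apply, hcb, if_neg hs, sub_self, zero_mul]
      · intro h
        exact absurd (Finset.mem_univ _) h
    rw [ev_sub, h0 l, zero_sub] at h2
    funext s
    unfold cg
    split_ifs with hs
    · rw [hcx, h2, hs]
    · rw [hcb, if_neg hs]
  funext l
  unfold chart
  split_ifs with hl
  · subst hl
    have ha : ∀ s, (¬ ∃ j, s = spi p j) → (F l - cb p l y l) s = 0 := by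
      intro s hs
      rw [Pi.sub_apply]
      unfold cb
      rw [if_pos rfl, if_neg hs, y4 s hs, sub_self]
    have hev : ev (F l - cb p l y l) x = -ev (cb p l y l) x := by
      rw [ev_sub, h0 l, zero_sub]
    have hb : ∀ j, j ≠ p → dev (F l - cb p l y l) x j =
        (fun j => -dev (cb p l y l) x j -
          ∑ k ∈ Finset.univ.erase l, cT p l y k * dev (cg p l y k) x j) j := by
      intro j hj
      have h2 := h1 j hj
      rw [← Finset.add_sum_erase _ _ (Finset.mem_univ l), ht, one_mul] at h2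
      have h3 : ∑ k ∈ Finset.univ.erase l, cT p l y k * dev (cg p l y k) x j =
          ∑ k ∈ Finset.univ.erase l, t k * dev (F k) x j := by
        refine Finset.sum_congr rfl fun k hk => ?_
        rw [hcT, hcg k (Finset.ne_of_mem_erase hk)]
      dsimp only
      rw [dev_sub, h3]
      linear_combination h2
    have h4 := lsec_eq (hd l) p x hp (F l - cb p l y l) ha _ hb
    rw [hev] at h4
    rw [hcx, ← h4, add_sub_cancel]
  · exact hcg l hl

end Pool.Agent.Lib.MP_1ad228_ntF
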