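import Pool.Agent.Lib.MP_1ad228_ntF.LD_Lin

/-! Definitions for the real place: singular tuples and the charts of the set of singular tuples. -/

namespace Pool.Agent.Lib.MP_1ad228_ntF

open Classical

/-- The tuple `F` has a singular zero: a nonzero common zero with dependent gradients. -/
def Sing {n r : ℕ} {d : Fin r → ℕ} {K : Type*} [CommRing K] (F : Tup n d K) : Prop :=
  ∃ (x : Vc n K) (t : Fin r → K), x ≠ 0 ∧ t ≠ 0 ∧ (∀ l, ev (F l) x = 0) ∧
    ∀ j, ∑ l, t l * dev (F l) x j = 0

/-- The point of the chart `(p, i0)` with parameters `y`: `x p = 1`, `x j` is the parameter of the entry `spi p j` of the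
tensor `i0`. -/
def cx {n r : ℕ} {d : Fin r → ℕ} {R : Type*} [CommRing R] (p : Fin (n + 1)) (i0 : Fin r)
    (y : Kp n d → R) : Vc n R := fun j => if j = p then 1 else y ⟨i0, spi p j⟩

/-- The coefficients of the dependency: `t i0 = 1`, `t l` is the parameter of the entry `(p, ..., p)` of the tensor `l`. -/
def cT {n r : ℕ} {d : Fin r → ℕ} {R : Type*} [CommRing R] (p : Fin (n + 1)) (i0 : Fin r)
    (y : Kp n d → R) : Fin r → R := fun l => if l = i0 then 1 else y ⟨l, fun _ => p⟩

/-- The free entries (the special entries are 0). -/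
noncomputable def cb {n r : ℕ} {d : Fin r → ℕ} {R : Type*} [CommRing R] (p : Fin (n + 1))
    (i0 : Fin r) (y : Kp n d → R) : Tup n d R := fun l s =>
  if l = i0 then (if ∃ j, s = spi p j then 0 else y ⟨l, s⟩)
  else (if s = fun _ => p then 0 else y ⟨l, s⟩)

/-- The tensors `l ≠ i0` of the chart: the entry `(p, ..., p)` is chosen such that the form vanishes at the point. -/
noncomputable def cg {n r : ℕ} {d : Fin r → ℕ} {R : Type*} [CommRing R] (p : Fin (n + 1))
    (i0 : Fin r) (y : Kp n d → R) : Tup n d R := fun l s =>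
  if s = fun _ => p then -ev (cb p i0 y l) (cx p i0 y) else cb p i0 y l s

/-- The chart. -/
noncomputable def chart {n r : ℕ} {d : Fin r → ℕ} {R : Type*} [CommRing R] (p : Fin (n + 1))
    (i0 : Fin r) (y : Kp n d → R) : Tup n d R := fun l =>
  if l = i0 then cb p i0 y l + lsec p (cx p i0 y) (-ev (cb p i0 y l) (cx p i0 y))
    (fun j => -dev (cb p i0 y l) (cx p i0 y) j -
      ∑ k ∈ Finset.univ.erase i0, cT p i0 y k * dev (cg p i0 y k) (cx p i0 y) j)
  else cg p i0 y l

end Pool.Agent.Lib.MP_1ad228_ntF
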