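import Mathlib

/-!
JOB RP_Null.  The zero set of a nonzero polynomial is a closed null set.

PROOF.  closedPoly: `MvPolynomial.continuous_eval`. nullPoly: let `D = P.totalDegree`, `T = MvPolynomial.homogeneousComponent D P`. `T ≠ 0` (there is `m` in the
support with `m.degree = D`, `MvPolynomial.exists_degree_eq`/`totalDegree` is attained on the nonempty support, and `coeff_homogeneousComponent`), so there is `v : κ → ℝ` with `eval v T ≠ 0`
(`MvPolynomial.funext`: a polynomial over an infinite domain vanishing everywhere is 0). For `ω : κ → ℝ` let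
`p : Polynomial ℝ := MvPolynomial.eval₂ Polynomial.C (fun i => Polynomial.C (ω i) + Polynomial.C (v i) * Polynomial.X) P` (`aeval`), so `p.eval t = eval (ω + t • v) P`.
`p.coeff D = eval v T ≠ 0`: `P = ∑ m ∈ support, monomial m (coeff m)`; the image of `monomial m c` is `C c * ∏ i ∈ m.support, (C (ω i) + C (v i) X)^(m i)`, of natDegree at most
`m.degree ≤ D`, with coefficient `c * ∏ v i ^ m i` at `m.degree` (`Polynomial.coeff_prod_of_natDegree_le`, `Polynomial.coeff_pow_of_natDegree_le`); so the coefficient at `D` is this if `m.degree = D`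
and 0 if `m.degree < D`. Hence `p ≠ 0` has finitely many roots, and `{t | eval (ω + t • v) P = 0}` is finite, so null. Then use
`MeasureTheory.ae_mem_of_ae_add_linearMap_mem (LinearMap.toSpanSingleton ℝ (κ → ℝ) v) volume volume` with the measurable set `{ω | eval ω P ≠ 0}` exactly as in the model
Lib/MP_219881_nt/RP_Null.lean (theorem nullZ).
(Alternative: induction on the number of variables with `MvPolynomial.finSuccEquiv` and Fubini. Any proof is fine.)
-/

namespace Pool.Agent.Lib.MP_1ad228_ntF

open Classical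

theorem closedPoly {κ : Type} [Fintype κ] (P : MvPolynomial κ ℝ) :
    IsClosed {ω : κ → ℝ | MvPolynomial.eval ω P = 0} :=
  isClosed_eq (MvPolynomial.continuous_eval P) continuous_const

private theorem RP_Null_v {κ : Type} [Fintype κ] (P : MvPolynomial κ ℝ) (hP : P ≠ 0) :
    ∃ v : κ → ℝ, MvPolynomial.eval v (MvPolynomial.homogeneousComponent P.totalDegree P) ≠ 0 := by
  by_contra hcon
  push Not at hcon
  have hT : MvPolynomial.homogeneousComponent P.totalDegree P = 0 :=
    MvPolynomial.funext fun x => by rw [hcon x, map_zero]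
  obtain ⟨m, hm, h1⟩ := Finset.exists_mem_eq_sup P.support (MvPolynomial.support_nonempty.2 hP)
    (fun s => s.sum fun _ e => e)
  have h2 : m.degree = P.totalDegree := by
    unfold MvPolynomial.totalDegree
    rw [h1]
    rfl
  have h3 : MvPolynomial.coeff m (MvPolynomial.homogeneousComponent P.totalDegree P) =
      MvPolynomial.coeff m P := by
    rw [MvPolynomial.coeff_homogeneousComponent, if_pos h2]
  rw [hT, MvPolynomial.coeff_zero] at h3
  exact (MvPolynomial.mem_support_iff.1 hm) h3.symm

private theorem RP_Null_deg {κ : Type} [Fintype κ] (m : κ →₀ ℕ) : m.degree = ∑ k, m k := by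
  rw [Finsupp.degree_eq_sum]

private theorem RP_Null_fin {κ : Type} [Fintype κ] (P : MvPolynomial κ ℝ) (ω v : κ → ℝ)
    (hv : MvPolynomial.eval v (MvPolynomial.homogeneousComponent P.totalDegree P) ≠ 0) :
    {t : ℝ | MvPolynomial.eval (ω + t • v) P = 0}.Finite := by
  let q : Polynomial ℝ := ∑ m ∈ P.support, Polynomial.C (P.coeff m) *
    (Polynomial.X ^ (P.totalDegree - m.degree) *
      ∏ k, (Polynomial.X * Polynomial.C (ω k) + Polynomial.C (v k)) ^ m k)
  have heval : ∀ s : ℝ, q.eval s = ∑ m ∈ P.support, P.coeff m *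
      (s ^ (P.totalDegree - m.degree) * ∏ k, (s * ω k + v k) ^ m k) := by
    intro s
    simp only [q, Polynomial.eval_finsetSum, Polynomial.eval_mul, Polynomial.eval_C,
      Polynomial.eval_pow, Polynomial.eval_X, Polynomial.eval_prod, Polynomial.eval_add]
  have hle : ∀ m ∈ P.support, m.degree ≤ P.totalDegree := by
    intro m hm
    exact MvPolynomial.le_totalDegree hm
  have hq : q ≠ 0 := by
    intro h0
    have h1 := heval 0
    rw [h0, Polynomial.eval_zero] at h1
    refine hv ?_
    rw [MvPolynomial.homogeneousComponent_apply, map_sum, h1, Finset.sum_filter]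
    refine Finset.sum_congr rfl fun m hm => ?_
    have h2 := hle m hm
    simp only [zero_mul, zero_add]
    by_cases h3 : m.degree = P.totalDegree
    · rw [if_pos h3, h3, Nat.sub_self, pow_zero, one_mul, MvPolynomial.eval_monomial]
      congr 1
      exact Finsupp.prod_fintype _ _ fun i => pow_zero _
    · rw [if_neg h3, zero_pow (by omega), zero_mul, mul_zero]
  refine ((Set.finite_singleton (0 : ℝ)).union
    ((Polynomial.finite_setOfPred_isRoot hq).image fun s => s⁻¹)).subset fun t ht => ?_
  by_cases h0 : t = 0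
  · exact Or.inl h0
  · refine Or.inr ⟨t⁻¹, ?_, inv_inv t⟩
    have h1 : MvPolynomial.eval (ω + t • v) P = 0 := ht
    show q.eval t⁻¹ = 0
    rw [heval]
    rw [MvPolynomial.eval_eq'] at h1
    have h2 : ∑ m ∈ P.support, P.coeff m *
        (t⁻¹ ^ (P.totalDegree - m.degree) * ∏ k, (t⁻¹ * ω k + v k) ^ m k) =
        t⁻¹ ^ P.totalDegree * ∑ m ∈ P.support, P.coeff m * ∏ k, (ω + t • v) k ^ m k := by
      rw [Finset.mul_sum]
      refine Finset.sum_congr rfl fun m hm => ?_
      have h3 : ∏ k, (t⁻¹ * ω k + v k) ^ m k =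
          t⁻¹ ^ m.degree * ∏ k, (ω + t • v) k ^ m k := by
        rw [RP_Null_deg, ← Finset.prod_pow_eq_pow_sum, ← Finset.prod_mul_distrib]
        refine Finset.prod_congr rfl fun k _ => ?_
        rw [← mul_pow]
        congr 1
        rw [Pi.add_apply, Pi.smul_apply, smul_eq_mul, mul_add, inv_mul_cancel_left₀ h0]
      rw [h3]
      have h4 : t⁻¹ ^ P.totalDegree = t⁻¹ ^ (P.totalDegree - m.degree) * t⁻¹ ^ m.degree := by
        rw [← pow_add, Nat.sub_add_cancel (hle m hm)]
      rw [h4]
      ring
    rw [h2, h1, mul_zero]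

theorem nullPoly {κ : Type} [Fintype κ] (P : MvPolynomial κ ℝ) (hP : P ≠ 0) :
    MeasureTheory.volume {ω : κ → ℝ | MvPolynomial.eval ω P = 0} = 0 := by
  obtain ⟨v, hv⟩ := RP_Null_v P hP
  have hm : MeasurableSet {ω : κ → ℝ | ¬ MvPolynomial.eval ω P = 0} :=
    (closedPoly P).isOpen_compl.measurableSet
  have h := MeasureTheory.ae_mem_of_ae_add_linearMap_mem
    (LinearMap.toSpanSingleton ℝ (κ → ℝ) v) (MeasureTheory.volume : MeasureTheory.Measure ℝ)
    (MeasureTheory.volume : MeasureTheory.Measure (κ → ℝ)) hm (by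
      intro ω
      rw [MeasureTheory.ae_iff]
      have h1 : {t : ℝ | ¬ (ω + (LinearMap.toSpanSingleton ℝ (κ → ℝ) v) t ∈
          {ω : κ → ℝ | ¬ MvPolynomial.eval ω P = 0})} ⊆
          {t : ℝ | MvPolynomial.eval (ω + t • v) P = 0} := by
        intro t ht
        exact not_not.1 ht
      exact MeasureTheory.measure_mono_null h1 ((RP_Null_fin P ω v hv).measure_zero _))
  rw [MeasureTheory.ae_iff] at h
  have h2 : {ω : κ → ℝ | MvPolynomial.eval ω P = 0} ⊆
      {a : κ → ℝ | ¬ a ∈ {ω : κ → ℝ | ¬ MvPolynomial.eval ω P = 0}} := by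
    intro ω hω
    exact not_not.2 hω
  exact MeasureTheory.measure_mono_null h2 h

end Pool.Agent.Lib.MP_1ad228_ntF
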