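import Pool.Agent.Lib.MP_1ad228_ntF.Tp

/-!
JOB Span1.  Tensors vanishing at an `H`-good point are spanned by `d n (n+1)^d` short integer tensors.
(Model with proof: Lib/MP_219881_nt/Span1.lean, the case `d = 2`.)

PROOF.  Let `f` be the short vectors of `HGood H x`. Index `t = (k, s, σ)`, the tensor
`c t = tp (fun l => if l = k then f s else Pi.single (σ l) 1)`. By `ev_tp` it vanishes at `x` (factor `k`);
its entry at `τ` is `f s (τ k)` times factors `0` or `1`, so at most `H` in absolute value.
Spanning: `S` = span of the `ct ℚ (c t)`, `X = cv ℚ x`.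
(M) if `lin (u k) X = 0` for some slot `k` then `tp u ∈ S`: `tp_mem` with `A k = range (cv ℚ (f s))`
(`perp_mem`) and `A l = range (Pi.single j 1)` for `l ≠ k` (`top_mem`); `ct_tp`, `cv_single`.
Let `p = (X o)⁻¹ • e_o`, so `lin p X = 1`. For every `u` and every finset `T` of slots
`tp u - (∏ k ∈ T, lin (u k) X) • tp (fun k => if k ∈ T then p else u k) ∈ S`
(induction on `T`: the difference between `T` and `insert k T` is a multiple of
`tp (v with slot k replaced by u k - lin (u k) X • p)`, in `S` by (M)). With `T = univ` and `u k = e_(σ k)`: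
`tp (e ∘ σ) - (∏ k, X (σ k)) • tp (fun _ => p) ∈ S`. Multiply by `b σ` and sum (`ten_sum`):
`b - ev b X • tp (fun _ => p) ∈ S`, and `ev b X = 0`. Finally
`(Submodule.mem_span_range_iff_exists_fun ℚ).1`.
-/

namespace Pool.Agent.Lib.MP_1ad228_ntF

open Classical

private theorem span1_prod {n d : ℕ} {R : Type*} [CommRing R] (v : Fin d → Vc n R) (k : Fin d) (a : Vc n R)
    (s : Fin d → Fin (n + 1)) :
    tp (Function.update v k a) s = a (s k) * ∏ l ∈ Finset.univ.erase k, v l (s l) := by
  unfold tp
  rw [← Finset.mul_prod_erase Finset.univ _ (Finset.mem_univ k), Function.update_self]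
  congr 1
  refine Finset.prod_congr rfl fun l hl => ?_
  rw [Function.update_of_ne (Finset.ne_of_mem_erase hl)]

private theorem span1_upd {n d : ℕ} (v : Fin d → Vc n ℚ) (k : Fin d) (a b : Vc n ℚ) (c : ℚ) :
    tp (Function.update v k (a - c • b)) = tp (Function.update v k a) - c • tp (Function.update v k b) := by
  funext s
  rw [Pi.sub_apply, Pi.smul_apply, span1_prod, span1_prod, span1_prod, Pi.sub_apply, Pi.smul_apply,
    smul_eq_mul, smul_eq_mul]
  ring

private def span1_c {n d : ℕ} (f : Fin n → Vc n ℤ) (t : Fin d × Fin n × (Fin d → Fin (n + 1))) :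
    Ten n d ℤ :=
  tp (fun l => if l = t.1 then f t.2.1 else Pi.single (t.2.2 l) 1)

private theorem span1_e {n : ℕ} (i j : Fin (n + 1)) : |(Pi.single i 1 : Vc n ℤ) j| ≤ 1 := by
  rw [Pi.single_apply]
  split_ifs <;> simp

theorem span1 {n : ℕ} (d H : ℕ) (o : Fin (n + 1)) (x : Vc n ℤ) (hxo : x o ≠ 0)
    (hx : HGood H x) :
    ∃ c : (Fin d × Fin n × (Fin d → Fin (n + 1))) → Ten n d ℤ, (∀ t, ev (c t) x = 0) ∧
      (∀ t s, |c t s| ≤ (H : ℤ)) ∧
      ∀ b : Ten n d ℚ, ev b (cv ℚ x) = 0 →
        ∃ r : (Fin d × Fin n × (Fin d → Fin (n + 1))) → ℚ,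
          ∀ s, b s = ∑ t, r t * (c t s : ℚ) := by
  obtain ⟨f, hf, h0, hH⟩ := hx
  have hx0 : x ≠ 0 := fun h => hxo (by rw [h]; rfl)
  refine ⟨span1_c f, ?_, ?_, ?_⟩
  · rintro ⟨k, s, σ⟩
    unfold span1_c
    rw [ev_tp]
    refine Finset.prod_eq_zero (Finset.mem_univ k) ?_
    rw [if_pos rfl]
    exact h0 s
  · rintro ⟨k, s, σ⟩ τ
    show |∏ l, (if l = k then f s else (Pi.single (σ l) 1 : Vc n ℤ)) (τ l)| ≤ (H : ℤ)
    rw [← Finset.mul_prod_erase Finset.univ _ (Finset.mem_univ k), if_pos rfl, abs_mul, Finset.abs_prod]
    have h1 : ∏ l ∈ Finset.univ.erase k, |(if l = k then f s else (Pi.single (σ l) 1 : Vc n ℤ)) (τ l)| ≤ 1 := by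
      refine Finset.prod_le_one (fun l _ => abs_nonneg _) fun l hl => ?_
      rw [if_neg (Finset.ne_of_mem_erase hl)]
      exact span1_e _ _
    have h2 := mul_le_mul (hH s (τ k)) h1 (Finset.prod_nonneg fun l _ => abs_nonneg _) (Int.natCast_nonneg H)
    rwa [mul_one] at h2
  · intro b hb
    let S : Submodule ℚ (Ten n d ℚ) := Submodule.span ℚ (Set.range fun t => ct ℚ (span1_c f t))
    let X : Vc n ℚ := cv ℚ x
    have hx1' : X o ≠ 0 := by
      show ((x o : ℤ) : ℚ) ≠ 0
      exact_mod_cast hxo
    have hM : ∀ (u : Fin d → Vc n ℚ) (k : Fin d), lin (u k) X = 0 → tp u ∈ S := by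
      intro u k hk
      refine tp_mem S (fun l => if l = k then (Set.range fun s : Fin n => cv ℚ (f s)) else
        (Set.range fun j : Fin (n + 1) => (Pi.single j 1 : Vc n ℚ))) ?_ u ?_
      · intro a ha
        have hak := ha k
        simp only [if_true] at hak
        obtain ⟨s, hs⟩ := hak
        have h2 : ∀ l, ∃ j : Fin (n + 1), l ≠ k → (Pi.single j 1 : Vc n ℚ) = a l := by
          intro l
          by_cases hl : l = k
          · exact ⟨0, fun h => absurd hl h⟩
          · have hal := ha l
            simp only [if_neg hl] at hal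
            obtain ⟨j, hj⟩ := hal
            exact ⟨j, fun _ => hj⟩
        choose σ hσ using h2
        refine Submodule.subset_span ⟨(k, s, σ), ?_⟩
        show ct ℚ (tp (fun l => if l = k then f s else Pi.single (σ l) 1)) = tp a
        rw [ct_tp]
        refine congrArg tp (funext fun l => ?_)
        by_cases hl : l = k
        · rw [if_pos hl, hl]
          exact hs
        · rw [if_neg hl, cv_single]
          exact hσ l hl
      · intro l
        by_cases hl : l = k
        · simp only [if_pos hl]
          rw [hl]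
          exact perp_mem x hx0 f hf h0 hk
        · simp only [if_neg hl]
          exact top_mem (u l)
    let p : Vc n ℚ := (X o)⁻¹ • (Pi.single o 1 : Vc n ℚ)
    have hp : lin p X = 1 := by
      show lin ((X o)⁻¹ • (Pi.single o 1 : Vc n ℚ)) X = 1
      rw [lin_smul, lin_single]
      exact inv_mul_cancel₀ hx1'
    have hT : ∀ (u : Fin d → Vc n ℚ) (T : Finset (Fin d)),
        tp u - (∏ k ∈ T, lin (u k) X) • tp (fun k => if k ∈ T then p else u k) ∈ S := by
      intro u T
      induction T using Finset.induction_on with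
      | empty =>
        have e1 : (fun k => if k ∈ (∅ : Finset (Fin d)) then p else u k) = u := by
          funext k
          rw [if_neg (Finset.notMem_empty k)]
        rw [e1, Finset.prod_empty, one_smul, sub_self]
        exact S.zero_mem
      | insert k T hkT ih =>
        obtain ⟨v, hv⟩ : ∃ v : Fin d → Vc n ℚ, v = fun l => if l ∈ T then p else u l := ⟨_, rfl⟩
        rw [← hv] at ih
        have hvk : v k = u k := by rw [hv]; exact if_neg hkT
        have e1 : Function.update v k (u k) = v := by rw [← hvk]; exact Function.update_eq_self k v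
        have e2 : (fun l => if l ∈ insert k T then p else u l) = Function.update v k p := by
          funext l
          by_cases hl : l = k
          · rw [hl, Function.update_self, if_pos (Finset.mem_insert_self k T)]
          · rw [Function.update_of_ne hl, hv]
            by_cases hlT : l ∈ T
            · rw [if_pos (Finset.mem_insert_of_mem hlT)]
              exact (if_pos hlT).symm
            · rw [if_neg (by rw [Finset.mem_insert, not_or]; exact ⟨hl, hlT⟩)]
              exact (if_neg hlT).symm
        have h3 : tp v - lin (u k) X • tp (Function.update v k p) ∈ S := by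
          have h4 := span1_upd v k (u k) p (lin (u k) X)
          rw [e1] at h4
          rw [← h4]
          refine hM _ k ?_
          rw [Function.update_self, lin_sub, lin_smul, hp]
          ring
        rw [Finset.prod_insert hkT, e2]
        have e3 : tp u - (lin (u k) X * ∏ k ∈ T, lin (u k) X) • tp (Function.update v k p) =
            (tp u - (∏ k ∈ T, lin (u k) X) • tp v) +
            (∏ k ∈ T, lin (u k) X) • (tp v - lin (u k) X • tp (Function.update v k p)) := by
          rw [smul_sub, smul_smul, mul_comm (lin (u k) X)]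
          abel
        rw [e3]
        exact S.add_mem ih (S.smul_mem _ h3)
    have hb2 : b - ev b X • tp (fun _ => p) ∈ S := by
      have e1 : b - ev b X • tp (fun _ => p) = ∑ σ : Fin d → Fin (n + 1), b σ •
          (tp (fun k => (Pi.single (σ k) 1 : Vc n ℚ)) - (∏ k, X (σ k)) • tp (fun _ => p)) := by
        have e3 : ev b X • tp (fun _ : Fin d => p) = ∑ σ : Fin d → Fin (n + 1), b σ • (∏ k, X (σ k)) •
            tp (fun _ => p) := by
          unfold ev
          simp only [Finset.sum_smul, mul_smul]
        rw [e3]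
        refine (congrArg (fun y => y - ∑ σ : Fin d → Fin (n + 1), b σ • (∏ k, X (σ k)) •
            tp (fun _ => p)) (ten_sum b)).trans ?_
        show (∑ σ : Fin d → Fin (n + 1), b σ • tp (fun k => (Pi.single (σ k) 1 : Vc n ℚ))) -
          ∑ σ : Fin d → Fin (n + 1), b σ • (∏ k, X (σ k)) • tp (fun _ => p) = _
        rw [← Finset.sum_sub_distrib]
        refine Finset.sum_congr rfl fun σ _ => ?_
        rw [smul_sub]
      rw [e1]
      refine Submodule.sum_mem _ fun σ _ => Submodule.smul_mem _ _ ?_
      have h5 := hT (fun k => (Pi.single (σ k) 1 : Vc n ℚ)) Finset.univ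
      simp only [Finset.mem_univ, if_true, lin_single] at h5
      exact h5
    have hb3 : b ∈ S := by
      have e4 : ev b X = 0 := hb
      rw [e4, zero_smul, sub_zero] at hb2
      exact hb2
    obtain ⟨r, hr⟩ := (Submodule.mem_span_range_iff_exists_fun ℚ).1 hb3
    refine ⟨r, fun s => ?_⟩
    rw [← hr]
    simp only [Finset.sum_apply, Pi.smul_apply, smul_eq_mul, ct]

end Pool.Agent.Lib.MP_1ad228_ntF
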