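import Pool.Agent.Lib.MP_1ad228_ntF.Basic

/-!
JOB Tay.  Taylor expansion modulo `c ^ 2`, and derivatives along a line.
(Model: `ev_add_right` in Lib/MP_219881_nt/Basic.lean, `RP_Loc_fderiv` in Lib/MP_219881_nt/RP_Loc.lean.)

Products: by `Finset.induction_on` for a finset `T` of slots and `u, v : Fin d → R` with `c ∣ v k`:
(P1) `c ∣ ∏ k ∈ T, (u k + v k) - ∏ k ∈ T, u k`; (P2) `c ^ 2 ∣ ∏ k ∈ T, (u k + v k) - ∏ k ∈ T, u k - ∑ k ∈ T, v k * ∏ l ∈ T.erase k, u l`
(for `insert k T`: `(u k + v k) ∏ (u + v) = u k ∏ (u+v) + v k ∏ (u+v)`, use (P2) for the first and (P1) for the second product;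
`(insert k T).erase l = insert k (T.erase l)` for `l ∈ T`, `l ≠ k`).
`ev_congr_dvd`: (P1) for each `s` with `u k = x (s k)`, `v k = h (s k)`, times `a s`, sum over `s` (`Finset.dvd_sum`).
`ev_taylor_dvd`: (P2) for each `s`; and
`∑ j, dev a x j * h j = ∑ k, ∑ s, a s * (∏ l ∈ univ.erase k, x (s l)) * h (s k)` (exchange the sums; the inner sum over `j` has only the
term `j = s k`, `Finset.sum_ite_eq`, see the proof of `euler` in Basic.lean).
`dev_congr_dvd`: (P1) on `univ.erase k`, with `v = y - x`, for each term of `dev` (`split_ifs`).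
`ev_line`: `s ↦ ev (a + s • δ) (x + s • h) = ∑ s', (a s' + s δ s') ∏ k, (x (s' k) + s h (s' k))`: `HasDerivAt.fun_sum`, `HasDerivAt.mul`,
`HasDerivAt.finset_prod` (derivative of the product at `0`: `∑ k, (∏ l ∈ univ.erase k, x (s' l)) * h (s' k)`), then the identity above.
`ev_contDiff`: `unfold ev`, `fun_prop` (or `ContDiff.sum`, `contDiff_prod`); `ev_cont` from it or `fun_prop`.
-/

namespace Pool.Agent.Lib.MP_1ad228_ntF

open Classical

section prod
variable {R : Type*} [CommRing R] {d : ℕ}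

private theorem Tay_P1 (c : R) (u v : Fin d → R) (hc : ∀ k, c ∣ v k) (T : Finset (Fin d)) :
    c ∣ ∏ k ∈ T, (u k + v k) - ∏ k ∈ T, u k := by
  induction T using Finset.induction_on with
  | empty => simp
  | insert k T hk ih =>
    rw [Finset.prod_insert hk, Finset.prod_insert hk]
    have h : (u k + v k) * ∏ k ∈ T, (u k + v k) - u k * ∏ k ∈ T, u k =
        u k * (∏ k ∈ T, (u k + v k) - ∏ k ∈ T, u k) + v k * ∏ k ∈ T, (u k + v k) := by ring
    rw [h]
    exact dvd_add (Dvd.dvd.mul_left ih _) (Dvd.dvd.mul_right (hc k) _)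

private theorem Tay_P2 (c : R) (u v : Fin d → R) (hc : ∀ k, c ∣ v k) (T : Finset (Fin d)) :
    c ^ 2 ∣ ∏ k ∈ T, (u k + v k) - ∏ k ∈ T, u k - ∑ k ∈ T, v k * ∏ l ∈ T.erase k, u l := by
  induction T using Finset.induction_on with
  | empty => simp
  | insert k T hk ih =>
    have h1 := Tay_P1 c u v hc T
    rw [Finset.prod_insert hk, Finset.prod_insert hk, Finset.sum_insert hk, Finset.erase_insert hk]
    have h2 : ∑ x ∈ T, v x * ∏ l ∈ (insert k T).erase x, u l =
        u k * ∑ x ∈ T, v x * ∏ l ∈ T.erase x, u l := by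
      rw [Finset.mul_sum]
      refine Finset.sum_congr rfl fun x hx => ?_
      have hne : x ≠ k := fun h => hk (h ▸ hx)
      rw [Finset.erase_insert_of_ne (Ne.symm hne), Finset.prod_insert (fun h => hk (Finset.mem_of_mem_erase h))]
      ring
    rw [h2]
    have h3 : (u k + v k) * ∏ k ∈ T, (u k + v k) - u k * ∏ k ∈ T, u k -
        (v k * ∏ k ∈ T, u k + u k * ∑ x ∈ T, v x * ∏ l ∈ T.erase x, u l) =
        u k * (∏ k ∈ T, (u k + v k) - ∏ k ∈ T, u k - ∑ x ∈ T, v x * ∏ l ∈ T.erase x, u l) +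
        v k * (∏ k ∈ T, (u k + v k) - ∏ k ∈ T, u k) := by ring
    rw [h3]
    refine dvd_add (Dvd.dvd.mul_left ih _) ?_
    rw [pow_two]
    exact mul_dvd_mul (hc k) h1

end prod

private theorem Tay_sum_dev {n d : ℕ} {R : Type*} [CommRing R] (a : Ten n d R) (x h : Vc n R) :
    ∑ j, dev a x j * h j =
      ∑ s : Fin d → Fin (n + 1), a s * ∑ k, h (s k) * ∏ l ∈ Finset.univ.erase k, x (s l) := by
  have h1 : ∀ k : Fin d, ∑ j, (∑ s : Fin d → Fin (n + 1),
      if s k = j then a s * ∏ l ∈ Finset.univ.erase k, x (s l) else 0) * h j =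
      ∑ s : Fin d → Fin (n + 1), a s * (h (s k) * ∏ l ∈ Finset.univ.erase k, x (s l)) := by
    intro k
    simp only [Finset.sum_mul]
    rw [Finset.sum_comm]
    refine Finset.sum_congr rfl fun s _ => ?_
    rw [Finset.sum_eq_single (s k)]
    · rw [if_pos rfl]; ring
    · intro j _ hj
      rw [if_neg (Ne.symm hj), zero_mul]
    · intro h
      exact absurd (Finset.mem_univ _) h
  have h2 : ∑ j, dev a x j * h j = ∑ k : Fin d, ∑ j, (∑ s : Fin d → Fin (n + 1),
      if s k = j then a s * ∏ l ∈ Finset.univ.erase k, x (s l) else 0) * h j := by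
    rw [Finset.sum_comm]
    refine Finset.sum_congr rfl fun j _ => ?_
    rw [← Finset.sum_mul]
    rfl
  rw [h2, Finset.sum_congr rfl fun k _ => h1 k, Finset.sum_comm]
  refine Finset.sum_congr rfl fun s _ => ?_
  rw [Finset.mul_sum]

theorem ev_congr_dvd {n d : ℕ} {R : Type*} [CommRing R] (a : Ten n d R) (x h : Vc n R) (c : R)
    (hc : ∀ l, c ∣ h l) : c ∣ ev a (x + h) - ev a x := by
  simp only [ev, Pi.add_apply, ← Finset.sum_sub_distrib, ← mul_sub]
  refine Finset.dvd_sum fun s _ => Dvd.dvd.mul_left ?_ _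
  exact Tay_P1 c (fun k => x (s k)) (fun k => h (s k)) (fun k => hc (s k)) Finset.univ

theorem ev_taylor_dvd {n d : ℕ} {R : Type*} [CommRing R] (a : Ten n d R) (x h : Vc n R) (c : R)
    (hc : ∀ l, c ∣ h l) : c ^ 2 ∣ ev a (x + h) - ev a x - ∑ j, dev a x j * h j := by
  rw [Tay_sum_dev]
  simp only [ev, Pi.add_apply, ← Finset.sum_sub_distrib, ← mul_sub]
  refine Finset.dvd_sum fun s _ => Dvd.dvd.mul_left ?_ _
  exact Tay_P2 c (fun k => x (s k)) (fun k => h (s k)) (fun k => hc (s k)) Finset.univ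

theorem dev_congr_dvd {n d : ℕ} {R : Type*} [CommRing R] (a : Ten n d R) (x y : Vc n R) (c : R)
    (hc : ∀ l, c ∣ y l - x l) (j : Fin (n + 1)) : c ∣ dev a y j - dev a x j := by
  simp only [dev, ← Finset.sum_sub_distrib]
  refine Finset.dvd_sum fun k _ => Finset.dvd_sum fun s _ => ?_
  split_ifs
  · rw [← mul_sub]
    refine Dvd.dvd.mul_left ?_ _
    have h := Tay_P1 c (fun k => x (s k)) (fun k => y (s k) - x (s k)) (fun k => hc (s k)) (Finset.univ.erase k)
    simpa only [add_sub_cancel] using h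
  · simp

theorem ev_line {n d : ℕ} (a δ : Ten n d ℝ) (x h : Vc n ℝ) :
    HasDerivAt (fun s : ℝ => ev (a + s • δ) (x + s • h)) (ev δ x + ∑ m, dev a x m * h m) 0 := by
  rw [Tay_sum_dev]
  unfold ev
  rw [← Finset.sum_add_distrib]
  refine HasDerivAt.fun_sum fun s' _ => ?_
  simp only [Pi.add_apply, Pi.smul_apply, smul_eq_mul]
  have h1 : HasDerivAt (fun t : ℝ => a s' + t * δ s') (δ s') 0 := by
    have := ((hasDerivAt_id (0:ℝ)).mul_const (δ s')).const_add (a s')
    simpa using this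
  have h2 : ∀ k ∈ (Finset.univ : Finset (Fin d)),
      HasDerivAt (fun t : ℝ => x (s' k) + t * h (s' k)) (h (s' k)) 0 := by
    intro k _
    have := ((hasDerivAt_id (0:ℝ)).mul_const (h (s' k))).const_add (x (s' k))
    simpa using this
  have h3 := h1.fun_mul (HasDerivAt.fun_finsetProd h2)
  have e : δ s' * ∏ i, (x (s' i) + 0 * h (s' i)) + (a s' + 0 * δ s') *
      ∑ i, (∏ j ∈ Finset.univ.erase i, (x (s' j) + 0 * h (s' j))) • h (s' i) =
      δ s' * ∏ k, x (s' k) + a s' * ∑ k, h (s' k) * ∏ l ∈ Finset.univ.erase k, x (s' l) := by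
    simp only [zero_mul, add_zero, smul_eq_mul]
    congr 2
    exact Finset.sum_congr rfl fun k _ => mul_comm _ _
  rw [e] at h3
  exact h3

theorem ev_contDiff (n : ℕ) {r : ℕ} (d : Fin r → ℕ) (k : Fin r) :
    ContDiff ℝ 1 (fun q : (Kp n d → ℝ) × Vc n ℝ => ev (pt q.1 k) q.2) := by
  unfold ev pt
  refine ContDiff.sum fun s _ => ContDiff.mul ?_ (contDiff_prod fun l _ => ?_)
  · exact (contDiff_apply ℝ ℝ (⟨k, s⟩ : Kp n d)).comp contDiff_fst
  · exact (contDiff_apply ℝ ℝ (s l)).comp contDiff_snd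

theorem dev_scale {n d : ℕ} {R : Type*} [CommRing R] (c : R) (a : Ten n d R) (x : Vc n R)
    (j : Fin (n + 1)) : dev a (fun i => c * x i) j = c ^ (d - 1) * dev a x j := by
  simp only [dev, Finset.mul_sum]
  refine Finset.sum_congr rfl fun k _ => Finset.sum_congr rfl fun s _ => ?_
  split_ifs
  · rw [Finset.prod_mul_distrib, Finset.prod_const, Finset.card_erase_of_mem (Finset.mem_univ k), Finset.card_univ,
      Fintype.card_fin]
    ring
  · ring

end Pool.Agent.Lib.MP_1ad228_ntF
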