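import Pool.Agent.Lib.MP_1ad228_ntF.Basic

/-!
JOB Tp.  Multilinear algebra of product tensors.  (Model: Lib/MP_219881_nt/Span1.lean, private lemmas.)

`tp_mem`: by induction on a finset `T` of slots: for all `u` with `u k ∈ span (A k)` for `k ∈ T` and
`u k ∈ A k` for `k ∉ T`, `tp u ∈ S`. For `insert k T`: the map `v ↦ tp (Function.update u k v)` is linear
(entry: `∏ l, (update u k v) l (s l) = v (s k) * ∏ l ∈ univ.erase k, u l (s l)`), so
`Submodule.span_le` applied to the comap of `S` (every element of `A k` is good by the induction hypothesis).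
`ten_sum`: at `s`, `∏ k, Pi.single (σ k) 1 (s k)` is `1` if `σ = s` and `0` otherwise (`Finset.prod_eq_zero`).
`tp_sum`: pointwise `Finset.prod_univ_sum`. `tp_smul`: pointwise `Finset.prod_mul_distrib`.
`perp_mem`: `Pool.Agent.Lib.MP_219881_nt.perpSpan`.
`top_mem`: `(Pi.basisFun ℚ (Fin (n+1))).span_eq`.
-/

namespace Pool.Agent.Lib.MP_1ad228_ntF

open Classical

private theorem tpm_entry {n d : ℕ} (u : Fin d → Vc n ℚ) (k : Fin d) (v : Vc n ℚ)
    (s : Fin d → Fin (n + 1)) :
    tp (Function.update u k v) s = v (s k) * ∏ l ∈ Finset.univ.erase k, u l (s l) := by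
  unfold tp
  rw [← Finset.mul_prod_erase Finset.univ _ (Finset.mem_univ k), Function.update_self]
  congr 1
  refine Finset.prod_congr rfl fun l hl => ?_
  rw [Function.update_of_ne (Finset.ne_of_mem_erase hl)]

private noncomputable def tpm_L {n d : ℕ} (u : Fin d → Vc n ℚ) (k : Fin d) : Vc n ℚ →ₗ[ℚ] Ten n d ℚ where
  toFun v := tp (Function.update u k v)
  map_add' a b := by
    funext s
    rw [Pi.add_apply, tpm_entry, tpm_entry, tpm_entry, Pi.add_apply]
    ring
  map_smul' r a := by
    funext s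
    rw [Pi.smul_apply, tpm_entry, tpm_entry, Pi.smul_apply, smul_eq_mul, smul_eq_mul, RingHom.id_apply]
    ring

theorem tp_mem {n d : ℕ} (S : Submodule ℚ (Ten n d ℚ)) (A : Fin d → Set (Vc n ℚ))
    (h : ∀ a : Fin d → Vc n ℚ, (∀ k, a k ∈ A k) → tp a ∈ S) (u : Fin d → Vc n ℚ)
    (hu : ∀ k, u k ∈ Submodule.span ℚ (A k)) : tp u ∈ S := by
  have key : ∀ T : Finset (Fin d), ∀ u : Fin d → Vc n ℚ,
      (∀ k ∈ T, u k ∈ Submodule.span ℚ (A k)) → (∀ k, k ∉ T → u k ∈ A k) → tp u ∈ S := by
    intro T
    induction T using Finset.induction_on with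
    | empty =>
      intro u _ h2
      exact h u fun k => h2 k (Finset.notMem_empty k)
    | insert k T hk ih =>
      intro u h1 h2
      have h3 : Submodule.span ℚ (A k) ≤ S.comap (tpm_L u k) := by
        refine Submodule.span_le.2 fun a ha => ?_
        show tp (Function.update u k a) ∈ S
        refine ih _ ?_ ?_
        · intro l hl
          have hne : l ≠ k := fun he => hk (he ▸ hl)
          rw [Function.update_of_ne hne]
          exact h1 l (Finset.mem_insert_of_mem hl)
        · intro l hl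
          by_cases hne : l = k
          · rw [hne, Function.update_self]
            exact ha
          · rw [Function.update_of_ne hne]
            exact h2 l fun h5 => (Finset.mem_insert.1 h5).elim hne hl
      have h4 : tp (Function.update u k (u k)) ∈ S := h3 (h1 k (Finset.mem_insert_self k T))
      rwa [Function.update_eq_self] at h4
  exact key Finset.univ u (fun k _ => hu k) fun k hk => absurd (Finset.mem_univ k) hk

theorem ten_sum {n d : ℕ} {R : Type*} [CommRing R] (b : Ten n d R) :
    b = ∑ σ : Fin d → Fin (n + 1), b σ • tp (fun k => (Pi.single (σ k) 1 : Vc n R)) := by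
  funext s
  rw [Finset.sum_apply, Finset.sum_eq_single s]
  · rw [Pi.smul_apply, smul_eq_mul]
    have h1 : tp (fun k => (Pi.single (s k) 1 : Vc n R)) s = 1 :=
      Finset.prod_eq_one fun k _ => Pi.single_eq_same (s k) 1
    rw [h1, mul_one]
  · intro σ _ hne
    obtain ⟨k, hk⟩ : ∃ k, σ k ≠ s k := by
      by_contra hcon
      push Not at hcon
      exact hne (funext hcon)
    have h1 : tp (fun k => (Pi.single (σ k) 1 : Vc n R)) s = 0 :=
      Finset.prod_eq_zero (Finset.mem_univ k) (Pi.single_eq_of_ne (Ne.symm hk) 1)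
    rw [Pi.smul_apply, smul_eq_mul, h1, mul_zero]
  · intro h
    exact absurd (Finset.mem_univ s) h

theorem tp_sum {n d : ℕ} {R : Type*} [CommRing R] {ι : Type} [Fintype ι]
    (w : Fin d → ι → Vc n R) :
    tp (fun k => ∑ i, w k i) = ∑ v : Fin d → ι, tp (fun k => w k (v k)) := by
  funext s
  rw [Finset.sum_apply]
  unfold tp
  simp only [Finset.sum_apply]
  rw [Finset.prod_univ_sum, Fintype.piFinset_univ]

theorem tp_smul {n d : ℕ} {R : Type*} [CommRing R] (c : Fin d → R) (u : Fin d → Vc n R) :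
    tp (fun k => c k • u k) = (∏ k, c k) • tp u := by
  funext s
  rw [Pi.smul_apply, smul_eq_mul]
  unfold tp
  rw [← Finset.prod_mul_distrib]
  exact Finset.prod_congr rfl fun k _ => rfl

theorem ct_tp {n d : ℕ} (R : Type*) [CommRing R] (u : Fin d → Vc n ℤ) :
    ct R (tp u) = tp (fun k => cv R (u k)) := by
  funext s
  unfold ct tp
  rw [Int.cast_prod]
  rfl

theorem cv_single {n : ℕ} (R : Type*) [CommRing R] (j : Fin (n + 1)) :
    cv R (Pi.single j 1 : Vc n ℤ) = Pi.single j 1 := by
  funext i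
  simp only [cv, Pi.single_apply]
  split_ifs <;> simp

theorem perp_mem {n : ℕ} (x : Vc n ℤ) (hx : x ≠ 0) (f : Fin n → Vc n ℤ)
    (hf : LinearIndependent ℤ f) (h0 : ∀ s, lin (f s) x = 0) {u : Vc n ℚ}
    (hu : lin u (cv ℚ x) = 0) :
    u ∈ Submodule.span ℚ (Set.range fun s : Fin n => cv ℚ (f s)) := by
  obtain ⟨t, ht⟩ := Pool.Agent.Lib.MP_219881_nt.perpSpan x hx f hf h0 u hu
  have h1 : u = ∑ s, t s • cv ℚ (f s) := by
    funext i
    rw [ht i, Finset.sum_apply]
    rfl
  rw [h1]
  exact Submodule.sum_mem _ fun s _ => Submodule.smul_mem _ _ (Submodule.subset_span ⟨s, rfl⟩)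

theorem top_mem {n : ℕ} (v : Vc n ℚ) :
    v ∈ Submodule.span ℚ (Set.range fun j : Fin (n + 1) => (Pi.single j 1 : Vc n ℚ)) := by
  have h := (Pi.basisFun ℚ (Fin (n + 1))).span_eq
  have h2 : (Set.range fun j : Fin (n + 1) => (Pi.single j 1 : Vc n ℚ)) =
      Set.range (Pi.basisFun ℚ (Fin (n + 1))) := by
    congr 1
    funext j
    rw [Pi.basisFun_apply]
  rw [h2, h]
  trivial

end Pool.Agent.Lib.MP_1ad228_ntF
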